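import Pool.Agent.H417R2.CH.Defs2

/-!
Task ABSM: the modulus of a minimiser of the Rayleigh quotient is a minimiser.
-/

set_option autoImplicit false
open MeasureTheory Metric Set Filter Topology
open scoped ContDiff InnerProductSpace ENNReal NNReal

namespace Pool.Agent.H417R2.CH

open Pool.Agent.Helper546 (Tst lap)

namespace ABSM

theorem nsq {E : Type*} [NormedAddCommGroup E] [InnerProductSpace ℝ E]
    (f : Lp E 2 (volume : Measure V)) : ‖f‖ ^ 2 = ∫ x, ‖f x‖ ^ 2 := by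
  rw [← real_inner_self_eq_norm_sq, L2.inner_def]
  refine integral_congr_ae (Eventually.of_forall fun x => ?_)
  simp only [real_inner_self_eq_norm_sq]

theorem nsq' {E : Type*} [NormedAddCommGroup E] [InnerProductSpace ℝ E]
    (f : V → E) (hf : MemLp f 2 (volume : Measure V)) : ‖hf.toLp f‖ ^ 2 = ∫ x, ‖f x‖ ^ 2 := by
  rw [nsq]
  apply integral_congr_ae
  filter_upwards [hf.coeFn_toLp] with x hx
  rw [hx]

theorem isq {E : Type*} [NormedAddCommGroup E] [InnerProductSpace ℝ E]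
    (f : V → E) (hf : MemLp f 2 (volume : Measure V)) : Integrable (fun x => ‖f x‖ ^ 2) :=
  hf.integrable_norm_pow (by norm_num)

theorem tendsto_of_sq {E : Type*} [NormedAddCommGroup E] [InnerProductSpace ℝ E]
    (f : ℕ → Lp E 2 (volume : Measure V)) (g : Lp E 2 (volume : Measure V))
    (h : ∀ n : ℕ, ‖f n - g‖ ^ 2 ≤ 1 / ((n : ℝ) + 1)) : Tendsto f atTop (𝓝 g) := by
  rw [tendsto_iff_norm_sub_tendsto_zero]
  have h1 : Tendsto (fun n : ℕ => ‖f n - g‖ ^ 2) atTop (𝓝 0) :=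
    squeeze_zero (fun n => by positivity) h tendsto_one_div_add_atTop_nhds_zero_nat
  have h2 := h1.sqrt
  simpa [Real.sqrt_sq] using h2

theorem normgrad (f : V → ℝ) (x : V) : ‖gradient f x‖ = ‖fderiv ℝ f x‖ := by
  unfold gradient
  exact LinearIsometryEquiv.norm_map _ _

theorem grad_abs (h4 : S_GZ) (φ : V → ℝ) (K : ℝ≥0) (hφ : LipschitzWith K φ) :
    ∀ᵐ x : V, ‖gradient (fun y => |φ y|) x‖ = ‖gradient φ x‖ := by
  have hψ : LipschitzWith K (fun y => |φ y|) := by
    have := (lipschitzWith_one_norm (E := ℝ)).comp hφ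
    simpa [Function.comp_def] using this
  filter_upwards [h4 φ K hφ, h4 _ K hψ] with x hx1 hx2
  rw [normgrad, normgrad]
  rcases lt_trichotomy (φ x) 0 with h | h | h
  · have : (fun y => |φ y|) =ᶠ[𝓝 x] fun y => - φ y := by
      filter_upwards [hφ.continuous.continuousAt.eventually (gt_mem_nhds h)] with y hy
      exact abs_of_neg hy
    rw [this.fderiv_eq, fderiv_fun_neg, norm_neg]
  · rw [hx1 h, hx2 (by simp [h])]
  · have : (fun y => |φ y|) =ᶠ[𝓝 x] φ := by
      filter_upwards [hφ.continuous.continuousAt.eventually (lt_mem_nhds h)] with y hy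
      exact abs_of_pos hy
    rw [this.fderiv_eq]

theorem sq_two {E : Type*} [NormedAddCommGroup E] [InnerProductSpace ℝ E]
    (a b c : V → E) (hab : MemLp (fun x => a x - b x) 2 (volume : Measure V))
    (hbc : MemLp (fun x => b x - c x) 2 (volume : Measure V))
    (ε : ℝ) (h1 : ∫ x, ‖a x - b x‖ ^ 2 < ε / 4) (h2 : ∫ x, ‖b x - c x‖ ^ 2 < ε / 4) :
    ∫ x, ‖a x - c x‖ ^ 2 < ε := by
  have h3 : ∫ x, ‖a x - c x‖ ^ 2 ≤ ∫ x, (2 * ‖a x - b x‖ ^ 2 + 2 * ‖b x - c x‖ ^ 2) := by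
    have hac : MemLp (fun x => a x - c x) 2 (volume : Measure V) := by
      have := hab.add hbc
      refine this.congr_norm (this.aestronglyMeasurable.congr ?_) ?_
      · exact Eventually.of_forall fun x => by simp
      · exact Eventually.of_forall fun x => by simp
    refine integral_mono (isq _ hac) (((isq _ hab).const_mul 2).add ((isq _ hbc).const_mul 2)) ?_
    intro x
    have : a x - c x = (a x - b x) + (b x - c x) := by abel
    simp only
    rw [this]
    have h5 := norm_add_le (a x - b x) (b x - c x)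
    have h6 := norm_nonneg ((a x - b x) + (b x - c x))
    nlinarith [sq_nonneg (‖a x - b x‖ - ‖b x - c x‖)]
  rw [integral_add ((isq _ hab).const_mul 2) ((isq _ hbc).const_mul 2), integral_const_mul,
    integral_const_mul] at h3
  linarith

end ABSM

open ABSM in
theorem t_ABSM (h1 : S_HADD) (h2 : S_HLAM) (h3 : S_HLIP) (h4 : S_GZ) : S_ABSM := by
  intro U hU hUne v G hv hmin
  have hlam := h2 U hU hUne
  -- test functions
  have hex : ∀ n : ℕ, ∃ φ : V → ℝ, Tst U φ ∧ ∫ x, (v x - φ x) ^ 2 < 1 / ((n : ℝ) + 1) ∧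
      ∫ x, ‖G x - gradient φ x‖ ^ 2 < 1 / ((n : ℝ) + 1) := fun n =>
    hv.approx _ (by positivity)
  choose φ hφT hφ1 hφ2 using hex
  have hLip : ∀ n, ∃ K : ℝ≥0, LipschitzWith K (φ n) := fun n =>
    ContDiff.lipschitzWith_of_hasCompactSupport (hφT n).2.1 (hφT n).1 (by simp)
  choose K hK using hLip
  set ψ : ℕ → V → ℝ := fun n y => |φ n y| with hψdef
  have hψL : ∀ n, LipschitzWith (K n) (ψ n) := by
    intro n
    have := (lipschitzWith_one_norm (E := ℝ)).comp (hK n)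
    simpa [Function.comp_def, hψdef] using this
  have hφz : ∀ n x, x ∉ U → φ n x = 0 := by
    intro n x hx
    by_contra hne
    exact hx ((hφT n).2.2 (subset_tsupport _ hne))
  have hφH : ∀ n, H10 U (φ n) (gradient (φ n)) := fun n =>
    h3 U hU (φ n) (K n) (hK n) (hφT n).2.1 (hφz n)
  have hψc : ∀ n, HasCompactSupport (ψ n) := by
    intro n
    have := (hφT n).2.1.comp_left (g := fun t : ℝ => |t|) (by simp)
    simpa [Function.comp_def, hψdef] using this
  have hψH : ∀ n, H10 U (ψ n) (gradient (ψ n)) := fun n =>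
    h3 U hU (ψ n) (K n) (hψL n) (hψc n) (fun x hx => by simp [hψdef, hφz n x hx])
  have hvabs : MemLp (fun x => |v x|) 2 (volume : Measure V) := hv.memu.norm
  -- elements of L²
  let P : ℕ → Lp ℝ 2 (volume : Measure V) := fun n => (hψH n).memu.toLp (ψ n)
  let W : Lp ℝ 2 (volume : Measure V) := hvabs.toLp _
  let Φ : ℕ → Lp V 2 (volume : Measure V) := fun n => (hφH n).memG.toLp _
  let GG : Lp V 2 (volume : Measure V) := hv.memG.toLp _
  let g : ℕ → Lp V 2 (volume : Measure V) := fun n => (hψH n).memG.toLp _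
  -- P n → W
  have hPW : Tendsto P atTop (𝓝 W) := by
    apply tendsto_of_sq
    intro n
    have e1 : P n - W = ((hψH n).memu.sub hvabs).toLp _ := (MemLp.toLp_sub _ _).symm
    rw [e1, nsq']
    refine le_trans ?_ (hφ1 n).le
    refine integral_mono (isq _ ((hψH n).memu.sub hvabs)) ?_ ?_
    · have := isq _ (hv.memu.sub (hφH n).memu)
      simpa using this
    · intro x
      simp only [Pi.sub_apply, Real.norm_eq_abs, sq_abs]
      have := abs_abs_sub_abs_le_abs_sub (φ n x) (v x)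
      have h5 : (|φ n x| - |v x|) ^ 2 ≤ (φ n x - v x) ^ 2 := by
        rw [← sq_abs, ← sq_abs (φ n x - v x)]
        exact pow_le_pow_left₀ (abs_nonneg _) this 2
      calc (ψ n x - |v x|) ^ 2 ≤ (φ n x - v x) ^ 2 := h5
        _ = (v x - φ n x) ^ 2 := by ring
  have hΦG : Tendsto Φ atTop (𝓝 GG) := by
    apply tendsto_of_sq
    intro n
    have e1 : Φ n - GG = ((hφH n).memG.sub hv.memG).toLp _ := (MemLp.toLp_sub _ _).symm
    rw [e1, nsq']
    refine le_trans (le_of_eq ?_) (hφ2 n).le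
    refine integral_congr_ae (Eventually.of_forall fun x => ?_)
    simp only [Pi.sub_apply]
    rw [norm_sub_rev]
  have hgΦ : ∀ n, ‖g n‖ ^ 2 = ‖Φ n‖ ^ 2 := by
    intro n
    rw [nsq', nsq']
    apply integral_congr_ae
    filter_upwards [grad_abs h4 (φ n) (K n) (hK n)] with x hx
    rw [hψdef]
    simp only
    rw [hx]
  have hWv : ‖W‖ ^ 2 = ∫ x, v x ^ 2 := by
    rw [nsq']
    refine integral_congr_ae (Eventually.of_forall fun x => ?_)
    simp
  have hGGv : ‖GG‖ ^ 2 = lam U * ∫ x, v x ^ 2 := by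
    rw [nsq', hmin]
  have hlim1 : Tendsto (fun n => ‖g n‖ ^ 2) atTop (𝓝 (lam U * ‖W‖ ^ 2)) := by
    simp only [hgΦ]
    rw [hWv, ← hGGv]
    exact (hΦG.norm).pow 2
  -- lower bound for the sum
  have hsum : ∀ n m, lam U * ‖P n + P m‖ ^ 2 ≤ ‖g n + g m‖ ^ 2 := by
    intro n m
    have hH := h1.1 U (ψ n) (ψ m) (gradient (ψ n)) (gradient (ψ m)) 1 1 (hψH n) (hψH m)
    simp only [one_mul, one_smul] at hH
    have h5 := hlam.2 _ _ hH
    have e1 : P n + P m = ((hψH n).memu.add (hψH m).memu).toLp _ := (MemLp.toLp_add _ _).symm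
    have e2 : g n + g m = ((hψH n).memG.add (hψH m).memG).toLp _ := (MemLp.toLp_add _ _).symm
    rw [e1, e2, nsq', nsq']
    have e3 : ∫ x, ‖(ψ n + ψ m) x‖ ^ 2 = ∫ x, (ψ n x + ψ m x) ^ 2 := by
      refine integral_congr_ae (Eventually.of_forall fun x => ?_)
      simp
    rw [e3]
    exact h5
  have hpar : ∀ n m, ‖g n - g m‖ ^ 2 ≤ 2 * ‖g n‖ ^ 2 + 2 * ‖g m‖ ^ 2 - lam U * ‖P n + P m‖ ^ 2 := by
    intro n m
    have h5 := parallelogram_law_with_norm ℝ (g n) (g m)
    have h6 := hsum n m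
    nlinarith
  have hcau : CauchySeq g := by
    rw [cauchySeq_iff_tendsto_dist_atTop_0]
    rw [← prod_atTop_atTop_eq]
    have t1 : Tendsto (fun n : ℕ × ℕ => ‖g n.1‖ ^ 2) (atTop ×ˢ atTop) (𝓝 (lam U * ‖W‖ ^ 2)) :=
      hlim1.comp tendsto_fst
    have t2 : Tendsto (fun n : ℕ × ℕ => ‖g n.2‖ ^ 2) (atTop ×ˢ atTop) (𝓝 (lam U * ‖W‖ ^ 2)) :=
      hlim1.comp tendsto_snd
    have t3 : Tendsto (fun n : ℕ × ℕ => ‖P n.1 + P n.2‖ ^ 2) (atTop ×ˢ atTop) (𝓝 (‖W + W‖ ^ 2)) :=
      (((hPW.comp tendsto_fst).add (hPW.comp tendsto_snd)).norm).pow 2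
    have t4 : Tendsto (fun n : ℕ × ℕ => 2 * ‖g n.1‖ ^ 2 + 2 * ‖g n.2‖ ^ 2 -
        lam U * ‖P n.1 + P n.2‖ ^ 2) (atTop ×ˢ atTop) (𝓝 0) := by
      have := ((t1.const_mul 2).add (t2.const_mul 2)).sub (t3.const_mul (lam U))
      have e : 2 * (lam U * ‖W‖ ^ 2) + 2 * (lam U * ‖W‖ ^ 2) - lam U * ‖W + W‖ ^ 2 = 0 := by
        rw [← two_smul ℝ W, norm_smul]
        simp only [Real.norm_ofNat]
        ring
      rwa [e] at this
    have t5 : Tendsto (fun n : ℕ × ℕ => ‖g n.1 - g n.2‖ ^ 2) (atTop ×ˢ atTop) (𝓝 0) :=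
      squeeze_zero (fun n => by positivity) (fun n => hpar n.1 n.2) t4
    have t6 := t5.sqrt
    simpa [Real.sqrt_sq, dist_eq_norm] using t6
  obtain ⟨g0, hg0⟩ := cauchySeq_tendsto_of_complete hcau
  refine ⟨g0, ⟨hvabs, Lp.memLp g0, ?_⟩, ?_⟩
  · intro ε hε
    have e4 : 0 < ε / 4 := by positivity
    have c1 : ∀ᶠ n in atTop, ‖P n - W‖ ^ 2 < ε / 4 := by
      have := ((hPW.sub_const W).norm).pow 2
      simp only [sub_self, norm_zero, ne_eq, OfNat.ofNat_ne_zero, not_false_eq_true, zero_pow] at this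
      exact this.eventually (gt_mem_nhds e4)
    have c2 : ∀ᶠ n in atTop, ‖g n - g0‖ ^ 2 < ε / 4 := by
      have := ((hg0.sub_const g0).norm).pow 2
      simp only [sub_self, norm_zero, ne_eq, OfNat.ofNat_ne_zero, not_false_eq_true, zero_pow] at this
      exact this.eventually (gt_mem_nhds e4)
    obtain ⟨n, hn1, hn2⟩ := (c1.and c2).exists
    obtain ⟨χ, hχT, hχ1, hχ2⟩ := (hψH n).approx (ε / 4) e4
    have hLχ : ∃ K : ℝ≥0, LipschitzWith K χ :=
      ContDiff.lipschitzWith_of_hasCompactSupport hχT.2.1 hχT.1 (by simp)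
    obtain ⟨Kχ, hKχ⟩ := hLχ
    have hχz : ∀ x, x ∉ U → χ x = 0 := by
      intro x hx
      by_contra hne
      exact hx (hχT.2.2 (subset_tsupport _ hne))
    have hχH : H10 U χ (gradient χ) := h3 U hU χ Kχ hKχ hχT.2.1 hχz
    refine ⟨χ, hχT, ?_, ?_⟩
    · have q1 : ∫ x, ‖|v x| - ψ n x‖ ^ 2 < ε / 4 := by
        have e1 : P n - W = ((hψH n).memu.sub hvabs).toLp _ := (MemLp.toLp_sub _ _).symm
        rw [e1, nsq'] at hn1
        refine lt_of_le_of_lt (le_of_eq ?_) hn1
        refine integral_congr_ae (Eventually.of_forall fun x => ?_)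
        simp only [Pi.sub_apply]
        rw [norm_sub_rev]
      have q2 : ∫ x, ‖ψ n x - χ x‖ ^ 2 < ε / 4 := by
        simpa using hχ1
      have := sq_two (fun x => |v x|) (ψ n) χ (hvabs.sub (hψH n).memu)
        ((hψH n).memu.sub hχH.memu) ε q1 q2
      simpa using this
    · have q1 : ∫ x, ‖g0 x - gradient (ψ n) x‖ ^ 2 < ε / 4 := by
        rw [nsq] at hn2
        refine lt_of_le_of_lt (le_of_eq ?_) hn2
        apply integral_congr_ae
        filter_upwards [Lp.coeFn_sub (g n) g0, (hψH n).memG.coeFn_toLp] with x hx1 hx2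
        rw [hx1]
        simp only [Pi.sub_apply, g]
        rw [hx2, norm_sub_rev]
      exact sq_two (fun x => g0 x) (gradient (ψ n)) (gradient χ) ((Lp.memLp g0).sub (hψH n).memG)
        ((hψH n).memG.sub hχH.memG) ε q1 hχ2
  · have t1 : Tendsto (fun n => ‖g n‖ ^ 2) atTop (𝓝 (‖g0‖ ^ 2)) := hg0.norm.pow 2
    have := tendsto_nhds_unique t1 hlim1
    rw [nsq, hWv] at this
    exact this

end Pool.Agent.H417R2.CH
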