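import Pool.Agent.H417R2.CH.Defs2

/-!
Project CH (helper417), task ACT: accumulation points of extreme points are touched by an
interior ball of radius `r`.
-/

set_option autoImplicit false
open MeasureTheory Metric Set Filter Topology
open scoped ContDiff InnerProductSpace ENNReal NNReal

namespace Pool.Agent.H417R2.CH

namespace ACT

@[simp] lemma pt0 (x y : ℝ) : (pt x y) 0 = x := by simp [pt]

@[simp] lemma pt1 (x y : ℝ) : (pt x y) 1 = y := by simp [pt]

lemma pt_eta (p : V) : pt (p 0) (p 1) = p := by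
  ext i
  fin_cases i <;> simp [pt]

lemma cont_pt : Continuous fun p : ℝ × ℝ => pt p.1 p.2 := by
  unfold pt
  refine (PiLp.continuous_toLp 2 _).comp (continuous_pi fun i => ?_)
  fin_cases i <;> simp <;> fun_prop

lemma cont_coord (i : Fin 2) : Continuous fun p : V => p i := by fun_prop

/-- interior points are not extreme -/
lemma extreme_not_mem {U : Set V} (hU : IsOpen U) {e : V} (he : e ∈ extremePoints ℝ (closure U)) :
    e ∉ U := by
  intro heU
  obtain ⟨δ, hδ, hb⟩ := Metric.isOpen_iff.1 hU e heU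
  set v : V := pt (δ / 2) 0 with hv
  have hvn : ‖v‖ < δ := by
    rw [EuclideanSpace.norm_eq, Fin.sum_univ_two, hv, pt0, pt1]
    have : √(‖δ / 2‖ ^ 2 + ‖(0 : ℝ)‖ ^ 2) = δ / 2 := by
      rw [Real.norm_eq_abs, sq_abs, norm_zero]
      rw [show (δ / 2) ^ 2 + (0 : ℝ) ^ 2 = (δ / 2) ^ 2 by ring]
      exact Real.sqrt_sq (by linarith)
    rw [this]
    linarith
  have h1 : e + v ∈ closure U := subset_closure (hb (by
    rw [mem_ball, dist_eq_norm]
    simpa using hvn))
  have h2 : e - v ∈ closure U := subset_closure (hb (by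
    rw [mem_ball, dist_eq_norm]
    simpa using hvn))
  have h3 : e ∈ openSegment ℝ (e + v) (e - v) := by
    refine ⟨1 / 2, 1 / 2, by norm_num, by norm_num, by norm_num, ?_⟩
    module
  have h4 := he.2 h1 h2 h3
  have h5 : v = 0 := by simpa using h4
  have h6 : v 0 = 0 := by rw [h5]; rfl
  rw [hv, pt0] at h6
  linarith

lemma image_closure' (Φ : V ≃ᵢ V) (U : Set V) : closure (Φ '' U) = Φ '' closure U :=
  (Φ.toHomeomorph.image_closure U).symm

/-- extreme points are mapped to extreme points by isometries -/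
lemma extreme_image (Φ : V ≃ᵢ V) (U : Set V) {e : V} (he : e ∈ extremePoints ℝ (closure U)) :
    Φ e ∈ extremePoints ℝ (closure (Φ '' U)) := by
  refine ⟨?_, ?_⟩
  · rw [image_closure']
    exact mem_image_of_mem _ he.1
  · intro x hx y hy hs
    rw [image_closure'] at hx hy
    obtain ⟨x', hx', rfl⟩ := hx
    obtain ⟨y', hy', rfl⟩ := hy
    have h1 := image_openSegment ℝ
      (Φ.toRealAffineIsometryEquiv.toAffineEquiv : V →ᵃ[ℝ] V) x' y'
    have h2 : ∀ z : V, (Φ.toRealAffineIsometryEquiv.toAffineEquiv : V →ᵃ[ℝ] V) z = Φ z := by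
      intro z
      exact congrFun Φ.coeFn_toRealAffineIsometryEquiv z
    rw [h2, h2] at h1
    rw [← h1] at hs
    obtain ⟨z, hz, hz2⟩ := hs
    rw [h2] at hz2
    have hze : z = e := Φ.injective hz2
    rw [hze] at hz
    rw [he.2 hx' hy' hz]

/-- the set of centres of the balls in an open set is compact -/
lemma isCompact_Inn {U : Set V} (hb : Bornology.IsBounded U) {r : ℝ} (hr : 0 < r) :
    IsCompact (Inn U r) := by
  refine Metric.isCompact_of_isClosed_isBounded ?_ (hb.subset fun y hy => hy (mem_ball_self hr))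
  refine isClosed_of_closure_subset fun y hy z hz => ?_
  rw [mem_ball] at hz
  obtain ⟨y', hy', hd⟩ := Metric.mem_closure_iff.1 hy (r - dist z y) (by linarith)
  refine hy' ?_
  rw [mem_ball]
  calc dist z y' ≤ dist z y + dist y y' := dist_triangle _ _ _
    _ < r := by linarith

lemma three {S : Set ℝ} (hS : S.Infinite) : ∃ a b d : ℝ, a ∈ S ∧ b ∈ S ∧ d ∈ S ∧ a < b ∧ b < d := by
  obtain ⟨t, ht, hc⟩ := hS.exists_subset_card_eq 3
  have hf := fun i => ht (Finset.orderEmbOfFin_mem t hc i)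
  refine ⟨_, _, _, hf 0, hf 1, hf 2, ?_, ?_⟩
  · exact (t.orderEmbOfFin hc).strictMono (by decide)
  · exact (t.orderEmbOfFin hc).strictMono (by decide)

end ACT

open ACT in
theorem t_ACT (h1 : S_STR) (h2 : S_ADM) (h3 : S_HAT) (h4 : S_ISOM) (h5 : S_REG) (h6 : S_NRM)
    (h7 : S_EXB) (h8 : S_CPT) : S_ACT := by
  intro U r hG x₀ hx₀
  by_contra hcon
  push Not at hcon
  have hpc := hG.pc
  have hr := hG.r_pos
  -- `x₀` is a boundary point
  have hx₀U : x₀ ∉ U := by
    intro hxU
    obtain ⟨ε, hε, hb⟩ := Metric.isOpen_iff.1 hpc.isOpen x₀ hxU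
    obtain ⟨e, he1, he2⟩ := (hx₀ ε hε).nonempty
    exact extreme_not_mem hpc.isOpen he1 (hb he2)
  have hx₀c : x₀ ∈ closure U := by
    rw [← closure_closure, Metric.mem_closure_iff]
    intro ε hε
    obtain ⟨e, he1, he2⟩ := (hx₀ ε hε).nonempty
    exact ⟨e, he1.1, by rw [dist_comm]; exact he2⟩
  obtain ⟨c, hc⟩ := hpc.ne
  obtain ⟨Φ, α, β, l, g, k, hΦc, hk, hΦx, hreg, hΦU⟩ := h6 U hpc c hc x₀
  have h0R : (0 : V) ∈ Reg α β l g := by
    rw [← hΦU, ← hΦc]
    exact mem_image_of_mem _ hc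
  obtain ⟨hα, hβ, hl0, hg0⟩ := h0R
  simp only [PiLp.zero_apply] at hα hβ hl0 hg0
  have h0I : (0 : ℝ) ∈ Ioo α β := ⟨hα, hβ⟩
  have hgc : ContinuousOn g (Ioo α β) := hreg.cg.continuousOn isOpen_Ioo
  have hgc0 : ContinuousAt g 0 := hgc.continuousAt (isOpen_Ioo.mem_nhds h0I)
  have hkR : pt 0 k ∉ Reg α β l g := by
    rw [← hΦU, ← hΦx]
    rintro ⟨z, hz, hzx⟩
    exact hx₀U (Φ.injective hzx ▸ hz)
  have hkc : pt 0 k ∈ closure (Reg α β l g) := by
    rw [← hΦU, ← hΦx, image_closure']
    exact mem_image_of_mem _ hx₀c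
  have hkg : k = g 0 := by
    apply le_antisymm
    · obtain ⟨p, hp, hlim⟩ := mem_closure_iff_seq_limit.1 hkc
      have e0 : Tendsto (fun n => (p n) 0) atTop (𝓝 0) := by
        have h := (cont_coord 0).tendsto (pt 0 k)
        rw [pt0] at h
        exact h.comp hlim
      have e1 : Tendsto (fun n => (p n) 1) atTop (𝓝 k) := by
        have h := (cont_coord 1).tendsto (pt 0 k)
        rw [pt1] at h
        exact h.comp hlim
      have e2 : Tendsto (fun n => g ((p n) 0)) atTop (𝓝 (g 0)) := hgc0.tendsto.comp e0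
      exact le_of_tendsto_of_tendsto e1 e2 (Eventually.of_forall fun n => (hp n).2.2.2.le)
    · by_contra hlt
      push Not at hlt
      apply hkR
      refine ⟨?_, ?_, ?_, ?_⟩
      · rw [pt0]; exact hα
      · rw [pt0]; exact hβ
      · rw [pt0, pt1]; linarith
      · rw [pt0, pt1]; exact hlt
  have hG' : Good (Reg α β l g) r := by
    rw [← hΦU]
    exact h4 Φ U r hG
  -- accumulation of extreme points
  have hacc : ∀ ε : ℝ, 0 < ε →
      (extremePoints ℝ (closure (Reg α β l g)) ∩ ball (pt 0 (g 0)) ε).Infinite := by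
    intro ε hε
    refine ((hx₀ ε hε).image Φ.injective.injOn).mono ?_
    rintro _ ⟨e, ⟨he1, he2⟩, rfl⟩
    refine ⟨?_, ?_⟩
    · rw [← hΦU]
      exact extreme_image Φ U he1
    · rw [← hkg, ← hΦx, mem_ball, Φ.dist_eq]
      exact he2
  -- balls of radius `r` are at distance larger than `r`
  have hgap : ∀ y ∈ Inn (Reg α β l g) r, r < dist (pt 0 (g 0)) y := by
    intro y hy
    have hge : r ≤ dist (pt 0 (g 0)) y := by
      by_contra hlt
      push Not at hlt
      rw [← hkg] at hlt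
      exact hkR (hy (mem_ball.2 hlt))
    refine lt_of_le_of_ne hge fun heq => ?_
    refine hcon (Φ.symm y) ?_ ?_
    · intro z hz
      rw [mem_ball] at hz
      have : Φ z ∈ Reg α β l g := by
        apply hy
        rw [mem_ball, ← Φ.apply_symm_apply y, Φ.dist_eq]
        exact hz
      rw [← hΦU] at this
      obtain ⟨w, hw, hwz⟩ := this
      exact Φ.injective hwz ▸ hw
    · rw [← Φ.dist_eq, Φ.apply_symm_apply, hΦx, hkg]
      exact heq.symm
  have hcomp : IsCompact (Inn (Reg α β l g) r) := isCompact_Inn hG'.pc.bdd hr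
  -- uniform gap
  obtain ⟨D, hD, hDg⟩ : ∃ D : ℝ, r < D ∧ ∀ y ∈ Inn (Reg α β l g) r, D ≤ dist (pt 0 (g 0)) y := by
    rcases (Inn (Reg α β l g) r).eq_empty_or_nonempty with hem | hne
    · exact ⟨r + 1, by linarith, fun y hy => by rw [hem] at hy; exact absurd hy (notMem_empty _)⟩
    · obtain ⟨y, hy, hyd⟩ := hcomp.exists_infDist_eq_dist hne (pt 0 (g 0))
      refine ⟨dist (pt 0 (g 0)) y, hgap y hy, fun z hz => ?_⟩
      rw [← hyd]
      exact infDist_le_dist_of_mem hz
  have hcont : ContinuousAt (fun X : ℝ => pt X (g X)) 0 := by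
    have : ContinuousAt (fun X : ℝ => (X, g X)) 0 := continuousAt_id.prodMk hgc0
    exact (cont_pt.continuousAt (x := ((0 : ℝ), g 0))).comp_of_eq this rfl
  obtain ⟨e₁, he₁, hclose⟩ := Metric.continuousAt_iff.1 hcont (D - r) (by linarith)
  set e : ℝ := min (e₁ / 2) (min (-α / 2) (β / 2)) with he
  have hepos : 0 < e := lt_min (by linarith) (lt_min (by linarith) (by linarith))
  have hee₁ : e < e₁ := lt_of_le_of_lt (min_le_left _ _) (by linarith)
  have heα : α < -e := by
    have : e ≤ -α / 2 := (min_le_right _ _).trans (min_le_left _ _)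
    linarith
  have heβ : e < β := by
    have : e ≤ β / 2 := (min_le_right _ _).trans (min_le_right _ _)
    linarith
  have hfar : ∀ X : ℝ, |X| ≤ e → ∀ y, ball y r ⊆ Reg α β l g → r < dist (pt X (g X)) y := by
    intro X hX y hy
    have a1 := hclose (x := X) (by rw [Real.dist_eq, sub_zero]; exact lt_of_le_of_lt hX hee₁)
    have a2 := hDg y hy
    have a3 := dist_triangle (pt 0 (g 0)) (pt X (g X)) y
    rw [dist_comm (pt X (g X)) (pt 0 (g 0))] at a1
    linarith
  -- three bends
  obtain ⟨a, b, d, ⟨⟨ha1, ha2⟩, ha⟩, ⟨⟨hb1, hb2⟩, hb⟩, ⟨⟨hd1, hd2⟩, hd⟩, hab, hbd⟩ :=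
    three (h7 α β l g hreg 0 h0I hacc e hepos)
  rw [zero_sub] at ha1 hb1 hd1
  rw [zero_add] at ha2 hb2 hd2
  set ε : ℝ := min (1 / 8) (min ((b - a) / 8) (min ((d - b) / 8) (min ((a + e) / 2) ((e - d) / 2))))
    with hε
  have hε1 : ε ≤ 1 / 8 := min_le_left _ _
  have hε2 : ε ≤ (b - a) / 8 := (min_le_right _ _).trans (min_le_left _ _)
  have hε3 : ε ≤ (d - b) / 8 :=
    (min_le_right _ _).trans ((min_le_right _ _).trans (min_le_left _ _))
  have hε4 : ε ≤ (a + e) / 2 := (min_le_right _ _).trans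
    ((min_le_right _ _).trans ((min_le_right _ _).trans (min_le_left _ _)))
  have hε5 : ε ≤ (e - d) / 2 := (min_le_right _ _).trans
    ((min_le_right _ _).trans ((min_le_right _ _).trans (min_le_right _ _)))
  have hεpos : 0 < ε := by
    refine lt_min (by norm_num) (lt_min (by linarith) (lt_min (by linarith)
      (lt_min (by linarith) (by linarith))))
  obtain ⟨φ, H, hadm, hhat⟩ := h3 α β g hreg.cg a b d ε hεpos (by linarith) (by linarith)
    (by linarith) (by linarith) (by linarith) ha hb hd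
  have hφb : 0 < φ b := by
    have n1 := hhat.near b
    have n2 : hat a b d b = 1 := by
      unfold hat
      rw [div_self (sub_pos.2 hab).ne', div_self (sub_pos.2 hbd).ne']
      simp
    rw [n2, abs_le] at n1
    have n3 := hhat.H_pos
    nlinarith [n1.1]
  obtain ⟨t₀, ht₀, hInn⟩ := h8 α β l g hreg r hr φ (a - ε) (d + ε) hadm hhat.nonneg
    (fun y hy X hX => hfar X (by rw [abs_le]; constructor <;> linarith [hX.1, hX.2]) y hy)
  obtain ⟨t₁, ht₁, hReg⟩ := h2.2.2 α β l g φ (a - ε) (d + ε) hreg hadm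
  set t : ℝ := min t₀ t₁ with ht
  have htpos : 0 < t := lt_min ht₀ ht₁
  have hRt := hReg t (by rw [abs_of_pos htpos]; exact min_le_right _ _)
  have hPt := h5.1 α β l _ hRt
  have hIt := hInn t htpos.le (min_le_left _ _)
  have hsub : Reg α β l g ⊆ Reg α β l (fun x => g x + t * φ x) := by
    rintro p ⟨p1, p2, p3, p4⟩
    refine ⟨p1, p2, p3, ?_⟩
    have := mul_nonneg htpos.le (hhat.nonneg (p 0))
    show p 1 < g (p 0) + t * φ (p 0)
    linarith
  have hne : Reg α β l g ≠ Reg α β l (fun x => g x + t * φ x) := by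
    intro heq
    have hbI : b ∈ Ioo α β := ⟨by linarith, by linarith⟩
    have : pt b (g b) ∈ Reg α β l (fun x => g x + t * φ x) := by
      refine ⟨?_, ?_, ?_, ?_⟩
      · rw [pt0]; exact hbI.1
      · rw [pt0]; exact hbI.2
      · rw [pt0, pt1]; exact hreg.lg b hbI
      · simp only [pt0, pt1]
        have := mul_pos htpos hφb
        linarith
    rw [← heq] at this
    have h9 := this.2.2.2
    rw [pt0, pt1] at h9
    exact lt_irrefl _ h9
  have hstr := h1 _ _ hG'.pc hPt hsub hne
  have hopt := hG'.opt _ r hPt hr (by rw [hIt]; exact hG'.area)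
  have hr2 : 0 < r ^ 2 := by positivity
  exact absurd (mul_lt_mul_of_pos_right hstr hr2) (not_lt.2 hopt)

end Pool.Agent.H417R2.CH
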