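import Pool.Agent.H417R2.CH.Defs2

/-!
Project CH (helper417), task ADM: admissible perturbations.
-/

set_option autoImplicit false
open MeasureTheory Metric Set Filter Topology
open scoped ContDiff InnerProductSpace ENNReal NNReal

namespace Pool.Agent.H417R2.CH

namespace ADM

/-- a concave function on an open interval is Lipschitz on compact subintervals -/
lemma lipIcc {α β a d : ℝ} {f : ℝ → ℝ} (hf : ConcaveOn ℝ (Ioo α β) f) (ha : α < a)
    (hd : d < β) : ∃ K : ℝ≥0, LipschitzOnWith K f (Icc a d) := by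
  have h1 : LocallyLipschitzOn (Ioo α β) f := hf.locallyLipschitzOn isOpen_Ioo
  have h2 : LocallyLipschitzOn (Icc a d) f :=
    h1.mono (fun x hx => ⟨lt_of_lt_of_le ha hx.1, lt_of_le_of_lt hx.2 hd⟩)
  exact h2.exists_lipschitzOnWith_of_compact isCompact_Icc

lemma lipAdm {α β a d : ℝ} {g φ : ℝ → ℝ} (h : Adm α β g φ a d) :
    ∃ K : ℝ≥0, LipschitzWith K φ := by
  obtain ⟨K₁, h₁⟩ := lipIcc h.plus h.ha h.hd
  obtain ⟨K₂, h₂⟩ := lipIcc h.minus h.ha h.hd
  have hcl : ∀ x, φ x = φ (max a (min d x)) := by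
    intro x
    by_cases hx : x ∈ Ioo a d
    · rw [min_eq_right hx.2.le, max_eq_right hx.1.le]
    · rw [h.zero x hx]
      by_cases h1 : x ≤ a
      · have : max a (min d x) = a := max_eq_left ((min_le_right _ _).trans h1)
        rw [this, h.zero a (by simp)]
      · push Not at h1
        have h2 : d ≤ x := by
          by_contra h3
          push Not at h3
          exact hx ⟨h1, h3⟩
        have : max a (min d x) = d := by rw [min_eq_left h2, max_eq_right h.had.le]
        rw [this, h.zero d (by simp)]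
  refine ⟨K₁ + K₂, LipschitzWith.of_dist_le_mul fun x y => ?_⟩
  have hmem : ∀ x : ℝ, max a (min d x) ∈ Icc a d := fun x =>
    ⟨le_max_left _ _, max_le h.had.le (min_le_left _ _)⟩
  have e1 := h₁.dist_le_mul _ (hmem x) _ (hmem y)
  have e2 := h₂.dist_le_mul _ (hmem x) _ (hmem y)
  rw [hcl x, hcl y]
  have hd' : dist (max a (min d x)) (max a (min d y)) ≤ dist x y := by
    rw [Real.dist_eq, Real.dist_eq]
    calc |max a (min d x) - max a (min d y)| ≤ |min d x - min d y| := by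
          have := abs_max_sub_max_le_abs (min d x) (min d y) a
          rwa [max_comm _ a, max_comm _ a] at this
      _ ≤ |x - y| := by
          have := abs_min_sub_min_le_max d x d y
          simpa using this
  simp only [Real.dist_eq] at e1 e2 hd' ⊢
  push_cast
  set X := max a (min d x)
  set Y := max a (min d y)
  have e3 : φ X - φ Y = ((g X + φ X - (g Y + φ Y)) - (g X - φ X - (g Y - φ Y))) / 2 := by ring
  have e4 : |φ X - φ Y| ≤ (|g X + φ X - (g Y + φ Y)| + |g X - φ X - (g Y - φ Y)|) / 2 := by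
    rw [e3, abs_div, abs_two]
    gcongr
    exact abs_sub _ _
  have hK₁ : (0 : ℝ) ≤ K₁ := K₁.2
  have hK₂ : (0 : ℝ) ≤ K₂ := K₂.2
  have hXY : 0 ≤ |X - Y| := abs_nonneg _
  have e5 : (K₁ + K₂ : ℝ) * |X - Y| ≤ (K₁ + K₂) * |x - y| :=
    mul_le_mul_of_nonneg_left hd' (by positivity)
  have e6 : 0 ≤ (K₁ : ℝ) * |X - Y| := by positivity
  have e7 : 0 ≤ (K₂ : ℝ) * |X - Y| := by positivity
  nlinarith

/-- `g + c φ` with `|c| ≤ 1` -/
lemma conc {α β : ℝ} {g φ : ℝ → ℝ} (hp : ConcaveOn ℝ (Ioo α β) (fun x => g x + φ x))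
    (hm : ConcaveOn ℝ (Ioo α β) (fun x => g x - φ x)) {c : ℝ} (hc : |c| ≤ 1) :
    ConcaveOn ℝ (Ioo α β) (fun x => g x + c * φ x) := by
  have hc' := abs_le.1 hc
  have h1 : ConcaveOn ℝ (Ioo α β) (fun x => (1 + c) / 2 * (g x + φ x)) := by
    simpa [smul_eq_mul] using hp.smul (c := (1 + c) / 2) (by linarith)
  have h2 : ConcaveOn ℝ (Ioo α β) (fun x => (1 - c) / 2 * (g x - φ x)) := by
    simpa [smul_eq_mul] using hm.smul (c := (1 - c) / 2) (by linarith)
  have h3 := h1.add h2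
  refine h3.congr fun x _ => ?_
  simp only [Pi.add_apply]
  ring

/-- `g + c₁ φ₁ + c₂ φ₂` with `|c₁| + |c₂| ≤ 1` -/
lemma conc2 {α β : ℝ} {g φ₁ φ₂ : ℝ → ℝ} (hg : ConcaveOn ℝ (Ioo α β) g)
    (hp₁ : ConcaveOn ℝ (Ioo α β) (fun x => g x + φ₁ x))
    (hm₁ : ConcaveOn ℝ (Ioo α β) (fun x => g x - φ₁ x))
    (hp₂ : ConcaveOn ℝ (Ioo α β) (fun x => g x + φ₂ x))
    (hm₂ : ConcaveOn ℝ (Ioo α β) (fun x => g x - φ₂ x)) {v₁ v₂ : ℝ} (hv : |v₁| + |v₂| ≤ 1) :
    ConcaveOn ℝ (Ioo α β) (fun x => g x + (v₁ * φ₁ x + v₂ * φ₂ x)) := by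
  -- `g + s ψ`, weight `|v|`
  have key : ∀ (v : ℝ) (ψ : ℝ → ℝ), ConcaveOn ℝ (Ioo α β) (fun x => g x + ψ x) →
      ConcaveOn ℝ (Ioo α β) (fun x => g x - ψ x) →
      ConcaveOn ℝ (Ioo α β) (fun x => |v| * g x + v * ψ x) := by
    intro v ψ hp hm
    rcases le_total 0 v with h | h
    · have h1 : ConcaveOn ℝ (Ioo α β) (fun x => v * (g x + ψ x)) := by
        simpa [smul_eq_mul] using hp.smul (c := v) h
      refine h1.congr fun x _ => ?_
      rw [abs_of_nonneg h]; ring
    · have h1 : ConcaveOn ℝ (Ioo α β) (fun x => (-v) * (g x - ψ x)) := by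
        simpa [smul_eq_mul] using hm.smul (c := -v) (by linarith)
      refine h1.congr fun x _ => ?_
      rw [abs_of_nonpos h]; ring
  have h0 : ConcaveOn ℝ (Ioo α β) (fun x => (1 - |v₁| - |v₂|) * g x) := by
    simpa [smul_eq_mul] using hg.smul (c := 1 - |v₁| - |v₂|) (by linarith)
  have h3 := ((key v₁ φ₁ hp₁ hm₁).add (key v₂ φ₂ hp₂ hm₂)).add h0
  refine h3.congr fun x _ => ?_
  simp only [Pi.add_apply]
  ring

end ADM

open ADM in
theorem t_ADM : S_ADM := by
  refine ⟨?_, ?_, ?_⟩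
  · intro α β g φ a d h
    obtain ⟨K, hK⟩ := lipAdm h
    exact ⟨hK.continuous, K, hK⟩
  · intro α β g φ₁ φ₂ a₁ d₁ a₂ d₂ v₁ v₂ h₁ h₂ hg hv
    refine ⟨lt_min h₁.ha h₂.ha, max_lt h₁.hd h₂.hd,
      (min_le_left _ _).trans_lt (h₁.had.trans_le (le_max_left _ _)), ?_, ?_, ?_⟩
    · intro x hx
      have e1 : φ₁ x = 0 := h₁.zero x fun hx' =>
        hx ⟨(min_le_left _ _).trans_lt hx'.1, hx'.2.trans_le (le_max_left _ _)⟩
      have e2 : φ₂ x = 0 := h₂.zero x fun hx' =>
        hx ⟨(min_le_right _ _).trans_lt hx'.1, hx'.2.trans_le (le_max_right _ _)⟩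
      simp [e1, e2]
    · exact conc2 hg h₁.plus h₁.minus h₂.plus h₂.minus hv
    · have h := conc2 hg h₁.plus h₁.minus h₂.plus h₂.minus (v₁ := -v₁) (v₂ := -v₂)
        (by simpa [abs_neg] using hv)
      refine h.congr fun x _ => ?_
      ring
  · intro α β l g φ a d hR h
    obtain ⟨K, hK⟩ := lipAdm h
    have hsub : Icc a d ⊆ Ioo α β := fun x hx =>
      ⟨lt_of_lt_of_le h.ha hx.1, lt_of_le_of_lt hx.2 h.hd⟩
    have hne : (Icc a d).Nonempty := nonempty_Icc.2 h.had.le
    have hgc : ContinuousOn g (Icc a d) := (hR.cg.continuousOn isOpen_Ioo).mono hsub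
    have hlc : ContinuousOn l (Icc a d) := (hR.cl.continuousOn isOpen_Ioo).mono hsub
    obtain ⟨x₀, hx₀, hmin⟩ := isCompact_Icc.exists_isMinOn hne (hgc.sub hlc)
    have hm : 0 < g x₀ - l x₀ := sub_pos.2 (hR.lg x₀ (hsub hx₀))
    set m : ℝ := g x₀ - l x₀ with hm_def
    obtain ⟨B₀, hB₀⟩ := (isCompact_Icc (a := a) (b := d)).exists_bound_of_continuousOn
      hK.continuous.continuousOn
    have hB : ∀ x, |φ x| ≤ max B₀ 0 := by
      intro x
      by_cases hx : x ∈ Ioo a d
      · exact (hB₀ x (Ioo_subset_Icc_self hx)).trans (le_max_left _ _)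
      · rw [h.zero x hx, abs_zero]; exact le_max_right _ _
    set B : ℝ := max B₀ 0
    have hB0 : 0 ≤ B := le_max_right _ _
    refine ⟨min 1 (m / (B + 1)), lt_min one_pos (by positivity), fun t ht => ?_⟩
    have ht1 : |t| ≤ 1 := ht.trans (min_le_left _ _)
    have ht2 : |t| ≤ m / (B + 1) := ht.trans (min_le_right _ _)
    have hB1 : 0 < B + 1 := by linarith
    have ht3 : |t| * (B + 1) ≤ m := (le_div_iff₀ hB1).1 ht2
    refine ⟨hR.lt, hR.cl, conc h.plus h.minus ht1, ?_, ?_⟩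
    · intro x hx
      by_cases hx' : x ∈ Ioo a d
      · have e1 : m ≤ g x - l x := hmin (Ioo_subset_Icc_self hx')
        have e2 : |t * φ x| ≤ |t| * B := by
          rw [abs_mul]; exact mul_le_mul_of_nonneg_left (hB x) (abs_nonneg _)
        have e3 := abs_le.1 e2
        rcases eq_or_lt_of_le (abs_nonneg t) with h0 | h0
        · have : t = 0 := abs_eq_zero.1 h0.symm
          subst this
          simpa using hR.lg x hx
        · nlinarith
      · rw [h.zero x hx']
        simpa using hR.lg x hx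
    · obtain ⟨M, hM⟩ := hR.bd
      refine ⟨M + B, fun x hx => ?_⟩
      have e2 : |t * φ x| ≤ B := by
        rw [abs_mul]
        calc |t| * |φ x| ≤ 1 * B := by
              apply mul_le_mul ht1 (hB x) (abs_nonneg _) zero_le_one
          _ = B := one_mul B
      have e3 := abs_le.1 e2
      have e4 := hM x hx
      constructor
      · linarith [e4.1]
      · linarith [e4.2, e3.2]

end Pool.Agent.H417R2.CH
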