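import Pool.Agent.H417R2.CH.Defs2

/-! ARE: area of the inner parallel set, assembly. -/

set_option autoImplicit false
open MeasureTheory Metric Set Filter Topology
open scoped ContDiff InnerProductSpace ENNReal NNReal

namespace Pool.Agent.H417R2.CH

theorem t_ARE (h1 : S_AR1) (h2 : S_AR2) : S_ARE := by
  intro U r α β l g R k X₀ hF δ₀ hδ hδR φ a d hA hXa hd
  obtain ⟨t₁, ht₁, H1⟩ := h1 U r α β l g R k X₀ hF δ₀ hδ hδR φ a d hA hXa hd
  obtain ⟨t₂, ht₂, H2⟩ := h2 U r α β l g R k X₀ hF δ₀ hδ hδR φ a d hA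
  refine ⟨min t₁ t₂, lt_min ht₁ ht₂, fun t ht => ?_⟩
  have H1' := H1 t (ht.trans (min_le_left _ _))
  have H2' := H2 t (ht.trans (min_le_right _ _))
  set A : Set V := Inn (Reg α β l (fun x => g x + t * φ x)) r with hAdef
  set B : Set V := Inn U r with hB
  set S : Set V := {p : V | |p 0| ≤ δ₀} with hS
  have hSm : MeasurableSet S := by
    have hc : Continuous (fun p : V => |p 0|) := by fun_prop
    exact (isClosed_Iic.preimage hc).measurableSet
  have hBU : B ⊆ U := fun p hp => hp (mem_ball_self hF.good.r_pos)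
  have hBfin : volume B ≠ ⊤ :=
    ((hF.good.pc.bdd.subset hBU).measure_lt_top).ne
  have hAeq : ar A ≤ ar (A ∩ S) + ar (A \ S) := by
    unfold ar
    rw [← measure_inter_add_diff A hSm]
    exact ENNReal.toReal_add_le
  have hBeq : ar B = ar (B ∩ S) + ar (B \ S) := by
    unfold ar
    rw [← measure_inter_add_diff B hSm]
    refine ENNReal.toReal_add ?_ ?_
    · exact (lt_of_le_of_lt (measure_mono inter_subset_left) hBfin.lt_top).ne
    · exact (lt_of_le_of_lt (measure_mono diff_subset) hBfin.lt_top).ne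
  have hsub : A \ S ⊆ B \ S := by
    rintro p ⟨hp, hpS⟩
    refine ⟨H1' p hp ?_, hpS⟩
    by_contra hcon
    exact hpS (not_lt.1 hcon)
  have hdiff : ar (A \ S) ≤ ar (B \ S) := by
    unfold ar
    exact ENNReal.toReal_mono (lt_of_le_of_lt (measure_mono diff_subset) hBfin.lt_top).ne
      (measure_mono hsub)
  have H2'' : ar (A ∩ S) ≤ ar (B ∩ S) + FF g r δ₀ (fun x => t * φ x) := H2'
  linarith

end Pool.Agent.H417R2.CH
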