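import Pool.Agent.H417R2.CH.Defs2

/-! BEND: extreme points are bends. -/

set_option autoImplicit false
open MeasureTheory Metric Set Filter Topology
open scoped ContDiff InnerProductSpace ENNReal NNReal

namespace Pool.Agent.H417R2.CH

namespace BEND

theorem pt_zero (x y : ℝ) : pt x y 0 = x := by simp [pt]
theorem pt_one (x y : ℝ) : pt x y 1 = y := by simp [pt]
theorem pt_eta (p : V) : pt (p 0) (p 1) = p := by
  ext i; fin_cases i <;> simp [pt]

theorem pt_comb (a b x y x' y' : ℝ) :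
    a • pt x y + b • pt x' y' = pt (a * x + b * x') (a * y + b * y') := by
  ext i; fin_cases i <;> simp [pt]

theorem cont0 : Continuous (fun p : V => p 0) := by fun_prop
theorem cont1 : Continuous (fun p : V => p 1) := by fun_prop

theorem cont_pt : Continuous (fun q : ℝ × ℝ => pt q.1 q.2) := by
  unfold pt
  fun_prop

variable {α β : ℝ} {l g : ℝ → ℝ}

/-- not extreme: a proper midpoint -/
theorem not_extreme {S : Set V} {e : V} (he : e ∈ extremePoints ℝ S) {x y t s : ℝ} (ht : t ≠ 0)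
    (hxy : e = pt x y) (h1 : pt (x - t) (y - s) ∈ S) (h2 : pt (x + t) (y + s) ∈ S) : False := by
  have h3 : e ∈ openSegment ℝ (pt (x - t) (y - s)) (pt (x + t) (y + s)) := by
    refine ⟨1 / 2, 1 / 2, by norm_num, by norm_num, by norm_num, ?_⟩
    rw [pt_comb, hxy]
    congr 1 <;> ring
  have h4 := he.2 h1 h2 h3
  have h5 : pt (x - t) (y - s) 0 = e 0 := by
    rw [h4]
  rw [hxy, pt_zero, pt_zero] at h5
  exact ht (by linarith)

theorem not_extreme' {S : Set V} {e : V} (he : e ∈ extremePoints ℝ S) {x y s : ℝ} (hs : s ≠ 0)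
    (hxy : e = pt x y) (h1 : pt x (y - s) ∈ S) (h2 : pt x (y + s) ∈ S) : False := by
  have h3 : e ∈ openSegment ℝ (pt x (y - s)) (pt x (y + s)) := by
    refine ⟨1 / 2, 1 / 2, by norm_num, by norm_num, by norm_num, ?_⟩
    rw [pt_comb, hxy]
    congr 1 <;> ring
  have h4 := he.2 h1 h2 h3
  have h5 : pt x (y - s) 1 = e 1 := by
    rw [h4]
  rw [hxy, pt_one, pt_one] at h5
  exact hs (by linarith)

theorem mem_reg {x y : ℝ} (hx : x ∈ Ioo α β) (h1 : l x < y) (h2 : y < g x) :
    pt x y ∈ Reg α β l g := by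
  refine ⟨?_, ?_, ?_, ?_⟩
  · rw [pt_zero]; exact hx.1
  · rw [pt_zero]; exact hx.2
  · rw [pt_zero, pt_one]; exact h1
  · rw [pt_zero, pt_one]; exact h2

/-- the vertical closed sections are in the closure -/
theorem mem_closure_reg (h : RegD α β l g) {x y : ℝ} (hx : x ∈ Ioo α β) (h1 : l x ≤ y)
    (h2 : y ≤ g x) : pt x y ∈ closure (Reg α β l g) := by
  have hlg := h.lg x hx
  have hc : Continuous (fun y : ℝ => pt x y) := cont_pt.comp (by fun_prop : Continuous
    (fun y : ℝ => (x, y)))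
  have h3 : y ∈ closure (Ioo (l x) (g x)) := by
    rw [closure_Ioo hlg.ne]
    exact ⟨h1, h2⟩
  have h4 : MapsTo (fun y : ℝ => pt x y) (Ioo (l x) (g x)) (Reg α β l g) :=
    fun z hz => mem_reg hx hz.1 hz.2
  exact h4.closure hc h3

theorem between (h : RegD α β l g) {e : V} (he : e ∈ closure (Reg α β l g))
    (h0 : e 0 ∈ Ioo α β) : l (e 0) ≤ e 1 ∧ e 1 ≤ g (e 0) := by
  obtain ⟨p, hp, hpe⟩ := mem_closure_iff_seq_limit.1 he
  have hl : ContinuousAt l (e 0) :=
    (h.cl.continuousOn isOpen_Ioo).continuousAt (isOpen_Ioo.mem_nhds h0)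
  have hg : ContinuousAt g (e 0) :=
    (h.cg.continuousOn isOpen_Ioo).continuousAt (isOpen_Ioo.mem_nhds h0)
  have t0 : Tendsto (fun n => p n 0) atTop (𝓝 (e 0)) := (cont0.tendsto e).comp hpe
  have t1 : Tendsto (fun n => p n 1) atTop (𝓝 (e 1)) := (cont1.tendsto e).comp hpe
  constructor
  · exact le_of_tendsto_of_tendsto' (hl.tendsto.comp t0) t1 fun n => (hp n).2.2.1.le
  · exact le_of_tendsto_of_tendsto' t1 (hg.tendsto.comp t0) fun n => (hp n).2.2.2.le

/-- a graph which is affine near `q` contains no extreme point at `q` -/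
theorem no_affine {S : Set V} {f : ℝ → ℝ} (hf : ∀ x ∈ Ioo α β, pt x (f x) ∈ S) {e : V}
    (he : e ∈ extremePoints ℝ S) (h0 : e 0 ∈ Ioo α β) (h1 : e 1 = f (e 0)) : Bend f (e 0) := by
  rintro ε hε ⟨m, c, hmc⟩
  set δ := min (ε / 2) (min ((e 0 - α) / 2) ((β - e 0) / 2)) with hδ
  have h2 : 0 < e 0 - α := by linarith [h0.1]
  have h3 : 0 < β - e 0 := by linarith [h0.2]
  have hδ0 : 0 < δ := lt_min (by linarith) (lt_min (by linarith) (by linarith))
  have hδ1 : δ ≤ ε / 2 := min_le_left _ _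
  have hδ2 : δ ≤ (e 0 - α) / 2 := (min_le_right _ _).trans (min_le_left _ _)
  have hδ3 : δ ≤ (β - e 0) / 2 := (min_le_right _ _).trans (min_le_right _ _)
  have e1 := hmc (e 0) ⟨by linarith, by linarith⟩
  have e2 := hmc (e 0 - δ) ⟨by linarith, by linarith⟩
  have e3 := hmc (e 0 + δ) ⟨by linarith, by linarith⟩
  have m1 := hf (e 0 - δ) ⟨by linarith, by linarith⟩
  have m2 := hf (e 0 + δ) ⟨by linarith, by linarith⟩
  refine not_extreme he (x := e 0) (y := e 1) (t := δ) (s := m * δ) hδ0.ne' (pt_eta e).symm ?_ ?_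
  · rw [e2] at m1
    rw [h1, e1]
    have : m * e 0 + c - m * δ = m * (e 0 - δ) + c := by ring
    rw [this]; exact m1
  · rw [e3] at m2
    rw [h1, e1]
    have : m * e 0 + c + m * δ = m * (e 0 + δ) + c := by ring
    rw [this]; exact m2

end BEND

theorem t_BEND : S_BEND := by
  intro α β l g h e he h0
  have hb := BEND.between h he.1 h0
  rcases hb.2.eq_or_lt with h1 | h1
  · left
    refine ⟨h1, BEND.no_affine (S := closure (Reg α β l g)) (fun x hx => ?_) he h0 h1⟩
    exact BEND.mem_closure_reg h hx (h.lg x hx).le le_rfl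
  · rcases hb.1.eq_or_lt with h2 | h2
    · right
      refine ⟨h2.symm, BEND.no_affine (S := closure (Reg α β l g)) (fun x hx => ?_) he h0
        h2.symm⟩
      exact BEND.mem_closure_reg h hx le_rfl (h.lg x hx).le
    · exfalso
      set s := min (e 1 - l (e 0)) (g (e 0) - e 1) with hs
      have hs0 : 0 < s := lt_min (by linarith) (by linarith)
      have hs1 : s ≤ e 1 - l (e 0) := min_le_left _ _
      have hs2 : s ≤ g (e 0) - e 1 := min_le_right _ _
      refine BEND.not_extreme' he (x := e 0) (y := e 1) (s := s) hs0.ne' (BEND.pt_eta e).symm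
        ?_ ?_
      · exact BEND.mem_closure_reg h h0 (by linarith) (by linarith)
      · exact BEND.mem_closure_reg h h0 (by linarith) (by linarith)

end Pool.Agent.H417R2.CH
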