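import Pool.Agent.H417R2.CH.Defs2

/-!
# BLM: second order bound for the product of the eigenvalues
-/

set_option autoImplicit false
open MeasureTheory Metric Set Filter Topology
open scoped ContDiff InnerProductSpace ENNReal NNReal

namespace Pool.Agent.H417R2.CH

open Pool.Agent.Helper546 (Tst lap)

namespace BLM

/-- the dominating function of one hat -/
noncomputable def NN (c w ρ : ℝ) (P : V) : V → ℝ :=
  (closedBall P ρ).indicator (fun p => c * (1 / (w + dist p P)))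

theorem NN_meas (c w ρ : ℝ) (P : V) : Measurable (NN c w ρ P) := by
  unfold NN
  refine Measurable.indicator ?_ measurableSet_closedBall
  have : Measurable (fun p : V => w + dist p P) := (measurable_const.add (measurable_id.dist measurable_const))
  simp only [one_div]
  exact measurable_const.mul this.inv

theorem NN_nonneg {c w : ℝ} (hc : 0 ≤ c) (hw : 0 < w) (ρ : ℝ) (P p : V) : 0 ≤ NN c w ρ P p := by
  unfold NN
  refine indicator_nonneg (fun q _ => ?_) p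
  have := dist_nonneg (x := q) (y := P)
  positivity

theorem NN_le {c w : ℝ} (hc : 0 ≤ c) (hw : 0 < w) (ρ : ℝ) (P p : V) : NN c w ρ P p ≤ c / w := by
  unfold NN
  by_cases h : p ∈ closedBall P ρ
  · rw [indicator_of_mem h, mul_one_div]
    have := dist_nonneg (x := p) (y := P)
    exact div_le_div_of_nonneg_left hc hw (by linarith)
  · rw [indicator_of_notMem h]
    positivity

theorem NN_sq_int (c w ρ : ℝ) (P : V) (G : V → V) :
    ∫ p, NN c w ρ P p ^ 2 * ‖G p‖ ^ 2 =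
      c ^ 2 * ∫ p in closedBall P ρ, (1 / (w + dist p P)) ^ 2 * ‖G p‖ ^ 2 := by
  rw [← integral_indicator measurableSet_closedBall, ← integral_const_mul]
  refine integral_congr_ae (Eventually.of_forall fun p => ?_)
  simp only [NN]
  by_cases h : p ∈ closedBall P ρ
  · rw [indicator_of_mem h, indicator_of_mem h]; ring
  · rw [indicator_of_notMem h, indicator_of_notMem h]; ring

theorem NN_u_int (c w ρ : ℝ) (P : V) (u : V → ℝ) :
    ∫ p, u p ^ 2 * NN c w ρ P p =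
      c * ∫ p in closedBall P ρ, u p ^ 2 * (1 / (w + dist p P)) := by
  rw [← integral_indicator measurableSet_closedBall, ← integral_const_mul]
  refine integral_congr_ae (Eventually.of_forall fun p => ?_)
  simp only [NN]
  by_cases h : p ∈ closedBall P ρ
  · rw [indicator_of_mem h, indicator_of_mem h]; ring
  · rw [indicator_of_notMem h, indicator_of_notMem h]; ring

/-- bound of the derivative -/
theorem fd_le {C H w ρ : ℝ} {P : V} {Wf : V → ℝ}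
    (h1 : ∀ p, ‖fderiv ℝ Wf p‖ ≤ C * H / (w + dist p P))
    (h2 : ∀ p, ρ < dist p P → Wf p = 0) (p : V) : ‖fderiv ℝ Wf p‖ ≤ NN (C * H) w ρ P p := by
  unfold NN
  by_cases h : p ∈ closedBall P ρ
  · rw [indicator_of_mem h, mul_one_div]
    exact h1 p
  · rw [indicator_of_notMem h]
    have h3 : Wf =ᶠ[𝓝 p] fun _ => 0 := by
      filter_upwards [isClosed_closedBall.isOpen_compl.mem_nhds h] with q hq
      exact h2 q (by simpa using hq)
    rw [h3.fderiv_eq]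
    simp

theorem abs_coord (p P : V) : |p 0 - P 0| ≤ dist p P := by
  have h := PiLp.norm_apply_le (p - P) 0
  rw [dist_eq_norm]
  simpa using h

/-- the final real inequality -/
theorem final {L Λ t I J A B Q : ℝ} (hΛ : 0 < Λ) (hI : 0 ≤ I) (hIQ : I ≤ A * Q)
    (hJQ : J ^ 2 ≤ B * Q) (h1 : 2 * t ^ 2 * J ^ 2 ≤ 1) (h2 : 2 * t ^ 2 * I ≤ Λ)
    (h : L * (1 - (t * J) ^ 2) ≤ (Λ + 2 * t ^ 2 * I) ^ 2) :
    L ≤ Λ ^ 2 * (1 + (12 * A / Λ + 2 * B) * t ^ 2 * Q) := by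
  set x := t ^ 2 * J ^ 2 with hx
  set y := 2 * t ^ 2 * I / Λ with hy
  have hx0 : 0 ≤ x := by positivity
  have hx1 : x ≤ 1 / 2 := by rw [hx]; linarith
  have hy0 : 0 ≤ y := by positivity
  have hy1 : y ≤ 1 := by rw [hy, div_le_one hΛ]; exact h2
  have e1 : (t * J) ^ 2 = x := by rw [hx]; ring
  have e2 : Λ + 2 * t ^ 2 * I = Λ * (1 + y) := by rw [hy]; field_simp
  rw [e1, e2, mul_pow] at h
  have h3 : L ≤ Λ ^ 2 * (1 + y) ^ 2 * (1 + 2 * x) := by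
    have h4 : L * (1 - x) ≤ (Λ ^ 2 * (1 + y) ^ 2 * (1 + 2 * x)) * (1 - x) := by
      have h5 : 0 ≤ Λ ^ 2 * (1 + y) ^ 2 := by positivity
      have h6 : 1 ≤ (1 + 2 * x) * (1 - x) := by nlinarith
      calc L * (1 - x) ≤ Λ ^ 2 * (1 + y) ^ 2 * 1 := by rw [mul_one]; exact h
        _ ≤ Λ ^ 2 * (1 + y) ^ 2 * ((1 + 2 * x) * (1 - x)) := mul_le_mul_of_nonneg_left h6 h5
        _ = _ := by ring
    exact le_of_mul_le_mul_right h4 (by linarith)
  have h7 : (1 + y) ^ 2 * (1 + 2 * x) ≤ 1 + 6 * y + 2 * x := by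
    have h8 : (1 + y) ^ 2 ≤ 1 + 3 * y := by nlinarith
    have h9 : 6 * (x * y) ≤ 3 * y := by nlinarith
    have h10 := mul_le_mul_of_nonneg_right h8 (by linarith : 0 ≤ 1 + 2 * x)
    nlinarith
  have h11 : 6 * y + 2 * x ≤ (12 * A / Λ + 2 * B) * t ^ 2 * Q := by
    have h12 : 6 * y ≤ 12 * A / Λ * t ^ 2 * Q := by
      have h13 : t ^ 2 * I ≤ t ^ 2 * (A * Q) := mul_le_mul_of_nonneg_left hIQ (sq_nonneg t)
      calc 6 * y = 12 * (t ^ 2 * I) / Λ := by rw [hy]; ring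
        _ ≤ 12 * (t ^ 2 * (A * Q)) / Λ := by gcongr
        _ = _ := by ring
    have h14 : 2 * x ≤ 2 * B * t ^ 2 * Q := by
      have h15 : t ^ 2 * J ^ 2 ≤ t ^ 2 * (B * Q) := mul_le_mul_of_nonneg_left hJQ (sq_nonneg t)
      rw [hx]; linarith
    calc 6 * y + 2 * x ≤ 12 * A / Λ * t ^ 2 * Q + 2 * B * t ^ 2 * Q := add_le_add h12 h14
      _ = _ := by ring
  calc L ≤ Λ ^ 2 * (1 + y) ^ 2 * (1 + 2 * x) := h3
    _ = Λ ^ 2 * ((1 + y) ^ 2 * (1 + 2 * x)) := by ring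
    _ ≤ Λ ^ 2 * (1 + (12 * A / Λ + 2 * B) * t ^ 2 * Q) :=
        mul_le_mul_of_nonneg_left (by linarith) (sq_nonneg Λ)

theorem hatSupp {C w₀ X₀ b d α β : ℝ} {P p : V} (hC : 0 < C) (hP : P 0 = b) (hb : X₀ < b)
    (hbd : b < d) (hd : d ≤ X₀ + w₀) (hp : dist p P ≤ C * (d - b))
    (h1 : w₀ ≤ (X₀ - α) / (2 * (1 + C))) (h2 : w₀ ≤ (β - X₀) / (2 * (1 + C))) :
    p 0 ∈ Icc ((α + X₀) / 2) ((X₀ + β) / 2) := by
  have h3 := abs_le.1 (abs_coord p P)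
  rw [hP] at h3
  rw [le_div_iff₀ (by linarith)] at h1 h2
  have h4 : C * (d - b) ≤ C * w₀ := mul_le_mul_of_nonneg_left (by linarith) hC.le
  have h5 : 0 < w₀ := by linarith
  have h6 : 0 < C * w₀ := mul_pos hC h5
  constructor <;> nlinarith

end BLM

open BLM in
/-- **BLM** -/
theorem t_BLM (h1 : S_EXT) (h2 : S_TRN) (h3 : S_EST) (h4 : S_ADM) (h5 : S_EIG) (_h6 : S_REG) :
    S_BLM := by
  intro U r α β l g R k X₀ hFr
  obtain ⟨u, hu⟩ := h5 U hFr.good.pc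
  obtain ⟨CE, wE, hCE, hwE, hext⟩ := h1 U r α β l g R k X₀ hFr
  obtain ⟨CS, hCS, hest⟩ := h3 U u hFr.good.pc hu CE hCE
  have hXU : pt X₀ 0 ∈ U := by
    apply hFr.hball
    rw [mem_ball, dist_zero_right, EuclideanSpace.norm_eq, Fin.sum_univ_two]
    have e0 : (pt X₀ 0) 0 = X₀ := rfl
    have e1 : (pt X₀ 0) 1 = 0 := rfl
    rw [e0, e1]
    have : √(‖X₀‖ ^ 2 + ‖(0 : ℝ)‖ ^ 2) = |X₀| := by
      rw [norm_zero, zero_pow two_ne_zero, add_zero, Real.sqrt_sq (norm_nonneg _),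
        Real.norm_eq_abs]
    rw [this]
    exact hFr.hX.trans hFr.hR
  rw [hFr.eq] at hXU
  have hαX : α < X₀ := hXU.1
  have hXβ : X₀ < β := hXU.2.1
  have hΛ : 0 < lam U := hu.lampos
  set A : ℝ := 2 * (CE ^ 2 * CS) with hA
  set B : ℝ := 2 * (CE * CS) ^ 2 with hB
  set w₀ : ℝ := min wE (min 1 (min ((X₀ - α) / (2 * (1 + CE))) ((β - X₀) / (2 * (1 + CE)))))
    with hw₀
  have hw0 : 0 < w₀ := by
    rw [hw₀]
    refine lt_min hwE (lt_min one_pos (lt_min ?_ ?_))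
    · exact div_pos (by linarith) (by linarith)
    · exact div_pos (by linarith) (by linarith)
  have hw1 : w₀ ≤ wE := min_le_left _ _
  have hw2 : w₀ ≤ 1 := (min_le_right _ _).trans (min_le_left _ _)
  have hw3 : w₀ ≤ (X₀ - α) / (2 * (1 + CE)) :=
    (min_le_right _ _).trans ((min_le_right _ _).trans (min_le_left _ _))
  have hw4 : w₀ ≤ (β - X₀) / (2 * (1 + CE)) :=
    (min_le_right _ _).trans ((min_le_right _ _).trans (min_le_right _ _))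
  refine ⟨12 * A / lam U + 2 * B, w₀, by positivity, hw0, ?_⟩
  intro φ₁ φ₂ H₁ a₁ b₁ d₁ H₂ a₂ b₂ d₂ hl₁ hl₂ ad₁ ad₂ hXa₁ hXa₂ hd₁ hd₂ v₁ v₂ hv
  obtain ⟨W₁, K₁, lip₁, bg₁, bl₁, fd₁, sp₁⟩ := hext φ₁ H₁ a₁ b₁ d₁ hl₁ hXa₁ (hd₁.trans (by linarith))
  obtain ⟨W₂, K₂, lip₂, bg₂, bl₂, fd₂, sp₂⟩ := hext φ₂ H₂ a₂ b₂ d₂ hl₂ hXa₂ (hd₂.trans (by linarith))
  set P₁ : V := pt b₁ (g b₁) with hP₁
  set P₂ : V := pt b₂ (g b₂) with hP₂
  have hab₁ := hl₁.ab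
  have hab₂ := hl₂.ab
  have hbd₁ := hl₁.bd
  have hbd₂ := hl₂.bd
  have hP₁U : P₁ ∉ U := by
    rw [hFr.eq]
    rintro ⟨_, _, _, h⟩
    exact lt_irrefl _ h
  have hP₂U : P₂ ∉ U := by
    rw [hFr.eq]
    rintro ⟨_, _, _, h⟩
    exact lt_irrefl _ h
  obtain ⟨E₁, F₁⟩ := hest P₁ hP₁U (b₁ - a₁) (d₁ - b₁) (by linarith) hl₁.short (by linarith)
  obtain ⟨E₂, F₂⟩ := hest P₂ hP₂U (b₂ - a₂) (d₂ - b₂) (by linarith) hl₂.short (by linarith)
  set G := gd U u with hG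
  set N₁ := NN (CE * H₁) (b₁ - a₁) (CE * (d₁ - b₁)) P₁ with hN₁
  set N₂ := NN (CE * H₂) (b₂ - a₂) (CE * (d₂ - b₂)) P₂ with hN₂
  have hc₁ : 0 ≤ CE * H₁ := (mul_pos hCE hl₁.H_pos).le
  have hc₂ : 0 ≤ CE * H₂ := (mul_pos hCE hl₂.H_pos).le
  have hN₁0 : ∀ p, 0 ≤ N₁ p := fun p => NN_nonneg hc₁ (by linarith) _ _ p
  have hN₂0 : ∀ p, 0 ≤ N₂ p := fun p => NN_nonneg hc₂ (by linarith) _ _ p
  have hN₁m : Measurable N₁ := NN_meas _ _ _ _
  have hN₂m : Measurable N₂ := NN_meas _ _ _ _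
  have hN₁B : ∀ p, N₁ p ≤ CE * H₁ / (b₁ - a₁) := fun p => NN_le hc₁ (by linarith) _ _ p
  have hN₂B : ∀ p, N₂ p ≤ CE * H₂ / (b₂ - a₂) := fun p => NN_le hc₂ (by linarith) _ _ p
  have hf₁ : ∀ p, ‖fderiv ℝ W₁ p‖ ≤ N₁ p := fd_le fd₁ sp₁
  have hf₂ : ∀ p, ‖fderiv ℝ W₂ p‖ ≤ N₂ p := fd_le fd₂ sp₂
  set Wf : V → ℝ := fun p => v₁ * W₁ p + v₂ * W₂ p with hWf
  set N0 : V → ℝ := fun p => |v₁| * N₁ p + |v₂| * N₂ p with hN0
  set N : V → ℝ := fun p => max (N0 p) ‖fderiv ℝ Wf p‖ with hN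
  have hN0m : Measurable N0 := (hN₁m.const_mul _).add (hN₂m.const_mul _)
  have lip : LipschitzWith (‖v₁‖₊ * K₁ + ‖v₂‖₊ * K₂) Wf := by
    have l1 : LipschitzWith (‖v₁‖₊ * K₁) (fun p => v₁ * W₁ p) := by
      refine LipschitzWith.of_dist_le_mul fun p q => ?_
      rw [Real.dist_eq, ← mul_sub, abs_mul, NNReal.coe_mul, coe_nnnorm, Real.norm_eq_abs, mul_assoc]
      refine mul_le_mul_of_nonneg_left ?_ (abs_nonneg _)
      rw [← Real.dist_eq]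
      exact lip₁.dist_le_mul p q
    have l2 : LipschitzWith (‖v₂‖₊ * K₂) (fun p => v₂ * W₂ p) := by
      refine LipschitzWith.of_dist_le_mul fun p q => ?_
      rw [Real.dist_eq, ← mul_sub, abs_mul, NNReal.coe_mul, coe_nnnorm, Real.norm_eq_abs, mul_assoc]
      refine mul_le_mul_of_nonneg_left ?_ (abs_nonneg _)
      rw [← Real.dist_eq]
      exact lip₂.dist_le_mul p q
    exact l1.add l2
  have hcomp : HasCompactSupport Wf := by
    refine HasCompactSupport.intro ((isCompact_closedBall P₁ (CE * (d₁ - b₁))).union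
      (isCompact_closedBall P₂ (CE * (d₂ - b₂)))) fun p hp => ?_
    simp only [mem_union, mem_closedBall, not_or, not_le] at hp
    simp only [hWf, sp₁ p hp.1, sp₂ p hp.2, mul_zero, add_zero]
  have hsupp : ∀ p, Wf p ≠ 0 → p 0 ∈ Icc ((α + X₀) / 2) ((X₀ + β) / 2) := by
    intro p hp
    by_cases c1 : dist p P₁ ≤ CE * (d₁ - b₁)
    · exact hatSupp (b := b₁) hCE rfl (hXa₁.trans hab₁) hbd₁ hd₁ c1 hw3 hw4
    · by_cases c2 : dist p P₂ ≤ CE * (d₂ - b₂)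
      · exact hatSupp (b := b₂) hCE rfl (hXa₂.trans hab₂) hbd₂ hd₂ c2 hw3 hw4
      · exfalso
        apply hp
        simp only [hWf, sp₁ p (not_le.1 c1), sp₂ p (not_le.1 c2), mul_zero, add_zero]
  have hNm : Measurable N := hN0m.max (measurable_fderiv ℝ Wf).norm
  set B₀ : ℝ := |v₁| * (CE * H₁ / (b₁ - a₁)) + |v₂| * (CE * H₂ / (b₂ - a₂)) with hB₀
  have hN0B : ∀ p, N0 p ≤ B₀ := fun p =>
    add_le_add (mul_le_mul_of_nonneg_left (hN₁B p) (abs_nonneg _))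
      (mul_le_mul_of_nonneg_left (hN₂B p) (abs_nonneg _))
  have hN00 : ∀ p, 0 ≤ N0 p := fun p =>
    add_nonneg (mul_nonneg (abs_nonneg _) (hN₁0 p)) (mul_nonneg (abs_nonneg _) (hN₂0 p))
  have hNB : ∀ p, N p ≤ max B₀ ((‖v₁‖₊ * K₁ + ‖v₂‖₊ * K₂ : ℝ≥0) : ℝ) := fun p =>
    max_le_max (hN0B p) (norm_fderiv_le_of_lipschitz ℝ lip)
  have hadm := h4.2.1 α β g φ₁ φ₂ a₁ d₁ a₂ d₂ v₁ v₂ ad₁ ad₂ hFr.reg.cg hv
  have hu' : Eig (Reg α β l g) u := by rw [← hFr.eq]; exact hu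
  obtain ⟨t₁, ht₁, htrn⟩ := h2 α β l g hFr.reg u hu' (fun x => v₁ * φ₁ x + v₂ * φ₂ x)
    (min a₁ a₂) (max d₁ d₂) ((α + X₀) / 2) ((X₀ + β) / 2) hadm (by linarith) (by linarith)
    Wf N _ _ lip hcomp (fun x hx => by simp only [hWf, bg₁ x hx, bg₂ x hx])
    (fun x hx => by simp only [hWf, bl₁ x hx, bl₂ x hx, mul_zero, add_zero]) hsupp hNm
    (fun p => le_max_right _ _) hNB
  -- the two integrals
  have hae : ∀ᵐ p : V, N p = N0 p := by
    filter_upwards [lip₁.ae_differentiableAt, lip₂.ae_differentiableAt] with p q1 q2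
    refine max_eq_left ?_
    have hd : fderiv ℝ Wf p = v₁ • fderiv ℝ W₁ p + v₂ • fderiv ℝ W₂ p := by
      have e := (q1.hasFDerivAt.const_mul v₁).add (q2.hasFDerivAt.const_mul v₂)
      exact e.fderiv
    rw [hd]
    refine (norm_add_le _ _).trans ?_
    rw [norm_smul, norm_smul, Real.norm_eq_abs, Real.norm_eq_abs]
    exact add_le_add (mul_le_mul_of_nonneg_left (hf₁ p) (abs_nonneg _))
      (mul_le_mul_of_nonneg_left (hf₂ p) (abs_nonneg _))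
  have hGm : MemLp G 2 (volume : Measure V) := hu.mem.memG
  have hum : MemLp u 2 (volume : Measure V) := hu.mem.memu
  have hGi : Integrable (fun p => ‖G p‖ ^ 2) (volume : Measure V) := hGm.norm.integrable_sq
  have hui : Integrable (fun p => u p ^ 2) (volume : Measure V) := hum.integrable_sq
  have hint : ∀ (M : V → ℝ) (b : ℝ) (f : V → ℝ), Measurable M → (∀ p, 0 ≤ M p) →
      (∀ p, M p ≤ b) → Integrable f (volume : Measure V) → Integrable (fun p => M p * f p) := by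
    intro M b f hM hM0 hMb hf
    refine hf.bdd_mul (c := b) hM.aestronglyMeasurable (Eventually.of_forall fun p => ?_)
    rw [Real.norm_eq_abs, abs_of_nonneg (hM0 p)]
    exact hMb p
  set I : ℝ := ∫ p, N p ^ 2 * ‖G p‖ ^ 2 with hI
  set J : ℝ := ∫ p, u p ^ 2 * N p with hJ
  have hI' : I = ∫ p, N0 p ^ 2 * ‖G p‖ ^ 2 := by
    refine integral_congr_ae ?_
    filter_upwards [hae] with p hp
    rw [hp]
  have hJ' : J = ∫ p, u p ^ 2 * N0 p := by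
    refine integral_congr_ae ?_
    filter_upwards [hae] with p hp
    rw [hp]
  have sq1 : ∀ (M : V → ℝ) (b : ℝ), (∀ p, 0 ≤ M p) → (∀ p, M p ≤ b) → ∀ p, M p ^ 2 ≤ b ^ 2 :=
    fun M b h0 hb p => pow_le_pow_left₀ (h0 p) (hb p) 2
  have iN0 : Integrable (fun p => N0 p ^ 2 * ‖G p‖ ^ 2) (volume : Measure V) :=
    hint (fun p => N0 p ^ 2) (B₀ ^ 2) _ (hN0m.pow_const 2) (fun p => sq_nonneg _)
      (sq1 N0 B₀ hN00 hN0B) hGi
  have iN1 : Integrable (fun p => N₁ p ^ 2 * ‖G p‖ ^ 2) (volume : Measure V) :=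
    hint (fun p => N₁ p ^ 2) ((CE * H₁ / (b₁ - a₁)) ^ 2) _ (hN₁m.pow_const 2) (fun p => sq_nonneg _)
      (sq1 N₁ _ hN₁0 hN₁B) hGi
  have iN2 : Integrable (fun p => N₂ p ^ 2 * ‖G p‖ ^ 2) (volume : Measure V) :=
    hint (fun p => N₂ p ^ 2) ((CE * H₂ / (b₂ - a₂)) ^ 2) _ (hN₂m.pow_const 2) (fun p => sq_nonneg _)
      (sq1 N₂ _ hN₂0 hN₂B) hGi
  have hI0 : 0 ≤ I := integral_nonneg fun p => by positivity
  set L₁ : ℝ := 1 + Real.log ((d₁ - b₁) / (b₁ - a₁)) with hL₁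
  set L₂ : ℝ := 1 + Real.log ((d₂ - b₂) / (b₂ - a₂)) with hL₂
  have hL₁1 : 1 ≤ L₁ := by
    have : 0 ≤ Real.log ((d₁ - b₁) / (b₁ - a₁)) :=
      Real.log_nonneg ((one_le_div (by linarith)).2 hl₁.short)
    linarith
  have hL₂1 : 1 ≤ L₂ := by
    have : 0 ≤ Real.log ((d₂ - b₂) / (b₂ - a₂)) :=
      Real.log_nonneg ((one_le_div (by linarith)).2 hl₂.short)
    linarith
  set Q : ℝ := v₁ ^ 2 * H₁ ^ 2 * L₁ + v₂ ^ 2 * H₂ ^ 2 * L₂ with hQ
  have hIQ : I ≤ A * Q := by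
    rw [hI']
    have i1 : ∫ p, N0 p ^ 2 * ‖G p‖ ^ 2 ≤
        ∫ p, (2 * v₁ ^ 2 * (N₁ p ^ 2 * ‖G p‖ ^ 2) + 2 * v₂ ^ 2 * (N₂ p ^ 2 * ‖G p‖ ^ 2)) := by
      refine integral_mono iN0 ((iN1.const_mul _).add (iN2.const_mul _)) fun p => ?_
      have e1 : N0 p ^ 2 ≤ 2 * v₁ ^ 2 * N₁ p ^ 2 + 2 * v₂ ^ 2 * N₂ p ^ 2 := by
        have e2 : 0 ≤ (|v₁| * N₁ p - |v₂| * N₂ p) ^ 2 := sq_nonneg _
        have e3 : |v₁| ^ 2 = v₁ ^ 2 := sq_abs _
        have e4 : |v₂| ^ 2 = v₂ ^ 2 := sq_abs _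
        simp only [hN0]
        nlinarith
      have e5 := mul_le_mul_of_nonneg_right e1 (sq_nonneg ‖G p‖)
      simp only
      linarith
    rw [integral_add (iN1.const_mul _) (iN2.const_mul _), integral_const_mul, integral_const_mul,
      NN_sq_int, NN_sq_int] at i1
    have j1 := mul_le_mul_of_nonneg_left E₁ (by positivity : 0 ≤ 2 * v₁ ^ 2 * (CE * H₁) ^ 2)
    have j2 := mul_le_mul_of_nonneg_left E₂ (by positivity : 0 ≤ 2 * v₂ ^ 2 * (CE * H₂) ^ 2)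
    refine i1.trans ?_
    calc _ = 2 * v₁ ^ 2 * (CE * H₁) ^ 2 * (∫ p in closedBall P₁ (CE * (d₁ - b₁)),
            (1 / (b₁ - a₁ + dist p P₁)) ^ 2 * ‖G p‖ ^ 2) +
          2 * v₂ ^ 2 * (CE * H₂) ^ 2 * (∫ p in closedBall P₂ (CE * (d₂ - b₂)),
            (1 / (b₂ - a₂ + dist p P₂)) ^ 2 * ‖G p‖ ^ 2) := by ring
      _ ≤ 2 * v₁ ^ 2 * (CE * H₁) ^ 2 * (CS * L₁) + 2 * v₂ ^ 2 * (CE * H₂) ^ 2 * (CS * L₂) :=
          add_le_add j1 j2
      _ = A * Q := by rw [hA, hQ]; ring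
  have iu1 : Integrable (fun p => u p ^ 2 * N₁ p) (volume : Measure V) := by
    have := hint N₁ _ _ hN₁m hN₁0 hN₁B hui
    simpa only [mul_comm] using this
  have iu2 : Integrable (fun p => u p ^ 2 * N₂ p) (volume : Measure V) := by
    have := hint N₂ _ _ hN₂m hN₂0 hN₂B hui
    simpa only [mul_comm] using this
  have hJval : J = |v₁| * (CE * H₁ * ∫ p in closedBall P₁ (CE * (d₁ - b₁)),
      u p ^ 2 * (1 / (b₁ - a₁ + dist p P₁))) + |v₂| * (CE * H₂ *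
        ∫ p in closedBall P₂ (CE * (d₂ - b₂)), u p ^ 2 * (1 / (b₂ - a₂ + dist p P₂))) := by
    rw [hJ', ← NN_u_int, ← NN_u_int, ← integral_const_mul, ← integral_const_mul,
      ← integral_add (iu1.const_mul _) (iu2.const_mul _)]
    refine integral_congr_ae (Eventually.of_forall fun p => ?_)
    simp only [hN0]
    ring
  have hJ0 : 0 ≤ J := by
    rw [hJ']
    exact integral_nonneg fun p => mul_nonneg (sq_nonneg _) (hN00 p)
  have hJle : J ≤ CE * CS * (|v₁| * H₁ + |v₂| * H₂) := by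
    rw [hJval]
    have j1 := mul_le_mul_of_nonneg_left F₁ (by positivity : 0 ≤ |v₁| * (CE * H₁))
    have j2 := mul_le_mul_of_nonneg_left F₂ (by positivity : 0 ≤ |v₂| * (CE * H₂))
    linarith
  have hJQ : J ^ 2 ≤ B * Q := by
    have k1 : J ^ 2 ≤ (CE * CS * (|v₁| * H₁ + |v₂| * H₂)) ^ 2 := pow_le_pow_left₀ hJ0 hJle 2
    have k2 : (|v₁| * H₁ + |v₂| * H₂) ^ 2 ≤ 2 * (v₁ ^ 2 * H₁ ^ 2 + v₂ ^ 2 * H₂ ^ 2) := by
      have e2 : 0 ≤ (|v₁| * H₁ - |v₂| * H₂) ^ 2 := sq_nonneg _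
      have e3 : |v₁| ^ 2 = v₁ ^ 2 := sq_abs _
      have e4 : |v₂| ^ 2 = v₂ ^ 2 := sq_abs _
      nlinarith
    have k3 : v₁ ^ 2 * H₁ ^ 2 + v₂ ^ 2 * H₂ ^ 2 ≤ Q := by
      have m1 : v₁ ^ 2 * H₁ ^ 2 * 1 ≤ v₁ ^ 2 * H₁ ^ 2 * L₁ :=
        mul_le_mul_of_nonneg_left hL₁1 (by positivity)
      have m2 : v₂ ^ 2 * H₂ ^ 2 * 1 ≤ v₂ ^ 2 * H₂ ^ 2 * L₂ :=
        mul_le_mul_of_nonneg_left hL₂1 (by positivity)
      rw [hQ]; linarith
    calc J ^ 2 ≤ (CE * CS * (|v₁| * H₁ + |v₂| * H₂)) ^ 2 := k1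
      _ = (CE * CS) ^ 2 * (|v₁| * H₁ + |v₂| * H₂) ^ 2 := by ring
      _ ≤ (CE * CS) ^ 2 * (2 * Q) :=
          mul_le_mul_of_nonneg_left (k2.trans (by linarith)) (sq_nonneg _)
      _ = B * Q := by rw [hB]; ring
  -- choice of `t₀`
  set D : ℝ := 1 + 2 * J ^ 2 + 2 * I / lam U with hD
  have hD1 : 1 ≤ D := by
    have : 0 ≤ 2 * I / lam U := by positivity
    have := sq_nonneg J
    rw [hD]; linarith
  refine ⟨min t₁ (1 / D), lt_min ht₁ (by positivity), fun t ht => ?_⟩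
  have ht1 : |t| ≤ t₁ := ht.trans (min_le_left _ _)
  have ht2 : |t| ≤ 1 / D := ht.trans (min_le_right _ _)
  have hsq : t ^ 2 ≤ 1 / D := by
    have m1 : 1 / D ≤ 1 := by rw [div_le_one (by linarith)]; exact hD1
    calc t ^ 2 = |t| * |t| := by rw [← sq_abs]; ring
      _ ≤ (1 / D) * 1 := mul_le_mul ht2 (ht2.trans m1) (abs_nonneg _) (by positivity)
      _ = 1 / D := mul_one _
  have hsqD : t ^ 2 * D ≤ 1 := by
    rwa [le_div_iff₀ (by linarith)] at hsq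
  have hmain := htrn t ht1
  rw [← hFr.eq] at hmain
  have q1 : 2 * t ^ 2 * J ^ 2 ≤ 1 := by
    have : 0 ≤ t ^ 2 * (2 * I / lam U) := by positivity
    rw [hD] at hsqD
    nlinarith [sq_nonneg t]
  have q2 : 2 * t ^ 2 * I ≤ lam U := by
    have m1 : t ^ 2 * (2 * I / lam U) ≤ 1 := by
      have : 0 ≤ t ^ 2 * J ^ 2 := by positivity
      rw [hD] at hsqD
      nlinarith [sq_nonneg t]
    have m2 : t ^ 2 * (2 * I / lam U) = (2 * t ^ 2 * I) / lam U := by ring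
    rw [m2, div_le_one hΛ] at m1
    exact m1
  exact final hΛ hI0 hIQ hJQ q1 q2 hmain

end Pool.Agent.H417R2.CH
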