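import Mathlib

/-!
Planar convex sets, first Dirichlet eigenvalue, Cheeger constant and the quotient
`λ₁(Ω) / h(Ω)²` (MP_70c477_an).
-/

set_option autoImplicit false
open MeasureTheory Metric Set
open scoped ContDiff

namespace Pool.Agent.H417R2.CH

/-- The Euclidean plane. -/
abbrev V := EuclideanSpace ℝ (Fin 2)

/-- `u` is a smooth function with compact support contained in `U`, not identically zero. -/
def IsTest (U : Set V) (u : V → ℝ) : Prop :=
  ContDiff ℝ ∞ u ∧ HasCompactSupport u ∧ tsupport u ⊆ U ∧ ∃ x, u x ≠ 0

/-- The first eigenvalue of the Dirichlet Laplacian on the open set `U`: the infimum of the Rayleigh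
quotients `∫ |∇u|² / ∫ u²` of the test functions. -/
noncomputable def lam (U : Set V) : ℝ :=
  sInf {c : ℝ | ∃ u : V → ℝ, IsTest U u ∧ c = (∫ x, ‖fderiv ℝ u x‖ ^ 2) / ∫ x, (u x) ^ 2}

/-- The Cheeger constant of the open set `U`: the infimum of `∫ |∇u| / ∫ |u|` over the test
functions. -/
noncomputable def hC (U : Set V) : ℝ :=
  sInf {c : ℝ | ∃ u : V → ℝ, IsTest U u ∧ c = (∫ x, ‖fderiv ℝ u x‖) / ∫ x, |u x|}

/-- Planar convex sets: nonempty bounded open convex subsets of the plane. -/
structure PC (U : Set V) : Prop where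
  isOpen : IsOpen U
  convex : Convex ℝ U
  bdd : Bornology.IsBounded U
  ne : U.Nonempty

/-- The quotient `λ₁(U) / h(U)²`. -/
noncomputable def quot (U : Set V) : ℝ := lam U / hC U ^ 2

/-- `U` is an optimal set: it minimises the quotient among planar convex sets. -/
def IsOptimal (U : Set V) : Prop := PC U ∧ ∀ U' : Set V, PC U' → quot U ≤ quot U'

/-- `U` is an (open convex) polygon: the interior of the convex hull of finitely many points. -/
def IsPolygon (U : Set V) : Prop := ∃ s : Set V, s.Finite ∧ U = interior (convexHull ℝ s)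

end Pool.Agent.H417R2.CH
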