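import Pool.Agent.H417R2.CH.Defs2

/-!
Project CH (helper417), task CAC: the weighted Caccioppoli inequality for the first eigenfunction.
-/

set_option autoImplicit false
open MeasureTheory Metric Set Filter Topology
open scoped ContDiff InnerProductSpace ENNReal NNReal

namespace Pool.Agent.H417R2.CH

open Pool.Agent.Helper546 (Tst lap)

namespace CAC

lemma norm_gradient (f : V → ℝ) (x : V) : ‖gradient f x‖ = ‖fderiv ℝ f x‖ := by
  unfold gradient
  exact LinearIsometryEquiv.norm_map _ _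

lemma measurable_gradient (f : V → ℝ) : Measurable (gradient f) := by
  unfold gradient
  exact ((InnerProductSpace.toDual ℝ V).symm.continuous.measurable).comp (measurable_fderiv ℝ f)

lemma tst_memLp {U : Set V} {φ : V → ℝ} (h : Tst U φ) : MemLp φ 2 (volume : Measure V) :=
  h.1.continuous.memLp_of_hasCompactSupport h.2.1

lemma continuous_gradient {φ : V → ℝ} (h : ContDiff ℝ ∞ φ) : Continuous (gradient φ) := by
  unfold gradient
  exact (InnerProductSpace.toDual ℝ V).symm.continuous.comp (h.continuous_fderiv (by simp))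

lemma tst_gradient_memLp {U : Set V} {φ : V → ℝ} (h : Tst U φ) :
    MemLp (gradient φ) 2 (volume : Measure V) := by
  have hc : HasCompactSupport (gradient φ) := by
    have h1 : HasCompactSupport (fderiv ℝ φ) := h.2.1.fderiv (𝕜 := ℝ)
    unfold gradient
    exact h1.comp_left (g := fun L => (InnerProductSpace.toDual ℝ V).symm L) (map_zero _)
  exact (continuous_gradient h.1).memLp_of_hasCompactSupport hc

lemma lip_mul {φ η : V → ℝ} {Kφ K : ℝ≥0} (hφ : LipschitzWith Kφ φ) (hη : LipschitzWith K η)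
    {M B : ℝ} (hM : ∀ x, |φ x| ≤ M) (hB : ∀ x, |η x| ≤ B) :
    LipschitzWith (Real.toNNReal (Kφ * B ^ 2 + M * (2 * B) * K)) (fun x => φ x * η x ^ 2) := by
  have hB0 : 0 ≤ B := (abs_nonneg _).trans (hB 0)
  have hM0 : 0 ≤ M := (abs_nonneg _).trans (hM 0)
  refine LipschitzWith.of_dist_le_mul fun x y => ?_
  rw [Real.coe_toNNReal _ (by positivity)]
  have h1 := hφ.dist_le_mul x y
  have h2 := hη.dist_le_mul x y
  rw [Real.dist_eq] at h1 h2 ⊢
  have e : φ x * η x ^ 2 - φ y * η y ^ 2 =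
      (φ x - φ y) * η x ^ 2 + φ y * ((η x - η y) * (η x + η y)) := by ring
  have h3 : |η x| ^ 2 ≤ B ^ 2 := pow_le_pow_left₀ (abs_nonneg _) (hB x) 2
  have h4 : |η x + η y| ≤ 2 * B := by
    have := abs_add_le (η x) (η y)
    linarith [hB x, hB y]
  calc |φ x * η x ^ 2 - φ y * η y ^ 2|
      ≤ |(φ x - φ y) * η x ^ 2| + |φ y * ((η x - η y) * (η x + η y))| := by
        rw [e]; exact abs_add_le _ _
    _ = |φ x - φ y| * |η x| ^ 2 + |φ y| * (|η x - η y| * |η x + η y|) := by
        rw [abs_mul, abs_mul, abs_mul, abs_pow]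
    _ ≤ (Kφ * dist x y) * B ^ 2 + M * ((K * dist x y) * (2 * B)) := by
        gcongr
        exact hM y
    _ = (Kφ * B ^ 2 + M * (2 * B) * K) * dist x y := by ring

lemma gradient_mul {φ η : V → ℝ} {x : V} (hφ : DifferentiableAt ℝ φ x)
    (hη : DifferentiableAt ℝ η x) :
    gradient (fun x => φ x * η x ^ 2) x =
      (η x ^ 2) • gradient φ x + (2 * φ x * η x) • gradient η x := by
  have h1 : HasFDerivAt (fun x => φ x * η x ^ 2)
      (φ x • ((2 • η x ^ (2 - 1)) • fderiv ℝ η x) + η x ^ 2 • fderiv ℝ φ x) x :=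
    hφ.hasFDerivAt.mul (hη.hasFDerivAt.pow 2)
  refine ext_inner_right ℝ fun y => ?_
  rw [inner_add_left, real_inner_smul_left, real_inner_smul_left]
  unfold gradient
  rw [InnerProductSpace.toDual_symm_apply, InnerProductSpace.toDual_symm_apply,
    InnerProductSpace.toDual_symm_apply, h1.fderiv]
  simp
  ring

lemma integrable_sq_norm {E : Type*} [NormedAddCommGroup E] {f : V → E}
    (hf : MemLp f 2 (volume : Measure V)) : Integrable (fun x => ‖f x‖ ^ 2) :=
  (memLp_two_iff_integrable_sq_norm hf.1).1 hf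

theorem h10_mul (h2 : S_HLIP) {U : Set V} (hU : IsOpen U) {u : V → ℝ} {G : V → V}
    (hu : H10 U u G) {η : V → ℝ} {K : ℝ≥0} {B : ℝ} (hη : LipschitzWith K η)
    (hB : ∀ x, |η x| ≤ B) :
    H10 U (fun x => u x * η x ^ 2)
      (fun x => (η x ^ 2) • G x + (2 * u x * η x) • gradient η x) := by
  have hB0 : 0 ≤ B := (abs_nonneg _).trans (hB 0)
  have hK : ∀ x, ‖gradient η x‖ ≤ K := fun x => by
    rw [norm_gradient]; exact norm_fderiv_le_of_lipschitz ℝ hη
  have hη2 : ∀ x, |η x| ^ 2 ≤ B ^ 2 := fun x => pow_le_pow_left₀ (abs_nonneg _) (hB x) 2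
  have hηm : AEStronglyMeasurable (fun x => η x ^ 2) (volume : Measure V) :=
    (hη.continuous.pow 2).aestronglyMeasurable
  have hgm : AEStronglyMeasurable (gradient η) (volume : Measure V) :=
    (measurable_gradient η).aestronglyMeasurable
  -- multiplication operators on `L²`
  have m1 : ∀ f : V → ℝ, MemLp f 2 (volume : Measure V) →
      MemLp (fun x => f x * η x ^ 2) 2 (volume : Measure V) := by
    intro f hf
    refine hf.of_le_mul (c := B ^ 2) (hf.1.mul hηm) (ae_of_all _ fun x => ?_)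
    rw [norm_mul, norm_pow, Real.norm_eq_abs, Real.norm_eq_abs, mul_comm]
    exact mul_le_mul_of_nonneg_right (hη2 x) (abs_nonneg _)
  have m2 : ∀ f : V → V, MemLp f 2 (volume : Measure V) →
      MemLp (fun x => η x ^ 2 • f x) 2 (volume : Measure V) := by
    intro f hf
    refine hf.of_le_mul (c := B ^ 2) (hηm.smul hf.1) (ae_of_all _ fun x => ?_)
    rw [norm_smul, norm_pow, Real.norm_eq_abs]
    exact mul_le_mul_of_nonneg_right (hη2 x) (norm_nonneg _)
  have m3 : ∀ f : V → ℝ, MemLp f 2 (volume : Measure V) →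
      MemLp (fun x => (2 * f x * η x) • gradient η x) 2 (volume : Measure V) := by
    intro f hf
    refine hf.of_le_mul (c := 2 * B * K) ?_ (ae_of_all _ fun x => ?_)
    · exact ((hf.1.const_mul 2).mul hη.continuous.aestronglyMeasurable).smul hgm
    · rw [norm_smul, norm_mul, norm_mul, Real.norm_eq_abs, Real.norm_eq_abs, Real.norm_eq_abs,
        abs_two]
      calc 2 * |f x| * |η x| * ‖gradient η x‖ ≤ 2 * |f x| * B * K := by
            gcongr
            · exact hB x
            · exact hK x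
        _ = 2 * B * K * |f x| := by ring
  refine ⟨m1 u hu.memu, (m2 G hu.memG).add (m3 u hu.memu), fun ε hε => ?_⟩
  set C : ℝ := 4 * B ^ 4 + 16 * B ^ 2 * K ^ 2 + 1 with hC
  have hC0 : 0 < C := by positivity
  obtain ⟨φ, hφ, hφ1, hφ2⟩ := hu.approx (ε / (2 * C)) (by positivity)
  obtain ⟨Kφ, hKφ⟩ := hφ.1.lipschitzWith_of_hasCompactSupport hφ.2.1 (by simp)
  obtain ⟨M, hM⟩ := hφ.1.continuous.bounded_above_of_compact_support hφ.2.1
  have hw := lip_mul hKφ hη (M := M) (fun x => by simpa using hM x) hB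
  have hwc : HasCompactSupport (fun x => φ x * η x ^ 2) := hφ.2.1.mul_right
  have hwz : ∀ x, x ∉ U → φ x * η x ^ 2 = 0 := by
    intro x hx
    have : φ x = 0 := by
      by_contra h
      exact hx (hφ.2.2 (subset_tsupport _ h))
    rw [this, zero_mul]
  have hW : H10 U (fun x => φ x * η x ^ 2) (gradient (fun x => φ x * η x ^ 2)) :=
    h2 U hU _ _ hw hwc hwz
  obtain ⟨ψ, hψ, hψ1, hψ2⟩ := hW.approx (ε / 4) (by positivity)
  have hδ : C * (ε / (2 * C)) = ε / 2 := by field_simp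
  have mφ := tst_memLp hφ
  have mφ' := tst_gradient_memLp hφ
  have mψ := tst_memLp hψ
  have mψ' := tst_gradient_memLp hψ
  have i1 : Integrable (fun x => (u x - φ x) ^ 2) := by
    simpa using integrable_sq_norm (hu.memu.sub mφ)
  have i2 : Integrable (fun x => ‖G x - gradient φ x‖ ^ 2) := integrable_sq_norm (hu.memG.sub mφ')
  have i3 : Integrable (fun x => (φ x * η x ^ 2 - ψ x) ^ 2) := by
    simpa using integrable_sq_norm (hW.memu.sub mψ)
  have i4 : Integrable (fun x => ‖gradient (fun x => φ x * η x ^ 2) x - gradient ψ x‖ ^ 2) :=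
    integrable_sq_norm (hW.memG.sub mψ')
  have p1 : 0 ≤ ∫ x, (u x - φ x) ^ 2 := integral_nonneg fun x => sq_nonneg _
  have p2 : 0 ≤ ∫ x, ‖G x - gradient φ x‖ ^ 2 := integral_nonneg fun x => sq_nonneg _
  refine ⟨ψ, hψ, ?_, ?_⟩
  · have hle : ∫ x, (u x * η x ^ 2 - ψ x) ^ 2 ≤
        ∫ x, (2 * B ^ 4 * (u x - φ x) ^ 2 + 2 * (φ x * η x ^ 2 - ψ x) ^ 2) := by
      refine integral_mono_of_nonneg (ae_of_all _ fun x => sq_nonneg _)
        ((i1.const_mul _).add (i3.const_mul _)) (ae_of_all _ fun x => ?_)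
      have h3 : η x ^ 4 ≤ B ^ 4 := by
        have := pow_le_pow_left₀ (abs_nonneg _) (hB x) 4
        rwa [Even.pow_abs (by decide)] at this
      have h4 : (u x - φ x) ^ 2 * η x ^ 4 ≤ (u x - φ x) ^ 2 * B ^ 4 :=
        mul_le_mul_of_nonneg_left h3 (sq_nonneg _)
      have h5 := sq_nonneg ((u x - φ x) * η x ^ 2 - (φ x * η x ^ 2 - ψ x))
      show (u x * η x ^ 2 - ψ x) ^ 2 ≤
        2 * B ^ 4 * (u x - φ x) ^ 2 + 2 * (φ x * η x ^ 2 - ψ x) ^ 2
      nlinarith [h4, h5]
    rw [integral_add (i1.const_mul _) (i3.const_mul _), integral_const_mul,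
      integral_const_mul] at hle
    have h6 : 2 * B ^ 4 * ∫ x, (u x - φ x) ^ 2 ≤ C * (ε / (2 * C)) := by
      refine mul_le_mul ?_ hφ1.le p1 hC0.le
      rw [hC]
      have : 0 ≤ B ^ 4 := by positivity
      have : 0 ≤ B ^ 2 * (K : ℝ) ^ 2 := by positivity
      linarith
    linarith
  · have had : ∀ᵐ x : V, DifferentiableAt ℝ η x := hη.ae_differentiableAt
    have hle : ∫ x, ‖((η x ^ 2) • G x + (2 * u x * η x) • gradient η x) - gradient ψ x‖ ^ 2 ≤
        ∫ x, ((4 * B ^ 4 * ‖G x - gradient φ x‖ ^ 2 + 16 * B ^ 2 * K ^ 2 * (u x - φ x) ^ 2) +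
          2 * ‖gradient (fun x => φ x * η x ^ 2) x - gradient ψ x‖ ^ 2) := by
      refine integral_mono_of_nonneg (ae_of_all _ fun x => sq_nonneg _)
        (((i2.const_mul _).add (i1.const_mul _)).add (i4.const_mul _)) ?_
      filter_upwards [had] with x hx
      have e := gradient_mul (hφ.1.differentiable (by simp) x) hx
      set W := gradient (fun x => φ x * η x ^ 2) x with hWd
      have t1 : ((η x ^ 2) • G x + (2 * u x * η x) • gradient η x) - gradient ψ x =
          ((η x ^ 2) • (G x - gradient φ x) + (2 * (u x - φ x) * η x) • gradient η x) +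
            (W - gradient ψ x) := by
        rw [e]
        module
      have t2 : ∀ a b : V, ‖a + b‖ ^ 2 ≤ 2 * ‖a‖ ^ 2 + 2 * ‖b‖ ^ 2 := by
        intro a b
        have h1 := norm_add_le a b
        have h2 := pow_le_pow_left₀ (norm_nonneg _) h1 2
        nlinarith [sq_nonneg (‖a‖ - ‖b‖)]
      have h3 : (η x ^ 2) ^ 2 ≤ B ^ 4 := by
        have := pow_le_pow_left₀ (abs_nonneg _) (hB x) 4
        rw [Even.pow_abs (by decide)] at this
        calc (η x ^ 2) ^ 2 = η x ^ 4 := by ring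
          _ ≤ B ^ 4 := this
      have t3 : ‖(η x ^ 2) • (G x - gradient φ x)‖ ^ 2 ≤ B ^ 4 * ‖G x - gradient φ x‖ ^ 2 := by
        rw [norm_smul, mul_pow, Real.norm_eq_abs, sq_abs]
        exact mul_le_mul_of_nonneg_right h3 (sq_nonneg _)
      have t4 : ‖(2 * (u x - φ x) * η x) • gradient η x‖ ^ 2 ≤
          4 * B ^ 2 * K ^ 2 * (u x - φ x) ^ 2 := by
        rw [norm_smul, mul_pow, Real.norm_eq_abs, sq_abs]
        have h7 : ‖gradient η x‖ ^ 2 ≤ K ^ 2 := pow_le_pow_left₀ (norm_nonneg _) (hK x) 2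
        have h8 : η x ^ 2 ≤ B ^ 2 := by
          have := hη2 x
          rwa [sq_abs] at this
        calc (2 * (u x - φ x) * η x) ^ 2 * ‖gradient η x‖ ^ 2
            = 4 * (η x ^ 2) * ‖gradient η x‖ ^ 2 * (u x - φ x) ^ 2 := by ring
          _ ≤ 4 * B ^ 2 * K ^ 2 * (u x - φ x) ^ 2 := by gcongr
      have t5 := t2 ((η x ^ 2) • (G x - gradient φ x) + (2 * (u x - φ x) * η x) • gradient η x)
        (W - gradient ψ x)
      have t6 := t2 ((η x ^ 2) • (G x - gradient φ x)) ((2 * (u x - φ x) * η x) • gradient η x)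
      show ‖((η x ^ 2) • G x + (2 * u x * η x) • gradient η x) - gradient ψ x‖ ^ 2 ≤
        (4 * B ^ 4 * ‖G x - gradient φ x‖ ^ 2 + 16 * B ^ 2 * K ^ 2 * (u x - φ x) ^ 2) +
          2 * ‖W - gradient ψ x‖ ^ 2
      rw [t1]
      linarith
    have i21 : Integrable (fun x => 4 * B ^ 4 * ‖G x - gradient φ x‖ ^ 2 +
        16 * B ^ 2 * K ^ 2 * (u x - φ x) ^ 2) := (i2.const_mul _).add (i1.const_mul _)
    rw [integral_add i21 (i4.const_mul _),
      integral_add (i2.const_mul _) (i1.const_mul _), integral_const_mul, integral_const_mul,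
      integral_const_mul] at hle
    have h6 : 4 * B ^ 4 * (∫ x, ‖G x - gradient φ x‖ ^ 2) +
        16 * B ^ 2 * K ^ 2 * ∫ x, (u x - φ x) ^ 2 ≤ C * (ε / (2 * C)) := by
      have h7 : 4 * B ^ 4 * (∫ x, ‖G x - gradient φ x‖ ^ 2) ≤ 4 * B ^ 4 * (ε / (2 * C)) :=
        mul_le_mul_of_nonneg_left hφ2.le (by positivity)
      have h8 : 16 * B ^ 2 * K ^ 2 * (∫ x, (u x - φ x) ^ 2) ≤
          16 * B ^ 2 * K ^ 2 * (ε / (2 * C)) :=
        mul_le_mul_of_nonneg_left hφ1.le (by positivity)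
      have h9 : 0 ≤ ε / (2 * C) := by positivity
      have e : C * (ε / (2 * C)) = 4 * B ^ 4 * (ε / (2 * C)) +
          16 * B ^ 2 * K ^ 2 * (ε / (2 * C)) + ε / (2 * C) := by
        rw [hC]; ring
      linarith
    linarith

end CAC

/-- weighted Caccioppoli inequality (the right-hand side is the sum of two separate integrals; in
`S_CAC` the second integral is inside the first one by operator precedence) -/
def S_CAC2 : Prop := ∀ (U : Set V) (u : V → ℝ), PC U → Eig U u →
  ∀ (η N : V → ℝ) (K : ℝ≥0) (B : ℝ), LipschitzWith K η → Measurable N →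
    (∀ x, ‖fderiv ℝ η x‖ ≤ N x) → (∀ x, |η x| ≤ B) → (∀ x, N x ≤ B) →
    ∫ x, η x ^ 2 * ‖gd U u x‖ ^ 2 ≤
      (2 * lam U * ∫ x, u x ^ 2 * η x ^ 2) + 4 * ∫ x, u x ^ 2 * N x ^ 2

open CAC in
theorem t_CAC2 (h2 : S_HLIP) : S_CAC2 := by
  intro U u hU hu η N K B hη hN hηN hB hNB
  have hmul := h10_mul h2 hU.isOpen hu.mem hη hB
  have hweak := hu.weak _ _ hmul
  set G := gd U u with hG
  have hB0 : 0 ≤ B := (abs_nonneg _).trans (hB 0)
  have hN0 : ∀ x, 0 ≤ N x := fun x => (norm_nonneg _).trans (hηN x)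
  have hηc : AEStronglyMeasurable η (volume : Measure V) := hη.continuous.aestronglyMeasurable
  have mG : MemLp (fun x => η x • G x) 2 (volume : Measure V) := by
    refine hu.mem.memG.of_le_mul (c := B) (hηc.smul hu.mem.memG.1) (ae_of_all _ fun x => ?_)
    rw [norm_smul, Real.norm_eq_abs]
    exact mul_le_mul_of_nonneg_right (hB x) (norm_nonneg _)
  have mu : MemLp (fun x => u x * N x) 2 (volume : Measure V) := by
    refine hu.mem.memu.of_le_mul (c := B) (hu.mem.memu.1.mul hN.aestronglyMeasurable)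
      (ae_of_all _ fun x => ?_)
    rw [norm_mul, Real.norm_eq_abs (N x), abs_of_nonneg (hN0 x), mul_comm]
    exact mul_le_mul_of_nonneg_right (hNB x) (norm_nonneg _)
  have mη : MemLp (fun x => u x * η x) 2 (volume : Measure V) := by
    refine hu.mem.memu.of_le_mul (c := B) (hu.mem.memu.1.mul hηc)
      (ae_of_all _ fun x => ?_)
    rw [norm_mul, Real.norm_eq_abs (η x), mul_comm]
    exact mul_le_mul_of_nonneg_right (hB x) (norm_nonneg _)
  have mg : MemLp (fun x => u x • gradient η x) 2 (volume : Measure V) := by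
    refine hu.mem.memu.of_le_mul (c := B)
      (hu.mem.memu.1.smul (measurable_gradient η).aestronglyMeasurable)
      (ae_of_all _ fun x => ?_)
    rw [norm_smul, norm_gradient, mul_comm]
    exact mul_le_mul_of_nonneg_right ((hηN x).trans (hNB x)) (norm_nonneg _)
  have i1 : Integrable (fun x => η x ^ 2 * ‖G x‖ ^ 2) := by
    have := integrable_sq_norm mG
    refine this.congr (ae_of_all _ fun x => ?_)
    show ‖η x • G x‖ ^ 2 = _
    rw [norm_smul, mul_pow, Real.norm_eq_abs, sq_abs]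
  have i2 : Integrable (fun x => u x ^ 2 * N x ^ 2) := by
    have := integrable_sq_norm mu
    refine this.congr (ae_of_all _ fun x => ?_)
    show ‖u x * N x‖ ^ 2 = _
    rw [Real.norm_eq_abs, sq_abs, mul_pow]
  have i3 : Integrable (fun x => ⟪η x • G x, u x • gradient η x⟫_ℝ) := by
    refine ((integrable_sq_norm mG).add (integrable_sq_norm mg)).mono (mG.1.inner mg.1)
      (ae_of_all _ fun x => ?_)
    show ‖⟪η x • G x, u x • gradient η x⟫_ℝ‖ ≤ ‖‖η x • G x‖ ^ 2 + ‖u x • gradient η x‖ ^ 2‖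
    have h0 : 0 ≤ ‖η x • G x‖ ^ 2 + ‖u x • gradient η x‖ ^ 2 := by positivity
    rw [Real.norm_of_nonneg h0, Real.norm_eq_abs]
    have h3 := abs_real_inner_le_norm (η x • G x) (u x • gradient η x)
    nlinarith [sq_nonneg (‖η x • G x‖ - ‖u x • gradient η x‖), norm_nonneg (η x • G x),
      norm_nonneg (u x • gradient η x),
      mul_nonneg (norm_nonneg (η x • G x)) (norm_nonneg (u x • gradient η x))]
  have i4 : Integrable (fun x => 2 * ⟪η x • G x, u x • gradient η x⟫_ℝ) := i3.const_mul 2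
  have e1 : ∫ x, ⟪G x, (η x ^ 2) • G x + (2 * u x * η x) • gradient η x⟫_ℝ =
      (∫ x, η x ^ 2 * ‖G x‖ ^ 2) + ∫ x, 2 * ⟪η x • G x, u x • gradient η x⟫_ℝ := by
    rw [← integral_add i1 i4]
    refine integral_congr_ae (ae_of_all _ fun x => ?_)
    show ⟪G x, (η x ^ 2) • G x + (2 * u x * η x) • gradient η x⟫_ℝ =
      η x ^ 2 * ‖G x‖ ^ 2 + 2 * ⟪η x • G x, u x • gradient η x⟫_ℝ
    rw [inner_add_right, real_inner_smul_right, real_inner_smul_right, real_inner_self_eq_norm_sq,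
      real_inner_smul_left, real_inner_smul_right]
    ring
  have e2 : ∫ x, u x * (u x * η x ^ 2) = ∫ x, u x ^ 2 * η x ^ 2 :=
    integral_congr_ae (ae_of_all _ fun x => by ring)
  have hle : ∫ x, -(2 * ⟪η x • G x, u x • gradient η x⟫_ℝ) ≤
      ∫ x, (1 / 2 * (η x ^ 2 * ‖G x‖ ^ 2) + 2 * (u x ^ 2 * N x ^ 2)) := by
    refine integral_mono i4.neg ((i1.const_mul _).add (i2.const_mul _)) fun x => ?_
    show -(2 * ⟪η x • G x, u x • gradient η x⟫_ℝ) ≤
      1 / 2 * (η x ^ 2 * ‖G x‖ ^ 2) + 2 * (u x ^ 2 * N x ^ 2)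
    have c1 := abs_real_inner_le_norm (η x • G x) (u x • gradient η x)
    rw [norm_smul, norm_smul, norm_gradient, Real.norm_eq_abs, Real.norm_eq_abs] at c1
    have c2 := neg_abs_le (⟪η x • G x, u x • gradient η x⟫_ℝ)
    have c3 : |η x| * ‖G x‖ * (|u x| * ‖fderiv ℝ η x‖) ≤ |η x| * ‖G x‖ * (|u x| * N x) := by
      gcongr
      exact hηN x
    have c4 := sq_nonneg (|η x| * ‖G x‖ - 2 * (|u x| * N x))
    have c5 : (|η x| * ‖G x‖ - 2 * (|u x| * N x)) ^ 2 =
        η x ^ 2 * ‖G x‖ ^ 2 - 4 * (|η x| * ‖G x‖ * (|u x| * N x)) + 4 * (u x ^ 2 * N x ^ 2) := by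
      rw [← sq_abs (η x), ← sq_abs (u x)]; ring
    rw [c5] at c4
    linarith
  rw [integral_neg, integral_add (i1.const_mul _) (i2.const_mul _),
    integral_const_mul (1 / 2 : ℝ) (fun x => η x ^ 2 * ‖G x‖ ^ 2),
    integral_const_mul (2 : ℝ) (fun x => u x ^ 2 * N x ^ 2)] at hle
  rw [e1, e2] at hweak
  have e3 : ∫ x, 2 * ⟪η x • G x, u x • gradient η x⟫_ℝ =
      lam U * (∫ x, u x ^ 2 * η x ^ 2) - ∫ x, η x ^ 2 * ‖G x‖ ^ 2 := by linarith
  rw [e3] at hle
  linarith

end Pool.Agent.H417R2.CH
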