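import Pool.Agent.H417R2.CH.Defs2

/-!
Project CH, task CHV: change of variables `p ↦ p + t Wf(p) e₂`.
-/

set_option autoImplicit false
open MeasureTheory Metric Set Filter Topology
open scoped ContDiff InnerProductSpace ENNReal NNReal

namespace Pool.Agent.H417R2.CH

open Pool.Agent.Helper546 (Tst lap)

namespace CHV

/-- the vertical unit vector -/
noncomputable def e2 : V := pt 0 1

/-- the horizontal unit vector -/
noncomputable def e1 : V := pt 1 0

theorem pt_zero_left (c : ℝ) : pt 0 c = c • e2 := by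
  ext i; fin_cases i <;> simp [pt, e2]

theorem norm_e2 : ‖e2‖ = 1 := by
  simp [e2, pt, EuclideanSpace.norm_eq, Fin.sum_univ_two]

theorem decomp (w : V) : w = w 0 • e1 + w 1 • e2 := by
  ext i; fin_cases i <;> simp [pt, e1, e2]

/-- the displacement -/
noncomputable def dsp (Wf : V → ℝ) (t : ℝ) (p : V) : V := (t * Wf p) • e2

/-- the map -/
noncomputable def TT (Wf : V → ℝ) (t : ℝ) (p : V) : V := p + dsp Wf t p

theorem TT_eq (Wf : V → ℝ) (t : ℝ) (p : V) : TT Wf t p = p + pt 0 (t * Wf p) := by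
  rw [pt_zero_left]; rfl

theorem dsp_lip {Wf : V → ℝ} {K : ℝ≥0} (hW : LipschitzWith K Wf) {t : ℝ}
    (ht : |t| * K ≤ 1 / 2) : LipschitzWith (1 / 2 : ℝ≥0) (dsp Wf t) := by
  refine LipschitzWith.of_dist_le_mul fun x y => ?_
  have h1 : dsp Wf t x - dsp Wf t y = (t * (Wf x - Wf y)) • e2 := by
    simp only [dsp, ← sub_smul]; ring_nf
  rw [dist_eq_norm, h1, norm_smul, norm_e2, mul_one, Real.norm_eq_abs, abs_mul]
  have h2 : |Wf x - Wf y| ≤ K * dist x y := by
    have := hW.dist_le_mul x y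
    rwa [Real.dist_eq] at this
  have h3 : |t| * |Wf x - Wf y| ≤ |t| * (K * dist x y) :=
    mul_le_mul_of_nonneg_left h2 (abs_nonneg _)
  have h4 : |t| * (K * dist x y) = (|t| * K) * dist x y := by ring
  have h5 : (|t| * K) * dist x y ≤ (1 / 2) * dist x y :=
    mul_le_mul_of_nonneg_right ht dist_nonneg
  have h6 : (((1 / 2 : ℝ≥0) : ℝ≥0) : ℝ) = 1 / 2 := by simp
  rw [h6]
  linarith

theorem TT_lip {Wf : V → ℝ} {K : ℝ≥0} (hW : LipschitzWith K Wf) {t : ℝ}
    (ht : |t| * K ≤ 1 / 2) : LipschitzWith (1 + 1 / 2 : ℝ≥0) (TT Wf t) :=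
  LipschitzWith.id.add (dsp_lip hW ht)

theorem TT_anti {Wf : V → ℝ} {K : ℝ≥0} (hW : LipschitzWith K Wf) {t : ℝ}
    (ht : |t| * K ≤ 1 / 2) (x y : V) : dist x y ≤ 2 * dist (TT Wf t x) (TT Wf t y) := by
  have h1 := (dsp_lip hW ht).dist_le_mul x y
  have h6 : (((1 / 2 : ℝ≥0) : ℝ≥0) : ℝ) = 1 / 2 := by simp
  rw [h6] at h1
  have h2 : dist x y ≤ dist (TT Wf t x) (TT Wf t y) + dist (dsp Wf t x) (dsp Wf t y) := by
    have e : x - y = (TT Wf t x - TT Wf t y) - (dsp Wf t x - dsp Wf t y) := by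
      simp only [TT]; abel
    rw [dist_eq_norm, e, dist_eq_norm, dist_eq_norm]
    exact norm_sub_le _ _
  linarith

theorem TT_inj {Wf : V → ℝ} {K : ℝ≥0} (hW : LipschitzWith K Wf) {t : ℝ}
    (ht : |t| * K ≤ 1 / 2) : Function.Injective (TT Wf t) := by
  intro x y h
  have := TT_anti hW ht x y
  rw [h, dist_self, mul_zero] at this
  exact dist_le_zero.1 this

theorem TT_surj {Wf : V → ℝ} {K : ℝ≥0} (hW : LipschitzWith K Wf) {t : ℝ}
    (ht : |t| * K ≤ 1 / 2) : Function.Surjective (TT Wf t) := by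
  intro q
  have hc : ContractingWith (1 / 2 : ℝ≥0) (fun p => q - dsp Wf t p) := by
    refine ⟨?_, ?_⟩
    · exact NNReal.half_lt_self one_ne_zero
    · refine LipschitzWith.of_dist_le_mul fun x y => ?_
      have := (dsp_lip hW ht).dist_le_mul x y
      rwa [dist_sub_left]
  refine ⟨hc.fixedPoint, ?_⟩
  have := hc.fixedPoint_isFixedPt
  unfold Function.IsFixedPt at this
  unfold TT
  generalize hc.fixedPoint = z at this
  simp only at this
  rw [← eq_sub_iff_add_eq]
  exact this.symm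

/-- Lipschitz maps of the plane send null sets to null sets -/
theorem lip_null {f : V → V} {C : ℝ≥0} (hf : LipschitzWith C f) {s : Set V}
    (hs : volume s = 0) : volume (f '' s) = 0 := by
  set d : ℝ := (Module.finrank ℝ V : ℝ) with hd
  have h1 : (μH[d] : Measure V).IsAddHaarMeasure := by
    rw [hd]; infer_instance
  have e1 : (volume : Measure V) ≪ μH[d] := Measure.absolutelyContinuous_isAddHaarMeasure _ _
  have e2 : (μH[d] : Measure V) ≪ volume := Measure.absolutelyContinuous_isAddHaarMeasure _ _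
  apply e1
  have h3 : (μH[d] : Measure V) s = 0 := e2 hs
  have h4 := hf.hausdorffMeasure_image_le (d := d) (by rw [hd]; positivity) s
  rw [h3, mul_zero] at h4
  exact le_antisymm h4 bot_le

/-- the derivative of the map -/
noncomputable def DT (ℓ : V →L[ℝ] ℝ) : V →L[ℝ] V :=
  ContinuousLinearMap.id ℝ V + ℓ.smulRight e2

theorem DT_apply (ℓ : V →L[ℝ] ℝ) (w : V) : DT ℓ w = w + ℓ w • e2 := by
  simp [DT]

theorem DT_det (ℓ : V →L[ℝ] ℝ) : (DT ℓ).det = 1 + ℓ e2 := by
  have h0 : LinearMap.det ((DT ℓ : V →L[ℝ] V) : V →ₗ[ℝ] V) = 1 + ℓ e2 := by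
    rw [← LinearMap.det_toMatrix (EuclideanSpace.basisFun (Fin 2) ℝ).toBasis, Matrix.det_fin_two]
    simp only [LinearMap.toMatrix_apply]
    simp [DT_apply]
    have a0 : (EuclideanSpace.single (0 : Fin 2) (1 : ℝ)) = e1 := by
      ext i; fin_cases i <;> simp [e1, pt]
    have a1 : (EuclideanSpace.single (1 : Fin 2) (1 : ℝ)) = e2 := by
      ext i; fin_cases i <;> simp [e2, pt]
    simp [a1, a0, e2, pt]
  exact h0

/-- the derivative as an equivalence -/
noncomputable def DE (ℓ : V →L[ℝ] ℝ) (h : 1 + ℓ e2 ≠ 0) : V ≃L[ℝ] V :=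
  ContinuousLinearEquiv.equivOfInverse (DT ℓ)
    (ContinuousLinearMap.id ℝ V - ((1 + ℓ e2)⁻¹ • ℓ).smulRight e2)
    (fun w => by
      simp only [DT_apply, sub_apply, ContinuousLinearMap.id_apply,
        ContinuousLinearMap.smulRight_apply, smul_apply, map_add, map_smul,
        smul_eq_mul]
      have h3 : (1 + ℓ e2)⁻¹ * ℓ e2 = 1 - (1 + ℓ e2)⁻¹ := by field_simp; ring
      rw [h3]
      module)
    (fun w => by
      simp only [DT_apply, sub_apply, ContinuousLinearMap.id_apply,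
        ContinuousLinearMap.smulRight_apply, smul_apply, map_sub, map_smul,
        smul_eq_mul]
      have h3 : ((1 + ℓ e2)⁻¹ * ℓ w) • (e2 + ℓ e2 • e2) = ℓ w • e2 := by
        rw [smul_add, smul_smul, ← add_smul]
        congr 1
        field_simp
      rw [h3]
      abel)

theorem norm_sq_fderiv (L : V →L[ℝ] ℝ) : ‖L‖ ^ 2 = L e1 ^ 2 + L e2 ^ 2 := by
  have h1 : ‖L‖ = ‖(InnerProductSpace.toDual ℝ V).symm L‖ := by
    rw [LinearIsometryEquiv.norm_map]
  set g := (InnerProductSpace.toDual ℝ V).symm L with hg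
  have h2 : ∀ w, L w = ⟪g, w⟫_ℝ := fun w => by
    rw [hg, InnerProductSpace.toDual_symm_apply]
  rw [h1, EuclideanSpace.norm_sq_eq, Fin.sum_univ_two, h2, h2]
  simp [e1, e2, pt, PiLp.inner_apply, Fin.sum_univ_two]

theorem norm_sq_gradient (v : V → ℝ) (q : V) :
    ‖gradient v q‖ ^ 2 = fderiv ℝ v q e1 ^ 2 + fderiv ℝ v q e2 ^ 2 := by
  rw [← norm_sq_fderiv, gradient, LinearIsometryEquiv.norm_map]

end CHV

open CHV in
theorem t_CHV : S_CHV := by
  intro Wf K hW t ht φ hφ
  obtain ⟨hφc, hφs, -⟩ := hφ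
  have hinj := TT_inj hW ht
  have hsurj := TT_surj hW ht
  set T := TT Wf t with hT
  let E : V ≃ V := Equiv.ofBijective T ⟨hinj, hsurj⟩
  have hE : ∀ p, E p = T p := fun p => rfl
  have hEs : ∀ p, E.symm (T p) = p := fun p => E.symm_apply_apply p
  have hEs' : ∀ q, T (E.symm q) = q := fun q => E.apply_symm_apply q
  have hSl : LipschitzWith 2 E.symm := by
    refine LipschitzWith.of_dist_le_mul fun x y => ?_
    have := TT_anti hW ht (E.symm x) (E.symm y)
    rw [← hT, hEs', hEs'] at this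
    simpa using this
  obtain ⟨Kφ, hKφ⟩ := hφc.lipschitzWith_of_hasCompactSupport hφs (by simp)
  have hTl : LipschitzWith (1 + 1 / 2 : ℝ≥0) T := TT_lip hW ht
  set v : V → ℝ := fun q => φ (E.symm q) with hv
  have hvT : ∀ p, v (T p) = φ p := fun p => by simp only [hv, hEs]
  -- differentiability set
  set D : Set V := {p | DifferentiableAt ℝ Wf p} with hD
  have hDm : MeasurableSet D := measurableSet_of_differentiableAt ℝ Wf
  have hDae : ∀ᵐ p : V, p ∈ D := hW.ae_differentiableAt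
  have hDn : volume Dᶜ = 0 := by
    have := hDae
    rwa [ae_iff] at this
  have hTDn : volume (T '' Dᶜ) = 0 := lip_null hTl hDn
  have hTD : (T '' D)ᶜ = T '' Dᶜ := by
    rw [Set.image_compl_eq ⟨hinj, hsurj⟩]
  have hTDae : ∀ᵐ q : V, q ∈ T '' D := by
    rw [ae_iff]
    have : {a | ¬ a ∈ T '' D} = T '' Dᶜ := by rw [← hTD]; rfl
    rw [this]; exact hTDn
  have hJ : ∀ p, 1 / 2 ≤ 1 + t * fderiv ℝ Wf p e2 := by
    intro p
    have h1 : |fderiv ℝ Wf p e2| ≤ K := by
      have a1 := (fderiv ℝ Wf p).le_opNorm e2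
      rw [norm_e2, mul_one, Real.norm_eq_abs] at a1
      exact a1.trans (norm_fderiv_le_of_lipschitz ℝ hW)
    have h2 : |t * fderiv ℝ Wf p e2| ≤ 1 / 2 := by
      rw [abs_mul]
      exact (mul_le_mul_of_nonneg_left h1 (abs_nonneg _)).trans ht
    have := neg_abs_le (t * fderiv ℝ Wf p e2)
    linarith
  have hTd : ∀ p ∈ D, HasFDerivAt T (DT (t • fderiv ℝ Wf p)) p := by
    intro p hp
    have h1 : HasFDerivAt Wf (fderiv ℝ Wf p) p := (show DifferentiableAt ℝ Wf p from hp).hasFDerivAt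
    have h2 : HasFDerivAt (fun p => (t * Wf p) • e2) ((t • fderiv ℝ Wf p).smulRight e2) p :=
      (h1.const_mul t).smul_const e2
    exact (hasFDerivAt_id p).add h2
  have hcv : ∀ F : V → ℝ, ∫ q, F q = ∫ p, (1 + t * fderiv ℝ Wf p e2) * F (T p) := by
    intro F
    have h1 : ∫ q, F q = ∫ q in T '' D, F q := by
      rw [Measure.restrict_eq_self_of_ae_mem hTDae]
    have h2 := integral_image_eq_integral_abs_det_fderiv_smul (volume : Measure V) hDm
      (fun p hp => (hTd p hp).hasFDerivWithinAt) hinj.injOn F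
    rw [h1, h2, Measure.restrict_eq_self_of_ae_mem hDae]
    refine integral_congr_ae (Eventually.of_forall fun p => ?_)
    simp only [DT_det, smul_apply, smul_eq_mul]
    rw [abs_of_pos (by linarith [hJ p])]
  refine ⟨v, Kφ * 2, hKφ.comp hSl, ?_, ?_, ?_, ?_, ?_⟩
  · have hc : IsCompact (T '' tsupport φ) := IsCompact.image hφs hTl.continuous
    refine HasCompactSupport.intro hc fun q hq => ?_
    by_contra hne
    apply hq
    refine ⟨E.symm q, subset_tsupport φ ?_, hEs' q⟩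
    exact hne
  · intro p
    rw [← TT_eq]; exact hvT p
  · intro q
    refine ⟨E.symm q, ?_⟩
    rw [← TT_eq]; exact (hEs' q).symm
  · rw [hcv]
    refine integral_congr_ae (Eventually.of_forall fun p => ?_)
    simp only [hvT]
    show _ = φ p ^ 2 * (1 + t * fderiv ℝ Wf p e2)
    ring
  · rw [hcv]
    refine integral_congr_ae ?_
    filter_upwards [hDae] with p hp
    have hne : 1 + (t • fderiv ℝ Wf p) e2 ≠ 0 := by
      simp only [smul_apply, smul_eq_mul]
      linarith [hJ p]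
    have h1 : HasFDerivAt E.symm ((DE (t • fderiv ℝ Wf p) hne).symm : V →L[ℝ] V) (T p) := by
      apply HasFDerivAt.of_local_left_inverse (f := T)
      · exact hSl.continuous.continuousAt
      · rw [hEs]; exact hTd p hp
      · exact Eventually.of_forall fun y => hEs' y
    have h2 : HasFDerivAt φ (fderiv ℝ φ p) (E.symm (T p)) := by
      rw [hEs]
      exact (hφc.differentiable (by simp) p).hasFDerivAt
    have h3 : HasFDerivAt v ((fderiv ℝ φ p).comp
        ((DE (t • fderiv ℝ Wf p) hne).symm : V →L[ℝ] V)) (T p) := h2.comp (T p) h1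
    have h4 : ∀ w, fderiv ℝ v (T p) w = fderiv ℝ φ p w -
        t * fderiv ℝ Wf p w * fderiv ℝ φ p e2 / (1 + t * fderiv ℝ Wf p e2) := by
      intro w
      rw [h3.fderiv]
      have h5 : (DE (t • fderiv ℝ Wf p) hne).symm w =
          w - ((1 + (t • fderiv ℝ Wf p) e2)⁻¹ * (t • fderiv ℝ Wf p) w) • e2 := rfl
      show fderiv ℝ φ p ((DE (t • fderiv ℝ Wf p) hne).symm w) = _
      rw [h5, map_sub, map_smul]
      simp only [smul_apply, smul_eq_mul]
      field_simp
    have hJp : (1 + t * fderiv ℝ Wf p e2) ≠ 0 := by linarith [hJ p]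
    rw [norm_sq_gradient, h4, h4]
    show _ = (fderiv ℝ φ p e1 - t * fderiv ℝ Wf p e1 * fderiv ℝ φ p e2 /
      (1 + t * fderiv ℝ Wf p e2)) ^ 2 * (1 + t * fderiv ℝ Wf p e2) +
        fderiv ℝ φ p e2 ^ 2 / (1 + t * fderiv ℝ Wf p e2)
    field_simp
    ring

end Pool.Agent.H417R2.CH
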