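import Pool.Agent.H417R2.CH.Defs2

/-!
Task CI: the lower bound for the Cheeger constant.
-/

set_option autoImplicit false
open MeasureTheory Metric Set Filter Topology
open scoped ContDiff InnerProductSpace ENNReal NNReal

namespace Pool.Agent.H417R2.CH

open Pool.Agent.Helper546 (Tst lap)

namespace CI

/-- the smooth approximation of the absolute value -/
noncomputable def se (e t : ℝ) : ℝ := √(t ^ 2 + e ^ 2) - e

theorem pos {e : ℝ} (he : 0 < e) (t : ℝ) : 0 < t ^ 2 + e ^ 2 := by positivity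

theorem se_nonneg {e : ℝ} (he : 0 < e) (t : ℝ) : 0 ≤ se e t := by
  unfold se
  have : e ≤ √(t ^ 2 + e ^ 2) := Real.le_sqrt_of_sq_le (by nlinarith [sq_nonneg t])
  linarith

theorem se_zero {e : ℝ} (he : 0 < e) : se e 0 = 0 := by
  unfold se
  rw [zero_pow two_ne_zero, zero_add, Real.sqrt_sq he.le, sub_self]

theorem le_se {e : ℝ} (t : ℝ) : |t| - e ≤ se e t := by
  unfold se
  have : |t| ≤ √(t ^ 2 + e ^ 2) := Real.abs_le_sqrt (by nlinarith [sq_nonneg e])
  linarith

theorem se_contDiff {e : ℝ} (he : 0 < e) : ContDiff ℝ ∞ (se e) := by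
  unfold se
  refine ContDiff.sub (ContDiff.sqrt (by fun_prop) ?_) contDiff_const
  intro t
  exact (pos he t).ne'

theorem se_deriv {e : ℝ} (he : 0 < e) (t : ℝ) :
    HasDerivAt (se e) (t / √(t ^ 2 + e ^ 2)) t := by
  have h1 : HasDerivAt (fun t : ℝ => t ^ 2 + e ^ 2) (2 * t) t := by
    have := (hasDerivAt_pow 2 t).add_const (e ^ 2)
    simpa using this
  have h2 := (h1.sqrt (pos he t).ne').sub_const e
  have h3 : 2 * t / (2 * √(t ^ 2 + e ^ 2)) = t / √(t ^ 2 + e ^ 2) := by
    rw [mul_div_mul_left _ _ two_ne_zero]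
  rw [h3] at h2
  exact h2

theorem abs_le_one {e : ℝ} (he : 0 < e) (t : ℝ) : |t / √(t ^ 2 + e ^ 2)| ≤ 1 := by
  have hs : 0 < √(t ^ 2 + e ^ 2) := Real.sqrt_pos.2 (pos he t)
  rw [abs_div, abs_of_pos hs, div_le_one hs]
  exact Real.abs_le_sqrt (by nlinarith [sq_nonneg e])

/-- the area inequality for open connected subsets -/
theorem area {U : Set V} (h2 : S_ISO) (hU : PC U) {ρ : ℝ} (hρ : 0 < ρ)
    (har : ar (Inn U ρ) ≤ Real.pi * ρ ^ 2) (C : Set V) (_hC : IsOpen C) (hc : IsConnected C)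
    (hCU : C ⊆ U) : ar C ≤ ρ * W (closure (convexHull ℝ C)) := by
  set K := closure (convexHull ℝ C) with hK
  have hsub : convexHull ℝ C ⊆ U := convexHull_min hCU hU.convex
  have hKU : K ⊆ closure U := closure_mono hsub
  have hKc : IsCompact K := (hU.bdd.subset hsub).isCompact_closure
  have hconv : Convex ℝ K := (convex_convexHull ℝ C).closure
  have hCK : C ⊆ K := (subset_convexHull ℝ C).trans subset_closure
  have hKne : K.Nonempty := hc.nonempty.mono hCK
  have hint : interior (closure U) = U := by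
    rw [hU.convex.interior_closure_eq_interior_of_nonempty_interior
      (by rw [hU.isOpen.interior_eq]; exact hU.ne), hU.isOpen.interior_eq]
  have hInn : Inn K ρ ⊆ Inn U ρ := by
    intro x hx
    have h3 : ball x ρ ⊆ closure U := Subset.trans hx hKU
    have h4 := interior_mono h3
    rw [isOpen_ball.interior_eq, hint] at h4
    exact h4
  have hfin : volume (Inn U ρ) ≠ (⊤ : ℝ≥0∞) := by
    have h3 : Inn U ρ ⊆ U := fun x hx => hx (mem_ball_self hρ)
    exact (hU.bdd.subset h3).measure_lt_top.ne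
  have h5 : ar (Inn K ρ) ≤ Real.pi * ρ ^ 2 :=
    (ENNReal.toReal_mono hfin (measure_mono hInn)).trans har
  have h6 := h2 K hKc hconv hKne ρ hρ h5
  exact (ENNReal.toReal_mono hKc.measure_lt_top.ne (measure_mono hCK)).trans h6

/-- the inequality for signed test functions -/
theorem signed {U : Set V} {ρ : ℝ} (hρ : 0 < ρ)
    (h : ∀ u : V → ℝ, Tst U u → (∀ x, 0 ≤ u x) → ∫ x, u x ≤ ρ * ∫ x, ‖fderiv ℝ u x‖)
    (φ : V → ℝ) (hφ : Tst U φ) : ∫ x, |φ x| ≤ ρ * ∫ x, ‖fderiv ℝ φ x‖ := by
  obtain ⟨hs, hcs, hts⟩ := hφ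
  set v : ℝ := (volume (tsupport φ)).toReal with hv
  have hv0 : 0 ≤ v := ENNReal.toReal_nonneg
  have hvf : volume (tsupport φ) ≠ (⊤ : ℝ≥0∞) := hcs.isCompact.measure_lt_top.ne
  have hdφ : Integrable (fun x => ‖fderiv ℝ φ x‖) := by
    have h1 : Continuous (fderiv ℝ φ) := hs.continuous_fderiv (by simp)
    exact h1.norm.integrable_of_hasCompactSupport (hcs.fderiv ℝ).norm
  have key : ∀ e : ℝ, 0 < e → ∫ x, |φ x| ≤ e * v + ρ * ∫ x, ‖fderiv ℝ φ x‖ := by
    intro e he
    have hT : Tst U (fun x => se e (φ x)) := by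
      refine ⟨(se_contDiff he).comp hs, hcs.comp_left (g := se e) (se_zero he), ?_⟩
      exact (tsupport_comp_subset (se_zero he) φ).trans hts
    have h1 := h _ hT (fun x => se_nonneg he _)
    have h2 : ∫ x, ‖fderiv ℝ (fun x => se e (φ x)) x‖ ≤ ∫ x, ‖fderiv ℝ φ x‖ := by
      refine integral_mono_of_nonneg (Eventually.of_forall fun x => norm_nonneg _) hdφ
        (Eventually.of_forall fun x => ?_)
      have hd : HasFDerivAt φ (fderiv ℝ φ x) x :=
        ((hs.differentiable (by simp)) x).hasFDerivAt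
      have h3 := (se_deriv he (φ x)).comp_hasFDerivAt x hd
      have h4 : fderiv ℝ (fun x => se e (φ x)) x =
          (φ x / √(φ x ^ 2 + e ^ 2)) • fderiv ℝ φ x := h3.fderiv
      show ‖fderiv ℝ (fun x => se e (φ x)) x‖ ≤ ‖fderiv ℝ φ x‖
      rw [h4, norm_smul, Real.norm_eq_abs]
      exact mul_le_of_le_one_left (norm_nonneg _) (abs_le_one he _)
    have hi1 : Integrable (fun x => se e (φ x)) :=
      hT.1.continuous.integrable_of_hasCompactSupport hT.2.1
    have hi2 : Integrable ((tsupport φ).indicator (fun _ : V => e)) :=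
      (integrable_indicator_iff (isClosed_tsupport φ).measurableSet).2
        (integrableOn_const hvf)
    have h5 : ∫ x, |φ x| ≤ ∫ x, (se e (φ x) + (tsupport φ).indicator (fun _ : V => e) x) := by
      refine integral_mono_of_nonneg (Eventually.of_forall fun x => abs_nonneg _) (hi1.add hi2)
        (Eventually.of_forall fun x => ?_)
      show |φ x| ≤ se e (φ x) + (tsupport φ).indicator (fun _ : V => e) x
      by_cases hx : x ∈ tsupport φ
      · rw [indicator_of_mem hx]
        have := le_se (e := e) (φ x)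
        linarith
      · rw [indicator_of_notMem hx, image_eq_zero_of_notMem_tsupport hx, se_zero he]
        simp
    rw [integral_add hi1 hi2, integral_indicator (isClosed_tsupport φ).measurableSet,
      setIntegral_const, smul_eq_mul] at h5
    have h6 : volume.real (tsupport φ) = v := rfl
    rw [h6] at h5
    have h7 : ρ * ∫ x, ‖fderiv ℝ (fun x => se e (φ x)) x‖ ≤ ρ * ∫ x, ‖fderiv ℝ φ x‖ :=
      mul_le_mul_of_nonneg_left h2 hρ.le
    linarith
  apply le_of_forall_pos_le_add
  intro ε hε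
  have h1 := key (ε / (v + 1)) (by positivity)
  have h2 : ε / (v + 1) * v ≤ ε := by
    rw [div_mul_eq_mul_div, div_le_iff₀ (by positivity)]
    nlinarith
  linarith

theorem exists_test {U : Set V} (hU : IsOpen U) (hne : U.Nonempty) : ∃ u : V → ℝ, IsTest U u := by
  obtain ⟨z, hz⟩ := hne
  obtain ⟨r, hr, hrs⟩ := Metric.isOpen_iff.1 hU z hz
  let f : ContDiffBump z := ⟨r / 4, r / 2, by positivity, by linarith⟩
  refine ⟨f, f.contDiff, f.hasCompactSupport, ?_, z, ?_⟩
  · rw [f.tsupport_eq]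
    exact (closedBall_subset_ball (by show r / 2 < r; linarith)).trans hrs
  · have hfz : f z = 1 := f.one_of_mem_closedBall (mem_closedBall_self f.rIn_pos.le)
    rw [hfz]
    exact one_ne_zero

end CI

theorem t_CI (h1 : S_COA) (h2 : S_ISO) : S_CI := by
  intro U hU ρ hρ har
  have hcoa := h1 U hU ρ hρ (CI.area h2 hU hρ har)
  unfold hC
  apply le_csInf
  · obtain ⟨u, hu⟩ := CI.exists_test hU.isOpen hU.ne
    exact ⟨_, u, hu, rfl⟩
  · rintro c ⟨φ, hφ, rfl⟩
    obtain ⟨hs, hcs, hts, x, hx⟩ := hφ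
    have h3 := CI.signed hρ hcoa φ ⟨hs, hcs, hts⟩
    have hpos : 0 < ∫ x, |φ x| := by
      refine (hs.continuous.abs).integral_pos_of_hasCompactSupport_nonneg_nonzero
        (x := x) ?_ (fun x => abs_nonneg _) ?_
      · exact hcs.comp_left abs_zero
      · exact abs_ne_zero.2 hx
    rw [div_le_div_iff₀ hρ hpos]
    linarith

end Pool.Agent.H417R2.CH
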