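import Pool.Agent.H417R2.CH.Defs2

/-!
# CII: upper bound for the Cheeger constant (proof: helper439)
-/

set_option autoImplicit false
open MeasureTheory Metric Set Filter Topology
open scoped ContDiff InnerProductSpace ENNReal NNReal

namespace Pool.Agent.H417R2.CH

namespace CII

theorem inn_sub {U : Set V} {ρ : ℝ} (hρ : 0 < ρ) : Inn U ρ ⊆ U := fun x hx =>
  hx (mem_ball_self hρ)

theorem inn_closed (U : Set V) (ρ : ℝ) : IsClosed (Inn U ρ) := by
  rw [← isOpen_compl_iff, Metric.isOpen_iff]
  intro x hx
  obtain ⟨y, hy, hyU⟩ := not_subset.1 (show ¬ ball x ρ ⊆ U from hx)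
  refine ⟨ρ - dist y x, sub_pos.2 hy, fun z hz hz' => hyU (hz' ?_)⟩
  have h1 : dist z x < ρ - dist y x := hz
  have h2 := dist_triangle y x z
  rw [dist_comm x z] at h2
  show dist y z < ρ
  linarith

theorem inn_convex {U : Set V} (hU : Convex ℝ U) (ρ : ℝ) : Convex ℝ (Inn U ρ) := by
  intro x hx y hy a b ha hb hab z hz
  set w := z - (a • x + b • y) with hw
  have hwn : ‖w‖ < ρ := by
    rw [hw, ← dist_eq_norm]
    exact hz
  have h1 : x + w ∈ U := hx (by rw [mem_ball, dist_eq_norm, add_sub_cancel_left]; exact hwn)
  have h2 : y + w ∈ U := hy (by rw [mem_ball, dist_eq_norm, add_sub_cancel_left]; exact hwn)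
  have h3 := hU h1 h2 ha hb hab
  have h4 : a • (x + w) + b • (y + w) = z := by
    have : (a + b) • w = w := by rw [hab, one_smul]
    rw [smul_add, smul_add, add_add_add_comm, ← add_smul, this, hw]
    abel
  rwa [h4] at h3

theorem inn_eq {E : Set V} (hE : (Eᶜ : Set V).Nonempty) (d : ℝ) :
    Inn E d = {x | d ≤ infDist x Eᶜ} := by
  ext x
  rw [mem_ofPred_eq, le_infDist hE]
  constructor
  · intro h y hy
    by_contra hlt
    rw [not_le] at hlt
    exact hy (h (by rw [mem_ball, dist_comm]; exact hlt))
  · intro h y hy
    by_contra hyE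
    have := h hyE
    rw [mem_ball, dist_comm] at hy
    linarith

theorem lip (E : Set V) {d : ℝ} (hd : 0 < d) :
    LipschitzWith (Real.toNNReal (1 / d)) (fun x : V => min 1 (infDist x Eᶜ / d)) := by
  have h1 : LipschitzWith (Real.toNNReal (1 / d)) (fun x : V => infDist x Eᶜ / d) := by
    apply LipschitzWith.of_dist_le_mul
    intro x y
    rw [Real.coe_toNNReal _ (by positivity), Real.dist_eq, ← sub_div, abs_div, abs_of_pos hd]
    have h2 := (lipschitz_infDist_pt (Eᶜ : Set V)).dist_le_mul x y
    rw [Real.dist_eq, NNReal.coe_one, one_mul] at h2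
    rw [div_mul_eq_mul_div, one_mul]
    exact div_le_div_of_nonneg_right h2 hd.le
  exact h1.const_min 1

theorem key (h1 : S_LIPO) (h2 : S_GII) (U : Set V) (hU : PC U) (E : Set V) (hEc : IsCompact E)
    (hEx : Convex ℝ E) (hEne : E.Nonempty) (hEU : E ⊆ closure U) (d : ℝ) (hd : 0 < d)
    (h0 : 0 ≤ hC U) : hC U * (ar E - d * W E) ≤ W E := by
  have hcne : (Eᶜ : Set V).Nonempty := by
    by_contra h
    rw [not_nonempty_iff_eq_empty, compl_empty_iff] at h
    rw [h] at hEc
    exact noncompact_univ V hEc
  set v : V → ℝ := fun x => min 1 (infDist x Eᶜ / d) with hv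
  have hv0 : ∀ x, x ∉ E → v x = 0 := by
    intro x hx
    rw [hv]
    simp only
    rw [infDist_zero_of_mem (show x ∈ Eᶜ from hx), zero_div]
    simp
  have hvn : ∀ x, 0 ≤ v x := fun x => le_min zero_le_one (div_nonneg infDist_nonneg hd.le)
  have hlip := lip E hd
  have hcs : HasCompactSupport v := HasCompactSupport.intro hEc fun x hx => hv0 x hx
  have hvU : ∀ x, x ∉ U → v x = 0 := by
    intro x hx
    have hint : interior (closure U) = U := by
      rw [hU.convex.interior_closure_eq_interior_of_nonempty_interior]
      · exact hU.isOpen.interior_eq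
      · rw [hU.isOpen.interior_eq]; exact hU.ne
    have h3 : x ∈ closure (Eᶜ : Set V) := by
      have h4 : x ∉ interior (closure U) := by rw [hint]; exact hx
      rw [← mem_compl_iff, ← closure_compl] at h4
      exact closure_mono (compl_subset_compl.2 hEU) h4
    have h5 : infDist x Eᶜ = 0 := (mem_closure_iff_infDist_zero hcne).1 h3
    rw [hv]
    simp only
    rw [h5, zero_div]
    simp
  have hmain := h1 U hU.isOpen hU.ne v _ hlip hcs hvU
  have hIclosed := inn_closed E d
  have hEfin : volume E ≠ ⊤ := hEc.measure_lt_top.ne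
  have hIE : Inn E d ⊆ E := inn_sub hd
  have hIfin : volume (Inn E d) ≠ ⊤ := ((measure_mono hIE).trans_lt hEc.measure_lt_top).ne
  have hG := h2 E hEc hEx hEne d hd
  -- upper bound
  have hub : ∫ x, ‖fderiv ℝ v x‖ ≤ W E := by
    have h3 : ∫ x, ‖fderiv ℝ v x‖ ≤ ∫ x, (E \ Inn E d).indicator (fun _ => 1 / d) x := by
      refine integral_mono_of_nonneg (Eventually.of_forall fun x => norm_nonneg _) ?_
        (Eventually.of_forall fun x => ?_)
      · exact (integrable_indicator_iff (hEc.measurableSet.diff hIclosed.measurableSet)).2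
          (integrableOn_const (ne_top_of_le_ne_top hEfin (measure_mono sdiff_subset)))
      · by_cases hx : x ∈ E \ Inn E d
        · rw [indicator_of_mem hx]
          have := norm_fderiv_le_of_lipschitz ℝ hlip (x₀ := x)
          rwa [Real.coe_toNNReal _ (by positivity)] at this
        · rw [indicator_of_notMem hx]
          have : fderiv ℝ v x = 0 := by
            by_cases hxE : x ∈ E
            · have hxI : x ∈ Inn E d := by
                by_contra h; exact hx ⟨hxE, h⟩
              rw [inn_eq hcne] at hxI
              apply IsLocalMax.fderiv_eq_zero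
              refine Eventually.of_forall fun y => ?_
              have e1 : v x = 1 := by
                apply min_eq_left
                rw [le_div_iff₀ hd, one_mul]
                exact hxI
              rw [e1]
              exact min_le_left _ _
            · have e1 : v =ᶠ[𝓝 x] fun _ => 0 := by
                filter_upwards [hEc.isClosed.isOpen_compl.mem_nhds hxE] with y hy
                exact hv0 y hy
              rw [e1.fderiv_eq]
              simp
          show ‖fderiv ℝ v x‖ ≤ 0
          rw [this, norm_zero]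
    refine h3.trans ?_
    rw [integral_indicator (hEc.measurableSet.diff hIclosed.measurableSet), setIntegral_const,
      smul_eq_mul, measureReal_def, measure_sdiff hIE hIclosed.nullMeasurableSet hIfin,
      ENNReal.toReal_sub_of_le (measure_mono hIE) hEfin, mul_one_div, div_le_iff₀ hd]
    have : (volume E).toReal = ar E := rfl
    have h4 : (volume (Inn E d)).toReal = ar (Inn E d) := rfl
    rw [this, h4]
    linarith
  have hlb : ar E - d * W E ≤ ∫ x, |v x| := by
    have h3 : ar (Inn E d) ≤ ∫ x, |v x| := by
      have hint : Integrable (fun x => |v x|) :=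
        (hlip.continuous.integrable_of_hasCompactSupport hcs).abs
      calc ar (Inn E d) = ∫ x in Inn E d, (1 : ℝ) := by
            rw [setIntegral_const, smul_eq_mul, mul_one]; rfl
        _ = ∫ x in Inn E d, |v x| := by
            refine setIntegral_congr_fun hIclosed.measurableSet fun x hx => ?_
            rw [inn_eq hcne] at hx
            have e1 : v x = 1 := by
              apply min_eq_left
              rw [le_div_iff₀ hd, one_mul]
              exact hx
            rw [e1, abs_one]
        _ ≤ ∫ x, |v x| := setIntegral_le_integral hint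
            (Eventually.of_forall fun x => abs_nonneg _)
    linarith
  calc hC U * (ar E - d * W E) ≤ hC U * ∫ x, |v x| := mul_le_mul_of_nonneg_left hlb h0
    _ ≤ _ := hmain
    _ ≤ _ := hub

end CII

open CII in
theorem t_CII (h1 : S_LIPO) (h2 : S_GII) (h3 : S_GIII) (h4 : S_WB) : S_CII := by
  intro U hU ρ hρ hA
  obtain ⟨_, _, hW3, hW4⟩ := h4
  have h0 : 0 ≤ hC U := by
    apply Real.sInf_nonneg
    rintro _ ⟨u, _, rfl⟩
    exact div_nonneg (integral_nonneg fun x => norm_nonneg _) (integral_nonneg fun x => abs_nonneg _)
  set K := Inn U ρ with hK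
  have hKc : IsCompact K := by
    refine Metric.isCompact_of_isClosed_isBounded (inn_closed U ρ) (hU.bdd.subset (inn_sub hρ))
  have hKx : Convex ℝ K := inn_convex hU.convex ρ
  have hpos : 0 < Real.pi * ρ ^ 2 := by positivity
  have hKne : K.Nonempty := by
    by_contra h
    rw [not_nonempty_iff_eq_empty] at h
    rw [h] at hA
    have : ar (∅ : Set V) = 0 := by simp [ar]
    linarith
  set E := cthickening ρ K with hE
  have hEc : IsCompact E := hKc.cthickening
  have hEx : Convex ℝ E := hKx.cthickening ρ
  have hEne : E.Nonempty := hKne.mono (self_subset_cthickening K)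
  have hEU : E ⊆ closure U := by
    rw [hE, hKc.cthickening_eq_biUnion_closedBall hρ.le]
    refine iUnion₂_subset fun x hx => ?_
    rw [← closure_ball x hρ.ne']
    exact closure_mono hx
  have hWE : W E = W K + 2 * Real.pi * ρ := hW3 K hKc hKne ρ hρ.le
  have hWK : 0 ≤ W K := hW4 K hKc hKne
  have hS := h3 K hKc hKx hKne ρ hρ
  have hlim : hC U * ar E ≤ W E := by
    have ht : Tendsto (fun d : ℝ => hC U * (ar E - d * W E)) (𝓝[>] 0)
        (𝓝 (hC U * (ar E - 0 * W E))) := by
      apply Tendsto.mono_left _ nhdsWithin_le_nhds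
      apply Continuous.tendsto
      fun_prop
    rw [zero_mul, sub_zero] at ht
    refine le_of_tendsto ht ?_
    filter_upwards [self_mem_nhdsWithin] with d hd
    exact key h1 h2 U hU E hEc hEx hEne hEU d hd h0
  have hWEpos : 0 < W E := by
    rw [hWE]
    have : 0 < 2 * Real.pi * ρ := by positivity
    linarith
  have hfin : hC U * (ρ * W E) ≤ W E := by
    refine le_trans (mul_le_mul_of_nonneg_left ?_ h0) hlim
    rw [hWE]
    nlinarith
  rw [le_div_iff₀ hρ]
  have : (hC U * ρ) * W E ≤ 1 * W E := by rw [mul_assoc, one_mul]; exact hfin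
  exact le_of_mul_le_mul_right this hWEpos

end Pool.Agent.H417R2.CH
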