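import Pool.Agent.H417R2.CH.Defs2

/-! CMP: components of superlevel sets, measurability. -/

set_option autoImplicit false
open MeasureTheory Metric Set Filter Topology
open scoped ContDiff InnerProductSpace ENNReal NNReal

namespace Pool.Agent.H417R2.CH

namespace CMP

variable {u : V → ℝ}

theorem isOpen_sup (hu : Continuous u) (t : ℝ) : IsOpen {x | t < u x} :=
  isOpen_lt continuous_const hu

theorem isOpen_cmp (hu : Continuous u) (t : ℝ) (j : ℕ) : IsOpen (cmp u t j) :=
  (isOpen_sup hu t).connectedComponentIn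

theorem cmp_anti {t t' : ℝ} (h : t ≤ t') (j : ℕ) : cmp u t' j ⊆ cmp u t j :=
  connectedComponentIn_mono _ fun x (hx : t' < u x) => lt_of_le_of_lt h hx

/-- the component grows when the level decreases, and it is the union of the components for
slightly higher levels -/
theorem exists_higher (hu : Continuous u) {t : ℝ} {j : ℕ} {x : V} (hx : x ∈ cmp u t j) :
    ∃ t' : ℝ, t < t' ∧ x ∈ cmp u t' j := by
  have hQ : Qd j ∈ {x | t < u x} := by
    by_contra h
    unfold cmp at hx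
    rw [connectedComponentIn_eq_empty h] at hx
    exact hx
  have hQc : Qd j ∈ cmp u t j := mem_connectedComponentIn hQ
  have hconn : IsConnected (cmp u t j) := isConnected_connectedComponentIn_iff.2 hQ
  have hpath : IsPathConnected (cmp u t j) :=
    (IsOpen.isConnected_iff_isPathConnected (isOpen_cmp hu t j)).1 hconn
  have hJ := hpath.joinedIn _ hQc _ hx
  set γ := hJ.somePath with hγ
  have hγm : ∀ s, γ s ∈ cmp u t j := hJ.somePath_mem
  have hcomp : IsCompact (range γ) := isCompact_range γ.continuous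
  have hne : (range γ).Nonempty := range_nonempty _
  obtain ⟨y, ⟨s, rfl⟩, hmin⟩ := hcomp.exists_isMinOn hne hu.continuousOn
  have hys' : γ s ∈ {x | t < u x} := connectedComponentIn_subset _ _ (hγm s)
  have hys : t < u (γ s) := hys'
  refine ⟨(t + u (γ s)) / 2, by linarith, ?_⟩
  have hsub : range γ ⊆ {x | (t + u (γ s)) / 2 < u x} := by
    intro z hz
    have h1 : u (γ s) ≤ u z := hmin hz
    show (t + u (γ s)) / 2 < u z
    linarith
  have hpre : IsPreconnected (range γ) := isPreconnected_range γ.continuous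
  have h0 : Qd j ∈ range γ := ⟨0, γ.source⟩
  have h1 : x ∈ range γ := ⟨1, γ.target⟩
  exact hpre.subset_connectedComponentIn h0 hsub h1

theorem inner_ev (x : V) (θ : ℝ) : ⟪x, ev θ⟫_ℝ = x 0 * Real.cos θ + x 1 * Real.sin θ := by
  simp [PiLp.inner_apply, Fin.sum_univ_two, ev, pt]
  ring

theorem norm_ev (θ : ℝ) : ⟪ev θ, ev θ⟫_ℝ = 1 := by
  have h0 : ev θ 0 = Real.cos θ := by simp [ev, pt]
  have h1 : ev θ 1 = Real.sin θ := by simp [ev, pt]
  rw [inner_ev, h0, h1]
  have := Real.sin_sq_add_cos_sq θ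
  nlinarith

theorem cont_ev : Continuous ev := by
  unfold ev pt
  fun_prop

theorem isOpen_G (hu : Continuous u) (j : ℕ) :
    IsOpen {p : ℝ × ℝ × ℝ | ∃ x ∈ cmp u p.2.2 j, ⟪x, ev p.1⟫_ℝ = p.2.1} := by
  rw [isOpen_iff_mem_nhds]
  rintro ⟨θ₀, s₀, t₀⟩ ⟨x₀, hx₀, hs₀⟩
  simp only at hx₀ hs₀
  obtain ⟨t₁, ht₁, hx₁⟩ := exists_higher hu hx₀
  obtain ⟨r, hr, hball⟩ := Metric.isOpen_iff.1 (isOpen_cmp hu t₁ j) x₀ hx₁
  have hcont : Continuous (fun p : ℝ × ℝ × ℝ => |p.2.1 - ⟪x₀, ev p.1⟫_ℝ|) := by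
    have h1 : Continuous (fun p : ℝ × ℝ × ℝ => ev p.1) := cont_ev.comp continuous_fst
    fun_prop
  have h1 : ∀ᶠ p : ℝ × ℝ × ℝ in 𝓝 (θ₀, s₀, t₀), |p.2.1 - ⟪x₀, ev p.1⟫_ℝ| < r := by
    refine hcont.tendsto (θ₀, s₀, t₀) |>.eventually_lt_const ?_
    simp only
    rw [hs₀, sub_self, abs_zero]
    exact hr
  have hcont2 : Continuous (fun p : ℝ × ℝ × ℝ => p.2.2) := by fun_prop
  have h2 : ∀ᶠ p : ℝ × ℝ × ℝ in 𝓝 (θ₀, s₀, t₀), p.2.2 < t₁ :=
    hcont2.tendsto (θ₀, s₀, t₀) |>.eventually_lt_const ht₁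
  filter_upwards [h1, h2] with p hp1 hp2
  refine ⟨x₀ + (p.2.1 - ⟪x₀, ev p.1⟫_ℝ) • ev p.1, ?_, ?_⟩
  · refine cmp_anti hp2.le j (hball ?_)
    rw [Metric.mem_ball, dist_eq_norm, add_sub_cancel_left, norm_smul, Real.norm_eq_abs]
    have h3 : ‖ev p.1‖ = 1 := by
      have := norm_ev p.1
      rw [real_inner_self_eq_norm_sq] at this
      have h4 : 0 ≤ ‖ev p.1‖ := norm_nonneg _
      nlinarith
    rw [h3, mul_one]
    exact hp1
  · rw [inner_add_left, real_inner_smul_left, norm_ev]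
    ring

theorem meas_AA (hu : Continuous u) (j : ℕ) : MeasurableSet (AA u j) := by
  have hm : Measurable (fun p : ℝ × ℝ × ℝ => p.2.2) := by fun_prop
  have e : AA u j = ((fun p : ℝ × ℝ × ℝ => p.2.2) ⁻¹' Iio (u (Qd j)) ∩
      ⋂ i ∈ Finset.range j, ((fun p : ℝ × ℝ × ℝ => p.2.2) ⁻¹' {t | Qd i ∈ cmp u t j})ᶜ) ∩
      {p : ℝ × ℝ × ℝ | ∃ x ∈ cmp u p.2.2 j, ⟪x, ev p.1⟫_ℝ = p.2.1} := by
    ext p
    simp only [AA, fsp, mem_inter_iff, mem_preimage, mem_Iio, mem_iInter, Finset.mem_range,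
      mem_compl_iff, mem_ofPred_eq]
  rw [e]
  refine MeasurableSet.inter (MeasurableSet.inter (hm measurableSet_Iio) ?_)
    (isOpen_G hu j).measurableSet
  refine Finset.measurableSet_biInter _ fun i _ => (hm ?_).compl
  have hlow : IsLowerSet {t | Qd i ∈ cmp u t j} := fun t t' h ht => cmp_anti h j ht
  exact hlow.ordConnected.measurableSet

open Classical in
theorem vol_le (hu : Continuous u) (t : ℝ) :
    volume {x | t < u x} ≤ ∑' j : ℕ, ⨆ (_ : fsp u t j), volume (cmp u t j) := by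
  have hcov : {x | t < u x} ⊆ ⋃ j : ℕ, ⋃ (_ : fsp u t j), cmp u t j := by
    intro x hx
    set C := connectedComponentIn {x | t < u x} x with hC
    have hCo : IsOpen C := (isOpen_sup hu t).connectedComponentIn
    have hxC : x ∈ C := mem_connectedComponentIn hx
    have hex : ∃ k : ℕ, Qd k ∈ C := by
      have hd : DenseRange Qd := TopologicalSpace.denseRange_denseSeq V
      obtain ⟨k, hk⟩ := hd.exists_mem_open hCo ⟨x, hxC⟩
      exact ⟨k, hk⟩
    set j := Nat.find hex with hj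
    have hjC : Qd j ∈ C := Nat.find_spec hex
    have heq : cmp u t j = C := (connectedComponentIn_eq hjC).symm
    simp only [mem_iUnion]
    have hjF : Qd j ∈ {x | t < u x} := connectedComponentIn_subset _ _ hjC
    refine ⟨j, ⟨hjF, fun i hi => ?_⟩, ?_⟩
    · rw [heq]
      exact Nat.find_min hex hi
    · rw [heq]
      exact hxC
  refine (measure_mono hcov).trans ((measure_iUnion_le _).trans ?_)
  refine ENNReal.tsum_le_tsum fun j => ?_
  by_cases h : fsp u t j
  · simp only [h, iUnion_true, iSup_pos]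
    exact le_rfl
  · simp only [h, iUnion_of_empty, measure_empty, zero_le]

end CMP

theorem t_CMP : S_CMP := by
  intro u hu _
  refine ⟨CMP.meas_AA hu, fun t j _ h => ⟨CMP.isOpen_cmp hu t j, ?_, ?_⟩,
    fun t _ => CMP.vol_le hu t⟩
  · exact isConnected_connectedComponentIn_iff.2 h.1
  · exact connectedComponentIn_subset _ _

end Pool.Agent.H417R2.CH
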