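import Pool.Agent.H417R2.CH.Defs2

/-!
Task COA (helper409): the co-area argument with convex hulls of components.
-/

set_option autoImplicit false
open MeasureTheory Metric Set Filter Topology
open scoped ContDiff InnerProductSpace ENNReal NNReal

namespace Pool.Agent.H417R2.CH

open Pool.Agent.Helper546 (Tst lap)

namespace COA

/-- one component -/
theorem comp_le (h2 : S_WID) {U : Set V} (hU : PC U) {ρ : ℝ} (hρ : 0 < ρ)
    (H : ∀ C : Set V, IsOpen C → IsConnected C → C ⊆ U →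
      ar C ≤ ρ * W (closure (convexHull ℝ C)))
    {C : Set V} (hC : IsOpen C) (hc : IsConnected C) (hCU : C ⊆ U) :
    2 * volume C ≤ ENNReal.ofReal ρ *
      ∫⁻ θ in Ioc (0 : ℝ) (2 * Real.pi), volume ((fun x : V => ⟪x, ev θ⟫_ℝ) '' C) := by
  have hb : Bornology.IsBounded C := hU.bdd.subset hCU
  have hfin : volume C ≠ ⊤ := (hb.measure_lt_top).ne
  have h := H C hC hc hCU
  have h' : volume C ≤ ENNReal.ofReal ρ * ENNReal.ofReal (W (closure (convexHull ℝ C))) := by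
    rw [← ENNReal.ofReal_mul hρ.le, ← ENNReal.ofReal_toReal hfin]
    exact ENNReal.ofReal_le_ofReal h
  rw [← h2 C hC hc hb]
  calc 2 * volume C ≤ 2 * (ENNReal.ofReal ρ * ENNReal.ofReal (W (closure (convexHull ℝ C)))) := by
        gcongr
    _ = _ := by ring

theorem slice_meas {A : Set (ℝ × ℝ × ℝ)} (hA : MeasurableSet A) (θ t : ℝ) :
    MeasurableSet {s : ℝ | (θ, s, t) ∈ A} := by
  have : Measurable (fun s : ℝ => ((θ, s, t) : ℝ × ℝ × ℝ)) := by fun_prop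
  exact this hA

theorem proj_eq (u : V → ℝ) (j : ℕ) (t θ : ℝ) (hf : fsp u t j) :
    ((fun x : V => ⟪x, ev θ⟫_ℝ) '' cmp u t j) = {s : ℝ | (θ, s, t) ∈ AA u j} := by
  ext s
  constructor
  · rintro ⟨x, hx, rfl⟩
    exact ⟨hf, x, hx, rfl⟩
  · rintro ⟨-, x, hx, hs⟩
    exact ⟨x, hx, hs⟩

theorem term_le (h1 : S_CMP) (h2 : S_WID) {U : Set V} (hU : PC U) {ρ : ℝ} (hρ : 0 < ρ)
    (H : ∀ C : Set V, IsOpen C → IsConnected C → C ⊆ U →
      ar C ≤ ρ * W (closure (convexHull ℝ C)))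
    {u : V → ℝ} (hu : Tst U u) {t : ℝ} (ht : 0 < t) (j : ℕ) :
    2 * (⨆ (_ : fsp u t j), volume (cmp u t j)) ≤ ENNReal.ofReal ρ *
      ∫⁻ θ in Ioc (0 : ℝ) (2 * Real.pi), ∫⁻ s : ℝ,
        (AA u j).indicator (fun _ => (1 : ℝ≥0∞)) (θ, s, t) := by
  obtain ⟨m1, m2, -⟩ := h1 u hu.1.continuous hu.2.1
  by_cases hf : fsp u t j
  · rw [iSup_pos hf]
    obtain ⟨a, b, c⟩ := m2 t j ht hf
    have hCU : cmp u t j ⊆ U := by
      intro x hx
      apply hu.2.2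
      apply subset_tsupport
      rw [Function.mem_support]
      exact (ht.trans (c hx)).ne'
    refine (comp_le h2 hU hρ H a b hCU).trans (le_of_eq ?_)
    congr 1
    refine lintegral_congr fun θ => ?_
    rw [proj_eq u j t θ hf, ← lintegral_indicator_one (slice_meas (m1 j) θ t)]
    rfl
  · simp [hf]

theorem layer (h1 : S_CMP) (h2 : S_WID) {U : Set V} (hU : PC U) {ρ : ℝ} (hρ : 0 < ρ)
    (H : ∀ C : Set V, IsOpen C → IsConnected C → C ⊆ U →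
      ar C ≤ ρ * W (closure (convexHull ℝ C)))
    {u : V → ℝ} (hu : Tst U u) (hu0 : ∀ x, 0 ≤ u x) :
    2 * ∫⁻ x : V, ENNReal.ofReal (u x) ≤ ENNReal.ofReal ρ *
      ∫⁻ t in Ioi (0 : ℝ), ∑' j : ℕ, ∫⁻ θ in Ioc (0 : ℝ) (2 * Real.pi), ∫⁻ s : ℝ,
        (AA u j).indicator (fun _ => (1 : ℝ≥0∞)) (θ, s, t) := by
  rw [lintegral_eq_lintegral_meas_lt volume (Filter.Eventually.of_forall hu0)
    hu.1.continuous.aemeasurable, ← lintegral_const_mul' _ _ (by norm_num),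
    ← lintegral_const_mul' _ _ ENNReal.ofReal_ne_top]
  refine setLIntegral_mono' measurableSet_Ioi fun t ht => ?_
  obtain ⟨-, -, m3⟩ := h1 u hu.1.continuous hu.2.1
  calc 2 * volume {x | t < u x} ≤ 2 * ∑' j : ℕ, ⨆ (_ : fsp u t j), volume (cmp u t j) := by
        gcongr
        exact m3 t ht
    _ = ∑' j : ℕ, 2 * ⨆ (_ : fsp u t j), volume (cmp u t j) := ENNReal.tsum_mul_left.symm
    _ ≤ ∑' j : ℕ, ENNReal.ofReal ρ * ∫⁻ θ in Ioc (0 : ℝ) (2 * Real.pi), ∫⁻ s : ℝ,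
        (AA u j).indicator (fun _ => (1 : ℝ≥0∞)) (θ, s, t) :=
        ENNReal.tsum_le_tsum fun j => term_le h1 h2 hU hρ H hu ht j
    _ = _ := ENNReal.tsum_mul_left

/-- Tonelli -/
theorem swap {A : ℕ → Set (ℝ × ℝ × ℝ)} (hA : ∀ j, MeasurableSet (A j)) :
    ∫⁻ t in Ioi (0 : ℝ), ∑' j : ℕ, ∫⁻ θ in Ioc (0 : ℝ) (2 * Real.pi), ∫⁻ s : ℝ,
        (A j).indicator (fun _ => (1 : ℝ≥0∞)) (θ, s, t) =
    ∫⁻ θ in Ioc (0 : ℝ) (2 * Real.pi), ∫⁻ s : ℝ, ∫⁻ t in Ioi (0 : ℝ), ∑' j : ℕ,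
        (A j).indicator (fun _ => (1 : ℝ≥0∞)) (θ, s, t) := by
  have hm : ∀ j, Measurable (fun p : ℝ × ℝ × ℝ => (A j).indicator (fun _ => (1 : ℝ≥0∞)) p) :=
    fun j => measurable_const.indicator (hA j)
  have hG : Measurable (fun p : ℝ × ℝ × ℝ => ∑' j : ℕ,
      (A j).indicator (fun _ => (1 : ℝ≥0∞)) p) := Measurable.ennreal_tsum hm
  have e1 : ∀ t : ℝ, ∑' j : ℕ, ∫⁻ θ in Ioc (0 : ℝ) (2 * Real.pi), ∫⁻ s : ℝ,
      (A j).indicator (fun _ => (1 : ℝ≥0∞)) (θ, s, t) =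
      ∫⁻ θ in Ioc (0 : ℝ) (2 * Real.pi), ∫⁻ s : ℝ, ∑' j : ℕ,
        (A j).indicator (fun _ => (1 : ℝ≥0∞)) (θ, s, t) := by
    intro t
    rw [← lintegral_tsum]
    · refine lintegral_congr fun θ => ?_
      rw [← lintegral_tsum]
      intro j
      have : Measurable (fun s : ℝ => ((θ, s, t) : ℝ × ℝ × ℝ)) := by fun_prop
      exact ((hm j).comp this).aemeasurable
    · intro j
      have h0 : Measurable (fun p : ℝ × ℝ => ((p.1, p.2, t) : ℝ × ℝ × ℝ)) := by fun_prop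
      exact (((hm j).comp h0).lintegral_prod_right').aemeasurable
  rw [lintegral_congr e1]
  rw [lintegral_lintegral_swap]
  · refine lintegral_congr fun θ => ?_
    rw [lintegral_lintegral_swap]
    have : Measurable (fun p : ℝ × ℝ => ((θ, p.2, p.1) : ℝ × ℝ × ℝ)) := by fun_prop
    exact (hG.comp this).aemeasurable
  · have : Measurable (fun p : (ℝ × ℝ) × ℝ => ((p.1.2, p.2, p.1.1) : ℝ × ℝ × ℝ)) := by fun_prop
    exact ((hG.comp this).lintegral_prod_right').aemeasurable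

end COA

open COA in
theorem t_COA (h1 : S_CMP) (h2 : S_WID) (h3 : S_SLC) (h4 : S_ROT) : S_COA := by
  intro U hU ρ hρ H u hu hu0
  have hul : Tst Set.univ u := hu.univ
  obtain ⟨m1, -, -⟩ := h1 u hu.1.continuous hu.2.1
  have k1 := layer h1 h2 hU hρ H hu hu0
  rw [swap m1] at k1
  have k2 : 2 * ∫⁻ θ in Ioc (0 : ℝ) (2 * Real.pi), ∫⁻ s : ℝ, ∫⁻ t in Ioi (0 : ℝ), ∑' j : ℕ,
        (AA u j).indicator (fun _ => (1 : ℝ≥0∞)) (θ, s, t) ≤
      4 * ∫⁻ x : V, ENNReal.ofReal ‖fderiv ℝ u x‖ := by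
    rw [← h4 u hul, ← lintegral_const_mul' _ _ (by norm_num)]
    exact lintegral_mono fun θ => h3 u hul hu0 θ
  have k3 : 4 * ∫⁻ x : V, ENNReal.ofReal (u x) ≤
      4 * (ENNReal.ofReal ρ * ∫⁻ x : V, ENNReal.ofReal ‖fderiv ℝ u x‖) := by
    calc 4 * ∫⁻ x : V, ENNReal.ofReal (u x) = 2 * (2 * ∫⁻ x : V, ENNReal.ofReal (u x)) := by
          rw [← mul_assoc]; norm_num
      _ ≤ 2 * (ENNReal.ofReal ρ * ∫⁻ θ in Ioc (0 : ℝ) (2 * Real.pi), ∫⁻ s : ℝ,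
          ∫⁻ t in Ioi (0 : ℝ), ∑' j : ℕ,
            (AA u j).indicator (fun _ => (1 : ℝ≥0∞)) (θ, s, t)) := by gcongr
      _ = ENNReal.ofReal ρ * (2 * ∫⁻ θ in Ioc (0 : ℝ) (2 * Real.pi), ∫⁻ s : ℝ,
          ∫⁻ t in Ioi (0 : ℝ), ∑' j : ℕ,
            (AA u j).indicator (fun _ => (1 : ℝ≥0∞)) (θ, s, t)) := by ring
      _ ≤ ENNReal.ofReal ρ * (4 * ∫⁻ x : V, ENNReal.ofReal ‖fderiv ℝ u x‖) := by gcongr
      _ = _ := by ring
  have k4 : ∫⁻ x : V, ENNReal.ofReal (u x) ≤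
      ENNReal.ofReal ρ * ∫⁻ x : V, ENNReal.ofReal ‖fderiv ℝ u x‖ :=
    (ENNReal.mul_le_mul_iff_right (by norm_num) (by norm_num)).1 k3
  have i1 : Integrable u (volume : Measure V) :=
    hu.1.continuous.integrable_of_hasCompactSupport hu.2.1
  have hfc : Continuous (fderiv ℝ u) := hu.1.continuous_fderiv (by simp)
  have i2 : Integrable (fun x : V => ‖fderiv ℝ u x‖) (volume : Measure V) :=
    hfc.norm.integrable_of_hasCompactSupport (hu.2.1.fderiv (𝕜 := ℝ)).norm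
  rw [← ofReal_integral_eq_lintegral_ofReal i1 (Filter.Eventually.of_forall hu0),
    ← ofReal_integral_eq_lintegral_ofReal i2
      (Filter.Eventually.of_forall fun x => norm_nonneg _), ← ENNReal.ofReal_mul hρ.le] at k4
  exact (ENNReal.ofReal_le_ofReal_iff (mul_nonneg hρ.le
    (integral_nonneg fun x => norm_nonneg _))).1 k4

end Pool.Agent.H417R2.CH
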