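import Pool.Agent.H417R2.CH.Defs2

/-!
Task CPT: perturbing away from the contact points does not change the inner parallel set.
-/

set_option autoImplicit false
open MeasureTheory Metric Set Filter Topology
open scoped ContDiff InnerProductSpace ENNReal NNReal

namespace Pool.Agent.H417R2.CH

namespace CPT

theorem pt0 (x y : ℝ) : (pt x y) 0 = x := rfl
theorem pt1 (x y : ℝ) : (pt x y) 1 = y := rfl

theorem dist_sq (p q : V) : dist p q ^ 2 = (p 0 - q 0) ^ 2 + (p 1 - q 1) ^ 2 := by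
  rw [EuclideanSpace.dist_eq, Real.sq_sqrt (by positivity), Fin.sum_univ_two, Real.dist_eq,
    Real.dist_eq, sq_abs, sq_abs]

theorem dist_vert {z : V} {Y : ℝ} : dist (pt (z 0) Y) z = |Y - z 1| := by
  have h := dist_sq (pt (z 0) Y) z
  rw [pt0, pt1, sub_self, zero_pow (by norm_num), zero_add] at h
  rw [← Real.sqrt_sq (dist_nonneg (x := pt (z 0) Y) (y := z)), h, Real.sqrt_sq_eq_abs]

theorem norm_le {y : V} {A C : ℝ} (h0 : |y 0| ≤ A) (h1 : |y 1| ≤ C) : ‖y‖ ≤ A + C := by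
  have h := dist_sq y 0
  rw [dist_zero_right] at h
  have e0 : (0 : V) 0 = 0 := rfl
  have e1 : (0 : V) 1 = 0 := rfl
  rw [e0, e1, sub_zero, sub_zero] at h
  have hA : 0 ≤ A := (abs_nonneg _).trans h0
  have hC : 0 ≤ C := (abs_nonneg _).trans h1
  have h2 : (y 0) ^ 2 ≤ A ^ 2 := by rw [← sq_abs]; gcongr
  have h3 : (y 1) ^ 2 ≤ C ^ 2 := by rw [← sq_abs (y 1)]; gcongr
  exact abs_le_of_sq_le_sq' (by nlinarith) (by positivity) |>.2

end CPT

open CPT in
theorem t_CPT (h : S_ADM) : S_CPT := by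
  intro α β l g hD r hr φ a d hφ hφ0 hc
  obtain ⟨hcont, -⟩ := h.1 α β g φ a d hφ
  obtain ⟨B₀, hB₀⟩ := isCompact_Icc.exists_bound_of_continuousOn (s := Icc a d) hcont.continuousOn
  set B := max B₀ 0 with hBdef
  have hB0 : 0 ≤ B := le_max_right _ _
  have hB : ∀ x, φ x ≤ B := by
    intro x
    by_cases hx : x ∈ Ioo a d
    · exact (le_abs_self _).trans ((hB₀ x (Ioo_subset_Icc_self hx)).trans (le_max_left _ _))
    · rw [hφ.zero x hx]; exact hB0
  obtain ⟨M, hM⟩ := hD.bd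
  by_contra hcon
  push Not at hcon
  have hex : ∀ n : ℕ, ∃ (t : ℝ) (y z : V), 0 ≤ t ∧ t ≤ 1 / ((n : ℝ) + 1) ∧
      ball y r ⊆ Reg α β l (fun x => g x + t * φ x) ∧ z ∈ ball y r ∧ z ∉ Reg α β l g := by
    intro n
    obtain ⟨t, ht0, ht1, hne⟩ := hcon (1 / ((n : ℝ) + 1)) (by positivity)
    have hsub : Inn (Reg α β l g) r ⊆ Inn (Reg α β l (fun x => g x + t * φ x)) r := by
      intro y hy z hz
      obtain ⟨h1, h2, h3, h4⟩ := hy hz
      exact ⟨h1, h2, h3, lt_of_lt_of_le h4 (by have := mul_nonneg ht0 (hφ0 (z 0)); simp only; linarith)⟩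
    have hns : ¬ Inn (Reg α β l (fun x => g x + t * φ x)) r ⊆ Inn (Reg α β l g) r :=
      fun hs => hne (subset_antisymm hs hsub)
    rw [Set.not_subset] at hns
    obtain ⟨y, hy, hy'⟩ := hns
    have hy'' : ¬ ball y r ⊆ Reg α β l g := hy'
    rw [Set.not_subset] at hy''
    obtain ⟨z, hz, hz'⟩ := hy''
    exact ⟨t, y, z, ht0, ht1, hy, hz, hz'⟩
  choose t y z ht0 ht1 hy hz hz' using hex
  have ht1' : ∀ n, t n ≤ 1 := fun n => (ht1 n).trans (by
    rw [div_le_one (by positivity)]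
    have : (0 : ℝ) ≤ n := Nat.cast_nonneg n
    linarith)
  -- the abscissas
  have hzU : ∀ n, g (z n 0) ≤ z n 1 ∧ z n 1 < g (z n 0) + t n * φ (z n 0) := by
    intro n
    obtain ⟨h1, h2, h3, h4⟩ := hy n (hz n)
    refine ⟨?_, h4⟩
    by_contra h5
    exact hz' n ⟨h1, h2, h3, not_le.1 h5⟩
  have hX : ∀ n, z n 0 ∈ Icc a d := by
    intro n
    by_contra h1
    have h2 := hφ.zero (z n 0) (fun h3 => h1 (Ioo_subset_Icc_self h3))
    have h3 := hzU n
    rw [h2, mul_zero, add_zero] at h3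
    linarith [h3.1, h3.2]
  have hdist : ∀ n, dist (pt (z n 0) (g (z n 0))) (y n) ≤ t n * B + r := by
    intro n
    have h1 : dist (pt (z n 0) (g (z n 0))) (z n) ≤ t n * B := by
      rw [dist_vert, abs_sub_comm, abs_of_nonneg (by linarith [(hzU n).1])]
      have := mul_le_mul_of_nonneg_left (hB (z n 0)) (ht0 n)
      linarith [(hzU n).2]
    exact (dist_triangle _ (z n) _).trans (add_le_add h1 (mem_ball.1 (hz n)).le)
  -- compactness
  have hyb : ∀ n, (y n, z n 0) ∈ closedBall (0 : V) ((|α| + |β|) + (|M| + B)) ×ˢ Icc a d := by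
    intro n
    refine ⟨?_, hX n⟩
    rw [mem_closedBall, dist_zero_right]
    obtain ⟨h1, h2, h3, h4⟩ := hy n (mem_ball_self hr)
    have h5 := hM (y n 0) ⟨h1, h2⟩
    have h6 : t n * φ (y n 0) ≤ B := by
      calc t n * φ (y n 0) ≤ 1 * φ (y n 0) := mul_le_mul_of_nonneg_right (ht1' n) (hφ0 _)
        _ ≤ B := by rw [one_mul]; exact hB _
    have h7 := neg_abs_le α
    have h8 := le_abs_self β
    have h9 := le_abs_self M
    have h10 := abs_nonneg α
    have h11 := abs_nonneg β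
    simp only at h4
    refine norm_le ?_ ?_
    · rw [abs_le]; constructor <;> linarith
    · rw [abs_le]; constructor <;> linarith
  obtain ⟨⟨y₀, X₀⟩, hmem, s, hs, hlim⟩ :=
    ((isCompact_closedBall (0 : V) ((|α| + |β|) + (|M| + B))).prod isCompact_Icc).tendsto_subseq hyb
  have hX₀ : X₀ ∈ Icc a d := hmem.2
  have hy₀ : Tendsto (fun n => y (s n)) atTop (𝓝 y₀) := (continuous_fst.tendsto _).comp hlim
  have hz₀ : Tendsto (fun n => z (s n) 0) atTop (𝓝 X₀) := (continuous_snd.tendsto _).comp hlim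
  have htn : Tendsto (fun n => t (s n)) atTop (𝓝 0) := by
    have h1 : Tendsto (fun n : ℕ => 1 / ((n : ℝ) + 1)) atTop (𝓝 0) :=
      tendsto_one_div_add_atTop_nhds_zero_nat
    exact squeeze_zero (fun n => ht0 _) (fun n => ht1 _) (h1.comp hs.tendsto_atTop)
  -- the limit ball is in `U`
  have hball : ball y₀ r ⊆ Reg α β l g := by
    have key : ∀ w ∈ ball y₀ r, (α < w 0 ∧ w 0 < β ∧ l (w 0) < w 1) ∧ w 1 ≤ g (w 0) := by
      intro w hw
      have h1 : ∀ᶠ n in atTop, w ∈ ball (y (s n)) r := by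
        have h2 : Tendsto (fun n => dist w (y (s n))) atTop (𝓝 (dist w y₀)) :=
          tendsto_const_nhds.dist hy₀
        exact h2.eventually (gt_mem_nhds (mem_ball.1 hw))
      have h3 : ∀ᶠ n in atTop, w 1 ≤ g (w 0) + t (s n) * φ (w 0) := by
        filter_upwards [h1] with n hn
        exact (hy _ hn).2.2.2.le
      obtain ⟨n, hn⟩ := h1.exists
      obtain ⟨h4, h5, h6, -⟩ := hy _ hn
      refine ⟨⟨h4, h5, h6⟩, ?_⟩
      have h7 : Tendsto (fun n => g (w 0) + t (s n) * φ (w 0)) atTop (𝓝 (g (w 0) + 0 * φ (w 0))) :=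
        tendsto_const_nhds.add (htn.mul_const _)
      have h8 := ge_of_tendsto h7 h3
      linarith
    intro w hw
    obtain ⟨⟨h1, h2, h3⟩, -⟩ := key w hw
    refine ⟨h1, h2, h3, ?_⟩
    have hw' := mem_ball.1 hw
    set ε := (r - dist w y₀) / 2 with hε
    have hε0 : 0 < ε := by rw [hε]; linarith
    have h4 : dist (pt (w 0) (w 1 + ε)) w = ε := by
      rw [dist_vert, add_sub_cancel_left, abs_of_pos hε0]
    have h5 : pt (w 0) (w 1 + ε) ∈ ball y₀ r := by
      rw [mem_ball]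
      have h6 := dist_triangle (pt (w 0) (w 1 + ε)) w y₀
      rw [h4] at h6
      have : ε = (r - dist w y₀) / 2 := hε
      linarith
    have h6 := (key _ h5).2
    rw [pt0, pt1] at h6
    linarith
  -- contradiction
  have hgc : Tendsto (fun n => g (z (s n) 0)) atTop (𝓝 (g X₀)) := by
    have h1 : ContinuousOn g (Ioo α β) := hD.cg.continuousOn isOpen_Ioo
    have h2 : X₀ ∈ Ioo α β := ⟨lt_of_lt_of_le hφ.ha hX₀.1, lt_of_le_of_lt hX₀.2 hφ.hd⟩
    exact ((h1.continuousAt (isOpen_Ioo.mem_nhds h2)).tendsto).comp hz₀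
  have hlimd : dist (pt X₀ (g X₀)) y₀ ≤ r := by
    have h1 : Tendsto (fun n => dist (pt (z (s n) 0) (g (z (s n) 0))) (y (s n)) ^ 2) atTop
        (𝓝 (dist (pt X₀ (g X₀)) y₀ ^ 2)) := by
      simp only [dist_sq, pt0, pt1]
      have h2 : Tendsto (fun n => y (s n) 0) atTop (𝓝 (y₀ 0)) :=
        ((EuclideanSpace.proj (0 : Fin 2) : V →L[ℝ] ℝ).continuous.tendsto y₀).comp hy₀
      have h3 : Tendsto (fun n => y (s n) 1) atTop (𝓝 (y₀ 1)) :=
        ((EuclideanSpace.proj (1 : Fin 2) : V →L[ℝ] ℝ).continuous.tendsto y₀).comp hy₀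
      exact ((hz₀.sub h2).pow 2).add ((hgc.sub h3).pow 2)
    have h2 : Tendsto (fun n => (t (s n) * B + r) ^ 2) atTop (𝓝 ((0 * B + r) ^ 2)) :=
      ((htn.mul_const _).add_const _).pow 2
    have h3 : dist (pt X₀ (g X₀)) y₀ ^ 2 ≤ (0 * B + r) ^ 2 := by
      refine le_of_tendsto_of_tendsto' h1 h2 fun n => ?_
      exact pow_le_pow_left₀ dist_nonneg (hdist _) 2
    rw [zero_mul, zero_add] at h3
    exact abs_le_of_sq_le_sq' h3 hr.le |>.2
  exact absurd (hc y₀ hball X₀ hX₀) (not_lt.2 hlimd)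

end Pool.Agent.H417R2.CH
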