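import Pool.Agent.H417R2.CH.Base
import Pool.Agent.Helper546.Regular

/-!
Project CH (helper417): every planar convex set minimising `λ₁ / h²` is a polygon.
Objects of the proof and the statements of the tasks as `Prop`s `S_<ID>`.
-/

set_option autoImplicit false
open MeasureTheory Metric Set Filter Topology
open scoped ContDiff InnerProductSpace ENNReal NNReal

namespace Pool.Agent.H417R2.CH

open Pool.Agent.Helper546 (Tst lap)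

/-- point of the plane with given coordinates -/
noncomputable def pt (x y : ℝ) : V := !₂[x, y]

/-- centres of the open balls of radius `ρ` contained in `U` (inner parallel set) -/
def Inn (U : Set V) (ρ : ℝ) : Set V := {x | ball x ρ ⊆ U}

/-- area -/
noncomputable def ar (S : Set V) : ℝ := (volume S).toReal

/-! ### Sobolev toolkit -/

/-- `u ∈ H¹₀(U)` with gradient `G` (both extended by zero) -/
structure H10 (U : Set V) (u : V → ℝ) (G : V → V) : Prop where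
  memu : MemLp u 2 (volume : Measure V)
  memG : MemLp G 2 (volume : Measure V)
  approx : ∀ ε : ℝ, 0 < ε → ∃ φ : V → ℝ, Tst U φ ∧ ∫ x, (u x - φ x) ^ 2 < ε ∧
    ∫ x, ‖G x - gradient φ x‖ ^ 2 < ε

/-- gradient extended by zero -/
noncomputable def gd (U : Set V) (u : V → ℝ) : V → V := U.indicator (gradient u)

/-- the normalised positive first eigenfunction -/
structure Eig (U : Set V) (u : V → ℝ) : Prop where
  cont : Continuous u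
  zero : ∀ x, x ∉ U → u x = 0
  pos : ∀ x ∈ U, 0 < u x
  smooth : ContDiffOn ℝ ∞ u U
  pde : ∀ x ∈ U, lap u x = -(lam U * u x)
  mem : H10 U u (gd U u)
  weak : ∀ (v : V → ℝ) (K : V → V), H10 U v K →
    ∫ x, ⟪gd U u x, K x⟫_ℝ = lam U * ∫ x, u x * v x
  norm : ∫ x, u x ^ 2 = 1
  lampos : 0 < lam U

/-- linear combinations, and monotonicity in the set -/
def S_HADD : Prop :=
  (∀ (U : Set V) (u v : V → ℝ) (G K : V → V) (a b : ℝ), H10 U u G → H10 U v K →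
    H10 U (fun x => a * u x + b * v x) (fun x => a • G x + b • K x)) ∧
  (∀ (U U' : Set V) (u : V → ℝ) (G : V → V), U ⊆ U' → H10 U u G → H10 U' u G)

/-- the Rayleigh inequality on `H¹₀` -/
def S_HLAM : Prop :=
  ∀ (U : Set V), IsOpen U → U.Nonempty → 0 ≤ lam U ∧
    ∀ (u : V → ℝ) (G : V → V), H10 U u G → lam U * ∫ x, u x ^ 2 ≤ ∫ x, ‖G x‖ ^ 2

/-- Lipschitz functions vanishing outside `U` are in `H¹₀(U)` -/
def S_HLIP : Prop :=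
  ∀ (U : Set V), IsOpen U → ∀ (v : V → ℝ) (K : ℝ≥0), LipschitzWith K v → HasCompactSupport v →
    (∀ x, x ∉ U → v x = 0) → H10 U v (gradient v)

/-- the Cheeger inequality for Lipschitz functions -/
def S_LIPO : Prop :=
  ∀ (U : Set V), IsOpen U → U.Nonempty → ∀ (v : V → ℝ) (K : ℝ≥0), LipschitzWith K v →
    HasCompactSupport v → (∀ x, x ∉ U → v x = 0) →
    hC U * ∫ x, |v x| ≤ ∫ x, ‖fderiv ℝ v x‖

/-- existence of the first eigenfunction -/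
def S_EIG : Prop := ∀ U : Set V, PC U → ∃ u : V → ℝ, Eig U u

/-- strict monotonicity of the first eigenvalue -/
def S_STR : Prop := ∀ U U' : Set V, PC U → PC U' → U ⊆ U' → U ≠ U' → lam U' < lam U

/-- linear upper bound at the boundary -/
def S_UP : Prop := ∀ (U : Set V) (u : V → ℝ), PC U → Eig U u →
  ∃ C : ℝ, 0 < C ∧ ∀ P : V, P ∉ U → ∀ p : V, u p ≤ C * dist p P

/-- Hopf lower bound in interior balls -/
def S_HOPF : Prop := ∀ (U : Set V) (u : V → ℝ), PC U → Eig U u →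
  ∀ (y : V) (r : ℝ), 0 < r → ball y r ⊆ U →
    ∃ c : ℝ, 0 < c ∧ ∀ p ∈ ball y r, c * (r - dist p y) ≤ u p

/-- weighted Caccioppoli inequality -/
def S_CAC : Prop := ∀ (U : Set V) (u : V → ℝ), PC U → Eig U u →
  ∀ (η N : V → ℝ) (K : ℝ≥0) (B : ℝ), LipschitzWith K η → Measurable N →
    (∀ x, ‖fderiv ℝ η x‖ ≤ N x) → (∀ x, |η x| ≤ B) → (∀ x, N x ≤ B) →
    ∫ x, η x ^ 2 * ‖gd U u x‖ ^ 2 ≤
      2 * lam U * ∫ x, u x ^ 2 * η x ^ 2 + 4 * ∫ x, u x ^ 2 * N x ^ 2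

/-- weighted energy near a boundary point -/
def S_EST : Prop := ∀ (U : Set V) (u : V → ℝ), PC U → Eig U u → ∀ C₁ : ℝ, 0 < C₁ →
  ∃ C : ℝ, 0 < C ∧ ∀ P : V, P ∉ U → ∀ w₁ w₂ : ℝ, 0 < w₁ → w₁ ≤ w₂ → w₂ ≤ 1 →
    (∫ p in closedBall P (C₁ * w₂), (1 / (w₁ + dist p P)) ^ 2 * ‖gd U u p‖ ^ 2 ≤
      C * (1 + Real.log (w₂ / w₁))) ∧
    ∫ p in closedBall P (C₁ * w₂), u p ^ 2 * (1 / (w₁ + dist p P)) ≤ C

/-! ### Plane convex geometry and the Cheeger constant -/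

/-- unit vector -/
noncomputable def ev (θ : ℝ) : V := pt (Real.cos θ) (Real.sin θ)

/-- support function -/
noncomputable def hs (K : Set V) (θ : ℝ) : ℝ := sSup ((fun x : V => ⟪x, ev θ⟫_ℝ) '' K)

/-- perimeter of a compact convex set by Cauchy's formula -/
noncomputable def W (K : Set V) : ℝ := ∫ θ in (0 : ℝ)..(2 * Real.pi), hs K θ

/-- basic properties of `W` -/
def S_WB : Prop :=
  (∀ K : Set V, IsCompact K → K.Nonempty → Continuous (hs K)) ∧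
  (∀ K K' : Set V, IsCompact K → IsCompact K' → K.Nonempty → K ⊆ K' → W K ≤ W K') ∧
  (∀ K : Set V, IsCompact K → K.Nonempty → ∀ δ : ℝ, 0 ≤ δ →
    W (cthickening δ K) = W K + 2 * Real.pi * δ) ∧
  (∀ K : Set V, IsCompact K → K.Nonempty → 0 ≤ W K)

/-- inner tube inequality -/
def S_GII : Prop := ∀ K : Set V, IsCompact K → Convex ℝ K → K.Nonempty → ∀ δ : ℝ, 0 < δ →
  ar K ≤ ar (Inn K δ) + δ * W K

/-- outer tube inequality (Steiner) -/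
def S_GIII : Prop := ∀ K : Set V, IsCompact K → Convex ℝ K → K.Nonempty → ∀ δ : ℝ, 0 < δ →
  ar K + δ * W K + Real.pi * δ ^ 2 ≤ ar (cthickening δ K)

/-- isoperimetric inequality with the inner parallel set -/
def S_ISO : Prop := ∀ K : Set V, IsCompact K → Convex ℝ K → K.Nonempty → ∀ ρ : ℝ, 0 < ρ →
  ar (Inn K ρ) ≤ Real.pi * ρ ^ 2 → ar K ≤ ρ * W K

/-- one-dimensional co-area inequality counting components of superlevel sets -/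
def S_LINE : Prop := ∀ f : ℝ → ℝ, ContDiff ℝ 1 f → HasCompactSupport f →
  ∃ N : ℝ → ℝ≥0∞, Measurable N ∧ ∫⁻ t, N t ≤ ∫⁻ x, ENNReal.ofReal |deriv f x| ∧
    ∀ᵐ t : ℝ, 0 < t → ∀ F : Finset ℝ, (∀ x ∈ F, t < f x) →
      (∀ x ∈ F, ∀ y ∈ F, x < y → ∃ z ∈ Ioo x y, f z ≤ t) → 2 * (F.card : ℝ≥0∞) ≤ N t

/-- the co-area argument with convex hulls of components -/
def S_COA : Prop := ∀ U : Set V, PC U → ∀ ρ : ℝ, 0 < ρ →
  (∀ C : Set V, IsOpen C → IsConnected C → C ⊆ U →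
    ar C ≤ ρ * W (closure (convexHull ℝ C))) →
  ∀ u : V → ℝ, Tst U u → (∀ x, 0 ≤ u x) → ∫ x, u x ≤ ρ * ∫ x, ‖fderiv ℝ u x‖

/-- lower bound for the Cheeger constant -/
def S_CI : Prop := ∀ U : Set V, PC U → ∀ ρ : ℝ, 0 < ρ →
  ar (Inn U ρ) ≤ Real.pi * ρ ^ 2 → 1 / ρ ≤ hC U

/-- upper bound for the Cheeger constant -/
def S_CII : Prop := ∀ U : Set V, PC U → ∀ ρ : ℝ, 0 < ρ →
  Real.pi * ρ ^ 2 ≤ ar (Inn U ρ) → hC U ≤ 1 / ρ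

/-- what is used of optimality -/
structure Good (U : Set V) (r : ℝ) : Prop where
  pc : PC U
  r_pos : 0 < r
  area : ar (Inn U r) ≤ Real.pi * r ^ 2
  fat : ∃ (c : V) (R : ℝ), r < R ∧ ball c R ⊆ U
  opt : ∀ (U' : Set V) (ρ : ℝ), PC U' → 0 < ρ → ar (Inn U' ρ) ≤ Real.pi * ρ ^ 2 →
    lam U * r ^ 2 ≤ lam U' * ρ ^ 2

def S_GOOD : Prop := ∀ U : Set V, IsOptimal U → ∃ r : ℝ, Good U r

/-- shrinking the radius -/
def S_SHR : Prop := ∀ M r : ℝ, 0 < M → 0 < r → ∃ c q₀ : ℝ, 0 < c ∧ 0 < q₀ ∧ c * q₀ < r ∧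
  ∀ U' : Set V, PC U' → U' ⊆ ball 0 M → ∀ q : ℝ, 0 < q → q ≤ q₀ →
    ar (Inn U' r) ≤ Real.pi * r ^ 2 - q → ar (Inn U' (r - c * q)) ≤ Real.pi * (r - c * q) ^ 2

/-- invariance under isometries -/
def S_ISOM : Prop := ∀ (Φ : V ≃ᵢ V) (U : Set V) (r : ℝ), Good U r → Good (Φ '' U) r

/-! ### Regions between two graphs -/

/-- region between the graphs of `l` and `g` over `(α, β)` -/
def Reg (α β : ℝ) (l g : ℝ → ℝ) : Set V :=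
  {p | α < p 0 ∧ p 0 < β ∧ l (p 0) < p 1 ∧ p 1 < g (p 0)}

structure RegD (α β : ℝ) (l g : ℝ → ℝ) : Prop where
  lt : α < β
  cl : ConvexOn ℝ (Ioo α β) l
  cg : ConcaveOn ℝ (Ioo α β) g
  lg : ∀ x ∈ Ioo α β, l x < g x
  bd : ∃ M : ℝ, ∀ x ∈ Ioo α β, -M ≤ l x ∧ g x ≤ M

def S_REG : Prop :=
  (∀ (α β : ℝ) (l g : ℝ → ℝ), RegD α β l g → PC (Reg α β l g)) ∧
  (∀ U : Set V, PC U → ∃ (α β : ℝ) (l g : ℝ → ℝ), RegD α β l g ∧ U = Reg α β l g)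

/-- `g` is not affine near `q` -/
def Bend (g : ℝ → ℝ) (q : ℝ) : Prop :=
  ∀ ε : ℝ, 0 < ε → ¬ ∃ m c : ℝ, ∀ x ∈ Ioo (q - ε) (q + ε), g x = m * x + c

def S_BEND : Prop := ∀ (α β : ℝ) (l g : ℝ → ℝ), RegD α β l g →
  ∀ e ∈ extremePoints ℝ (closure (Reg α β l g)), e 0 ∈ Ioo α β →
    (e 1 = g (e 0) ∧ Bend g (e 0)) ∨ (e 1 = l (e 0) ∧ Bend l (e 0))

/-- admissible perturbations -/
structure Adm (α β : ℝ) (g φ : ℝ → ℝ) (a d : ℝ) : Prop where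
  ha : α < a
  hd : d < β
  had : a < d
  zero : ∀ x, x ∉ Ioo a d → φ x = 0
  plus : ConcaveOn ℝ (Ioo α β) (fun x => g x + φ x)
  minus : ConcaveOn ℝ (Ioo α β) (fun x => g x - φ x)

def S_ADM : Prop :=
  (∀ (α β : ℝ) (g φ : ℝ → ℝ) (a d : ℝ), Adm α β g φ a d →
    Continuous φ ∧ ∃ K : ℝ≥0, LipschitzWith K φ) ∧
  (∀ (α β : ℝ) (g φ₁ φ₂ : ℝ → ℝ) (a₁ d₁ a₂ d₂ v₁ v₂ : ℝ), Adm α β g φ₁ a₁ d₁ →
    Adm α β g φ₂ a₂ d₂ → ConcaveOn ℝ (Ioo α β) g → |v₁| + |v₂| ≤ 1 →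
    Adm α β g (fun x => v₁ * φ₁ x + v₂ * φ₂ x) (min a₁ a₂) (max d₁ d₂)) ∧
  (∀ (α β : ℝ) (l g φ : ℝ → ℝ) (a d : ℝ), RegD α β l g → Adm α β g φ a d →
    ∃ t₀ : ℝ, 0 < t₀ ∧ ∀ t : ℝ, |t| ≤ t₀ → RegD α β l (fun x => g x + t * φ x))

/-- piecewise linear hat -/
noncomputable def hat (a b d x : ℝ) : ℝ := max 0 (min ((x - a) / (b - a)) ((d - x) / (d - b)))

/-- smoothed hats -/
structure HatS (φ : ℝ → ℝ) (H a b d ε : ℝ) : Prop where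
  H_pos : 0 < H
  nonneg : ∀ x, 0 ≤ φ x
  near : ∀ x, |φ x - H * hat a b d x| ≤ ε * H
  lipL : ∀ x y, x ≤ b + ε → y ≤ b + ε →
    |φ x - φ y| ≤ (1 + ε) * max (H / (b - a)) (H / (d - b)) * |x - y|
  lipR : ∀ x y, b + ε ≤ x → b + ε ≤ y → |φ x - φ y| ≤ (1 + ε) * (H / (d - b)) * |x - y|
  aff : ∃ s : ℝ, (1 - ε) * (H / (b - a)) ≤ s ∧
    ∀ x ∈ Icc (a + ε) (b - ε), ∀ y ∈ Icc (a + ε) (b - ε), φ x - φ y = s * (x - y)

def S_HAT : Prop := ∀ (α β : ℝ) (g : ℝ → ℝ), ConcaveOn ℝ (Ioo α β) g →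
  ∀ a b d ε : ℝ, 0 < ε → ε < 1 / 4 → α < a - ε → a + 4 * ε < b → b + 4 * ε < d → d + ε < β →
    Bend g a → Bend g b → Bend g d →
    ∃ (φ : ℝ → ℝ) (H : ℝ), Adm α β g φ (a - ε) (d + ε) ∧ HatS φ H a b d ε

/-- the normalised situation at an accumulation point of extreme points -/
structure Frame (U : Set V) (r α β : ℝ) (l g : ℝ → ℝ) (R k X₀ : ℝ) : Prop where
  good : Good U r
  reg : RegD α β l g
  eq : U = Reg α β l g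
  hR : r < R
  hball : ball (0 : V) R ⊆ U
  hk : 0 ≤ k
  base : ball (pt 0 k) r ⊆ U
  hX : |X₀| < r
  touch : g X₀ = k + √(r ^ 2 - X₀ ^ 2)
  bends : ∀ ε : ℝ, 0 < ε → ∃ q ∈ Ioo X₀ (X₀ + ε), Bend g q

/-- accumulation points of extreme points are touched by an interior ball of radius `r` -/
def S_ACT : Prop := ∀ (U : Set V) (r : ℝ), Good U r → ∀ x₀ : V,
  (∀ ε : ℝ, 0 < ε → (extremePoints ℝ (closure U) ∩ ball x₀ ε).Infinite) →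
  ∃ y₀ : V, ball y₀ r ⊆ U ∧ dist x₀ y₀ = r

def S_FRM : Prop := ∀ (U : Set V) (r : ℝ), Good U r →
  (extremePoints ℝ (closure U)).Infinite →
  ∃ (U' : Set V) (α β : ℝ) (l g : ℝ → ℝ) (R k X₀ : ℝ), Frame U' r α β l g R k X₀

/-! ### Inner parallel curve and contact points -/

/-- height of the highest ball of radius `r` with centre at abscissa `x` below the graph of `g` -/
noncomputable def gr (g : ℝ → ℝ) (r x : ℝ) : ℝ :=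
  sInf ((fun s => g (x + s) - √(r ^ 2 - s ^ 2)) '' Icc (-r) r)

/-- the graph is touched at abscissa `X` by the highest ball over `x` -/
def Ct (g : ℝ → ℝ) (r x X : ℝ) : Prop :=
  |X - x| ≤ r ∧ g X - √(r ^ 2 - (X - x) ^ 2) = gr g r x

/-- variation of the area under the inner parallel curve -/
noncomputable def FF (g : ℝ → ℝ) (r δ₀ : ℝ) (φ : ℝ → ℝ) : ℝ :=
  ∫ x in (-δ₀)..δ₀, (gr (fun z => g z + φ z) r x - gr g r x)

/-- length of a subset of the line -/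
noncomputable def len (A : Set ℝ) : ℝ := (volume A).toReal

/-- centres with a contact abscissa in `A` -/
def CS (g : ℝ → ℝ) (r δ₀ : ℝ) (A : Set ℝ) : Set ℝ := {x | x ∈ Icc (-δ₀) δ₀ ∧ ∃ X ∈ A, Ct g r x X}

def S_CTB : Prop := ∀ (U : Set V) (r α β : ℝ) (l g : ℝ → ℝ) (R k X₀ : ℝ),
  Frame U r α β l g R k X₀ → ∀ δ₀ : ℝ, 0 < δ₀ → δ₀ < R - r →
    (∀ x ∈ Icc (-δ₀) δ₀, ∃ X, Ct g r x X) ∧
    (∀ x ∈ Icc (-δ₀) δ₀, ∀ x' ∈ Icc (-δ₀) δ₀, ∀ X X', Ct g r x X → Ct g r x' X' → x < x' →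
      x' - x ≤ X' - X) ∧
    Ct g r 0 X₀ ∧
    (∀ x ∈ Icc (-δ₀) δ₀, ∀ X, Ct g r x X → X₀ < X → 0 ≤ x ∧ x ≤ X - X₀) ∧
    (∃ σ : ℝ, σ < r ∧ ∀ x ∈ Icc (-δ₀) δ₀, ∀ X, Ct g r x X → |X - x| ≤ σ) ∧
    (∀ a b : ℝ, a ≤ b → MeasurableSet (CS g r δ₀ (Icc a b)) ∧
      len (CS g r δ₀ (Icc a b)) ≤ b - a)

/-- regularity, concavity and upper bound for the inner parallel curve -/
def S_GRF : Prop := ∀ (U : Set V) (r α β : ℝ) (l g : ℝ → ℝ) (R k X₀ : ℝ),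
  Frame U r α β l g R k X₀ → ∀ δ₀ : ℝ, 0 < δ₀ → δ₀ < R - r →
    (∀ φ : ℝ → ℝ, Continuous φ →
      ContinuousOn (gr (fun z => g z + φ z) r) (Icc (-δ₀) δ₀)) ∧
    (∀ φ₁ φ₂ : ℝ → ℝ, Continuous φ₁ → Continuous φ₂ → ∀ θ ∈ Icc (0 : ℝ) 1,
      ∀ x ∈ Icc (-δ₀) δ₀,
      (1 - θ) * gr (fun z => g z + φ₁ z) r x + θ * gr (fun z => g z + φ₂ z) r x ≤
        gr (fun z => g z + ((1 - θ) * φ₁ z + θ * φ₂ z)) r x) ∧
    (∀ φ : ℝ → ℝ, Continuous φ → ∀ x ∈ Icc (-δ₀) δ₀, ∀ X, Ct g r x X →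
      gr (fun z => g z + φ z) r x ≤ gr g r x + φ X)

/-- second order gain at contact points where the perturbation is affine -/
def S_GNP : Prop := ∀ (U : Set V) (r α β : ℝ) (l g : ℝ → ℝ) (R k X₀ : ℝ),
  Frame U r α β l g R k X₀ → ∀ δ₀ : ℝ, 0 < δ₀ → δ₀ < R - r →
    ∃ κ : ℝ, 0 < κ ∧ ∀ φ : ℝ → ℝ, Continuous φ → ∀ a b s η : ℝ, a < b → 0 < η →
      (∀ x ∈ Icc a b, ∀ y ∈ Icc a b, φ x - φ y = s * (x - y)) →
      ∃ t₀ : ℝ, 0 < t₀ ∧ ∀ t : ℝ, |t| ≤ t₀ → ∀ x ∈ CS g r δ₀ (Icc (a + η) (b - η)),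
        gr (fun z => g z + t * φ z) r x + gr (fun z => g z + -t * φ z) r x - 2 * gr g r x ≤
          -(κ * t ^ 2 * s ^ 2)

/-- the area of the inner parallel set of a perturbed set -/
def S_ARE : Prop := ∀ (U : Set V) (r α β : ℝ) (l g : ℝ → ℝ) (R k X₀ : ℝ),
  Frame U r α β l g R k X₀ → ∀ δ₀ : ℝ, 0 < δ₀ → δ₀ < R - r →
    ∀ (φ : ℝ → ℝ) (a d : ℝ), Adm α β g φ a d → X₀ < a → d < X₀ + δ₀ →
      ∃ t₀ : ℝ, 0 < t₀ ∧ ∀ t : ℝ, |t| ≤ t₀ →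
        ar (Inn (Reg α β l (fun x => g x + t * φ x)) r) ≤
          ar (Inn U r) + FF g r δ₀ (fun x => t * φ x)

/-- a line through the origin on which a concave function of two variables is maximal at `0` -/
def S_SUP : Prop := ∀ F : ℝ → ℝ → ℝ,
  (∀ a b c d : ℝ, ∀ θ ∈ Icc (0 : ℝ) 1, (1 - θ) * F a b + θ * F c d ≤
    F ((1 - θ) * a + θ * c) ((1 - θ) * b + θ * d)) → F 0 0 = 0 →
  ∃ v₁ v₂ : ℝ, |v₁| + |v₂| = 1 ∧ ∀ t : ℝ, F (t * v₁) (t * v₂) ≤ 0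

/-- first order decrease of the first eigenvalue -/
def S_ALM : Prop := ∀ (U : Set V) (r α β : ℝ) (l g : ℝ → ℝ) (R k X₀ : ℝ),
  Frame U r α β l g R k X₀ → ∀ u : V → ℝ, Eig U u →
    ∃ c w₀ : ℝ, 0 < c ∧ 0 < w₀ ∧ ∀ (φ : ℝ → ℝ) (H a' d' b d : ℝ), 0 < H →
      Adm α β g φ a' d' → (∀ x, 0 ≤ φ x) → X₀ < b → b - X₀ ≤ (d - X₀) / 8 → d - X₀ ≤ w₀ →
      (∀ x ∈ Icc b ((b + d) / 2), H / 4 ≤ φ x) →
      ∃ t₀ : ℝ, 0 < t₀ ∧ ∀ t : ℝ, 0 < t → t ≤ t₀ →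
        lam (Reg α β l (fun x => g x + t * φ x)) ≤ lam U - c * t * H * (d - X₀)

/-- lower bound for the measure of the set of centres touching a given arc -/
def S_LOW : Prop := ∀ (U : Set V) (r α β : ℝ) (l g : ℝ → ℝ) (R k X₀ : ℝ),
  Frame U r α β l g R k X₀ → ∀ δ₀ : ℝ, 0 < δ₀ → δ₀ < R - r →
    ∃ c w₀ : ℝ, 0 < c ∧ 0 < w₀ ∧ ∀ b d : ℝ, X₀ < b → b - X₀ ≤ c * (d - X₀) → d - X₀ ≤ w₀ →
      Bend g b → Bend g d → c * (d - X₀) ≤ len (CS g r δ₀ (Icc b d))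

/-- hat-like functions -/
structure HL (φ : ℝ → ℝ) (H a b d : ℝ) : Prop where
  H_pos : 0 < H
  ab : a < b
  bd : b < d
  short : b - a ≤ d - b
  bound : ∀ x, |φ x| ≤ 2 * H
  zero : ∀ x, x ∉ Ioo a d → φ x = 0
  lipL : ∀ x y, x ≤ b → y ≤ b → |φ x - φ y| ≤ 4 * H / (b - a) * |x - y|
  lipR : ∀ x y, b ≤ x → b ≤ y → |φ x - φ y| ≤ 4 * H / (d - b) * |x - y|

/-- extension of a hat-like function from the upper boundary curve to the plane -/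
def S_EXT : Prop := ∀ (U : Set V) (r α β : ℝ) (l g : ℝ → ℝ) (R k X₀ : ℝ),
  Frame U r α β l g R k X₀ → ∃ C w₀ : ℝ, 0 < C ∧ 0 < w₀ ∧
    ∀ (φ : ℝ → ℝ) (H a b d : ℝ), HL φ H a b d → X₀ < a → d ≤ X₀ + w₀ →
      ∃ (Wf : V → ℝ) (K : ℝ≥0), LipschitzWith K Wf ∧
        (∀ x ∈ Ioo α β, Wf (pt x (g x)) = φ x) ∧ (∀ x ∈ Ioo α β, Wf (pt x (l x)) = 0) ∧
        (∀ p, ‖fderiv ℝ Wf p‖ ≤ C * H / ((b - a) + dist p (pt b (g b)))) ∧
        (∀ p, C * (d - b) < dist p (pt b (g b)) → Wf p = 0)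

/-- transport of the eigenfunction: product of the eigenvalues of the two perturbed sets -/
def S_TRN : Prop := ∀ (α β : ℝ) (l g : ℝ → ℝ), RegD α β l g → ∀ u : V → ℝ,
  Eig (Reg α β l g) u → ∀ (φ : ℝ → ℝ) (a d a₂ d₂ : ℝ), Adm α β g φ a d → α < a₂ → d₂ < β →
    ∀ (Wf N : V → ℝ) (K : ℝ≥0) (B : ℝ), LipschitzWith K Wf → HasCompactSupport Wf →
      (∀ x ∈ Ioo α β, Wf (pt x (g x)) = φ x) → (∀ x ∈ Ioo α β, Wf (pt x (l x)) = 0) →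
      (∀ p, Wf p ≠ 0 → p 0 ∈ Icc a₂ d₂) → Measurable N → (∀ p, ‖fderiv ℝ Wf p‖ ≤ N p) →
      (∀ p, N p ≤ B) →
      ∃ t₀ : ℝ, 0 < t₀ ∧ ∀ t : ℝ, |t| ≤ t₀ →
        lam (Reg α β l (fun x => g x + t * φ x)) * lam (Reg α β l (fun x => g x + -t * φ x)) *
          (1 - (t * ∫ p, u p ^ 2 * N p) ^ 2) ≤
        (lam (Reg α β l g) + 2 * t ^ 2 * ∫ p, N p ^ 2 * ‖gd (Reg α β l g) u p‖ ^ 2) ^ 2

/-- second order bound for the product of the eigenvalues -/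
def S_BLM : Prop := ∀ (U : Set V) (r α β : ℝ) (l g : ℝ → ℝ) (R k X₀ : ℝ),
  Frame U r α β l g R k X₀ → ∃ C w₀ : ℝ, 0 < C ∧ 0 < w₀ ∧
    ∀ (φ₁ φ₂ : ℝ → ℝ) (H₁ a₁ b₁ d₁ H₂ a₂ b₂ d₂ : ℝ),
      HL φ₁ H₁ a₁ b₁ d₁ → HL φ₂ H₂ a₂ b₂ d₂ → Adm α β g φ₁ a₁ d₁ → Adm α β g φ₂ a₂ d₂ →
      X₀ < a₁ → X₀ < a₂ → d₁ ≤ X₀ + w₀ → d₂ ≤ X₀ + w₀ →
      ∀ v₁ v₂ : ℝ, |v₁| + |v₂| ≤ 1 → ∃ t₀ : ℝ, 0 < t₀ ∧ ∀ t : ℝ, |t| ≤ t₀ →
        lam (Reg α β l (fun x => g x + t * (v₁ * φ₁ x + v₂ * φ₂ x))) *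
          lam (Reg α β l (fun x => g x + -t * (v₁ * φ₁ x + v₂ * φ₂ x))) ≤
        lam U ^ 2 * (1 + C * t ^ 2 *
          (v₁ ^ 2 * H₁ ^ 2 * (1 + Real.log ((d₁ - b₁) / (b₁ - a₁))) +
            v₂ ^ 2 * H₂ ^ 2 * (1 + Real.log ((d₂ - b₂) / (b₂ - a₂)))))

/-- the contradiction -/
def S_MAIN : Prop := ∀ (U : Set V) (r α β : ℝ) (l g : ℝ → ℝ) (R k X₀ : ℝ),
  ¬ Frame U r α β l g R k X₀

/-- the theorem -/
def S_END : Prop := ∀ U : Set V, IsOptimal U → IsPolygon U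

end Pool.Agent.H417R2.CH
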