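import Pool.Agent.H417R2.CH.Defs

/-!
Project CH (helper417), second list of statements `S_<ID>`: the larger tasks of `Defs.lean` are
split into these.
-/

set_option autoImplicit false
open MeasureTheory Metric Set Filter Topology
open scoped ContDiff InnerProductSpace ENNReal NNReal

namespace Pool.Agent.H417R2.CH

open Pool.Agent.Helper546 (Tst lap)

/-! ### Lipschitz functions -/

/-- the derivative of a Lipschitz function vanishes almost everywhere on its zero set -/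
def S_GZ : Prop := ∀ (v : V → ℝ) (K : ℝ≥0), LipschitzWith K v →
  ∀ᵐ x : V, v x = 0 → fderiv ℝ v x = 0

/-- smooth approximation of Lipschitz functions with compact support in `U` -/
def S_LAP1 : Prop := ∀ (U : Set V), IsOpen U → ∀ (v : V → ℝ) (K : ℝ≥0), LipschitzWith K v →
  HasCompactSupport v → tsupport v ⊆ U → ∀ ε : ℝ, 0 < ε → ∃ φ : V → ℝ, Tst U φ ∧
    ∫ x, (v x - φ x) ^ 2 < ε ∧ ∫ x, ‖gradient v x - gradient φ x‖ ^ 2 < ε ∧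
    ∫ x, |v x - φ x| < ε ∧ ∫ x, ‖fderiv ℝ v x - fderiv ℝ φ x‖ < ε

/-- smooth approximation of Lipschitz functions with compact support vanishing outside `U` -/
def S_LAP : Prop := ∀ (U : Set V), IsOpen U → ∀ (v : V → ℝ) (K : ℝ≥0), LipschitzWith K v →
  HasCompactSupport v → (∀ x, x ∉ U → v x = 0) → ∀ ε : ℝ, 0 < ε → ∃ φ : V → ℝ, Tst U φ ∧
    ∫ x, (v x - φ x) ^ 2 < ε ∧ ∫ x, ‖gradient v x - gradient φ x‖ ^ 2 < ε ∧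
    ∫ x, |v x - φ x| < ε ∧ ∫ x, ‖fderiv ℝ v x - fderiv ℝ φ x‖ < ε

/-! ### First eigenfunction -/

/-- existence of minimisers -/
def S_EIGA : Prop := ∀ U : Set V, IsOpen U → U.Nonempty → Bornology.IsBounded U →
  0 < lam U ∧ ∃ (v : V → ℝ) (G : V → V), H10 U v G ∧ ∫ x, v x ^ 2 = 1 ∧ ∫ x, ‖G x‖ ^ 2 = lam U

/-- minimisers solve the weak equation -/
def S_EIGB : Prop := ∀ U : Set V, IsOpen U → U.Nonempty → ∀ (v : V → ℝ) (G : V → V),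
  H10 U v G → ∫ x, ‖G x‖ ^ 2 = lam U * ∫ x, v x ^ 2 → ∀ (w : V → ℝ) (K : V → V), H10 U w K →
    ∫ x, ⟪G x, K x⟫_ℝ = lam U * ∫ x, v x * w x

/-- the modulus of a minimiser is a minimiser -/
def S_ABSM : Prop := ∀ U : Set V, IsOpen U → U.Nonempty → ∀ (v : V → ℝ) (G : V → V),
  H10 U v G → ∫ x, ‖G x‖ ^ 2 = lam U * ∫ x, v x ^ 2 →
    ∃ G' : V → V, H10 U (fun x => |v x|) G' ∧ ∫ x, ‖G' x‖ ^ 2 = lam U * ∫ x, v x ^ 2

/-- interior estimate for a function on `U` -/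
def IntEst (U : Set V) (w : V → ℝ) : Prop := ∃ C t₀ : ℝ, 0 < t₀ ∧
  ∀ z t, 0 < t → t ≤ t₀ → closedBall z (2 * t) ⊆ U → w z ^ 2 ≤ C / t ^ 2 * ∫ y in ball z t, w y ^ 2

/-- interior regularity of weak solutions -/
def S_REGW : Prop := ∀ U : Set V, IsOpen U → ∀ Λ : ℝ, 0 ≤ Λ → ∀ (v : V → ℝ) (G : V → V),
  H10 U v G → (∀ φ, Tst U φ → ∫ x, ⟪G x, gradient φ x⟫_ℝ = Λ * ∫ x, v x * φ x) →
    ∃ w : V → ℝ, ContDiffOn ℝ ∞ w U ∧ (∀ x ∈ U, lap w x = -(Λ * w x)) ∧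
      (∀ᵐ x : V, x ∈ U → w x = v x ∧ gradient w x = G x) ∧
      (∀ᵐ x : V, x ∉ U → v x = 0 ∧ G x = 0) ∧ IntEst U w

/-- strong maximum principle -/
def S_SMP : Prop := ∀ U : Set V, IsOpen U → IsPreconnected U → ∀ (w : V → ℝ) (Λ : ℝ), 0 ≤ Λ →
  ContDiffOn ℝ ∞ w U → (∀ x ∈ U, lap w x = -(Λ * w x)) → (∀ x ∈ U, 0 ≤ w x) →
    ∀ z ∈ U, w z = 0 → ∀ x ∈ U, w x = 0

/-- continuity up to the boundary -/
def S_EIGF : Prop := ∀ U : Set V, PC U → ∀ w : V → ℝ, ContDiffOn ℝ ∞ w U →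
  H10 U (U.indicator w) (gd U w) → IntEst U w → Continuous (U.indicator w)

/-! ### Equiangular polygons -/

/-- equidistributed angles -/
noncomputable def ang (n : ℕ) (i : ℤ) : ℝ := 2 * Real.pi * i / n

/-- the polygon with given support numbers -/
def PP (n : ℕ) (h : ℤ → ℝ) : Set V := {x | ∀ i : ℤ, ⟪x, ev (ang n i)⟫_ℝ ≤ h i}

/-- support numbers: periodic and convex -/
structure SN (n : ℕ) (h : ℤ → ℝ) : Prop where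
  per : ∀ i, h (i + n) = h i
  conv : ∀ i, 2 * Real.cos (2 * Real.pi / n) * h i ≤ h (i + 1) + h (i - 1)

def S_VTX : Prop := ∀ (n : ℕ) (h : ℤ → ℝ), 3 ≤ n → SN n h → ∀ (i : ℤ) (x : V),
  ⟪x, ev (ang n i)⟫_ℝ = h i → ⟪x, ev (ang n (i + 1))⟫_ℝ ≤ h (i + 1) →
    ⟪x, ev (ang n (i - 1))⟫_ℝ ≤ h (i - 1) → x ∈ PP n h

def S_PGA : Prop := ∀ (n : ℕ) (h : ℤ → ℝ) (δ : ℝ), 3 ≤ n → SN n h → 0 < δ →
  ar (PP n h) ≤ ar (PP n (fun i => h i - δ)) +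
    δ * (2 * Real.tan (Real.pi / n) * ∑ i ∈ Finset.range n, h i)

def S_PGB : Prop := ∀ (n : ℕ) (h : ℤ → ℝ) (δ : ℝ), 3 ≤ n → SN n h → 0 < δ →
  ar (PP n h) + δ * (2 * Real.tan (Real.pi / n) * ∑ i ∈ Finset.range n, h i) +
    n * Real.tan (Real.pi / n) * δ ^ 2 ≤ ar (PP n (fun i => h i + δ))

/-- limits of the circumscribed polygons -/
def S_PLM : Prop := ∀ K : Set V, IsCompact K → Convex ℝ K → K.Nonempty →
  (∀ n : ℕ, 1 ≤ n → SN n (fun i => hs K (ang n i))) ∧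
  (∀ δ : ℝ, Tendsto (fun m : ℕ => ar (PP (2 ^ m) (fun i => hs K (ang (2 ^ m) i) + δ))) atTop
    (𝓝 (ar {x | ∀ θ : ℝ, ⟪x, ev θ⟫_ℝ ≤ hs K θ + δ}))) ∧
  Tendsto (fun m : ℕ => 2 * Real.tan (Real.pi / (2 ^ m : ℕ)) *
    ∑ i ∈ Finset.range (2 ^ m), hs K (ang (2 ^ m) i)) atTop (𝓝 (W K)) ∧
  (∀ δ : ℝ, 0 ≤ δ → {x | ∀ θ : ℝ, ⟪x, ev θ⟫_ℝ ≤ hs K θ + δ} = cthickening δ K) ∧
  (∀ δ : ℝ, 0 < δ → {x | ∀ θ : ℝ, ⟪x, ev θ⟫_ℝ ≤ hs K θ + -δ} = Inn K δ)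

/-! ### Components of superlevel sets -/

/-- a dense sequence in the plane -/
noncomputable def Qd : ℕ → V := TopologicalSpace.denseSeq V

/-- the component of `Qd j` in `{t < u}` -/
def cmp (u : V → ℝ) (t : ℝ) (j : ℕ) : Set V := connectedComponentIn {x | t < u x} (Qd j)

/-- `Qd j` is the first point of the sequence in its component of `{t < u}` -/
def fsp (u : V → ℝ) (t : ℝ) (j : ℕ) : Prop := t < u (Qd j) ∧ ∀ i < j, Qd i ∉ cmp u t j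

/-- the line with normal direction `θ` and offset `s` meets the component of `Qd j` in `{t < u}` -/
def AA (u : V → ℝ) (j : ℕ) : Set (ℝ × ℝ × ℝ) :=
  {p | fsp u p.2.2 j ∧ ∃ x ∈ cmp u p.2.2 j, ⟪x, ev p.1⟫_ℝ = p.2.1}

def S_CMP : Prop := ∀ u : V → ℝ, Continuous u → HasCompactSupport u →
  (∀ j, MeasurableSet (AA u j)) ∧
  (∀ (t : ℝ) (j : ℕ), 0 < t → fsp u t j → IsOpen (cmp u t j) ∧ IsConnected (cmp u t j) ∧
    cmp u t j ⊆ {x | t < u x}) ∧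
  (∀ t : ℝ, 0 < t → volume {x | t < u x} ≤ ∑' j : ℕ, ⨆ (_ : fsp u t j), volume (cmp u t j))

/-- width representation of `W` for the hull of a connected set -/
def S_WID : Prop := ∀ C : Set V, IsOpen C → IsConnected C → Bornology.IsBounded C →
  2 * ENNReal.ofReal (W (closure (convexHull ℝ C))) =
    ∫⁻ θ in Ioc (0 : ℝ) (2 * Real.pi), volume ((fun x : V => ⟪x, ev θ⟫_ℝ) '' C)

/-- counting components along the lines of one direction -/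
def S_SLC : Prop := ∀ u : V → ℝ, Tst univ u → (∀ x, 0 ≤ u x) → ∀ θ : ℝ,
  2 * ∫⁻ s : ℝ, ∫⁻ t in Ioi (0 : ℝ), ∑' j : ℕ, (AA u j).indicator (fun _ => (1 : ℝ≥0∞)) (θ, s, t) ≤
    ∫⁻ x : V, ENNReal.ofReal |fderiv ℝ u x (ev (θ + Real.pi / 2))|

/-- average over the directions -/
def S_ROT : Prop := ∀ u : V → ℝ, Tst univ u →
  ∫⁻ θ in Ioc (0 : ℝ) (2 * Real.pi), ∫⁻ x : V,
      ENNReal.ofReal |fderiv ℝ u x (ev (θ + Real.pi / 2))| =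
    4 * ∫⁻ x : V, ENNReal.ofReal ‖fderiv ℝ u x‖

/-! ### Perturbations -/

/-- ramps at a bend -/
def S_RMP : Prop := ∀ (α β : ℝ) (g : ℝ → ℝ), ConcaveOn ℝ (Ioo α β) g → ∀ q ε : ℝ, 0 < ε →
  α < q - ε → q + ε < β → Bend g q → ∃ (k : ℝ → ℝ) (c m : ℝ), 0 < m ∧ q - ε < c ∧ c < q + ε ∧
    (∀ x, x ≤ q - ε → k x = 0) ∧ (∀ x, q + ε ≤ x → k x = x - c) ∧ ConvexOn ℝ univ k ∧
    (∀ x y, x ≤ y → 0 ≤ k y - k x ∧ k y - k x ≤ y - x) ∧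
    ∀ m' : ℝ, 0 ≤ m' → m' ≤ m → ConcaveOn ℝ (Ioo α β) (fun x => g x + m' * k x)

/-- coordinates adapted to two points -/
def S_NRM : Prop := ∀ U : Set V, PC U → ∀ c ∈ U, ∀ y : V,
  ∃ (Φ : V ≃ᵢ V) (α β : ℝ) (l g : ℝ → ℝ) (k : ℝ), Φ c = 0 ∧ 0 ≤ k ∧ Φ y = pt 0 k ∧
    RegD α β l g ∧ Φ '' U = Reg α β l g

/-- accumulation of extreme points gives accumulation of bends -/
def S_EXB : Prop := ∀ (α β : ℝ) (l g : ℝ → ℝ), RegD α β l g → ∀ X₀ ∈ Ioo α β,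
  (∀ ε : ℝ, 0 < ε →
    (extremePoints ℝ (closure (Reg α β l g)) ∩ ball (pt X₀ (g X₀)) ε).Infinite) →
  ∀ ε : ℝ, 0 < ε → {q | q ∈ Ioo (X₀ - ε) (X₀ + ε) ∧ Bend g q}.Infinite

/-- perturbing away from the contact points does not change the inner parallel set -/
def S_CPT : Prop := ∀ (α β : ℝ) (l g : ℝ → ℝ), RegD α β l g → ∀ (r : ℝ), 0 < r →
  ∀ (φ : ℝ → ℝ) (a d : ℝ), Adm α β g φ a d → (∀ x, 0 ≤ φ x) →
    (∀ y : V, ball y r ⊆ Reg α β l g → ∀ X ∈ Icc a d, r < dist (pt X (g X)) y) →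
    ∃ t₀ : ℝ, 0 < t₀ ∧ ∀ t : ℝ, 0 ≤ t → t ≤ t₀ →
      Inn (Reg α β l (fun x => g x + t * φ x)) r = Inn (Reg α β l g) r

/-- no change of the inner parallel set away from the strip -/
def S_AR1 : Prop := ∀ (U : Set V) (r α β : ℝ) (l g : ℝ → ℝ) (R k X₀ : ℝ),
  Frame U r α β l g R k X₀ → ∀ δ₀ : ℝ, 0 < δ₀ → δ₀ < R - r →
    ∀ (φ : ℝ → ℝ) (a d : ℝ), Adm α β g φ a d → X₀ < a → d < X₀ + δ₀ →
      ∃ t₀ : ℝ, 0 < t₀ ∧ ∀ t : ℝ, |t| ≤ t₀ →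
        ∀ p ∈ Inn (Reg α β l (fun x => g x + t * φ x)) r, δ₀ < |p 0| → p ∈ Inn U r

/-- change of the inner parallel set in the strip -/
def S_AR2 : Prop := ∀ (U : Set V) (r α β : ℝ) (l g : ℝ → ℝ) (R k X₀ : ℝ),
  Frame U r α β l g R k X₀ → ∀ δ₀ : ℝ, 0 < δ₀ → δ₀ < R - r →
    ∀ (φ : ℝ → ℝ) (a d : ℝ), Adm α β g φ a d →
      ∃ t₀ : ℝ, 0 < t₀ ∧ ∀ t : ℝ, |t| ≤ t₀ →
        ar (Inn (Reg α β l (fun x => g x + t * φ x)) r ∩ {p | |p 0| ≤ δ₀}) ≤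
          ar (Inn U r ∩ {p | |p 0| ≤ δ₀}) + FF g r δ₀ (fun x => t * φ x)

/-- the first variation inequality -/
def S_VAR : Prop := ∀ (U U' : Set V) (u ψ ψ' : V → ℝ) (K' : V → V), PC U → PC U' → U ⊆ U' →
  Eig U u → Tst univ ψ → H10 U' ψ' K' → (∀ x, 0 ≤ ψ' x) → (∀ x ∈ U, ψ' x = ψ x) →
  (∀ x ∈ U, K' x = gradient ψ x) → 0 ≤ ∫ x, u x * lap ψ x → 0 < ∫ x, ‖K' x‖ ^ 2 →
    lam U' ≤ lam U - (∫ x, u x * lap ψ x) ^ 2 / ∫ x, ‖K' x‖ ^ 2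

/-- change of variables `p ↦ p + t Wf(p) e₂` -/
def S_CHV : Prop := ∀ (Wf : V → ℝ) (K : ℝ≥0), LipschitzWith K Wf → ∀ t : ℝ, |t| * K ≤ 1 / 2 →
  ∀ φ : V → ℝ, Tst univ φ → ∃ (v : V → ℝ) (K' : ℝ≥0), LipschitzWith K' v ∧
    HasCompactSupport v ∧ (∀ p, v (p + pt 0 (t * Wf p)) = φ p) ∧
    (∀ q, ∃ p, q = p + pt 0 (t * Wf p)) ∧
    ∫ q, v q ^ 2 = ∫ p, φ p ^ 2 * (1 + t * fderiv ℝ Wf p (pt 0 1)) ∧
    ∫ q, ‖gradient v q‖ ^ 2 = ∫ p, ((fderiv ℝ φ p (pt 1 0) -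
        t * fderiv ℝ Wf p (pt 1 0) * fderiv ℝ φ p (pt 0 1) / (1 + t * fderiv ℝ Wf p (pt 0 1))) ^ 2 *
          (1 + t * fderiv ℝ Wf p (pt 0 1)) +
        fderiv ℝ φ p (pt 0 1) ^ 2 / (1 + t * fderiv ℝ Wf p (pt 0 1)))

end Pool.Agent.H417R2.CH
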