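import Pool.Agent.H417R2.CH.Defs2

/-!
Project CH, task EIG (helper814): the first eigenfunction.
-/

set_option autoImplicit false
open MeasureTheory Metric Set Filter Topology
open scoped ContDiff InnerProductSpace ENNReal NNReal

namespace Pool.Agent.H417R2.CH

open Pool.Agent.Helper546 (Tst lap)

namespace EIG

theorem lap_congr {f g : V → ℝ} {x : V} (h : f =ᶠ[𝓝 x] g) : lap f x = lap g x := by
  have h1 : ∀ i : Fin 2, ∀ {f g : V → ℝ}, f =ᶠ[𝓝 x] g →
      Pool.Agent.Helper546.dd i f =ᶠ[𝓝 x] Pool.Agent.Helper546.dd i g := by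
    intro i f g h
    filter_upwards [h.fderiv (𝕜 := ℝ)] with y hy
    rw [Pool.Agent.Helper546.dd, Pool.Agent.Helper546.dd, hy]
  rw [lap, lap, (h1 0 (h1 0 h)).self_of_nhds, (h1 1 (h1 1 h)).self_of_nhds]

theorem H10_tst {U : Set V} {φ : V → ℝ} (h : Tst U φ) : H10 U φ (gradient φ) := by
  have h1 : Continuous φ := h.1.continuous
  have h2 : Continuous (gradient φ) :=
    (InnerProductSpace.toDual ℝ V).symm.continuous.comp (h.1.continuous_fderiv (by simp))
  have h3 : HasCompactSupport (gradient φ) :=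
    (h.2.1.fderiv (𝕜 := ℝ)).comp_left (g := (InnerProductSpace.toDual ℝ V).symm) (map_zero _)
  refine ⟨h1.memLp_of_hasCompactSupport h.2.1, h2.memLp_of_hasCompactSupport h3,
    fun ε hε => ⟨φ, h, ?_, ?_⟩⟩
  · simpa using hε
  · simpa using hε

theorem H10_congr {U : Set V} {u v : V → ℝ} {G K : V → V} (h : H10 U u G)
    (h1 : u =ᵐ[volume] v) (h2 : G =ᵐ[volume] K) : H10 U v K := by
  refine ⟨(memLp_congr_ae h1).1 h.memu, (memLp_congr_ae h2).1 h.memG, fun ε hε => ?_⟩
  obtain ⟨φ, hφ, ha, hb⟩ := h.approx ε hε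
  refine ⟨φ, hφ, ?_, ?_⟩
  · refine lt_of_eq_of_lt (integral_congr_ae ?_) ha
    filter_upwards [h1] with x hx
    rw [hx]
  · refine lt_of_eq_of_lt (integral_congr_ae ?_) hb
    filter_upwards [h2] with x hx
    rw [hx]

theorem nonneg_of_ae {U : Set V} (hU : IsOpen U) {w : V → ℝ} (hw : ContinuousOn w U)
    (h : ∀ᵐ x : V, x ∈ U → 0 ≤ w x) : ∀ x ∈ U, 0 ≤ w x := by
  have hO : IsOpen (U ∩ w ⁻¹' (Iio 0)) := hw.isOpen_inter_preimage hU isOpen_Iio
  have h0 : volume (U ∩ w ⁻¹' (Iio 0)) = 0 := by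
    rw [ae_iff] at h
    refine measure_mono_null ?_ h
    intro x hx hc
    exact absurd (hc hx.1) (not_le.2 hx.2)
  have he := (hO.measure_eq_zero_iff (volume : Measure V)).1 h0
  intro x hx
  by_contra hn
  have hx' : x ∈ U ∩ w ⁻¹' (Iio 0) := ⟨hx, not_le.1 hn⟩
  rw [he] at hx'
  exact hx'

end EIG

theorem t_EIG (h1 : S_HADD) (h2 : S_HLAM) (h3 : S_EIGA) (h4 : S_EIGB) (h5 : S_ABSM) (h6 : S_REGW)
    (h7 : S_SMP) (h8 : S_EIGF) : S_EIG := by
  intro U hU
  obtain ⟨hlam, v, G, hvG, hv1, hG1⟩ := h3 U hU.isOpen hU.ne hU.bdd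
  have hG2 : ∫ x, ‖G x‖ ^ 2 = lam U * ∫ x, v x ^ 2 := by rw [hG1, hv1, mul_one]
  obtain ⟨G', hvG', hG'⟩ := h5 U hU.isOpen hU.ne v G hvG hG2
  have habs : ∫ x, |v x| ^ 2 = 1 := by
    simp only [sq_abs]
    exact hv1
  have hG'1 : ∫ x, ‖G' x‖ ^ 2 = lam U * ∫ x, |v x| ^ 2 := by rw [hG', habs, hv1]
  have hweak := h4 U hU.isOpen hU.ne (fun x => |v x|) G' hvG' hG'1
  obtain ⟨w, hwS, hwP, hwa, hwb, hwI⟩ := h6 U hU.isOpen (lam U) hlam.le (fun x => |v x|) G' hvG'
    (fun φ hφ => hweak φ (gradient φ) (EIG.H10_tst hφ))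
  -- a.e. equalities
  have hu : (fun x => |v x|) =ᵐ[volume] U.indicator w := by
    filter_upwards [hwa, hwb] with x ha hb
    by_cases hx : x ∈ U
    · rw [indicator_of_mem hx, (ha hx).1]
    · rw [indicator_of_notMem hx, (hb hx).1]
  have hg : G' =ᵐ[volume] gd U w := by
    filter_upwards [hwa, hwb] with x ha hb
    by_cases hx : x ∈ U
    · rw [gd, indicator_of_mem hx, (ha hx).2]
    · rw [gd, indicator_of_notMem hx, (hb hx).2]
  have hev : ∀ x ∈ U, U.indicator w =ᶠ[𝓝 x] w := by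
    intro x hx
    filter_upwards [hU.isOpen.mem_nhds hx] with y hy
    rw [indicator_of_mem hy]
  have hgd : gd U (U.indicator w) = gd U w := by
    funext x
    by_cases hx : x ∈ U
    · rw [gd, gd, indicator_of_mem hx, indicator_of_mem hx, gradient, gradient,
        (hev x hx).fderiv_eq]
    · rw [gd, gd, indicator_of_notMem hx, indicator_of_notMem hx]
  have hH : H10 U (U.indicator w) (gd U w) := EIG.H10_congr hvG' hu hg
  -- positivity
  have hw0 : ∀ x ∈ U, 0 ≤ w x := by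
    refine EIG.nonneg_of_ae hU.isOpen hwS.continuousOn ?_
    filter_upwards [hwa] with x ha hx
    rw [(ha hx).1]
    exact abs_nonneg _
  have hnorm : ∫ x, U.indicator w x ^ 2 = 1 := by
    rw [← habs]
    refine integral_congr_ae ?_
    filter_upwards [hu] with x hx
    rw [← hx]
  have hwpos : ∀ x ∈ U, 0 < w x := by
    intro z hz
    refine lt_of_le_of_ne (hw0 z hz) fun hzero => ?_
    have hall := h7 U hU.isOpen hU.convex.isPreconnected w (lam U) hlam.le hwS hwP hw0 z hz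
      hzero.symm
    have h0 : ∫ x, U.indicator w x ^ 2 = 0 := by
      have : (fun x => U.indicator w x ^ 2) = fun _ => (0 : ℝ) := by
        funext x
        by_cases hx : x ∈ U
        · rw [indicator_of_mem hx, hall x hx]; norm_num
        · rw [indicator_of_notMem hx]; norm_num
      rw [this]
      exact integral_zero _ _
    rw [hnorm] at h0
    exact one_ne_zero h0
  refine ⟨U.indicator w, ?_⟩
  refine ⟨h8 U hU w hwS hH hwI, fun x hx => indicator_of_notMem hx w, fun x hx => ?_, ?_, ?_, ?_,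
    ?_, hnorm, hlam⟩
  · rw [indicator_of_mem hx]
    exact hwpos x hx
  · exact hwS.congr fun x hx => indicator_of_mem hx w
  · intro x hx
    rw [EIG.lap_congr (hev x hx), hwP x hx, indicator_of_mem hx]
  · rw [hgd]
    exact hH
  · intro v' K hvK
    have h := hweak v' K hvK
    rw [hgd]
    have e1 : ∫ x, ⟪gd U w x, K x⟫_ℝ = ∫ x, ⟪G' x, K x⟫_ℝ := by
      refine integral_congr_ae ?_
      filter_upwards [hg] with x hx
      rw [hx]
    have e2 : ∫ x, U.indicator w x * v' x = ∫ x, |v x| * v' x := by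
      refine integral_congr_ae ?_
      filter_upwards [hu] with x hx
      rw [← hx]
    rw [e1, e2]
    exact h

end Pool.Agent.H417R2.CH
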