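import Pool.Agent.H417R2.CH.Defs2
import Pool.Agent.Helper546.Existence

set_option autoImplicit false
open MeasureTheory Metric Set Filter Topology
open scoped ContDiff InnerProductSpace ENNReal NNReal

namespace Pool.Agent.H417R2.CH

open Pool.Agent.Helper546 (Tst lap)

namespace EIGA

open Pool.Agent.Helper546 (dd ee L2 WW Gr H0 HH io DD norm_sq_L2 inner_L2 norm_sq_V norm_fderiv_sq
  exists_Gr exists_pair io_ne_zero norm_sq_split exists_top isClosed_HH totallyBounded_HH DD_Gr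
  DD_nonneg ibp integrable_sq_of_tst norm_sq_WW io_apply norm_io_le)

theorem grad_coord (f : V → ℝ) (x : V) (i : Fin 2) : gradient f x i = dd i f x := by
  have h3 : ⟪gradient f x, ee i⟫_ℝ = fderiv ℝ f x (ee i) := by
    rw [gradient, InnerProductSpace.toDual_symm_apply]
  rw [dd, ← h3, ee, EuclideanSpace.inner_single_right]
  simp

theorem norm_grad (f : V → ℝ) (x : V) : ‖gradient f x‖ = ‖fderiv ℝ f x‖ := by
  rw [gradient, LinearIsometryEquiv.norm_map]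

theorem isTest_iff {U : Set V} {u : V → ℝ} : IsTest U u ↔ Tst U u ∧ u ≠ 0 := by
  constructor
  · rintro ⟨h1, h2, h3, x, hx⟩
    exact ⟨⟨h1, h2, h3⟩, fun h => hx (by rw [h]; rfl)⟩
  · rintro ⟨⟨h1, h2, h3⟩, h⟩
    refine ⟨h1, h2, h3, ?_⟩
    by_contra hcon
    push Not at hcon
    exact h (funext hcon)

/-- the set of Rayleigh quotients -/
def RS (U : Set V) : Set ℝ :=
  {c : ℝ | ∃ u : V → ℝ, IsTest U u ∧ c = (∫ x, ‖fderiv ℝ u x‖ ^ 2) / ∫ x, (u x) ^ 2}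

theorem lam_def (U : Set V) : lam U = sInf (RS U) := rfl

theorem RS_nonempty {U : Set V} (hU : IsOpen U) (hne : U.Nonempty) : (RS U).Nonempty := by
  obtain ⟨φ, ψ, hφ, hψ, hli⟩ := exists_pair hU hne
  refine ⟨_, φ, isTest_iff.2 ⟨hφ, ?_⟩, rfl⟩
  intro h
  have := hli.ne_zero 0
  exact this (by simpa using h)

theorem RS_bddBelow (U : Set V) : BddBelow (RS U) := by
  refine ⟨0, ?_⟩
  rintro c ⟨u, -, rfl⟩
  exact div_nonneg (integral_nonneg fun x => by positivity) (integral_nonneg fun x => by positivity)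

/-- the field of the last two components -/
noncomputable def fld (x : WW) (z : V) : V := pt ((x 1 : V → ℝ) z) ((x 2 : V → ℝ) z)

theorem norm_sq_pt (a b : ℝ) : ‖pt a b‖ ^ 2 = a ^ 2 + b ^ 2 := by
  rw [norm_sq_V]; simp [pt]

theorem pt_eq (a b : ℝ) : pt a b = a • ee 0 + b • ee 1 := by
  ext i
  fin_cases i <;> simp [pt, ee]

theorem memLp_fld (x : WW) : MemLp (fld x) 2 (volume : Measure V) := by
  have h1 : MemLp (fun z => ((x 1 : V → ℝ) z) • ee 0) 2 (volume : Measure V) :=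
    ((ContinuousLinearMap.smulRight (1 : ℝ →L[ℝ] ℝ) (ee 0)).comp_memLp (x 1))
  have h2 : MemLp (fun z => ((x 2 : V → ℝ) z) • ee 1) 2 (volume : Measure V) :=
    ((ContinuousLinearMap.smulRight (1 : ℝ →L[ℝ] ℝ) (ee 1)).comp_memLp (x 2))
  have h3 := h1.add h2
  have h4 : fld x = (fun z => ((x 1 : V → ℝ) z) • ee 0) + fun z => ((x 2 : V → ℝ) z) • ee 1 := by
    funext z
    exact pt_eq _ _
  rw [h4]
  exact h3

theorem int_fld (x : WW) : ∫ z, ‖fld x z‖ ^ 2 = DD x := by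
  rw [DD, norm_sq_L2 (x 1) (ae_eq_refl _), norm_sq_L2 (x 2) (ae_eq_refl _), ← integral_add]
  · congr 1
    funext z
    exact norm_sq_pt _ _
  · exact (Lp.memLp (x 1)).integrable_sq
  · exact (Lp.memLp (x 2)).integrable_sq

/-- elements of the Sobolev space -/
theorem h10_of_mem {U : Set V} {x : WW} (hx : x ∈ HH U) : H10 U (x 0 : V → ℝ) (fld x) := by
  refine ⟨Lp.memLp (x 0), memLp_fld x, fun ε hε => ?_⟩
  obtain ⟨g, ⟨φ, hφ, hg⟩, hd⟩ := Metric.mem_closure_iff.1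
    (show x ∈ closure (H0 U : Set WW) from hx) (Real.sqrt ε) (Real.sqrt_pos.2 hε)
  rw [dist_eq_norm] at hd
  have hd2 : ‖x - g‖ ^ 2 < ε := by
    have h := Real.lt_sqrt (norm_nonneg _) |>.1 hd
    exact h
  rw [norm_sq_WW] at hd2
  have e0 : ‖(x - g) 0‖ ^ 2 = ∫ z, ((x 0 : V → ℝ) z - φ z) ^ 2 :=
    norm_sq_L2 _ ((Lp.coeFn_sub (x 0) (g 0)).trans ((ae_eq_refl _).sub hg.1))
  have e1 : ‖(x - g) 1‖ ^ 2 = ∫ z, ((x 1 : V → ℝ) z - dd 0 φ z) ^ 2 :=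
    norm_sq_L2 _ ((Lp.coeFn_sub (x 1) (g 1)).trans ((ae_eq_refl _).sub hg.2.1))
  have e2 : ‖(x - g) 2‖ ^ 2 = ∫ z, ((x 2 : V → ℝ) z - dd 1 φ z) ^ 2 :=
    norm_sq_L2 _ ((Lp.coeFn_sub (x 2) (g 2)).trans ((ae_eq_refl _).sub hg.2.2))
  have hdm : ∀ i, MemLp (dd i φ) 2 (volume : Measure V) := fun i =>
    (hφ.dd i).1.continuous.memLp_of_hasCompactSupport (hφ.dd i).2.1
  refine ⟨φ, hφ, ?_, ?_⟩
  · rw [← e0]
    nlinarith [sq_nonneg ‖(x - g) 1‖, sq_nonneg ‖(x - g) 2‖]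
  · have h1 : ∫ z, ‖fld x z - gradient φ z‖ ^ 2 = ‖(x - g) 1‖ ^ 2 + ‖(x - g) 2‖ ^ 2 := by
      rw [e1, e2, ← integral_add]
      · congr 1
        funext z
        rw [norm_sq_V]
        simp only [PiLp.sub_apply, grad_coord]
        simp [fld, pt]
      · exact ((Lp.memLp (x 1)).sub (hdm 0)).integrable_sq
      · exact ((Lp.memLp (x 2)).sub (hdm 1)).integrable_sq
    rw [h1]
    nlinarith [sq_nonneg ‖(x - g) 0‖]

/-- Poincare inequality in the unit ball -/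
theorem poincare {U : Set V} (hU : U ⊆ ball 0 1) {φ : V → ℝ} (hφ : Tst U φ) :
    ∫ x, φ x ^ 2 ≤ 4 * ∫ x, dd 0 φ x ^ 2 := by
  have hc0 : ContDiff ℝ ∞ (fun x : V => x 0) := by
    exact Pool.Agent.Helper546.contDiff_coord 0
  have hf : ContDiff ℝ ∞ (fun x : V => x 0 * φ x) := hc0.mul hφ.1
  have h1 := ibp isOpen_univ 0 (f := fun x : V => x 0 * φ x) hf.contDiffOn hφ.univ
  have hdd : ∀ x, dd 0 (fun x : V => x 0 * φ x) x = φ x + x 0 * dd 0 φ x := by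
    intro x
    have hd0 : DifferentiableAt ℝ (fun x : V => x 0) x := hc0.differentiable (by simp) x
    have hd1 : DifferentiableAt ℝ φ x := hφ.1.differentiable (by simp) x
    rw [dd, fderiv_fun_mul hd0 hd1]
    have e : fderiv ℝ (fun x : V => x 0) x (ee 0) = 1 := by
      have : (fun x : V => x 0) = (EuclideanSpace.proj (0 : Fin 2) : V →L[ℝ] ℝ) := rfl
      rw [this, ContinuousLinearMap.fderiv]
      simp [ee]
    simp only [add_apply, smul_apply, smul_eq_mul, e, dd]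
    ring
  have hφc := hφ.1.continuous
  have hdc := (hφ.dd 0).1.continuous
  have i1 : Integrable (fun x => φ x ^ 2) := integrable_sq_of_tst hφ
  have i2 : Integrable (fun x => dd 0 φ x ^ 2) := integrable_sq_of_tst (hφ.dd 0)
  have i3 : Integrable (fun x : V => x 0 * φ x * dd 0 φ x) :=
    (by fun_prop : Continuous fun x : V => x 0 * φ x * dd 0 φ x).integrable_of_hasCompactSupport
      ((hφ.dd 0).2.1.mul_left)
  have h2 : ∫ x, φ x ^ 2 = -2 * ∫ x : V, x 0 * φ x * dd 0 φ x := by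
    have h3 : ∫ x, dd 0 (fun x : V => x 0 * φ x) x * φ x =
        (∫ x, φ x ^ 2) + ∫ x : V, x 0 * φ x * dd 0 φ x := by
      rw [← integral_add i1 i3]
      congr 1
      funext x
      rw [hdd]
      ring
    rw [h3] at h1
    linarith
  have hx : ∀ x : V, -2 * (x 0 * φ x * dd 0 φ x) ≤ 1 / 2 * φ x ^ 2 + 2 * dd 0 φ x ^ 2 := by
    intro x
    by_cases hxs : x ∈ tsupport φ
    · have h4 : ‖x‖ < 1 := by simpa using hU (hφ.2.2 hxs)
      have h5 : x 0 ^ 2 ≤ 1 := by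
        have := norm_sq_V x
        nlinarith [norm_nonneg x, sq_nonneg (x 1)]
      nlinarith [sq_nonneg (1 / 2 * φ x + x 0 * dd 0 φ x), sq_nonneg (dd 0 φ x),
        mul_nonneg (sub_nonneg.2 h5) (sq_nonneg (dd 0 φ x)), sq_nonneg (φ x)]
    · rw [image_eq_zero_of_notMem_tsupport hxs]
      nlinarith [sq_nonneg (dd 0 φ x)]
  have h6 : ∫ x : V, -2 * (x 0 * φ x * dd 0 φ x) ≤
      ∫ x : V, (1 / 2 * φ x ^ 2 + 2 * dd 0 φ x ^ 2) :=
    integral_mono (i3.const_mul _) ((i1.const_mul _).add (i2.const_mul _)) hx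
  rw [integral_const_mul, integral_add (i1.const_mul _) (i2.const_mul _), integral_const_mul,
    integral_const_mul] at h6
  linarith

theorem io_le_DD {U : Set V} (hU : U ⊆ ball 0 1) {x : WW} (hx : x ∈ HH U) :
    ‖io x‖ ^ 2 ≤ 4 * DD x := by
  have hc : IsClosed {y : WW | ‖io y‖ ^ 2 ≤ 4 * DD y} := by
    unfold DD
    exact isClosed_le (by fun_prop) (by fun_prop)
  have hmem : x ∈ closure (H0 U : Set WW) := hx
  refine closure_minimal (s := (H0 U : Set WW)) ?_ hc hmem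
  rintro g ⟨φ, hφ, hg⟩
  show ‖io g‖ ^ 2 ≤ 4 * DD g
  have h1 := poincare hU hφ
  have h2 : ‖io g‖ ^ 2 = ∫ x, φ x ^ 2 := norm_sq_L2 _ hg.1
  have h3 : ‖g 1‖ ^ 2 = ∫ x, dd 0 φ x ^ 2 := norm_sq_L2 _ hg.2.1
  rw [h2]
  unfold DD
  rw [h3]
  nlinarith [sq_nonneg ‖g 2‖]

/-- the case of the unit ball -/
theorem unit_case {U : Set V} (hUo : IsOpen U) (hne : U.Nonempty) (hU : U ⊆ ball 0 1) :
    0 < lam U ∧ ∃ (v : V → ℝ) (G : V → V), H10 U v G ∧ ∫ x, v x ^ 2 = 1 ∧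
      ∫ x, ‖G x‖ ^ 2 = lam U := by
  obtain ⟨φ, ψ, hφ, hψ, hli⟩ := exists_pair hUo hne
  have hφ0 : φ ≠ 0 := by
    intro h
    have := hli.ne_zero 0
    exact this (by simpa using h)
  obtain ⟨y0, hy0⟩ := exists_Gr hφ
  have hsub : ∀ {y : WW} {f : V → ℝ}, Tst U f → Gr f y → y ∈ HH U := fun {y f} hf hy =>
    subset_closure (⟨f, hf, hy⟩ : ∃ φ, Tst U φ ∧ Gr φ y)
  obtain ⟨x1, hx1, hn1, τ, hτ, hle, heq⟩ := exists_top io (HH U) (isClosed_HH U)
    (totallyBounded_HH hU) ⟨y0, hsub hφ hy0, io_ne_zero hφ hy0 hφ0⟩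
  have hτe : ‖io x1‖ ^ 2 = τ := by
    have h := heq x1 hx1
    rw [real_inner_self_eq_norm_sq, real_inner_self_eq_norm_sq, hn1] at h
    linarith
  have hDe : DD x1 = 1 - τ := by
    have h := norm_sq_split x1
    rw [hn1, hτe] at h
    linarith
  -- the quotient
  have hlow : ∀ c ∈ RS U, (1 - τ) / τ ≤ c := by
    rintro c ⟨u, hu, rfl⟩
    obtain ⟨hu1, hu2⟩ := isTest_iff.1 hu
    obtain ⟨y, hy⟩ := exists_Gr hu1
    have h1 := hle y (hsub hu1 hy)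
    have h2 : ‖io y‖ ^ 2 = ∫ x, u x ^ 2 := norm_sq_L2 _ hy.1
    have h3 := DD_Gr hu1 hy
    have h4 : 0 < ‖io y‖ ^ 2 := by
      have := norm_pos_iff.2 (io_ne_zero hu1 hy hu2)
      positivity
    rw [← h2, ← h3, div_le_div_iff₀ hτ h4]
    rw [norm_sq_split] at h1
    nlinarith
  have hup : ∀ ε > 0, lam U ≤ (1 - τ) / τ + ε := by
    intro ε hε
    have hc : ContinuousAt (fun y : WW => DD y / ‖io y‖ ^ 2) x1 := by
      refine ContinuousAt.div ?_ ?_ ?_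
      · unfold DD
        exact (by fun_prop : Continuous fun y : WW => ‖y 1‖ ^ 2 + ‖y 2‖ ^ 2).continuousAt
      · exact (by fun_prop : Continuous fun y : WW => ‖io y‖ ^ 2).continuousAt
      · rw [hτe]; exact hτ.ne'
    have hc2 : ContinuousAt (fun y : WW => ‖io y‖ ^ 2) x1 :=
      (by fun_prop : Continuous fun y : WW => ‖io y‖ ^ 2).continuousAt
    have e1 : ∀ᶠ y in 𝓝 x1, DD y / ‖io y‖ ^ 2 < (1 - τ) / τ + ε := by
      refine hc.eventually (gt_mem_nhds ?_)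
      show DD x1 / ‖io x1‖ ^ 2 < (1 - τ) / τ + ε
      rw [hτe, hDe]
      linarith
    have e2 : ∀ᶠ y in 𝓝 x1, 0 < ‖io y‖ ^ 2 := by
      refine hc2.eventually (lt_mem_nhds ?_)
      show 0 < ‖io x1‖ ^ 2
      rw [hτe]
      exact hτ
    have hmem : x1 ∈ closure (H0 U : Set WW) := hx1
    obtain ⟨g, hg1, φ', hφ', hg⟩ := (mem_closure_iff_nhds.1 hmem) _ (e1.and e2)
    have h2 : ‖io g‖ ^ 2 = ∫ x, φ' x ^ 2 := norm_sq_L2 _ hg.1
    have h3 := DD_Gr hφ' hg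
    have hne' : φ' ≠ 0 := by
      intro h
      rw [h] at h2
      have := hg1.2
      rw [h2] at this
      simp at this
    have h4 : lam U ≤ DD g / ‖io g‖ ^ 2 := by
      rw [lam_def]
      exact csInf_le (RS_bddBelow U) ⟨φ', isTest_iff.2 ⟨hφ', hne'⟩, by rw [h2, h3]⟩
    exact h4.trans hg1.1.le
  have hlam : lam U = (1 - τ) / τ := by
    apply le_antisymm
    · exact le_of_forall_pos_le_add hup
    · rw [lam_def]
      exact le_csInf (RS_nonempty hUo hne) hlow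
  have hpos : 0 < lam U := by
    rw [hlam, ← hDe]
    have h1 := io_le_DD hU hx1
    rw [hτe] at h1
    have : 0 < DD x1 := by linarith
    positivity
  refine ⟨hpos, ?_⟩
  set c : ℝ := (Real.sqrt τ)⁻¹ with hc
  have hcs : c ^ 2 = 1 / τ := by
    rw [hc, inv_pow, Real.sq_sqrt hτ.le, one_div]
  have hcx : c • x1 ∈ HH U := (HH U).smul_mem _ hx1
  refine ⟨_, _, h10_of_mem hcx, ?_, ?_⟩
  · rw [← norm_sq_L2 ((c • x1) 0) (ae_eq_refl _)]
    have : ‖(c • x1) 0‖ ^ 2 = c ^ 2 * ‖io x1‖ ^ 2 := by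
      rw [io_apply, PiLp.smul_apply, norm_smul, mul_pow, Real.norm_eq_abs, sq_abs]
    rw [this, hcs, hτe]
    field_simp
  · rw [int_fld, hlam]
    have : DD (c • x1) = c ^ 2 * DD x1 := by
      unfold DD
      rw [PiLp.smul_apply, PiLp.smul_apply, norm_smul, norm_smul, mul_pow, mul_pow,
        Real.norm_eq_abs, sq_abs]
      ring
    rw [this, hcs, hDe]
    ring


/-! ### Scaling -/

/-- the dilated set -/
def sc (ρ : ℝ) (U : Set V) : Set V := (fun x : V => ρ • x) ⁻¹' U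

theorem isOpen_sc {ρ : ℝ} {U : Set V} (hU : IsOpen U) : IsOpen (sc ρ U) :=
  hU.preimage (continuous_const_smul ρ)

theorem sc_sc {ρ : ℝ} (hρ : ρ ≠ 0) (U : Set V) : sc ρ⁻¹ (sc ρ U) = U := by
  ext x
  simp [sc, smul_smul, mul_inv_cancel₀ hρ]

theorem tst_sc {ρ : ℝ} (hρ : ρ ≠ 0) {U : Set V} {φ : V → ℝ} (hφ : Tst U φ) (a : ℝ) :
    Tst (sc ρ U) (fun x => a * φ (ρ • x)) := by
  have h1 : Tst (sc ρ U) (fun x => φ (ρ • x)) := by
    refine ⟨hφ.1.comp (contDiff_const_smul ρ), ?_, ?_⟩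
    · exact hφ.2.1.comp_homeomorph (Homeomorph.smulOfNeZero ρ hρ)
    · have h := tsupport_comp_subset_preimage φ (continuous_const_smul ρ : Continuous fun x : V => ρ • x)
      exact h.trans (preimage_mono hφ.2.2)
  exact h1.smul a

theorem fin_V : Module.finrank ℝ V = 2 := by simp

theorem int_sc {ρ : ℝ} (hρ : 0 < ρ) (f : V → ℝ) : ∫ x, f (ρ • x) = (ρ ^ 2)⁻¹ * ∫ x, f x := by
  have h := Measure.integral_comp_smul_of_nonneg (volume : Measure V) f ρ (hR := hρ.le)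
  rw [h, fin_V, smul_eq_mul]

theorem fderiv_sc (ρ a : ℝ) (φ : V → ℝ) (x : V) :
    fderiv ℝ (fun x => a * φ (ρ • x)) x = (a * ρ) • fderiv ℝ φ (ρ • x) := by
  have h1 : fderiv ℝ (fun x => a * φ (ρ • x)) x = a • fderiv ℝ (fun x => φ (ρ • x)) x := by
    have := fderiv_const_smul_field (𝕜 := ℝ) (R := ℝ) a (f := fun x : V => φ (ρ • x))
    exact congrFun this x
  rw [h1, fderiv_comp_smul, smul_smul]

theorem gradient_sc (ρ a : ℝ) (φ : V → ℝ) (x : V) :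
    gradient (fun x => a * φ (ρ • x)) x = (a * ρ) • gradient φ (ρ • x) := by
  rw [gradient, gradient, fderiv_sc, map_smul]

theorem memLp_sc {E : Type} [NormedAddCommGroup E] {ρ : ℝ} (hρ : ρ ≠ 0) {f : V → E}
    (hf : MemLp f 2 (volume : Measure V)) :
    MemLp (fun x => f (ρ • x)) 2 (volume : Measure V) := by
  have h1 : MemLp f 2 (Measure.map (fun x : V => ρ • x) (volume : Measure V)) := by
    rw [Measure.map_addHaar_smul _ hρ]
    exact hf.smul_measure ENNReal.ofReal_ne_top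
  exact h1.comp_of_map (measurable_const_smul ρ).aemeasurable

theorem RS_sc {ρ : ℝ} (hρ : 0 < ρ) {U : Set V} {c : ℝ} (hc : c ∈ RS U) :
    ρ ^ 2 * c ∈ RS (sc ρ U) := by
  obtain ⟨u, hu, rfl⟩ := hc
  obtain ⟨hu1, hu2⟩ := isTest_iff.1 hu
  refine ⟨fun x => 1 * u (ρ • x), isTest_iff.2 ⟨tst_sc hρ.ne' hu1 1, ?_⟩, ?_⟩
  · intro h
    apply hu2
    funext x
    have := congrFun h (ρ⁻¹ • x)
    simpa [smul_smul, mul_inv_cancel₀ hρ.ne'] using this
  · have h1 : ∫ x, ‖fderiv ℝ (fun x => 1 * u (ρ • x)) x‖ ^ 2 =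
        (ρ ^ 2)⁻¹ * (ρ ^ 2 * ∫ x, ‖fderiv ℝ u x‖ ^ 2) := by
      have e : ∀ x, ‖fderiv ℝ (fun x => 1 * u (ρ • x)) x‖ ^ 2 =
          ρ ^ 2 * ‖fderiv ℝ u (ρ • x)‖ ^ 2 := by
        intro x
        rw [fderiv_sc, norm_smul, mul_pow, Real.norm_eq_abs, sq_abs, one_mul]
      simp only [e]
      rw [int_sc hρ (fun x => ρ ^ 2 * ‖fderiv ℝ u x‖ ^ 2), integral_const_mul]
    have h2 : ∫ x, (1 * u (ρ • x)) ^ 2 = (ρ ^ 2)⁻¹ * ∫ x, u x ^ 2 := by
      simp only [one_mul]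
      exact int_sc hρ (fun x => u x ^ 2)
    rw [h1, h2]
    have h3 : ρ ^ 2 ≠ 0 := by positivity
    rw [mul_div_mul_left _ _ (inv_ne_zero h3)]
    ring

theorem lam_sc {ρ : ℝ} (hρ : 0 < ρ) {U : Set V} (hU : IsOpen U) (hne : U.Nonempty)
    (hne' : (sc ρ U).Nonempty) : lam (sc ρ U) = ρ ^ 2 * lam U := by
  have h2 : 0 < ρ ^ 2 := by positivity
  apply le_antisymm
  · have h1 : (ρ ^ 2)⁻¹ * lam (sc ρ U) ≤ lam U := by
      rw [lam_def U]
      refine le_csInf (RS_nonempty hU hne) fun c hc => ?_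
      rw [inv_mul_le_iff₀ h2, lam_def]
      exact csInf_le (RS_bddBelow _) (RS_sc hρ hc)
    rwa [inv_mul_le_iff₀ h2] at h1
  · rw [lam_def (sc ρ U)]
    refine le_csInf (RS_nonempty (isOpen_sc hU) hne') fun c hc => ?_
    have h1 := RS_sc (inv_pos.2 hρ) hc
    rw [sc_sc hρ.ne'] at h1
    have h3 : lam U ≤ ρ⁻¹ ^ 2 * c := by
      rw [lam_def]
      exact csInf_le (RS_bddBelow _) h1
    rw [inv_pow] at h3
    calc ρ ^ 2 * lam U ≤ ρ ^ 2 * ((ρ ^ 2)⁻¹ * c) := by gcongr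
      _ = c := by rw [← mul_assoc, mul_inv_cancel₀ h2.ne', one_mul]

theorem h10_sc {ρ : ℝ} (hρ : 0 < ρ) {U : Set V} {v : V → ℝ} {G : V → V} (h : H10 U v G) (a : ℝ)
    (ha : 0 < a) :
    H10 (sc ρ U) (fun x => a * v (ρ • x)) (fun x => (a * ρ) • G (ρ • x)) := by
  refine ⟨(memLp_sc hρ.ne' h.memu).const_mul a, (memLp_sc hρ.ne' h.memG).const_smul (a * ρ),
    fun ε hε => ?_⟩
  have h2 : 0 < ρ ^ 2 := by positivity
  set ε' : ℝ := min (ε * (ρ ^ 2 / a ^ 2)) (ε / a ^ 2) with hε'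
  have hε'p : 0 < ε' := by
    rw [hε']
    refine lt_min (by positivity) (by positivity)
  obtain ⟨φ, hφ, h3, h4⟩ := h.approx ε' hε'p
  refine ⟨fun x => a * φ (ρ • x), tst_sc hρ.ne' hφ a, ?_, ?_⟩
  · have e : ∀ x : V, (a * v (ρ • x) - a * φ (ρ • x)) ^ 2 =
        a ^ 2 * (v (ρ • x) - φ (ρ • x)) ^ 2 := fun x => by ring
    simp only [e]
    rw [int_sc hρ (fun x => a ^ 2 * (v x - φ x) ^ 2), integral_const_mul]
    have h5 : ∫ x, (v x - φ x) ^ 2 < ε * (ρ ^ 2 / a ^ 2) := h3.trans_le (min_le_left _ _)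
    calc (ρ ^ 2)⁻¹ * (a ^ 2 * ∫ x, (v x - φ x) ^ 2)
        < (ρ ^ 2)⁻¹ * (a ^ 2 * (ε * (ρ ^ 2 / a ^ 2))) := by gcongr
      _ = ε := by field_simp
  · have e : ∀ x : V, ‖(a * ρ) • G (ρ • x) - gradient (fun x => a * φ (ρ • x)) x‖ ^ 2 =
        (a * ρ) ^ 2 * ‖G (ρ • x) - gradient φ (ρ • x)‖ ^ 2 := by
      intro x
      rw [gradient_sc, ← smul_sub, norm_smul, mul_pow, Real.norm_eq_abs, sq_abs]
    simp only [e]
    rw [int_sc hρ (fun x => (a * ρ) ^ 2 * ‖G x - gradient φ x‖ ^ 2), integral_const_mul]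
    have h5 : ∫ x, ‖G x - gradient φ x‖ ^ 2 < ε / a ^ 2 := h4.trans_le (min_le_right _ _)
    calc (ρ ^ 2)⁻¹ * ((a * ρ) ^ 2 * ∫ x, ‖G x - gradient φ x‖ ^ 2)
        < (ρ ^ 2)⁻¹ * ((a * ρ) ^ 2 * (ε / a ^ 2)) := by gcongr
      _ = ε := by field_simp

end EIGA

open EIGA in
theorem t_EIGA : S_EIGA := by
  intro U hU hne hb
  obtain ⟨ρ, hρ, hUρ⟩ : ∃ ρ : ℝ, 0 < ρ ∧ U ⊆ ball 0 ρ := by
    obtain ⟨r, hr⟩ := hb.subset_ball 0
    exact ⟨max r 1, by positivity, hr.trans (ball_subset_ball (le_max_left _ _))⟩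
  set U' : Set V := sc ρ U with hU'
  have hne' : U'.Nonempty := by
    obtain ⟨x, hx⟩ := hne
    refine ⟨ρ⁻¹ • x, ?_⟩
    show ρ • ρ⁻¹ • x ∈ U
    rwa [smul_smul, mul_inv_cancel₀ hρ.ne', one_smul]
  have hsub : U' ⊆ ball 0 1 := by
    intro x hx
    have h1 : ‖ρ • x‖ < ρ := by simpa using hUρ hx
    rw [norm_smul, Real.norm_eq_abs, abs_of_pos hρ] at h1
    have h2 : ‖x‖ < 1 := by
      by_contra hcon
      push Not at hcon
      nlinarith
    simpa using h2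
  obtain ⟨hpos, v, G, hH, hv, hG⟩ := unit_case (isOpen_sc hU) hne' hsub
  have hl : lam U' = ρ ^ 2 * lam U := lam_sc hρ hU hne hne'
  have h2 : 0 < ρ ^ 2 := by positivity
  have hi : 0 < ρ⁻¹ := inv_pos.2 hρ
  refine ⟨?_, ?_⟩
  · rw [hl] at hpos
    exact (pos_iff_pos_of_mul_pos hpos).1 h2
  · have hH2 := h10_sc hi hH ρ⁻¹ hi
    rw [sc_sc hρ.ne'] at hH2
    refine ⟨_, _, hH2, ?_, ?_⟩
    · have e : ∀ x : V, (ρ⁻¹ * v (ρ⁻¹ • x)) ^ 2 = (ρ ^ 2)⁻¹ * v (ρ⁻¹ • x) ^ 2 := fun x => by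
        rw [mul_pow, inv_pow]
      simp only [e]
      rw [int_sc hi (fun x => (ρ ^ 2)⁻¹ * v x ^ 2), integral_const_mul, hv]
      field_simp
    · have e : ∀ x : V, ‖(ρ⁻¹ * ρ⁻¹) • G (ρ⁻¹ • x)‖ ^ 2 =
          ((ρ ^ 2)⁻¹ * (ρ ^ 2)⁻¹) * ‖G (ρ⁻¹ • x)‖ ^ 2 := fun x => by
        rw [norm_smul, mul_pow, Real.norm_eq_abs, sq_abs]
        congr 1
        field_simp
      simp only [e]
      rw [int_sc hi (fun x => ((ρ ^ 2)⁻¹ * (ρ ^ 2)⁻¹) * ‖G x‖ ^ 2), integral_const_mul, hG, hl]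
      field_simp

end Pool.Agent.H417R2.CH
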