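import Pool.Agent.H417R2.CH.Defs2

/-!
EIGB: minimisers of the Rayleigh quotient solve the weak equation.
-/

set_option autoImplicit false
open MeasureTheory Metric Set Filter Topology
open scoped ContDiff InnerProductSpace ENNReal NNReal

namespace Pool.Agent.H417R2.CH

open Pool.Agent.Helper546 (Tst lap)

namespace EIGB

lemma quad {b c : ℝ} (h : ∀ s : ℝ, 0 ≤ 2 * s * b + s ^ 2 * c) : b = 0 := by
  have hc : 0 < |c| + 1 := by positivity
  have h1 := h (-b / (|c| + 1))
  have h2 : 2 * (-b / (|c| + 1)) * b + (-b / (|c| + 1)) ^ 2 * c =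
      (b ^ 2 * (c - 2 * (|c| + 1))) / (|c| + 1) ^ 2 := by
    field_simp
    ring
  rw [h2] at h1
  have h3 : 0 ≤ b ^ 2 * (c - 2 * (|c| + 1)) := by
    by_contra h4
    push Not at h4
    have := div_neg_of_neg_of_pos h4 (by positivity : (0 : ℝ) < (|c| + 1) ^ 2)
    linarith
  have h5 : c - 2 * (|c| + 1) < 0 := by
    have := le_abs_self c
    have := abs_nonneg c
    linarith
  have h6 : b ^ 2 ≤ 0 := by
    nlinarith [sq_nonneg b]
  nlinarith [sq_nonneg b]

lemma sq_int {f : V → ℝ} (hf : MemLp f 2 (volume : Measure V)) :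
    Integrable (fun x => f x ^ 2) := hf.integrable_sq

lemma nsq_int {f : V → V} (hf : MemLp f 2 (volume : Measure V)) :
    Integrable (fun x => ‖f x‖ ^ 2) := hf.norm.integrable_sq

lemma mul_int {f g : V → ℝ} (hf : MemLp f 2 (volume : Measure V))
    (hg : MemLp g 2 (volume : Measure V)) : Integrable (fun x => f x * g x) := by
  refine Integrable.mono' ((sq_int hf).add (sq_int hg)) (hf.1.mul hg.1) ?_
  refine Filter.Eventually.of_forall fun x => ?_
  rw [Real.norm_eq_abs, abs_mul]
  simp only [Pi.add_apply]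
  nlinarith [sq_nonneg (|f x| - |g x|), sq_abs (f x), sq_abs (g x), sq_nonneg (|f x|),
    sq_nonneg (|g x|), abs_nonneg (f x), abs_nonneg (g x)]

lemma inner_int {f g : V → V} (hf : MemLp f 2 (volume : Measure V))
    (hg : MemLp g 2 (volume : Measure V)) : Integrable (fun x => ⟪f x, g x⟫_ℝ) := by
  refine Integrable.mono' ((nsq_int hf).add (nsq_int hg)) (hf.1.inner hg.1) ?_
  refine Filter.Eventually.of_forall fun x => ?_
  have h := abs_real_inner_le_norm (f x) (g x)
  rw [Real.norm_eq_abs]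
  simp only [Pi.add_apply]
  nlinarith [sq_nonneg (‖f x‖ - ‖g x‖), norm_nonneg (f x), norm_nonneg (g x)]

end EIGB

open EIGB in
theorem t_EIGB (h1 : S_HADD) (h2 : S_HLAM) : S_EIGB := by
  intro U hU hne v G hv hE w K hw
  obtain ⟨_, hR⟩ := h2 U hU hne
  have key : ∀ s : ℝ, 0 ≤ 2 * s * ((∫ x, ⟪G x, K x⟫_ℝ) - lam U * ∫ x, v x * w x) +
      s ^ 2 * ((∫ x, ‖K x‖ ^ 2) - lam U * ∫ x, w x ^ 2) := by
    intro s
    have h3 := hR _ _ (h1.1 U v w G K 1 s hv hw)
    have e1 : ∫ x, (1 * v x + s * w x) ^ 2 =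
        (∫ x, v x ^ 2) + 2 * s * (∫ x, v x * w x) + s ^ 2 * ∫ x, w x ^ 2 := by
      have e : (fun x => (1 * v x + s * w x) ^ 2) =
          fun x => (v x ^ 2 + 2 * s * (v x * w x)) + s ^ 2 * w x ^ 2 := by
        funext x
        ring
      rw [e, integral_add, integral_add, integral_const_mul, integral_const_mul]
      · exact sq_int hv.memu
      · exact (mul_int hv.memu hw.memu).const_mul _
      · exact (sq_int hv.memu).add ((mul_int hv.memu hw.memu).const_mul _)
      · exact (sq_int hw.memu).const_mul _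
    have e2 : ∫ x, ‖(1 : ℝ) • G x + s • K x‖ ^ 2 =
        (∫ x, ‖G x‖ ^ 2) + 2 * s * (∫ x, ⟪G x, K x⟫_ℝ) + s ^ 2 * ∫ x, ‖K x‖ ^ 2 := by
      have e : (fun x => ‖(1 : ℝ) • G x + s • K x‖ ^ 2) =
          fun x => (‖G x‖ ^ 2 + 2 * s * ⟪G x, K x⟫_ℝ) + s ^ 2 * ‖K x‖ ^ 2 := by
        funext x
        rw [one_smul, norm_add_sq_real, real_inner_smul_right, norm_smul, mul_pow,
          Real.norm_eq_abs, sq_abs]
        ring
      rw [e, integral_add, integral_add, integral_const_mul, integral_const_mul]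
      · exact nsq_int hv.memG
      · exact (inner_int hv.memG hw.memG).const_mul _
      · exact (nsq_int hv.memG).add ((inner_int hv.memG hw.memG).const_mul _)
      · exact (nsq_int hw.memG).const_mul _
    rw [e1, e2, hE] at h3
    linarith
  have := quad key
  linarith

end Pool.Agent.H417R2.CH
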