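import Pool.Agent.H417R2.CH.Defs2
import Pool.Agent.Helper546.Boundary

/-! EIGF: continuity up to the boundary (helper903). -/

set_option autoImplicit false
open MeasureTheory Metric Set Filter Topology
open scoped ContDiff InnerProductSpace ENNReal NNReal

namespace Pool.Agent.H417R2.CH

namespace EIGF

open Pool.Agent.Helper546 (Circ Approx Tst)

theorem circ (U : Set V) (hU : PC U) : Circ U := by
  intro p hp r hr
  obtain ⟨f, hf⟩ := geometric_hahn_banach_open_point hU.convex hU.isOpen hp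
  obtain ⟨a, ha⟩ := hU.ne
  have h1 : 0 < f (p - a) := by
    rw [map_sub]
    linarith [hf a ha]
  have h2 : p - a ≠ 0 := by
    intro h
    rw [h, map_zero] at h1
    exact lt_irrefl _ h1
  have h3 : 0 < ‖p - a‖ := norm_pos_iff.2 h2
  refine ⟨p + (r / ‖p - a‖) • (p - a), fun hq => ?_, ?_⟩
  · have h4 := hf _ hq
    rw [map_add, map_smul, smul_eq_mul] at h4
    have h5 : 0 < r / ‖p - a‖ * f (p - a) := by positivity
    linarith
  · rw [dist_eq_norm, add_sub_cancel_left, norm_smul, Real.norm_eq_abs,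
      abs_of_pos (by positivity), div_mul_cancel₀ _ h3.ne']

theorem norm_grad_sub (f g : V → ℝ) (x : V) :
    ‖fderiv ℝ f x - fderiv ℝ g x‖ = ‖gradient g x - gradient f x‖ := by
  rw [gradient, gradient, ← map_sub, LinearIsometryEquiv.norm_map, norm_sub_rev]

theorem memLp_grad {φ : V → ℝ} {U : Set V} (h : Tst U φ) :
    MemLp (gradient φ) 2 (volume : Measure V) := by
  have h1 : Continuous (gradient φ) := by
    have h2 : Continuous (fderiv ℝ φ) := h.1.continuous_fderiv (by simp)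
    exact (InnerProductSpace.toDual ℝ V).symm.continuous.comp h2
  have h3 : HasCompactSupport (gradient φ) := by
    have h4 : HasCompactSupport (fderiv ℝ φ) := h.2.1.fderiv ℝ
    exact h4.comp_left (g := fun L => (InnerProductSpace.toDual ℝ V).symm L) (map_zero _)
  exact h1.memLp_of_hasCompactSupport h3

theorem approx (U : Set V) (hU : IsOpen U) (w : V → ℝ) (h : H10 U (U.indicator w) (gd U w)) :
    Approx U w := by
  have h1 : ∀ n : ℕ, ∃ φ : V → ℝ, Tst U φ ∧ ∫ x, (U.indicator w x - φ x) ^ 2 < 1 / ((n : ℝ) + 1) ∧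
      ∫ x, ‖gd U w x - gradient φ x‖ ^ 2 < 1 / ((n : ℝ) + 1) := fun n => h.approx _ (by positivity)
  choose φ hφ1 hφ2 hφ3 using h1
  have hI1 : ∀ n, Integrable (fun x => (U.indicator w x - φ n x) ^ 2) := fun n =>
    (h.memu.sub ((hφ1 n).1.continuous.memLp_of_hasCompactSupport (hφ1 n).2.1)).integrable_sq
  have hI2 : ∀ n, Integrable (fun x => ‖gd U w x - gradient (φ n) x‖ ^ 2) := fun n =>
    (h.memG.sub (memLp_grad (hφ1 n))).norm.integrable_sq
  have heq : ∀ n, ∀ x ∈ U, (φ n x - w x) ^ 2 + ‖fderiv ℝ (φ n) x - fderiv ℝ w x‖ ^ 2 =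
      (U.indicator w x - φ n x) ^ 2 + ‖gd U w x - gradient (φ n) x‖ ^ 2 := by
    intro n x hx
    rw [norm_grad_sub, gd, indicator_of_mem hx, indicator_of_mem hx]
    ring
  have hI3 : ∀ n, IntegrableOn
      (fun x => (φ n x - w x) ^ 2 + ‖fderiv ℝ (φ n) x - fderiv ℝ w x‖ ^ 2) U := fun n =>
    ((hI1 n).add (hI2 n)).integrableOn.congr_fun (fun x hx => (heq n x hx).symm)
      hU.measurableSet
  refine ⟨φ, fun n => ⟨(hφ1 n).1, (hφ1 n).2.1, (hφ1 n).2.2, hI3 n⟩, ?_⟩
  have hle : ∀ n : ℕ, ∫ x in U, ((φ n x - w x) ^ 2 + ‖fderiv ℝ (φ n) x - fderiv ℝ w x‖ ^ 2) ≤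
      2 * (1 / ((n : ℝ) + 1)) := by
    intro n
    rw [setIntegral_congr_fun hU.measurableSet (heq n)]
    calc ∫ x in U, ((U.indicator w x - φ n x) ^ 2 + ‖gd U w x - gradient (φ n) x‖ ^ 2)
        ≤ ∫ x, ((U.indicator w x - φ n x) ^ 2 + ‖gd U w x - gradient (φ n) x‖ ^ 2) :=
          setIntegral_le_integral ((hI1 n).add (hI2 n))
            (Eventually.of_forall fun x => by positivity)
      _ = (∫ x, (U.indicator w x - φ n x) ^ 2) + ∫ x, ‖gd U w x - gradient (φ n) x‖ ^ 2 :=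
          integral_add (hI1 n) (hI2 n)
      _ ≤ 2 * (1 / ((n : ℝ) + 1)) := by linarith [hφ2 n, hφ3 n]
  have hlim : Tendsto (fun n : ℕ => 2 * (1 / ((n : ℝ) + 1))) atTop (𝓝 0) := by
    have := (tendsto_one_div_add_atTop_nhds_zero_nat (𝕜 := ℝ)).const_mul 2
    rwa [mul_zero] at this
  refine squeeze_zero (fun n => ?_) hle hlim
  exact integral_nonneg fun x => by positivity

end EIGF

open EIGF in
theorem t_EIGF : S_EIGF := by
  intro U hU w hw hH hI
  obtain ⟨C, t₀, ht₀, hI⟩ := hI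
  have hne : Uᶜ.Nonempty := by
    by_contra h
    rw [not_nonempty_iff_eq_empty, compl_empty_iff] at h
    have h1 := hU.bdd
    rw [h] at h1
    exact NormedSpace.unbounded_univ ℝ V h1
  exact Pool.Agent.Helper546.boundary_zero hU.isOpen hne (circ U hU) hw
    (approx U hU.isOpen w hH) ht₀ hI

end Pool.Agent.H417R2.CH
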