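import Pool.Agent.H417R2.CH.Defs2

set_option autoImplicit false
open MeasureTheory Metric Set Filter Topology

namespace Pool.Agent.H417R2.CH

theorem t_END (h1 : S_GOOD) (h2 : S_FRM) (h3 : S_MAIN) : S_END := by
  intro U hU
  obtain ⟨r, hr⟩ := h1 U hU
  have hpc := hr.pc
  have hcc : IsCompact (closure U) := hpc.bdd.isCompact_closure
  have hcv : Convex ℝ (closure U) := hpc.convex.closure
  have hfin : (extremePoints ℝ (closure U)).Finite := by
    by_contra hinf
    obtain ⟨U', α, β, l, g, R, k, X₀, hF⟩ := h2 U r hr hinf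
    exact h3 U' r α β l g R k X₀ hF
  refine ⟨extremePoints ℝ (closure U), hfin, ?_⟩
  have e1 := closure_convexHull_extremePoints hcc hcv
  have e2 : IsClosed (convexHull ℝ (extremePoints ℝ (closure U))) :=
    hfin.isClosed_convexHull ℝ
  rw [e2.closure_eq] at e1
  rw [e1]
  have hne : (interior U).Nonempty := by rw [hpc.isOpen.interior_eq]; exact hpc.ne
  rw [hpc.convex.interior_closure_eq_interior_of_nonempty_interior hne, hpc.isOpen.interior_eq]

end Pool.Agent.H417R2.CH
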