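import Pool.Agent.H417R2.CH.CAC

/-!
EST: weighted energy near a boundary point.
-/

set_option autoImplicit false
open MeasureTheory Metric Set Filter Topology
open scoped ContDiff InnerProductSpace ENNReal NNReal

namespace Pool.Agent.H417R2.CH

namespace EST

theorem inv_diff {w s t : ℝ} (hw : 0 < w) (hs : 0 ≤ s) (ht : 0 ≤ t) :
    |1 / (w + s) - 1 / (w + t)| = |s - t| / ((w + s) * (w + t)) := by
  have h1 : 0 < w + s := by linarith
  have h2 : 0 < w + t := by linarith
  have h3 : 1 / (w + s) - 1 / (w + t) = (t - s) / ((w + s) * (w + t)) := by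
    field_simp
    ring
  rw [h3, abs_div, abs_of_pos (mul_pos h1 h2), abs_sub_comm]

theorem min_lip (P x y : V) (R : ℝ) : |min (dist x P) R - min (dist y P) R| ≤ dist x y := by
  refine (abs_min_sub_min_le_max _ _ _ _).trans ?_
  rw [sub_self, abs_zero]
  exact max_le (abs_dist_sub_le x y P) dist_nonneg

/-- cut off weight -/
noncomputable def eta (w R : ℝ) (P p : V) : ℝ := 1 / (w + min (dist p P) R) - 1 / (w + R)

variable {w R : ℝ} {P : V}

theorem min_nonneg' (hR : 0 ≤ R) (p : V) : 0 ≤ min (dist p P) R := le_min dist_nonneg hR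

theorem eta_nonneg (hw : 0 < w) (hR : 0 ≤ R) (p : V) : 0 ≤ eta w R P p := by
  unfold eta
  have h1 := min_nonneg' (P := P) hR p
  have h2 : 1 / (w + R) ≤ 1 / (w + min (dist p P) R) := by
    apply one_div_le_one_div_of_le (by linarith)
    linarith [min_le_right (dist p P) R]
  linarith

theorem eta_le (hw : 0 < w) (hR : 0 ≤ R) (p : V) (h : dist p P ≤ R) :
    eta w R P p ≤ 1 / (w + dist p P) := by
  unfold eta
  rw [min_eq_left h]
  have : 0 ≤ 1 / (w + R) := by positivity
  linarith

theorem eta_zero (p : V) (h : R ≤ dist p P) : eta w R P p = 0 := by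
  unfold eta
  rw [min_eq_right h, sub_self]

theorem eta_lower (hw : 0 < w) (hR : 0 ≤ R) (p : V) (h : 2 * dist p P ≤ R) :
    R / (2 * (w + R)) * (1 / (w + dist p P)) ≤ eta w R P p := by
  have hd : 0 ≤ dist p P := dist_nonneg
  unfold eta
  rw [min_eq_left (by linarith)]
  have h1 : 0 < w + dist p P := by linarith
  have h2 : 0 < w + R := by linarith
  have h3 : 1 / (w + dist p P) - 1 / (w + R) =
      ((R - dist p P) / (w + R)) * (1 / (w + dist p P)) := by
    field_simp
    ring
  rw [h3]
  apply mul_le_mul_of_nonneg_right _ (by positivity)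
  rw [div_le_div_iff₀ (by positivity) h2]
  nlinarith

theorem eta_lip (hw : 0 < w) (hR : 0 ≤ R) : LipschitzWith (Real.toNNReal (1 / w ^ 2)) (eta w R P) := by
  apply LipschitzWith.of_dist_le_mul
  intro x y
  have hx := min_nonneg' (P := P) hR x
  have hy := min_nonneg' (P := P) hR y
  rw [Real.coe_toNNReal _ (by positivity), Real.dist_eq]
  have h1 : eta w R P x - eta w R P y =
      1 / (w + min (dist x P) R) - 1 / (w + min (dist y P) R) := by
    unfold eta
    ring
  rw [h1, inv_diff hw hx hy]
  have h2 := min_lip P x y R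
  have h3 : w ^ 2 ≤ (w + min (dist x P) R) * (w + min (dist y P) R) := by nlinarith
  calc |min (dist x P) R - min (dist y P) R| / ((w + min (dist x P) R) * (w + min (dist y P) R))
      ≤ dist x y / w ^ 2 := by
        apply div_le_div₀ dist_nonneg h2 (by positivity) h3
    _ = 1 / w ^ 2 * dist x y := by ring

/-- bound for the gradient of the weight -/
noncomputable def NN (w R : ℝ) (P : V) : V → ℝ :=
  (closedBall P R).indicator fun p => 2 / (w + dist p P) ^ 2

theorem NN_meas : Measurable (NN w R P) := by
  unfold NN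
  apply Measurable.indicator _ measurableSet_closedBall
  have h1 : Measurable fun p : V => dist p P := measurable_id.dist measurable_const
  exact measurable_const.div ((measurable_const.add h1).pow_const 2)

theorem NN_nonneg (p : V) : 0 ≤ NN w R P p := by
  unfold NN
  apply indicator_nonneg
  intro p _
  positivity

theorem NN_le (hw : 0 < w) (p : V) : NN w R P p ≤ 2 / w ^ 2 := by
  unfold NN
  by_cases h : p ∈ closedBall P R
  · rw [indicator_of_mem h]
    have hd : 0 ≤ dist p P := dist_nonneg
    apply div_le_div_of_nonneg_left (by norm_num) (by positivity)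
    nlinarith
  · rw [indicator_of_notMem h]
    positivity

theorem eta_fderiv (hw : 0 < w) (hR : 0 ≤ R) (x : V) : ‖fderiv ℝ (eta w R P) x‖ ≤ NN w R P x := by
  by_cases h : x ∈ closedBall P R
  · unfold NN
    rw [indicator_of_mem h]
    have hd : 0 ≤ dist x P := dist_nonneg
    apply norm_fderiv_le_of_lip' ℝ (by positivity)
    have h1 : ∀ᶠ y in 𝓝 x, dist y x < w / 2 := by
      exact eventually_of_mem (ball_mem_nhds x (half_pos hw)) fun y hy => hy
    filter_upwards [h1] with y hy
    have hxm : min (dist x P) R = dist x P := min_eq_left (mem_closedBall.1 h)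
    have hym := min_nonneg' (P := P) hR y
    have h2 : eta w R P y - eta w R P x =
        1 / (w + min (dist y P) R) - 1 / (w + dist x P) := by
      unfold eta
      rw [hxm]
      ring
    rw [Real.norm_eq_abs, h2, inv_diff hw hym hd, ← dist_eq_norm]
    have h3 := min_lip P y x R
    rw [hxm] at h3
    have h4 : (w + dist x P) / 2 ≤ w + min (dist y P) R := by
      have := (abs_le.1 (h3.trans hy.le)).1
      linarith
    have h5 : (w + dist x P) ^ 2 / 2 ≤ (w + min (dist y P) R) * (w + dist x P) := by nlinarith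
    calc |min (dist y P) R - dist x P| / ((w + min (dist y P) R) * (w + dist x P))
        ≤ dist y x / ((w + dist x P) ^ 2 / 2) :=
          div_le_div₀ dist_nonneg h3 (by positivity) h5
      _ = 2 / (w + dist x P) ^ 2 * dist y x := by
          field_simp
  · unfold NN
    rw [indicator_of_notMem h]
    have h1 : eta w R P =ᶠ[𝓝 x] fun _ => 0 := by
      have h2 : (closedBall P R)ᶜ ∈ 𝓝 x := isClosed_closedBall.isOpen_compl.mem_nhds h
      filter_upwards [h2] with y hy
      apply eta_zero
      exact (not_le.1 fun h3 => hy (mem_closedBall.2 h3)).le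
    rw [h1.fderiv_eq]
    simp

/-- radial integral -/
theorem radial (hw : 0 < w) (hR : 0 ≤ R) :
    ∫ p in closedBall P R, (1 / (w + dist p P)) ^ 2 ≤
      2 * (volume : Measure V).real (ball 0 1) * Real.log ((w + R) / w) := by
  obtain ⟨f, hf⟩ : ∃ f : ℝ → ℝ, f = fun y => (Iic R).indicator (fun y => (1 / (w + y)) ^ 2) y :=
    ⟨_, rfl⟩
  have e1 : ∫ p in closedBall P R, (1 / (w + dist p P)) ^ 2 = ∫ p : V, f ‖p - P‖ := by
    rw [← integral_indicator measurableSet_closedBall]
    congr 1
    funext p
    rw [hf]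
    by_cases h : p ∈ closedBall P R
    · have h' : ‖p - P‖ ∈ Iic R := by
        rw [← dist_eq_norm]
        exact mem_closedBall.1 h
      rw [indicator_of_mem h]
      simp only
      rw [indicator_of_mem h', dist_eq_norm]
    · have h' : ‖p - P‖ ∉ Iic R := by
        rw [← dist_eq_norm]
        exact fun h2 => h (mem_closedBall.2 h2)
      rw [indicator_of_notMem h]
      simp only
      rw [indicator_of_notMem h']
  have e2 : ∫ p : V, f ‖p - P‖ = ∫ p : V, f ‖p‖ :=
    integral_sub_right_eq_self (fun p : V => f ‖p‖) P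
  have e3 := integral_fun_norm_addHaar (volume : Measure V) f
  rw [finrank_euclideanSpace_fin] at e3
  have e4 : ∫ y in Ioi (0 : ℝ), y ^ (2 - 1) • f y = ∫ y in (0:ℝ)..R, y * (1 / (w + y)) ^ 2 := by
    rw [intervalIntegral.integral_of_le hR]
    have h1 : ∀ y : ℝ, y ^ (2 - 1) • f y =
        (Iic R).indicator (fun y => y * (1 / (w + y)) ^ 2) y := by
      intro y
      rw [hf]
      by_cases h : y ∈ Iic R
      · simp only [indicator_of_mem h, smul_eq_mul]
        norm_num
      · simp only [indicator_of_notMem h, smul_zero]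
    simp only [h1]
    rw [setIntegral_indicator measurableSet_Iic]
    rfl
  have hc : ∀ y ∈ uIcc 0 R, w + y ≠ 0 := by
    intro y hy
    rw [uIcc_of_le hR] at hy
    linarith [hy.1]
  have e5 : ∫ y in (0:ℝ)..R, y * (1 / (w + y)) ^ 2 ≤ ∫ y in (0:ℝ)..R, (w + y)⁻¹ := by
    apply intervalIntegral.integral_mono_on hR
    · apply ContinuousOn.intervalIntegrable
      apply ContinuousOn.mul continuousOn_id
      apply ContinuousOn.pow
      apply ContinuousOn.div continuousOn_const (by fun_prop) hc
    · apply ContinuousOn.intervalIntegrable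
      apply ContinuousOn.inv₀ (by fun_prop) hc
    · intro y hy
      have h1 : 0 < w + y := by linarith [hy.1]
      have h2 : y * (1 / (w + y)) ^ 2 = (y / (w + y)) * (w + y)⁻¹ := by
        field_simp
      rw [h2]
      have h3 : y / (w + y) ≤ 1 := by
        rw [div_le_one h1]
        linarith
      calc (y / (w + y)) * (w + y)⁻¹ ≤ 1 * (w + y)⁻¹ :=
            mul_le_mul_of_nonneg_right h3 (inv_nonneg.2 h1.le)
        _ = _ := one_mul _
  have e6 : ∫ y in (0:ℝ)..R, (w + y)⁻¹ = Real.log ((w + R) / w) := by
    rw [intervalIntegral.integral_comp_add_left (fun y => y⁻¹) w, add_zero,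
      integral_inv_of_pos hw (by linarith)]
  rw [e1, e2, e3, e4, nsmul_eq_mul, smul_eq_mul]
  push_cast
  rw [mul_assoc]
  apply mul_le_mul_of_nonneg_left _ (by norm_num)
  apply mul_le_mul_of_nonneg_left _ measureReal_nonneg
  rw [← e6]
  exact e5

theorem vol_le {R R' : ℝ} (h : R ≤ R') (P : V) :
    (volume : Measure V).real (closedBall P R) ≤ (volume : Measure V).real (closedBall 0 R') := by
  have h1 : (volume : Measure V).real (closedBall P R') =
      (volume : Measure V).real (closedBall 0 R') := by
    unfold Measure.real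
    rw [Measure.addHaar_closedBall_center]
  rw [← h1]
  exact measureReal_mono (closedBall_subset_closedBall h) measure_closedBall_lt_top.ne

end EST

open Pool.Agent.H417R2.CH.EST in
theorem t_EST (h1 : S_CAC2) (h2 : S_UP) : S_EST := by
  intro U u hU hu C₁ hC₁
  obtain ⟨C, hC, hUP⟩ := h2 U u hU hu
  have hu0 : ∀ p, 0 ≤ u p := fun p => by
    by_cases h : p ∈ U
    · exact (hu.pos p h).le
    · exact (hu.zero p h).ge
  obtain ⟨κ, hκ⟩ : ∃ κ, κ = 2 * (volume : Measure V).real (ball 0 1) := ⟨_, rfl⟩
  obtain ⟨A, hA⟩ : ∃ A, A = (volume : Measure V).real (closedBall 0 (2 * C₁)) := ⟨_, rfl⟩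
  have hκ0 : 0 ≤ κ := by
    rw [hκ]
    exact mul_nonneg (by norm_num) measureReal_nonneg
  have hA0 : 0 ≤ A := by rw [hA]; exact measureReal_nonneg
  have hlam : 0 ≤ lam U := hu.lampos.le
  obtain ⟨L, hL⟩ : ∃ L, L = Real.log (1 + 2 * C₁) := ⟨_, rfl⟩
  have hL0 : 0 ≤ L := by rw [hL]; exact Real.log_nonneg (by linarith)
  obtain ⟨K₂, hK₂⟩ : ∃ K₂, K₂ = (1 + 2 * C₁) / C₁ := ⟨_, rfl⟩
  have hK₂0 : 0 < K₂ := by rw [hK₂]; positivity
  refine ⟨K₂ ^ 2 * (2 * lam U * (C ^ 2 * A) + 16 * C ^ 2 * κ * (1 + L)) + C ^ 2 * C₁ * A + 1,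
    by positivity, ?_⟩
  intro P hP w₁ w₂ hw₁ hw₁₂ hw₂
  have hw₂0 : 0 < w₂ := lt_of_lt_of_le hw₁ hw₁₂
  obtain ⟨R, hR⟩ : ∃ R, R = 2 * C₁ * w₂ := ⟨_, rfl⟩
  have hR0 : 0 < R := by rw [hR]; positivity
  have hR1 : R ≤ 2 * C₁ := by
    rw [hR]
    nlinarith
  have huP : ∀ p, u p ≤ C * dist p P := hUP P hP
  have huP2 : ∀ p, u p ^ 2 ≤ C ^ 2 * dist p P ^ 2 := fun p => by
    rw [← mul_pow]
    exact pow_le_pow_left₀ (hu0 p) (huP p) 2
  have hlog : 0 ≤ Real.log (w₂ / w₁) := Real.log_nonneg (by rw [le_div_iff₀ hw₁]; linarith)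
  -- the inequality of Caccioppoli
  have hcac := h1 U u hU hu (eta w₁ R P) (NN w₁ R P) _ (1 / w₁ + 2 / w₁ ^ 2)
    (eta_lip hw₁ hR0.le) NN_meas (eta_fderiv hw₁ hR0.le) (fun x => by
      rw [abs_of_nonneg (eta_nonneg hw₁ hR0.le x)]
      have h3 : eta w₁ R P x ≤ 1 / w₁ := by
        by_cases h : dist x P ≤ R
        · refine (eta_le hw₁ hR0.le x h).trans ?_
          apply one_div_le_one_div_of_le hw₁
          linarith [dist_nonneg (x := x) (y := P)]
        · rw [eta_zero x (not_le.1 h).le]
          positivity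
      have h4 : 0 ≤ 2 / w₁ ^ 2 := by positivity
      linarith) (fun x => by
      have h3 := NN_le (R := R) (P := P) hw₁ x
      have h4 : 0 ≤ 1 / w₁ := by positivity
      linarith)
  -- first term
  have hT1 : ∫ x, u x ^ 2 * eta w₁ R P x ^ 2 ≤ C ^ 2 * A := by
    have e1 : ∫ x, u x ^ 2 * eta w₁ R P x ^ 2 =
        ∫ x in closedBall P R, u x ^ 2 * eta w₁ R P x ^ 2 := by
      symm
      apply setIntegral_eq_integral_of_forall_compl_eq_zero
      intro x hx
      rw [eta_zero x (not_le.1 fun h3 => hx (mem_closedBall.2 h3)).le]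
      ring
    rw [e1]
    refine (le_abs_self _).trans ?_
    have h3 := norm_setIntegral_le_of_norm_le_const (μ := (volume : Measure V))
      (s := closedBall P R) (f := fun x => u x ^ 2 * eta w₁ R P x ^ 2) (C := C ^ 2)
      measure_closedBall_lt_top (fun x hx => by
        have hd : 0 ≤ dist x P := dist_nonneg
        rw [Real.norm_of_nonneg (by positivity)]
        have h5 : eta w₁ R P x ^ 2 ≤ (1 / (w₁ + dist x P)) ^ 2 :=
          pow_le_pow_left₀ (eta_nonneg hw₁ hR0.le x) (eta_le hw₁ hR0.le x (mem_closedBall.1 hx)) 2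
        calc u x ^ 2 * eta w₁ R P x ^ 2
            ≤ (C ^ 2 * dist x P ^ 2) * (1 / (w₁ + dist x P)) ^ 2 :=
              mul_le_mul (huP2 x) h5 (by positivity) (by positivity)
          _ = C ^ 2 * (dist x P / (w₁ + dist x P)) ^ 2 := by
              rw [div_pow, div_pow]
              ring
          _ ≤ C ^ 2 * 1 ^ 2 := by
              apply mul_le_mul_of_nonneg_left _ (by positivity)
              apply pow_le_pow_left₀ (by positivity)
              rw [div_le_one (by positivity)]
              linarith
          _ = C ^ 2 := by ring)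
    refine h3.trans ?_
    apply mul_le_mul_of_nonneg_left _ (by positivity)
    rw [hA]
    exact vol_le hR1 P
  -- second term
  have hlogR : Real.log ((w₁ + R) / w₁) ≤ L + Real.log (w₂ / w₁) := by
    rw [hL, ← Real.log_mul (by positivity) (by positivity)]
    apply Real.log_le_log (by positivity)
    rw [hR, ← mul_div_assoc]
    apply div_le_div_of_nonneg_right _ hw₁.le
    nlinarith
  have hT2 : ∫ x, u x ^ 2 * NN w₁ R P x ^ 2 ≤ 4 * C ^ 2 * (κ * (L + Real.log (w₂ / w₁))) := by
    have e1 : ∫ x, u x ^ 2 * NN w₁ R P x ^ 2 ≤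
        ∫ x, (closedBall P R).indicator
          (fun x => 4 * C ^ 2 * (1 / (w₁ + dist x P)) ^ 2) x := by
      apply integral_mono_of_nonneg
      · exact Eventually.of_forall fun x => by positivity
      · rw [integrable_indicator_iff measurableSet_closedBall]
        apply ContinuousOn.integrableOn_compact (isCompact_closedBall P R)
        apply ContinuousOn.mul continuousOn_const
        apply ContinuousOn.pow
        apply ContinuousOn.div continuousOn_const
        · exact (continuous_const.add (continuous_id.dist continuous_const)).continuousOn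
        · intro x _
          have := dist_nonneg (x := x) (y := P)
          linarith
      · refine Eventually.of_forall fun x => ?_
        simp only
        unfold NN
        by_cases h : x ∈ closedBall P R
        · rw [indicator_of_mem h, indicator_of_mem h]
          have hd : 0 ≤ dist x P := dist_nonneg
          calc u x ^ 2 * (2 / (w₁ + dist x P) ^ 2) ^ 2
              ≤ (C ^ 2 * dist x P ^ 2) * (2 / (w₁ + dist x P) ^ 2) ^ 2 :=
                mul_le_mul_of_nonneg_right (huP2 x) (by positivity)
            _ = 4 * C ^ 2 * (1 / (w₁ + dist x P)) ^ 2 * (dist x P / (w₁ + dist x P)) ^ 2 := by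
                field_simp
                ring
            _ ≤ 4 * C ^ 2 * (1 / (w₁ + dist x P)) ^ 2 * 1 := by
                apply mul_le_mul_of_nonneg_left _ (by positivity)
                apply pow_le_one₀ (by positivity)
                rw [div_le_one (by positivity)]
                linarith
            _ = _ := mul_one _
        · rw [indicator_of_notMem h, indicator_of_notMem h]
          simp
    refine e1.trans ?_
    rw [integral_indicator measurableSet_closedBall, integral_const_mul]
    apply mul_le_mul_of_nonneg_left _ (by positivity)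
    refine (radial (P := P) hw₁ hR0.le).trans ?_
    rw [← hκ]
    exact mul_le_mul_of_nonneg_left hlogR hκ0
  -- lower bound for the left side
  have hT0 : ∫ p in closedBall P (C₁ * w₂), (1 / (w₁ + dist p P)) ^ 2 * ‖gd U u p‖ ^ 2 ≤
      K₂ ^ 2 * ∫ x, eta w₁ R P x ^ 2 * ‖gd U u x‖ ^ 2 := by
    rw [← integral_const_mul, ← integral_indicator measurableSet_closedBall]
    apply integral_mono_of_nonneg
    · refine Eventually.of_forall fun x => ?_
      apply indicator_nonneg
      intro p _
      positivity
    · apply Integrable.const_mul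
      have hG : Integrable (fun x => ‖gd U u x‖ ^ 2) :=
        MemLp.integrable_norm_pow (p := 2) (by exact_mod_cast hu.mem.memG) (by norm_num)
      apply hG.bdd_mul (c := (1 / w₁) ^ 2)
      · exact ((eta_lip hw₁ hR0.le).continuous.pow 2).aestronglyMeasurable
      · refine Eventually.of_forall fun x => ?_
        rw [norm_pow, Real.norm_of_nonneg (eta_nonneg hw₁ hR0.le x)]
        apply pow_le_pow_left₀ (eta_nonneg hw₁ hR0.le x)
        by_cases h : dist x P ≤ R
        · refine (eta_le hw₁ hR0.le x h).trans ?_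
          apply one_div_le_one_div_of_le hw₁
          linarith [dist_nonneg (x := x) (y := P)]
        · rw [eta_zero x (not_le.1 h).le]
          positivity
    · refine Eventually.of_forall fun x => ?_
      simp only
      by_cases h : x ∈ closedBall P (C₁ * w₂)
      · rw [indicator_of_mem h, ← mul_assoc]
        apply mul_le_mul_of_nonneg_right _ (by positivity)
        rw [← mul_pow]
        apply pow_le_pow_left₀
        · have := dist_nonneg (x := x) (y := P)
          positivity
        · have h3 := eta_lower (w := w₁) hw₁ hR0.le x (P := P) (by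
            have := mem_closedBall.1 h
            rw [hR]
            linarith)
          have h4 : 1 ≤ K₂ * (R / (2 * (w₁ + R))) := by
            rw [hK₂, hR, div_mul_div_comm, le_div_iff₀ (by positivity)]
            nlinarith [mul_pos hC₁ hw₁, mul_pos hC₁ hw₂0, mul_le_mul_of_nonneg_left hw₁₂ hC₁.le]
          have hd := dist_nonneg (x := x) (y := P)
          have h5 : 0 ≤ 1 / (w₁ + dist x P) := by positivity
          calc 1 / (w₁ + dist x P) = 1 * (1 / (w₁ + dist x P)) := (one_mul _).symm
            _ ≤ (K₂ * (R / (2 * (w₁ + R)))) * (1 / (w₁ + dist x P)) :=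
                mul_le_mul_of_nonneg_right h4 h5
            _ = K₂ * (R / (2 * (w₁ + R)) * (1 / (w₁ + dist x P))) := by ring
            _ ≤ K₂ * eta w₁ R P x := mul_le_mul_of_nonneg_left h3 hK₂0.le
      · rw [indicator_of_notMem h]
        positivity
  constructor
  · refine hT0.trans ?_
    have h3 : ∫ x, eta w₁ R P x ^ 2 * ‖gd U u x‖ ^ 2 ≤
        2 * lam U * (C ^ 2 * A) + 4 * (4 * C ^ 2 * (κ * (L + Real.log (w₂ / w₁)))) := by
      refine hcac.trans ?_
      have h4 : 2 * lam U * ∫ x, u x ^ 2 * eta w₁ R P x ^ 2 ≤ 2 * lam U * (C ^ 2 * A) :=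
        mul_le_mul_of_nonneg_left hT1 (by positivity)
      linarith
    have h4 := mul_le_mul_of_nonneg_left h3 (by positivity : 0 ≤ K₂ ^ 2)
    refine h4.trans ?_
    obtain ⟨ℓ, hℓ⟩ : ∃ ℓ, ℓ = Real.log (w₂ / w₁) := ⟨_, rfl⟩
    rw [← hℓ] at hlog ⊢
    have e1 : (K₂ ^ 2 * (2 * lam U * (C ^ 2 * A) + 16 * C ^ 2 * κ * (1 + L)) +
        C ^ 2 * C₁ * A + 1) * (1 + ℓ) -
        K₂ ^ 2 * (2 * lam U * (C ^ 2 * A) + 4 * (4 * C ^ 2 * (κ * (L + ℓ)))) =
        K₂ ^ 2 * (2 * lam U * (C ^ 2 * A)) * ℓ + K₂ ^ 2 * (16 * C ^ 2 * κ) * (1 + L * ℓ) +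
          (C ^ 2 * C₁ * A + 1) * (1 + ℓ) := by ring
    have e2 : 0 ≤ K₂ ^ 2 * (2 * lam U * (C ^ 2 * A)) * ℓ + K₂ ^ 2 * (16 * C ^ 2 * κ) * (1 + L * ℓ) +
          (C ^ 2 * C₁ * A + 1) * (1 + ℓ) := by positivity
    linarith
  · have h3 := norm_setIntegral_le_of_norm_le_const (μ := (volume : Measure V))
      (s := closedBall P (C₁ * w₂)) (f := fun p => u p ^ 2 * (1 / (w₁ + dist p P)))
      (C := C ^ 2 * C₁) measure_closedBall_lt_top (fun x hx => by
        have hd : 0 ≤ dist x P := dist_nonneg
        rw [Real.norm_of_nonneg (by positivity)]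
        calc u x ^ 2 * (1 / (w₁ + dist x P))
            ≤ (C ^ 2 * dist x P ^ 2) * (1 / (w₁ + dist x P)) :=
              mul_le_mul_of_nonneg_right (huP2 x) (by positivity)
          _ = C ^ 2 * (dist x P * (dist x P / (w₁ + dist x P))) := by ring
          _ ≤ C ^ 2 * (C₁ * 1) := by
              apply mul_le_mul_of_nonneg_left _ (by positivity)
              apply mul_le_mul _ _ (by positivity) hC₁.le
              · have := mem_closedBall.1 hx
                nlinarith
              · rw [div_le_one (by positivity)]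
                linarith
          _ = C ^ 2 * C₁ := by ring)
    refine (le_abs_self _).trans (h3.trans ?_)
    have h4 : (volume : Measure V).real (closedBall P (C₁ * w₂)) ≤ A := by
      rw [hA]
      exact vol_le (by nlinarith) P
    have h5 : C ^ 2 * C₁ * (volume : Measure V).real (closedBall P (C₁ * w₂)) ≤
        C ^ 2 * C₁ * A := mul_le_mul_of_nonneg_left h4 (by positivity)
    have h6 : 0 ≤ K₂ ^ 2 * (2 * lam U * (C ^ 2 * A) + 16 * C ^ 2 * κ * (1 + L)) := by positivity
    linarith

end Pool.Agent.H417R2.CH
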