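import Mathlib
import Pool.Agent.H417R2.CH.Defs2

set_option autoImplicit false
open MeasureTheory Metric Set
open scoped ContDiff

namespace Pool.Agent.H417R2.CH

namespace EXB

theorem coord (e p : V) (i : Fin 2) : |e i - p i| ≤ dist e p := by
  rw [dist_eq_norm]
  have := PiLp.norm_apply_le (e - p) i
  simpa using this

end EXB

theorem t_EXB (h : S_BEND) : S_EXB := by
  intro α β l g hR X₀ hX₀ hinf ε hε
  have hl : ContinuousOn l (Ioo α β) := hR.cl.continuousOn isOpen_Ioo
  have hlX : ContinuousAt l X₀ := hl.continuousAt (isOpen_Ioo.mem_nhds hX₀)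
  have hlg := hR.lg X₀ hX₀
  set η : ℝ := (g X₀ - l X₀) / 2 with hη
  have hη0 : 0 < η := by rw [hη]; linarith
  rw [Metric.continuousAt_iff] at hlX
  obtain ⟨δ₁, hδ₁, hlc⟩ := hlX η hη0
  set δ : ℝ := min (min ε δ₁) (min η (min (X₀ - α) (β - X₀))) with hδ
  have hδ0 : 0 < δ := by
    rw [hδ]
    refine lt_min (lt_min hε hδ₁) (lt_min hη0 (lt_min ?_ ?_))
    · linarith [hX₀.1]
    · linarith [hX₀.2]
  have h1 : δ ≤ ε := (min_le_left _ _).trans (min_le_left _ _)
  have h2 : δ ≤ δ₁ := (min_le_left _ _).trans (min_le_right _ _)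
  have h3 : δ ≤ η := (min_le_right _ _).trans (min_le_left _ _)
  have h4 : δ ≤ X₀ - α := (min_le_right _ _).trans ((min_le_right _ _).trans (min_le_left _ _))
  have h5 : δ ≤ β - X₀ := (min_le_right _ _).trans ((min_le_right _ _).trans (min_le_right _ _))
  have key : ∀ e ∈ extremePoints ℝ (closure (Reg α β l g)) ∩ ball (pt X₀ (g X₀)) δ,
      e 0 ∈ Ioo (X₀ - ε) (X₀ + ε) ∧ e 1 = g (e 0) ∧ Bend g (e 0) := by
    rintro e ⟨he, hb⟩
    rw [mem_ball] at hb
    have c0 := EXB.coord e (pt X₀ (g X₀)) 0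
    have c1 := EXB.coord e (pt X₀ (g X₀)) 1
    have e0 : (pt X₀ (g X₀)) 0 = X₀ := by simp [pt]
    have e1 : (pt X₀ (g X₀)) 1 = g X₀ := by simp [pt]
    rw [e0] at c0
    rw [e1] at c1
    have c0' := abs_lt.1 (lt_of_le_of_lt c0 hb)
    have c1' := abs_lt.1 (lt_of_le_of_lt c1 hb)
    refine ⟨⟨by linarith, by linarith⟩, ?_⟩
    rcases h α β l g hR e he ⟨by linarith, by linarith⟩ with hc | hc
    · exact hc
    · exfalso
      have hd : dist (e 0) X₀ < δ₁ := by
        rw [Real.dist_eq]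
        linarith [lt_of_le_of_lt c0 hb]
      have := hlc hd
      rw [Real.dist_eq] at this
      have := (abs_lt.1 this).2
      rw [← hc.1] at this
      linarith
  have hinj : InjOn (fun e : V => e 0)
      (extremePoints ℝ (closure (Reg α β l g)) ∩ ball (pt X₀ (g X₀)) δ) := by
    intro e he e' he' hee
    have a := (key e he).2.1
    have b := (key e' he').2.1
    simp only at hee
    ext i
    fin_cases i
    · exact hee
    · show e 1 = e' 1
      rw [a, b, hee]
  have himg := (hinf δ hδ0).image hinj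
  refine himg.mono ?_
  rintro _ ⟨e, he, rfl⟩
  exact ⟨(key e he).1, (key e he).2.2⟩

end Pool.Agent.H417R2.CH
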