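import Pool.Agent.H417R2.CH.Defs2

/-! EXT: extension of a hat to the plane, by a McShane type formula with a weight. -/

set_option autoImplicit false
open MeasureTheory Metric Set Filter Topology
open scoped ContDiff InnerProductSpace ENNReal NNReal

namespace Pool.Agent.H417R2.CH

namespace EXT

/-! ### the general extension -/

/-- the quotient `|p - q| / (w + |p - P|)`, cut off at `1` -/
noncomputable def ps (P : V) (w : ℝ) (q p : V) : ℝ := min 1 (dist p q / (w + dist p P))

theorem ps_nonneg {P : V} {w : ℝ} (hw : 0 < w) (q p : V) : 0 ≤ ps P w q p :=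
  le_min zero_le_one (by positivity)

theorem ps_le (P : V) (w : ℝ) (q p : V) : ps P w q p ≤ 1 := min_le_left _ _

theorem ps_self (P : V) (w : ℝ) (q : V) : ps P w q q = 0 := by
  unfold ps
  rw [dist_self, zero_div]
  exact min_eq_right zero_le_one

theorem ps_sub {P : V} {w : ℝ} (hw : 0 < w) (q p p' : V) :
    ps P w q p' - ps P w q p ≤ 2 * dist p' p / (w + dist p P) := by
  have hM : 0 < w + dist p P := by positivity
  have hM' : 0 < w + dist p' P := by positivity
  have h0 : 0 ≤ 2 * dist p' p / (w + dist p P) := by positivity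
  rcases le_or_gt 1 (dist p q / (w + dist p P)) with h | h
  · have h1 : ps P w q p = 1 := min_eq_left h
    have h2 := ps_le P w q p'
    linarith
  · have h1 : ps P w q p = dist p q / (w + dist p P) := min_eq_right h.le
    rw [h1, le_div_iff₀ hM, sub_mul, div_mul_cancel₀ _ hM.ne']
    have h2 : ps P w q p' * (w + dist p' P) ≤ dist p' q := by
      have h3 : ps P w q p' ≤ dist p' q / (w + dist p' P) := min_le_right _ _
      exact (le_div_iff₀ hM').1 h3
    have h4 := ps_nonneg hw q p' (P := P)
    have h5 := ps_le P w q p'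
    have h6 : dist p P ≤ dist p' P + dist p' p := by
      have := dist_triangle p p' P
      rw [dist_comm p p'] at this
      linarith
    have h7 : dist p' q ≤ dist p' p + dist p q := dist_triangle _ _ _
    have h8 : ps P w q p' * (w + dist p P) ≤ ps P w q p' * (w + dist p' P) + dist p' p := by
      have h9 : ps P w q p' * (w + dist p P) ≤ ps P w q p' * (w + dist p' P + dist p' p) :=
        mul_le_mul_of_nonneg_left (by linarith) h4
      have h10 : ps P w q p' * dist p' p ≤ 1 * dist p' p :=
        mul_le_mul_of_nonneg_right h5 dist_nonneg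
      nlinarith
    linarith

/-- extension of data on a set of pairs -/
theorem mcs (P : V) (w H C : ℝ) (hw : 0 < w) (hH : 0 < H) (hC : 0 < C) (E : Set (V × ℝ))
    (hE : E.Nonempty) (hb : ∀ e ∈ E, |e.2| ≤ 2 * H)
    (hc : ∀ e ∈ E, ∀ e' ∈ E, e.2 - e'.2 ≤ C * H * ps P w e'.1 e.1) :
    ∃ (Wf : V → ℝ) (K : ℝ≥0), LipschitzWith K Wf ∧ (∀ e ∈ E, Wf e.1 = e.2) ∧
      ∀ p, ‖fderiv ℝ Wf p‖ ≤ 4 * C * H / (w + dist p P) := by
  set Wf : V → ℝ := fun p => sInf ((fun e : V × ℝ => e.2 + C * H * ps P w e.1 p) '' E) with hWf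
  have hCH : 0 < C * H := mul_pos hC hH
  have hbdd : ∀ p, BddBelow ((fun e : V × ℝ => e.2 + C * H * ps P w e.1 p) '' E) := by
    intro p
    refine ⟨-(2 * H), ?_⟩
    rintro _ ⟨e, he, rfl⟩
    have h1 := (abs_le.1 (hb e he)).1
    have h2 : 0 ≤ C * H * ps P w e.1 p := mul_nonneg hCH.le (ps_nonneg hw _ _)
    show -(2 * H) ≤ e.2 + C * H * ps P w e.1 p
    linarith
  have hle : ∀ p, ∀ e ∈ E, Wf p ≤ e.2 + C * H * ps P w e.1 p :=
    fun p e he => csInf_le (hbdd p) ⟨e, he, rfl⟩
  have hge : ∀ p c, (∀ e ∈ E, c ≤ e.2 + C * H * ps P w e.1 p) → c ≤ Wf p := by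
    intro p c h
    refine le_csInf (hE.image _) ?_
    rintro _ ⟨e, he, rfl⟩
    exact h e he
  have hval : ∀ e ∈ E, Wf e.1 = e.2 := by
    intro e he
    apply le_antisymm
    · have := hle e.1 e he
      rw [ps_self] at this
      linarith
    · refine hge _ _ fun e' he' => ?_
      have := hc e he e' he'
      linarith
  have hsub : ∀ p p', Wf p' - Wf p ≤ 2 * C * H * dist p' p / (w + dist p P) := by
    intro p p'
    have h1 : Wf p' - 2 * C * H * dist p' p / (w + dist p P) ≤ Wf p := by
      refine hge _ _ fun e he => ?_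
      have h2 := hle p' e he
      have h3 := ps_sub hw e.1 p p' (P := P)
      have h4 := mul_le_mul_of_nonneg_left h3 hCH.le
      have h5 : C * H * (2 * dist p' p / (w + dist p P)) =
          2 * C * H * dist p' p / (w + dist p P) := by ring
      rw [h5, mul_sub] at h4
      linarith
    linarith
  have hlip : ∀ p p', |Wf p' - Wf p| ≤ 2 * C * H * dist p' p /
      (w + min (dist p P) (dist p' P)) := by
    intro p p'
    have hm : 0 < w + min (dist p P) (dist p' P) :=
      add_pos_of_pos_of_nonneg hw (le_min dist_nonneg dist_nonneg)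
    have hn : 0 ≤ 2 * C * H * dist p' p := by positivity
    rw [abs_le]
    constructor
    · have h1 := hsub p' p
      have h2 : 2 * C * H * dist p p' / (w + dist p' P) ≤
          2 * C * H * dist p' p / (w + min (dist p P) (dist p' P)) := by
        rw [dist_comm p p']
        exact div_le_div_of_nonneg_left hn hm (by linarith [min_le_right (dist p P) (dist p' P)])
      linarith
    · have h1 := hsub p p'
      have h2 : 2 * C * H * dist p' p / (w + dist p P) ≤
          2 * C * H * dist p' p / (w + min (dist p P) (dist p' P)) :=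
        div_le_div_of_nonneg_left hn hm (by linarith [min_le_left (dist p P) (dist p' P)])
      linarith
  refine ⟨Wf, Real.toNNReal (2 * C * H / w), ?_, hval, ?_⟩
  · refine LipschitzWith.of_dist_le_mul fun p' p => ?_
    rw [Real.coe_toNNReal _ (by positivity), Real.dist_eq]
    refine (hlip p p').trans ?_
    have h1 : 2 * C * H * dist p' p / (w + min (dist p P) (dist p' P)) ≤
        2 * C * H * dist p' p / w :=
      div_le_div_of_nonneg_left (by positivity) hw
        (by linarith [le_min (dist_nonneg (x := p) (y := P)) (dist_nonneg (x := p') (y := P))])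
    refine h1.trans (le_of_eq ?_)
    ring
  · intro p
    have hM : 0 < w + dist p P := by positivity
    refine norm_fderiv_le_of_lip' ℝ (by positivity) ?_
    filter_upwards [ball_mem_nhds p (half_pos hM)] with p' hp'
    rw [mem_ball] at hp'
    rw [Real.norm_eq_abs, ← dist_eq_norm]
    refine (hlip p p').trans ?_
    have h1 : (w + dist p P) / 2 ≤ w + min (dist p P) (dist p' P) := by
      have h2 : dist p P ≤ dist p' P + dist p' p := by
        have := dist_triangle p p' P
        rw [dist_comm p p'] at this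
        linarith
      have h3 : dist p P - (w + dist p P) / 2 ≤ min (dist p P) (dist p' P) :=
        le_min (by linarith) (by linarith)
      linarith
    have h4 : 2 * C * H * dist p' p / (w + min (dist p P) (dist p' P)) ≤
        2 * C * H * dist p' p / ((w + dist p P) / 2) :=
      div_le_div_of_nonneg_left (by positivity) (by positivity) h1
    refine h4.trans (le_of_eq ?_)
    field_simp
    ring

/-- the compatibility condition follows from a symmetric one -/
theorem compat {P q q' : V} {w H C v v' : ℝ} (hw : 0 < w) (hH : 0 < H) (hC : 0 ≤ C)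
    (hv : |v| ≤ 2 * H) (hv' : |v'| ≤ 2 * H)
    (h : |v - v'| * (w + dist q P) ≤ C * H * dist q q' ∨
      |v - v'| * (w + dist q' P) ≤ C * H * dist q q') :
    v - v' ≤ (C + 4) * H * ps P w q' q := by
  have hM : 0 < w + dist q P := by positivity
  have h4 : |v - v'| ≤ 4 * H := by
    have := abs_sub v v'
    linarith
  have key : |v - v'| * (w + dist q P) ≤ (C + 4) * H * dist q q' := by
    have h5 : 0 ≤ 4 * H * dist q q' := by positivity
    rcases h with h | h
    · nlinarith
    · have h6 : dist q P ≤ dist q' P + dist q q' := by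
        have := dist_triangle q q' P
        linarith
      have h7 : |v - v'| * (w + dist q P) ≤ |v - v'| * (w + dist q' P + dist q q') :=
        mul_le_mul_of_nonneg_left (by linarith) (abs_nonneg _)
      have h8 : |v - v'| * dist q q' ≤ 4 * H * dist q q' :=
        mul_le_mul_of_nonneg_right h4 dist_nonneg
      nlinarith
  unfold ps
  rcases le_total 1 (dist q q' / (w + dist q P)) with h1 | h1
  · rw [min_eq_left h1]
    have := le_abs_self (v - v')
    nlinarith
  · rw [min_eq_right h1, mul_div_assoc', le_div_iff₀ hM]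
    have := le_abs_self (v - v')
    nlinarith

/-! ### the hat -/

theorem dist_pt (x y x' y' : ℝ) : dist (pt x y) (pt x' y') ≤ |x - x'| + |y - y'| := by
  rw [EuclideanSpace.dist_eq]
  simp only [Fin.sum_univ_two, Real.dist_eq]
  have e0 : (pt x y) 0 = x := rfl
  have e1 : (pt x y) 1 = y := rfl
  have e0' : (pt x' y') 0 = x' := rfl
  have e1' : (pt x' y') 1 = y' := rfl
  rw [e0, e1, e0', e1', Real.sqrt_le_left (by positivity)]
  nlinarith [abs_nonneg (x - x'), abs_nonneg (y - y')]

theorem le_dist_pt0 (x y x' y' : ℝ) : |x - x'| ≤ dist (pt x y) (pt x' y') := by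
  rw [EuclideanSpace.dist_eq]
  simp only [Fin.sum_univ_two, Real.dist_eq]
  have e0 : (pt x y) 0 = x := rfl
  have e1 : (pt x y) 1 = y := rfl
  have e0' : (pt x' y') 0 = x' := rfl
  have e1' : (pt x' y') 1 = y' := rfl
  rw [e0, e1, e0', e1']
  apply Real.le_sqrt_of_sq_le
  nlinarith [sq_nonneg (|y - y'|)]

theorem le_dist_pt1 (x y x' y' : ℝ) : |y - y'| ≤ dist (pt x y) (pt x' y') := by
  rw [EuclideanSpace.dist_eq]
  simp only [Fin.sum_univ_two, Real.dist_eq]
  have e0 : (pt x y) 0 = x := rfl
  have e1 : (pt x y) 1 = y := rfl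
  have e0' : (pt x' y') 0 = x' := rfl
  have e1' : (pt x' y') 1 = y' := rfl
  rw [e0, e1, e0', e1']
  apply Real.le_sqrt_of_sq_le
  nlinarith [sq_nonneg (|x - x'|)]

/-- the symmetric condition for two points of the graph, `x ≤ x'` -/
theorem graph_graph {φ g : ℝ → ℝ} {H a b d L : ℝ} (hφ : HL φ H a b d) (hL : 0 ≤ L)
    (hg : ∀ z ∈ Icc a d, dist (pt z (g z)) (pt b (g b)) ≤ L * |z - b|) {x x' : ℝ} (hx : x ≤ x') :
    |φ x - φ x'| * ((b - a) + dist (pt x (g x)) (pt b (g b))) ≤
        4 * (1 + L) * H * dist (pt x (g x)) (pt x' (g x')) ∨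
      |φ x - φ x'| * ((b - a) + dist (pt x' (g x')) (pt b (g b))) ≤
        4 * (1 + L) * H * dist (pt x (g x)) (pt x' (g x')) := by
  have hH := hφ.H_pos
  have hab := hφ.ab
  have hbd := hφ.bd
  have hsh := hφ.short
  have hΔ : x' - x ≤ dist (pt x (g x)) (pt x' (g x')) := by
    have := le_dist_pt0 x (g x) x' (g x')
    rw [abs_sub_comm, abs_of_nonneg (by linarith)] at this
    exact this
  have hw1 : 0 < b - a := by linarith
  have hw2 : 0 < d - b := by linarith
  set Δ := dist (pt x (g x)) (pt x' (g x')) with hΔd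
  have hΔ0 : 0 ≤ Δ := dist_nonneg
  -- a product estimate
  have prod : ∀ A m w : ℝ, 0 < w → 0 ≤ m → m ≤ (1 + L) * w → A ≤ 4 * H / w * (x' - x) →
      A * m ≤ 4 * (1 + L) * H * Δ := by
    intro A m w hw hm0 hm hA
    have h0 : 0 ≤ x' - x := by linarith
    calc A * m ≤ (4 * H / w * (x' - x)) * m := mul_le_mul_of_nonneg_right hA hm0
      _ ≤ (4 * H / w * (x' - x)) * ((1 + L) * w) :=
          mul_le_mul_of_nonneg_left hm (by positivity)
      _ = 4 * (1 + L) * H * (x' - x) := by
          field_simp
      _ ≤ 4 * (1 + L) * H * Δ := mul_le_mul_of_nonneg_left hΔ (by positivity)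
  have zero : |φ x - φ x'| = 0 → |φ x - φ x'| * ((b - a) + dist (pt x (g x)) (pt b (g b))) ≤
        4 * (1 + L) * H * Δ := by
    intro h
    rw [h, zero_mul]
    positivity
  have hz0 : ∀ z, z ≤ a ∨ d ≤ z → φ z = 0 := by
    intro z hz
    apply hφ.zero
    rintro ⟨h1, h2⟩
    rcases hz with h | h <;> linarith
  rcases le_or_gt x' b with h1 | h1
  · -- both on the left
    rcases le_or_gt x' a with h2 | h2
    · left
      apply zero
      rw [hz0 x (Or.inl (by linarith)), hz0 x' (Or.inl h2), sub_zero, abs_zero]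
    · right
      refine prod _ _ (b - a) hw1 (by positivity) ?_ ?_
      · have h3 := hg x' ⟨h2.le, by linarith⟩
        have h4 : |x' - b| ≤ b - a := by
          rw [abs_sub_comm, abs_of_nonneg (by linarith)]; linarith
        nlinarith
      · have h5 := hφ.lipL x x' (by linarith) h1
        rw [abs_sub_comm x x', abs_of_nonneg (by linarith : 0 ≤ x' - x)] at h5
        exact h5
  · rcases le_or_gt b x with h2 | h2
    · -- both on the right
      rcases le_or_gt d x with h3 | h3
      · left
        apply zero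
        rw [hz0 x (Or.inr h3), hz0 x' (Or.inr (by linarith)), sub_zero, abs_zero]
      · left
        refine prod _ _ (d - b) hw2 (by positivity) ?_ ?_
        · have h4 := hg x ⟨by linarith, h3.le⟩
          have h5 : |x - b| ≤ d - b := by
            rw [abs_of_nonneg (by linarith)]; linarith
          nlinarith
        · have h5 := hφ.lipR x x' h2 (by linarith)
          rw [abs_sub_comm x x', abs_of_nonneg (by linarith : 0 ≤ x' - x)] at h5
          exact h5
    · -- `x < b < x'`
      rcases le_or_gt x a with h3 | h3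
      · rcases le_or_gt d x' with h4 | h4
        · left
          apply zero
          rw [hz0 x (Or.inl h3), hz0 x' (Or.inr h4), sub_zero, abs_zero]
        · right
          rw [hz0 x (Or.inl h3), zero_sub, abs_neg]
          have h5 := hg x' ⟨by linarith, h4.le⟩
          rw [abs_of_nonneg (by linarith : 0 ≤ x' - b)] at h5
          have h6 := hφ.bound x'
          have h7 : (b - a) + dist (pt x' (g x')) (pt b (g b)) ≤ (1 + L) * (x' - x) := by
            nlinarith
          calc |φ x'| * ((b - a) + dist (pt x' (g x')) (pt b (g b))) ≤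
                (2 * H) * ((1 + L) * (x' - x)) :=
                mul_le_mul h6 h7 (by positivity) (by positivity)
            _ ≤ (2 * H) * ((1 + L) * Δ) :=
                mul_le_mul_of_nonneg_left (mul_le_mul_of_nonneg_left hΔ (by positivity))
                  (by positivity)
            _ ≤ 4 * (1 + L) * H * Δ := by
                have : 0 ≤ (1 + L) * H * Δ := by positivity
                nlinarith
      · left
        refine prod _ _ (b - a) hw1 (by positivity) ?_ ?_
        · have h4 := hg x ⟨h3.le, by linarith⟩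
          have h5 : |x - b| ≤ b - a := by
            rw [abs_sub_comm, abs_of_nonneg (by linarith)]; linarith
          nlinarith
        · have h5 := hφ.lipL x b h2.le le_rfl
          have h6 := hφ.lipR b x' le_rfl h1.le
          rw [abs_sub_comm x b, abs_of_nonneg (by linarith : 0 ≤ b - x)] at h5
          rw [abs_sub_comm b x', abs_of_nonneg (by linarith : 0 ≤ x' - b)] at h6
          have h7 : 4 * H / (d - b) * (x' - b) ≤ 4 * H / (b - a) * (x' - b) := by
            apply mul_le_mul_of_nonneg_right _ (by linarith)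
            exact div_le_div_of_nonneg_left (by positivity) hw1 hsh
          have h8 : |φ x - φ x'| ≤ |φ x - φ b| + |φ b - φ x'| := abs_sub_le _ _ _
          calc |φ x - φ x'| ≤ 4 * H / (b - a) * (b - x) + 4 * H / (b - a) * (x' - b) := by
                linarith
            _ = 4 * H / (b - a) * (x' - x) := by ring

end EXT

theorem t_EXT : S_EXT := by
  intro U r α β l g R k X₀ hF
  have hX : X₀ ∈ Ioo α β := by
    have h0 : (0 : V) = pt 0 0 := by
      ext i
      fin_cases i <;> rfl
    have h1 : pt X₀ 0 ∈ ball (0 : V) R := by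
      rw [mem_ball, h0]
      refine lt_of_le_of_lt (EXT.dist_pt X₀ 0 0 0) ?_
      rw [sub_zero, sub_zero, abs_zero, add_zero]
      linarith [hF.hX, hF.hR]
    have h2 := hF.hball h1
    rw [hF.eq] at h2
    exact ⟨h2.1, h2.2.1⟩
  have hnh : Ioo α β ∈ 𝓝 X₀ := isOpen_Ioo.mem_nhds hX
  obtain ⟨K, t, ht, hK⟩ := hF.reg.cg.locallyLipschitzOn isOpen_Ioo hX
  rw [nhdsWithin_eq_nhds.2 hnh] at ht
  obtain ⟨e2, he2, ht2⟩ := Metric.mem_nhds_iff.1 (Filter.inter_mem ht hnh)
  have hm0 : 0 < g X₀ - l X₀ := by linarith [hF.reg.lg X₀ hX]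
  have hgc : ContinuousAt g X₀ := (hF.reg.cg.continuousOn isOpen_Ioo).continuousAt hnh
  have hlc : ContinuousAt l X₀ := (hF.reg.cl.continuousOn isOpen_Ioo).continuousAt hnh
  obtain ⟨e1, he1, hge⟩ := Metric.continuousAt_iff.1 hgc ((g X₀ - l X₀) / 4) (by linarith)
  obtain ⟨e3, he3, hle⟩ := Metric.continuousAt_iff.1 hlc ((g X₀ - l X₀) / 4) (by linarith)
  have hK0 : (0 : ℝ) ≤ K := K.2
  obtain ⟨w₀, hw0, hwe1, hwe3, hwe2, hwm⟩ : ∃ w₀ : ℝ, 0 < w₀ ∧ 2 * w₀ ≤ e1 ∧ 2 * w₀ ≤ e3 ∧
      2 * w₀ ≤ e2 ∧ 2 * w₀ ≤ g X₀ - l X₀ := by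
    refine ⟨min (min e1 e3) (min e2 (g X₀ - l X₀)) / 2, ?_, ?_, ?_, ?_, ?_⟩
    · have : 0 < min (min e1 e3) (min e2 (g X₀ - l X₀)) :=
        lt_min (lt_min he1 he3) (lt_min he2 hm0)
      linarith
    · have : min (min e1 e3) (min e2 (g X₀ - l X₀)) ≤ e1 :=
        (min_le_left _ _).trans (min_le_left _ _)
      linarith
    · have : min (min e1 e3) (min e2 (g X₀ - l X₀)) ≤ e3 :=
        (min_le_left _ _).trans (min_le_right _ _)
      linarith
    · have : min (min e1 e3) (min e2 (g X₀ - l X₀)) ≤ e2 :=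
        (min_le_right _ _).trans (min_le_left _ _)
      linarith
    · have : min (min e1 e3) (min e2 (g X₀ - l X₀)) ≤ g X₀ - l X₀ :=
        (min_le_right _ _).trans (min_le_right _ _)
      linarith
  obtain ⟨L, hL⟩ : ∃ L : ℝ, L = 1 + K := ⟨_, rfl⟩
  have hL0 : 0 ≤ L := by rw [hL]; linarith
  refine ⟨4 * (4 * (1 + L) + 4) + (L + 1), w₀, by positivity, hw0, ?_⟩
  intro φ H a b d hφ ha hd
  have hH := hφ.H_pos
  have hab := hφ.ab
  have hbd := hφ.bd
  have hsh := hφ.short
  have hw1 : 0 < b - a := by linarith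
  have hw2 : 0 < d - b := by linarith
  have hin : ∀ z ∈ Icc a d, z ∈ t ∧ z ∈ Ioo α β := by
    intro z hz
    apply ht2
    rw [mem_ball, Real.dist_eq, abs_of_nonneg (by linarith [hz.1])]
    linarith [hz.2]
  have hg : ∀ z ∈ Icc a d, dist (pt z (g z)) (pt b (g b)) ≤ L * |z - b| := by
    intro z hz
    refine (EXT.dist_pt _ _ _ _).trans ?_
    have h1 := hK.dist_le_mul z (hin z hz).1 b (hin b ⟨by linarith, by linarith⟩).1
    rw [Real.dist_eq, Real.dist_eq] at h1
    rw [hL]
    linarith
  have hz0 : ∀ z, z ∉ Ioo a d → φ z = 0 := hφ.zero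
  -- the set of the other points
  obtain ⟨Z, hZ⟩ : ∃ Z : Set V, Z = {p | (∃ x ∈ Ioo α β, p = pt x (l x)) ∨
      (L + 1) * (d - b) < dist p (pt b (g b))} := ⟨_, rfl⟩
  have hfar : ∀ x' ∈ Ioo a d, ∀ q ∈ Z, d - b ≤ dist q (pt x' (g x')) := by
    intro x' hx' q hq
    rw [hZ] at hq
    rcases hq with ⟨x, hx, rfl⟩ | hq
    · have hx0 : |x' - X₀| < w₀ := by
        rw [abs_of_nonneg (by linarith [hx'.1])]; linarith [hx'.2]
      rcases lt_or_ge |x - X₀| e3 with h | h
      · have h1 := hge (x := x') (by rw [Real.dist_eq]; linarith)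
        have h2 := hle (x := x) (by rw [Real.dist_eq]; exact h)
        rw [Real.dist_eq] at h1 h2
        have h3 := EXT.le_dist_pt1 x (l x) x' (g x')
        have h4 : g x' - l x ≤ |l x - g x'| := by
          rw [abs_sub_comm]; exact le_abs_self _
        have h5 := (abs_lt.1 h1).1
        have h6 := (abs_lt.1 h2).2
        linarith
      · have h3 := EXT.le_dist_pt0 x (l x) x' (g x')
        have h4 : |x - X₀| ≤ |x - x'| + |x' - X₀| := abs_sub_le _ _ _
        linarith
    · have h1 := hg x' ⟨hx'.1.le, hx'.2.le⟩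
      have h2 : |x' - b| ≤ d - b := by
        rw [abs_le]
        constructor <;> linarith [hx'.1, hx'.2]
      have h3 := dist_triangle q (pt x' (g x')) (pt b (g b))
      nlinarith
  -- the data
  obtain ⟨E, hE⟩ : ∃ E : Set (V × ℝ), E = {e | (∃ x ∈ Ioo α β, e = (pt x (g x), φ x)) ∨
      (e.1 ∈ Z ∧ e.2 = 0)} := ⟨_, rfl⟩
  have hEne : E.Nonempty := ⟨(pt X₀ (g X₀), φ X₀), by rw [hE]; exact Or.inl ⟨X₀, hX, rfl⟩⟩
  have hEb : ∀ e ∈ E, |e.2| ≤ 2 * H := by
    intro e he
    rw [hE] at he
    rcases he with ⟨x, hx, rfl⟩ | ⟨_, he⟩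
    · exact hφ.bound x
    · rw [he, abs_zero]; linarith
  -- graph against the other points
  have hgz : ∀ x q, q ∈ Z → |φ x| * ((b - a) + dist (pt x (g x)) (pt b (g b))) ≤
      4 * (1 + L) * H * dist q (pt x (g x)) := by
    intro x q hq
    by_cases hx : x ∈ Ioo a d
    · have h1 := hfar x hx q hq
      have h2 := hg x ⟨hx.1.le, hx.2.le⟩
      have h3 : |x - b| ≤ d - b := by
        rw [abs_le]
        constructor <;> linarith [hx.1, hx.2]
      have h4 : (b - a) + dist (pt x (g x)) (pt b (g b)) ≤ (1 + L) * (d - b) := by nlinarith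
      calc |φ x| * ((b - a) + dist (pt x (g x)) (pt b (g b))) ≤
            (2 * H) * ((1 + L) * (d - b)) :=
            mul_le_mul (hφ.bound x) h4 (by positivity) (by positivity)
        _ ≤ (2 * H) * ((1 + L) * dist q (pt x (g x))) :=
            mul_le_mul_of_nonneg_left (mul_le_mul_of_nonneg_left h1 (by positivity))
              (by positivity)
        _ ≤ 4 * (1 + L) * H * dist q (pt x (g x)) := by
            have : 0 ≤ (1 + L) * H * dist q (pt x (g x)) := by positivity
            nlinarith
    · rw [hz0 x hx, abs_zero, zero_mul]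
      positivity
  have hEc : ∀ e ∈ E, ∀ e' ∈ E, e.2 - e'.2 ≤
      (4 * (1 + L) + 4) * H * EXT.ps (pt b (g b)) (b - a) e'.1 e.1 := by
    intro e he e' he'
    refine EXT.compat hw1 hH (by positivity) (hEb e he) (hEb e' he') ?_
    rw [hE] at he he'
    rcases he with ⟨x, hx, rfl⟩ | ⟨hq, he⟩
    · rcases he' with ⟨x', hx', rfl⟩ | ⟨hq', he'⟩
      · rcases le_total x x' with h | h
        · exact EXT.graph_graph hφ hL0 hg h
        · have h1 := EXT.graph_graph hφ hL0 hg h
          rw [abs_sub_comm (φ x') (φ x), dist_comm (pt x' (g x')) (pt x (g x))] at h1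
          exact h1.symm
      · left
        rw [he', sub_zero, dist_comm (pt x (g x)) e'.1]
        exact hgz x e'.1 hq'
    · rcases he' with ⟨x', hx', rfl⟩ | ⟨hq', he'⟩
      · right
        rw [he, zero_sub, abs_neg]
        exact hgz x' e.1 hq
      · left
        rw [he, he', sub_zero, abs_zero, zero_mul]
        positivity
  obtain ⟨Wf, K', hlip, hval, hder⟩ := EXT.mcs (pt b (g b)) (b - a) H (4 * (1 + L) + 4) hw1 hH
    (by positivity) E hEne hEb hEc
  refine ⟨Wf, K', hlip, ?_, ?_, ?_, ?_⟩
  · intro x hx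
    exact hval (pt x (g x), φ x) (by rw [hE]; exact Or.inl ⟨x, hx, rfl⟩)
  · intro x hx
    refine hval (pt x (l x), 0) ?_
    rw [hE]
    refine Or.inr ⟨?_, rfl⟩
    rw [hZ]
    exact Or.inl ⟨x, hx, rfl⟩
  · intro p
    refine (hder p).trans ?_
    have hM : 0 < (b - a) + dist p (pt b (g b)) := by positivity
    rw [div_le_div_iff_of_pos_right hM]
    refine mul_le_mul_of_nonneg_right ?_ hH.le
    linarith
  · intro p hp
    refine hval (p, 0) ?_
    rw [hE]
    refine Or.inr ⟨?_, rfl⟩
    rw [hZ]
    refine Or.inr ?_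
    show (L + 1) * (d - b) < dist p (pt b (g b))
    refine lt_of_le_of_lt ?_ hp
    refine mul_le_mul_of_nonneg_right ?_ hw2.le
    nlinarith

end Pool.Agent.H417R2.CH
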