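import Pool.Agent.H417R2.CH.Defs2

/-!
# GII: inner tube inequality (helper204)
-/

set_option autoImplicit false
open MeasureTheory Metric Set Filter Topology
open scoped ContDiff InnerProductSpace ENNReal NNReal

namespace Pool.Agent.H417R2.CH

theorem t_GII (h1 : S_PGA) (h2 : S_PLM) : S_GII := by
  intro K hK hc hne δ hδ
  obtain ⟨hSN, hlim, hW, hcth, hInn⟩ := h2 K hK hc hne
  have e0 := hlim 0
  rw [hcth 0 le_rfl, cthickening_zero, hK.isClosed.closure_eq] at e0
  have e1 := hlim (-δ)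
  rw [hInn δ hδ] at e1
  refine le_of_tendsto_of_tendsto e0 (e1.add (hW.const_mul δ)) ?_
  filter_upwards [eventually_ge_atTop 2] with m hm
  have hn : 3 ≤ 2 ^ m := by
    calc 3 ≤ 2 ^ 2 := by norm_num
      _ ≤ 2 ^ m := Nat.pow_le_pow_right (by norm_num) hm
  have h3 := h1 (2 ^ m) (fun i => hs K (ang (2 ^ m) i)) δ hn (hSN (2 ^ m) (by omega)) hδ
  simp only [add_zero]
  exact h3

end Pool.Agent.H417R2.CH
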