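import Pool.Agent.H417R2.CH.Defs2

/-!
Task GIII: outer tube inequality (Steiner), as the limit of the inequality for polygons.
-/

set_option autoImplicit false
open MeasureTheory Metric Set Filter Topology
open scoped ContDiff InnerProductSpace ENNReal NNReal

namespace Pool.Agent.H417R2.CH

namespace GIII

theorem le_tan (n : ℕ) (hn : 3 ≤ n) : Real.pi ≤ n * Real.tan (Real.pi / n) := by
  have h1 : (3 : ℝ) ≤ n := by exact_mod_cast hn
  have h2 : 0 < Real.pi / n := div_pos Real.pi_pos (by linarith)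
  have h3 : Real.pi / n < Real.pi / 2 :=
    div_lt_div_of_pos_left Real.pi_pos (by norm_num) (by linarith)
  have h4 := Real.lt_tan h2 h3
  calc Real.pi = n * (Real.pi / n) := by field_simp
    _ ≤ _ := mul_le_mul_of_nonneg_left h4.le (by linarith)

end GIII

theorem t_GIII (h1 : S_PGB) (h2 : S_PLM) : S_GIII := by
  intro K hK hc hne δ hδ
  obtain ⟨hSN, hlim, hW, hset, -⟩ := h2 K hK hc hne
  have l1 := hlim δ
  rw [hset δ hδ.le] at l1
  have l0 := hlim 0
  rw [hset 0 le_rfl, cthickening_zero, hK.isClosed.closure_eq] at l0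
  have l2 : Tendsto (fun m : ℕ => ar (PP (2 ^ m) (fun i => hs K (ang (2 ^ m) i) + 0)) +
      δ * (2 * Real.tan (Real.pi / (2 ^ m : ℕ)) *
        ∑ i ∈ Finset.range (2 ^ m), hs K (ang (2 ^ m) i)) + Real.pi * δ ^ 2) atTop
      (𝓝 (ar K + δ * W K + Real.pi * δ ^ 2)) :=
    (l0.add (hW.const_mul δ)).add_const _
  refine le_of_tendsto_of_tendsto l2 l1 ?_
  filter_upwards [eventually_ge_atTop 2] with m hm
  have hn : 3 ≤ 2 ^ m := by
    calc 3 ≤ 2 ^ 2 := by norm_num
      _ ≤ 2 ^ m := Nat.pow_le_pow_right (by norm_num) hm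
  have key := h1 (2 ^ m) (fun i => hs K (ang (2 ^ m) i)) δ hn (hSN _ (by omega)) hδ
  have ht := GIII.le_tan (2 ^ m) hn
  have hd : 0 ≤ δ ^ 2 := sq_nonneg δ
  have := mul_le_mul_of_nonneg_right ht hd
  simp only [add_zero]
  linarith

end Pool.Agent.H417R2.CH
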