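import Pool.Agent.H417R2.CH.Defs2

set_option autoImplicit false
open MeasureTheory Metric Set Filter Topology
open scoped ContDiff InnerProductSpace ENNReal NNReal

namespace Pool.Agent.H417R2.CH

namespace GOOD

theorem lam_nonneg (U : Set V) : 0 ≤ lam U := by
  unfold lam
  apply Real.sInf_nonneg
  rintro c ⟨u, _, rfl⟩
  exact div_nonneg (integral_nonneg fun _ => sq_nonneg _) (integral_nonneg fun _ => sq_nonneg _)

theorem inn_anti (U : Set V) {ρ ρ' : ℝ} (h : ρ ≤ ρ') : Inn U ρ' ⊆ Inn U ρ := fun _ hx =>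
  (ball_subset_ball h).trans hx

theorem inn_sub (U : Set V) {ρ : ℝ} (h : 0 < ρ) : Inn U ρ ⊆ U := fun _ hx => hx (mem_ball_self h)

theorem inn_eq (U : Set V) (ρ : ℝ) : Inn U ρ = (thickening ρ Uᶜ)ᶜ := by
  ext x
  rw [mem_compl_iff, mem_thickening_iff]
  constructor
  · rintro hx ⟨z, hz, hzx⟩
    exact hz (hx (by rw [mem_ball, dist_comm]; exact hzx))
  · intro h z hz
    by_contra hzU
    exact h ⟨z, hzU, by rw [dist_comm]; exact hz⟩

theorem inn_closed (U : Set V) (ρ : ℝ) : IsClosed (Inn U ρ) := by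
  rw [inn_eq]
  exact isOpen_thickening.isClosed_compl

theorem inn_convex {U : Set V} (hU : Convex ℝ U) (ρ : ℝ) : Convex ℝ (Inn U ρ) := by
  intro x hx y hy a b ha hb hab z hz
  have h1 : x + (z - (a • x + b • y)) ∈ U := by
    apply hx
    rw [mem_ball, dist_eq_norm] at hz ⊢
    rwa [add_sub_cancel_left]
  have h2 : y + (z - (a • x + b • y)) ∈ U := by
    apply hy
    rw [mem_ball, dist_eq_norm] at hz ⊢
    rwa [add_sub_cancel_left]
  have h3 := hU h1 h2 ha hb hab
  have h4 : a • (x + (z - (a • x + b • y))) + b • (y + (z - (a • x + b • y))) = z := by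
    rw [smul_add, smul_add]
    have : a • (z - (a • x + b • y)) + b • (z - (a • x + b • y)) = z - (a • x + b • y) := by
      rw [← add_smul, hab, one_smul]
    calc a • x + a • (z - (a • x + b • y)) + (b • y + b • (z - (a • x + b • y)))
        = (a • x + b • y) + (a • (z - (a • x + b • y)) + b • (z - (a • x + b • y))) := by abel
      _ = z := by rw [this]; abel
  rwa [h4] at h3

theorem inn_interior {U : Set V} {r : ℝ} (hr : 0 < r) {x : V} (hx : x ∈ interior (Inn U r)) :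
    ∃ e : ℝ, 0 < e ∧ ball x (r + e) ⊆ U := by
  obtain ⟨e, he, hball⟩ := Metric.mem_nhds_iff.1 (mem_interior_iff_mem_nhds.1 hx)
  refine ⟨e, he, ?_⟩
  rw [← thickening_ball hr he]
  intro z hz
  obtain ⟨y, hy, hzy⟩ := mem_thickening_iff.1 hz
  exact hball hy (mem_ball.2 hzy)

theorem vol_interior {U : Set V} (hU : Convex ℝ U) (r : ℝ) :
    volume (Inn U r) = volume (interior (Inn U r)) := by
  refine le_antisymm ?_ (measure_mono interior_subset)
  have h1 : Inn U r ⊆ interior (Inn U r) ∪ frontier (Inn U r) := by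
    intro x hx
    by_cases h : x ∈ interior (Inn U r)
    · exact Or.inl h
    · exact Or.inr ⟨subset_closure hx, h⟩
  calc volume (Inn U r) ≤ volume (interior (Inn U r) ∪ frontier (Inn U r)) := measure_mono h1
    _ ≤ volume (interior (Inn U r)) + volume (frontier (Inn U r)) := measure_union_le _ _
    _ = volume (interior (Inn U r)) := by
      rw [(inn_convex hU r).addHaar_frontier volume, add_zero]

theorem vol_fin {U : Set V} (hU : PC U) : volume U ≠ (⊤ : ℝ≥0∞) := hU.bdd.measure_lt_top.ne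

theorem vol_inn_fin {U : Set V} (hU : PC U) {ρ : ℝ} (h : 0 < ρ) : volume (Inn U ρ) ≠ (⊤ : ℝ≥0∞) :=
  measure_ne_top_of_subset (inn_sub U h) (vol_fin hU)

/-- right continuity -/
theorem right {U : Set V} (hU : PC U) {r : ℝ} (hr : 0 < r) (h : Real.pi * r ^ 2 < ar (Inn U r)) :
    ∃ ρ : ℝ, r < ρ ∧ Real.pi * ρ ^ 2 ≤ ar (Inn U ρ) := by
  set ρ : ℕ → ℝ := fun n => r + 1 / ((n : ℝ) + 1) with hρ
  have hρr : ∀ n, r < ρ n := fun n => by
    have : (0 : ℝ) < 1 / ((n : ℝ) + 1) := Nat.one_div_pos_of_nat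
    simp only [hρ]; linarith
  have hmono : Monotone fun n => Inn U (ρ n) := by
    intro m n hmn
    apply inn_anti
    have : (1 : ℝ) / ((n : ℝ) + 1) ≤ 1 / ((m : ℝ) + 1) := Nat.one_div_le_one_div hmn
    simp only [hρ]; linarith
  have hlimρ : Tendsto ρ atTop (𝓝 r) := by
    have := tendsto_one_div_add_atTop_nhds_zero_nat (𝕜 := ℝ)
    have h2 := (tendsto_const_nhds (x := r)).add this
    rwa [add_zero] at h2
  have hlim := tendsto_measure_iUnion_atTop (μ := (volume : Measure V)) hmono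
  have hsub : interior (Inn U r) ⊆ ⋃ n, Inn U (ρ n) := by
    intro x hx
    obtain ⟨e, he, hball⟩ := inn_interior hr hx
    obtain ⟨n, hn⟩ := exists_nat_one_div_lt he
    rw [mem_iUnion]
    refine ⟨n, (ball_subset_ball ?_).trans hball⟩
    simp only [hρ]; linarith
  have hle : volume (Inn U r) ≤ volume (⋃ n, Inn U (ρ n)) := by
    rw [vol_interior hU.convex]
    exact measure_mono hsub
  have hsubr : (⋃ n, Inn U (ρ n)) ⊆ Inn U r := iUnion_subset fun n => inn_anti U (hρr n).le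
  have hfin : volume (⋃ n, Inn U (ρ n)) ≠ (⊤ : ℝ≥0∞) :=
    measure_ne_top_of_subset hsubr (vol_inn_fin hU hr)
  have hlim2 : Tendsto (fun n => ar (Inn U (ρ n))) atTop
      (𝓝 (volume (⋃ n, Inn U (ρ n))).toReal) :=
    (ENNReal.tendsto_toReal hfin).comp hlim
  have hlt : Real.pi * r ^ 2 < (volume (⋃ n, Inn U (ρ n))).toReal :=
    h.trans_le (ENNReal.toReal_mono hfin hle)
  have hlim3 : Tendsto (fun n => Real.pi * (ρ n) ^ 2) atTop (𝓝 (Real.pi * r ^ 2)) :=
    (hlimρ.pow 2).const_mul _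
  obtain ⟨n, hn⟩ := (hlim3.eventually_lt hlim2 hlt).exists
  exact ⟨ρ n, hρr n, hn.le⟩

/-- left continuity -/
theorem left {U : Set V} (hU : PC U) {r : ℝ} (hr : 0 < r) (h : ar (Inn U r) < Real.pi * r ^ 2) :
    ∃ ρ : ℝ, 0 < ρ ∧ ρ < r ∧ ar (Inn U ρ) ≤ Real.pi * ρ ^ 2 := by
  set ρ : ℕ → ℝ := fun n => r - r / 2 * (1 / ((n : ℝ) + 1)) with hρ
  have hpos : ∀ n : ℕ, (0 : ℝ) < 1 / ((n : ℝ) + 1) := fun n => Nat.one_div_pos_of_nat
  have hle1 : ∀ n : ℕ, 1 / ((n : ℝ) + 1) ≤ 1 := fun n => by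
    rw [div_le_one (by positivity)]
    have : (0 : ℝ) ≤ n := Nat.cast_nonneg n
    linarith
  have hρr : ∀ n, ρ n < r := fun n => by
    simp only [hρ]
    have := mul_pos (half_pos hr) (hpos n)
    linarith
  have hρ0 : ∀ n, 0 < ρ n := fun n => by
    simp only [hρ]
    have := mul_le_mul_of_nonneg_left (hle1 n) (half_pos hr).le
    linarith
  have hanti : Antitone fun n => Inn U (ρ n) := by
    intro m n hmn
    apply inn_anti
    have h1 : (1 : ℝ) / ((n : ℝ) + 1) ≤ 1 / ((m : ℝ) + 1) := Nat.one_div_le_one_div hmn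
    have := mul_le_mul_of_nonneg_left h1 (half_pos hr).le
    simp only [hρ]; linarith
  have hlimρ : Tendsto ρ atTop (𝓝 r) := by
    have h1 := tendsto_one_div_add_atTop_nhds_zero_nat (𝕜 := ℝ)
    have h2 := (tendsto_const_nhds (x := r)).sub (h1.const_mul (r / 2))
    rwa [mul_zero, sub_zero] at h2
  have hlim := tendsto_measure_iInter_atTop (μ := (volume : Measure V))
    (fun n => (inn_closed U (ρ n)).measurableSet.nullMeasurableSet) hanti
    ⟨0, vol_inn_fin hU (hρ0 0)⟩
  have hsub : (⋂ n, Inn U (ρ n)) ⊆ Inn U r := by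
    intro x hx z hz
    rw [mem_iInter] at hx
    rw [mem_ball] at hz
    obtain ⟨n, hn⟩ := (hlimρ.eventually_const_lt hz).exists
    exact hx n (mem_ball.2 hn)
  have hfin : volume (⋂ n, Inn U (ρ n)) ≠ (⊤ : ℝ≥0∞) :=
    measure_ne_top_of_subset hsub (vol_inn_fin hU hr)
  have hlim2 : Tendsto (fun n => ar (Inn U (ρ n))) atTop
      (𝓝 (volume (⋂ n, Inn U (ρ n))).toReal) :=
    (ENNReal.tendsto_toReal hfin).comp hlim
  have hlt : (volume (⋂ n, Inn U (ρ n))).toReal < Real.pi * r ^ 2 :=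
    (ENNReal.toReal_mono (vol_inn_fin hU hr) (measure_mono hsub)).trans_lt h
  have hlim3 : Tendsto (fun n => Real.pi * (ρ n) ^ 2) atTop (𝓝 (Real.pi * r ^ 2)) :=
    (hlimρ.pow 2).const_mul _
  obtain ⟨n, hn⟩ := (hlim2.eventually_lt hlim3 hlt).exists
  exact ⟨ρ n, hρ0 n, hρr n, hn.le⟩

end GOOD

open GOOD in
theorem t_GOOD (h1 : S_CI) (h2 : S_CII) : S_GOOD := by
  intro U hopt
  obtain ⟨hU, hmin⟩ := hopt
  -- the Cheeger constant is positive
  have hC0 : 0 < hC U := by
    set ρ : ℝ := max 1 (ar U) with hρ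
    have h1ρ : 1 ≤ ρ := le_max_left _ _
    have h3 : ar (Inn U ρ) ≤ Real.pi * ρ ^ 2 := by
      have h4 : ar (Inn U ρ) ≤ ar U :=
        ENNReal.toReal_mono (vol_fin hU) (measure_mono (inn_sub U (by linarith)))
      have h5 : ar U ≤ ρ := le_max_right _ _
      have h6 := Real.pi_gt_three
      nlinarith
    have h4 := h1 U hU ρ (by linarith) h3
    have h5 : 0 < 1 / ρ := by positivity
    linarith
  set r : ℝ := 1 / hC U with hr
  have hr0 : 0 < r := by positivity
  have hrC : 1 / r = hC U := by rw [hr]; field_simp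
  refine ⟨r, hU, hr0, ?_, ?_, ?_⟩
  · by_contra hcon
    push Not at hcon
    obtain ⟨ρ, hρ, hρ2⟩ := right hU hr0 hcon
    have h3 := h2 U hU ρ (hr0.trans hρ) hρ2
    rw [← hrC] at h3
    have h4 : 1 / ρ < 1 / r := one_div_lt_one_div_of_lt hr0 hρ
    linarith
  · by_contra hcon
    have hint : interior (Inn U r) = ∅ := by
      rw [Set.eq_empty_iff_forall_notMem]
      intro x hx
      obtain ⟨e, he, hball⟩ := inn_interior hr0 hx
      exact hcon ⟨x, r + e, by linarith, hball⟩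
    have h0 : ar (Inn U r) = 0 := by
      unfold ar
      rw [vol_interior hU.convex, hint, measure_empty, ENNReal.toReal_zero]
    obtain ⟨ρ, hρ0, hρ, hρ2⟩ := left hU hr0 (by rw [h0]; positivity)
    have h3 := h1 U hU ρ hρ0 hρ2
    rw [← hrC] at h3
    have h4 : 1 / r < 1 / ρ := one_div_lt_one_div_of_lt hρ0 hρ
    linarith
  · intro U' ρ hU' hρ har
    have h3 := h1 U' hU' ρ hρ har
    have h4 := hmin U' hU'
    have hC' : 0 < hC U' := lt_of_lt_of_le (by positivity) h3
    have e1 : lam U * r ^ 2 = quot U := by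
      unfold quot
      rw [hr]
      field_simp
    have e2 : quot U' ≤ lam U' * ρ ^ 2 := by
      unfold quot
      rw [div_le_iff₀ (by positivity)]
      have h5 : 1 ≤ ρ * hC U' := by
        rw [div_le_iff₀ hρ] at h3
        linarith
      have h6 : 1 ≤ (ρ * hC U') ^ 2 := one_le_pow₀ h5
      have h7 := mul_le_mul_of_nonneg_left h6 (lam_nonneg U')
      calc lam U' = lam U' * 1 := (mul_one _).symm
        _ ≤ lam U' * (ρ * hC U') ^ 2 := h7
        _ = lam U' * ρ ^ 2 * hC U' ^ 2 := by ring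
    rw [e1]
    exact h4.trans e2

end Pool.Agent.H417R2.CH
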