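import Pool.Agent.H417R2.CH.Defs2

/-!
# GRF: the inner parallel curve (proof: helper439)
-/

set_option autoImplicit false
open MeasureTheory Metric Set Filter Topology
open scoped ContDiff InnerProductSpace ENNReal NNReal

namespace Pool.Agent.H417R2.CH

namespace GRF

theorem pt_mem {U : Set V} {r α β : ℝ} {l g : ℝ → ℝ} {R k X₀ : ℝ}
    (F : Frame U r α β l g R k X₀) {y : ℝ} (hy : |y| < R) : y ∈ Ioo α β := by
  have h1 : pt y 0 ∈ ball (0 : V) R := by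
    rw [mem_ball_zero_iff, EuclideanSpace.norm_eq]
    simp only [Fin.sum_univ_two]
    have e0 : (pt y 0) 0 = y := rfl
    have e1 : (pt y 0) 1 = 0 := rfl
    rw [e0, e1, norm_zero, Real.norm_eq_abs]
    simp only [ne_eq, OfNat.ofNat_ne_zero, not_false_eq_true, zero_pow, add_zero]
    rw [Real.sqrt_sq (abs_nonneg _)]
    exact hy
  have h2 := F.hball h1
  rw [F.eq] at h2
  exact ⟨h2.1, h2.2.1⟩

theorem sub_mem {U : Set V} {r α β : ℝ} {l g : ℝ → ℝ} {R k X₀ : ℝ}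
    (F : Frame U r α β l g R k X₀) {δ₀ : ℝ} (hδ : δ₀ < R - r) {x s : ℝ}
    (hx : x ∈ Icc (-δ₀) δ₀) (hs : s ∈ Icc (-r) r) : x + s ∈ Ioo α β := by
  apply pt_mem F
  have h1 := abs_le.2 ⟨hx.1, hx.2⟩
  have h2 := abs_le.2 ⟨hs.1, hs.2⟩
  have h3 := abs_add_le x s
  linarith

theorem contg {U : Set V} {r α β : ℝ} {l g : ℝ → ℝ} {R k X₀ : ℝ}
    (F : Frame U r α β l g R k X₀) : ContinuousOn g (Ioo α β) :=
  F.reg.cg.continuousOn isOpen_Ioo

theorem cont_s {U : Set V} {r α β : ℝ} {l g : ℝ → ℝ} {R k X₀ : ℝ}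
    (F : Frame U r α β l g R k X₀) {δ₀ : ℝ} (hδ : δ₀ < R - r) {x : ℝ}
    (hx : x ∈ Icc (-δ₀) δ₀) {φ : ℝ → ℝ} (hφ : Continuous φ) :
    ContinuousOn (fun s => (g (x + s) + φ (x + s)) - √(r ^ 2 - s ^ 2)) (Icc (-r) r) := by
  have h1 : ContinuousOn (fun s => g (x + s)) (Icc (-r) r) :=
    (contg F).comp (by fun_prop) fun s hs => sub_mem F hδ hx hs
  have h2 : Continuous (fun s => φ (x + s)) := by fun_prop
  have h3 : Continuous (fun s : ℝ => √(r ^ 2 - s ^ 2)) := by fun_prop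
  exact (h1.add h2.continuousOn).sub h3.continuousOn

theorem bdd {U : Set V} {r α β : ℝ} {l g : ℝ → ℝ} {R k X₀ : ℝ}
    (F : Frame U r α β l g R k X₀) {δ₀ : ℝ} (hδ : δ₀ < R - r) {x : ℝ}
    (hx : x ∈ Icc (-δ₀) δ₀) {φ : ℝ → ℝ} (hφ : Continuous φ) :
    BddBelow ((fun s => (g (x + s) + φ (x + s)) - √(r ^ 2 - s ^ 2)) '' Icc (-r) r) :=
  isCompact_Icc.bddBelow_image (cont_s F hδ hx hφ)

theorem contOn {U : Set V} {r α β : ℝ} {l g : ℝ → ℝ} {R k X₀ : ℝ}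
    (F : Frame U r α β l g R k X₀) {δ₀ : ℝ} (h0 : 0 < δ₀) (hδ : δ₀ < R - r)
    {φ : ℝ → ℝ} (hφ : Continuous φ) :
    ContinuousOn (gr (fun z => g z + φ z) r) (Icc (-δ₀) δ₀) := by
  have hr := F.good.r_pos
  have hle : -(δ₀ + r) ≤ δ₀ + r := by linarith
  set G : ℝ → ℝ := IccExtend hle ((Icc (-(δ₀ + r)) (δ₀ + r)).domRestrict g) with hG
  have hsub : Icc (-(δ₀ + r)) (δ₀ + r) ⊆ Ioo α β := fun y hy =>
    pt_mem F (by have := abs_le.2 ⟨hy.1, hy.2⟩; linarith)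
  have hGc : Continuous G :=
    ((contg F).mono hsub).domRestrict.Icc_extend'
  have hGe : ∀ y ∈ Icc (-(δ₀ + r)) (δ₀ + r), G y = g y := fun y hy =>
    IccExtend_of_mem hle _ hy
  have h1 : Continuous (fun x => sInf ((fun s => (G (x + s) + φ (x + s)) - √(r ^ 2 - s ^ 2)) ''
      Icc (-r) r)) := by
    apply isCompact_Icc.continuous_sInf
    simp only [Function.HasUncurry.uncurry, id]
    fun_prop
  refine h1.continuousOn.congr fun x hx => ?_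
  unfold gr
  congr 1
  refine image_congr fun s hs => ?_
  have : x + s ∈ Icc (-(δ₀ + r)) (δ₀ + r) := ⟨by linarith [hx.1, hs.1], by linarith [hx.2, hs.2]⟩
  simp only
  rw [hGe _ this]

end GRF

open GRF in
theorem t_GRF : S_GRF := by
  intro U r α β l g R k X₀ F δ₀ h0 hδ
  have hr := F.good.r_pos
  refine ⟨fun φ hφ => contOn F h0 hδ hφ, ?_, ?_⟩
  · intro φ₁ φ₂ h1 h2 θ hθ x hx
    have hne : ((fun s => (g (x + s) + ((1 - θ) * φ₁ (x + s) + θ * φ₂ (x + s)))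
        - √(r ^ 2 - s ^ 2)) '' Icc (-r) r).Nonempty :=
      (nonempty_Icc.2 (by linarith)).image _
    refine le_csInf hne ?_
    rintro _ ⟨s, hs, rfl⟩
    have e1 : gr (fun z => g z + φ₁ z) r x ≤ (g (x + s) + φ₁ (x + s)) - √(r ^ 2 - s ^ 2) :=
      csInf_le (bdd F hδ hx h1) ⟨s, hs, rfl⟩
    have e2 : gr (fun z => g z + φ₂ z) r x ≤ (g (x + s) + φ₂ (x + s)) - √(r ^ 2 - s ^ 2) :=
      csInf_le (bdd F hδ hx h2) ⟨s, hs, rfl⟩
    have e3 := mul_le_mul_of_nonneg_left e1 (sub_nonneg.2 hθ.2)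
    have e4 := mul_le_mul_of_nonneg_left e2 hθ.1
    show (1 - θ) * gr (fun z => g z + φ₁ z) r x + θ * gr (fun z => g z + φ₂ z) r x ≤
      (g (x + s) + ((1 - θ) * φ₁ (x + s) + θ * φ₂ (x + s))) - √(r ^ 2 - s ^ 2)
    nlinarith
  · intro φ hφ x hx X hX
    have hs : X - x ∈ Icc (-r) r := abs_le.1 hX.1
    have e1 : gr (fun z => g z + φ z) r x
        ≤ (g (x + (X - x)) + φ (x + (X - x))) - √(r ^ 2 - (X - x) ^ 2) :=
      csInf_le (bdd F hδ hx hφ) ⟨X - x, hs, rfl⟩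
    have e2 := hX.2
    have e3 : x + (X - x) = X := by ring
    rw [e3] at e1
    linarith

end Pool.Agent.H417R2.CH
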