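import Pool.Agent.H417R2.CH.Defs2

set_option autoImplicit false
open MeasureTheory Metric Set Filter Topology
open scoped ContDiff InnerProductSpace ENNReal NNReal

namespace Pool.Agent.H417R2.CH

theorem t_GZ : S_GZ := by
  intro v K hv
  have hp : LipschitzWith K (fun x => max (v x) 0) := hv.max_const 0
  have hm : LipschitzWith K (fun x => max (-v x) 0) := hv.neg.max_const 0
  filter_upwards [hp.ae_differentiableAt, hm.ae_differentiableAt] with x h1 h2 hx
  have e1 : fderiv ℝ (fun x => max (v x) 0) x = 0 := by
    apply IsLocalMin.fderiv_eq_zero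
    refine Filter.Eventually.of_forall fun y => ?_
    show max (v x) 0 ≤ max (v y) 0
    rw [hx, max_self]
    exact le_max_right _ _
  have e2 : fderiv ℝ (fun x => max (-v x) 0) x = 0 := by
    apply IsLocalMin.fderiv_eq_zero
    refine Filter.Eventually.of_forall fun y => ?_
    show max (-v x) 0 ≤ max (-v y) 0
    rw [hx, neg_zero, max_self]
    exact le_max_right _ _
  have e : v = fun y => max (v y) 0 - max (-v y) 0 := by
    funext y
    rcases le_total (v y) 0 with h | h
    · rw [max_eq_right h, max_eq_left (by linarith)]
      ring
    · rw [max_eq_left h, max_eq_right (by linarith)]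
      ring
  rw [e]
  have h3 := fderiv_fun_sub h1 h2
  rw [h3, e1, e2, sub_zero]

end Pool.Agent.H417R2.CH
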