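import Pool.Agent.H417R2.CH.Defs2

set_option autoImplicit false
open MeasureTheory Metric Set Filter Topology
open scoped ContDiff InnerProductSpace ENNReal NNReal

namespace Pool.Agent.H417R2.CH

open Pool.Agent.Helper546 (Tst lap)

namespace HADD

theorem memLp_test {U : Set V} {φ : V → ℝ} (h : Tst U φ) : MemLp φ 2 (volume : Measure V) :=
  h.1.continuous.memLp_of_hasCompactSupport h.2.1

theorem cont_grad {φ : V → ℝ} (h : ContDiff ℝ ∞ φ) : Continuous (gradient φ) := by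
  have h1 : Continuous (fderiv ℝ φ) := h.continuous_fderiv (by simp)
  exact (InnerProductSpace.toDual ℝ V).symm.continuous.comp h1

theorem supp_grad {φ : V → ℝ} (h : HasCompactSupport φ) : HasCompactSupport (gradient φ) := by
  have h1 : HasCompactSupport (fderiv ℝ φ) := h.fderiv (𝕜 := ℝ)
  exact h1.comp_left (g := fun L => (InnerProductSpace.toDual ℝ V).symm L) (map_zero _)

theorem memLp_grad {U : Set V} {φ : V → ℝ} (h : Tst U φ) :
    MemLp (gradient φ) 2 (volume : Measure V) :=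
  (cont_grad h.1).memLp_of_hasCompactSupport (supp_grad h.2.1)

theorem grad_comb {φ ψ : V → ℝ} (h : ContDiff ℝ ∞ φ) (h' : ContDiff ℝ ∞ ψ) (a b : ℝ) (x : V) :
    gradient (a • φ + b • ψ) x = a • gradient φ x + b • gradient ψ x := by
  have h1 : DifferentiableAt ℝ φ x := h.differentiable (by simp) x
  have h2 : DifferentiableAt ℝ ψ x := h'.differentiable (by simp) x
  unfold gradient
  rw [fderiv_add (h1.const_smul a) (h2.const_smul b), fderiv_const_smul h1, fderiv_const_smul h2,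
    map_add]
  congr 1
  · exact map_smul (InnerProductSpace.toDual ℝ V).symm.toLinearIsometry.toLinearMap a _
  · exact map_smul (InnerProductSpace.toDual ℝ V).symm.toLinearIsometry.toLinearMap b _

theorem sq_comb {E : Type*} [NormedAddCommGroup E] [NormedSpace ℝ E] (a b : ℝ) (X Y : E) :
    ‖a • X + b • Y‖ ^ 2 ≤ 2 * a ^ 2 * ‖X‖ ^ 2 + 2 * b ^ 2 * ‖Y‖ ^ 2 := by
  have h1 : ‖a • X + b • Y‖ ≤ |a| * ‖X‖ + |b| * ‖Y‖ := by
    refine (norm_add_le _ _).trans ?_
    rw [norm_smul, norm_smul, Real.norm_eq_abs, Real.norm_eq_abs]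
  have h2 : ‖a • X + b • Y‖ ^ 2 ≤ (|a| * ‖X‖ + |b| * ‖Y‖) ^ 2 :=
    pow_le_pow_left₀ (norm_nonneg _) h1 2
  have h3 : |a| ^ 2 = a ^ 2 := sq_abs a
  have h4 : |b| ^ 2 = b ^ 2 := sq_abs b
  nlinarith [sq_nonneg (|a| * ‖X‖ - |b| * ‖Y‖)]

theorem integral_comb {E : Type*} [NormedAddCommGroup E] [NormedSpace ℝ E] (a b : ℝ)
    (X Y : V → E) (hX : MemLp X 2 (volume : Measure V)) (hY : MemLp Y 2 (volume : Measure V)) :
    ∫ x, ‖a • X x + b • Y x‖ ^ 2 ≤
      2 * a ^ 2 * (∫ x, ‖X x‖ ^ 2) + 2 * b ^ 2 * (∫ x, ‖Y x‖ ^ 2) := by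
  have i1 : Integrable (fun x => ‖X x‖ ^ 2) (volume : Measure V) := (memLp_two_iff_integrable_sq_norm hX.1).mp hX
  have i2 : Integrable (fun x => ‖Y x‖ ^ 2) (volume : Measure V) := (memLp_two_iff_integrable_sq_norm hY.1).mp hY
  have i3 : Integrable (fun x => ‖a • X x + b • Y x‖ ^ 2) (volume : Measure V) :=
    (memLp_two_iff_integrable_sq_norm ((hX.const_smul a).add (hY.const_smul b)).1).mp
      ((hX.const_smul a).add (hY.const_smul b))
  rw [← integral_const_mul, ← integral_const_mul, ← integral_add (i1.const_mul _) (i2.const_mul _)]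
  exact integral_mono i3 ((i1.const_mul _).add (i2.const_mul _)) fun x => sq_comb a b (X x) (Y x)

theorem small (a b ε : ℝ) (hε : 0 < ε) : ∃ δ : ℝ, 0 < δ ∧ ∀ s t : ℝ, s < δ → t < δ →
    2 * a ^ 2 * s + 2 * b ^ 2 * t < ε := by
  refine ⟨ε / (2 * a ^ 2 + 2 * b ^ 2 + 1), by positivity, fun s t hs ht => ?_⟩
  have hD : 0 < 2 * a ^ 2 + 2 * b ^ 2 + 1 := by positivity
  rw [lt_div_iff₀ hD] at hs ht
  have h1 : 0 ≤ 2 * a ^ 2 := by positivity
  have h2 : 0 ≤ 2 * b ^ 2 := by positivity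
  set δ := ε / (2 * a ^ 2 + 2 * b ^ 2 + 1) with hδ
  have hδ0 : 0 < δ := by positivity
  have e : δ * (2 * a ^ 2 + 2 * b ^ 2 + 1) = ε := by
    rw [hδ]
    field_simp
  have hs' : s < δ := by
    rw [hδ, lt_div_iff₀ hD]; exact hs
  have ht' : t < δ := by
    rw [hδ, lt_div_iff₀ hD]; exact ht
  have h3 := mul_le_mul_of_nonneg_left hs'.le h1
  have h4 := mul_le_mul_of_nonneg_left ht'.le h2
  nlinarith

end HADD

theorem t_HADD : S_HADD := by
  refine ⟨?_, ?_⟩
  · intro U u v G K a b hu hv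
    refine ⟨?_, ?_, ?_⟩
    · exact (hu.memu.const_mul a).add (hv.memu.const_mul b)
    · exact (hu.memG.const_smul a).add (hv.memG.const_smul b)
    · intro ε hε
      obtain ⟨δ, hδ, hsm⟩ := HADD.small a b ε hε
      obtain ⟨φ, hφ, hφ1, hφ2⟩ := hu.approx δ hδ
      obtain ⟨ψ, hψ, hψ1, hψ2⟩ := hv.approx δ hδ
      refine ⟨a • φ + b • ψ, (hφ.smul a).add (hψ.smul b), ?_, ?_⟩
      · have h1 := HADD.integral_comb a b (fun x => u x - φ x) (fun x => v x - ψ x)
          (hu.memu.sub (HADD.memLp_test hφ)) (hv.memu.sub (HADD.memLp_test hψ))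
        simp only [Real.norm_eq_abs, sq_abs, smul_eq_mul] at h1
        have e : ∫ x, (a * u x + b * v x - (a • φ + b • ψ) x) ^ 2 =
            ∫ x, (a * (u x - φ x) + b * (v x - ψ x)) ^ 2 := by
          congr 1
          funext x
          simp only [Pi.add_apply, Pi.smul_apply, smul_eq_mul]
          ring
        rw [e]
        exact h1.trans_lt (hsm _ _ hφ1 hψ1)
      · have h1 := HADD.integral_comb a b (fun x => G x - gradient φ x)
          (fun x => K x - gradient ψ x)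
          (hu.memG.sub (HADD.memLp_grad hφ)) (hv.memG.sub (HADD.memLp_grad hψ))
        have e : ∫ x, ‖a • G x + b • K x - gradient (a • φ + b • ψ) x‖ ^ 2 =
            ∫ x, ‖a • (G x - gradient φ x) + b • (K x - gradient ψ x)‖ ^ 2 := by
          congr 1
          funext x
          rw [HADD.grad_comb hφ.1 hψ.1]
          congr 2
          rw [smul_sub, smul_sub]
          abel
        rw [e]
        exact h1.trans_lt (hsm _ _ hφ2 hψ2)
  · intro U U' u G hUU hu
    refine ⟨hu.memu, hu.memG, fun ε hε => ?_⟩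
    obtain ⟨φ, hφ, h1, h2⟩ := hu.approx ε hε
    exact ⟨φ, hφ.mono hUU, h1, h2⟩

end Pool.Agent.H417R2.CH
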