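import Pool.Agent.H417R2.CH.Defs2

/-!
Project CH (helper417), task HAT: hats at three bends.
-/

set_option autoImplicit false
open MeasureTheory Metric Set Filter Topology

namespace Pool.Agent.H417R2.CH

namespace HAT

/-- a ramp at `q` of width `δ` -/
structure Rp (k : ℝ → ℝ) (q c δ : ℝ) : Prop where
  cl : q - δ < c
  cr : c < q + δ
  z : ∀ x, x ≤ q - δ → k x = 0
  o : ∀ x, q + δ ≤ x → k x = x - c
  mo : ∀ x y, x ≤ y → 0 ≤ k y - k x ∧ k y - k x ≤ y - x

theorem Rp.nonneg {k : ℝ → ℝ} {q c δ : ℝ} (h : Rp k q c δ) (x : ℝ) : 0 ≤ k x := by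
  rcases le_total x (q - δ) with hx | hx
  · rw [h.z x hx]
  · have h1 := (h.mo _ _ hx).1
    rw [h.z _ le_rfl] at h1
    linarith

theorem Rp.ge {k : ℝ → ℝ} {q c δ : ℝ} (h : Rp k q c δ) (x : ℝ) : x - c ≤ k x := by
  rcases le_total (q + δ) x with hx | hx
  · rw [h.o x hx]
  · have h1 := (h.mo _ _ hx).2
    rw [h.o _ le_rfl] at h1
    linarith

theorem Rp.le {k : ℝ → ℝ} {q c δ : ℝ} (h : Rp k q c δ) {x : ℝ} (hx : q - δ ≤ x) :
    k x ≤ x - c + 2 * δ := by
  have h1 := (h.mo _ _ hx).2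
  rw [h.z _ le_rfl] at h1
  have := h.cr
  linarith

theorem Rp.le2 {k : ℝ → ℝ} {q c δ : ℝ} (h : Rp k q c δ) {x : ℝ} (hx : x ≤ q + δ) :
    k x ≤ 2 * δ := by
  have h1 := (h.mo _ _ hx).1
  rw [h.o _ le_rfl] at h1
  have := h.cl
  linarith

/-- comparison of slopes -/
theorem slope_le {L l ε H : ℝ} (hL : 0 < L) (hl : 0 < l) (hH : 0 ≤ H) (h : l ≤ (1 + ε) * L) :
    H / L ≤ (1 + ε) * (H / l) := by
  rw [← mul_div_assoc, div_le_div_iff₀ hL hl]
  calc H * l ≤ H * ((1 + ε) * L) := mul_le_mul_of_nonneg_left h hH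
    _ = (1 + ε) * H * L := by ring

theorem slope_ge {L l ε H : ℝ} (hL : 0 < L) (hl : 0 < l) (hH : 0 ≤ H) (h : (1 - ε) * L ≤ l) :
    (1 - ε) * (H / l) ≤ H / L := by
  rw [← mul_div_assoc, div_le_div_iff₀ hl hL]
  calc (1 - ε) * H * L = H * ((1 - ε) * L) := by ring
    _ ≤ H * l := mul_le_mul_of_nonneg_left h hH

theorem small_mul {δ ε p H : ℝ} (hδ : δ = ε ^ 2 / 16) (hε : 0 < ε) (h : p * (2 * ε) ≤ H) :
    δ * p ≤ ε * H / 32 := by
  have h1 : ε * (p * (2 * ε)) ≤ ε * H := mul_le_mul_of_nonneg_left h hε.le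
  have h2 : δ * p = ε * (p * (2 * ε)) / 32 := by rw [hδ]; ring
  rw [h2]
  linarith

theorem small_mul' {δ ε p H : ℝ} (hδ : δ = ε ^ 2 / 16) (hε : 0 < ε) (h : p * (4 * ε) ≤ H) :
    δ * p ≤ ε * H / 64 := by
  have h1 : ε * (p * (4 * ε)) ≤ ε * H := mul_le_mul_of_nonneg_left h hε.le
  have h2 : δ * p = ε * (p * (4 * ε)) / 64 := by rw [hδ]; ring
  rw [h2]
  linarith

/-- the opaque data -/
structure Dat (ka kb kd : ℝ → ℝ) (a b d ca cb cd δ ε H p r P R : ℝ) : Prop where
  Ra : Rp ka a ca δ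
  Rb : Rp kb b cb δ
  Rd : Rp kd d cd δ
  hδ0 : 0 < δ
  hδε : δ ≤ ε / 64
  hε : 0 < ε
  hε4 : ε < 1 / 4
  hab : a + 4 * ε < b
  hbd : b + 4 * ε < d
  hH0 : 0 < H
  hp0 : 0 < p
  hr0 : 0 < r
  hpH : p * (cb - ca) = H
  hrH : r * (cd - cb) = H
  hpδ : δ * p ≤ ε * H / 32
  hrδ : δ * r ≤ ε * H / 32
  hP0 : 0 < P
  hR0 : 0 < R
  hPH : P * (b - a) = H
  hRH : R * (d - b) = H
  hPδ : δ * P ≤ ε * H / 64
  hRδ : δ * R ≤ ε * H / 64
  hpP : p ≤ (1 + ε) * P
  hrR : r ≤ (1 + ε) * R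
  hPp : (1 - ε) * P ≤ p

/-- the function -/
def ph (ka kb kd : ℝ → ℝ) (p r x : ℝ) : ℝ := p * ka x - (p + r) * kb x + r * kd x

section
variable {ka kb kd : ℝ → ℝ} {a b d ca cb cd δ ε H p r P R : ℝ}

theorem v0 (D : Dat ka kb kd a b d ca cb cd δ ε H p r P R) (x : ℝ) (hx : x ≤ a - δ) :
    ph ka kb kd p r x = 0 := by
  have h1 := D.hab
  have h2 := D.hbd
  have h3 := D.hε
  have h4 := D.hδε
  unfold ph
  rw [D.Ra.z x hx, D.Rb.z x (by linarith), D.Rd.z x (by linarith)]; ring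

theorem v1 (D : Dat ka kb kd a b d ca cb cd δ ε H p r P R) (x : ℝ) (hx : x ≤ b - δ) :
    ph ka kb kd p r x = p * ka x := by
  have h2 := D.hbd
  have h3 := D.hε
  have h4 := D.hδε
  unfold ph
  rw [D.Rb.z x hx, D.Rd.z x (by linarith)]; ring

theorem v2 (D : Dat ka kb kd a b d ca cb cd δ ε H p r P R) (x : ℝ) (hx : x ≤ d - δ) :
    ph ka kb kd p r x = p * ka x - (p + r) * kb x := by
  unfold ph
  rw [D.Rd.z x hx]; ring

theorem v3 (D : Dat ka kb kd a b d ca cb cd δ ε H p r P R) (x : ℝ) (hx : b + δ ≤ x) :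
    ph ka kb kd p r x = r * (cd - x + kd x) := by
  have h1 := D.hab
  have h3 := D.hε
  unfold ph
  rw [D.Ra.o x (by linarith), D.Rb.o x hx]
  linear_combination D.hpH - D.hrH

theorem v4 (D : Dat ka kb kd a b d ca cb cd δ ε H p r P R) (x : ℝ) (hx : d + δ ≤ x) :
    ph ka kb kd p r x = 0 := by
  have h2 := D.hbd
  have h3 := D.hε
  rw [v3 D x (by linarith), D.Rd.o x hx]; ring

theorem v5 (D : Dat ka kb kd a b d ca cb cd δ ε H p r P R) (x : ℝ) (hx : a + δ ≤ x) :
    ph ka kb kd p r x = r * (cd - x) - (p + r) * (kb x - (x - cb)) + r * kd x := by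
  unfold ph
  rw [D.Ra.o x hx]
  linear_combination D.hpH - D.hrH

theorem nonneg (D : Dat ka kb kd a b d ca cb cd δ ε H p r P R) (x : ℝ) :
    0 ≤ ph ka kb kd p r x := by
  have hp0 := D.hp0
  have hr0 := D.hr0
  have h1 := D.hab
  have h2 := D.hbd
  have h3 := D.hε
  have h4 := D.hδε
  have h4' := D.hδ0
  rcases le_total x (b - δ) with hx | hx
  · rw [v1 D x hx]
    exact mul_nonneg hp0.le (D.Ra.nonneg x)
  rcases le_total x (b + δ) with hx' | hx'
  · rw [v2 D x (by linarith), D.Ra.o x (by linarith)]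
    have k1 := D.Rb.le2 hx'
    have k2 : (p + r) * kb x ≤ (p + r) * (2 * δ) :=
      mul_le_mul_of_nonneg_left k1 (by linarith)
    have k3 : p * (x - ca) = H + p * (x - cb) := by linear_combination D.hpH
    have k5 := D.Rb.cr
    have k4 : p * (-(2 * δ)) ≤ p * (x - cb) :=
      mul_le_mul_of_nonneg_left (by linarith) hp0.le
    have k6 := D.hpδ
    have k7 := D.hrδ
    have k8 : ε * H ≤ H / 4 := by
      have := mul_le_mul_of_nonneg_right D.hε4.le D.hH0.le
      linarith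
    have k9 := D.hH0
    linarith
  · rw [v3 D x hx']
    have := D.Rd.ge x
    exact mul_nonneg hr0.le (by linarith)

theorem hatL (D : Dat ka kb kd a b d ca cb cd δ ε H p r P R) (hP : P = H / (b - a))
    (x : ℝ) (hx : x ≤ b) : H * hat a b d x = max 0 (P * (x - a)) := by
  have h1 := D.hab
  have h2 := D.hbd
  have h3 := D.hε
  have hl1 : 0 < b - a := by linarith
  have hl3 : 0 < d - b := by linarith
  unfold hat
  have h1 : (x - a) / (b - a) ≤ (d - x) / (d - b) := by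
    rw [div_le_div_iff₀ hl1 hl3]
    have : 0 ≤ (b - x) * (d - a) := mul_nonneg (by linarith) (by linarith)
    linarith
  rw [min_eq_left h1, mul_max_of_nonneg _ _ D.hH0.le, mul_zero]
  congr 1
  rw [hP]; ring

theorem hatR (D : Dat ka kb kd a b d ca cb cd δ ε H p r P R) (hR : R = H / (d - b))
    (x : ℝ) (hx : b ≤ x) : H * hat a b d x = max 0 (R * (d - x)) := by
  have h1 := D.hab
  have h2 := D.hbd
  have h3 := D.hε
  have hl1 : 0 < b - a := by linarith
  have hl3 : 0 < d - b := by linarith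
  unfold hat
  have h1 : (d - x) / (d - b) ≤ (x - a) / (b - a) := by
    rw [div_le_div_iff₀ hl3 hl1]
    have : 0 ≤ (x - b) * (d - a) := mul_nonneg (by linarith) (by linarith)
    linarith
  rw [min_eq_right h1, mul_max_of_nonneg _ _ D.hH0.le, mul_zero]
  congr 1
  rw [hR]; ring

theorem dif_le {p P L l δ x : ℝ} (hp : 0 < p) (hl : 0 < l) (e : p * L = P * l)
    (h1 : |l - L| ≤ 2 * δ) (hx : |x| ≤ l) : |(p - P) * x| ≤ 2 * δ * p := by
  have h2 : |(p - P) * l| ≤ 2 * δ * p := by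
    have e1 : (p - P) * l = p * (l - L) := by linear_combination e
    rw [e1, abs_mul, abs_of_pos hp, mul_comm]
    exact mul_le_mul_of_nonneg_right h1 hp.le
  refine le_trans ?_ h2
  rw [abs_mul, abs_mul]
  refine mul_le_mul_of_nonneg_left ?_ (abs_nonneg _)
  rwa [abs_of_pos hl]

theorem near (D : Dat ka kb kd a b d ca cb cd δ ε H p r P R) (hP : P = H / (b - a))
    (hR : R = H / (d - b)) (x : ℝ) : |ph ka kb kd p r x - H * hat a b d x| ≤ ε * H := by
  have hp0 := D.hp0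
  have hr0 := D.hr0
  have h1 := D.hab
  have h2 := D.hbd
  have h3 := D.hε
  have h4 := D.hδε
  have h4' := D.hδ0
  have hl1 : 0 < b - a := by linarith
  have hl3 : 0 < d - b := by linarith
  have heps : 0 < ε * H := mul_pos D.hε D.hH0
  have hPδ := D.hPδ
  have hRδ := D.hRδ
  have hpδ := D.hpδ
  have hrδ := D.hrδ
  have c1 := D.Ra.cl
  have c2 := D.Ra.cr
  have c3 := D.Rb.cl
  have c4 := D.Rb.cr
  have c5 := D.Rd.cl
  have c6 := D.Rd.cr
  rcases le_total x (a - δ) with hx | hx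
  · rw [v0 D x hx, hatL D hP x (by linarith), max_eq_left]
    · simp; positivity
    · exact mul_nonpos_of_nonneg_of_nonpos D.hP0.le (by linarith)
  rcases le_total x b with hx1 | hx1
  · rw [v2 D x (by linarith), hatL D hP x hx1]
    have k1 := D.Ra.ge x
    have k2 := D.Ra.le hx
    have k3 := D.Rb.nonneg x
    have k4 := D.Rb.le2 (x := x) (by linarith)
    have m1 : P * (x - a) ≤ max 0 (P * (x - a)) := le_max_right _ _
    have m3 : P * (-δ) ≤ P * (x - a) := mul_le_mul_of_nonneg_left (by linarith) D.hP0.le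
    have m4 : 0 ≤ P * δ := mul_nonneg D.hP0.le h4'.le
    have m2 : max 0 (P * (x - a)) ≤ P * (x - a) + P * δ := by
      refine max_le ?_ ?_ <;> linarith
    have n1 : |(p - P) * (x - a)| ≤ 2 * δ * p := by
      refine dif_le (L := cb - ca) (l := b - a) hp0 hl1 (by rw [D.hpH, D.hPH]) ?_ ?_
      · rw [abs_le]; constructor <;> linarith
      · rw [abs_le]; constructor <;> linarith
    have n2 := abs_le.1 n1
    have n3 : p * (x - ca) ≤ p * ka x := mul_le_mul_of_nonneg_left k1 hp0.le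
    have n4 : p * ka x ≤ p * (x - ca + 2 * δ) := mul_le_mul_of_nonneg_left k2 hp0.le
    have n5 : 0 ≤ (p + r) * kb x := mul_nonneg (by linarith) k3
    have n6 : (p + r) * kb x ≤ (p + r) * (2 * δ) := mul_le_mul_of_nonneg_left k4 (by linarith)
    have n7 : p * (a - ca) ≤ p * δ := mul_le_mul_of_nonneg_left (by linarith) hp0.le
    have n8 : p * (-δ) ≤ p * (a - ca) := mul_le_mul_of_nonneg_left (by linarith) hp0.le
    rw [abs_le]
    constructor <;> linarith
  rcases le_total x (d + δ) with hx2 | hx2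
  · rw [v5 D x (by linarith), hatR D hR x hx1]
    have k1 := D.Rb.ge x
    have k2 := D.Rb.le (x := x) (by linarith)
    have k3 := D.Rd.nonneg x
    have k4 := D.Rd.le2 hx2
    have m1 : R * (d - x) ≤ max 0 (R * (d - x)) := le_max_right _ _
    have m3 : R * (-δ) ≤ R * (d - x) := mul_le_mul_of_nonneg_left (by linarith) D.hR0.le
    have m4 : 0 ≤ R * δ := mul_nonneg D.hR0.le h4'.le
    have m2 : max 0 (R * (d - x)) ≤ R * (d - x) + R * δ := by
      refine max_le ?_ ?_ <;> linarith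
    have n1 : |(r - R) * (d - x)| ≤ 2 * δ * r := by
      refine dif_le (L := cd - cb) (l := d - b) hr0 hl3 (by rw [D.hrH, D.hRH]) ?_ ?_
      · rw [abs_le]; constructor <;> linarith
      · rw [abs_le]; constructor <;> linarith
    have n2 := abs_le.1 n1
    have n3 : 0 ≤ (p + r) * (kb x - (x - cb)) := mul_nonneg (by linarith) (by linarith)
    have n4 : (p + r) * (kb x - (x - cb)) ≤ (p + r) * (2 * δ) :=
      mul_le_mul_of_nonneg_left (by linarith) (by linarith)
    have n5 : 0 ≤ r * kd x := mul_nonneg hr0.le k3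
    have n6 : r * kd x ≤ r * (2 * δ) := mul_le_mul_of_nonneg_left k4 hr0.le
    have n7 : r * (cd - d) ≤ r * δ := mul_le_mul_of_nonneg_left (by linarith) hr0.le
    have n8 : r * (-δ) ≤ r * (cd - d) := mul_le_mul_of_nonneg_left (by linarith) hr0.le
    rw [abs_le]
    constructor <;> linarith
  · rw [v4 D x hx2, hatR D hR x (by linarith), max_eq_left]
    · simp; positivity
    · exact mul_nonpos_of_nonneg_of_nonpos D.hR0.le (by linarith)

theorem lipL (D : Dat ka kb kd a b d ca cb cd δ ε H p r P R) (x y : ℝ) (hx : x ≤ b + ε)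
    (hy : y ≤ b + ε) :
    |ph ka kb kd p r x - ph ka kb kd p r y| ≤ (1 + ε) * max P R * |x - y| := by
  have hp0 := D.hp0
  have hr0 := D.hr0
  have h1 := D.hab
  have h2 := D.hbd
  have h3 := D.hε
  have h4 := D.hδε
  have h4' := D.hδ0
  have s1 : ∀ x y, x ≤ y → y ≤ b - δ → 0 ≤ ph ka kb kd p r y - ph ka kb kd p r x ∧
      ph ka kb kd p r y - ph ka kb kd p r x ≤ p * (y - x) := by
    intro x y hxy hy
    rw [v1 D x (by linarith), v1 D y hy, ← mul_sub]
    have := D.Ra.mo x y hxy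
    exact ⟨mul_nonneg hp0.le this.1, mul_le_mul_of_nonneg_left this.2 hp0.le⟩
  have s2 : ∀ x y, x ≤ y → a + δ ≤ x → y ≤ b + ε →
      -(r * (y - x)) ≤ ph ka kb kd p r y - ph ka kb kd p r x ∧
      ph ka kb kd p r y - ph ka kb kd p r x ≤ p * (y - x) := by
    intro x y hxy hx hy
    rw [v2 D x (by linarith), v2 D y (by linarith), D.Ra.o x hx, D.Ra.o y (by linarith)]
    have := D.Rb.mo x y hxy
    have t1 : 0 ≤ (p + r) * (kb y - kb x) := mul_nonneg (by linarith) this.1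
    have t2 : (p + r) * (kb y - kb x) ≤ (p + r) * (y - x) :=
      mul_le_mul_of_nonneg_left this.2 (by linarith)
    constructor <;> linarith
  have key : ∀ x y, x ≤ y → y ≤ b + ε →
      |ph ka kb kd p r y - ph ka kb kd p r x| ≤ (1 + ε) * max P R * (y - x) := by
    intro x y hxy hy
    have hM1 : p ≤ (1 + ε) * max P R :=
      D.hpP.trans (mul_le_mul_of_nonneg_left (le_max_left _ _) (by linarith))
    have hM3 : r ≤ (1 + ε) * max P R :=
      D.hrR.trans (mul_le_mul_of_nonneg_left (le_max_right _ _) (by linarith))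
    have s3 : -(r * (y - x)) ≤ ph ka kb kd p r y - ph ka kb kd p r x ∧
        ph ka kb kd p r y - ph ka kb kd p r x ≤ p * (y - x) := by
      rcases le_total y (b - δ) with g1 | g1
      · have := s1 x y hxy g1
        have g2 : 0 ≤ r * (y - x) := mul_nonneg hr0.le (by linarith)
        exact ⟨by linarith, this.2⟩
      rcases le_total (a + δ) x with g2 | g2
      · exact s2 x y hxy g2 hy
      · have e1 := s1 x (a + δ) g2 (by linarith)
        have e2 := s2 (a + δ) y (by linarith) le_rfl hy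
        have g3 : 0 ≤ r * (a + δ - x) := mul_nonneg hr0.le (by linarith)
        constructor <;> linarith
    have hyx : 0 ≤ y - x := by linarith
    have q1 := mul_le_mul_of_nonneg_right hM1 hyx
    have q2 := mul_le_mul_of_nonneg_right hM3 hyx
    rw [abs_le]
    constructor <;> linarith
  rcases le_total x y with hxy | hxy
  · have := key x y hxy hy
    rw [abs_sub_comm, abs_sub_comm x y, abs_of_nonneg (by linarith : (0:ℝ) ≤ y - x)]
    exact this
  · have := key y x hxy hx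
    rw [abs_of_nonneg (by linarith : (0:ℝ) ≤ x - y)]
    exact this

theorem lipR (D : Dat ka kb kd a b d ca cb cd δ ε H p r P R) (x y : ℝ) (hx : b + ε ≤ x)
    (hy : b + ε ≤ y) :
    |ph ka kb kd p r x - ph ka kb kd p r y| ≤ (1 + ε) * R * |x - y| := by
  have hr0 := D.hr0
  have h3 := D.hε
  have h4 := D.hδε
  have hR0 := D.hR0
  have key : ∀ x y, x ≤ y → b + ε ≤ x →
      |ph ka kb kd p r y - ph ka kb kd p r x| ≤ (1 + ε) * R * (y - x) := by
    intro x y hxy hx
    rw [v3 D x (by linarith), v3 D y (by linarith), ← mul_sub]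
    have := D.Rd.mo x y hxy
    have hyx : 0 ≤ y - x := by linarith
    have t1 : r * (-(y - x)) ≤ r * (cd - y + kd y - (cd - x + kd x)) :=
      mul_le_mul_of_nonneg_left (by linarith) hr0.le
    have t2 : r * (cd - y + kd y - (cd - x + kd x)) ≤ 0 := by
      have : cd - y + kd y - (cd - x + kd x) ≤ 0 := by linarith
      exact mul_nonpos_of_nonneg_of_nonpos hr0.le this
    have t3 := mul_le_mul_of_nonneg_right D.hrR hyx
    rw [abs_le]
    have t4 : 0 ≤ (1 + ε) * R * (y - x) := by positivity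
    constructor <;> linarith
  rcases le_total x y with hxy | hxy
  · have := key x y hxy hx
    rw [abs_sub_comm, abs_sub_comm x y, abs_of_nonneg (by linarith : (0:ℝ) ≤ y - x)]
    exact this
  · have := key y x hxy hy
    rw [abs_of_nonneg (by linarith : (0:ℝ) ≤ x - y)]
    exact this

theorem aff (D : Dat ka kb kd a b d ca cb cd δ ε H p r P R) (x : ℝ)
    (hx : x ∈ Icc (a + ε) (b - ε)) (y : ℝ) (hy : y ∈ Icc (a + ε) (b - ε)) :
    ph ka kb kd p r x - ph ka kb kd p r y = p * (x - y) := by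
  have h3 := D.hε
  have h4 := D.hδε
  rw [v1 D x (by linarith [hx.2]), v1 D y (by linarith [hy.2]), D.Ra.o x (by linarith [hx.1]),
    D.Ra.o y (by linarith [hy.1])]
  ring

end

/-- all the numerical facts -/
theorem mkDat {ka kb kd : ℝ → ℝ} {a b d ca cb cd δ ε H : ℝ} (Ra : Rp ka a ca δ)
    (Rb : Rp kb b cb δ) (Rd : Rp kd d cd δ) (hδ : δ = ε ^ 2 / 16) (hε : 0 < ε) (hε4 : ε < 1 / 4)
    (hab : a + 4 * ε < b) (hbd : b + 4 * ε < d) (hH0 : 0 < H) :
    Dat ka kb kd a b d ca cb cd δ ε H (H / (cb - ca)) (H / (cd - cb)) (H / (b - a))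
      (H / (d - b)) := by
  have hδ0 : 0 < δ := by rw [hδ]; positivity
  have hδ4 : δ ≤ ε * ε / 16 := by rw [hδ]; linarith [sq ε]
  have hee : ε * ε ≤ ε * (1 / 4) := mul_le_mul_of_nonneg_left hε4.le hε.le
  have hδε : δ ≤ ε / 64 := by linarith
  have c1 := Ra.cl
  have c2 := Ra.cr
  have c3 := Rb.cl
  have c4 := Rb.cr
  have c5 := Rd.cl
  have c6 := Rd.cr
  have hL1 : 2 * ε < cb - ca := by linarith
  have hL3 : 2 * ε < cd - cb := by linarith
  have hL1' : 0 < cb - ca := by linarith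
  have hL3' : 0 < cd - cb := by linarith
  have hl1 : 0 < b - a := by linarith
  have hl3 : 0 < d - b := by linarith
  have e1 : ε * (2 * ε) ≤ ε * (cb - ca) := mul_le_mul_of_nonneg_left hL1.le hε.le
  have e3 : ε * (2 * ε) ≤ ε * (cd - cb) := mul_le_mul_of_nonneg_left hL3.le hε.le
  have hee0 : 0 < ε * ε := mul_pos hε hε
  refine ⟨Ra, Rb, Rd, hδ0, hδε, hε, hε4, hab, hbd, hH0, div_pos hH0 hL1', div_pos hH0 hL3',
    div_mul_cancel₀ _ hL1'.ne', div_mul_cancel₀ _ hL3'.ne', ?_, ?_, div_pos hH0 hl1,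
    div_pos hH0 hl3, div_mul_cancel₀ _ hl1.ne', div_mul_cancel₀ _ hl3.ne', ?_, ?_, ?_, ?_, ?_⟩
  · refine small_mul hδ hε ?_
    calc H / (cb - ca) * (2 * ε) ≤ H / (cb - ca) * (cb - ca) :=
          mul_le_mul_of_nonneg_left hL1.le (div_pos hH0 hL1').le
      _ = H := div_mul_cancel₀ _ hL1'.ne'
  · refine small_mul hδ hε ?_
    calc H / (cd - cb) * (2 * ε) ≤ H / (cd - cb) * (cd - cb) :=
          mul_le_mul_of_nonneg_left hL3.le (div_pos hH0 hL3').le
      _ = H := div_mul_cancel₀ _ hL3'.ne'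
  · refine small_mul' hδ hε ?_
    calc H / (b - a) * (4 * ε) ≤ H / (b - a) * (b - a) :=
          mul_le_mul_of_nonneg_left (by linarith) (div_pos hH0 hl1).le
      _ = H := div_mul_cancel₀ _ hl1.ne'
  · refine small_mul' hδ hε ?_
    calc H / (d - b) * (4 * ε) ≤ H / (d - b) * (d - b) :=
          mul_le_mul_of_nonneg_left (by linarith) (div_pos hH0 hl3).le
      _ = H := div_mul_cancel₀ _ hl3.ne'
  · exact slope_le hL1' hl1 hH0.le (by linarith)
  · exact slope_le hL3' hl3 hH0.le (by linarith)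
  · exact slope_ge hL1' hl1 hH0.le (by linarith)

theorem two_le {L ε m H : ℝ} (hε : 0 < ε) (hL : 2 * ε < L) (hH0 : 0 < H) (hH : H ≤ m * ε) :
    2 * (H / L) ≤ m := by
  have hL' : 0 < L := by linarith
  have h1 : H / L * (2 * ε) ≤ H := by
    calc H / L * (2 * ε) ≤ H / L * L := mul_le_mul_of_nonneg_left hL.le (div_pos hH0 hL').le
      _ = H := div_mul_cancel₀ _ hL'.ne'
  have : 2 * (H / L) * ε ≤ m * ε := by linarith
  exact le_of_mul_le_mul_right this hε

end HAT

open HAT in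
theorem t_HAT (h : S_RMP) : S_HAT := by
  intro α β g hg a b d ε hε hε4 ha hab hbd hd Ba Bb Bd
  obtain ⟨δ, hδ⟩ : ∃ δ : ℝ, δ = ε ^ 2 / 16 := ⟨_, rfl⟩
  have hδ0 : 0 < δ := by rw [hδ]; positivity
  have hδ4 : δ ≤ ε * ε / 16 := by rw [hδ]; linarith [sq ε]
  have hee : ε * ε ≤ ε * (1 / 4) := mul_le_mul_of_nonneg_left hε4.le hε.le
  have hδε : δ ≤ ε / 64 := by linarith
  obtain ⟨ka, ca, ma, hma, a1, a2, a3, a4, a5, a6, a7⟩ := h α β g hg a δ hδ0 (by linarith)
    (by linarith) Ba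
  obtain ⟨kb, cb, mb, hmb, b1, b2, b3, b4, b5, b6, b7⟩ := h α β g hg b δ hδ0 (by linarith)
    (by linarith) Bb
  obtain ⟨kd, cd, md, hmd, d1, d2, d3, d4, d5, d6, d7⟩ := h α β g hg d δ hδ0 (by linarith)
    (by linarith) Bd
  obtain ⟨H, hH⟩ : ∃ H : ℝ, H = min ma (min mb md) * ε := ⟨_, rfl⟩
  have hmin : 0 < min ma (min mb md) := lt_min hma (lt_min hmb hmd)
  have hH0 : 0 < H := by rw [hH]; exact mul_pos hmin hε
  have hHa : H ≤ ma * ε := by rw [hH]; exact mul_le_mul_of_nonneg_right (min_le_left _ _) hε.le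
  have hHb : H ≤ mb * ε := by
    rw [hH]
    exact mul_le_mul_of_nonneg_right ((min_le_right _ _).trans (min_le_left _ _)) hε.le
  have hHd : H ≤ md * ε := by
    rw [hH]
    exact mul_le_mul_of_nonneg_right ((min_le_right _ _).trans (min_le_right _ _)) hε.le
  have D := mkDat ⟨a1, a2, a3, a4, a6⟩ ⟨b1, b2, b3, b4, b6⟩ ⟨d1, d2, d3, d4, d6⟩ hδ hε hε4
    hab hbd hH0
  have hpa := two_le hε (by linarith : 2 * ε < cb - ca) hH0 hHa
  have hpb := two_le hε (by linarith : 2 * ε < cb - ca) hH0 hHb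
  have hrb := two_le hε (by linarith : 2 * ε < cd - cb) hH0 hHb
  have hrd := two_le hε (by linarith : 2 * ε < cd - cb) hH0 hHd
  have hp0 := D.hp0
  have hr0 := D.hr0
  obtain ⟨p, hp⟩ : ∃ p : ℝ, p = H / (cb - ca) := ⟨_, rfl⟩
  obtain ⟨r, hr⟩ : ∃ r : ℝ, r = H / (cd - cb) := ⟨_, rfl⟩
  rw [← hp] at D hpa hpb hp0
  rw [← hr] at D hrb hrd hr0
  clear hp hr hH hmin hHa hHb hHd hδ4 hee
  refine ⟨ph ka kb kd p r, H, ⟨ha, hd, by linarith, ?_, ?_, ?_⟩,
    ⟨hH0, nonneg D, near D rfl rfl, lipL D, lipR D, ⟨p, D.hPp, aff D⟩⟩⟩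
  · -- zero
    intro x hx
    rw [mem_Ioo, not_and_or, not_lt, not_lt] at hx
    rcases hx with hx | hx
    · exact v0 D x (by linarith)
    · exact v4 D x (by linarith)
  · -- plus
    have c1 := (a7 (2 * p) (by linarith) hpa).smul (c := (1/2 : ℝ)) (by norm_num)
    have c2 := (d7 (2 * r) (by linarith) hrd).smul (c := (1/2 : ℝ)) (by norm_num)
    have c3 := ((b5.subset (subset_univ _) (convex_Ioo α β)).neg).smul
      (c := p + r) (by linarith)
    refine ((c1.add c2).add c3).congr (fun x _ => ?_)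
    simp only [ph, Pi.add_apply, Pi.smul_apply, Pi.neg_apply, smul_eq_mul]
    ring
  · -- minus
    have c1 := b7 (p + r) (by linarith) (by linarith)
    have c2 := ((a5.subset (subset_univ _) (convex_Ioo α β)).neg).smul (c := p) hp0.le
    have c3 := ((d5.subset (subset_univ _) (convex_Ioo α β)).neg).smul (c := r) hr0.le
    refine ((c1.add c2).add c3).congr (fun x _ => ?_)
    simp only [ph, Pi.add_apply, Pi.smul_apply, Pi.neg_apply, smul_eq_mul]
    ring

end Pool.Agent.H417R2.CH
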