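import Pool.Agent.H417R2.CH.Defs2

set_option autoImplicit false
open MeasureTheory Metric Set Filter Topology
open scoped ContDiff InnerProductSpace ENNReal NNReal

namespace Pool.Agent.H417R2.CH

open Pool.Agent.Helper546 (Tst lap)

namespace HLAM

/-- comparison of two `L²` norms -/
theorem sq_le {E : Type} [NormedAddCommGroup E] {f g : V → E} (hf : MemLp f 2 (volume : Measure V))
    (hg : MemLp g 2 (volume : Measure V)) {δ : ℝ} (hδ : 0 < δ) :
    ∫ x, ‖f x‖ ^ 2 ≤ (1 + δ) * (∫ x, ‖g x‖ ^ 2) + (1 + 1 / δ) * ∫ x, ‖f x - g x‖ ^ 2 := by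
  have h1 : Integrable (fun x => ‖f x‖ ^ 2) (volume : Measure V) := hf.integrable_norm_pow (by norm_num)
  have h2 : Integrable (fun x => ‖g x‖ ^ 2) (volume : Measure V) := hg.integrable_norm_pow (by norm_num)
  have h3 : Integrable (fun x => ‖f x - g x‖ ^ 2) (volume : Measure V) :=
    (hf.sub hg).integrable_norm_pow (by norm_num)
  rw [← integral_const_mul, ← integral_const_mul, ← integral_add (h2.const_mul _) (h3.const_mul _)]
  refine integral_mono h1 ((h2.const_mul _).add (h3.const_mul _)) fun x => ?_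
  obtain ⟨a, ha⟩ : ∃ a, a = ‖g x‖ := ⟨_, rfl⟩
  obtain ⟨b, hb⟩ : ∃ b, b = ‖f x - g x‖ := ⟨_, rfl⟩
  obtain ⟨c, hc⟩ : ∃ c, c = ‖f x‖ := ⟨_, rfl⟩
  have h4 : c ≤ a + b := by
    rw [ha, hb, hc]
    have := norm_add_le (g x) (f x - g x)
    rwa [add_sub_cancel] at this
  have ha0 : 0 ≤ a := ha ▸ norm_nonneg _
  have hb0 : 0 ≤ b := hb ▸ norm_nonneg _
  have hc0 : 0 ≤ c := hc ▸ norm_nonneg _
  show ‖f x‖ ^ 2 ≤ (1 + δ) * ‖g x‖ ^ 2 + (1 + 1 / δ) * ‖f x - g x‖ ^ 2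
  rw [← ha, ← hb, ← hc]
  have h5 : c ^ 2 ≤ (a + b) ^ 2 := pow_le_pow_left₀ hc0 h4 2
  have h6 : 2 * a * b ≤ δ * a ^ 2 + (1 / δ) * b ^ 2 := by
    have h7 : 0 ≤ (1 / δ) * (δ * a - b) ^ 2 := by positivity
    have h8 : (1 / δ) * (δ * a - b) ^ 2 = δ * a ^ 2 - 2 * a * b + (1 / δ) * b ^ 2 := by
      field_simp
      ring
    linarith
  nlinarith

theorem memLp_grad {U : Set V} {φ : V → ℝ} (hφ : Tst U φ) :
    MemLp (gradient φ) 2 (volume : Measure V) := by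
  have hc : Continuous (gradient φ) :=
    (LinearIsometryEquiv.continuous _).comp (hφ.1.continuous_fderiv (by simp))
  refine hc.memLp_of_hasCompactSupport ?_
  exact (hφ.2.1.fderiv ℝ).comp_left (g := (InnerProductSpace.toDual ℝ V).symm) (map_zero _)

theorem lam_nonneg (U : Set V) : 0 ≤ lam U := by
  refine Real.sInf_nonneg ?_
  rintro c ⟨u, -, rfl⟩
  exact div_nonneg (integral_nonneg fun x => by positivity) (integral_nonneg fun x => by positivity)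

theorem tst_le {U : Set V} {φ : V → ℝ} (hφ : Tst U φ) :
    lam U * ∫ x, φ x ^ 2 ≤ ∫ x, ‖gradient φ x‖ ^ 2 := by
  have h0 : ∀ x, ‖gradient φ x‖ = ‖fderiv ℝ φ x‖ := fun x => by
    rw [gradient, LinearIsometryEquiv.norm_map]
  simp_rw [h0]
  have hn : 0 ≤ ∫ x, ‖fderiv ℝ φ x‖ ^ 2 := integral_nonneg fun x => by positivity
  have hn2 : 0 ≤ ∫ x, φ x ^ 2 := integral_nonneg fun x => by positivity
  rcases hn2.eq_or_lt with h1 | h1
  · rw [← h1, mul_zero]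
    exact hn
  · have hne : ∃ x, φ x ≠ 0 := by
      by_contra h
      push Not at h
      simp [h] at h1
    have h2 : lam U ≤ (∫ x, ‖fderiv ℝ φ x‖ ^ 2) / ∫ x, φ x ^ 2 := by
      refine csInf_le ⟨0, ?_⟩ ⟨φ, ⟨hφ.1, hφ.2.1, hφ.2.2, hne⟩, rfl⟩
      rintro c ⟨u, -, rfl⟩
      exact div_nonneg (integral_nonneg fun x => by positivity)
        (integral_nonneg fun x => by positivity)
    rwa [le_div_iff₀ h1] at h2

end HLAM

open HLAM in
theorem t_HLAM : S_HLAM := by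
  intro U _ _
  refine ⟨lam_nonneg U, fun u G hu => ?_⟩
  obtain ⟨A, hA⟩ : ∃ A, A = ∫ x, ‖G x‖ ^ 2 := ⟨_, rfl⟩
  obtain ⟨L, hL⟩ : ∃ L, L = lam U * ∫ x, u x ^ 2 := ⟨_, rfl⟩
  have hA0 : 0 ≤ A := hA ▸ integral_nonneg fun x => by positivity
  have hl0 := lam_nonneg U
  rw [← hA, ← hL]
  have key : ∀ δ : ℝ, 0 < δ → δ ≤ 1 → L ≤ A + δ * (3 * A + 4 + 2 * lam U) := by
    intro δ hδ hδ1
    obtain ⟨φ, hφ, h1, h2⟩ := hu.approx (δ ^ 2) (by positivity)
    have hφ2 : MemLp φ 2 (volume : Measure V) :=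
      hφ.1.continuous.memLp_of_hasCompactSupport hφ.2.1
    have h3 := sq_le hu.memu hφ2 hδ
    have h4 := sq_le (memLp_grad hφ) hu.memG hδ
    simp only [Real.norm_eq_abs, sq_abs] at h3
    have h5 : ∀ x, ‖gradient φ x - G x‖ = ‖G x - gradient φ x‖ := fun x => norm_sub_rev _ _
    simp_rw [h5] at h4
    have h6 := tst_le hφ
    obtain ⟨p, hp⟩ : ∃ p, p = ∫ x, φ x ^ 2 := ⟨_, rfl⟩
    obtain ⟨g, hg⟩ : ∃ g, g = ∫ x, ‖gradient φ x‖ ^ 2 := ⟨_, rfl⟩
    obtain ⟨e, he⟩ : ∃ e, e = ∫ x, (u x - φ x) ^ 2 := ⟨_, rfl⟩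
    obtain ⟨e', he'⟩ : ∃ e', e' = ∫ x, ‖G x - gradient φ x‖ ^ 2 := ⟨_, rfl⟩
    have he0 : 0 ≤ e := he ▸ integral_nonneg fun x => by positivity
    have he0' : 0 ≤ e' := he' ▸ integral_nonneg fun x => by positivity
    rw [← hp, ← he] at h3
    rw [← hg, ← hA, ← he'] at h4
    rw [← hp, ← hg] at h6
    rw [← he] at h1
    rw [← he'] at h2
    have h7 : (1 + 1 / δ) * e ≤ 2 * δ := by
      have h8 : (1 + 1 / δ) * e ≤ (1 + 1 / δ) * δ ^ 2 :=
        mul_le_mul_of_nonneg_left h1.le (by positivity)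
      have h9 : (1 + 1 / δ) * δ ^ 2 = δ ^ 2 + δ := by field_simp
      nlinarith
    have h7' : (1 + 1 / δ) * e' ≤ 2 * δ := by
      have h8 : (1 + 1 / δ) * e' ≤ (1 + 1 / δ) * δ ^ 2 :=
        mul_le_mul_of_nonneg_left h2.le (by positivity)
      have h9 : (1 + 1 / δ) * δ ^ 2 = δ ^ 2 + δ := by field_simp
      nlinarith
    have h10 : L ≤ lam U * ((1 + δ) * p + 2 * δ) := by
      rw [hL]
      exact mul_le_mul_of_nonneg_left (by linarith) hl0
    have h11 : g ≤ (1 + δ) * A + 2 * δ := by linarith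
    have h12 : (1 + δ) * (lam U * p) ≤ (1 + δ) * ((1 + δ) * A + 2 * δ) :=
      mul_le_mul_of_nonneg_left (h6.trans h11) (by positivity)
    have h13 : δ ^ 2 ≤ δ := by nlinarith
    have h14 : δ ^ 2 * A ≤ δ * A := mul_le_mul_of_nonneg_right h13 hA0
    nlinarith
  by_contra hlt
  push Not at hlt
  obtain ⟨C, hC⟩ : ∃ C, C = 3 * A + 4 + 2 * lam U := ⟨_, rfl⟩
  have hC0 : 0 < C := by rw [hC]; positivity
  have h1 := key (min 1 ((L - A) / (2 * C))) (lt_min one_pos (div_pos (by linarith) (by positivity)))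
    (min_le_left _ _)
  rw [← hC] at h1
  have h2 : min 1 ((L - A) / (2 * C)) * C ≤ (L - A) / (2 * C) * C :=
    mul_le_mul_of_nonneg_right (min_le_right _ _) hC0.le
  have h3 : (L - A) / (2 * C) * C = (L - A) / 2 := by field_simp
  linarith

end Pool.Agent.H417R2.CH
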