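import Pool.Agent.H417R2.CH.Defs2

/-!
Task HLIP: Lipschitz functions with compact support vanishing outside `U` are in `H¹₀(U)`.
-/

set_option autoImplicit false
open MeasureTheory Metric Set Filter Topology
open scoped ContDiff InnerProductSpace ENNReal NNReal

namespace Pool.Agent.H417R2.CH

open Pool.Agent.Helper546 (Tst lap)

namespace HLIP

theorem norm_grad (v : V → ℝ) (x : V) : ‖gradient v x‖ = ‖fderiv ℝ v x‖ := by
  unfold gradient
  exact LinearIsometryEquiv.norm_map _ _

theorem meas_grad (v : V → ℝ) : Measurable (gradient v) := by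
  have h1 : Measurable (fderiv ℝ v) := measurable_fderiv ℝ v
  have h2 : Continuous (fun L : V →L[ℝ] ℝ => (InnerProductSpace.toDual ℝ V).symm L) :=
    (InnerProductSpace.toDual ℝ V).symm.continuous
  exact h2.measurable.comp h1

theorem mem_grad {v : V → ℝ} {K : ℝ≥0} (hv : LipschitzWith K v) (hc : HasCompactSupport v) :
    MemLp (gradient v) 2 (volume : Measure V) := by
  have h1 : MemLp ((tsupport v).indicator (fun _ => (K : ℝ))) 2 (volume : Measure V) :=
    memLp_indicator_const 2 hc.isCompact.measurableSet _ (Or.inr hc.isCompact.measure_lt_top.ne)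
  refine MemLp.mono h1 (meas_grad v).aestronglyMeasurable (ae_of_all _ fun x => ?_)
  rw [norm_grad]
  by_cases hx : x ∈ tsupport v
  · rw [indicator_of_mem hx]
    exact (norm_fderiv_le_of_lipschitz ℝ hv).trans (le_abs_self _)
  · rw [indicator_of_notMem hx, fderiv_of_notMem_tsupport ℝ hx]
    simp

end HLIP

/-- HLIP -/
theorem t_HLIP (h : S_LAP) : S_HLIP := by
  intro U hU v K hv hc h0
  refine ⟨hv.continuous.memLp_of_hasCompactSupport hc, HLIP.mem_grad hv hc, ?_⟩
  intro ε hε
  obtain ⟨φ, h1, h2, h3, _⟩ := h U hU v K hv hc h0 ε hε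
  exact ⟨φ, h1, h2, h3⟩

end Pool.Agent.H417R2.CH
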