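import Pool.Agent.H417R2.CH.Defs2
import Pool.Agent.Helper546.MaxPrinciple

/-!
Project CH, task HOPF: Hopf lower bound in interior balls.
-/

set_option autoImplicit false
open MeasureTheory Metric Set Filter Topology
open scoped ContDiff InnerProductSpace ENNReal NNReal

namespace Pool.Agent.H417R2.CH

open Pool.Agent.Helper546 (Tst lap dd ee norm_sq_V lap_sub' max_principle_zero two_le_infty
  contDiff_coord hasFDerivAt_coord)

namespace HOPF

/-- squared distance from `y` -/
noncomputable def Nq (y z : V) : ℝ := (z 0 - y 0) ^ 2 + (z 1 - y 1) ^ 2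

theorem Nq_eq (y z : V) : Nq y z = dist z y ^ 2 := by
  rw [dist_eq_norm, norm_sq_V, Nq]
  simp

theorem Nq_hasFDerivAt (y x : V) : HasFDerivAt (Nq y)
    ((2 * (x 0 - y 0)) • (EuclideanSpace.proj 0 : V →L[ℝ] ℝ) +
      (2 * (x 1 - y 1)) • (EuclideanSpace.proj 1 : V →L[ℝ] ℝ)) x := by
  have h0 := (hasFDerivAt_coord 0 x).sub_const (y 0)
  have h1 := (hasFDerivAt_coord 1 x).sub_const (y 1)
  have := (HasFDerivAt.pow h0 2).fun_add (HasFDerivAt.pow h1 2)
  refine this.congr_fderiv ?_
  ext v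
  simp

theorem Nq_contDiff (y : V) : ContDiff ℝ ∞ (Nq y) := by
  have h0 := contDiff_coord 0
  have h1 := contDiff_coord 1
  unfold Nq
  fun_prop

/-- the barrier -/
noncomputable def fq (y z : V) : ℝ := (Nq y z)⁻¹

theorem fq_contDiffAt (y x : V) (hx : Nq y x ≠ 0) : ContDiffAt ℝ 2 (fq y) x :=
  ((Nq_contDiff y).of_le two_le_infty).contDiffAt.inv hx

theorem fq_hasFDerivAt (y x : V) (hx : Nq y x ≠ 0) : HasFDerivAt (fq y)
    (-(fq y x ^ 2) • ((2 * (x 0 - y 0)) • (EuclideanSpace.proj 0 : V →L[ℝ] ℝ) +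
      (2 * (x 1 - y 1)) • (EuclideanSpace.proj 1 : V →L[ℝ] ℝ))) x := by
  have h1 := (hasDerivAt_inv hx).comp_hasFDerivAt x (Nq_hasFDerivAt y x)
  refine h1.congr_fderiv ?_
  unfold fq
  rw [inv_pow]

theorem proj_ee (i j : Fin 2) : (EuclideanSpace.proj i : V →L[ℝ] ℝ) (ee j) =
    if i = j then 1 else 0 := by
  rw [ee]
  simp [EuclideanSpace.single_apply]

theorem dd_fq (y x : V) (hx : Nq y x ≠ 0) (i : Fin 2) :
    dd i (fq y) x = -(2 * (x i - y i) * fq y x ^ 2) := by
  rw [dd, (fq_hasFDerivAt y x hx).fderiv]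
  simp only [ContinuousLinearMap.smul_apply, ContinuousLinearMap.add_apply, proj_ee, smul_eq_mul]
  fin_cases i
  · simp; ring
  · simp; ring

theorem ddd_fq (y x : V) (hx : Nq y x ≠ 0) (i : Fin 2) :
    dd i (dd i (fq y)) x = -2 * fq y x ^ 2 + 8 * (x i - y i) ^ 2 * fq y x ^ 3 := by
  have hopen : ∀ᶠ z in 𝓝 x, Nq y z ≠ 0 :=
    (Nq_contDiff y).continuous.continuousAt.eventually_ne hx
  have h1 : dd i (fq y) =ᶠ[𝓝 x] fun z => (-2 * (z i - y i)) * fq y z ^ 2 := by
    filter_upwards [hopen] with z hz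
    rw [dd_fq y z hz i]; ring
  have h2 : HasFDerivAt (fun z : V => -2 * (z i - y i)) ((-2 : ℝ) • (EuclideanSpace.proj i : V →L[ℝ] ℝ)) x :=
    ((hasFDerivAt_coord i x).sub_const (y i)).const_mul (-2)
  have h3 := HasFDerivAt.pow (fq_hasFDerivAt y x hx) 2
  have h4 := h2.fun_mul h3
  have h5 : dd i (dd i (fq y)) x = fderiv ℝ (fun z => (-2 * (z i - y i)) * fq y z ^ 2) x (ee i) := by
    rw [dd, h1.fderiv_eq]
  rw [h5, h4.fderiv]
  simp only [ContinuousLinearMap.smul_apply, ContinuousLinearMap.add_apply, proj_ee, smul_eq_mul]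
  fin_cases i
  · simp; ring
  · simp; ring

theorem lap_fq (y x : V) (hx : Nq y x ≠ 0) : lap (fq y) x = 4 * fq y x ^ 2 := by
  rw [lap, ddd_fq y x hx 0, ddd_fq y x hx 1]
  have h1 : Nq y x * fq y x = 1 := mul_inv_cancel₀ hx
  have h2 : ((x 0 - y 0) ^ 2 + (x 1 - y 1) ^ 2) * fq y x = 1 := h1
  linear_combination (8 * fq y x ^ 2) * h2

theorem lap_const (c : ℝ) (x : V) : lap (fun _ : V => c) x = 0 := by
  have h : ∀ i, dd i (fun _ : V => c) = fun _ => 0 := by
    intro i
    funext z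
    simp [dd]
  have h' : ∀ i, dd i (fun _ : V => (0 : ℝ)) x = 0 := by
    intro i
    simp [dd]
  rw [lap, h 0, h 1, h' 0, h' 1, add_zero]

end HOPF

open HOPF in
theorem t_HOPF : S_HOPF := by
  intro U u hU hu y r hr hball
  -- the minimum over the half ball
  have hsub : closedBall y (r / 2) ⊆ U := (closedBall_subset_ball (by linarith)).trans hball
  obtain ⟨z₀, hz₀, hmin⟩ := (isCompact_closedBall y (r / 2)).exists_isMinOn
    ⟨y, mem_closedBall_self (by positivity)⟩ hu.cont.continuousOn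
  obtain ⟨m, hm⟩ : ∃ m, m = u z₀ := ⟨_, rfl⟩
  have hm0 : 0 < m := by rw [hm]; exact hu.pos z₀ (hsub hz₀)
  have hmle : ∀ z, dist z y ≤ r / 2 → m ≤ u z := fun z hz => by rw [hm]; exact hmin hz
  have hunn : ∀ z, 0 ≤ u z := fun z => by
    by_cases hz : z ∈ U
    · exact (hu.pos z hz).le
    · rw [hu.zero z hz]
  -- the annulus
  set D : Set V := {z | r / 2 < dist z y ∧ dist z y < r} with hD
  have hcd : Continuous fun z : V => dist z y := by fun_prop
  have hDo : IsOpen D := (isOpen_lt continuous_const hcd).inter (isOpen_lt hcd continuous_const)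
  have hDb : Bornology.IsBounded D := isBounded_ball.subset fun z (hz : z ∈ D) => mem_ball.2 hz.2
  have hDc : closure D ⊆ {z | r / 2 ≤ dist z y ∧ dist z y ≤ r} :=
    closure_minimal (fun z hz => ⟨hz.1.le, hz.2.le⟩)
      ((isClosed_le continuous_const hcd).inter (isClosed_le hcd continuous_const))
  have hNne : ∀ z, r / 2 ≤ dist z y → Nq y z ≠ 0 := fun z hz => by
    rw [Nq_eq]; have : 0 < dist z y := by linarith
    positivity
  have hF : ∀ z, r / 2 ≤ dist z y → ContDiffAt ℝ 2
      (fun z => -(m / 3) - (-(m / 3 * r ^ 2)) * fq y z) z := fun z hz =>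
    contDiffAt_const.sub (contDiffAt_const.mul (fq_contDiffAt y z (hNne z hz)))
  have hu2 : ∀ z ∈ D, ContDiffAt ℝ 2 u z := fun z hz =>
    (hu.smooth.contDiffAt (hU.isOpen.mem_nhds (hball (mem_ball.2 hz.2)))).of_le two_le_infty
  have key := max_principle_zero hDo hDb
    (g := fun z => (-(m / 3) - (-(m / 3 * r ^ 2)) * fq y z) - 1 * u z)
    (ContinuousOn.sub (fun z hz => (hF z (hDc hz).1).continuousAt.continuousWithinAt)
      (continuousOn_const.mul hu.cont.continuousOn))
    (fun z hz => (hF z hz.1.le).sub (contDiffAt_const.mul (hu2 z hz))) ?_ ?_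
  · refine ⟨m / (3 * r), by positivity, fun p hp => ?_⟩
    rw [mem_ball] at hp
    have hdn : 0 ≤ dist p y := dist_nonneg
    have e : m / (3 * r) * (r - dist p y) = m / 3 * ((r - dist p y) / r) := by
      field_simp
    rw [e]
    rcases le_or_gt (dist p y) (r / 2) with h | h
    · refine le_trans ?_ (hmle p h)
      have h1 : (r - dist p y) / r ≤ 1 := by
        rw [div_le_one hr]; linarith
      have h2 : 0 ≤ (r - dist p y) / r := div_nonneg (by linarith) hr.le
      nlinarith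
    · have h1 := key p (subset_closure ⟨h, hp⟩)
      simp only [one_mul] at h1
      have h2 : (r - dist p y) / r ≤ r ^ 2 * fq y p - 1 := by
        rw [fq, Nq_eq, ← div_eq_mul_inv]
        have hd0 : 0 < dist p y := by linarith
        rw [div_le_iff₀ hr, sub_mul, one_mul, div_mul_eq_mul_div, le_sub_iff_add_le,
          le_div_iff₀ (by positivity)]
        nlinarith [mul_pos hd0 hr, mul_pos (mul_pos hd0 hr) hr, sq_nonneg (r - dist p y),
          mul_nonneg hdn (sq_nonneg (r - dist p y)), mul_nonneg hr.le (sq_nonneg (r - dist p y))]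
      have h3 : m / 3 * ((r - dist p y) / r) ≤ m / 3 * (r ^ 2 * fq y p - 1) :=
        mul_le_mul_of_nonneg_left h2 (by positivity)
      linarith
  · intro z hz _
    rw [lap_sub' (hF z hz.1.le) (hu2 z hz), lap_sub' contDiffAt_const
      (fq_contDiffAt y z (hNne z hz.1.le)), lap_const, lap_fq y z (hNne z hz.1.le),
      hu.pde z (hball (mem_ball.2 hz.2))]
    have h1 : 0 ≤ lam U * u z := mul_nonneg hu.lampos.le (hunn z)
    have h2 : 0 ≤ m / 3 * r ^ 2 * (4 * fq y z ^ 2) := by positivity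
    linarith
  · intro z hz hzn
    obtain ⟨h1, h2⟩ := hDc hz
    simp only [one_mul]
    by_cases h3 : dist z y = r
    · have h4 : fq y z = 1 / r ^ 2 := by rw [fq, Nq_eq, h3, one_div]
      rw [h4]
      have h5 : -(m / 3) - -(m / 3 * r ^ 2) * (1 / r ^ 2) = 0 := by field_simp; ring
      rw [h5]
      linarith [hunn z]
    · have h4 : dist z y = r / 2 := by
        by_contra h5
        exact hzn ⟨lt_of_le_of_ne h1 (Ne.symm h5), lt_of_le_of_ne h2 h3⟩
      have h5 : fq y z = 4 / r ^ 2 := by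
        rw [fq, Nq_eq, h4]; field_simp; ring
      rw [h5]
      have h6 : -(m / 3) - -(m / 3 * r ^ 2) * (4 / r ^ 2) = m := by field_simp; ring
      rw [h6]
      linarith [hmle z h4.le]

end Pool.Agent.H417R2.CH
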