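import Pool.Agent.H417R2.CH.Defs2

set_option autoImplicit false
open MeasureTheory Metric Set Filter Topology
open scoped ContDiff InnerProductSpace ENNReal NNReal

namespace Pool.Agent.H417R2.CH

namespace ISO

theorem inn_subset (K : Set V) {s : ℝ} (hs : 0 < s) : Inn K s ⊆ K := fun x hx =>
  hx (mem_ball_self hs)

theorem inn_anti (K : Set V) {s t : ℝ} (h : s ≤ t) : Inn K t ⊆ Inn K s := fun _ hx =>
  (ball_subset_ball h).trans hx

theorem inn_convex {K : Set V} (hK : Convex ℝ K) (s : ℝ) : Convex ℝ (Inn K s) := by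
  intro x hx y hy a b ha hb hab z hz
  rw [mem_ball, dist_eq_norm] at hz
  have h1 : x + (z - (a • x + b • y)) ∈ K := by
    apply hx
    rw [mem_ball, dist_eq_norm, add_sub_cancel_left]
    exact hz
  have h2 : y + (z - (a • x + b • y)) ∈ K := by
    apply hy
    rw [mem_ball, dist_eq_norm, add_sub_cancel_left]
    exact hz
  have h3 := hK h1 h2 ha hb hab
  have e : a • (x + (z - (a • x + b • y))) + b • (y + (z - (a • x + b • y))) = z := by
    rw [smul_add, smul_add]
    have : a • (z - (a • x + b • y)) + b • (z - (a • x + b • y)) = z - (a • x + b • y) := by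
      rw [← add_smul, hab, one_smul]
    calc a • x + a • (z - (a • x + b • y)) + (b • y + b • (z - (a • x + b • y)))
        = (a • x + b • y) + (a • (z - (a • x + b • y)) + b • (z - (a • x + b • y))) := by abel
      _ = z := by rw [this]; abel
  rwa [e] at h3

theorem inn_closed {K : Set V} (hK : IsClosed K) (s : ℝ) : IsClosed (Inn K s) := by
  have h : Inn K s = ⋂ w ∈ ball (0 : V) s, (fun x : V => x + w) ⁻¹' K := by
    ext x
    simp only [mem_iInter, mem_preimage]
    constructor
    · intro hx w hw
      apply hx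
      rw [mem_ball, dist_eq_norm, add_sub_cancel_left]
      rwa [mem_ball, dist_zero_right] at hw
    · intro hx z hz
      have := hx (z - x) (by rw [mem_ball, dist_zero_right, ← dist_eq_norm]; exact hz)
      rwa [add_sub_cancel] at this
  rw [h]
  exact isClosed_biInter fun w _ => hK.preimage (continuous_id.add continuous_const)

theorem inn_compact {K : Set V} (hK : IsCompact K) {s : ℝ} (hs : 0 < s) : IsCompact (Inn K s) :=
  hK.of_isClosed_subset (inn_closed hK.isClosed s) (inn_subset K hs)

theorem inn_inn (K : Set V) {s t : ℝ} (hs : 0 < s) (ht : 0 < t) :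
    Inn (Inn K s) t = Inn K (s + t) := by
  ext x
  constructor
  · intro hx z hz
    have hst : 0 < s + t := by linarith
    have h1 : x + (t / (s + t)) • (z - x) ∈ Inn K s := by
      apply hx
      rw [mem_ball, dist_eq_norm, add_sub_cancel_left, norm_smul, Real.norm_of_nonneg (by positivity),
        ← dist_eq_norm, div_mul_eq_mul_div, div_lt_iff₀ hst]
      exact mul_lt_mul_of_pos_left (by rw [add_comm]; rw [add_comm]; exact hz) ht
    apply h1
    rw [mem_ball, dist_eq_norm]
    have e : z - (x + (t / (s + t)) • (z - x)) = (s / (s + t)) • (z - x) := by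
      have h2 : s / (s + t) = 1 - t / (s + t) := by field_simp; ring
      rw [h2, sub_smul, one_smul]
      abel
    rw [e, norm_smul, Real.norm_of_nonneg (by positivity), ← dist_eq_norm, div_mul_eq_mul_div,
      div_lt_iff₀ hst]
    exact mul_lt_mul_of_pos_left hz hs
  · intro hx y hy z hz
    apply hx
    rw [mem_ball] at *
    calc dist z x ≤ dist z y + dist y x := dist_triangle _ _ _
      _ < s + t := add_lt_add hz hy

theorem cth_subset {K : Set V} (hK : IsCompact K) {s : ℝ} (hs : 0 < s) :
    cthickening s (Inn K s) ⊆ K := by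
  rw [(inn_compact hK hs).cthickening_eq_biUnion_closedBall hs.le]
  intro z hz
  simp only [mem_iUnion] at hz
  obtain ⟨x, hx, hzx⟩ := hz
  have h1 : closure (ball x s) ⊆ K := hK.isClosed.closure_subset_iff.2 hx
  rw [closure_ball x hs.ne'] at h1
  exact h1 hzx

end ISO

theorem t_ISO (h1 : S_GII) (h2 : S_WB) : S_ISO := by
  intro K hKc hKv hKn ρ hρ hA
  obtain ⟨_, hW2, hW3, hW4⟩ := h2
  rcases (Inn K ρ).eq_empty_or_nonempty with he | hne
  · have h := h1 K hKc hKv hKn ρ hρ
    rw [he] at h
    have : ar (∅ : Set V) = 0 := by unfold ar; simp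
    linarith
  · -- partition into `n` steps
    have hWs : ∀ s : ℝ, 0 < s → s ≤ ρ → W (Inn K s) ≤ W K - 2 * Real.pi * s := by
      intro s hs hsρ
      have hne' : (Inn K s).Nonempty := hne.mono (ISO.inn_anti K hsρ)
      have hcomp := ISO.inn_compact hKc hs
      have e := hW3 (Inn K s) hcomp hne' s hs.le
      have hsub := ISO.cth_subset hKc hs
      have hmono := hW2 (cthickening s (Inn K s)) K hcomp.cthickening hKc
        (hne'.mono (self_subset_cthickening _)) hsub
      linarith
    have key : ∀ (δ : ℝ), 0 < δ → ∀ i : ℕ, 1 ≤ i → (i : ℝ) * δ ≤ ρ →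
        ar K ≤ ar (Inn K (i * δ)) + δ * (i * W K - Real.pi * δ * (i * (i - 1))) := by
      intro δ hδ i hi
      induction i, hi using Nat.le_induction with
      | base =>
        intro _
        have h := h1 K hKc hKv hKn δ hδ
        simp only [Nat.cast_one, one_mul, sub_self, mul_zero, sub_zero]
        exact h
      | succ i hi ih =>
        intro hle
        push_cast at hle ⊢
        have hi0 : (0 : ℝ) < i := by exact_mod_cast hi
        have hiδ : 0 < (i : ℝ) * δ := mul_pos hi0 hδ
        have hle' : (i : ℝ) * δ ≤ ρ := by nlinarith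
        have hih := ih hle'
        have hne' : (Inn K (i * δ)).Nonempty := hne.mono (ISO.inn_anti K hle')
        have h := h1 (Inn K (i * δ)) (ISO.inn_compact hKc hiδ) (ISO.inn_convex hKv _) hne' δ hδ
        rw [ISO.inn_inn K hiδ hδ] at h
        have hw := hWs _ hiδ hle'
        have hw' : δ * W (Inn K (i * δ)) ≤ δ * (W K - 2 * Real.pi * (i * δ)) :=
          mul_le_mul_of_nonneg_left hw hδ.le
        have e1 : ((i : ℝ) + 1) * δ = i * δ + δ := by ring
        rw [e1]
        have e2 : δ * (((i : ℝ) + 1) * W K - Real.pi * δ * (((i : ℝ) + 1) * ((i : ℝ) + 1 - 1))) =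
            δ * ((i : ℝ) * W K - Real.pi * δ * ((i : ℝ) * ((i : ℝ) - 1))) +
              δ * (W K - 2 * Real.pi * (i * δ)) := by ring
        rw [e2]
        linarith
    apply le_of_forall_pos_le_add
    intro ε hε
    obtain ⟨n, hn⟩ := exists_nat_gt (Real.pi * ρ ^ 2 / ε)
    have hpos : 0 < Real.pi * ρ ^ 2 / ε := by positivity
    have hn0 : (0 : ℝ) < n := lt_trans hpos hn
    have hn1 : 1 ≤ n := by exact_mod_cast hn0
    have hk := key (ρ / n) (div_pos hρ hn0) n hn1 (by rw [mul_div_cancel₀ _ hn0.ne'])
    rw [mul_div_cancel₀ _ hn0.ne'] at hk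
    have e : ρ / n * ((n : ℝ) * W K - Real.pi * (ρ / n) * ((n : ℝ) * ((n : ℝ) - 1))) =
        ρ * W K - Real.pi * ρ ^ 2 + Real.pi * ρ ^ 2 / n := by
      field_simp
      ring
    rw [e] at hk
    have hlast : Real.pi * ρ ^ 2 / n < ε := by
      rw [div_lt_iff₀ hn0]
      rw [div_lt_iff₀ hε] at hn
      linarith
    linarith

end Pool.Agent.H417R2.CH
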