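import Pool.Agent.H417R2.CH.Defs2

/-!
Project CH, task ISOM: invariance under isometries.
-/

set_option autoImplicit false
open MeasureTheory Metric Set Filter Topology
open scoped ContDiff InnerProductSpace ENNReal NNReal

namespace Pool.Agent.H417R2.CH

namespace ISOM

/-- the linear part of an isometry -/
noncomputable def lp (Φ : V ≃ᵢ V) : V ≃ₗᵢ[ℝ] V :=
  Φ.toRealAffineIsometryEquiv.linearIsometryEquiv

theorem apply_eq (Φ : V ≃ᵢ V) (x : V) : Φ x = Φ 0 + lp Φ x := by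
  have h := Φ.toRealAffineIsometryEquiv.map_vadd (0 : V) x
  simp only [vadd_eq_add, add_zero] at h
  have e : ∀ y, Φ.toRealAffineIsometryEquiv y = Φ y := fun y => by
    simp
  rw [e, e] at h
  rw [h, add_comm]
  rfl

theorem fun_eq (Φ : V ≃ᵢ V) : (Φ : V → V) = fun x => Φ 0 + lp Φ x := funext (apply_eq Φ)

theorem mp (Φ : V ≃ᵢ V) : MeasurePreserving (Φ : V → V) volume volume := by
  rw [fun_eq]
  exact (measurePreserving_add_left volume (Φ 0)).comp (lp Φ).measurePreserving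

theorem contDiff (Φ : V ≃ᵢ V) : ContDiff ℝ ∞ (Φ : V → V) := by
  rw [fun_eq]
  exact contDiff_const.add (lp Φ).contDiff

theorem hasFDerivAt (Φ : V ≃ᵢ V) (x : V) :
    HasFDerivAt (Φ : V → V) ((lp Φ).toContinuousLinearEquiv : V →L[ℝ] V) x := by
  rw [fun_eq]
  exact ((lp Φ).toContinuousLinearEquiv.hasFDerivAt).const_add _

theorem image_inn (Φ : V ≃ᵢ V) (U : Set V) (r : ℝ) : Inn (Φ '' U) r = Φ '' (Inn U r) := by
  ext x
  constructor
  · intro hx
    refine ⟨Φ.symm x, ?_, by simp⟩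
    intro y hy
    have : Φ y ∈ ball x r := by
      rw [mem_ball] at hy ⊢
      rw [← Φ.apply_symm_apply x, Φ.dist_eq]
      exact hy
    obtain ⟨z, hz, hzy⟩ := hx this
    rw [← Φ.injective hzy]
    exact hz
  · rintro ⟨y, hy, rfl⟩ z hz
    refine ⟨Φ.symm z, hy ?_, by simp⟩
    rw [mem_ball] at hz ⊢
    rw [← Φ.dist_eq, Φ.apply_symm_apply]
    exact hz

theorem ar_image (Φ : V ≃ᵢ V) (S : Set V) : ar (Φ '' S) = ar S := by
  unfold ar
  have h : Φ '' S = Φ.symm ⁻¹' S := by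
    ext x
    constructor
    · rintro ⟨y, hy, rfl⟩
      simpa using hy
    · intro hx
      exact ⟨Φ.symm x, hx, by simp⟩
  rw [h, (mp Φ.symm).measure_preimage_emb Φ.symm.toHomeomorph.measurableEmbedding]

theorem isTest_comp (Φ : V ≃ᵢ V) {U : Set V} {u : V → ℝ} (h : IsTest U u) :
    IsTest (Φ '' U) (u ∘ Φ.symm) := by
  obtain ⟨h1, h2, h3, x, hx⟩ := h
  refine ⟨h1.comp (contDiff Φ.symm), ?_, ?_, Φ x, by simpa using hx⟩
  · exact h2.comp_homeomorph Φ.symm.toHomeomorph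
  · have : tsupport (u ∘ Φ.symm) = Φ.symm ⁻¹' (tsupport u) :=
      tsupport_comp_eq_preimage u Φ.symm.toHomeomorph
    rw [this]
    intro y hy
    exact ⟨Φ.symm y, h3 hy, by simp⟩

theorem int_sq (Φ : V ≃ᵢ V) (u : V → ℝ) : ∫ x, (u ∘ Φ) x ^ 2 = ∫ x, u x ^ 2 :=
  (mp Φ).integral_comp Φ.toHomeomorph.measurableEmbedding (fun x => u x ^ 2)

theorem int_fderiv (Φ : V ≃ᵢ V) {u : V → ℝ} (hu : ContDiff ℝ ∞ u) :
    ∫ x, ‖fderiv ℝ (u ∘ Φ) x‖ ^ 2 = ∫ x, ‖fderiv ℝ u x‖ ^ 2 := by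
  have h1 : ∀ x, ‖fderiv ℝ (u ∘ Φ) x‖ = ‖fderiv ℝ u (Φ x)‖ := by
    intro x
    have hd : DifferentiableAt ℝ u (Φ x) := (hu.differentiable (by simp)).differentiableAt
    rw [(hd.hasFDerivAt.comp x (hasFDerivAt Φ x)).fderiv]
    exact ContinuousLinearMap.opNorm_comp_linearIsometryEquiv _ _
  simp_rw [h1]
  exact (mp Φ).integral_comp Φ.toHomeomorph.measurableEmbedding (fun x => ‖fderiv ℝ u x‖ ^ 2)

theorem lam_set_subset (Φ : V ≃ᵢ V) (U : Set V) :
    {c : ℝ | ∃ u : V → ℝ, IsTest U u ∧ c = (∫ x, ‖fderiv ℝ u x‖ ^ 2) / ∫ x, (u x) ^ 2} ⊆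
    {c : ℝ | ∃ u : V → ℝ, IsTest (Φ '' U) u ∧
      c = (∫ x, ‖fderiv ℝ u x‖ ^ 2) / ∫ x, (u x) ^ 2} := by
  rintro c ⟨u, hu, rfl⟩
  refine ⟨u ∘ Φ.symm, isTest_comp Φ hu, ?_⟩
  rw [int_fderiv Φ.symm hu.1]
  congr 1
  exact (int_sq Φ.symm u).symm

theorem lam_image (Φ : V ≃ᵢ V) (U : Set V) : lam (Φ '' U) = lam U := by
  unfold lam
  congr 1
  apply Subset.antisymm
  · have := lam_set_subset Φ.symm (Φ '' U)
    have e : Φ.symm '' (Φ '' U) = U := by
      rw [← image_comp]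
      simp
    rw [e] at this
    exact this
  · exact lam_set_subset Φ U

theorem pc_image (Φ : V ≃ᵢ V) {U : Set V} (h : PC U) : PC (Φ '' U) := by
  refine ⟨?_, ?_, ?_, h.ne.image _⟩
  · exact Φ.toHomeomorph.isOpenMap U h.isOpen
  · have : Φ '' U = Φ.toRealAffineIsometryEquiv.toAffineEquiv.toAffineMap '' U := by
      ext x; simp
    rw [this]
    exact h.convex.affine_image _
  · exact Φ.isometry.lipschitz.isBounded_image h.bdd

end ISOM

open ISOM in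
theorem t_ISOM : S_ISOM := by
  intro Φ U r hG
  refine ⟨pc_image Φ hG.pc, hG.r_pos, ?_, ?_, ?_⟩
  · rw [image_inn, ar_image]
    exact hG.area
  · obtain ⟨c, R, hR, hb⟩ := hG.fat
    refine ⟨Φ c, R, hR, ?_⟩
    rw [← Φ.image_ball]
    exact image_mono hb
  · intro U' ρ hU' hρ har
    rw [lam_image]
    exact hG.opt U' ρ hU' hρ har

end Pool.Agent.H417R2.CH
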