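import Pool.Agent.H417R2.CH.Defs2

/-!
# LAP: truncation (helper771)
-/

set_option autoImplicit false

open MeasureTheory Metric Set Filter Topology
open scoped ContDiff InnerProductSpace ENNReal NNReal

namespace Pool.Agent.H417R2.CH

open Pool.Agent.Helper546 (Tst lap)

namespace LAP

/-- soft threshold -/
noncomputable def st (e t : ℝ) : ℝ := t - max (-e) (min e t)

theorem st_of_le {e t : ℝ} (h : |t| ≤ e) : st e t = 0 := by
  unfold st
  rw [abs_le] at h
  rw [min_eq_right h.2, max_eq_right h.1]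
  ring

theorem st_zero {e : ℝ} (he : 0 < e) : st e 0 = 0 := st_of_le (by rw [abs_zero]; exact he.le)

theorem st_of_gt {e t : ℝ} (he : 0 < e) (h : e < t) : st e t = t - e := by
  unfold st
  rw [min_eq_left h.le, max_eq_right (by linarith)]

theorem st_of_lt {e t : ℝ} (he : 0 < e) (h : t < -e) : st e t = t + e := by
  unfold st
  rw [min_eq_right (by linarith), max_eq_left (by linarith)]
  ring

theorem sub_st {e t : ℝ} (he : 0 < e) : |t - st e t| ≤ e := by
  unfold st
  rw [sub_sub_cancel, abs_le]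
  constructor
  · exact le_max_left _ _
  · exact max_le (by linarith) (min_le_left _ _)

theorem st_lip {e : ℝ} (he : 0 < e) (s t : ℝ) : |st e s - st e t| ≤ |s - t| := by
  unfold st
  rcases le_total s t with h | h
  · have h1 : min e s ≤ min e t := min_le_min le_rfl h
    have h2 : max (-e) (min e s) ≤ max (-e) (min e t) := max_le_max le_rfl h1
    have h3 : max (-e) (min e t) - max (-e) (min e s) ≤ t - s := by
      simp only [max_def, min_def]
      split_ifs <;> linarith
    rw [abs_of_nonpos (by linarith), abs_of_nonpos (by linarith)]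
    linarith
  · have h1 : min e t ≤ min e s := min_le_min le_rfl h
    have h2 : max (-e) (min e t) ≤ max (-e) (min e s) := max_le_max le_rfl h1
    have h3 : max (-e) (min e s) - max (-e) (min e t) ≤ s - t := by
      simp only [max_def, min_def]
      split_ifs <;> linarith
    rw [abs_of_nonneg (by linarith), abs_of_nonneg (by linarith)]
    linarith

theorem st_comp_lip {e : ℝ} (he : 0 < e) {v : V → ℝ} {K : ℝ≥0} (hv : LipschitzWith K v) :
    LipschitzWith K (fun x => st e (v x)) := by
  refine LipschitzWith.of_dist_le_mul fun x y => ?_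
  rw [Real.dist_eq]
  refine (st_lip he _ _).trans ?_
  rw [← Real.dist_eq]
  exact hv.dist_le_mul x y

theorem st_supp {e : ℝ} (he : 0 < e) {v : V → ℝ} (hv : Continuous v) :
    tsupport (fun x => st e (v x)) ⊆ {x | e ≤ |v x|} := by
  refine closure_minimal ?_ (isClosed_le continuous_const hv.abs)
  intro x hx
  rw [Function.mem_support] at hx
  by_contra h
  exact hx (st_of_le (not_le.1 h).le)

theorem fderiv_st {e : ℝ} (he : 0 < e) {v : V → ℝ} (hv : Continuous v) {x : V} (hx : e < |v x|) :
    fderiv ℝ (fun x => st e (v x)) x = fderiv ℝ v x := by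
  rcases lt_abs.1 hx with h | h
  · have h1 : (fun x => st e (v x)) =ᶠ[𝓝 x] fun x => v x - e := by
      filter_upwards [(isOpen_lt continuous_const hv).mem_nhds h] with y hy
      exact st_of_gt he hy
    rw [h1.fderiv_eq, fderiv_sub_const]
  · have h1 : (fun x => st e (v x)) =ᶠ[𝓝 x] fun x => v x + e := by
      filter_upwards [(isOpen_lt continuous_const hv.neg).mem_nhds h] with y hy
      exact st_of_lt he (by linarith [show e < - v y from hy])
    rw [h1.fderiv_eq, fderiv_add_const]

/-- integrability of bounded functions with compact support -/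
theorem int_bdd {f : V → ℝ} (hm : AEStronglyMeasurable f volume) {S : Set V} (hS : IsCompact S)
    (h0 : ∀ x, x ∉ S → f x = 0) {C : ℝ} (hC : ∀ x, |f x| ≤ C) : Integrable f := by
  have hI : Integrable (S.indicator fun _ : V => C) :=
    (integrable_indicator_iff hS.measurableSet).2 (integrableOn_const hS.measure_lt_top.ne)
  refine hI.mono' hm (Eventually.of_forall fun x => ?_)
  rw [Real.norm_eq_abs]
  by_cases hx : x ∈ S
  · rw [indicator_of_mem hx]
    exact hC x
  · rw [indicator_of_notMem hx, h0 x hx, abs_zero]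

/-- dominated convergence -/
theorem dct {f : ℕ → V → ℝ} (hm : ∀ n, AEStronglyMeasurable (f n) volume) {S : Set V}
    (hS : IsCompact S) (h0 : ∀ n x, x ∉ S → f n x = 0) {C : ℝ} (hC : ∀ n x, |f n x| ≤ C)
    (hlim : ∀ᵐ x : V, Tendsto (fun n => f n x) atTop (𝓝 0)) :
    Tendsto (fun n => ∫ x, f n x) atTop (𝓝 0) := by
  have hI : Integrable (S.indicator fun _ : V => C) :=
    (integrable_indicator_iff hS.measurableSet).2 (integrableOn_const hS.measure_lt_top.ne)
  have h1 := tendsto_integral_of_dominated_convergence (μ := volume) (F := f) (f := fun _ => (0 : ℝ))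
    (S.indicator fun _ : V => C) hm hI (fun n => Eventually.of_forall fun x => by
      rw [Real.norm_eq_abs]
      by_cases hx : x ∈ S
      · rw [indicator_of_mem hx]
        exact hC n x
      · rw [indicator_of_notMem hx, h0 n x hx, abs_zero]) hlim
  rwa [integral_zero] at h1

theorem grad_sub (f g : V → ℝ) (x : V) :
    ‖gradient f x - gradient g x‖ = ‖fderiv ℝ f x - fderiv ℝ g x‖ := by
  unfold gradient
  rw [← map_sub, LinearIsometryEquiv.norm_map]

end LAP

open LAP

theorem t_LAP (h1 : S_LAP1) (h2 : S_GZ) : S_LAP := by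
  intro U hU v K hv hcs hv0 ε hε
  have hvc : Continuous v := hv.continuous
  set S := tsupport v with hS
  have hSc : IsCompact S := hcs
  have hvS : ∀ x, x ∉ S → v x = 0 := fun x hx => image_eq_zero_of_notMem_tsupport hx
  have hdS : ∀ x, x ∉ S → fderiv ℝ v x = 0 := fun x hx =>
    image_eq_zero_of_notMem_tsupport fun h => hx (tsupport_fderiv_subset ℝ h)
  let e : ℕ → ℝ := fun n => 1 / ((n : ℝ) + 1)
  have he : ∀ n, 0 < e n := fun n => Nat.one_div_pos_of_nat
  have he1 : ∀ n, e n ≤ 1 := fun n => by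
    simp only [e]
    rw [div_le_one (by positivity)]
    have : (0 : ℝ) ≤ n := Nat.cast_nonneg n
    linarith
  have het : Tendsto e atTop (𝓝 0) := tendsto_one_div_add_atTop_nhds_zero_nat
  let w : ℕ → V → ℝ := fun n x => st (e n) (v x)
  have hw : ∀ n, LipschitzWith K (w n) := fun n => st_comp_lip (he n) hv
  have hwS : ∀ n x, x ∉ S → w n x = 0 := fun n x hx => by
    simp only [w]
    rw [hvS x hx]
    exact st_zero (he n)
  have hwts : ∀ n, tsupport (w n) ⊆ S := fun n =>
    closure_minimal (fun x hx => by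
      by_contra h
      exact hx (hwS n x h)) (isClosed_tsupport v)
  have hdwS : ∀ n x, x ∉ S → fderiv ℝ (w n) x = 0 := fun n x hx =>
    image_eq_zero_of_notMem_tsupport fun h => hx (hwts n (tsupport_fderiv_subset ℝ h))
  have hdv : ∀ x, ‖fderiv ℝ v x‖ ≤ K := fun x => norm_fderiv_le_of_lipschitz ℝ hv
  have hdw : ∀ n x, ‖fderiv ℝ (w n) x‖ ≤ K := fun n x => norm_fderiv_le_of_lipschitz ℝ (hw n)
  have hmv : Measurable (fun x => fderiv ℝ v x) := measurable_fderiv ℝ v
  have hmw : ∀ n, Measurable (fun x => fderiv ℝ (w n) x) := fun n => measurable_fderiv ℝ (w n)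
  -- convergence of the derivatives
  have hlim : ∀ᵐ x : V, ∀ᶠ n in atTop, fderiv ℝ v x - fderiv ℝ (w n) x = 0 := by
    have h3 : ∀ᵐ x : V, ∀ n, w n x = 0 → fderiv ℝ (w n) x = 0 :=
      ae_all_iff.2 fun n => h2 (w n) K (hw n)
    filter_upwards [h3, h2 v K hv] with x hx hx'
    by_cases h0 : v x = 0
    · refine Eventually.of_forall fun n => ?_
      rw [hx' h0, hx n (by simp only [w]; rw [h0]; exact st_zero (he n)), sub_zero]
    · filter_upwards [het.eventually (gt_mem_nhds (abs_pos.2 h0))] with n hn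
      simp only [w]
      rw [fderiv_st (he n) hvc hn, sub_self]
  have hlv : ∀ x : V, Tendsto (fun n => v x - w n x) atTop (𝓝 0) := by
    intro x
    refine squeeze_zero_norm (fun n => ?_) het
    rw [Real.norm_eq_abs]
    exact sub_st (he n)
  have hcw : ∀ n, Continuous (w n) := fun n => (hw n).continuous
  have t1 : Tendsto (fun n => ∫ x, (v x - w n x) ^ 2) atTop (𝓝 0) := by
    refine dct (C := 1) (fun n => ((hvc.sub (hcw n)).pow 2).aestronglyMeasurable) hSc
      (fun n x hx => ?_) (fun n x => ?_) (Eventually.of_forall fun x => ?_)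
    · rw [hvS x hx, hwS n x hx]
      norm_num
    · rw [abs_pow]
      exact pow_le_one₀ (abs_nonneg _) ((sub_st (he n)).trans (he1 n))
    · have := (hlv x).pow 2
      simpa using this
  have t2 : Tendsto (fun n => ∫ x, |v x - w n x|) atTop (𝓝 0) := by
    refine dct (C := 1) (fun n => (hvc.sub (hcw n)).abs.aestronglyMeasurable) hSc
      (fun n x hx => ?_) (fun n x => ?_) (Eventually.of_forall fun x => ?_)
    · rw [hvS x hx, hwS n x hx]
      norm_num
    · rw [abs_abs]
      exact (sub_st (he n)).trans (he1 n)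
    · have := (hlv x).abs
      simpa using this
  have hK : ∀ n x, ‖fderiv ℝ v x - fderiv ℝ (w n) x‖ ≤ 2 * K := fun n x =>
    (norm_sub_le _ _).trans (by linarith [hdv x, hdw n x])
  have hmD : ∀ n, AEStronglyMeasurable (fun x => ‖fderiv ℝ v x - fderiv ℝ (w n) x‖) volume :=
    fun n => (hmv.sub (hmw n)).norm.aestronglyMeasurable
  have t3 : Tendsto (fun n => ∫ x, ‖fderiv ℝ v x - fderiv ℝ (w n) x‖) atTop (𝓝 0) := by
    refine dct (C := 2 * K) hmD hSc (fun n x hx => ?_) (fun n x => ?_) ?_
    · rw [hdS x hx, hdwS n x hx]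
      simp
    · rw [abs_norm]
      exact hK n x
    · filter_upwards [hlim] with x hx
      refine tendsto_const_nhds.congr' ?_
      filter_upwards [hx] with n hn
      rw [hn, norm_zero]
  have t4 : Tendsto (fun n => ∫ x, ‖fderiv ℝ v x - fderiv ℝ (w n) x‖ ^ 2) atTop (𝓝 0) := by
    refine dct (C := (2 * K) ^ 2) (fun n => (hmD n).pow 2) hSc (fun n x hx => ?_)
      (fun n x => ?_) ?_
    · rw [hdS x hx, hdwS n x hx]
      simp
    · rw [abs_of_nonneg (by positivity)]
      exact pow_le_pow_left₀ (norm_nonneg _) (hK n x) 2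
    · filter_upwards [hlim] with x hx
      refine tendsto_const_nhds.congr' ?_
      filter_upwards [hx] with n hn
      rw [hn, norm_zero]
      norm_num
  have hε4 : 0 < ε / 4 := by linarith
  obtain ⟨n, hn1, hn2, hn3, hn4⟩ := ((t1.eventually (gt_mem_nhds hε4)).and
    ((t2.eventually (gt_mem_nhds hε4)).and ((t3.eventually (gt_mem_nhds hε4)).and
      (t4.eventually (gt_mem_nhds hε4))))).exists
  have hwcs : HasCompactSupport (w n) := hSc.of_isClosed_subset (isClosed_tsupport _) (hwts n)
  have hwU : tsupport (w n) ⊆ U := by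
    intro x hx
    by_contra h
    have h3 := st_supp (he n) hvc hx
    rw [mem_setOf_eq, hv0 x h, abs_zero] at h3
    exact absurd h3 (not_le.2 (he n))
  obtain ⟨φ, hφ, hφ1, hφ2, hφ3, hφ4⟩ := h1 U hU (w n) K (hw n) hwcs hwU (ε / 4) hε4
  refine ⟨φ, hφ, ?_⟩
  obtain ⟨hφs, hφc, hφU⟩ := hφ
  have hφ0 : Continuous φ := hφs.continuous
  have hφd : Continuous (fderiv ℝ φ) := hφs.continuous_fderiv (by simp)
  have hφdc : HasCompactSupport (fderiv ℝ φ) := hφc.fderiv ℝ
  set S' := S ∪ tsupport φ with hS'
  have hS'c : IsCompact S' := hSc.union hφc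
  obtain ⟨M, hM⟩ := hφd.bounded_above_of_compact_support hφdc
  have hdφ : ∀ x, x ∉ tsupport φ → fderiv ℝ φ x = 0 := fun x hx =>
    image_eq_zero_of_notMem_tsupport fun h => hx (tsupport_fderiv_subset ℝ h)
  -- integrability
  have hw0 : ∀ x, x ∉ S' → w n x - φ x = 0 := fun x hx => by
    rw [hS', mem_union, not_or] at hx
    rw [hwS n x hx.1, image_eq_zero_of_notMem_tsupport hx.2, sub_zero]
  have hv0' : ∀ x, x ∉ S → v x - w n x = 0 := fun x hx => by
    rw [hvS x hx, hwS n x hx, sub_zero]
  have c1 : Continuous (fun x => v x - w n x) := hvc.sub (hcw n)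
  have c2 : Continuous (fun x => w n x - φ x) := (hcw n).sub hφ0
  have i1 : Integrable (fun x => (v x - w n x) ^ 2) := by
    refine Continuous.integrable_of_hasCompactSupport (c1.pow 2)
      (HasCompactSupport.intro hSc fun x hx => ?_)
    rw [hv0' x hx]
    norm_num
  have i2 : Integrable (fun x => (w n x - φ x) ^ 2) := by
    refine Continuous.integrable_of_hasCompactSupport (c2.pow 2)
      (HasCompactSupport.intro hS'c fun x hx => ?_)
    rw [hw0 x hx]
    norm_num
  have i3 : Integrable (fun x => |v x - w n x|) := by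
    refine Continuous.integrable_of_hasCompactSupport c1.abs
      (HasCompactSupport.intro hSc fun x hx => ?_)
    rw [hv0' x hx, abs_zero]
  have i4 : Integrable (fun x => |w n x - φ x|) := by
    refine Continuous.integrable_of_hasCompactSupport c2.abs
      (HasCompactSupport.intro hS'c fun x hx => ?_)
    rw [hw0 x hx, abs_zero]
  have hmE : AEStronglyMeasurable (fun x => ‖fderiv ℝ (w n) x - fderiv ℝ φ x‖) volume :=
    ((hmw n).sub (measurable_fderiv ℝ φ)).norm.aestronglyMeasurable
  have hE0 : ∀ x, x ∉ S' → ‖fderiv ℝ (w n) x - fderiv ℝ φ x‖ = 0 := by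
    intro x hx
    rw [hS', mem_union, not_or] at hx
    rw [hdwS n x hx.1, hdφ x hx.2]
    simp
  have hEb : ∀ x, ‖fderiv ℝ (w n) x - fderiv ℝ φ x‖ ≤ K + M := fun x =>
    (norm_sub_le _ _).trans (add_le_add (hdw n x) (hM x))
  have i5 : Integrable (fun x => ‖fderiv ℝ v x - fderiv ℝ (w n) x‖) :=
    int_bdd (hmD n) hSc (fun x hx => by rw [hdS x hx, hdwS n x hx]; simp)
      (fun x => by rw [abs_norm]; exact hK n x)
  have i6 : Integrable (fun x => ‖fderiv ℝ (w n) x - fderiv ℝ φ x‖) :=
    int_bdd hmE hS'c hE0 (fun x => by rw [abs_norm]; exact hEb x)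
  have i7 : Integrable (fun x => ‖fderiv ℝ v x - fderiv ℝ (w n) x‖ ^ 2) :=
    int_bdd (C := (2 * K) ^ 2) ((hmD n).pow 2) hSc
      (fun x hx => by rw [hdS x hx, hdwS n x hx]; simp)
      (fun x => by
        rw [abs_of_nonneg (by positivity)]
        exact pow_le_pow_left₀ (norm_nonneg _) (hK n x) 2)
  have i8 : Integrable (fun x => ‖fderiv ℝ (w n) x - fderiv ℝ φ x‖ ^ 2) :=
    int_bdd (C := (K + M) ^ 2) (hmE.pow 2) hS'c
      (fun x hx => by rw [hE0 x hx]; norm_num)
      (fun x => by
        rw [abs_of_nonneg (by positivity)]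
        exact pow_le_pow_left₀ (norm_nonneg _) (hEb x) 2)
  have hsq : ∀ a b : ℝ, (a + b) ^ 2 ≤ 2 * a ^ 2 + 2 * b ^ 2 := fun a b => by
    nlinarith [sq_nonneg (a - b)]
  refine ⟨?_, ?_, ?_, ?_⟩
  · have h3 : ∫ x, (v x - φ x) ^ 2 ≤ ∫ x, (2 * (v x - w n x) ^ 2 + 2 * (w n x - φ x) ^ 2) := by
      refine integral_mono_of_nonneg (Eventually.of_forall fun x => sq_nonneg _)
        ((i1.const_mul 2).add (i2.const_mul 2)) (Eventually.of_forall fun x => ?_)
      have := hsq (v x - w n x) (w n x - φ x)
      simp only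
      calc (v x - φ x) ^ 2 = (v x - w n x + (w n x - φ x)) ^ 2 := by ring
        _ ≤ _ := this
    rw [integral_add (i1.const_mul 2) (i2.const_mul 2), integral_const_mul,
      integral_const_mul] at h3
    linarith
  · simp only [grad_sub] at hφ2 ⊢
    have h3 : ∫ x, ‖fderiv ℝ v x - fderiv ℝ φ x‖ ^ 2 ≤
        ∫ x, (2 * ‖fderiv ℝ v x - fderiv ℝ (w n) x‖ ^ 2 +
          2 * ‖fderiv ℝ (w n) x - fderiv ℝ φ x‖ ^ 2) := by
      refine integral_mono_of_nonneg (Eventually.of_forall fun x => sq_nonneg _)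
        ((i7.const_mul 2).add (i8.const_mul 2)) (Eventually.of_forall fun x => ?_)
      have h4 := hsq ‖fderiv ℝ v x - fderiv ℝ (w n) x‖ ‖fderiv ℝ (w n) x - fderiv ℝ φ x‖
      have h5 : ‖fderiv ℝ v x - fderiv ℝ φ x‖ ≤ ‖fderiv ℝ v x - fderiv ℝ (w n) x‖ +
          ‖fderiv ℝ (w n) x - fderiv ℝ φ x‖ := norm_sub_le_norm_sub_add_norm_sub _ _ _
      simp only
      exact (pow_le_pow_left₀ (norm_nonneg _) h5 2).trans h4
    rw [integral_add (i7.const_mul 2) (i8.const_mul 2), integral_const_mul,
      integral_const_mul] at h3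
    linarith
  · have h3 : ∫ x, |v x - φ x| ≤ ∫ x, (|v x - w n x| + |w n x - φ x|) := by
      refine integral_mono_of_nonneg (Eventually.of_forall fun x => abs_nonneg _)
        (i3.add i4) (Eventually.of_forall fun x => ?_)
      exact abs_sub_le _ _ _
    rw [integral_add i3 i4] at h3
    linarith
  · have h3 : ∫ x, ‖fderiv ℝ v x - fderiv ℝ φ x‖ ≤
        ∫ x, (‖fderiv ℝ v x - fderiv ℝ (w n) x‖ + ‖fderiv ℝ (w n) x - fderiv ℝ φ x‖) := by
      refine integral_mono_of_nonneg (Eventually.of_forall fun x => norm_nonneg _)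
        (i5.add i6) (Eventually.of_forall fun x => ?_)
      exact norm_sub_le_norm_sub_add_norm_sub _ _ _
    rw [integral_add i5 i6] at h3
    linarith

end Pool.Agent.H417R2.CH
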