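import Pool.Agent.H417R2.CH.Defs2

set_option autoImplicit false
open MeasureTheory Metric Set Filter Topology
open scoped ContDiff InnerProductSpace ENNReal NNReal Convolution

namespace Pool.Agent.H417R2.CH

namespace LAP1

open Pool.Agent.Helper546 (Tst bmp tendsto_bmp tst_bmp)

/-- mollifier -/
noncomputable def rho (n : ℕ) : V → ℝ := (bmp n).normed volume

/-- mollified function -/
noncomputable def ml (v : V → ℝ) (n : ℕ) : V → ℝ :=
  convolution (rho n) v (ContinuousLinearMap.lsmul ℝ ℝ) volume

theorem ml_apply (v : V → ℝ) (n : ℕ) (x : V) : ml v n x = ∫ t, rho n t * v (x - t) := rfl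

theorem rho_nonneg (n : ℕ) (t : V) : 0 ≤ rho n t := (bmp n).nonneg_normed t

theorem rho_int (n : ℕ) : ∫ t, rho n t = 1 := (bmp n).integral_normed

theorem rho_cont (n : ℕ) : Continuous (rho n) := (bmp n).continuous_normed

theorem rho_supp (n : ℕ) : HasCompactSupport (rho n) := (bmp n).hasCompactSupport_normed

theorem rho_integrable (n : ℕ) : Integrable (rho n) :=
  (rho_cont n).integrable_of_hasCompactSupport (rho_supp n)

theorem int_mul {v : V → ℝ} (hv : Continuous v) (n : ℕ) (x : V) :
    Integrable (fun t => rho n t * v (x - t)) := by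
  apply Continuous.integrable_of_hasCompactSupport
  · exact (rho_cont n).mul (hv.comp (continuous_const.sub continuous_id))
  · exact (rho_supp n).mul_right

theorem ml_sub_le {v : V → ℝ} {K : ℝ≥0} (hv : LipschitzWith K v) (n : ℕ) (x y : V) :
    |ml v n x - ml v n y| ≤ K * ‖x - y‖ := by
  rw [ml_apply, ml_apply, ← integral_sub (int_mul hv.continuous n x) (int_mul hv.continuous n y)]
  have h1 : ∀ t, ‖rho n t * v (x - t) - rho n t * v (y - t)‖ ≤ rho n t * (K * ‖x - y‖) := by
    intro t
    rw [← mul_sub, norm_mul, Real.norm_eq_abs, abs_of_nonneg (rho_nonneg n t)]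
    refine mul_le_mul_of_nonneg_left ?_ (rho_nonneg n t)
    have := hv.dist_le_mul (x - t) (y - t)
    rw [dist_eq_norm, dist_eq_norm] at this
    simpa using this
  have h2 := norm_integral_le_of_norm_le ((rho_integrable n).mul_const (K * ‖x - y‖))
    (Eventually.of_forall h1)
  rw [integral_mul_const, rho_int, one_mul] at h2
  exact h2

theorem ml_lip {v : V → ℝ} {K : ℝ≥0} (hv : LipschitzWith K v) (n : ℕ) :
    LipschitzWith K (ml v n) := by
  refine LipschitzWith.of_dist_le_mul fun x y => ?_
  rw [dist_eq_norm, dist_eq_norm]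
  exact ml_sub_le hv n x y

theorem ml_contDiff {v : V → ℝ} (hv : Continuous v) (n : ℕ) : ContDiff ℝ ∞ (ml v n) :=
  (rho_supp n).contDiff_convolution_left _ (bmp n).contDiff_normed hv.locallyIntegrable

theorem ml_near {v : V → ℝ} {K : ℝ≥0} (hv : LipschitzWith K v) (n : ℕ) (x : V) :
    |ml v n x - v x| ≤ K := by
  have h0 : v x = ∫ t, rho n t * v x := by
    rw [integral_mul_const, rho_int, one_mul]
  rw [ml_apply]
  conv_lhs => rw [h0]
  rw [← integral_sub (int_mul hv.continuous n x) ((rho_integrable n).mul_const _)]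
  have h1 : ∀ t, ‖rho n t * v (x - t) - rho n t * v x‖ ≤ rho n t * K := by
    intro t
    rw [← mul_sub, norm_mul, Real.norm_eq_abs, abs_of_nonneg (rho_nonneg n t)]
    by_cases ht : rho n t = 0
    · rw [ht, zero_mul, zero_mul]
    refine mul_le_mul_of_nonneg_left ?_ (rho_nonneg n t)
    have h2 : t ∈ Function.support (rho n) := ht
    have h3 : t ∈ ball (0 : V) (bmp n).rOut := by
      rw [← (bmp n).support_normed_eq (μ := volume)]
      exact h2
    rw [mem_ball_zero_iff] at h3
    have h4 : (bmp n).rOut ≤ 1 := by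
      show 1 / ((n : ℝ) + 1) ≤ 1
      rw [div_le_one (by positivity)]
      have : (0 : ℝ) ≤ n := Nat.cast_nonneg n
      linarith
    have h5 := hv.dist_le_mul (x - t) x
    rw [dist_eq_norm, dist_eq_norm] at h5
    have h6 : ‖x - t - x‖ = ‖t‖ := by
      rw [sub_sub_cancel_left, norm_neg]
    rw [h6] at h5
    refine h5.trans ?_
    have : (K : ℝ) * ‖t‖ ≤ K * 1 := mul_le_mul_of_nonneg_left (by linarith) K.2
    linarith
  have h2 := norm_integral_le_of_norm_le ((rho_integrable n).mul_const (K : ℝ))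
    (Eventually.of_forall h1)
  rw [integral_mul_const, rho_int, one_mul] at h2
  exact h2

theorem ml_fderiv {v : V → ℝ} {K : ℝ≥0} (hv : LipschitzWith K v) (n : ℕ) (x : V) :
    fderiv ℝ (ml v n) x =
      convolution (rho n) (fderiv ℝ v) (ContinuousLinearMap.lsmul ℝ ℝ) volume x := by
  have hm : Measurable (fun t : V => fderiv ℝ v (x - t)) :=
    (measurable_fderiv ℝ v).comp (measurable_const.sub measurable_id)
  have hF' : AEStronglyMeasurable (fun t : V => rho n t • fderiv ℝ v (x - t)) volume :=
    ((rho_cont n).measurable.smul hm).aestronglyMeasurable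
  have hae : ∀ᵐ t : V, DifferentiableAt ℝ v (x - t) :=
    ((volume : Measure V).measurePreserving_sub_left x).quasiMeasurePreserving.ae
      hv.ae_differentiableAt
  have key := hasFDerivAt_integral_of_dominated_loc_of_lip' (𝕜 := ℝ) (μ := (volume : Measure V))
    (F := fun y t => rho n t * v (y - t)) (x₀ := x) (s := univ)
    (F' := fun t => rho n t • fderiv ℝ v (x - t)) (bound := fun t => rho n t * K) univ_mem
    (fun y _ => (int_mul hv.continuous n y).aestronglyMeasurable)
    (int_mul hv.continuous n x) hF'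
    (Eventually.of_forall fun t y _ => by
      rw [← mul_sub, norm_mul, Real.norm_eq_abs, abs_of_nonneg (rho_nonneg n t), mul_assoc]
      refine mul_le_mul_of_nonneg_left ?_ (rho_nonneg n t)
      have := hv.dist_le_mul (y - t) (x - t)
      rw [dist_eq_norm, dist_eq_norm] at this
      simpa using this)
    ((rho_integrable n).mul_const _)
    (hae.mono fun t ht => by
      have h1 : HasFDerivAt (fun y => v (y - t)) (fderiv ℝ v (x - t)) x := by
        have h2 : HasFDerivAt (fun y : V => y - t) (ContinuousLinearMap.id ℝ V) x :=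
          (hasFDerivAt_id x).sub_const t
        have h3 := HasFDerivAt.comp x ht.hasFDerivAt h2
        rw [ContinuousLinearMap.comp_id] at h3
        exact h3
      exact h1.const_mul (rho n t))
  exact key.2.fderiv

theorem fderiv_locInt {v : V → ℝ} {K : ℝ≥0} (hv : LipschitzWith K v) :
    LocallyIntegrable (fderiv ℝ v) := by
  have h1 : MemLp (fderiv ℝ v) ∞ (volume : Measure V) :=
    memLp_top_of_bound (measurable_fderiv ℝ v).aestronglyMeasurable (K : ℝ)
      (Eventually.of_forall fun x => norm_fderiv_le_of_lipschitz ℝ hv)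
  exact h1.locallyIntegrable le_top

theorem fderiv_ae {v : V → ℝ} {K : ℝ≥0} (hv : LipschitzWith K v) :
    ∀ᵐ x, Tendsto (fun n => fderiv ℝ (ml v n) x) atTop (𝓝 (fderiv ℝ v x)) := by
  have := ContDiffBump.ae_convolution_tendsto_right_of_locallyIntegrable (φ := bmp)
    (l := atTop) (K := 2) (μ := (volume : Measure V)) (g := fderiv ℝ v) tendsto_bmp
    (Eventually.of_forall fun n => by
      show 1 / ((n : ℝ) + 1) ≤ 2 * (1 / (2 * ((n : ℝ) + 1)))
      have : (0 : ℝ) < (n : ℝ) + 1 := by positivity
      apply le_of_eq; field_simp) (fderiv_locInt hv)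
  filter_upwards [this] with x hx
  simp only [ml_fderiv hv]
  exact hx

theorem ml_tendsto {v : V → ℝ} (hv : Continuous v) (x : V) :
    Tendsto (fun n => ml v n x) atTop (𝓝 (v x)) :=
  ContDiffBump.convolution_tendsto_right_of_continuous tendsto_bmp hv x

theorem ml_tsupport {v : V → ℝ} {δ : ℝ} {n : ℕ} (h : (bmp n).rOut ≤ δ) :
    tsupport (ml v n) ⊆ cthickening δ (tsupport v) := by
  refine closure_minimal (fun x hx => ?_) isClosed_cthickening
  by_contra hx2
  apply hx
  rw [ml_apply]
  have h1 : ∀ t, rho n t * v (x - t) = 0 := by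
    intro t
    by_contra h2
    have h3 : rho n t ≠ 0 := left_ne_zero_of_mul h2
    have h4 : v (x - t) ≠ 0 := right_ne_zero_of_mul h2
    have h5 : t ∈ Function.support (rho n) := h3
    have h6 : t ∈ ball (0 : V) (bmp n).rOut := by
      rw [← (bmp n).support_normed_eq (μ := volume)]
      exact h5
    rw [mem_ball_zero_iff] at h6
    apply hx2
    refine mem_cthickening_of_dist_le x (x - t) δ _ (subset_tsupport v h4) ?_
    rw [dist_eq_norm, sub_sub_cancel]
    linarith
  simp [h1]

theorem fderiv_zero_off {f : V → ℝ} {S : Set V} (h : tsupport f ⊆ S) {x : V} (hx : x ∉ S) :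
    fderiv ℝ f x = 0 := by
  by_contra h1
  exact hx (h (tsupport_fderiv_subset ℝ (subset_tsupport _ h1)))

theorem gradient_norm (f g : V → ℝ) (x : V) :
    ‖gradient f x - gradient g x‖ = ‖fderiv ℝ f x - fderiv ℝ g x‖ := by
  unfold gradient
  rw [← map_sub, LinearIsometryEquiv.norm_map]

theorem tend_int {g : ℕ → V → ℝ} {S : Set V} (hS : IsCompact S) (C : ℝ)
    (hm : ∀ n, AEStronglyMeasurable (g n) volume) (hb : ∀ n x, x ∈ S → ‖g n x‖ ≤ C)
    (h0 : ∀ n x, x ∉ S → g n x = 0) (hl : ∀ᵐ x, Tendsto (fun n => g n x) atTop (𝓝 0)) :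
    Tendsto (fun n => ∫ x, g n x) atTop (𝓝 0) := by
  have h1 := tendsto_integral_of_dominated_convergence (μ := (volume : Measure V)) (F := g)
    (f := fun _ => (0 : ℝ)) (S.indicator fun _ => C) hm
    ((integrable_indicator_iff hS.measurableSet).2
      (integrableOn_const hS.measure_lt_top.ne))
    (fun n => Eventually.of_forall fun x => by
      by_cases hx : x ∈ S
      · rw [indicator_of_mem hx]
        exact hb n x hx
      · rw [indicator_of_notMem hx, h0 n x hx, norm_zero]) hl
  simpa using h1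

end LAP1

open LAP1 Pool.Agent.Helper546 in
theorem t_LAP1 : S_LAP1 := by
  intro U hU v K hv hvc hvU ε hε
  obtain ⟨δ, hδ, hδU⟩ := (show IsCompact (tsupport v) from hvc).exists_cthickening_subset_open hU hvU
  set S : Set V := cthickening 1 (tsupport v) with hSdef
  have hS : IsCompact S := (show IsCompact (tsupport v) from hvc).cthickening
  have hr1 : ∀ n, (bmp n).rOut ≤ 1 := by
    intro n
    show 1 / ((n : ℝ) + 1) ≤ 1
    rw [div_le_one (by positivity)]
    have : (0 : ℝ) ≤ n := Nat.cast_nonneg n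
    linarith
  have hsv : tsupport v ⊆ S := self_subset_cthickening _
  have hsm : ∀ n, tsupport (ml v n) ⊆ S := fun n => ml_tsupport (hr1 n)
  have hvoff : ∀ x, x ∉ S → v x = 0 := fun x hx => by
    by_contra h
    exact hx (hsv (subset_tsupport v h))
  have hmoff : ∀ n x, x ∉ S → ml v n x = 0 := fun n x hx => by
    by_contra h
    exact hx (hsm n (subset_tsupport _ h))
  have hvd : ∀ x, x ∉ S → fderiv ℝ v x = 0 := fun x hx => fderiv_zero_off hsv hx
  have hmd : ∀ n x, x ∉ S → fderiv ℝ (ml v n) x = 0 := fun n x hx => fderiv_zero_off (hsm n) hx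
  have hb1 : ∀ x, ‖fderiv ℝ v x‖ ≤ K := fun x => norm_fderiv_le_of_lipschitz ℝ hv
  have hb2 : ∀ n x, ‖fderiv ℝ (ml v n) x‖ ≤ K := fun n x =>
    norm_fderiv_le_of_lipschitz ℝ (ml_lip hv n)
  have hb3 : ∀ n x, ‖fderiv ℝ v x - fderiv ℝ (ml v n) x‖ ≤ 2 * K := fun n x => by
    have := norm_sub_le (fderiv ℝ v x) (fderiv ℝ (ml v n) x)
    have := hb1 x
    have := hb2 n x
    linarith
  have hcd : ∀ n, Continuous (ml v n) := fun n => (ml_contDiff hv.continuous n).continuous
  have hme : ∀ n, Measurable (fun x => fderiv ℝ v x - fderiv ℝ (ml v n) x) := fun n =>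
    (measurable_fderiv ℝ v).sub (measurable_fderiv ℝ (ml v n))
  have t1 : Tendsto (fun n => ∫ x, (v x - ml v n x) ^ 2) atTop (𝓝 0) := by
    refine tend_int hS ((K : ℝ) ^ 2) (fun n => ?_) (fun n x _ => ?_) (fun n x hx => ?_)
      (Eventually.of_forall fun x => ?_)
    · exact ((hv.continuous.sub (hcd n)).pow 2).aestronglyMeasurable
    · rw [Real.norm_eq_abs, abs_pow, abs_sub_comm]
      exact pow_le_pow_left₀ (abs_nonneg _) (ml_near hv n x) 2
    · rw [hvoff x hx, hmoff n x hx]
      simp
    · have h1 := ((ml_tendsto hv.continuous x).const_sub (v x)).pow 2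
      simpa using h1
  have t3 : Tendsto (fun n => ∫ x, |v x - ml v n x|) atTop (𝓝 0) := by
    refine tend_int hS (K : ℝ) (fun n => ?_) (fun n x _ => ?_) (fun n x hx => ?_)
      (Eventually.of_forall fun x => ?_)
    · exact (hv.continuous.sub (hcd n)).abs.aestronglyMeasurable
    · rw [Real.norm_eq_abs, abs_abs, abs_sub_comm]
      exact ml_near hv n x
    · rw [hvoff x hx, hmoff n x hx]
      simp
    · have h1 := ((ml_tendsto hv.continuous x).const_sub (v x)).abs
      simpa using h1
  have t2 : Tendsto (fun n => ∫ x, ‖gradient v x - gradient (ml v n) x‖ ^ 2) atTop (𝓝 0) := by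
    simp only [gradient_norm]
    refine tend_int hS ((2 * K : ℝ) ^ 2) (fun n => ?_) (fun n x _ => ?_) (fun n x hx => ?_) ?_
    · exact ((hme n).norm.pow_const 2).aestronglyMeasurable
    · rw [Real.norm_eq_abs, abs_pow, abs_norm]
      exact pow_le_pow_left₀ (norm_nonneg _) (hb3 n x) 2
    · rw [hvd x hx, hmd n x hx]
      simp
    · filter_upwards [fderiv_ae hv] with x hx
      have h1 := (hx.const_sub (fderiv ℝ v x)).norm.pow 2
      simpa using h1
  have t4 : Tendsto (fun n => ∫ x, ‖fderiv ℝ v x - fderiv ℝ (ml v n) x‖) atTop (𝓝 0) := by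
    refine tend_int hS (2 * K : ℝ) (fun n => ?_) (fun n x _ => ?_) (fun n x hx => ?_) ?_
    · exact (hme n).norm.aestronglyMeasurable
    · rw [Real.norm_eq_abs, abs_norm]
      exact hb3 n x
    · rw [hvd x hx, hmd n x hx]
      simp
    · filter_upwards [fderiv_ae hv] with x hx
      have h1 := (hx.const_sub (fderiv ℝ v x)).norm
      simpa using h1
  have e1 := (tendsto_order.1 t1).2 ε hε
  have e2 := (tendsto_order.1 t2).2 ε hε
  have e3 := (tendsto_order.1 t3).2 ε hε
  have e4 := (tendsto_order.1 t4).2 ε hε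
  have e5 := (tendsto_order.1 tendsto_bmp).2 δ hδ
  obtain ⟨n, h1, h2, h3, h4, h5⟩ := (e1.and (e2.and (e3.and (e4.and e5)))).exists
  refine ⟨ml v n, ⟨ml_contDiff hv.continuous n, ?_, ?_⟩, h1, h2, h3, h4⟩
  · exact hS.of_isClosed_subset (isClosed_tsupport _) (hsm n)
  · exact (ml_tsupport h5.le).trans hδU

end Pool.Agent.H417R2.CH
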