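import Pool.Agent.H417R2.CH.Defs2
import Pool.Agent.H709R2.Indicatrix

/-!
Project CH (helper417), task LINE: one-dimensional co-area inequality counting components of
superlevel sets.
-/

set_option autoImplicit false
open MeasureTheory Metric Set Filter Topology
open scoped ContDiff InnerProductSpace ENNReal NNReal

namespace Pool.Agent.H417R2.CH

namespace LINE

theorem left {f : ℝ → ℝ} (hf : Continuous f) (hc : HasCompactSupport f) {t x : ℝ} (ht : 0 < t)
    (hx : t < f x) : ∃ a, a < x ∧ f a = t ∧ ∀ y, a < y → y ≤ x → t < f y := by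
  obtain ⟨y₀, hy₀x, hy₀⟩ : ∃ y, y ≤ x ∧ f y ≤ t := by
    obtain ⟨R, hR⟩ := hc.isCompact.isBounded.subset_closedBall 0
    refine ⟨min x (-R - 1), min_le_left _ _, ?_⟩
    have h0 : f (min x (-R - 1)) = 0 := by
      by_contra h
      have h1 := hR (subset_tsupport _ h)
      rw [mem_closedBall, Real.dist_eq, sub_zero] at h1
      have h2 := (abs_le.1 h1).1
      have h3 := min_le_right x (-R - 1)
      linarith
    linarith
  set K : Set ℝ := {y | y ≤ x ∧ f y ≤ t} with hK
  have hKc : IsClosed K := (isClosed_le continuous_id continuous_const).inter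
    (isClosed_le hf continuous_const)
  have hKb : BddAbove K := ⟨x, fun y hy => hy.1⟩
  have hKn : K.Nonempty := ⟨y₀, hy₀x, hy₀⟩
  have hm : sSup K ∈ K := hKc.csSup_mem hKn hKb
  set a := sSup K with ha
  have hax : a < x := by
    rcases lt_or_eq_of_le hm.1 with h | h
    · exact h
    · exfalso
      have := hm.2
      rw [h] at this
      linarith
  have hgt : ∀ y, a < y → y ≤ x → t < f y := by
    intro y hy hyx
    by_contra hcon
    push Not at hcon
    have : y ≤ a := le_csSup hKb ⟨hyx, hcon⟩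
    linarith
  refine ⟨a, hax, le_antisymm hm.2 ?_, hgt⟩
  have h1 : Tendsto f (𝓝[>] a) (𝓝 (f a)) := hf.continuousAt.tendsto.mono_left nhdsWithin_le_nhds
  refine ge_of_tendsto h1 ?_
  filter_upwards [Ioc_mem_nhdsGT hax] with y hy
  exact (hgt y hy.1 hy.2).le

theorem right {f : ℝ → ℝ} (hf : Continuous f) (hc : HasCompactSupport f) {t x : ℝ} (ht : 0 < t)
    (hx : t < f x) : ∃ b, x < b ∧ f b = t ∧ ∀ y, x ≤ y → y < b → t < f y := by
  have hc' : HasCompactSupport (fun y => f (-y)) :=
    hc.comp_homeomorph (Homeomorph.neg ℝ)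
  obtain ⟨a, ha1, ha2, ha3⟩ := left (f := fun y => f (-y)) (hf.comp continuous_neg) hc' ht
    (x := -x) (by simpa using hx)
  refine ⟨-a, by linarith, ha2, fun y h1 h2 => ?_⟩
  have := ha3 (-y) (by linarith) (by linarith)
  simpa using this

theorem count {f : ℝ → ℝ} (hf : Differentiable ℝ f) (hc : HasCompactSupport f) {t : ℝ}
    (ht : 0 < t) (hcrit : ∀ x, f x = t → deriv f x ≠ 0) (F : Finset ℝ) (hF : ∀ x ∈ F, t < f x)
    (hsep : ∀ x ∈ F, ∀ y ∈ F, x < y → ∃ z ∈ Ioo x y, f z ≤ t) :
    ((2 * F.card : ℕ) : ℕ∞) ≤ (f ⁻¹' {t}).encard := by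
  have hL : ∀ x : F, ∃ a, a < x.1 ∧ f a = t ∧ ∀ y, a < y → y ≤ x.1 → t < f y :=
    fun x => left hf.continuous hc ht (hF x x.2)
  have hR : ∀ x : F, ∃ b, x.1 < b ∧ f b = t ∧ ∀ y, x.1 ≤ y → y < b → t < f y :=
    fun x => right hf.continuous hc ht (hF x x.2)
  choose a ha1 ha2 ha3 using hL
  choose b hb1 hb2 hb3 using hR
  have hlt : ∀ x y : F, x.1 < y.1 → b x < a y := by
    intro x y hxy
    obtain ⟨z, hz, hfz⟩ := hsep x x.2 y y.2 hxy
    have h1 : b x ≤ z := by
      by_contra h
      push Not at h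
      have := hb3 x z hz.1.le h
      linarith
    have h2 : z ≤ a y := by
      by_contra h
      push Not at h
      have := ha3 y z h hz.2.le
      linarith
    rcases lt_or_eq_of_le (h1.trans h2) with h | h
    · exact h
    · exfalso
      refine hcrit (b x) (hb2 x) ?_
      have hmin : IsLocalMin f (b x) := by
        have hmem : Ioo x.1 y.1 ∈ 𝓝 (b x) := by
          refine Ioo_mem_nhds (hb1 x) ?_
          rw [h]; exact ha1 y
        filter_upwards [hmem] with w hw
        rw [hb2 x]
        rcases lt_trichotomy w (b x) with h3 | h3 | h3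
        · exact (hb3 x w hw.1.le h3).le
        · rw [h3, hb2 x]
        · exact (ha3 y w (by rw [← h]; exact h3) hw.2.le).le
      exact hmin.deriv_eq_zero
  let e : F ⊕ F → ℝ := Sum.elim a b
  have he : Function.Injective e := by
    have hab : ∀ x y : F, a x ≠ b y := by
      intro x y hxy
      rcases lt_trichotomy x.1 y.1 with h | h | h
      · linarith [ha1 x, hb1 y]
      · linarith [ha1 x, hb1 y]
      · have := hlt y x h
        linarith
    rintro (x | x) (y | y) hxy
    · simp only [e, Sum.elim_inl] at hxy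
      congr 1
      rcases lt_trichotomy x.1 y.1 with h | h | h
      · exfalso; have := hlt x y h; linarith [ha1 x, hb1 x]
      · exact Subtype.ext h
      · exfalso; have := hlt y x h; linarith [ha1 y, hb1 y]
    · exact absurd hxy (hab x y)
    · exact absurd hxy.symm (hab y x)
    · simp only [e, Sum.elim_inr] at hxy
      congr 1
      rcases lt_trichotomy x.1 y.1 with h | h | h
      · exfalso; have := hlt x y h; linarith [ha1 y, hb1 y]
      · exact Subtype.ext h
      · exfalso; have := hlt y x h; linarith [ha1 x, hb1 x]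
  have hsub : range e ⊆ f ⁻¹' {t} := by
    rintro _ ⟨(x | x), rfl⟩
    · exact ha2 x
    · exact hb2 x
  have hcard : (range e).encard = ((2 * F.card : ℕ) : ℕ∞) := by
    rw [← image_univ, he.encard_image, encard_univ, ENat.card_eq_coe_fintype_card,
      Fintype.card_sum, Fintype.card_coe, two_mul]
  rw [← hcard]
  exact encard_le_encard hsub

end LINE

theorem t_LINE : S_LINE := by
  intro f hf hc
  have hd : Differentiable ℝ f := hf.differentiable one_ne_zero
  obtain ⟨N, hN, hN1, hN2⟩ := Pool.Agent.H709R2.indicatrix (S := univ) MeasurableSet.univ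
    (a := f) (a' := deriv f) (fun s _ => (hd s).hasDerivAt)
  have hS : MeasurableSet {x | deriv f x = 0} :=
    (isClosed_eq (hf.continuous_deriv le_rfl) continuous_const).measurableSet
  obtain ⟨g, hg, hg1, hg2⟩ := Pool.Agent.H709R2.indicatrix (S := {x | deriv f x = 0}) hS
    (a := f) (a' := deriv f) (fun s _ => (hd s).hasDerivAt)
  refine ⟨N, hN, by simpa using hN2, ?_⟩
  have hg0 : ∫⁻ β, g β = 0 := by
    refine le_antisymm (hg2.trans ?_) zero_le
    refine le_of_eq ?_
    rw [lintegral_eq_zero_iff']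
    · filter_upwards [ae_restrict_mem hS] with x hx
      have hx' : deriv f x = 0 := hx
      simp [hx']
    · exact ((hf.continuous_deriv le_rfl).abs.measurable.ennreal_ofReal).aemeasurable
  rw [lintegral_eq_zero_iff hg] at hg0
  filter_upwards [hg0] with t ht htpos F hF hsep
  have hcrit : ∀ x, f x = t → deriv f x ≠ 0 := by
    intro x hx hx0
    have h1 := hg1 t
    rw [ht] at h1
    have h2 : (({x | deriv f x = 0} ∩ f ⁻¹' {t}).encard : ℝ≥0∞) = 0 := le_antisymm h1 zero_le
    have h3 : ({x | deriv f x = 0} ∩ f ⁻¹' {t}).encard = 0 := by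
      exact_mod_cast h2
    rw [encard_eq_zero] at h3
    have : x ∈ ({x | deriv f x = 0} ∩ f ⁻¹' {t} : Set ℝ) := ⟨hx0, hx⟩
    rw [h3] at this
    exact this
  have h := LINE.count hd hc htpos hcrit F hF hsep
  have h1 := hN1 t
  rw [univ_inter] at h1
  refine le_trans ?_ h1
  have h2 : (((2 * F.card : ℕ) : ℕ∞) : ℝ≥0∞) ≤ ((f ⁻¹' {t}).encard : ℝ≥0∞) := by
    exact_mod_cast h
  refine le_trans (le_of_eq ?_) h2
  push_cast
  rfl

end Pool.Agent.H417R2.CH
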