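import Pool.Agent.H417R2.CH.Defs2

/-!
Project CH (helper417), task LIPO: the Cheeger inequality for Lipschitz functions.
-/

set_option autoImplicit false
open MeasureTheory Metric Set Filter Topology
open scoped ContDiff InnerProductSpace ENNReal NNReal

namespace Pool.Agent.H417R2.CH

open Pool.Agent.Helper546 (Tst lap)

namespace LIPO

theorem hC_nonneg (U : Set V) : 0 ≤ hC U := by
  apply Real.sInf_nonneg
  rintro c ⟨u, -, rfl⟩
  positivity

/-- the norm of the derivative of a Lipschitz function with compact support is integrable -/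
theorem int_fderiv_lip {v : V → ℝ} {K : ℝ≥0} (hv : LipschitzWith K v)
    (hc : HasCompactSupport v) : Integrable (fun x => fderiv ℝ v x) := by
  have hm : Measurable (fderiv ℝ v) := measurable_fderiv ℝ v
  have h0 : ∀ x, x ∉ tsupport v → fderiv ℝ v x = 0 := by
    intro x hx
    have : x ∉ tsupport (fderiv ℝ v) := fun h => hx (tsupport_fderiv_subset ℝ h)
    exact image_eq_zero_of_notMem_tsupport this
  have hfin : volume (tsupport v) < ⊤ := hc.isCompact.measure_lt_top
  have hon : IntegrableOn (fun x => fderiv ℝ v x) (tsupport v) := by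
    refine Measure.integrableOn_of_bounded (M := K) hfin.ne hm.aestronglyMeasurable ?_
    exact ae_of_all _ (fun x => norm_fderiv_le_of_lipschitz ℝ hv)
  have hsub : Function.support (fun x => fderiv ℝ v x) ⊆ tsupport v := by
    intro x hx
    by_contra hcx
    exact hx (h0 x hcx)
  have hiff := integrableOn_iff_integrable_of_support_subset (μ := (volume : Measure V))
    (f := fun x : V => fderiv ℝ v x) hsub
  exact hiff.1 hon

theorem int_lip {v : V → ℝ} {K : ℝ≥0} (hv : LipschitzWith K v)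
    (hc : HasCompactSupport v) : Integrable v :=
  hv.continuous.integrable_of_hasCompactSupport hc

theorem int_tst {U : Set V} {φ : V → ℝ} (hφ : Tst U φ) : Integrable φ :=
  hφ.1.continuous.integrable_of_hasCompactSupport hφ.2.1

theorem int_fderiv_tst {U : Set V} {φ : V → ℝ} (hφ : Tst U φ) :
    Integrable (fun x => fderiv ℝ φ x) :=
  (hφ.1.continuous_fderiv (by simp)).integrable_of_hasCompactSupport (hφ.2.1.fderiv ℝ)

theorem test_bound {U : Set V} {φ : V → ℝ} (hφ : Tst U φ) :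
    hC U * ∫ x, |φ x| ≤ ∫ x, ‖fderiv ℝ φ x‖ := by
  by_cases h0 : ∃ x, φ x ≠ 0
  · obtain ⟨x₀, hx₀⟩ := h0
    have hpos : 0 < ∫ x, |φ x| := by
      refine (hφ.1.continuous.abs).integral_pos_of_hasCompactSupport_nonneg_nonzero ?_ ?_
        (x := x₀) ?_
      · exact hφ.2.1.comp_left (g := fun t : ℝ => |t|) abs_zero
      · intro x
        exact abs_nonneg _
      · exact abs_ne_zero.2 hx₀
    have hle : hC U ≤ (∫ x, ‖fderiv ℝ φ x‖) / ∫ x, |φ x| := by
      refine csInf_le ⟨0, ?_⟩ ⟨φ, ⟨hφ.1, hφ.2.1, hφ.2.2, x₀, hx₀⟩, rfl⟩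
      rintro c ⟨u, -, rfl⟩
      positivity
    exact (le_div_iff₀ hpos).1 hle
  · push Not at h0
    have : ∫ x, |φ x| = 0 := by simp [h0]
    rw [this, mul_zero]
    positivity

end LIPO

open LIPO in
theorem t_LIPO (h : S_LAP) : S_LIPO := by
  intro U hU _ v K hv hc h0
  refine le_of_forall_pos_le_add fun δ hδ => ?_
  have hn := hC_nonneg U
  have hp : 0 < 1 + hC U := by linarith
  obtain ⟨φ, hφ, -, -, h3, h4⟩ := h U hU v K hv hc h0 (δ / (1 + hC U)) (div_pos hδ hp)
  have e1 : ∫ x, |v x| ≤ (∫ x, |φ x|) + ∫ x, |v x - φ x| := by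
    have i1 : Integrable (fun x => |v x - φ x|) := ((int_lip hv hc).sub (int_tst hφ)).abs
    rw [← integral_add (int_tst hφ).abs i1]
    refine integral_mono (int_lip hv hc).abs ((int_tst hφ).abs.add i1) (fun x => ?_)
    show |v x| ≤ |φ x| + |v x - φ x|
    have := abs_add_le (φ x) (v x - φ x)
    rwa [add_sub_cancel] at this
  have e2 : ∫ x, ‖fderiv ℝ φ x‖ ≤ (∫ x, ‖fderiv ℝ v x‖) + ∫ x, ‖fderiv ℝ v x - fderiv ℝ φ x‖ := by
    have i1 : Integrable (fun x => ‖fderiv ℝ v x - fderiv ℝ φ x‖) :=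
      ((int_fderiv_lip hv hc).sub (int_fderiv_tst hφ)).norm
    rw [← integral_add (int_fderiv_lip hv hc).norm i1]
    refine integral_mono (int_fderiv_tst hφ).norm ((int_fderiv_lip hv hc).norm.add i1)
      (fun x => ?_)
    show ‖fderiv ℝ φ x‖ ≤ ‖fderiv ℝ v x‖ + ‖fderiv ℝ v x - fderiv ℝ φ x‖
    have := norm_sub_le (fderiv ℝ v x) (fderiv ℝ v x - fderiv ℝ φ x)
    rwa [sub_sub_cancel] at this
  have e3 := test_bound hφ
  have e4 : hC U * ∫ x, |v x| ≤ hC U * ((∫ x, |φ x|) + ∫ x, |v x - φ x|) :=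
    mul_le_mul_of_nonneg_left e1 hn
  have e5 : hC U * ∫ x, |v x - φ x| ≤ hC U * (δ / (1 + hC U)) :=
    mul_le_mul_of_nonneg_left h3.le hn
  have e6 : (1 + hC U) * (δ / (1 + hC U)) = δ := by field_simp
  calc hC U * ∫ x, |v x| ≤ hC U * (∫ x, |φ x|) + hC U * ∫ x, |v x - φ x| := by
        rw [← mul_add]; exact e4
    _ ≤ (∫ x, ‖fderiv ℝ φ x‖) + hC U * (δ / (1 + hC U)) := add_le_add e3 e5
    _ ≤ (∫ x, ‖fderiv ℝ v x‖) + δ / (1 + hC U) + hC U * (δ / (1 + hC U)) := by
        have := e2.trans (add_le_add_right h4.le (∫ x, ‖fderiv ℝ v x‖))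
        linarith
    _ = (∫ x, ‖fderiv ℝ v x‖) + (1 + hC U) * (δ / (1 + hC U)) := by ring
    _ = (∫ x, ‖fderiv ℝ v x‖) + δ := by rw [e6]

end Pool.Agent.H417R2.CH
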