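import Pool.Agent.H417R2.CH.Defs2

/-!
Project CH (helper417), task LOW: lower bound for the measure of the set of centres touching a
given arc.
-/

set_option autoImplicit false
open MeasureTheory Metric Set Filter Topology
open scoped ContDiff InnerProductSpace ENNReal NNReal

namespace Pool.Agent.H417R2.CH

open Pool.Agent.Helper546 (Tst lap)

namespace LOW

lemma frame_beta {U : Set V} {r α β : ℝ} {l g : ℝ → ℝ} {R k X₀ : ℝ}
    (h : Frame U r α β l g R k X₀) : α ≤ -R ∧ R ≤ β := by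
  have hr := h.good.r_pos
  have hR : 0 < R := hr.trans h.hR
  have key : ∀ x : ℝ, |x| < R → α < x ∧ x < β := by
    intro x hx
    have hmem : pt x 0 ∈ ball (0 : V) R := by
      rw [mem_ball_zero_iff, EuclideanSpace.norm_eq]
      simp only [pt, Fin.sum_univ_two]
      simp
      rwa [Real.sqrt_sq_eq_abs]
    have := h.hball hmem
    rw [h.eq] at this
    obtain ⟨h1, h2, -, -⟩ := this
    simp [pt] at h1 h2
    exact ⟨h1, h2⟩
  constructor
  · by_contra hc
    push Not at hc
    by_cases hα : α < R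
    · have := (key α (abs_lt.2 ⟨hc, hα⟩)).1
      exact lt_irrefl _ this
    · push Not at hα
      have := (key 0 (by simpa using hR)).1
      linarith
  · by_contra hc
    push Not at hc
    by_cases hα : -R < β
    · have := (key β (abs_lt.2 ⟨hα, hc⟩)).2
      exact lt_irrefl _ this
    · push Not at hα
      have := (key 0 (by simpa using hR)).2
      linarith

lemma CS_finite (g : ℝ → ℝ) (r δ₀ : ℝ) (A : Set ℝ) : volume (CS g r δ₀ A) ≠ ⊤ := by
  have : CS g r δ₀ A ⊆ Icc (-δ₀) δ₀ := fun x hx => hx.1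
  exact ((measure_mono this).trans_lt (by rw [Real.volume_Icc]; exact ENNReal.ofReal_lt_top)).ne

lemma len_split {g : ℝ → ℝ} {r δ₀ : ℝ} {A B C D : Set ℝ} (h : A ⊆ B ∪ C ∪ D) :
    len (CS g r δ₀ A) ≤ len (CS g r δ₀ B) + len (CS g r δ₀ C) + len (CS g r δ₀ D) := by
  have hs : CS g r δ₀ A ⊆ CS g r δ₀ B ∪ CS g r δ₀ C ∪ CS g r δ₀ D := by
    rintro x ⟨hx, X, hX, hc⟩
    rcases h hX with (h1 | h1) | h1
    · exact Or.inl (Or.inl ⟨hx, X, h1, hc⟩)
    · exact Or.inl (Or.inr ⟨hx, X, h1, hc⟩)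
    · exact Or.inr ⟨hx, X, h1, hc⟩
  have h1 : volume (CS g r δ₀ A) ≤
      volume (CS g r δ₀ B) + volume (CS g r δ₀ C) + volume (CS g r δ₀ D) :=
    (measure_mono hs).trans ((measure_union_le _ _).trans
      (add_le_add (measure_union_le _ _) le_rfl))
  unfold len
  rw [← ENNReal.toReal_add (CS_finite _ _ _ _) (CS_finite _ _ _ _),
    ← ENNReal.toReal_add (by simp [CS_finite]) (CS_finite _ _ _ _)]
  exact ENNReal.toReal_mono (by simp [CS_finite]) h1

/-- the upper bound for the variation of the area -/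
lemma FF_le {U : Set V} {r α β : ℝ} {l g : ℝ → ℝ} {R k X₀ : ℝ}
    (hf : Frame U r α β l g R k X₀) (h3 : S_GRF) (h4 : S_CTB) {δ₀ : ℝ} (hδ : 0 < δ₀)
    (hδR : δ₀ < R - r) {φ : ℝ → ℝ} (hφ : Continuous φ) {a d M : ℝ} (had : a ≤ d) (hM : 0 ≤ M)
    (hz : ∀ x, x ∉ Ioo a d → φ x = 0) (hb : ∀ x, φ x ≤ M) :
    FF g r δ₀ φ ≤ M * len (CS g r δ₀ (Icc a d)) := by
  obtain ⟨g1, -, g3⟩ := h3 U r α β l g R k X₀ hf δ₀ hδ hδR
  obtain ⟨c1, -, -, -, -, c6⟩ := h4 U r α β l g R k X₀ hf δ₀ hδ hδR
  obtain ⟨hmeas, -⟩ := c6 a d had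
  have hle : -δ₀ ≤ δ₀ := by linarith
  have hc1 : ContinuousOn (gr (fun z => g z + φ z) r) (Icc (-δ₀) δ₀) := g1 φ hφ
  have hc0 : ContinuousOn (gr g r) (Icc (-δ₀) δ₀) := by
    have := g1 (fun _ => 0) continuous_const
    simpa using this
  have hint : IntervalIntegrable (fun x => gr (fun z => g z + φ z) r x - gr g r x) volume
      (-δ₀) δ₀ := by
    apply ContinuousOn.intervalIntegrable
    rw [uIcc_of_le hle]
    exact hc1.sub hc0
  have hI : IntegrableOn ((CS g r δ₀ (Icc a d)).indicator (fun _ => M)) (Ioc (-δ₀) δ₀)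
      volume := by
    apply Integrable.indicator _ hmeas
    exact integrable_const M
  have hint2 : IntervalIntegrable ((CS g r δ₀ (Icc a d)).indicator (fun _ => M)) volume
      (-δ₀) δ₀ := by
    rw [intervalIntegrable_iff_integrableOn_Ioc_of_le hle]
    exact hI
  have hmono : FF g r δ₀ φ ≤
      ∫ x in (-δ₀)..δ₀, (CS g r δ₀ (Icc a d)).indicator (fun _ => M) x := by
    unfold FF
    apply intervalIntegral.integral_mono_on hle hint hint2
    intro x hx
    by_cases hxC : x ∈ CS g r δ₀ (Icc a d)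
    · rw [indicator_of_mem hxC]
      obtain ⟨-, X, -, hX⟩ := hxC
      have := g3 φ hφ x hx X hX
      have := hb X
      linarith
    · rw [indicator_of_notMem hxC]
      obtain ⟨X, hX⟩ := c1 x hx
      have hXn : X ∉ Icc a d := fun hh => hxC ⟨hx, X, hh, hX⟩
      have h0 : φ X = 0 := hz X (fun hh => hXn (Ioo_subset_Icc_self hh))
      have := g3 φ hφ x hx X hX
      rw [h0] at this
      linarith
  refine hmono.trans ?_
  rw [intervalIntegral.integral_of_le hle, setIntegral_indicator hmeas, setIntegral_const]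
  rw [smul_eq_mul, mul_comm]
  apply mul_le_mul_of_nonneg_left _ hM
  unfold len
  rw [measureReal_def]
  exact ENNReal.toReal_mono (CS_finite _ _ _ _) (measure_mono inter_subset_right)

/-- monotonicity of the area of the inner parallel set in the radius -/
lemma ar_Inn_mono {U : Set V} (hU : PC U) {r ρ : ℝ} (hr : 0 < r) (h : r ≤ ρ) :
    ar (Inn U ρ) ≤ ar (Inn U r) := by
  have h1 : Inn U ρ ⊆ Inn U r := fun x hx => (ball_subset_ball h).trans hx
  have h2 : Inn U r ⊆ U := fun x hx => hx (mem_ball_self hr)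
  have h3 : volume (Inn U r) ≠ ⊤ :=
    ((measure_mono h2).trans_lt hU.bdd.measure_lt_top).ne
  exact ENNReal.toReal_mono h3 (measure_mono h1)

/-- the elementary limit argument -/
lemma limit_arg {lam0 r A κ s₀ : ℝ} (hr : 0 < r) (hA : 0 ≤ A) (hκ : 0 ≤ κ) (hs₀ : 0 < s₀)
    (h : ∀ s, 0 < s → s ≤ s₀ → lam0 * r ^ 2 ≤ (lam0 - A * s) * (r + s * κ) ^ 2) :
    A * r ^ 2 ≤ 2 * lam0 * r * κ := by
  have key : ∀ s, 0 < s → s ≤ s₀ → A * r ^ 2 ≤ 2 * lam0 * r * κ + s * (lam0 * κ ^ 2) := by
    intro s hs hs1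
    have h1 := h s hs hs1
    have h2 : A * s * r ^ 2 ≤ A * s * (r + s * κ) ^ 2 := by
      apply mul_le_mul_of_nonneg_left _ (by positivity)
      apply pow_le_pow_left₀ hr.le
      nlinarith [mul_nonneg hs.le hκ]
    have h3 : s * (A * r ^ 2) ≤ s * (2 * lam0 * r * κ + s * (lam0 * κ ^ 2)) := by
      nlinarith [h1, h2]
    exact le_of_mul_le_mul_left h3 hs
  have ht : Tendsto (fun s : ℝ => 2 * lam0 * r * κ + s * (lam0 * κ ^ 2)) (𝓝[>] 0)
      (𝓝 (2 * lam0 * r * κ)) := by
    have : Tendsto (fun s : ℝ => 2 * lam0 * r * κ + s * (lam0 * κ ^ 2)) (𝓝 0)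
        (𝓝 (2 * lam0 * r * κ + 0 * (lam0 * κ ^ 2))) :=
      (continuous_const.add (continuous_id.mul continuous_const)).tendsto 0
    rw [zero_mul, add_zero] at this
    exact this.mono_left nhdsWithin_le_nhds
  refine ge_of_tendsto ht ?_
  filter_upwards [Ioc_mem_nhdsGT hs₀] with s hs
  exact key s hs.1 hs.2

end LOW

open LOW in
theorem t_LOW (h1 : S_ALM) (h2 : S_ARE) (h3 : S_GRF) (h4 : S_CTB) (h5 : S_HAT) (h6 : S_ADM)
    (h7 : S_EIG) (h8 : S_REG) : S_LOW := by
  intro U r α β l g R k X₀ hf δ₀ hδ hδR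
  obtain ⟨u, hu⟩ := h7 U hf.good.pc
  obtain ⟨c₁, w₁, hc₁, hw₁, hALM⟩ := h1 U r α β l g R k X₀ hf u hu
  have hlam := hu.lampos
  have hr := hf.good.r_pos
  have hrR := hf.hR
  obtain ⟨hαR, hRβ⟩ := frame_beta hf
  have hX := abs_lt.1 hf.hX
  set c₃ : ℝ := Real.pi * c₁ * r ^ 2 / (2 * lam U) with hc₃
  have hc₃pos : 0 < c₃ := by positivity
  set c : ℝ := min (c₃ / 3) (1 / 8) with hc
  have hcpos : 0 < c := by rw [hc]; positivity
  have hc3 : c ≤ c₃ / 3 := min_le_left _ _
  have hc8 : c ≤ 1 / 8 := min_le_right _ _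
  refine ⟨c, min w₁ (δ₀ / 2), hcpos, by positivity, ?_⟩
  intro b d hXb hbw hw hBb hBd
  have hww₁ : d - X₀ ≤ w₁ := hw.trans (min_le_left _ _)
  have hwδ : d - X₀ ≤ δ₀ / 2 := hw.trans (min_le_right _ _)
  set w : ℝ := d - X₀ with hwdef
  have hwpos : 0 < w := by
    by_contra hcon
    push Not at hcon
    nlinarith
  have hb8 : b - X₀ ≤ w / 8 := by nlinarith
  have hbd : b < d := by linarith
  obtain ⟨a, ⟨hXa, hab⟩, hBa⟩ := hf.bends (b - X₀) (by linarith)
  have hab' : a < b := by linarith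
  -- the small parameter
  obtain ⟨e, he, he4, heX, heb, hed, heδ, hew⟩ : ∃ e : ℝ, 0 < e ∧ e < 1 / 4 ∧ e < a - X₀ ∧
      4 * e < b - a ∧ 4 * e < d - b ∧ e < δ₀ / 2 ∧ 2 * e ≤ c * w := by
    have hcw : 0 < c * w := mul_pos hcpos hwpos
    refine ⟨min (min (min (1 / 8) ((a - X₀) / 2)) (min ((b - a) / 8) ((d - b) / 8)))
      (min (δ₀ / 4) (c * w / 2)), ?_, ?_, ?_, ?_, ?_, ?_, ?_⟩
    · have h1 : 0 < (a - X₀) / 2 := by linarith
      have h2 : 0 < (b - a) / 8 := by linarith
      have h3 : 0 < (d - b) / 8 := by linarith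
      have h4 : 0 < δ₀ / 4 := by linarith
      have h5 : 0 < c * w / 2 := by linarith
      have h6 : (0 : ℝ) < 1 / 8 := by norm_num
      exact lt_min (lt_min (lt_min h6 h1) (lt_min h2 h3)) (lt_min h4 h5)
    · have : min (min (min (1 / 8) ((a - X₀) / 2)) (min ((b - a) / 8) ((d - b) / 8)))
        (min (δ₀ / 4) (c * w / 2)) ≤ 1 / 8 :=
        (min_le_left _ _).trans ((min_le_left _ _).trans (min_le_left _ _))
      linarith
    · have : min (min (min (1 / 8) ((a - X₀) / 2)) (min ((b - a) / 8) ((d - b) / 8)))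
        (min (δ₀ / 4) (c * w / 2)) ≤ (a - X₀) / 2 :=
        (min_le_left _ _).trans ((min_le_left _ _).trans (min_le_right _ _))
      linarith
    · have : min (min (min (1 / 8) ((a - X₀) / 2)) (min ((b - a) / 8) ((d - b) / 8)))
        (min (δ₀ / 4) (c * w / 2)) ≤ (b - a) / 8 :=
        (min_le_left _ _).trans ((min_le_right _ _).trans (min_le_left _ _))
      linarith
    · have : min (min (min (1 / 8) ((a - X₀) / 2)) (min ((b - a) / 8) ((d - b) / 8)))
        (min (δ₀ / 4) (c * w / 2)) ≤ (d - b) / 8 :=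
        (min_le_left _ _).trans ((min_le_right _ _).trans (min_le_right _ _))
      linarith
    · have : min (min (min (1 / 8) ((a - X₀) / 2)) (min ((b - a) / 8) ((d - b) / 8)))
        (min (δ₀ / 4) (c * w / 2)) ≤ δ₀ / 4 :=
        (min_le_right _ _).trans (min_le_left _ _)
      linarith
    · have : min (min (min (1 / 8) ((a - X₀) / 2)) (min ((b - a) / 8) ((d - b) / 8)))
        (min (δ₀ / 4) (c * w / 2)) ≤ c * w / 2 :=
        (min_le_right _ _).trans (min_le_right _ _)
      linarith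
  obtain ⟨φ, H, hAdm, hS⟩ := h5 α β g hf.reg.cg a b d e he he4 (by linarith) (by linarith)
    (by linarith) (by linarith) hBa hBb hBd
  have hH := hS.H_pos
  obtain ⟨hφc, -⟩ := h6.1 α β g φ (a - e) (d + e) hAdm
  -- bounds for the hat
  have hhat1 : ∀ x, hat a b d x ≤ 1 := by
    intro x
    unfold hat
    apply max_le zero_le_one
    by_cases hx : x ≤ b
    · refine (min_le_left _ _).trans ?_
      rw [div_le_one (by linarith)]
      linarith
    · push Not at hx
      refine (min_le_right _ _).trans ?_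
      rw [div_le_one (by linarith)]
      linarith
  have hφup : ∀ x, φ x ≤ 2 * H := by
    intro x
    have h1 := (abs_le.1 (hS.near x)).2
    have h2 : H * hat a b d x ≤ H := by
      have := mul_le_mul_of_nonneg_left (hhat1 x) hH.le
      linarith
    nlinarith
  have hφlow : ∀ x ∈ Icc b ((b + d) / 2), H / 4 ≤ φ x := by
    intro x hx
    have h1 := (abs_le.1 (hS.near x)).1
    have h2 : (1 : ℝ) / 2 ≤ hat a b d x := by
      unfold hat
      refine le_trans ?_ (le_max_right _ _)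
      apply le_min
      · rw [le_div_iff₀ (by linarith)]
        linarith [hx.1]
      · rw [le_div_iff₀ (by linarith)]
        linarith [hx.2]
    have h3 : H * (1 / 2) ≤ H * hat a b d x := mul_le_mul_of_nonneg_left h2 hH.le
    nlinarith
  obtain ⟨t₁, ht₁, hA⟩ := hALM φ H (a - e) (d + e) b d hH hAdm hS.nonneg hXb hb8 hww₁ hφlow
  obtain ⟨t₂, ht₂, hB⟩ := h2 U r α β l g R k X₀ hf δ₀ hδ hδR φ (a - e) (d + e) hAdm
    (by linarith) (by linarith)
  obtain ⟨t₃, ht₃, hC⟩ := h6.2.2 α β l g φ (a - e) (d + e) hf.reg hAdm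
  set L : ℝ := len (CS g r δ₀ (Icc (a - e) (d + e))) with hL
  have hL0 : 0 ≤ L := ENNReal.toReal_nonneg
  have hpi := Real.pi_pos
  -- the limit argument
  have hlim : (c₁ * w) * r ^ 2 ≤ 2 * lam U * r * (L / (Real.pi * r)) := by
    apply limit_arg (s₀ := min t₁ (min t₂ t₃) * H) hr (by positivity) (by positivity)
      (by positivity)
    intro s hs hs0
    set t : ℝ := s / H with ht
    have htpos : 0 < t := by positivity
    have htH : t * H = s := by rw [ht]; field_simp
    have htle : t ≤ min t₁ (min t₂ t₃) := by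
      rw [ht, div_le_iff₀ hH]
      exact hs0
    have e1 : t ≤ t₁ := htle.trans (min_le_left _ _)
    have e2 : t ≤ t₂ := htle.trans ((min_le_right _ _).trans (min_le_left _ _))
    have e3 : t ≤ t₃ := htle.trans ((min_le_right _ _).trans (min_le_right _ _))
    have habs : |t| = t := abs_of_pos htpos
    have k1 := hA t htpos e1
    have k2 := hB t (by rw [habs]; exact e2)
    have k3 := h8.1 α β l _ (hC t (by rw [habs]; exact e3))
    have k4 : FF g r δ₀ (fun x => t * φ x) ≤ (2 * s) * L := by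
      apply FF_le hf h3 h4 hδ hδR (continuous_const.mul hφc) (by linarith) (by positivity)
      · intro x hx
        show t * φ x = 0
        rw [hAdm.zero x hx, mul_zero]
      · intro x
        show t * φ x ≤ 2 * s
        have := mul_le_mul_of_nonneg_left (hφup x) htpos.le
        nlinarith
    set κ : ℝ := L / (Real.pi * r) with hκ
    have hκ0 : 0 ≤ κ := by positivity
    have hκ1 : Real.pi * r * κ = L := by rw [hκ]; field_simp
    have hρ : r ≤ r + s * κ := by nlinarith [mul_nonneg hs.le hκ0]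
    have hρpos : 0 < r + s * κ := by linarith
    have k5 : ar (Inn (Reg α β l (fun x => g x + t * φ x)) (r + s * κ)) ≤
        Real.pi * (r + s * κ) ^ 2 := by
      have a1 := ar_Inn_mono k3 hr hρ
      have a2 := hf.good.area
      have a3 : Real.pi * r ^ 2 + 2 * s * L ≤ Real.pi * (r + s * κ) ^ 2 := by
        have : Real.pi * (r + s * κ) ^ 2 =
            Real.pi * r ^ 2 + 2 * s * (Real.pi * r * κ) + Real.pi * (s * κ) ^ 2 := by ring
        rw [this, hκ1]
        have : 0 ≤ Real.pi * (s * κ) ^ 2 := by positivity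
        linarith
      linarith
    have k6 := hf.good.opt _ _ k3 hρpos k5
    have k7 : lam (Reg α β l (fun x => g x + t * φ x)) * (r + s * κ) ^ 2 ≤
        (lam U - c₁ * w * s) * (r + s * κ) ^ 2 := by
      apply mul_le_mul_of_nonneg_right _ (by positivity)
      have : c₁ * w * s = c₁ * t * H * w := by rw [← htH]; ring
      rw [this]
      exact k1
    exact k6.trans k7
  have hLc : c₃ * w ≤ L := by
    have e1 : 2 * lam U * r * (L / (Real.pi * r)) = 2 * lam U * L / Real.pi := by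
      field_simp
    rw [e1] at hlim
    have e2 : c₃ * w * (2 * lam U / Real.pi) = c₁ * w * r ^ 2 := by
      rw [hc₃]; field_simp
    have e3 : L * (2 * lam U / Real.pi) = 2 * lam U * L / Real.pi := by ring
    have e4 : c₃ * w * (2 * lam U / Real.pi) ≤ L * (2 * lam U / Real.pi) := by
      rw [e2, e3]; exact hlim
    exact le_of_mul_le_mul_right e4 (by positivity)
  -- splitting
  obtain ⟨-, -, -, -, -, c6⟩ := h4 U r α β l g R k X₀ hf δ₀ hδ hδR
  have s1 : L ≤ len (CS g r δ₀ (Icc (a - e) b)) + len (CS g r δ₀ (Icc b d)) +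
      len (CS g r δ₀ (Icc d (d + e))) := by
    apply len_split
    intro x hx
    by_cases hx1 : x ≤ b
    · exact Or.inl (Or.inl ⟨hx.1, hx1⟩)
    · by_cases hx2 : x ≤ d
      · push Not at hx1
        exact Or.inl (Or.inr ⟨hx1.le, hx2⟩)
      · push Not at hx2
        exact Or.inr ⟨hx2.le, hx.2⟩
  have s2 := (c6 (a - e) b (by linarith)).2
  have s3 := (c6 d (d + e) (by linarith)).2
  have s4 : c₃ * w ≥ 3 * (c * w) := by nlinarith
  linarith

end Pool.Agent.H417R2.CH
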