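import Pool.Agent.H417R2.CH.Defs2

set_option autoImplicit false
open MeasureTheory Metric Set Filter Topology
open scoped NNReal

namespace Pool.Agent.H417R2.CH

namespace MAINb

theorem CS_sub (g : ℝ → ℝ) (r δ₀ : ℝ) (A : Set ℝ) : CS g r δ₀ A ⊆ Icc (-δ₀) δ₀ := fun _ h => h.1

theorem CS_mono (g : ℝ → ℝ) (r δ₀ : ℝ) {A B : Set ℝ} (h : A ⊆ B) : CS g r δ₀ A ⊆ CS g r δ₀ B := by
  rintro x ⟨h1, X, hX, h2⟩
  exact ⟨h1, X, h hX, h2⟩

theorem CS_union (g : ℝ → ℝ) (r δ₀ : ℝ) (A B : Set ℝ) :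
    CS g r δ₀ (A ∪ B) = CS g r δ₀ A ∪ CS g r δ₀ B := by
  ext x; constructor
  · rintro ⟨h1, X, hX | hX, h2⟩
    · exact Or.inl ⟨h1, X, hX, h2⟩
    · exact Or.inr ⟨h1, X, hX, h2⟩
  · rintro (⟨h1, X, hX, h2⟩ | ⟨h1, X, hX, h2⟩)
    · exact ⟨h1, X, Or.inl hX, h2⟩
    · exact ⟨h1, X, Or.inr hX, h2⟩

theorem CS_fin (g : ℝ → ℝ) (r δ₀ : ℝ) (A : Set ℝ) : volume (CS g r δ₀ A) ≠ ⊤ :=
  ((measure_mono (CS_sub g r δ₀ A)).trans_lt measure_Icc_lt_top).ne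

theorem len_union (g : ℝ → ℝ) (r δ₀ : ℝ) (A B : Set ℝ) :
    len (CS g r δ₀ (A ∪ B)) ≤ len (CS g r δ₀ A) + len (CS g r δ₀ B) := by
  unfold len
  rw [CS_union, ← ENNReal.toReal_add (CS_fin _ _ _ _) (CS_fin _ _ _ _)]
  exact ENNReal.toReal_mono (ENNReal.add_ne_top.2 ⟨CS_fin _ _ _ _, CS_fin _ _ _ _⟩)
    (measure_union_le _ _)

theorem len_mono (g : ℝ → ℝ) (r δ₀ : ℝ) {A B : Set ℝ} (h : A ⊆ B) :
    len (CS g r δ₀ A) ≤ len (CS g r δ₀ B) :=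
  ENNReal.toReal_mono (CS_fin _ _ _ _) (measure_mono (CS_mono g r δ₀ h))

theorem len_shrink {g : ℝ → ℝ} {r δ₀ : ℝ}
    (h6 : ∀ a b : ℝ, a ≤ b → MeasurableSet (CS g r δ₀ (Icc a b)) ∧
      len (CS g r δ₀ (Icc a b)) ≤ b - a) {a b e : ℝ} (he : 0 < e) (_hab : a + 4 * e < b) :
    len (CS g r δ₀ (Icc a b)) - 4 * e ≤ len (CS g r δ₀ (Icc (a + 2 * e) (b - 2 * e))) := by
  have h1 := (h6 a (a + 2 * e) (by linarith)).2
  have h2 := (h6 (b - 2 * e) b (by linarith)).2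
  have h3 : Icc a b ⊆ (Icc a (a + 2 * e) ∪ Icc (a + 2 * e) (b - 2 * e)) ∪ Icc (b - 2 * e) b := by
    intro x hx
    rcases le_total x (a + 2 * e) with h | h
    · exact Or.inl (Or.inl ⟨hx.1, h⟩)
    · rcases le_total x (b - 2 * e) with h' | h'
      · exact Or.inl (Or.inr ⟨h, h'⟩)
      · exact Or.inr ⟨h', hx.2⟩
  have h4 := len_mono g r δ₀ h3
  have h5 := len_union g r δ₀ (Icc a (a + 2 * e) ∪ Icc (a + 2 * e) (b - 2 * e)) (Icc (b - 2 * e) b)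
  have h6 := len_union g r δ₀ (Icc a (a + 2 * e)) (Icc (a + 2 * e) (b - 2 * e))
  linarith

theorem int_ind {δ₀ : ℝ} (h0 : 0 < δ₀) {A : Set ℝ} (hA : MeasurableSet A)
    (hs : A ⊆ Icc (-δ₀) δ₀) (c : ℝ) :
    ∫ x in (-δ₀)..δ₀, A.indicator (fun _ => c) x = c * len A := by
  rw [intervalIntegral.integral_of_le (by linarith), ← integral_Icc_eq_integral_Ioc,
    setIntegral_indicator hA, inter_eq_self_of_subset_right hs, setIntegral_const, len, smul_eq_mul,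
    Measure.real, mul_comm]

theorem ii_ind {δ₀ : ℝ} {A : Set ℝ} (hA : MeasurableSet A) (c : ℝ) :
    IntervalIntegrable (A.indicator (fun _ => c)) volume (-δ₀) δ₀ := by
  rw [intervalIntegrable_iff]
  exact (integrableOn_const (hs := by simp)).indicator hA

theorem gain (hCTB : S_CTB) (hGRF : S_GRF) (hGNP : S_GNP) {U : Set V} {r α β : ℝ} {l g : ℝ → ℝ}
    {R k X₀ : ℝ} (hF : Frame U r α β l g R k X₀) {δ₀ : ℝ} (h0 : 0 < δ₀) (h1 : δ₀ < R - r) :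
    ∃ κ : ℝ, 0 < κ ∧ ∀ φ : ℝ → ℝ, Continuous φ → ∀ a₁ b₁ s₁ a₂ b₂ s₂ ε : ℝ, 0 < ε →
      a₁ + 4 * ε < b₁ → a₂ + 4 * ε < b₂ → b₂ < a₁ →
      (∀ x ∈ Icc (a₁ + ε) (b₁ - ε), ∀ y ∈ Icc (a₁ + ε) (b₁ - ε), φ x - φ y = s₁ * (x - y)) →
      (∀ x ∈ Icc (a₂ + ε) (b₂ - ε), ∀ y ∈ Icc (a₂ + ε) (b₂ - ε), φ x - φ y = s₂ * (x - y)) →
      ∃ t₀ : ℝ, 0 < t₀ ∧ ∀ t : ℝ, |t| ≤ t₀ →
        FF g r δ₀ (fun x => t * φ x) + FF g r δ₀ (fun x => -t * φ x) ≤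
          -(κ * t ^ 2 * (s₁ ^ 2 * (len (CS g r δ₀ (Icc a₁ b₁)) - 4 * ε) +
            s₂ ^ 2 * (len (CS g r δ₀ (Icc a₂ b₂)) - 4 * ε))) := by
  obtain ⟨κ, hκ, hG⟩ := hGNP U r α β l g R k X₀ hF δ₀ h0 h1
  obtain ⟨hc, hcon, -⟩ := hGRF U r α β l g R k X₀ hF δ₀ h0 h1
  obtain ⟨-, hmon, -, -, -, h6⟩ := hCTB U r α β l g R k X₀ hF δ₀ h0 h1
  refine ⟨κ, hκ, ?_⟩
  intro φ hφ a₁ b₁ s₁ a₂ b₂ s₂ ε hε hab1 hab2 h21 haff1 haff2
  obtain ⟨t1, ht1, hg1⟩ := hG φ hφ (a₁ + ε) (b₁ - ε) s₁ ε (by linarith) hε haff1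
  obtain ⟨t2, ht2, hg2⟩ := hG φ hφ (a₂ + ε) (b₂ - ε) s₂ ε (by linarith) hε haff2
  refine ⟨min t1 t2, lt_min ht1 ht2, ?_⟩
  intro t ht
  have e1 : a₁ + ε + ε = a₁ + 2 * ε := by ring
  have e2 : b₁ - ε - ε = b₁ - 2 * ε := by ring
  have e3 : a₂ + ε + ε = a₂ + 2 * ε := by ring
  have e4 : b₂ - ε - ε = b₂ - 2 * ε := by ring
  rw [e1, e2] at hg1
  rw [e3, e4] at hg2
  set A₁ := CS g r δ₀ (Icc (a₁ + 2 * ε) (b₁ - 2 * ε)) with hA1
  set A₂ := CS g r δ₀ (Icc (a₂ + 2 * ε) (b₂ - 2 * ε)) with hA2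
  have m1 : MeasurableSet A₁ := (h6 _ _ (by linarith)).1
  have m2 : MeasurableSet A₂ := (h6 _ _ (by linarith)).1
  have hl1 := len_shrink h6 hε hab1
  have hl2 := len_shrink h6 hε hab2
  rw [← hA1] at hl1
  rw [← hA2] at hl2
  have hz : gr (fun z => g z + (fun _ => (0:ℝ)) z) r = gr g r := by simp
  have c0 : ContinuousOn (gr g r) (Icc (-δ₀) δ₀) := by
    have := hc (fun _ => 0) continuous_const
    rwa [hz] at this
  have cP : ContinuousOn (gr (fun z => g z + t * φ z) r) (Icc (-δ₀) δ₀) :=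
    hc (fun z => t * φ z) (continuous_const.mul hφ)
  have cM : ContinuousOn (gr (fun z => g z + -t * φ z) r) (Icc (-δ₀) δ₀) :=
    hc (fun z => -t * φ z) (continuous_const.mul hφ)
  have hle : (-δ₀) ≤ δ₀ := by linarith
  have i0 := c0.intervalIntegrable_of_Icc (μ := volume) hle
  have iP := cP.intervalIntegrable_of_Icc (μ := volume) hle
  have iM := cM.intervalIntegrable_of_Icc (μ := volume) hle
  have hsum : FF g r δ₀ (fun x => t * φ x) + FF g r δ₀ (fun x => -t * φ x) =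
      ∫ x in (-δ₀)..δ₀, (gr (fun z => g z + t * φ z) r x + gr (fun z => g z + -t * φ z) r x
        - 2 * gr g r x) := by
    unfold FF
    rw [← intervalIntegral.integral_add (iP.sub i0) (iM.sub i0)]
    congr 1; funext x; ring
  rw [hsum]
  -- pointwise bounds
  have hneg : ∀ x ∈ Icc (-δ₀) δ₀, gr (fun z => g z + t * φ z) r x +
      gr (fun z => g z + -t * φ z) r x - 2 * gr g r x ≤ 0 := by
    intro x hx
    have h := hcon (fun z => t * φ z) (fun z => -t * φ z) (continuous_const.mul hφ)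
      (continuous_const.mul hφ) (1 / 2) ⟨by norm_num, by norm_num⟩ x hx
    have e : (fun z => g z + ((1 - 1 / 2) * (t * φ z) + 1 / 2 * (-t * φ z))) = g := by
      funext z; ring
    rw [e] at h
    linarith
  have hsub : (A₁ ∩ A₂).Subsingleton := by
    intro x hx y hy
    by_contra hne
    have key : ∀ x y, x ∈ A₁ ∩ A₂ → y ∈ A₁ ∩ A₂ → ¬ x < y := by
      intro x y hx hy hlt
      obtain ⟨hx1, X, hX, hcX⟩ := hx.1
      obtain ⟨hy1, Y, hY, hcY⟩ := hy.2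
      have := hmon x hx1 y hy1 X Y hcX hcY hlt
      have h5 := hX.1
      have h6 := hY.2
      linarith
    rcases lt_or_gt_of_ne hne with h | h
    · exact key x y hx hy h
    · exact key y x hy hx h
  have hnull : volume (A₁ ∩ A₂) = 0 := hsub.measure_zero _
  have hmono : ∫ x in (-δ₀)..δ₀, (gr (fun z => g z + t * φ z) r x +
      gr (fun z => g z + -t * φ z) r x - 2 * gr g r x) ≤
      ∫ x in (-δ₀)..δ₀, (A₁.indicator (fun _ => -(κ * t ^ 2 * s₁ ^ 2)) x +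
        A₂.indicator (fun _ => -(κ * t ^ 2 * s₂ ^ 2)) x) := by
    apply intervalIntegral.integral_mono_ae_restrict hle ((iP.add iM).sub (i0.const_mul 2))
      ((ii_ind m1 _).add (ii_ind m2 _))
    have hn : ∀ᵐ x ∂(volume.restrict (Icc (-δ₀) δ₀)), x ∉ A₁ ∩ A₂ :=
      ae_restrict_of_ae (measure_eq_zero_iff_ae_notMem.1 hnull)
    filter_upwards [hn, ae_restrict_mem measurableSet_Icc] with x hx hxI
    by_cases hx1 : x ∈ A₁
    · have hx2 : x ∉ A₂ := fun h => hx ⟨hx1, h⟩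
      rw [indicator_of_mem hx1, indicator_of_notMem hx2]
      have := hg1 t (ht.trans (min_le_left _ _)) x hx1
      linarith
    · rw [indicator_of_notMem hx1]
      by_cases hx2 : x ∈ A₂
      · rw [indicator_of_mem hx2]
        have := hg2 t (ht.trans (min_le_right _ _)) x hx2
        linarith
      · rw [indicator_of_notMem hx2]
        have := hneg x hxI
        linarith
  refine hmono.trans ?_
  rw [intervalIntegral.integral_add (ii_ind m1 _) (ii_ind m2 _),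
    int_ind h0 m1 (CS_sub _ _ _ _), int_ind h0 m2 (CS_sub _ _ _ _)]
  have k1 : 0 ≤ κ * t ^ 2 * s₁ ^ 2 := by positivity
  have k2 : 0 ≤ κ * t ^ 2 * s₂ ^ 2 := by positivity
  nlinarith [mul_le_mul_of_nonneg_left hl1 k1, mul_le_mul_of_nonneg_left hl2 k2]

end MAINb

end Pool.Agent.H417R2.CH
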