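import Pool.Agent.H417R2.CH.Defs2

set_option autoImplicit false
open MeasureTheory Metric Set Filter Topology
open scoped NNReal

namespace Pool.Agent.H417R2.CH

namespace MAINa

/-- `log (1/x)` is small compared to `1/x` -/
theorem log_small (A C : ℝ) (hA : 0 < A) (hC : 0 < C) :
    ∃ x₁ : ℝ, 0 < x₁ ∧ x₁ ≤ 1 ∧ ∀ x : ℝ, 0 < x → x ≤ x₁ → C * (1 + Real.log (1 / x)) < A / x := by
  have hp : 0 < (3 * C / A) ^ 2 + 1 := by positivity
  refine ⟨1 / ((3 * C / A) ^ 2 + 1), by positivity, ?_, ?_⟩
  · rw [div_le_one hp]; nlinarith [sq_nonneg (3 * C / A)]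
  · intro x hx hx1
    set y := 1 / x with hy
    have hy1 : (3 * C / A) ^ 2 + 1 ≤ y := by
      rw [hy, le_div_iff₀ hx]
      rw [le_div_iff₀ hp] at hx1
      linarith
    have hy0 : 1 ≤ y := by nlinarith [sq_nonneg (3 * C / A)]
    set z := Real.sqrt y with hz
    have hz2 : z ^ 2 = y := Real.sq_sqrt (by linarith)
    have hz0 : 0 ≤ z := Real.sqrt_nonneg _
    have hz1 : 1 ≤ z := by
      rw [hz]; exact Real.one_le_sqrt.2 hy0
    have hlog : Real.log y ≤ 2 * (z - 1) := by
      rw [← hz2, Real.log_pow]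
      have := Real.log_le_sub_one_of_pos (show 0 < z by linarith)
      push_cast
      linarith
    have h3 : 3 * C / A < z := by
      have h4 : (3 * C / A) ^ 2 < z ^ 2 := by rw [hz2]; linarith
      exact lt_of_pow_lt_pow_left₀ 2 hz0 h4
    have h5 : 3 * C < A * z := by
      rw [div_lt_iff₀ hA] at h3; linarith
    have h6 : A / x = A * z ^ 2 := by rw [hz2, hy]; ring
    rw [h6]
    have h7 : C * (1 + Real.log y) ≤ C * (3 * z) := by
      apply mul_le_mul_of_nonneg_left _ hC.le
      linarith
    nlinarith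

theorem HL_of_HatS {φ : ℝ → ℝ} {H a b d ε α β : ℝ} {g : ℝ → ℝ} (hS : HatS φ H a b d ε)
    (hA : Adm α β g φ (a - ε) (d + ε)) (he : 0 < ε) (he4 : ε < 1 / 4) (hab : a + 4 * ε < b)
    (hs : b - a + 2 * ε ≤ d - b) : HL φ H (a - ε) (b + ε) (d + ε) := by
  have hH := hS.H_pos
  have hbd : 0 < d - b := by linarith
  refine ⟨hH, by linarith, by linarith, by linarith, ?_, hA.zero, ?_, ?_⟩
  · intro x
    have h1 := hS.near x
    have h2 : hat a b d x ≤ 1 := by
      unfold hat
      apply max_le (by norm_num)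
      rcases le_total x b with h | h
      · exact (min_le_left _ _).trans (by rw [div_le_one (by linarith)]; linarith)
      · exact (min_le_right _ _).trans (by rw [div_le_one (by linarith)]; linarith)
    have h3 : 0 ≤ hat a b d x := le_max_left _ _
    rw [abs_le] at h1 ⊢
    constructor <;> nlinarith
  · intro x y hx hy
    refine (hS.lipL x y hx hy).trans ?_
    apply mul_le_mul_of_nonneg_right _ (abs_nonneg _)
    have h1 : max (H / (b - a)) (H / (d - b)) = H / (b - a) := by
      apply max_eq_left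
      exact div_le_div_of_nonneg_left hH.le (by linarith) (by linarith)
    rw [h1]
    have e1 : b + ε - (a - ε) = b - a + 2 * ε := by ring
    rw [e1, mul_div_assoc', div_le_div_iff₀ (by linarith) (by linarith)]
    have h2 : (1 + ε) * (b - a + 2 * ε) ≤ 4 * (b - a) := by
      have h3 : b - a + 2 * ε ≤ 2 * (b - a) := by linarith
      have h4 : 0 ≤ b - a + 2 * ε := by linarith
      nlinarith
    nlinarith [mul_le_mul_of_nonneg_left h2 hH.le]
  · intro x y hx hy
    refine (hS.lipR x y hx hy).trans ?_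
    apply mul_le_mul_of_nonneg_right _ (abs_nonneg _)
    have e1 : d + ε - (b + ε) = d - b := by ring
    rw [e1, mul_div_assoc']
    apply div_le_div_of_nonneg_right _ hbd.le
    nlinarith

end MAINa

end Pool.Agent.H417R2.CH
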