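import Pool.Agent.H417R2.CH.Defs2

/-! NRM: coordinates adapted to two points. -/

set_option autoImplicit false
open MeasureTheory Metric Set Filter Topology
open scoped ContDiff InnerProductSpace ENNReal NNReal

namespace Pool.Agent.H417R2.CH

theorem t_NRM (h : S_REG) : S_NRM := by
  intro U hU c _ y
  set k : ℝ := ‖y - c‖ with hk
  have hk0 : 0 ≤ k := norm_nonneg _
  have hnorm : ‖y - c‖ = ‖pt 0 k‖ := by
    rw [EuclideanSpace.norm_eq (pt 0 k), Fin.sum_univ_two]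
    simp [pt, ← hk, abs_of_nonneg hk0, Real.sqrt_sq hk0]
  set R : V ≃ₗᵢ[ℝ] V := (ℝ ∙ ((y - c) - pt 0 k))ᗮ.reflection with hR
  have hR1 : R (y - c) = pt 0 k := Submodule.reflection_sub hnorm
  set Φ : V ≃ᵢ V := (IsometryEquiv.addRight (-c)).trans R.toIsometryEquiv with hΦ
  have hΦx : ∀ x, Φ x = R (x - c) := fun x => by
    rw [hΦ]
    simp [sub_eq_add_neg]
  have hPC : PC (Φ '' U) := by
    refine ⟨?_, ?_, ?_, hU.ne.image _⟩
    · exact Φ.toHomeomorph.isOpenMap _ hU.isOpen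
    · rintro _ ⟨p, hp, rfl⟩ _ ⟨q, hq, rfl⟩ a b ha hb hab
      refine ⟨a • p + b • q, hU.convex hp hq ha hb hab, ?_⟩
      rw [hΦx, hΦx, hΦx, ← map_smul, ← map_smul, ← map_add]
      congr 1
      have : c = a • c + b • c := by rw [← add_smul, hab, one_smul]
      nth_rewrite 1 [this]
      simp only [smul_sub]
      abel
    · exact Φ.isometry.lipschitz.isBounded_image hU.bdd
  obtain ⟨α, β, l, g, h1, h2⟩ := h.2 _ hPC
  refine ⟨Φ, α, β, l, g, k, ?_, hk0, ?_, h1, h2⟩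
  · rw [hΦx, sub_self, map_zero]
  · rw [hΦx, hR1]

end Pool.Agent.H417R2.CH
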