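import Pool.Agent.H417R2.CH.Defs2

/-! PGA: inner strips of equiangular polygons. -/

set_option autoImplicit false
open MeasureTheory Metric Set Filter Topology
open scoped ContDiff InnerProductSpace ENNReal NNReal

namespace Pool.Agent.H417R2.CH

namespace PGA

theorem inner_ev (x : V) (θ : ℝ) : ⟪x, ev θ⟫_ℝ = x 0 * Real.cos θ + x 1 * Real.sin θ := by
  simp [PiLp.inner_apply, Fin.sum_univ_two, ev, pt]
  ring

/-- volume of parallelograms -/
theorem vol_par (a b p q r s : ℝ) (hd : Real.sin (b - a) ≠ 0) :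
    volume {x : V | ⟪x, ev a⟫_ℝ ∈ Icc p q ∧ ⟪x, ev b⟫_ℝ - ⟪x, ev a⟫_ℝ ∈ Icc r s} =
      ENNReal.ofReal |(Real.sin (b - a))⁻¹| * (ENNReal.ofReal (q - p) * ENNReal.ofReal (s - r)) := by
  set M : Matrix (Fin 2) (Fin 2) ℝ := !![Real.cos a, Real.sin a;
    Real.cos b - Real.cos a, Real.sin b - Real.sin a] with hM
  have hdet : M.det = Real.sin (b - a) := by
    rw [hM, Matrix.det_fin_two_of, Real.sin_sub]
    ring
  have hS : {x : V | ⟪x, ev a⟫_ℝ ∈ Icc p q ∧ ⟪x, ev b⟫_ℝ - ⟪x, ev a⟫_ℝ ∈ Icc r s} =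
      (WithLp.ofLp : V → (Fin 2 → ℝ)) ⁻¹' ((Matrix.toLin' M) ⁻¹' (Icc ![p, r] ![q, s])) := by
    ext x
    simp only [mem_ofPred_eq, mem_preimage, mem_Icc, Pi.le_def, Fin.forall_fin_two,
      Matrix.toLin'_apply, inner_ev, hM]
    simp [Matrix.mulVec, dotProduct, Fin.sum_univ_two]
    constructor
    · rintro ⟨⟨h1, h2⟩, h3, h4⟩
      refine ⟨⟨?_, ?_⟩, ?_, ?_⟩ <;> linarith
    · rintro ⟨⟨h1, h2⟩, h3, h4⟩
      refine ⟨⟨?_, ?_⟩, ?_, ?_⟩ <;> linarith
  have hmeas : MeasurableSet ((Matrix.toLin' M) ⁻¹' (Icc ![p, r] ![q, s])) := by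
    have hc : Continuous (Matrix.toLin' M) := LinearMap.continuous_of_finiteDimensional _
    exact (isClosed_Icc.preimage hc).measurableSet
  rw [hS, (PiLp.volume_preserving_ofLp (Fin 2)).measure_preimage
    hmeas.nullMeasurableSet, Measure.addHaar_preimage_linearMap _ (by
      rw [LinearMap.det_toLin', hdet]; exact hd), LinearMap.det_toLin', hdet, Real.volume_Icc_pi]
  simp [Fin.prod_univ_two]

/-- slack -/
noncomputable def sl (n : ℕ) (h : ℤ → ℝ) (x : V) (i : ℤ) : ℝ := h i - ⟪x, ev (ang n i)⟫_ℝ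

theorem ang_add_n {n : ℕ} (hn : 3 ≤ n) (i : ℤ) : ang n (i + n) = ang n i + 2 * Real.pi := by
  unfold ang
  have : (n : ℝ) ≠ 0 := by
    have : 0 < n := by omega
    exact_mod_cast this.ne'
  push_cast
  field_simp

theorem ang_succ {n : ℕ} (i : ℤ) : ang n (i + 1) = ang n i + 2 * Real.pi / n := by
  unfold ang
  push_cast
  ring

theorem ang_pred {n : ℕ} (i : ℤ) : ang n (i - 1) = ang n i - 2 * Real.pi / n := by
  unfold ang
  push_cast
  ring

theorem sl_per {n : ℕ} {h : ℤ → ℝ} (hn : 3 ≤ n) (H : SN n h) (x : V) (i : ℤ) :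
    sl n h x (i + n) = sl n h x i := by
  unfold sl
  rw [H.per, inner_ev, inner_ev, ang_add_n hn, Real.cos_add_two_pi, Real.sin_add_two_pi]

theorem sl_lin {n : ℕ} {h : ℤ → ℝ} (x : V) (i : ℤ) :
    sl n h x (i + 1) + sl n h x (i - 1) - 2 * Real.cos (2 * Real.pi / n) * sl n h x i =
      h (i + 1) + h (i - 1) - 2 * Real.cos (2 * Real.pi / n) * h i := by
  unfold sl
  rw [inner_ev, inner_ev, inner_ev, ang_succ, ang_pred, Real.cos_add, Real.cos_sub, Real.sin_add,
    Real.sin_sub]
  ring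

/-- the index of the smallest slack -/
theorem exists_min {n : ℕ} {F : ℤ → ℝ} (hn : 3 ≤ n) (hF : ∀ i, F (i + n) = F i) :
    ∃ i ∈ Finset.range n, ∀ j : ℤ, F (i : ℤ) ≤ F j := by
  obtain ⟨i, hi, hmin⟩ := Finset.exists_min_image (Finset.range n) (fun i => F (i : ℤ))
    ⟨0, by rw [Finset.mem_range]; omega⟩
  refine ⟨i, hi, fun j => ?_⟩
  have hP : Function.Periodic F (n : ℤ) := hF
  have h1 : F (j % n) = F j := by
    have h2 := hP.int_mul (j / n) (j % n)
    rw [← h2]
    congr 1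
    have := Int.emod_add_mul_ediv j n
    push_cast
    linarith [mul_comm (n : ℤ) (j / n)]
  have hn0 : (0 : ℤ) < n := by omega
  have h3 : 0 ≤ j % n := Int.emod_nonneg _ hn0.ne'
  have h4 : j % n < n := Int.emod_lt_of_pos _ hn0
  have h5 := hmin (j % n).toNat (by rw [Finset.mem_range]; omega)
  rw [← h1]
  have h6 : (((j % n).toNat : ℕ) : ℤ) = j % n := Int.toNat_of_nonneg h3
  simp only [h6] at h5
  exact h5

theorem sum_shift {n : ℕ} {h : ℤ → ℝ} (H : SN n h) :
    ∑ i ∈ Finset.range n, (h (i + 1) + h (i - 1)) = 2 * ∑ i ∈ Finset.range n, h i := by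
  have h1 : ∑ i ∈ Finset.range n, h ((i : ℤ) + 1) = ∑ i ∈ Finset.range n, h i := by
    have e1 := Finset.sum_range_succ (fun i : ℕ => h (i : ℤ)) n
    have e2 := Finset.sum_range_succ' (fun i : ℕ => h (i : ℤ)) n
    have e3 := H.per 0
    rw [zero_add] at e3
    push_cast at e1 e2
    rw [e3] at e1
    linarith
  have h2 : ∑ i ∈ Finset.range n, h ((i : ℤ) - 1) = ∑ i ∈ Finset.range n, h i := by
    have e1 := Finset.sum_range_succ (fun i : ℕ => h ((i : ℤ) - 1)) n
    have e2 := Finset.sum_range_succ' (fun i : ℕ => h ((i : ℤ) - 1)) n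
    have e3 := H.per (-1)
    push_cast at e1 e2
    have e4 : ((n : ℤ) - 1) = -1 + n := by ring
    rw [e4, e3] at e1
    simp only [add_sub_cancel_right] at e2
    linarith
  rw [Finset.sum_add_distrib, h1, h2]
  ring

end PGA

open PGA in
theorem t_PGA : S_PGA := by
  intro n h δ hn H hδ
  have hn0 : (0 : ℝ) < n := by
    have : 0 < n := by omega
    exact_mod_cast this
  have hn3 : (3 : ℝ) ≤ n := by exact_mod_cast hn
  set α : ℝ := 2 * Real.pi / n with hα
  set β : ℝ := Real.pi / n with hβ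
  have hαβ : α = 2 * β := by rw [hα, hβ]; ring
  have hβ0 : 0 < β := div_pos Real.pi_pos hn0
  have hβ1 : β ≤ Real.pi / 3 := by
    rw [hβ]
    exact div_le_div_of_nonneg_left Real.pi_pos.le (by norm_num) hn3
  have hcβ : 0 < Real.cos β := Real.cos_pos_of_mem_Ioo
    ⟨by linarith [Real.pi_pos], by linarith [Real.pi_pos]⟩
  have hsβ : 0 < Real.sin β := Real.sin_pos_of_pos_of_lt_pi hβ0 (by linarith [Real.pi_pos])
  have hsα : Real.sin α = 2 * Real.sin β * Real.cos β := by rw [hαβ, Real.sin_two_mul]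
  have hcα : Real.cos α = 1 - 2 * Real.sin β ^ 2 := by
    rw [hαβ, Real.cos_two_mul, Real.cos_sq']; ring
  have hsα0 : 0 < Real.sin α := by rw [hsα]; positivity
  -- the lengths
  set ll : ℤ → ℝ := fun i => h (i + 1) + h (i - 1) - 2 * Real.cos α * h i with hll
  have hll0 : ∀ i, 0 ≤ ll i := fun i => by
    have := H.conv i
    simp only [hll]
    linarith
  set T : ℕ → Set V := fun i => {x : V | ⟪x, ev (ang n i)⟫_ℝ ∈ Icc (h i - δ) (h i) ∧
    ⟪x, ev (ang n ((i : ℤ) - 1))⟫_ℝ - ⟪x, ev (ang n i)⟫_ℝ ∈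
      Icc (h ((i : ℤ) - 1) - h i - ll i) (h ((i : ℤ) - 1) - h i)} with hT
  have hTvol : ∀ i, volume (T i) = ENNReal.ofReal (δ * (ll i / Real.sin α)) := by
    intro i
    have e : ang n ((i : ℤ) - 1) - ang n i = -α := by rw [ang_pred]; ring
    have := vol_par (ang n i) (ang n ((i : ℤ) - 1)) (h i - δ) (h i)
      (h ((i : ℤ) - 1) - h i - ll i) (h ((i : ℤ) - 1) - h i)
      (by rw [e, Real.sin_neg]; exact neg_ne_zero.2 hsα0.ne')
    rw [hT]
    simp only
    rw [this, e, Real.sin_neg, inv_neg, abs_neg, abs_of_pos (inv_pos.2 hsα0),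
      ← ENNReal.ofReal_mul (by linarith), ← ENNReal.ofReal_mul (inv_pos.2 hsα0).le]
    congr 1
    field_simp
    ring
  have hcover : PP n h ⊆ PP n (fun i => h i - δ) ∪ ⋃ i ∈ Finset.range n, T i := by
    intro x hx
    by_cases hx' : x ∈ PP n (fun i => h i - δ)
    · exact Or.inl hx'
    · right
      obtain ⟨i, hi, hmin⟩ := exists_min hn (fun j => sl_per hn H x j)
      simp only [mem_iUnion]
      refine ⟨i, hi, ?_⟩
      have hs0 : ∀ j, 0 ≤ sl n h x j := fun j => by
        have := hx j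
        unfold sl
        linarith
      have hlt : sl n h x i < δ := by
        have h1 : ∃ j : ℤ, ¬ ⟪x, ev (ang n j)⟫_ℝ ≤ h j - δ := by
          by_contra hcon
          push Not at hcon
          exact hx' hcon
        obtain ⟨j, hj⟩ := h1
        have h2 := hmin j
        have h3 : sl n h x j < δ := by
          unfold sl
          linarith [not_le.1 hj]
        linarith
      have e1 := sl_lin (h := h) (n := n) x i
      have m1 := hmin ((i : ℤ) + 1)
      have m2 := hmin ((i : ℤ) - 1)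
      have m0 := hs0 i
      have hc1 : Real.cos α ≤ 1 := Real.cos_le_one _
      have e2 : ll i = sl n h x (i + 1) + sl n h x (i - 1) - 2 * Real.cos α * sl n h x i := by
        rw [e1]
      have e3 : sl n h x ((i : ℤ) - 1) - sl n h x i ≤ ll i := by
        rw [e2]
        nlinarith
      have d1 : sl n h x i = h i - ⟪x, ev (ang n i)⟫_ℝ := rfl
      have d2 : sl n h x ((i : ℤ) - 1) = h ((i : ℤ) - 1) - ⟪x, ev (ang n ((i : ℤ) - 1))⟫_ℝ := rfl
      refine ⟨⟨?_, ?_⟩, ?_, ?_⟩
      · linarith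
      · linarith
      · linarith
      · linarith
  have hsum : ∑ i ∈ Finset.range n, δ * (ll i / Real.sin α) =
      δ * (2 * Real.tan β * ∑ i ∈ Finset.range n, h i) := by
    rw [← Finset.mul_sum, ← Finset.sum_div]
    have h1 : ∑ i ∈ Finset.range n, ll i = (2 - 2 * Real.cos α) * ∑ i ∈ Finset.range n, h i := by
      simp only [hll]
      rw [Finset.sum_sub_distrib, sum_shift H, ← Finset.mul_sum]
      ring
    rw [h1, hcα, hsα, Real.tan_eq_sin_div_cos]
    congr 1
    field_simp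
    ring
  have hvol : volume (PP n h) ≤ volume (PP n (fun i => h i - δ)) +
      ENNReal.ofReal (δ * (2 * Real.tan β * ∑ i ∈ Finset.range n, h i)) := by
    calc volume (PP n h) ≤ volume (PP n (fun i => h i - δ) ∪ ⋃ i ∈ Finset.range n, T i) :=
          measure_mono hcover
      _ ≤ volume (PP n (fun i => h i - δ)) + volume (⋃ i ∈ Finset.range n, T i) :=
          measure_union_le _ _
      _ ≤ volume (PP n (fun i => h i - δ)) + ∑ i ∈ Finset.range n, volume (T i) := by
          gcongr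
          exact measure_biUnion_finset_le _ _
      _ = _ := by
          rw [← hsum, ENNReal.ofReal_sum_of_nonneg]
          · congr 1
            exact Finset.sum_congr rfl fun i _ => hTvol i
          · intro i _
            exact mul_nonneg hδ.le (div_nonneg (hll0 i) hsα0.le)
  have hnn : 0 ≤ δ * (2 * Real.tan β * ∑ i ∈ Finset.range n, h i) := by
    rw [← hsum]
    exact Finset.sum_nonneg fun i _ => mul_nonneg hδ.le (div_nonneg (hll0 i) hsα0.le)
  by_cases hfin : volume (PP n (fun i => h i - δ)) = ⊤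
  · have hle : PP n (fun i => h i - δ) ⊆ PP n h := fun x hx j => by
      have := hx j
      simp only at this
      linarith
    have h1 : volume (PP n h) = ⊤ := by
      rw [eq_top_iff, ← hfin]
      exact measure_mono hle
    unfold ar
    rw [h1, hfin]
    simpa using hnn
  · unfold ar
    have h1 := ENNReal.toReal_mono (ENNReal.add_ne_top.2 ⟨hfin, ENNReal.ofReal_ne_top⟩) hvol
    rw [ENNReal.toReal_add hfin ENNReal.ofReal_ne_top, ENNReal.toReal_ofReal hnn] at h1
    exact h1

end Pool.Agent.H417R2.CH
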