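import Pool.Agent.H417R2.CH.Defs2

set_option autoImplicit false
open MeasureTheory Metric Set Filter Topology
open scoped ContDiff InnerProductSpace ENNReal NNReal

namespace Pool.Agent.H417R2.CH

namespace PGB

theorem inner_pt (x : V) (a b : ℝ) : ⟪x, pt a b⟫_ℝ = x 0 * a + x 1 * b := by
  simp [pt, PiLp.inner_apply, Fin.sum_univ_two]
  ring

theorem inner_ev (x : V) (θ : ℝ) : ⟪x, ev θ⟫_ℝ = x 0 * Real.cos θ + x 1 * Real.sin θ :=
  inner_pt _ _ _

/-- the direction orthogonal to `ev θ` -/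
noncomputable def fv (θ : ℝ) : V := pt (-Real.sin θ) (Real.cos θ)

theorem inner_fv (x : V) (θ : ℝ) : ⟪x, fv θ⟫_ℝ = -(x 0 * Real.sin θ) + x 1 * Real.cos θ := by
  unfold fv
  rw [inner_pt]
  ring

theorem inner_ev_add (x : V) (θ φ : ℝ) :
    ⟪x, ev (θ + φ)⟫_ℝ = Real.cos φ * ⟪x, ev θ⟫_ℝ + Real.sin φ * ⟪x, fv θ⟫_ℝ := by
  rw [inner_ev, inner_ev, inner_fv, Real.cos_add, Real.sin_add]
  ring

theorem orth (θ : ℝ) : Orthonormal ℝ ![ev θ, fv θ] := by
  have h0 := Real.sin_sq_add_cos_sq θ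
  rw [orthonormal_iff_ite]
  intro i j
  fin_cases i <;> fin_cases j
  · simp only [Fin.zero_eta, Matrix.cons_val_zero]
    rw [inner_ev]
    simp [ev, pt]
    nlinarith
  · simp [inner_fv, ev, pt]
    ring
  · simp [inner_ev, fv, pt]
    ring
  · simp only [Fin.mk_one, Matrix.cons_val_one, Matrix.cons_val_fin_one]
    rw [inner_fv]
    simp [fv, pt]
    nlinarith

theorem mp0 (θ : ℝ) : MeasurePreserving (fun x : V => ((⟪x, ev θ⟫_ℝ, ⟪x, fv θ⟫_ℝ) : ℝ × ℝ))
    volume volume := by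
  obtain ⟨b, hb⟩ := Orthonormal.exists_orthonormalBasis_extension_of_card_eq
    (𝕜 := ℝ) (E := V) (ι := Fin 2) (by simp) (v := ![ev θ, fv θ]) (s := Set.univ)
    ((orth θ).comp _ Subtype.val_injective)
  have h1 := b.measurePreserving_repr
  have h2 := (PiLp.volume_preserving_ofLp (Fin 2)).comp h1
  have h3 := (volume_preserving_finTwoArrow ℝ).comp h2
  convert h3 using 1
  funext x
  have e0 : b 0 = ev θ := hb 0 (Set.mem_univ _)
  have e1 : b 1 = fv θ := hb 1 (Set.mem_univ _)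
  simp only [Function.comp_apply, MeasurableEquiv.finTwoArrow_apply]
  rw [Prod.mk.injEq]
  refine ⟨?_, ?_⟩
  · rw [b.repr_apply_apply, e0, real_inner_comm]
  · rw [b.repr_apply_apply, e1, real_inner_comm]

theorem mp (θ c : ℝ) :
    MeasurePreserving (fun x : V => ((⟪x, ev θ⟫_ℝ - c, ⟪x, fv θ⟫_ℝ) : ℝ × ℝ)) volume volume := by
  have h1 := (measurePreserving_add_right (volume : Measure (ℝ × ℝ)) ((-c, 0) : ℝ × ℝ)).comp
    (mp0 θ)
  convert h1 using 1
  funext x
  simp [sub_eq_add_neg]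

/-- the area of a strip -/
theorem volT (θ h0 l t δ : ℝ) (lo hi : ℝ → ℝ) (hlo : Continuous lo) (hhi : Continuous hi)
    (hd : ∀ τ, hi τ - lo τ = l + 2 * τ * t) (hl : 0 ≤ l) (ht : 0 ≤ t) (hδ : 0 < δ) :
    volume {x : V | ((⟪x, ev θ⟫_ℝ - h0, ⟪x, fv θ⟫_ℝ) : ℝ × ℝ) ∈ regionBetween lo hi (Ioc 0 δ)} =
      ENNReal.ofReal (δ * l + δ ^ 2 * t) := by
  have hms : MeasurableSet (regionBetween lo hi (Ioc 0 δ)) :=
    measurableSet_regionBetween hlo.measurable hhi.measurable measurableSet_Ioc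
  have h1 : volume {x : V | ((⟪x, ev θ⟫_ℝ - h0, ⟪x, fv θ⟫_ℝ) : ℝ × ℝ) ∈
      regionBetween lo hi (Ioc 0 δ)} = volume (regionBetween lo hi (Ioc 0 δ)) :=
    (mp θ h0).measure_preimage hms.nullMeasurableSet
  rw [h1]
  have h2 := volume_regionBetween_eq_integral (μ := (volume : Measure ℝ)) (f := lo) (g := hi)
    (s := Ioc 0 δ) (hlo.continuousOn.integrableOn_Icc.mono_set Ioc_subset_Icc_self)
    (hhi.continuousOn.integrableOn_Icc.mono_set Ioc_subset_Icc_self) measurableSet_Ioc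
    (fun τ hτ => by
      have := hd τ
      have h3 : 0 ≤ 2 * τ * t := by
        have := hτ.1
        positivity
      linarith)
  have h3 : (volume : Measure (ℝ × ℝ)) = (volume : Measure ℝ).prod volume := rfl
  rw [h3, h2]
  congr 1
  have h4 : ∀ τ, (hi - lo) τ = l + 2 * τ * t := fun τ => by rw [Pi.sub_apply, hd τ]
  simp only [h4]
  rw [← intervalIntegral.integral_of_le hδ.le, intervalIntegral.integral_add (by simp)
    (by apply Continuous.intervalIntegrable; fun_prop), intervalIntegral.integral_const,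
    intervalIntegral.integral_mul_const, intervalIntegral.integral_const_mul, integral_id,
    smul_eq_mul]
  ring

/-- lines are null sets -/
theorem line_null (w : V) (hw : w ≠ 0) (c : ℝ) : volume {x : V | ⟪x, w⟫_ℝ = c} = 0 := by
  by_cases hne : ∃ p : V, ⟪p, w⟫_ℝ = c
  · obtain ⟨p, hp⟩ := hne
    have h1 : {x : V | ⟪x, w⟫_ℝ = c} ⊆
        (fun x => x + (-p)) ⁻¹' ((LinearMap.ker (innerₛₗ ℝ w) : Submodule ℝ V) : Set V) := by
      intro x hx
      rw [mem_ofPred_eq] at hx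
      simp only [mem_preimage, SetLike.mem_coe, LinearMap.mem_ker, innerₛₗ_apply_apply]
      rw [inner_add_right, inner_neg_right, real_inner_comm, hx, real_inner_comm, hp]
      ring
    refine measure_mono_null h1 ?_
    rw [measure_preimage_add_right]
    refine Measure.addHaar_submodule _ _ ?_
    intro h
    have h2 : w ∈ (LinearMap.ker (innerₛₗ ℝ w) : Submodule ℝ V) := by rw [h]; trivial
    rw [LinearMap.mem_ker, innerₛₗ_apply_apply, inner_self_eq_zero] at h2
    exact hw h2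
  · have h1 : {x : V | ⟪x, w⟫_ℝ = c} = ∅ := by
      ext x
      simp only [mem_ofPred_eq, mem_empty_iff_false, iff_false]
      exact fun h => hne ⟨x, h⟩
    rw [h1, measure_empty]

/-! ### angles -/

variable {n : ℕ}

theorem al_pos (hn : 3 ≤ n) : 0 < 2 * Real.pi / n := by
  have : (0 : ℝ) < n := by exact_mod_cast (by omega : 0 < n)
  positivity

theorem al_lt (hn : 3 ≤ n) : 2 * Real.pi / n < Real.pi := by
  have h : (3 : ℝ) ≤ n := by exact_mod_cast hn
  rw [div_lt_iff₀ (by linarith)]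
  nlinarith [Real.pi_pos]

theorem sin_pos (hn : 3 ≤ n) : 0 < Real.sin (2 * Real.pi / n) :=
  Real.sin_pos_of_pos_of_lt_pi (al_pos hn) (al_lt hn)

theorem tan_eq (hn : 3 ≤ n) : (1 - Real.cos (2 * Real.pi / n)) / Real.sin (2 * Real.pi / n) =
    Real.tan (Real.pi / n) := by
  have h1 : 2 * Real.pi / n = 2 * (Real.pi / n) := by ring
  have h2 := sin_pos hn
  rw [h1] at h2 ⊢
  rw [Real.sin_two_mul] at h2 ⊢
  have h3 : Real.sin (Real.pi / n) ≠ 0 := by
    intro h; rw [h] at h2; simp at h2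
  have h4 : Real.cos (Real.pi / n) ≠ 0 := by
    intro h; rw [h] at h2; simp at h2
  rw [Real.tan_eq_sin_div_cos, Real.cos_two_mul, div_eq_div_iff (mul_ne_zero
    (mul_ne_zero two_ne_zero h3) h4) h4]
  have h5 := Real.sin_sq_add_cos_sq (Real.pi / n)
  linear_combination (-2 * Real.cos (Real.pi / n)) * h5

theorem ang_succ (i : ℤ) : ang n (i + 1) = ang n i + 2 * Real.pi / n := by
  unfold ang
  push_cast
  ring

theorem ang_pred (i : ℤ) : ang n (i - 1) = ang n i + -(2 * Real.pi / n) := by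
  unfold ang
  push_cast
  ring

theorem inner_succ (x : V) (i : ℤ) : ⟪x, ev (ang n (i + 1))⟫_ℝ =
    Real.cos (2 * Real.pi / n) * ⟪x, ev (ang n i)⟫_ℝ +
      Real.sin (2 * Real.pi / n) * ⟪x, fv (ang n i)⟫_ℝ := by
  rw [ang_succ, inner_ev_add]

theorem inner_pred (x : V) (i : ℤ) : ⟪x, ev (ang n (i - 1))⟫_ℝ =
    Real.cos (2 * Real.pi / n) * ⟪x, ev (ang n i)⟫_ℝ -
      Real.sin (2 * Real.pi / n) * ⟪x, fv (ang n i)⟫_ℝ := by
  rw [ang_pred, inner_ev_add, Real.cos_neg, Real.sin_neg]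
  ring

theorem ang_per (hn : 3 ≤ n) (i : ℤ) : ang n (i + n) = ang n i + 2 * Real.pi := by
  unfold ang
  have : (n : ℝ) ≠ 0 := by
    have : 0 < n := by omega
    positivity
  push_cast
  field_simp

/-- different directions -/
theorem ev_ne (hn : 3 ≤ n) {i j : ℕ} (hij : i < j) (hj : j < n) :
    ev (ang n i) - ev (ang n j) ≠ 0 := by
  intro h
  have h0 : ev (ang n i) = ev (ang n j) := sub_eq_zero.1 h
  have h1 : Real.cos (ang n i) = Real.cos (ang n j) := by
    have := congrArg (fun x : V => x 0) h0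
    simpa [ev, pt] using this
  have h2 : Real.sin (ang n i) = Real.sin (ang n j) := by
    have := congrArg (fun x : V => x 1) h0
    simpa [ev, pt] using this
  have h3 : Real.cos (ang n j - ang n i) = 1 := by
    rw [Real.cos_sub, h1, h2]
    have := Real.sin_sq_add_cos_sq (ang n j)
    nlinarith
  obtain ⟨k, hk⟩ := (Real.cos_eq_one_iff _).1 h3
  have hn0 : (0 : ℝ) < n := by exact_mod_cast (by omega : 0 < n)
  have h4 : ang n j - ang n i = 2 * Real.pi * ((j : ℝ) - i) / n := by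
    unfold ang
    push_cast
    ring
  rw [h4, eq_div_iff hn0.ne'] at hk
  have h5 : (k : ℝ) * n = (j : ℝ) - i := by
    have hp := Real.pi_pos
    have : 2 * Real.pi * ((k : ℝ) * n) = 2 * Real.pi * ((j : ℝ) - i) := by linarith
    exact mul_left_cancel₀ (by positivity) this
  have h6 : k * (n : ℤ) = (j : ℤ) - i := by exact_mod_cast h5
  have h7 : 0 < k := by
    by_contra hk0
    have : k * (n : ℤ) ≤ 0 := mul_nonpos_of_nonpos_of_nonneg (by omega) (by omega)
    omega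
  have h8 : (n : ℤ) ≤ k * n := by nlinarith
  omega

/-- the sum over all directions -/
theorem sum_zero (hn : 3 ≤ n) (x : V) :
    ∑ i ∈ Finset.range n, ⟪x, ev (ang n (i : ℕ))⟫_ℝ = 0 := by
  have hn0 : (0 : ℝ) < n := by exact_mod_cast (by omega : 0 < n)
  obtain ⟨a, ha⟩ : ∃ a : ℝ, a = 2 * Real.pi / n := ⟨_, rfl⟩
  have hs : 0 < Real.sin (a / 2) := by
    have h1 := al_pos hn
    have h2 := al_lt hn
    rw [← ha] at h1 h2
    exact Real.sin_pos_of_pos_of_lt_pi (by linarith) (by linarith)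
  have hterm : ∀ i : ℕ, 2 * Real.sin (a / 2) * ⟪x, ev (ang n (i : ℕ))⟫_ℝ =
      (x 0 * Real.sin (a * ((i + 1 : ℕ) : ℝ) - a / 2) - x 1 * Real.cos (a * ((i + 1 : ℕ) : ℝ) - a / 2))
      - (x 0 * Real.sin (a * (i : ℝ) - a / 2) - x 1 * Real.cos (a * (i : ℝ) - a / 2)) := by
    intro i
    have e1 : ang n (i : ℕ) = a * i := by
      unfold ang
      rw [ha]
      push_cast
      ring
    have e2 : a * ((i + 1 : ℕ) : ℝ) - a / 2 = a * i + a / 2 := by
      push_cast
      ring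
    rw [inner_ev, e1, e2, Real.sin_add, Real.cos_add, Real.sin_sub, Real.cos_sub]
    ring
  have h1 : 2 * Real.sin (a / 2) * ∑ i ∈ Finset.range n, ⟪x, ev (ang n (i : ℕ))⟫_ℝ = 0 := by
    rw [Finset.mul_sum, Finset.sum_congr rfl (fun i _ => hterm i),
      Finset.sum_range_sub (fun i : ℕ => x 0 * Real.sin (a * (i : ℝ) - a / 2) -
        x 1 * Real.cos (a * (i : ℝ) - a / 2))]
    have e3 : a * (n : ℝ) - a / 2 = 2 * Real.pi + (-(a / 2)) := by
      rw [ha]
      field_simp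
      ring
    rw [e3]
    have e4 : Real.sin (2 * Real.pi + (-(a / 2))) = Real.sin (-(a / 2)) := by
      rw [add_comm, Real.sin_add_two_pi]
    have e5 : Real.cos (2 * Real.pi + (-(a / 2))) = Real.cos (-(a / 2)) := by
      rw [add_comm, Real.cos_add_two_pi]
    rw [e4, e5]
    simp
  rcases mul_eq_zero.1 h1 with h2 | h2
  · exact absurd h2 (by positivity)
  · exact h2

/-- equiangular polygons have finite area -/
theorem fin_PP (hn : 3 ≤ n) (h : ℤ → ℝ) : volume (PP n h) < ⊤ := by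
  have hn0 : (0 : ℝ) < n := by exact_mod_cast (by omega : 0 < n)
  obtain ⟨M, hM⟩ : ∃ M : ℝ, M = ∑ i ∈ Finset.range n, |h (i : ℕ)| := ⟨_, rfl⟩
  have hM0 : 0 ≤ M := by rw [hM]; exact Finset.sum_nonneg fun _ _ => abs_nonneg _
  have hMi : ∀ i ∈ Finset.range n, h (i : ℕ) ≤ M := fun i hi => by
    rw [hM]
    exact (le_abs_self _).trans (Finset.single_le_sum (f := fun i : ℕ => |h (i : ℕ)|)
      (fun _ _ => abs_nonneg _) hi)
  have hs := sin_pos hn
  have key : ∀ x ∈ PP n h, ∀ j ∈ Finset.range n, |⟪x, ev (ang n (j : ℕ))⟫_ℝ| ≤ n * M := by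
    intro x hx j hj
    have h1 := sum_zero hn x
    rw [← Finset.add_sum_erase _ _ hj] at h1
    have h2 : ∑ i ∈ (Finset.range n).erase j, ⟪x, ev (ang n (i : ℕ))⟫_ℝ ≤
        ∑ _i ∈ (Finset.range n).erase j, M :=
      Finset.sum_le_sum fun i hi => (hx i).trans (hMi i (Finset.mem_of_mem_erase hi))
    rw [Finset.sum_const, Finset.card_erase_of_mem hj, Finset.card_range, nsmul_eq_mul] at h2
    have h3 : ((n - 1 : ℕ) : ℝ) * M ≤ n * M :=
      mul_le_mul_of_nonneg_right (by exact_mod_cast Nat.sub_le _ _) hM0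
    have h4 : ⟪x, ev (ang n (j : ℕ))⟫_ℝ ≤ M := (hx j).trans (hMi j hj)
    have h5 : M ≤ n * M := by
      have : (1 : ℝ) ≤ n := by exact_mod_cast (by omega : 1 ≤ n)
      nlinarith
    rw [abs_le]
    constructor <;> linarith
  have hsub : PP n h ⊆ closedBall (0 : V) (n * M + 2 * (n * M) / Real.sin (2 * Real.pi / n)) := by
    intro x hx
    have h0 := key x hx 0 (Finset.mem_range.2 (by omega))
    have h1 := key x hx 1 (Finset.mem_range.2 (by omega))
    have e0 : ang n ((0 : ℕ) : ℤ) = 0 := by simp [ang]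
    have e1 : ang n ((1 : ℕ) : ℤ) = 2 * Real.pi / n := by simp [ang]
    rw [e0, inner_ev, Real.cos_zero, Real.sin_zero, mul_one, mul_zero, add_zero] at h0
    rw [e1, inner_ev] at h1
    have h2 : |x 1| * Real.sin (2 * Real.pi / n) ≤ 2 * (n * M) := by
      have h3 : |x 1| * Real.sin (2 * Real.pi / n) = |x 1 * Real.sin (2 * Real.pi / n)| := by
        rw [abs_mul, abs_of_pos hs]
      have h4 : |x 0 * Real.cos (2 * Real.pi / n)| ≤ n * M := by
        rw [abs_mul]
        calc |x 0| * |Real.cos (2 * Real.pi / n)| ≤ |x 0| * 1 :=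
              mul_le_mul_of_nonneg_left (Real.abs_cos_le_one _) (abs_nonneg _)
          _ ≤ n * M := by rw [mul_one]; exact h0
      rw [h3]
      have h5 : x 1 * Real.sin (2 * Real.pi / n) = (x 0 * Real.cos (2 * Real.pi / n) +
          x 1 * Real.sin (2 * Real.pi / n)) - x 0 * Real.cos (2 * Real.pi / n) := by ring
      rw [h5]
      refine (abs_sub _ _).trans ?_
      linarith
    have h6 : |x 1| ≤ 2 * (n * M) / Real.sin (2 * Real.pi / n) := by
      rwa [le_div_iff₀ hs]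
    rw [mem_closedBall_zero_iff, EuclideanSpace.norm_eq, Fin.sum_univ_two]
    refine (Real.sqrt_le_sqrt (y := (|x 0| + |x 1|) ^ 2) ?_).trans ?_
    · rw [Real.norm_eq_abs, Real.norm_eq_abs]
      have := mul_nonneg (abs_nonneg (x 0)) (abs_nonneg (x 1))
      nlinarith
    · rw [Real.sqrt_sq (by positivity)]
      linarith
  exact (measure_mono hsub).trans_lt (isCompact_closedBall _ _).measure_lt_top

theorem meas_PP (h : ℤ → ℝ) : MeasurableSet (PP n h) := by
  have : PP n h = ⋂ i : ℤ, {x : V | ⟪x, ev (ang n i)⟫_ℝ ≤ h i} := by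
    ext x
    simp [PP]
  rw [this]
  refine MeasurableSet.iInter fun i => ?_
  refine IsClosed.measurableSet (isClosed_le ?_ continuous_const)
  fun_prop

/-- shifted sums of a periodic sequence -/
theorem sum_shift (h : ℤ → ℝ) (hp : ∀ i, h (i + n) = h i) :
    ∑ i ∈ Finset.range n, h ((i : ℤ) + 1) = ∑ i ∈ Finset.range n, h (i : ℤ) := by
  have h1 := Finset.sum_range_succ (fun i : ℕ => h (i : ℤ)) n
  have h2 := Finset.sum_range_succ' (fun i : ℕ => h (i : ℤ)) n
  have h3 : h ((n : ℕ) : ℤ) = h ((0 : ℕ) : ℤ) := by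
    have := hp 0
    rw [zero_add] at this
    exact_mod_cast this
  rw [h1, h3] at h2
  have h4 := add_right_cancel h2
  rw [h4]
  refine Finset.sum_congr rfl fun i _ => ?_
  push_cast
  rfl

end PGB

open PGB in
theorem t_PGB (h : S_VTX) : S_PGB := by
  intro n hh δ hn hSN hδ
  have hs := sin_pos hn
  obtain ⟨s, hsd⟩ : ∃ s : ℝ, s = Real.sin (2 * Real.pi / n) := ⟨_, rfl⟩
  obtain ⟨c, hcd⟩ : ∃ c : ℝ, c = Real.cos (2 * Real.pi / n) := ⟨_, rfl⟩
  obtain ⟨t, htd⟩ : ∃ t : ℝ, t = Real.tan (Real.pi / n) := ⟨_, rfl⟩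
  have hst : (1 - c) / s = t := by rw [hsd, hcd, htd]; exact tan_eq hn
  have hc1 : c ≤ 1 := by rw [hcd]; exact Real.cos_le_one _
  rw [← hsd] at hs
  have ht : 0 ≤ t := by rw [← hst]; exact div_nonneg (by linarith) hs.le
  have hconv : ∀ i, 2 * c * hh i ≤ hh (i + 1) + hh (i - 1) := by
    intro i; rw [hcd]; exact hSN.conv i
  let lo : ℤ → ℝ → ℝ := fun i τ => ((hh i + τ) * c - hh (i - 1) - τ) / s
  let hi : ℤ → ℝ → ℝ := fun i τ => (hh (i + 1) + τ - (hh i + τ) * c) / s
  let T : ℤ → Set V := fun i => {x : V | ((⟪x, ev (ang n i)⟫_ℝ - hh i, ⟪x, fv (ang n i)⟫_ℝ) :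
    ℝ × ℝ) ∈ regionBetween (lo i) (hi i) (Ioc 0 δ)}
  have hlo : ∀ i, Continuous (lo i) := fun i => by fun_prop
  have hhi : ∀ i, Continuous (hi i) := fun i => by fun_prop
  -- the strips
  have hT : ∀ i x, x ∈ T i → 0 < ⟪x, ev (ang n i)⟫_ℝ - hh i ∧ ⟪x, ev (ang n i)⟫_ℝ - hh i ≤ δ ∧
      ∀ j, ⟪x, ev (ang n j)⟫_ℝ ≤ hh j + (⟪x, ev (ang n i)⟫_ℝ - hh i) := by
    intro i x hx
    obtain ⟨⟨h1, h2⟩, h3, h4⟩ := hx
    obtain ⟨τ, hτ⟩ : ∃ τ : ℝ, τ = ⟪x, ev (ang n i)⟫_ℝ - hh i := ⟨_, rfl⟩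
    simp only at h1 h2 h3 h4
    rw [← hτ] at h1 h2 h3 h4 ⊢
    refine ⟨h1, h2, ?_⟩
    have h5 : SN n (fun j => hh j + τ) := by
      refine ⟨fun j => ?_, fun j => ?_⟩
      · show hh (j + n) + τ = hh j + τ
        rw [hSN.per j]
      · show 2 * Real.cos (2 * Real.pi / n) * (hh j + τ) ≤ hh (j + 1) + τ + (hh (j - 1) + τ)
        rw [← hcd]
        nlinarith [hconv j]
    have h6 : ⟪x, ev (ang n i)⟫_ℝ = hh i + τ := by rw [hτ]; ring
    have h3' : (hh i + τ) * c - hh (i - 1) - τ < s * ⟪x, fv (ang n i)⟫_ℝ := by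
      rw [show lo i τ = ((hh i + τ) * c - hh (i - 1) - τ) / s from rfl, div_lt_iff₀ hs] at h3
      linarith
    have h4' : s * ⟪x, fv (ang n i)⟫_ℝ < hh (i + 1) + τ - (hh i + τ) * c := by
      rw [show hi i τ = (hh (i + 1) + τ - (hh i + τ) * c) / s from rfl, lt_div_iff₀ hs] at h4
      linarith
    have h7 := h n (fun j => hh j + τ) hn h5 i x h6 (by
      show ⟪x, ev (ang n (i + 1))⟫_ℝ ≤ hh (i + 1) + τ
      rw [inner_succ, h6, ← hcd, ← hsd]
      linarith) (by
      show ⟪x, ev (ang n (i - 1))⟫_ℝ ≤ hh (i - 1) + τ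
      rw [inner_pred, h6, ← hcd, ← hsd]
      linarith)
    exact fun j => h7 j
  have hTm : ∀ i, MeasurableSet (T i) := fun i =>
    (mp (ang n i) (hh i)).measurable (measurableSet_regionBetween (hlo i).measurable
      (hhi i).measurable measurableSet_Ioc)
  -- areas
  have hTv : ∀ i, volume (T i) = ENNReal.ofReal
      (δ * ((hh (i + 1) + hh (i - 1) - 2 * hh i * c) / s) + δ ^ 2 * t) := by
    intro i
    refine volT (ang n i) (hh i) _ t δ (lo i) (hi i) (hlo i) (hhi i) ?_ ?_ ht hδ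
    · intro τ
      show (hh (i + 1) + τ - (hh i + τ) * c) / s - ((hh i + τ) * c - hh (i - 1) - τ) / s = _
      rw [← hst]
      field_simp
      ring
    · refine div_nonneg ?_ hs.le
      have := hconv i
      linarith
  have hvn : ∀ i, 0 ≤ δ * ((hh (i + 1) + hh (i - 1) - 2 * hh i * c) / s) + δ ^ 2 * t := by
    intro i
    have h1 : 0 ≤ (hh (i + 1) + hh (i - 1) - 2 * hh i * c) / s :=
      div_nonneg (by have := hconv i; linarith) hs.le
    positivity
  -- disjointness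
  have hdis : (↑(Finset.range n) : Set ℕ).Pairwise (Function.onFun (AEDisjoint volume)
      (fun i : ℕ => T (i : ℤ))) := by
    have key : ∀ i j : ℕ, i < j → j < n → AEDisjoint volume (T (i : ℤ)) (T (j : ℤ)) := by
      intro i j hij hj
      refine measure_mono_null (t := {x : V | ⟪x, ev (ang n i) - ev (ang n j)⟫_ℝ = hh i - hh j})
        ?_ (line_null _ (ev_ne hn hij hj) _)
      rintro x ⟨hx1, hx2⟩
      have h1 := (hT _ x hx1).2.2 j
      have h2 := (hT _ x hx2).2.2 i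
      show ⟪x, ev (ang n i) - ev (ang n j)⟫_ℝ = hh i - hh j
      rw [inner_sub_right]
      linarith
    intro i hi' j hj' hij
    have hi2 := Finset.mem_range.1 (Finset.mem_coe.1 hi')
    have hj2 := Finset.mem_range.1 (Finset.mem_coe.1 hj')
    rcases lt_or_gt_of_ne hij with h1 | h1
    · exact key i j h1 hj2
    · exact (key j i h1 hi2).symm
  have hU : volume (⋃ i ∈ Finset.range n, T ((i : ℕ) : ℤ)) =
      ∑ i ∈ Finset.range n, volume (T ((i : ℕ) : ℤ)) :=
    measure_biUnion_finset₀ hdis (fun i _ => (hTm i).nullMeasurableSet)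
  have hdis2 : Disjoint (PP n hh) (⋃ i ∈ Finset.range n, T ((i : ℕ) : ℤ)) := by
    rw [Set.disjoint_left]
    intro x hx hx2
    simp only [mem_iUnion] at hx2
    obtain ⟨i, _, hxi⟩ := hx2
    have h1 := (hT _ x hxi).1
    have h2 := hx i
    linarith
  have hsub : PP n hh ∪ (⋃ i ∈ Finset.range n, T ((i : ℕ) : ℤ)) ⊆ PP n (fun i => hh i + δ) := by
    rintro x (hx | hx) j
    · have := hx j
      show _ ≤ hh j + δ
      linarith
    · simp only [mem_iUnion] at hx
      obtain ⟨i, _, hxi⟩ := hx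
      obtain ⟨-, h2, h3⟩ := hT _ x hxi
      have := h3 j
      show _ ≤ hh j + δ
      linarith
  have hvn' : ∀ i ∈ Finset.range n, (0 : ℝ) ≤
      (δ * ((hh ((i : ℤ) + 1) + hh ((i : ℤ) - 1) - 2 * hh i * c) / s) + δ ^ 2 * t) :=
    fun i _ => hvn i
  have hmain : volume (PP n hh) + ENNReal.ofReal (∑ i ∈ Finset.range n,
      (δ * ((hh ((i : ℤ) + 1) + hh ((i : ℤ) - 1) - 2 * hh i * c) / s) + δ ^ 2 * t)) ≤
      volume (PP n (fun i => hh i + δ)) := by
    have e1 : ENNReal.ofReal (∑ i ∈ Finset.range n,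
        (δ * ((hh ((i : ℤ) + 1) + hh ((i : ℤ) - 1) - 2 * hh i * c) / s) + δ ^ 2 * t)) =
        ∑ i ∈ Finset.range n, volume (T ((i : ℕ) : ℤ)) := by
      rw [ENNReal.ofReal_sum_of_nonneg hvn']
      exact Finset.sum_congr rfl fun i _ => (hTv i).symm
    rw [e1, ← hU, ← measure_union hdis2 (Finset.measurableSet_biUnion _ fun i _ => hTm i)]
    exact measure_mono hsub
  have hreal := ENNReal.toReal_mono (fin_PP hn (fun i => hh i + δ)).ne hmain
  rw [ENNReal.toReal_add (fin_PP hn hh).ne ENNReal.ofReal_ne_top,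
    ENNReal.toReal_ofReal (Finset.sum_nonneg hvn')] at hreal
  -- the sum
  have hS1 := sum_shift (n := n) hh hSN.per
  have hS2 : ∑ i ∈ Finset.range n, hh ((i : ℤ) - 1) = ∑ i ∈ Finset.range n, hh (i : ℤ) := by
    have := sum_shift (n := n) (fun i => hh (i - 1)) (fun i => by
      show hh (i + n - 1) = hh (i - 1)
      rw [← hSN.per (i - 1)]
      congr 1
      ring)
    simp only [add_sub_cancel_right] at this
    exact this.symm
  have hsum : ∑ i ∈ Finset.range n,
      (δ * ((hh ((i : ℤ) + 1) + hh ((i : ℤ) - 1) - 2 * hh i * c) / s) + δ ^ 2 * t) =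
      δ * (2 * t * ∑ i ∈ Finset.range n, hh (i : ℤ)) + n * t * δ ^ 2 := by
    rw [Finset.sum_add_distrib, ← Finset.mul_sum, ← Finset.sum_div, Finset.sum_sub_distrib,
      Finset.sum_add_distrib, hS1, hS2, Finset.sum_const, Finset.card_range, nsmul_eq_mul]
    have h1 : ∑ i ∈ Finset.range n, 2 * hh (i : ℤ) * c =
        2 * c * ∑ i ∈ Finset.range n, hh (i : ℤ) := by
      rw [Finset.mul_sum]
      exact Finset.sum_congr rfl fun i _ => by ring
    rw [h1, ← hst]
    field_simp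
    ring
  rw [hsum] at hreal
  rw [← htd]
  unfold ar
  linarith

end Pool.Agent.H417R2.CH
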