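import Pool.Agent.H417R2.CH.Defs2

/-!
Task PLM: limits of the circumscribed polygons.
-/

set_option autoImplicit false
open MeasureTheory Metric Set Filter Topology
open scoped ContDiff InnerProductSpace ENNReal NNReal

namespace Pool.Agent.H417R2.CH

namespace PLM

theorem inner_ev (x : V) (θ : ℝ) : ⟪x, ev θ⟫_ℝ = x 0 * Real.cos θ + x 1 * Real.sin θ := by
  simp [ev, pt, PiLp.inner_apply, Fin.sum_univ_two, mul_comm]

theorem norm_ev (θ : ℝ) : ‖ev θ‖ = 1 := by
  rw [EuclideanSpace.norm_eq, Fin.sum_univ_two]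
  simp [ev, pt]

theorem exists_ev (v : V) (hv : ‖v‖ = 1) : ∃ θ : ℝ, v = ev θ := by
  have h1 : (v 0) ^ 2 + (v 1) ^ 2 = 1 := by
    have h := EuclideanSpace.norm_sq_eq v
    rw [hv, Fin.sum_univ_two, Real.norm_eq_abs, Real.norm_eq_abs, sq_abs, sq_abs] at h
    linarith
  have hz : ‖(⟨v 0, v 1⟩ : ℂ)‖ = 1 := by
    rw [Complex.norm_eq_sqrt_sq_add_sq]
    simp only
    rw [h1, Real.sqrt_one]
  have hz0 : (⟨v 0, v 1⟩ : ℂ) ≠ 0 := by
    intro h
    rw [h, norm_zero] at hz
    exact zero_ne_one hz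
  refine ⟨Complex.arg ⟨v 0, v 1⟩, ?_⟩
  have hc := Complex.cos_arg hz0
  have hs := Complex.sin_arg (⟨v 0, v 1⟩ : ℂ)
  rw [hz, div_one] at hc hs
  ext i
  fin_cases i
  · simp [ev, pt, hc]
  · simp [ev, pt, hs]

theorem cont_ev : Continuous ev := by
  unfold ev pt
  have h : Continuous fun θ : ℝ => (![Real.cos θ, Real.sin θ] : Fin 2 → ℝ) := by
    refine continuous_pi fun i => ?_
    fin_cases i
    · exact Real.continuous_cos
    · exact Real.continuous_sin
  exact (PiLp.continuous_toLp 2 _).comp h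

theorem cont_hs {K : Set V} (hK : IsCompact K) : Continuous (hs K) := by
  have h : Continuous (fun p : ℝ × V => ⟪p.2, ev p.1⟫_ℝ) :=
    continuous_snd.inner (cont_ev.comp continuous_fst)
  exact IsCompact.continuous_sSup (f := fun (θ : ℝ) (x : V) => ⟪x, ev θ⟫_ℝ) hK h

theorem cont_in (θ : ℝ) : Continuous (fun x : V => ⟪x, ev θ⟫_ℝ) :=
  continuous_id.inner continuous_const

theorem le_hs {K : Set V} (hK : IsCompact K) {x : V} (hx : x ∈ K) (θ : ℝ) :
    ⟪x, ev θ⟫_ℝ ≤ hs K θ :=
  le_csSup (hK.image (cont_in θ)).bddAbove (mem_image_of_mem _ hx)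

theorem exists_hs {K : Set V} (hK : IsCompact K) (hne : K.Nonempty) (θ : ℝ) :
    ∃ x ∈ K, hs K θ = ⟪x, ev θ⟫_ℝ :=
  hK.exists_sSup_image_eq hne (cont_in θ).continuousOn

/-! ### first part -/

theorem part1 {K : Set V} (hK : IsCompact K) (hne : K.Nonempty) (n : ℕ) (hn : 1 ≤ n) :
    SN n (fun i => hs K (ang n i)) := by
  have hn0 : (n : ℝ) ≠ 0 := by positivity
  constructor
  · intro i
    have h : ev (ang n (i + n)) = ev (ang n i) := by
      have : ang n (i + n) = ang n i + 2 * Real.pi := by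
        unfold ang
        push_cast
        field_simp
      rw [this]
      unfold ev
      rw [Real.cos_add_two_pi, Real.sin_add_two_pi]
    show hs K (ang n (i + n)) = hs K (ang n i)
    unfold hs
    rw [h]
  · intro i
    show 2 * Real.cos (2 * Real.pi / n) * hs K (ang n i) ≤
      hs K (ang n (i + 1)) + hs K (ang n (i - 1))
    obtain ⟨x, hx, hxe⟩ := exists_hs hK hne (ang n i)
    have h1 := le_hs hK hx (ang n (i + 1))
    have h2 := le_hs hK hx (ang n (i - 1))
    have e1 : ang n (i + 1) = ang n i + 2 * Real.pi / n := by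
      unfold ang
      push_cast
      ring
    have e2 : ang n (i - 1) = ang n i - 2 * Real.pi / n := by
      unfold ang
      push_cast
      ring
    have e3 : ⟪x, ev (ang n (i + 1))⟫_ℝ + ⟪x, ev (ang n (i - 1))⟫_ℝ =
        2 * Real.cos (2 * Real.pi / n) * ⟪x, ev (ang n i)⟫_ℝ := by
      rw [inner_ev, inner_ev, inner_ev, e1, e2, Real.cos_add, Real.cos_sub, Real.sin_add,
        Real.sin_sub]
      ring
    rw [hxe]
    linarith

/-! ### the fourth and the fifth part -/

theorem sep {K : Set V} (hK : IsCompact K) (hc : Convex ℝ K) (hne : K.Nonempty) (x : V) :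
    ∃ y ∈ K, x = y ∨ ∃ θ : ℝ, hs K θ + dist x y ≤ ⟪x, ev θ⟫_ℝ := by
  obtain ⟨y, hy, hmin⟩ := exists_norm_eq_iInf_of_complete_convex hne hK.isComplete hc x
  have hle := (norm_eq_iInf_iff_real_inner_le_zero hc hy).1 hmin
  refine ⟨y, hy, ?_⟩
  by_cases hxy : x = y
  · exact Or.inl hxy
  · right
    have hpos : 0 < ‖x - y‖ := norm_pos_iff.2 (sub_ne_zero.2 hxy)
    obtain ⟨θ, hθ⟩ := exists_ev (‖x - y‖⁻¹ • (x - y)) (by
      rw [norm_smul, norm_inv, norm_norm, inv_mul_cancel₀ hpos.ne'])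
    refine ⟨θ, ?_⟩
    obtain ⟨w, hw, hwe⟩ := exists_hs hK hne θ
    rw [hwe, ← hθ, dist_eq_norm, real_inner_smul_right, real_inner_smul_right]
    have h1 := hle w hw
    have h2 : ⟪x, x - y⟫_ℝ - ⟪w, x - y⟫_ℝ = ‖x - y‖ ^ 2 - ⟪x - y, w - y⟫_ℝ := by
      rw [← inner_sub_left, ← real_inner_self_eq_norm_sq, real_inner_comm (w - y) (x - y),
        ← inner_sub_left]
      congr 1
      abel
    have h3 : ‖x - y‖⁻¹ * ⟪x, x - y⟫_ℝ - ‖x - y‖⁻¹ * ⟪w, x - y⟫_ℝ ≥ ‖x - y‖ := by
      rw [← mul_sub, h2, ge_iff_le, ← sub_nonneg]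
      have : ‖x - y‖⁻¹ * (‖x - y‖ ^ 2 - ⟪x - y, w - y⟫_ℝ) - ‖x - y‖ =
          ‖x - y‖⁻¹ * (-⟪x - y, w - y⟫_ℝ) := by
        field_simp
        ring
      rw [this]
      exact mul_nonneg (inv_nonneg.2 hpos.le) (by linarith)
    linarith

theorem part4 {K : Set V} (hK : IsCompact K) (hc : Convex ℝ K) (hne : K.Nonempty) (δ : ℝ)
    (hδ : 0 ≤ δ) : {x | ∀ θ : ℝ, ⟪x, ev θ⟫_ℝ ≤ hs K θ + δ} = cthickening δ K := by
  rw [hK.cthickening_eq_biUnion_closedBall hδ]
  ext x
  simp only [mem_setOf_eq, mem_iUnion, mem_closedBall, exists_prop]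
  constructor
  · intro h
    obtain ⟨y, hy, hxy | ⟨θ, hθ⟩⟩ := sep hK hc hne x
    · exact ⟨y, hy, by rw [hxy, dist_self]; exact hδ⟩
    · exact ⟨y, hy, by linarith [h θ]⟩
  · rintro ⟨y, hy, hxy⟩ θ
    have h1 := le_hs hK hy θ
    have h2 : ⟪x, ev θ⟫_ℝ = ⟪y, ev θ⟫_ℝ + ⟪x - y, ev θ⟫_ℝ := by
      rw [← inner_add_left]; congr 1; abel
    have h3 : ⟪x - y, ev θ⟫_ℝ ≤ dist x y := by
      refine (real_inner_le_norm _ _).trans ?_
      rw [norm_ev, mul_one, dist_eq_norm]
    linarith

theorem part5 {K : Set V} (hK : IsCompact K) (hc : Convex ℝ K) (hne : K.Nonempty) (δ : ℝ)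
    (hδ : 0 < δ) : {x | ∀ θ : ℝ, ⟪x, ev θ⟫_ℝ ≤ hs K θ + -δ} = Inn K δ := by
  ext x
  simp only [mem_setOf_eq, Inn]
  constructor
  · intro h y hy
    rw [mem_ball] at hy
    have hy0 : y ∈ cthickening 0 K := by
      rw [← part4 hK hc hne 0 le_rfl]
      intro θ
      have h2 : ⟪y, ev θ⟫_ℝ = ⟪x, ev θ⟫_ℝ + ⟪y - x, ev θ⟫_ℝ := by
        rw [← inner_add_left]; congr 1; abel
      have h3 : ⟪y - x, ev θ⟫_ℝ ≤ dist y x := by
        refine (real_inner_le_norm _ _).trans ?_
        rw [norm_ev, mul_one, dist_eq_norm]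
      linarith [h θ]
    rwa [cthickening_zero, hK.isClosed.closure_eq] at hy0
  · intro h θ
    have hle : ∀ ε : ℝ, 0 < ε → ⟪x, ev θ⟫_ℝ + δ ≤ hs K θ + ε := by
      intro ε hε
      have hmem : x + (δ - min ε (δ / 2)) • ev θ ∈ K := by
        apply h
        rw [mem_ball, dist_eq_norm, add_sub_cancel_left, norm_smul, norm_ev, mul_one,
          Real.norm_eq_abs, abs_lt]
        have h1 : 0 < min ε (δ / 2) := lt_min hε (by linarith)
        have h2 : min ε (δ / 2) ≤ δ / 2 := min_le_right _ _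
        constructor <;> linarith
      have h1 := le_hs hK hmem θ
      rw [inner_add_left, real_inner_smul_left, real_inner_self_eq_norm_sq, norm_ev] at h1
      have h2 : min ε (δ / 2) ≤ ε := min_le_left _ _
      linarith
    have := le_of_forall_pos_le_add hle
    linarith

/-! ### the second part -/

theorem dyadic {F : ℝ → ℝ} (hF : Continuous F) (h : ∀ (m : ℕ) (i : ℤ), 0 ≤ F (ang (2 ^ m) i))
    (θ : ℝ) : 0 ≤ F θ := by
  have hlim : Tendsto (fun m : ℕ => ang (2 ^ m) ⌊θ * 2 ^ m / (2 * Real.pi)⌋) atTop (𝓝 θ) := by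
    have hb : ∀ m : ℕ, ‖ang (2 ^ m) ⌊θ * 2 ^ m / (2 * Real.pi)⌋ - θ‖ ≤
        2 * Real.pi * (1 / 2) ^ m := by
      intro m
      have hp : (0 : ℝ) < 2 ^ m := by positivity
      have e : ang (2 ^ m) ⌊θ * 2 ^ m / (2 * Real.pi)⌋ - θ =
          -(2 * Real.pi * (1 / 2) ^ m * Int.fract (θ * 2 ^ m / (2 * Real.pi))) := by
        unfold ang Int.fract
        push_cast
        rw [div_pow, one_pow]
        have : Real.pi ≠ 0 := Real.pi_ne_zero
        field_simp
        ring
      rw [e, norm_neg, Real.norm_eq_abs, abs_of_nonneg (by positivity)]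
      have h1 : Int.fract (θ * 2 ^ m / (2 * Real.pi)) ≤ 1 := (Int.fract_lt_one _).le
      calc 2 * Real.pi * (1 / 2) ^ m * Int.fract (θ * 2 ^ m / (2 * Real.pi))
          ≤ 2 * Real.pi * (1 / 2) ^ m * 1 := mul_le_mul_of_nonneg_left h1 (by positivity)
        _ = 2 * Real.pi * (1 / 2) ^ m := mul_one _
    rw [tendsto_iff_norm_sub_tendsto_zero]
    refine squeeze_zero (fun m => norm_nonneg _) hb ?_
    have := (tendsto_pow_atTop_nhds_zero_of_lt_one (r := (1 / 2 : ℝ)) (by norm_num)
      (by norm_num)).const_mul (2 * Real.pi)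
    rwa [mul_zero] at this
  exact ge_of_tendsto' ((hF.tendsto θ).comp hlim) fun m => h m _

theorem part2 {K : Set V} (hK : IsCompact K) (δ : ℝ) :
    Tendsto (fun m : ℕ => ar (PP (2 ^ m) (fun i => hs K (ang (2 ^ m) i) + δ))) atTop
    (𝓝 (ar {x | ∀ θ : ℝ, ⟪x, ev θ⟫_ℝ ≤ hs K θ + δ})) := by
  set S : ℕ → Set V := fun m => PP (2 ^ m) (fun i => hs K (ang (2 ^ m) i) + δ) with hS
  have hclosed : ∀ m, IsClosed (S m) := by
    intro m
    simp only [hS, PP, setOf_forall]
    exact isClosed_iInter fun i => isClosed_le (cont_in _) continuous_const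
  have hanti : Antitone S := by
    refine antitone_nat_of_succ_le fun m x hx i => ?_
    have h := hx (2 * i)
    have e : ang (2 ^ (m + 1)) (2 * i) = ang (2 ^ m) i := by
      unfold ang
      push_cast
      rw [pow_succ]
      field_simp
    simp only at h
    rwa [e] at h
  have hbdd : volume (S 2) ≠ (⊤ : ℝ≥0∞) := by
    have hsub : S 2 ⊆ closedBall (0 : V)
        (|hs K 0 + δ| + |hs K (Real.pi / 2) + δ| + |hs K Real.pi + δ|
          + |hs K (3 * Real.pi / 2) + δ|) := by
      intro x hx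
      have a0 := hx 0
      have a1 := hx 1
      have a2 := hx 2
      have a3 := hx 3
      have e0 : ang (2 ^ 2) 0 = 0 := by unfold ang; push_cast; ring
      have e1 : ang (2 ^ 2) 1 = Real.pi / 2 := by unfold ang; push_cast; ring
      have e2 : ang (2 ^ 2) 2 = Real.pi := by unfold ang; push_cast; ring
      have e3 : ang (2 ^ 2) 3 = 3 * Real.pi / 2 := by unfold ang; push_cast; ring
      have c3 : Real.cos (3 * Real.pi / 2) = 0 := by
        rw [show 3 * Real.pi / 2 = Real.pi + Real.pi / 2 by ring, Real.cos_add]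
        simp
      have s3 : Real.sin (3 * Real.pi / 2) = -1 := by
        rw [show 3 * Real.pi / 2 = Real.pi + Real.pi / 2 by ring, Real.sin_add]
        simp
      simp only at a0 a1 a2 a3
      rw [e0, inner_ev, Real.cos_zero, Real.sin_zero] at a0
      rw [e1, inner_ev, Real.cos_pi_div_two, Real.sin_pi_div_two] at a1
      rw [e2, inner_ev, Real.cos_pi, Real.sin_pi] at a2
      rw [e3, inner_ev, c3, s3] at a3
      have b0 := le_abs_self (hs K 0 + δ)
      have b1 := le_abs_self (hs K (Real.pi / 2) + δ)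
      have b2 := le_abs_self (hs K Real.pi + δ)
      have b3 := le_abs_self (hs K (3 * Real.pi / 2) + δ)
      have n0 := abs_nonneg (hs K 0 + δ)
      have n1 := abs_nonneg (hs K (Real.pi / 2) + δ)
      have n2 := abs_nonneg (hs K Real.pi + δ)
      have n3 := abs_nonneg (hs K (3 * Real.pi / 2) + δ)
      rw [mem_closedBall, dist_zero_right]
      have hx0 : |x 0| ≤ |hs K 0 + δ| + |hs K Real.pi + δ| := by
        rw [abs_le]; constructor <;> linarith
      have hx1 : |x 1| ≤ |hs K (Real.pi / 2) + δ| + |hs K (3 * Real.pi / 2) + δ| := by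
        rw [abs_le]; constructor <;> linarith
      have hnx : ‖x‖ ≤ |x 0| + |x 1| := by
        rw [EuclideanSpace.norm_eq, Fin.sum_univ_two, Real.norm_eq_abs, Real.norm_eq_abs]
        rw [Real.sqrt_le_left (by positivity)]
        nlinarith [abs_nonneg (x 0), abs_nonneg (x 1)]
      linarith
    exact ((measure_mono hsub).trans_lt measure_closedBall_lt_top).ne
  have hint : ⋂ m, S m = {x | ∀ θ : ℝ, ⟪x, ev θ⟫_ℝ ≤ hs K θ + δ} := by
    ext x
    simp only [mem_iInter, mem_setOf_eq]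
    constructor
    · intro h θ
      have hF : Continuous (fun θ : ℝ => hs K θ + δ - ⟪x, ev θ⟫_ℝ) :=
        ((cont_hs hK).add continuous_const).sub (continuous_const.inner cont_ev)
      have := dyadic hF (fun m i => sub_nonneg.2 (h m i)) θ
      linarith
    · intro h m i
      exact h _
  have h := tendsto_measure_iInter_atTop (μ := (volume : Measure V))
    (fun m => (hclosed m).measurableSet.nullMeasurableSet) hanti ⟨2, hbdd⟩
  rw [hint] at h
  have hne : volume {x : V | ∀ θ : ℝ, ⟪x, ev θ⟫_ℝ ≤ hs K θ + δ} ≠ (⊤ : ℝ≥0∞) := by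
    rw [← hint]
    exact ((measure_mono (iInter_subset _ 2)).trans_lt hbdd.lt_top).ne
  exact (ENNReal.tendsto_toReal hne).comp h

/-! ### the third part -/

theorem riemann {f : ℝ → ℝ} (hf : Continuous f) :
    Tendsto (fun n : ℕ => 2 * Real.pi / n * ∑ i ∈ Finset.range n, f (2 * Real.pi * i / n)) atTop
      (𝓝 (∫ θ in (0 : ℝ)..(2 * Real.pi), f θ)) := by
  have hpi := Real.pi_pos
  rw [Metric.tendsto_atTop]
  intro ε hε
  have huc := isCompact_Icc (a := (0 : ℝ)) (b := 2 * Real.pi) |>.uniformContinuousOn_of_continuous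
    hf.continuousOn
  rw [Metric.uniformContinuousOn_iff] at huc
  obtain ⟨d, hd, hd'⟩ := huc (ε / (4 * Real.pi)) (by positivity)
  obtain ⟨N, hN⟩ := exists_nat_gt (2 * Real.pi / d)
  refine ⟨N + 1, fun n hn => ?_⟩
  have hn0 : (0 : ℝ) < n := by
    have : 0 < n := by omega
    exact_mod_cast this
  have hnd : 2 * Real.pi / n < d := by
    have h1 : (N : ℝ) < n := by
      have : N < n := by omega
      exact_mod_cast this
    rw [div_lt_iff₀ hd] at hN
    rw [div_lt_iff₀ hn0]
    nlinarith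
  set a : ℕ → ℝ := fun k => 2 * Real.pi * k / n with ha
  have hstep : ∀ k, a (k + 1) - a k = 2 * Real.pi / n := by
    intro k
    simp only [ha]
    push_cast
    ring
  have hsplit : ∫ θ in (0 : ℝ)..(2 * Real.pi), f θ =
      ∑ k ∈ Finset.range n, ∫ θ in a k..a (k + 1), f θ := by
    rw [intervalIntegral.sum_integral_adjacent_intervals
      (fun k _ => hf.intervalIntegrable _ _)]
    congr 1
    · simp [ha]
    · simp only [ha]
      field_simp
  have hterm : ∀ k ∈ Finset.range n,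
      ‖2 * Real.pi / n * f (a k) - ∫ θ in a k..a (k + 1), f θ‖ ≤
        ε / (4 * Real.pi) * (2 * Real.pi / n) := by
    intro k hk
    rw [Finset.mem_range] at hk
    have hlt : a k < a (k + 1) := by
      have := hstep k
      have h2 : (0 : ℝ) < 2 * Real.pi / n := by positivity
      linarith
    have hk0 : 0 ≤ a k := by simp only [ha]; positivity
    have hk1 : a (k + 1) ≤ 2 * Real.pi := by
      simp only [ha]
      rw [div_le_iff₀ hn0]
      have : ((k + 1 : ℕ) : ℝ) ≤ n := by exact_mod_cast hk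
      nlinarith
    have e1 : 2 * Real.pi / n * f (a k) - ∫ θ in a k..a (k + 1), f θ =
        ∫ θ in a k..a (k + 1), (f (a k) - f θ) := by
      rw [intervalIntegral.integral_sub (by simp) (hf.intervalIntegrable _ _),
        intervalIntegral.integral_const, hstep, smul_eq_mul]
    rw [e1]
    refine (intervalIntegral.norm_integral_le_of_norm_le_const (C := ε / (4 * Real.pi))
      fun θ hθ => ?_).trans ?_
    · rw [uIoc_of_le hlt.le, mem_Ioc] at hθ
      have := hd' (a k) ⟨hk0, hlt.le.trans hk1⟩ θ ⟨hk0.trans hθ.1.le, hθ.2.trans hk1⟩ (by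
        rw [Real.dist_eq, abs_lt]
        have := hstep k
        constructor <;> linarith)
      rw [Real.dist_eq] at this
      exact this.le
    · rw [hstep, abs_of_nonneg (by positivity)]
  rw [hsplit, dist_eq_norm, Finset.mul_sum, ← Finset.sum_sub_distrib]
  calc ‖∑ k ∈ Finset.range n, (2 * Real.pi / n * f (a k) - ∫ θ in a k..a (k + 1), f θ)‖
      ≤ ∑ k ∈ Finset.range n, ε / (4 * Real.pi) * (2 * Real.pi / n) := norm_sum_le_of_le _ hterm
    _ = ε / 2 := by
        rw [Finset.sum_const, Finset.card_range, nsmul_eq_mul]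
        field_simp
        ring
    _ < ε := by linarith

theorem tan_lim : Tendsto (fun m : ℕ => Real.tan (Real.pi / (2 ^ m : ℕ)) /
    (Real.pi / (2 ^ m : ℕ))) atTop (𝓝 1) := by
  have h0 : Real.cos 0 ≠ 0 := by simp
  have hd := Real.hasDerivAt_tan h0
  rw [Real.cos_zero, one_pow, div_one, hasDerivAt_iff_tendsto_slope] at hd
  have hlim : Tendsto (fun m : ℕ => Real.pi / ((2 ^ m : ℕ) : ℝ)) atTop (𝓝[≠] 0) := by
    rw [tendsto_nhdsWithin_iff]
    constructor
    · have h1 : Tendsto (fun m : ℕ => Real.pi * (1 / 2 : ℝ) ^ m) atTop (𝓝 (Real.pi * 0)) :=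
        (tendsto_pow_atTop_nhds_zero_of_lt_one (by norm_num) (by norm_num)).const_mul _
      rw [mul_zero] at h1
      refine h1.congr fun m => ?_
      push_cast
      rw [div_pow, one_pow]
      ring
    · refine Eventually.of_forall fun m => ?_
      simp only [mem_compl_iff, mem_singleton_iff]
      have := Real.pi_pos
      positivity
  refine (hd.comp hlim).congr fun m => ?_
  simp only [Function.comp_apply, slope_def_field, Real.tan_zero, sub_zero]

theorem part3 {K : Set V} (hK : IsCompact K) :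
    Tendsto (fun m : ℕ => 2 * Real.tan (Real.pi / (2 ^ m : ℕ)) *
      ∑ i ∈ Finset.range (2 ^ m), hs K (ang (2 ^ m) i)) atTop (𝓝 (W K)) := by
  have h1 := (riemann (cont_hs hK)).comp (tendsto_pow_atTop_atTop_of_one_lt (r := 2) one_lt_two)
  have h2 := tan_lim.mul h1
  rw [one_mul] at h2
  refine h2.congr fun m => ?_
  simp only [Function.comp_apply]
  have hp : ((2 ^ m : ℕ) : ℝ) ≠ 0 := by positivity
  have hpi := Real.pi_ne_zero
  have e : ∀ i : ℕ, ang (2 ^ m) (i : ℤ) = 2 * Real.pi * i / ((2 ^ m : ℕ) : ℝ) := by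
    intro i
    unfold ang
    rw [Int.cast_natCast]
  simp only [e]
  rw [← mul_assoc]
  congr 1
  field_simp

end PLM

theorem t_PLM : S_PLM := by
  intro K hK hc hne
  exact ⟨fun n hn => PLM.part1 hK hne n hn, fun δ => PLM.part2 hK δ, PLM.part3 hK,
    fun δ hδ => PLM.part4 hK hc hne δ hδ, fun δ hδ => PLM.part5 hK hc hne δ hδ⟩

end Pool.Agent.H417R2.CH
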