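import Pool.Agent.H417R2.CH.Defs2

/-! REG: planar convex sets are regions between graphs. -/

set_option autoImplicit false
open MeasureTheory Metric Set Filter Topology
open scoped ContDiff InnerProductSpace ENNReal NNReal

namespace Pool.Agent.H417R2.CH

namespace REG

theorem pt_zero (x y : ℝ) : pt x y 0 = x := by simp [pt]
theorem pt_one (x y : ℝ) : pt x y 1 = y := by simp [pt]
theorem pt_eta (p : V) : pt (p 0) (p 1) = p := by
  ext i; fin_cases i <;> simp [pt]

theorem pt_comb (a b x y x' y' : ℝ) :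
    a • pt x y + b • pt x' y' = pt (a * x + b * x') (a * y + b * y') := by
  ext i; fin_cases i <;> simp [pt]

theorem cont0 : Continuous (fun p : V => p 0) := by fun_prop
theorem cont1 : Continuous (fun p : V => p 1) := by fun_prop

theorem abs0 (p : V) : |p 0| ≤ ‖p‖ := by
  have := PiLp.norm_apply_le p 0
  simpa using this
theorem abs1 (p : V) : |p 1| ≤ ‖p‖ := by
  have := PiLp.norm_apply_le p 1
  simpa using this

theorem norm_le (p : V) : ‖p‖ ≤ |p 0| + |p 1| := by
  rw [EuclideanSpace.norm_eq, Fin.sum_univ_two]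
  refine Real.sqrt_le_iff.2 ⟨by positivity, ?_⟩
  simp only [Real.norm_eq_abs]
  nlinarith [abs_nonneg (p 0), abs_nonneg (p 1)]

/-- open bounded intervals -/
theorem ioo_of {A : Set ℝ} (ho : IsOpen A) (hc : Convex ℝ A) (hne : A.Nonempty)
    (hb : BddBelow A) (ha : BddAbove A) : A = Ioo (sInf A) (sSup A) := by
  have hoc : OrdConnected A := hc.ordConnected
  ext x
  constructor
  · intro hx
    obtain ⟨ε, hε, hball⟩ := Metric.isOpen_iff.1 ho x hx
    constructor
    · have h1 : x - ε / 2 ∈ A := hball (by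
        rw [Metric.mem_ball, Real.dist_eq]
        rw [show x - ε / 2 - x = -(ε / 2) by ring, abs_neg, abs_of_pos (by linarith)]
        linarith)
      have := csInf_le hb h1
      linarith
    · have h1 : x + ε / 2 ∈ A := hball (by
        rw [Metric.mem_ball, Real.dist_eq]
        rw [show x + ε / 2 - x = ε / 2 by ring, abs_of_pos (by linarith)]
        linarith)
      have := le_csSup ha h1
      linarith
  · rintro ⟨h1, h2⟩
    obtain ⟨y, hy, hyx⟩ := exists_lt_of_csInf_lt hne h1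
    obtain ⟨z, hz, hxz⟩ := exists_lt_of_lt_csSup hne h2
    exact hoc.out hy hz ⟨hyx.le, hxz.le⟩

theorem isOpen_reg {α β : ℝ} {l g : ℝ → ℝ} (h : RegD α β l g) : IsOpen (Reg α β l g) := by
  have hS : IsOpen {p : V | p 0 ∈ Ioo α β} := isOpen_Ioo.preimage cont0
  have hl : ContinuousOn l (Ioo α β) := h.cl.continuousOn isOpen_Ioo
  have hg : ContinuousOn g (Ioo α β) := h.cg.continuousOn isOpen_Ioo
  have h1 : ContinuousOn (fun p : V => p 1 - l (p 0)) {p : V | p 0 ∈ Ioo α β} :=
    cont1.continuousOn.sub (hl.comp cont0.continuousOn fun p hp => hp)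
  have h2 : ContinuousOn (fun p : V => g (p 0) - p 1) {p : V | p 0 ∈ Ioo α β} :=
    (hg.comp cont0.continuousOn fun p hp => hp).sub cont1.continuousOn
  have e : Reg α β l g =
      ({p : V | p 0 ∈ Ioo α β} ∩ (fun p : V => p 1 - l (p 0)) ⁻¹' Ioi 0) ∩
      ({p : V | p 0 ∈ Ioo α β} ∩ (fun p : V => g (p 0) - p 1) ⁻¹' Ioi 0) := by
    ext p
    simp only [Reg, mem_inter_iff, mem_preimage, mem_Ioi, mem_Ioo, mem_ofPred_eq, sub_pos]
    tauto
  rw [e]
  exact (h1.isOpen_inter_preimage hS isOpen_Ioi).inter (h2.isOpen_inter_preimage hS isOpen_Ioi)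

theorem pc_reg {α β : ℝ} {l g : ℝ → ℝ} (h : RegD α β l g) : PC (Reg α β l g) := by
  refine ⟨isOpen_reg h, ?_, ?_, ?_⟩
  · intro p hp q hq a b ha hb hab
    obtain ⟨p1, p2, p3, p4⟩ := hp
    obtain ⟨q1, q2, q3, q4⟩ := hq
    have e0 : (a • p + b • q) 0 = a * p 0 + b * q 0 := by simp
    have e1 : (a • p + b • q) 1 = a * p 1 + b * q 1 := by simp
    have hlt : ∀ {x y z w : ℝ}, x < y → z < w → a * x + b * z < a * y + b * w := by
      intro x y z w hxy hzw
      rcases ha.eq_or_lt with h0 | h0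
      · have hb1 : b = 1 := by linarith
        rw [← h0, hb1]; linarith
      · have h3 : a * x < a * y := mul_lt_mul_of_pos_left hxy h0
        have h4 : b * z ≤ b * w := mul_le_mul_of_nonneg_left hzw.le hb
        linarith
    have hc1 := h.cl.2 ⟨p1, p2⟩ ⟨q1, q2⟩ ha hb hab
    have hc2 := h.cg.2 ⟨p1, p2⟩ ⟨q1, q2⟩ ha hb hab
    simp only [smul_eq_mul] at hc1 hc2
    have h5 := hlt p1 q1
    have h6 := hlt p2 q2
    have h7 := hlt p3 q3
    have h8 := hlt p4 q4
    have h9 : a * α + b * α = α := by rw [← add_mul, hab, one_mul]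
    have h10 : a * β + b * β = β := by rw [← add_mul, hab, one_mul]
    refine ⟨?_, ?_, ?_, ?_⟩
    · rw [e0]; linarith
    · rw [e0]; linarith
    · rw [e0, e1]; linarith
    · rw [e0, e1]; linarith
  · obtain ⟨M, hM⟩ := h.bd
    rw [isBounded_iff_forall_norm_le]
    refine ⟨max |α| |β| + |M|, fun p hp => ?_⟩
    obtain ⟨p1, p2, p3, p4⟩ := hp
    have h1 := hM (p 0) ⟨p1, p2⟩
    have h2 : |p 0| ≤ max |α| |β| := by
      rw [abs_le]
      constructor
      · have : -|α| ≤ α := neg_abs_le α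
        have := le_max_left |α| |β|
        linarith
      · have : β ≤ |β| := le_abs_self β
        have := le_max_right |α| |β|
        linarith
    have h3 : |p 1| ≤ |M| := by
      rw [abs_le]
      have := le_abs_self M
      constructor <;> linarith [h1.1, h1.2]
    linarith [norm_le p]
  · have hm : (α + β) / 2 ∈ Ioo α β := by
      have := h.lt
      constructor <;> linarith
    have hlg := h.lg _ hm
    refine ⟨pt ((α + β) / 2) ((l ((α + β) / 2) + g ((α + β) / 2)) / 2), ?_⟩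
    refine ⟨?_, ?_, ?_, ?_⟩
    · rw [pt_zero]; exact hm.1
    · rw [pt_zero]; exact hm.2
    · rw [pt_zero, pt_one]; linarith
    · rw [pt_zero, pt_one]; linarith

theorem cont_pt (x : ℝ) : Continuous (fun y : ℝ => pt x y) := by
  unfold pt
  fun_prop

/-- the projection of `U` -/
def Pr (U : Set V) : Set ℝ := (fun p : V => p 0) '' U

/-- the section of `U` -/
def Se (U : Set V) (x : ℝ) : Set ℝ := {y | pt x y ∈ U}

theorem pr_eq {U : Set V} (h : PC U) : Pr U = Ioo (sInf (Pr U)) (sSup (Pr U)) := by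
  have hb : ∃ M : ℝ, ∀ p ∈ U, ‖p‖ ≤ M := isBounded_iff_forall_norm_le.1 h.bdd
  obtain ⟨M, hM⟩ := hb
  refine ioo_of ?_ ?_ ?_ ?_ ?_
  · rw [Metric.isOpen_iff]
    rintro x ⟨p, hp, rfl⟩
    obtain ⟨ε, hε, hball⟩ := Metric.isOpen_iff.1 h.isOpen p hp
    refine ⟨ε, hε, fun y hy => ⟨pt y (p 1), hball ?_, pt_zero _ _⟩⟩
    rw [Metric.mem_ball, dist_eq_norm] at hy ⊢
    refine lt_of_le_of_lt (norm_le _) ?_
    have e0 : (pt y (p 1) - p) 0 = y - p 0 := by simp [pt]
    have e1 : (pt y (p 1) - p) 1 = 0 := by simp [pt]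
    rw [e0, e1, abs_zero, add_zero]
    exact hy
  · rintro x ⟨p, hp, rfl⟩ y ⟨q, hq, rfl⟩ a b ha hb hab
    exact ⟨a • p + b • q, h.convex hp hq ha hb hab, by simp⟩
  · exact h.ne.image _
  · refine ⟨-M, ?_⟩
    rintro x ⟨p, hp, rfl⟩
    have h1 := abs_le.1 ((abs0 p).trans (hM p hp))
    exact h1.1
  · refine ⟨M, ?_⟩
    rintro x ⟨p, hp, rfl⟩
    have h1 := abs_le.1 ((abs0 p).trans (hM p hp))
    exact h1.2

theorem se_eq {U : Set V} (h : PC U) {x : ℝ} (hx : x ∈ Pr U) :
    Se U x = Ioo (sInf (Se U x)) (sSup (Se U x)) := by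
  have hb : ∃ M : ℝ, ∀ p ∈ U, ‖p‖ ≤ M := isBounded_iff_forall_norm_le.1 h.bdd
  obtain ⟨M, hM⟩ := hb
  refine ioo_of ?_ ?_ ?_ ?_ ?_
  · exact h.isOpen.preimage (cont_pt x)
  · intro y hy z hz a b ha hb hab
    have h1 := h.convex hy hz ha hb hab
    rw [pt_comb, show a * x + b * x = x by rw [← add_mul, hab, one_mul]] at h1
    exact h1
  · obtain ⟨p, hp, rfl⟩ := hx
    exact ⟨p 1, by show pt (p 0) (p 1) ∈ U; rw [pt_eta]; exact hp⟩
  · refine ⟨-M, ?_⟩
    intro y hy
    have h1 := abs_le.1 ((abs1 _).trans (hM _ hy))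
    rw [pt_one] at h1
    exact h1.1
  · refine ⟨M, ?_⟩
    intro y hy
    have h1 := abs_le.1 ((abs1 _).trans (hM _ hy))
    rw [pt_one] at h1
    exact h1.2

theorem se_comb {U : Set V} (h : PC U) {x x' y y' a b : ℝ} (hy : y ∈ Se U x) (hy' : y' ∈ Se U x')
    (ha : 0 ≤ a) (hb : 0 ≤ b) (hab : a + b = 1) : a * y + b * y' ∈ Se U (a * x + b * x') := by
  have h1 := h.convex hy hy' ha hb hab
  rw [pt_comb] at h1
  exact h1

theorem pr_comb {U : Set V} (h : PC U) {x x' a b : ℝ} (hx : x ∈ Pr U) (hx' : x' ∈ Pr U)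
    (ha : 0 ≤ a) (hb : 0 ≤ b) (hab : a + b = 1) : a * x + b * x' ∈ Pr U := by
  obtain ⟨p, hp, rfl⟩ := hx
  obtain ⟨q, hq, rfl⟩ := hx'
  exact ⟨a • p + b • q, h.convex hp hq ha hb hab, by simp⟩

theorem reg_of {U : Set V} (h : PC U) :
    ∃ (α β : ℝ) (l g : ℝ → ℝ), RegD α β l g ∧ U = Reg α β l g := by
  have hP := pr_eq h
  have hS : ∀ x ∈ Pr U, Se U x = Ioo (sInf (Se U x)) (sSup (Se U x)) := fun x hx => se_eq h hx
  have hb : ∃ M : ℝ, ∀ p ∈ U, ‖p‖ ≤ M := isBounded_iff_forall_norm_le.1 h.bdd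
  obtain ⟨M, hM⟩ := hb
  have hne : ∀ x ∈ Pr U, (Se U x).Nonempty := by
    rintro x ⟨p, hp, rfl⟩
    exact ⟨p 1, by show pt (p 0) (p 1) ∈ U; rw [pt_eta]; exact hp⟩
  have hbelow : ∀ x, BddBelow (Se U x) := fun x => ⟨-M, fun y hy => by
    have h1 := abs_le.1 ((abs1 _).trans (hM _ hy))
    rw [pt_one] at h1
    exact h1.1⟩
  have habove : ∀ x, BddAbove (Se U x) := fun x => ⟨M, fun y hy => by
    have h1 := abs_le.1 ((abs1 _).trans (hM _ hy))
    rw [pt_one] at h1
    exact h1.2⟩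
  refine ⟨sInf (Pr U), sSup (Pr U), fun x => sInf (Se U x), fun x => sSup (Se U x), ?_, ?_⟩
  · refine ⟨?_, ?_, ?_, ?_, ?_⟩
    · obtain ⟨x, hx⟩ : (Pr U).Nonempty := h.ne.image _
      rw [hP] at hx
      exact hx.1.trans hx.2
    · refine ⟨convex_Ioo _ _, ?_⟩
      intro x hx y hy a b ha hb hab
      rw [← hP] at hx hy
      simp only [smul_eq_mul]
      refine le_of_forall_pos_le_add fun ε hε => ?_
      obtain ⟨u, hu, hu'⟩ := exists_lt_of_csInf_lt (hne x hx)
        (show sInf (Se U x) < sInf (Se U x) + ε by linarith)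
      obtain ⟨v, hv, hv'⟩ := exists_lt_of_csInf_lt (hne y hy)
        (show sInf (Se U y) < sInf (Se U y) + ε by linarith)
      have h1 := csInf_le (hbelow _) (se_comb h hu hv ha hb hab)
      have h2 : a * u ≤ a * (sInf (Se U x) + ε) := mul_le_mul_of_nonneg_left hu'.le ha
      have h3 : b * v ≤ b * (sInf (Se U y) + ε) := mul_le_mul_of_nonneg_left hv'.le hb
      have h4 : a * (sInf (Se U x) + ε) + b * (sInf (Se U y) + ε) =
          a * sInf (Se U x) + b * sInf (Se U y) + ε := by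
        have : a * ε + b * ε = ε := by rw [← add_mul, hab, one_mul]
        linarith
      linarith
    · refine ⟨convex_Ioo _ _, ?_⟩
      intro x hx y hy a b ha hb hab
      rw [← hP] at hx hy
      simp only [smul_eq_mul]
      refine le_of_forall_pos_le_add fun ε hε => ?_
      obtain ⟨u, hu, hu'⟩ := exists_lt_of_lt_csSup (hne x hx)
        (show sSup (Se U x) - ε < sSup (Se U x) by linarith)
      obtain ⟨v, hv, hv'⟩ := exists_lt_of_lt_csSup (hne y hy)
        (show sSup (Se U y) - ε < sSup (Se U y) by linarith)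
      have h1 := le_csSup (habove _) (se_comb h hu hv ha hb hab)
      have h2 : a * (sSup (Se U x) - ε) ≤ a * u := mul_le_mul_of_nonneg_left hu'.le ha
      have h3 : b * (sSup (Se U y) - ε) ≤ b * v := mul_le_mul_of_nonneg_left hv'.le hb
      have h4 : a * (sSup (Se U x) - ε) + b * (sSup (Se U y) - ε) =
          a * sSup (Se U x) + b * sSup (Se U y) - ε := by
        have : a * ε + b * ε = ε := by rw [← add_mul, hab, one_mul]
        linarith
      linarith
    · intro x hx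
      rw [← hP] at hx
      obtain ⟨y, hy⟩ := hne x hx
      rw [hS x hx] at hy
      exact hy.1.trans hy.2
    · refine ⟨M, fun x hx => ?_⟩
      rw [← hP] at hx
      constructor
      · refine le_csInf (hne x hx) fun y hy => ?_
        have h1 := abs_le.1 ((abs1 _).trans (hM _ hy))
        rw [pt_one] at h1
        exact h1.1
      · refine csSup_le (hne x hx) fun y hy => ?_
        have h1 := abs_le.1 ((abs1 _).trans (hM _ hy))
        rw [pt_one] at h1
        exact h1.2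
  · ext p
    constructor
    · intro hp
      have h1 : p 0 ∈ Pr U := ⟨p, hp, rfl⟩
      have h2 : p 1 ∈ Se U (p 0) := by show pt (p 0) (p 1) ∈ U; rw [pt_eta]; exact hp
      rw [hS _ h1] at h2
      rw [hP] at h1
      exact ⟨h1.1, h1.2, h2.1, h2.2⟩
    · rintro ⟨h1, h2, h3, h4⟩
      have h5 : p 0 ∈ Pr U := by rw [hP]; exact ⟨h1, h2⟩
      have h6 : p 1 ∈ Se U (p 0) := by rw [hS _ h5]; exact ⟨h3, h4⟩
      have h7 : pt (p 0) (p 1) ∈ U := h6
      rw [pt_eta] at h7
      exact h7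

end REG

theorem t_REG : S_REG := ⟨fun _ _ _ _ h => REG.pc_reg h, fun _ h => REG.reg_of h⟩

end Pool.Agent.H417R2.CH
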