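import Pool.Agent.H417R2.CH.Defs2

/-! REGW: interior regularity of weak solutions. -/

set_option autoImplicit false
open MeasureTheory Metric Set Filter Topology
open scoped ContDiff InnerProductSpace ENNReal NNReal

namespace Pool.Agent.H417R2.CH

open Pool.Agent.Helper546

namespace REGW

theorem grad_apply (f : V → ℝ) (x : V) (i : Fin 2) : gradient f x i = dd i f x := by
  have h3 : ⟪gradient f x, ee i⟫_ℝ = fderiv ℝ f x (ee i) := by
    rw [gradient, InnerProductSpace.toDual_symm_apply]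
  rw [dd, ← h3, ee, EuclideanSpace.inner_single_right]
  simp

theorem cs {F H : V → ℝ} (hF : MemLp F 2 (volume : Measure V))
    (hH : MemLp H 2 (volume : Measure V)) :
    (∫ x, F x * H x) ^ 2 ≤ (∫ x, F x ^ 2) * ∫ x, H x ^ 2 := by
  rw [← inner_L2 (hF.toLp F) (hH.toLp H) hF.coeFn_toLp hH.coeFn_toLp,
    ← norm_sq_L2 (hF.toLp F) hF.coeFn_toLp, ← norm_sq_L2 (hH.toLp H) hH.coeFn_toLp, ← mul_pow]
  exact sq_le_sq' (by
    have := neg_le_of_abs_le (abs_real_inner_le_norm (hF.toLp F) (hH.toLp H))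
    exact this) (real_inner_le_norm _ _)

theorem memLp_coord {G : V → V} (hG : MemLp G 2 (volume : Measure V)) (i : Fin 2) :
    MemLp (fun x => G x i) 2 (volume : Measure V) :=
  (EuclideanSpace.proj (𝕜 := ℝ) i : V →L[ℝ] ℝ).comp_memLp' hG

theorem tst_memLp {U : Set V} {φ : V → ℝ} (h : Tst U φ) : MemLp φ 2 (volume : Measure V) :=
  h.1.continuous.memLp_of_hasCompactSupport h.2.1

theorem norm_sub_sq (g : V) (f : V → ℝ) (x : V) :
    ‖g - gradient f x‖ ^ 2 = (g 0 - dd 0 f x) ^ 2 + (g 1 - dd 1 f x) ^ 2 := by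
  rw [norm_sq_V]
  simp only [PiLp.sub_apply, grad_apply]

theorem coord_le {U : Set V} {G : V → V} (hG : MemLp G 2 (volume : Measure V)) {φ : V → ℝ}
    (h : Tst U φ) (i : Fin 2) :
    ∫ x, (G x i - dd i φ x) ^ 2 ≤ ∫ x, ‖G x - gradient φ x‖ ^ 2 := by
  have h0 := ((memLp_coord hG 0).sub (tst_memLp (h.dd 0))).integrable_sq
  have h1 := ((memLp_coord hG 1).sub (tst_memLp (h.dd 1))).integrable_sq
  have hi := ((memLp_coord hG i).sub (tst_memLp (h.dd i))).integrable_sq
  have hs : Integrable (fun x => ‖G x - gradient φ x‖ ^ 2) := by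
    have := h0.add h1
    refine this.congr (ae_of_all _ fun x => ?_)
    show (G x 0 - dd 0 φ x) ^ 2 + (G x 1 - dd 1 φ x) ^ 2 = ‖G x - gradient φ x‖ ^ 2
    rw [norm_sub_sq]
  refine integral_mono hi hs fun x => ?_
  show (G x i - dd i φ x) ^ 2 ≤ ‖G x - gradient φ x‖ ^ 2
  rw [norm_sub_sq]
  fin_cases i
  · show (G x 0 - dd 0 φ x) ^ 2 ≤ _
    nlinarith [sq_nonneg (G x 1 - dd 1 φ x)]
  · show (G x 1 - dd 1 φ x) ^ 2 ≤ _
    nlinarith [sq_nonneg (G x 0 - dd 0 φ x)]

/-- the functions `G i` are the weak derivatives of `v` -/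
theorem wd {U : Set V} {v : V → ℝ} {G : V → V} (hH : H10 U v G) (i : Fin 2) {ψ : V → ℝ}
    (hψ : Tst Set.univ ψ) : ∫ x, G x i * ψ x = -∫ x, v x * dd i ψ x := by
  have hGi := memLp_coord hH.memG i
  have hψ2 := tst_memLp hψ
  have hdψ := tst_memLp (hψ.dd i)
  set A : ℝ := ∫ x, ψ x ^ 2 with hA
  set B : ℝ := ∫ x, dd i ψ x ^ 2 with hB
  have hA0 : 0 ≤ A := integral_nonneg fun x => sq_nonneg _
  have hB0 : 0 ≤ B := integral_nonneg fun x => sq_nonneg _
  set D : ℝ := (∫ x, G x i * ψ x) + ∫ x, v x * dd i ψ x with hD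
  have key : ∀ ε : ℝ, 0 < ε → D ^ 2 ≤ 2 * ε * (A + B) := by
    intro ε hε
    obtain ⟨φ, hφ, h1, h2⟩ := hH.approx ε hε
    have hφ2 := tst_memLp hφ
    have hdφ := tst_memLp (hφ.dd i)
    have e1 : ∫ x, φ x * dd i ψ x = - ∫ x, dd i φ x * ψ x :=
      ibp isOpen_univ i hφ.1.contDiffOn hψ
    have i1 : Integrable (fun x => G x i * ψ x) := MemLp.integrable_mul (p := 2) (q := 2) hGi hψ2
    have i2 : Integrable (fun x => v x * dd i ψ x) :=
      MemLp.integrable_mul (p := 2) (q := 2) hH.memu hdψ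
    have i3 : Integrable (fun x => dd i φ x * ψ x) :=
      MemLp.integrable_mul (p := 2) (q := 2) hdφ hψ2
    have i4 : Integrable (fun x => φ x * dd i ψ x) :=
      MemLp.integrable_mul (p := 2) (q := 2) hφ2 hdψ
    have e2 : D = (∫ x, (G x i - dd i φ x) * ψ x) + ∫ x, (v x - φ x) * dd i ψ x := by
      have a1 : ∫ x, (G x i - dd i φ x) * ψ x = (∫ x, G x i * ψ x) - ∫ x, dd i φ x * ψ x := by
        rw [← integral_sub i1 i3]
        congr 1; funext x; ring
      have a2 : ∫ x, (v x - φ x) * dd i ψ x = (∫ x, v x * dd i ψ x) - ∫ x, φ x * dd i ψ x := by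
        rw [← integral_sub i2 i4]
        congr 1; funext x; ring
      rw [a1, a2, e1, hD]
      ring
    have c1 : (∫ x, (G x i - dd i φ x) * ψ x) ^ 2 ≤ ε * A := by
      have := cs (hGi.sub hdφ) hψ2
      refine this.trans ?_
      refine mul_le_mul_of_nonneg_right ?_ hA0
      exact (coord_le hH.memG hφ i).trans h2.le
    have c2 : (∫ x, (v x - φ x) * dd i ψ x) ^ 2 ≤ ε * B := by
      have := cs (hH.memu.sub hφ2) hdψ
      refine this.trans ?_
      exact mul_le_mul_of_nonneg_right h1.le hB0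
    rw [e2]
    nlinarith [sq_nonneg ((∫ x, (G x i - dd i φ x) * ψ x) - ∫ x, (v x - φ x) * dd i ψ x)]
  have hD0 : D = 0 := by
    by_contra hne
    have hpos : 0 < D ^ 2 := by positivity
    have h3 := key (D ^ 2 / (2 * (A + B) + 1)) (by positivity)
    have h4 : 2 * (D ^ 2 / (2 * (A + B) + 1)) * (A + B) =
        D ^ 2 * (2 * (A + B)) / (2 * (A + B) + 1) := by ring
    rw [h4, le_div_iff₀ (by positivity)] at h3
    nlinarith
  have : (∫ x, G x i * ψ x) + ∫ x, v x * dd i ψ x = 0 := hD0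
  linarith

theorem inner_grad (g : V) (f : V → ℝ) (x : V) :
    ⟪g, gradient f x⟫_ℝ = g 0 * dd 0 f x + g 1 * dd 1 f x := by
  rw [PiLp.inner_apply, Fin.sum_univ_two, grad_apply, grad_apply]
  simp only [RCLike.inner_apply, conj_trivial]
  ring

theorem weak {U : Set V} {v : V → ℝ} {G : V → V} {Λ : ℝ} (hH : H10 U v G)
    (hw : ∀ φ, Tst U φ → ∫ x, ⟪G x, gradient φ x⟫_ℝ = Λ * ∫ x, v x * φ x) (ψ : V → ℝ)
    (hψ : Tst U ψ) : ∫ x, v x * (lap ψ x + Λ * ψ x) = 0 := by
  have h0 := wd hH 0 (hψ.univ.dd 0)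
  have h1 := wd hH 1 (hψ.univ.dd 1)
  have hm := hw ψ hψ
  have i0 : Integrable (fun x => v x * ψ x) :=
    MemLp.integrable_mul (p := 2) (q := 2) hH.memu (tst_memLp hψ)
  have i1 : Integrable (fun x => v x * dd 0 (dd 0 ψ) x) :=
    MemLp.integrable_mul (p := 2) (q := 2) hH.memu (tst_memLp ((hψ.dd 0).dd 0))
  have i2 : Integrable (fun x => v x * dd 1 (dd 1 ψ) x) :=
    MemLp.integrable_mul (p := 2) (q := 2) hH.memu (tst_memLp ((hψ.dd 1).dd 1))
  have j0 : Integrable (fun x => G x 0 * dd 0 ψ x) :=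
    MemLp.integrable_mul (p := 2) (q := 2) (memLp_coord hH.memG 0) (tst_memLp (hψ.dd 0))
  have j1 : Integrable (fun x => G x 1 * dd 1 ψ x) :=
    MemLp.integrable_mul (p := 2) (q := 2) (memLp_coord hH.memG 1) (tst_memLp (hψ.dd 1))
  have e1 : ∫ x, ⟪G x, gradient ψ x⟫_ℝ =
      (∫ x, G x 0 * dd 0 ψ x) + ∫ x, G x 1 * dd 1 ψ x := by
    rw [← integral_add j0 j1]
    congr 1; funext x; exact inner_grad _ _ _
  have e2 : ∫ x, v x * (lap ψ x + Λ * ψ x) =
      (∫ x, v x * dd 0 (dd 0 ψ) x) + (∫ x, v x * dd 1 (dd 1 ψ) x) + Λ * ∫ x, v x * ψ x := by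
    rw [← integral_const_mul, ← integral_add i1 i2, ← integral_add]
    · congr 1; funext x; rw [lap]; ring
    · exact i1.add i2
    · exact i0.const_mul Λ
  rw [e2]
  rw [e1, h0, h1] at hm
  linarith

theorem out_zero {U : Set V} {f : V → ℝ} (hf : MemLp f 2 (volume : Measure V))
    (h : ∀ ε : ℝ, 0 < ε → ∃ g : V → ℝ, MemLp g 2 (volume : Measure V) ∧ (∀ x, x ∉ U → g x = 0) ∧
      ∫ x, (f x - g x) ^ 2 < ε) (hU : MeasurableSet U) : ∀ᵐ x : V, x ∉ U → f x = 0 := by
  have hi : Integrable (fun x => f x ^ 2) := hf.integrable_sq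
  have hi2 : Integrable (Uᶜ.indicator (fun x => f x ^ 2)) := hi.indicator hU.compl
  have h0 : ∀ x, 0 ≤ Uᶜ.indicator (fun x => f x ^ 2) x := fun x =>
    indicator_nonneg (fun x _ => sq_nonneg _) x
  have h1 : ∫ x, Uᶜ.indicator (fun x => f x ^ 2) x ≤ 0 := by
    refine le_of_forall_pos_le_add fun ε hε => ?_
    obtain ⟨g, hg, hg0, hge⟩ := h ε hε
    have h2 : ∫ x, Uᶜ.indicator (fun x => f x ^ 2) x ≤ ∫ x, (f x - g x) ^ 2 := by
      refine integral_mono hi2 (hf.sub hg).integrable_sq fun x => ?_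
      show Uᶜ.indicator (fun x => f x ^ 2) x ≤ (f x - g x) ^ 2
      by_cases hx : x ∈ U
      · rw [indicator_of_notMem (by simpa using hx)]
        exact sq_nonneg _
      · rw [indicator_of_mem (by simpa using hx), hg0 x hx, sub_zero]
    linarith
  have h3 : ∫ x, Uᶜ.indicator (fun x => f x ^ 2) x = 0 :=
    le_antisymm h1 (integral_nonneg h0)
  have h4 := (integral_eq_zero_iff_of_nonneg h0 hi2).1 h3
  filter_upwards [h4] with x hx hxU
  rw [indicator_of_mem (show x ∈ Uᶜ from hxU)] at hx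
  exact pow_eq_zero_iff (two_ne_zero) |>.1 hx

end REGW

open REGW in
theorem t_REGW : S_REGW := by
  intro U hU Λ hΛ v G hH hw
  obtain ⟨w, hv1, hv2, hv3, C, t0, ht0, hv4⟩ := weyl hU hΛ hH.memu (weak hH hw)
  have hgrad : ∀ i : Fin 2, ∀ᵐ x : V, x ∈ U → G x i - dd i w x = 0 := by
    intro i
    have hm := memLp_coord hH.memG i
    refine hU.ae_eq_zero_of_integral_contDiff_smul_eq_zero ?_ ?_
    · refine LocallyIntegrableOn.sub ?_ ?_
      · exact (hm.locallyIntegrable (by norm_num)).locallyIntegrableOn _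
      · exact (contDiffOn_dd hU i hv1).continuousOn.locallyIntegrableOn hU.measurableSet
    · intro g hg1 hg2 hg3
      have hgt : Tst U g := ⟨hg1, hg2, hg3⟩
      have j1 : Integrable (fun x => G x i * g x) :=
        MemLp.integrable_mul (p := 2) (q := 2) hm (tst_memLp hgt)
      have j2 : Integrable (fun x => dd i w x * g x) :=
        integrable_mul_of_tsupport hU (contDiffOn_dd hU i hv1).continuousOn hg1.continuous
          hg3 hg2
      have e1 : ∫ x, g x • (G x i - dd i w x) = (∫ x, G x i * g x) - ∫ x, dd i w x * g x := by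
        rw [← integral_sub j1 j2]
        congr 1; funext x; simp only [smul_eq_mul]; ring
      rw [e1, wd hH i hgt.univ]
      have e2 := ibp hU i hv1 hgt
      have e3 : ∫ x, v x * dd i g x = ∫ x, w x * dd i g x := by
        refine integral_congr_ae ?_
        filter_upwards [hv2] with x hx
        by_cases hxΩ : x ∈ U
        · show v x * dd i g x = w x * dd i g x
          rw [hx hxΩ]
        · have : dd i g x = 0 := by
            by_contra h
            exact hxΩ ((hgt.dd i).2.2 (subset_tsupport _ h))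
          show v x * dd i g x = w x * dd i g x
          rw [this, mul_zero, mul_zero]
      rw [e3, e2]; ring
  refine ⟨w, hv1, ?_, ?_, ?_, C, t0, ht0, ?_⟩
  · intro x hx
    rw [hv3 x hx]
    ring
  · filter_upwards [hv2, hgrad 0, hgrad 1] with x h1 h2 h3 hxU
    refine ⟨h1 hxU, ?_⟩
    ext i
    rw [grad_apply]
    fin_cases i
    · have := h2 hxU
      show dd 0 w x = G x 0
      linarith
    · have := h3 hxU
      show dd 1 w x = G x 1
      linarith
  · have ho : ∀ {φ : V → ℝ}, Tst U φ → ∀ x, x ∉ U → φ x = 0 := by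
      intro φ hφ x hx
      by_contra h
      exact hx (hφ.2.2 (subset_tsupport _ h))
    have h1 : ∀ᵐ x : V, x ∉ U → v x = 0 := by
      refine out_zero hH.memu (fun ε hε => ?_) hU.measurableSet
      obtain ⟨φ, hφ, a, -⟩ := hH.approx ε hε
      exact ⟨φ, tst_memLp hφ, ho hφ, a⟩
    have h2 : ∀ i : Fin 2, ∀ᵐ x : V, x ∉ U → G x i = 0 := by
      intro i
      refine out_zero (memLp_coord hH.memG i) (fun ε hε => ?_) hU.measurableSet
      obtain ⟨φ, hφ, -, b⟩ := hH.approx ε hε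
      exact ⟨dd i φ, tst_memLp (hφ.dd i), ho (hφ.dd i), (coord_le hH.memG hφ i).trans_lt b⟩
    filter_upwards [h1, h2 0, h2 1] with x a b c hx
    refine ⟨a hx, ?_⟩
    ext i
    fin_cases i
    · exact b hx
    · exact c hx
  · intro z t h1 h2 h3
    refine (hv4 z t h1 h2 h3).trans (le_of_eq ?_)
    congr 1
    refine setIntegral_congr_ae measurableSet_ball ?_
    filter_upwards [hv2] with y hy hyb
    have : y ∈ U := h3 (ball_subset_closedBall ((ball_subset_ball (by linarith)) hyb))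
    rw [hy this]

end Pool.Agent.H417R2.CH
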