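import Pool.Agent.H417R2.CH.Defs2

/-! Ramps at a bend of a concave function (`S_RMP`). -/

namespace Pool.Agent.H417R2.CH

open Set

namespace RMP

/-- `γ` is a supergradient of `g` at `y`, relative to `(α, β)` -/
def SG (α β : ℝ) (g : ℝ → ℝ) (y γ : ℝ) : Prop := ∀ x ∈ Ioo α β, g x ≤ g y + γ * (x - y)

theorem exists_SG {α β : ℝ} {g : ℝ → ℝ} (hg : ConcaveOn ℝ (Ioo α β) g) {y : ℝ}
    (hy : y ∈ Ioo α β) : ∃ γ, SG α β g y γ := by
  classical
  set S : Set ℝ := (fun z => (g z - g y) / (z - y)) '' (Ioo y β) with hS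
  have hub : ∀ w ∈ Ioo α y, ∀ v ∈ S, v ≤ (g y - g w) / (y - w) := by
    rintro w hw v ⟨z, hz, rfl⟩
    exact hg.slope_anti_adjacent ⟨hw.1, hw.2.trans hy.2⟩ ⟨hy.1.trans hz.1, hz.2⟩ hw.2 hz.1
  have hw0 : (α + y) / 2 ∈ Ioo α y := ⟨by linarith [hy.1], by linarith [hy.1]⟩
  have hbdd : BddAbove S := ⟨_, fun v hv => hub _ hw0 v hv⟩
  have hne : S.Nonempty := ⟨_, ⟨(y + β) / 2, ⟨by linarith [hy.2], by linarith [hy.2]⟩, rfl⟩⟩
  refine ⟨sSup S, ?_⟩
  intro x hx
  rcases lt_trichotomy x y with h | h | h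
  · have h1 : sSup S ≤ (g y - g x) / (y - x) := csSup_le hne (fun v hv => hub x ⟨hx.1, h⟩ v hv)
    rw [le_div_iff₀ (by linarith)] at h1
    linarith
  · subst h; simp
  · have h1 : (g x - g y) / (x - y) ≤ sSup S := le_csSup hbdd ⟨x, ⟨h, hx.2⟩, rfl⟩
    rw [div_le_iff₀ (by linarith)] at h1
    linarith

theorem concaveOn_of_SG {α β : ℝ} {g : ℝ → ℝ} (h : ∀ y ∈ Ioo α β, ∃ γ, SG α β g y γ) :
    ConcaveOn ℝ (Ioo α β) g := by
  refine ⟨convex_Ioo α β, ?_⟩
  intro x hx z hz a b ha hb hab
  have hy := (convex_Ioo α β) hx hz ha hb hab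
  obtain ⟨γ, hγ⟩ := h _ hy
  have h1 := hγ x hx
  have h2 := hγ z hz
  simp only [smul_eq_mul] at *
  have h3 := mul_le_mul_of_nonneg_left h1 ha
  have h4 := mul_le_mul_of_nonneg_left h2 hb
  have h5 : a * (g (a * x + b * z) + γ * (x - (a * x + b * z))) +
      b * (g (a * x + b * z) + γ * (z - (a * x + b * z))) = g (a * x + b * z) := by
    have : b = 1 - a := by linarith
    subst this
    ring
  linarith

theorem convexOn_of_sub {k : ℝ → ℝ} (h : ∀ y, ∃ s, ∀ x, k y + s * (x - y) ≤ k x) :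
    ConvexOn ℝ univ k := by
  refine ⟨convex_univ, ?_⟩
  intro x _ z _ a b ha hb hab
  obtain ⟨γ, hγ⟩ := h (a • x + b • z)
  have h1 := hγ x
  have h2 := hγ z
  simp only [smul_eq_mul] at *
  have h3 := mul_le_mul_of_nonneg_left h1 ha
  have h4 := mul_le_mul_of_nonneg_left h2 hb
  have h5 : a * (k (a * x + b * z) + γ * (x - (a * x + b * z))) +
      b * (k (a * x + b * z) + γ * (z - (a * x + b * z))) = k (a * x + b * z) := by
    have : b = 1 - a := by linarith
    subst this
    ring
  linarith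

theorem SG_anti {α β : ℝ} {g : ℝ → ℝ} {y1 y2 γ1 γ2 : ℝ} (h1 : y1 ∈ Ioo α β) (h2 : y2 ∈ Ioo α β)
    (h : y1 < y2) (e1 : SG α β g y1 γ1) (e2 : SG α β g y2 γ2) : γ2 ≤ γ1 := by
  have a1 := e1 y2 h2
  have a2 := e2 y1 h1
  by_contra hc
  push Not at hc
  nlinarith [mul_pos (sub_pos.2 h) (sub_pos.2 hc)]

/-- two points with different supergradients -/
theorem exists_two {α β : ℝ} {g : ℝ → ℝ} (hg : ConcaveOn ℝ (Ioo α β) g) {q ε : ℝ} (hε : 0 < ε)
    (h1 : α < q - ε) (h2 : q + ε < β) (hb : Bend g q) :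
    ∃ q1 q2 A B : ℝ, q - ε < q1 ∧ q1 < q2 ∧ q2 < q + ε ∧ SG α β g q1 A ∧ SG α β g q2 B ∧ B < A := by
  classical
  by_contra hc
  push Not at hc
  apply hb ε hε
  have hmem : ∀ y ∈ Ioo (q - ε) (q + ε), y ∈ Ioo α β := fun y hy => ⟨h1.trans hy.1, hy.2.trans h2⟩
  have hq : q ∈ Ioo (q - ε) (q + ε) := ⟨by linarith, by linarith⟩
  obtain ⟨γ, hγ⟩ := exists_SG hg (hmem q hq)
  refine ⟨γ, g q - γ * q, ?_⟩
  intro x hx
  obtain ⟨δ, hδ⟩ := exists_SG hg (hmem x hx)
  have a1 := hγ x (hmem x hx)
  have a2 := hδ q (hmem q hq)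
  rcases lt_trichotomy x q with h | h | h
  · have b1 := hc x q δ γ hx.1 h hq.2 hδ hγ
    have b2 := SG_anti (hmem x hx) (hmem q hq) h hδ hγ
    have : δ = γ := le_antisymm b1 b2
    subst this
    linarith
  · subst h; ring
  · have b1 := hc q x γ δ hq.1 h hx.2 hγ hδ
    have b2 := SG_anti (hmem q hq) (hmem x hx) h hγ hδ
    have : δ = γ := le_antisymm b2 b1
    subst this
    linarith

end RMP

open RMP in
theorem t_RMP : S_RMP := by
  classical
  intro α β g hg q ε hε h1 h2 hb
  obtain ⟨q1, q2, A, B, hq1, hq12, hq2, hA, hB, hBA⟩ := exists_two hg hε h1 h2 hb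
  have m1 : q1 ∈ Ioo α β := ⟨by linarith, by linarith⟩
  have m2 : q2 ∈ Ioo α β := ⟨by linarith, by linarith⟩
  set m : ℝ := A - B with hm
  have hm0 : 0 < m := by linarith
  set c : ℝ := (g q2 - B * q2 - g q1 + A * q1) / m with hc
  have hcm : c * m = g q2 - B * q2 - g q1 + A * q1 := by
    rw [hc]; field_simp
  have e12 := hA q2 m2
  have e21 := hB q1 m1
  have hc1 : q1 ≤ c := by
    by_contra h
    push Not at h
    nlinarith [mul_pos (sub_pos.2 h) hm0]
  have hc2 : c ≤ q2 := by
    by_contra h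
    push Not at h
    nlinarith [mul_pos (sub_pos.2 h) hm0]
  -- the ramp times `m`
  set M : ℝ → ℝ := fun x => if x ≤ q1 then 0 else if x ≤ q2 then g q1 + A * (x - q1) - g x
    else m * (x - c) with hM
  have M1 : ∀ x, x ≤ q1 → M x = 0 := fun x hx => by simp [hM, hx]
  have M2 : ∀ x, q1 ≤ x → x ≤ q2 → M x = g q1 + A * (x - q1) - g x := by
    intro x hx hx'
    rcases hx.eq_or_lt with h | h
    · subst h; rw [M1 _ le_rfl]; ring
    · simp only [hM]
      rw [if_neg (by linarith), if_pos hx']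
  have M3 : ∀ x, q2 ≤ x → M x = m * (x - c) := by
    intro x hx
    rcases hx.eq_or_lt with h | h
    · subst h
      rw [M2 _ hq12.le le_rfl]
      linear_combination hcm + (q2) * hm
    · simp only [hM]
      rw [if_neg (by linarith), if_neg (by linarith)]
  -- global upper bound
  have hMle : ∀ x ∈ Ioo α β, g x + M x ≤ g q1 + A * (x - q1) := by
    intro x hx
    rcases le_total x q1 with h | h
    · rw [M1 x h]; have := hA x hx; linarith
    · rcases le_total x q2 with h' | h'
      · rw [M2 x h h']; linarith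
      · rw [M3 x h']
        have := hB x hx
        nlinarith [hcm, hm]
  -- subgradients of `M`
  have key : ∀ y, ∃ s, 0 ≤ s ∧ s ≤ m ∧ ∀ x, M y + s * (x - y) ≤ M x := by
    -- a general bound
    have gen : ∀ y ∈ Icc q1 q2, ∀ γ, B ≤ γ → γ ≤ A → SG α β g y γ → ∀ x,
        g q1 + A * (x - q1) - g y - γ * (x - y) ≤ M x := by
      intro y hy γ hγ1 hγ2 hγ x
      rcases le_total x q1 with h | h
      · rw [M1 x h]
        have b1 := hγ q1 m1
        nlinarith [mul_nonneg (sub_nonneg.2 h) (sub_nonneg.2 hγ2)]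
      · rcases le_total x q2 with h' | h'
        · rw [M2 x h h']
          have b1 := hγ x ⟨by linarith, by linarith⟩
          linarith
        · rw [M3 x h']
          have b1 := hγ q2 m2
          nlinarith [mul_nonneg (sub_nonneg.2 h') (sub_nonneg.2 hγ1)]
    intro y
    rcases lt_or_ge y q1 with h | h
    · refine ⟨0, le_rfl, hm0.le, ?_⟩
      intro x
      rw [M1 y h.le]
      have := gen q1 ⟨le_rfl, hq12.le⟩ A hBA.le le_rfl hA x
      linarith
    · rcases lt_or_ge y q2 with h' | h'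
      · rcases h.eq_or_lt with h3 | h3
        · refine ⟨0, le_rfl, hm0.le, ?_⟩
          intro x
          rw [M1 y h3.ge]
          have := gen q1 ⟨le_rfl, hq12.le⟩ A hBA.le le_rfl hA x
          linarith
        · obtain ⟨γ, hγ⟩ := exists_SG hg (y := y) ⟨by linarith, by linarith⟩
          have c1 := SG_anti m1 (⟨by linarith, by linarith⟩ : y ∈ Ioo α β) h3 hA hγ
          have c2 := SG_anti (⟨by linarith, by linarith⟩ : y ∈ Ioo α β) m2 h' hγ hB
          refine ⟨A - γ, by linarith, by linarith, ?_⟩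
          intro x
          have := gen y ⟨h, h'.le⟩ γ c2 c1 hγ x
          rw [M2 y h h'.le]
          linarith
      · refine ⟨m, hm0.le, le_rfl, ?_⟩
        intro x
        rw [M3 y h']
        have := gen q2 ⟨hq12.le, le_rfl⟩ B le_rfl hBA.le hB x
        nlinarith [hcm, hm]
  refine ⟨fun x => M x / m, c, m, hm0, by linarith, by linarith, ?_, ?_, ?_, ?_, ?_⟩
  · intro x hx
    show M x / m = 0
    rw [M1 x (by linarith)]; simp
  · intro x hx
    show M x / m = x - c
    rw [M3 x (by linarith)]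
    field_simp
  · apply convexOn_of_sub
    intro y
    obtain ⟨s, _, _, hs⟩ := key y
    refine ⟨s / m, fun x => ?_⟩
    have := div_le_div_of_nonneg_right (hs x) hm0.le
    calc M y / m + s / m * (x - y) = (M y + s * (x - y)) / m := by ring
      _ ≤ M x / m := this
  · intro x y hxy
    obtain ⟨s, hs0, _, hs⟩ := key x
    obtain ⟨t, _, ht1, ht⟩ := key y
    have a1 := hs y
    have a2 := ht x
    have a3 : 0 ≤ M y - M x := by nlinarith [mul_nonneg hs0 (sub_nonneg.2 hxy)]
    have a4 : M y - M x ≤ m * (y - x) := by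
      nlinarith [mul_nonneg (sub_nonneg.2 ht1) (sub_nonneg.2 hxy)]
    constructor
    · have : M y / m - M x / m = (M y - M x) / m := by ring
      show 0 ≤ M y / m - M x / m
      rw [this]
      exact div_nonneg a3 hm0.le
    · have : M y / m - M x / m = (M y - M x) / m := by ring
      show M y / m - M x / m ≤ y - x
      rw [this, div_le_iff₀ hm0]
      linarith
  · -- concavity
    have hP : ConcaveOn ℝ (Ioo α β) (fun x => g x + M x) := by
      apply concaveOn_of_SG
      intro y hy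
      rcases lt_or_ge y q1 with h | h
      · obtain ⟨γ, hγ⟩ := exists_SG hg hy
        have c1 := SG_anti hy m1 h hγ hA
        refine ⟨γ, ?_⟩
        intro x hx
        show g x + M x ≤ g y + M y + γ * (x - y)
        rw [M1 y h.le]
        rcases le_total x q1 with h' | h'
        · rw [M1 x h']
          have := hγ x hx
          linarith
        · have b1 := hMle x hx
          have b2 := hγ q1 m1
          nlinarith [mul_nonneg (sub_nonneg.2 h') (sub_nonneg.2 c1)]
      · rcases le_or_gt y q2 with h' | h'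
        · refine ⟨A, ?_⟩
          intro x hx
          show g x + M x ≤ g y + M y + A * (x - y)
          rw [M2 y h h']
          have b1 := hMle x hx
          linarith
        · obtain ⟨γ, hγ⟩ := exists_SG hg hy
          have c1 := SG_anti m2 hy h' hB hγ
          refine ⟨γ + m, ?_⟩
          intro x hx
          show g x + M x ≤ g y + M y + (γ + m) * (x - y)
          rw [M3 y h'.le]
          rcases le_total x q2 with h'' | h''
          · have b1 := hMle x hx
            have b2 := hγ q2 m2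
            nlinarith [mul_nonneg (sub_nonneg.2 h'') (sub_nonneg.2 c1), hcm, hm]
          · rw [M3 x h'']
            have b1 := hγ x hx
            linarith
    intro m' hm'0 hm'1
    have hr0 : 0 ≤ m' / m := div_nonneg hm'0 hm0.le
    have hr1 : m' / m ≤ 1 := by rw [div_le_one hm0]; exact hm'1
    have h3 := (hg.smul (sub_nonneg.2 hr1)).add (hP.smul hr0)
    refine h3.congr ?_
    intro x _
    simp only [Pi.add_apply, Pi.smul_apply, smul_eq_mul]
    ring

end Pool.Agent.H417R2.CH
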