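import Pool.Agent.H417R2.CH.Defs2

/-!
Project CH (helper417), task ROT: average over the directions.
-/

set_option autoImplicit false
open MeasureTheory Metric Set Filter Topology
open scoped ContDiff InnerProductSpace ENNReal NNReal

namespace Pool.Agent.H417R2.CH

open Pool.Agent.Helper546 (Tst lap)

namespace ROT

theorem int_abs_cos : ∫ θ in (0 : ℝ)..(2 * Real.pi), |Real.cos θ| = 4 := by
  have hper : Function.Periodic (fun θ : ℝ => |Real.cos θ|) Real.pi := by
    intro θ
    simp [Real.cos_add_pi]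
  have hper2 : Function.Periodic (fun θ : ℝ => |Real.cos θ|) (2 * Real.pi) := by
    intro θ
    simp [Real.cos_add_two_pi]
  have hii : ∀ a b : ℝ, IntervalIntegrable (fun θ : ℝ => |Real.cos θ|) volume a b :=
    fun a b => (Real.continuous_cos.abs).intervalIntegrable a b
  have h2 : ∫ θ in (-(Real.pi / 2))..(Real.pi / 2), |Real.cos θ| = 2 := by
    have : ∫ θ in (-(Real.pi / 2))..(Real.pi / 2), |Real.cos θ| =
        ∫ θ in (-(Real.pi / 2))..(Real.pi / 2), Real.cos θ := by
      refine intervalIntegral.integral_congr fun θ hθ => ?_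
      have hp := Real.pi_pos
      rw [uIcc_of_le (by linarith)] at hθ
      exact abs_of_nonneg (Real.cos_nonneg_of_mem_Icc hθ)
    rw [this, integral_cos, Real.sin_neg, Real.sin_pi_div_two]
    norm_num
  have h3 := hper.intervalIntegral_add_eq (-(Real.pi / 2)) 0
  have h4 := hper.intervalIntegral_add_eq 0 Real.pi
  rw [← intervalIntegral.integral_add_adjacent_intervals (hii 0 Real.pi)
    (hii Real.pi (2 * Real.pi))]
  have h5 : ∫ θ in Real.pi..(2 * Real.pi), |Real.cos θ| =
      ∫ θ in (0 : ℝ)..Real.pi, |Real.cos θ| := by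
    have := h4
    rw [zero_add, show Real.pi + Real.pi = 2 * Real.pi by ring] at this
    exact this.symm
  have h6 : ∫ θ in (0 : ℝ)..Real.pi, |Real.cos θ| = 2 := by
    rw [zero_add, show -(Real.pi / 2) + Real.pi = Real.pi / 2 by ring] at h3
    rw [← h3, h2]
  rw [h5, h6]
  norm_num

theorem polar (g : V) : ∃ φ : ℝ, ∀ θ : ℝ, ⟪g, ev θ⟫_ℝ = ‖g‖ * Real.cos (θ - φ) := by
  set z : ℂ := ⟨g 0, g 1⟩ with hz
  have hn : ‖g‖ = ‖z‖ := by
    rw [EuclideanSpace.norm_eq, Complex.norm_def, Complex.normSq_apply]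
    simp only [Fin.sum_univ_two, Real.norm_eq_abs, sq_abs, hz]
    ring_nf
  refine ⟨Complex.arg z, fun θ => ?_⟩
  have h1 : ⟪g, ev θ⟫_ℝ = g 0 * Real.cos θ + g 1 * Real.sin θ := by
    rw [PiLp.inner_apply]
    simp [Fin.sum_univ_two, ev, pt]
    ring
  have h2 : ‖z‖ * Real.cos (Complex.arg z) = g 0 := Complex.norm_mul_cos_arg z
  have h3 : ‖z‖ * Real.sin (Complex.arg z) = g 1 := Complex.norm_mul_sin_arg z
  rw [h1, hn, Real.cos_sub, ← h2, ← h3]
  ring

theorem int_dir (L : V →L[ℝ] ℝ) :
    ∫⁻ θ in Ioc (0 : ℝ) (2 * Real.pi), ENNReal.ofReal |L (ev (θ + Real.pi / 2))| =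
      4 * ENNReal.ofReal ‖L‖ := by
  set g : V := (InnerProductSpace.toDual ℝ V).symm L with hg
  have hL : ∀ v, L v = ⟪g, v⟫_ℝ := fun v => by
    rw [hg, InnerProductSpace.toDual_symm_apply]
  have hn : ‖L‖ = ‖g‖ := by
    rw [hg, LinearIsometryEquiv.norm_map]
  obtain ⟨φ, hφ⟩ := polar g
  have h1 : ∀ θ : ℝ, |L (ev (θ + Real.pi / 2))| = ‖g‖ * |Real.cos (θ + (Real.pi / 2 - φ))| := by
    intro θ
    rw [hL, hφ, abs_mul, abs_of_nonneg (norm_nonneg g)]
    congr 3
    ring
  simp_rw [h1]
  have hcont : Continuous fun θ : ℝ => ‖g‖ * |Real.cos (θ + (Real.pi / 2 - φ))| := by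
    fun_prop
  rw [← ofReal_integral_eq_lintegral_ofReal]
  · rw [← intervalIntegral.integral_of_le (by positivity), intervalIntegral.integral_const_mul,
      intervalIntegral.integral_comp_add_right (fun θ => |Real.cos θ|)]
    have hper2 : Function.Periodic (fun θ : ℝ => |Real.cos θ|) (2 * Real.pi) := by
      intro θ
      simp [Real.cos_add_two_pi]
    have h5 := hper2.intervalIntegral_add_eq (0 + (Real.pi / 2 - φ)) 0
    rw [show 2 * Real.pi + (Real.pi / 2 - φ) = 0 + (Real.pi / 2 - φ) + 2 * Real.pi by ring, h5,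
      zero_add, int_abs_cos, ← hn, mul_comm, ENNReal.ofReal_mul (by norm_num)]
    norm_num
  · exact (hcont.integrableOn_Icc (a := 0) (b := 2 * Real.pi)).mono_set Ioc_subset_Icc_self
  · exact Eventually.of_forall fun θ => by positivity

theorem cont_ev : Continuous ev := by
  unfold ev pt
  refine (PiLp.continuous_toLp 2 _).comp ?_
  refine continuous_pi fun i => ?_
  fin_cases i
  · exact Real.continuous_cos
  · exact Real.continuous_sin

end ROT

theorem t_ROT : S_ROT := by
  intro u hu
  have hsm : ContDiff ℝ ∞ u := hu.1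
  have hfd : Continuous (fderiv ℝ u) := hsm.continuous_fderiv (by simp)
  rw [lintegral_lintegral_swap]
  · simp_rw [ROT.int_dir]
    rw [lintegral_const_mul]
    exact hfd.norm.measurable.ennreal_ofReal
  · refine Measurable.aemeasurable ?_
    refine ENNReal.measurable_ofReal.comp (Continuous.measurable ?_)
    refine Continuous.abs ?_
    have h1 : Continuous fun p : ℝ × V => fderiv ℝ u p.2 := hfd.comp continuous_snd
    have h2 : Continuous fun p : ℝ × V => ev (p.1 + Real.pi / 2) :=
      ROT.cont_ev.comp (continuous_fst.add continuous_const)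
    exact h1.clm_apply h2

end Pool.Agent.H417R2.CH
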