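import Pool.Agent.H417R2.CH.Defs2

/-!
Project CH, task SHR: shrinking the radius.
-/

set_option autoImplicit false
open MeasureTheory Metric Set Filter Topology
open scoped ContDiff InnerProductSpace ENNReal NNReal

namespace Pool.Agent.H417R2.CH

namespace SHR

theorem inn_subset {U : Set V} {ρ : ℝ} (hρ : 0 < ρ) : Inn U ρ ⊆ U :=
  fun x hx => hx (mem_ball_self hρ)

theorem isClosed_inn (U : Set V) (ρ : ℝ) : IsClosed (Inn U ρ) := by
  rw [← isSeqClosed_iff_isClosed]
  intro s x hs hx y hy
  rw [mem_ball] at hy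
  have h1 : Tendsto (fun n => dist y (s n)) atTop (𝓝 (dist y x)) :=
    (tendsto_const_nhds).dist hx
  obtain ⟨n, hn⟩ := (h1.eventually (gt_mem_nhds hy)).exists
  exact hs n (mem_ball.2 hn)

theorem convex_inn {U : Set V} (hU : Convex ℝ U) (ρ : ℝ) : Convex ℝ (Inn U ρ) := by
  intro x hx y hy a b ha hb hab z hz
  have h1 : x + (z - (a • x + b • y)) ∈ U := by
    apply hx
    rw [mem_ball, dist_eq_norm] at hz ⊢
    simpa using hz
  have h2 : y + (z - (a • x + b • y)) ∈ U := by
    apply hy
    rw [mem_ball, dist_eq_norm] at hz ⊢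
    simpa using hz
  have h3 := hU h1 h2 ha hb hab
  have h4 : a • (x + (z - (a • x + b • y))) + b • (y + (z - (a • x + b • y))) = z := by
    have : a • (x + (z - (a • x + b • y))) + b • (y + (z - (a • x + b • y))) =
        (a + b) • z + (1 - (a + b)) • (a • x + b • y) := by
      module
    rw [this, hab]
    simp
  rw [h4] at h3
  exact h3

theorem inn_inn_subset {U : Set V} {r δ : ℝ} (hδ : 0 < δ) (hr : δ < r) :
    Inn (Inn U (r - δ)) δ ⊆ Inn U r := by
  intro x hx z hz
  have hr0 : 0 < r := hδ.trans hr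
  rw [mem_ball, dist_eq_norm] at hz
  set y := x + (δ / r) • (z - x) with hy
  have hyx : y ∈ ball x δ := by
    rw [mem_ball, dist_eq_norm]
    have : y - x = (δ / r) • (z - x) := by rw [hy]; abel
    rw [this, norm_smul, Real.norm_of_nonneg (by positivity)]
    calc δ / r * ‖z - x‖ < δ / r * r := by
          apply mul_lt_mul_of_pos_left hz (by positivity)
      _ = δ := by field_simp
  have hyU := hx hyx
  apply hyU
  rw [mem_ball, dist_eq_norm]
  have : z - y = (1 - δ / r) • (z - x) := by rw [hy]; module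
  have h1 : δ / r < 1 := by rw [div_lt_one hr0]; exact hr
  rw [this, norm_smul, Real.norm_of_nonneg (by linarith)]
  calc (1 - δ / r) * ‖z - x‖ < (1 - δ / r) * r := by
        apply mul_lt_mul_of_pos_left hz (by linarith)
    _ = r - δ := by field_simp

theorem W_closedBall (h2 : S_WB) {M : ℝ} (hM : 0 ≤ M) : W (closedBall (0 : V) M) = 2 * Real.pi * M := by
  have h3 := h2.2.2.1 {(0 : V)} isCompact_singleton (singleton_nonempty _) M hM
  rw [cthickening_singleton _ hM] at h3
  rw [h3]
  have : W ({(0 : V)} : Set V) = 0 := by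
    unfold W hs
    simp
  rw [this, zero_add]

end SHR

open SHR in
theorem t_SHR (h1 : S_GII) (h2 : S_WB) : S_SHR := by
  intro M r hM hr
  have hpi := Real.pi_pos
  set c : ℝ := 1 / (2 * Real.pi * (M + r)) with hc
  have hcpos : 0 < c := by positivity
  refine ⟨c, r / (2 * c), hcpos, by positivity, ?_, ?_⟩
  · have : c * (r / (2 * c)) = r / 2 := by field_simp
    rw [this]; linarith
  intro U' hU' hUM q hq hq0 har
  have hcq : c * q ≤ r / 2 := by
    calc c * q ≤ c * (r / (2 * c)) := by
          apply mul_le_mul_of_nonneg_left hq0 hcpos.le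
      _ = r / 2 := by field_simp
  have hδ : 0 < c * q := by positivity
  have hρ : 0 < r - c * q := by linarith
  set K := Inn U' (r - c * q) with hK
  have hKb : Bornology.IsBounded K := hU'.bdd.subset (inn_subset hρ)
  have hKc : IsCompact K := isCompact_of_isClosed_isBounded (isClosed_inn _ _) hKb
  rcases K.eq_empty_or_nonempty with he | hne
  · rw [he]
    unfold ar
    simp only [measure_empty, ENNReal.toReal_zero]
    positivity
  have g1 := h1 K hKc (convex_inn hU'.convex _) hne (c * q) hδ
  have g2 : ar (Inn K (c * q)) ≤ ar (Inn U' r) := by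
    unfold ar
    apply ENNReal.toReal_mono
    · exact (hU'.bdd.subset (inn_subset hr)).measure_lt_top.ne
    · exact measure_mono (inn_inn_subset hδ (by linarith))
  have g3 : W K ≤ 2 * Real.pi * M := by
    rw [← W_closedBall h2 hM.le]
    exact h2.2.1 K _ hKc (isCompact_closedBall _ _) hne
      ((inn_subset hρ).trans (hUM.trans ball_subset_closedBall))
  have g4 : c * q * W K ≤ c * q * (2 * Real.pi * M) := mul_le_mul_of_nonneg_left g3 hδ.le
  have g5 : 2 * Real.pi * (M + r) * c = 1 := by
    rw [hc]; field_simp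
  have g6 : 0 ≤ Real.pi * (c * q) ^ 2 := by positivity
  have g7 : Real.pi * (r - c * q) ^ 2 = Real.pi * r ^ 2 - q + c * q * (2 * Real.pi * M) +
      Real.pi * (c * q) ^ 2 := by
    have : q = 2 * Real.pi * (M + r) * c * q := by rw [g5, one_mul]
    calc Real.pi * (r - c * q) ^ 2 = Real.pi * r ^ 2 - 2 * Real.pi * (M + r) * c * q +
          c * q * (2 * Real.pi * M) + Real.pi * (c * q) ^ 2 := by ring
      _ = _ := by rw [← this]
  rw [g7]
  linarith

end Pool.Agent.H417R2.CH
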