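import Pool.Agent.H417R2.CH.Defs2

set_option autoImplicit false
open MeasureTheory Metric Set Filter Topology
open scoped ContDiff InnerProductSpace ENNReal NNReal

namespace Pool.Agent.H417R2.CH

open Pool.Agent.Helper546 (Tst lap)

namespace SLC

theorem inner_pt (x : V) (a b : ℝ) : ⟪x, pt a b⟫_ℝ = x 0 * a + x 1 * b := by
  simp [pt, PiLp.inner_apply, Fin.sum_univ_two]
  ring

theorem inner_ev (x : V) (θ : ℝ) : ⟪x, ev θ⟫_ℝ = x 0 * Real.cos θ + x 1 * Real.sin θ :=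
  inner_pt _ _ _

/-- the direction orthogonal to `ev θ` -/
noncomputable def fv (θ : ℝ) : V := ev (θ + Real.pi / 2)

theorem fv_eq (θ : ℝ) : fv θ = pt (-Real.sin θ) (Real.cos θ) := by
  rw [fv, ev, Real.cos_add_pi_div_two, Real.sin_add_pi_div_two]

theorem inner_fv (x : V) (θ : ℝ) : ⟪x, fv θ⟫_ℝ = -(x 0 * Real.sin θ) + x 1 * Real.cos θ := by
  rw [fv_eq, inner_pt]
  ring

theorem orth (θ : ℝ) : Orthonormal ℝ ![ev θ, fv θ] := by
  have h0 := Real.sin_sq_add_cos_sq θ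
  rw [orthonormal_iff_ite]
  intro i j
  fin_cases i <;> fin_cases j
  · simp only [Fin.zero_eta, Matrix.cons_val_zero]
    rw [inner_ev]
    simp [ev, pt]
    nlinarith
  · simp [inner_fv, ev, pt]
    ring
  · simp [inner_ev, fv_eq, pt]
    ring
  · simp only [Fin.mk_one, Matrix.cons_val_one, Matrix.cons_val_fin_one]
    rw [inner_fv]
    simp [fv_eq, pt]
    nlinarith

theorem mp0 (θ : ℝ) : MeasurePreserving (fun x : V => ((⟪x, ev θ⟫_ℝ, ⟪x, fv θ⟫_ℝ) : ℝ × ℝ))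
    volume volume := by
  obtain ⟨b, hb⟩ := Orthonormal.exists_orthonormalBasis_extension_of_card_eq
    (𝕜 := ℝ) (E := V) (ι := Fin 2) (by simp) (v := ![ev θ, fv θ]) (s := Set.univ)
    ((orth θ).comp _ Subtype.val_injective)
  have h1 := b.measurePreserving_repr
  have h2 := (PiLp.volume_preserving_ofLp (Fin 2)).comp h1
  have h3 := (volume_preserving_finTwoArrow ℝ).comp h2
  convert h3 using 1
  funext x
  have e0 : b 0 = ev θ := hb 0 (Set.mem_univ _)
  have e1 : b 1 = fv θ := hb 1 (Set.mem_univ _)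
  simp only [Function.comp_apply, MeasurableEquiv.finTwoArrow_apply]
  rw [Prod.mk.injEq]
  refine ⟨?_, ?_⟩
  · rw [b.repr_apply_apply, e0, real_inner_comm]
  · rw [b.repr_apply_apply, e1, real_inner_comm]

/-- the line with offset `s` -/
noncomputable def L (θ s τ : ℝ) : V := s • ev θ + τ • fv θ

theorem ee (θ : ℝ) : ⟪ev θ, ev θ⟫_ℝ = 1 := by
  have := (orthonormal_iff_ite.1 (orth θ)) 0 0
  simpa using this
theorem ef (θ : ℝ) : ⟪ev θ, fv θ⟫_ℝ = 0 := by
  have := (orthonormal_iff_ite.1 (orth θ)) 0 1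
  simpa using this
theorem fe (θ : ℝ) : ⟪fv θ, ev θ⟫_ℝ = 0 := by
  have := (orthonormal_iff_ite.1 (orth θ)) 1 0
  simpa using this
theorem ff (θ : ℝ) : ⟪fv θ, fv θ⟫_ℝ = 1 := by
  have := (orthonormal_iff_ite.1 (orth θ)) 1 1
  simpa using this

theorem norm_fv (θ : ℝ) : ‖fv θ‖ = 1 := by
  have h := ff θ
  rw [real_inner_self_eq_norm_sq] at h
  have h0 := norm_nonneg (fv θ)
  nlinarith

theorem inner_L1 (θ s τ : ℝ) : ⟪L θ s τ, fv θ⟫_ℝ = τ := by
  rw [L, inner_add_left, inner_smul_left, inner_smul_left, ef, ff]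
  simp

theorem L_inner (θ : ℝ) (x : V) : L θ ⟪x, ev θ⟫_ℝ ⟪x, fv θ⟫_ℝ = x := by
  have h0 := Real.sin_sq_add_cos_sq θ
  rw [L, inner_ev, inner_fv, fv_eq]
  ext i
  fin_cases i
  · simp [ev, pt]
    linear_combination (x 0) * h0
  · simp [ev, pt]
    linear_combination (x 1) * h0

theorem L_cont (θ s : ℝ) : Continuous (L θ s) := by
  unfold L; fun_prop

theorem L_cont2 (θ : ℝ) : Continuous (fun p : ℝ × ℝ => L θ p.1 p.2) := by
  unfold L; fun_prop

theorem L_deriv (θ s τ : ℝ) : HasDerivAt (L θ s) (fv θ) τ := by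
  have h1 : HasDerivAt (fun τ : ℝ => s • ev θ + τ • fv θ) ((1 : ℝ) • fv θ) τ :=
    ((hasDerivAt_id τ).smul_const (fv θ)).const_add (s • ev θ)
  rw [one_smul] at h1
  exact h1

theorem line_compact {u : V → ℝ} (hu : HasCompactSupport u) (θ s : ℝ) :
    HasCompactSupport (fun τ => u (L θ s τ)) := by
  obtain ⟨R, hR⟩ := hu.isCompact.isBounded.subset_closedBall (0 : V)
  refine HasCompactSupport.intro (isCompact_Icc (a := -R) (b := R)) (fun τ hτ => ?_)
  by_contra hne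
  have h1 : L θ s τ ∈ closedBall (0 : V) R := hR (subset_tsupport _ hne)
  rw [mem_closedBall_zero_iff] at h1
  have h2 : |τ| ≤ ‖L θ s τ‖ := by
    have := abs_real_inner_le_norm (L θ s τ) (fv θ)
    rw [inner_L1, norm_fv, mul_one] at this
    exact this
  exact hτ (abs_le.1 (h2.trans h1))

theorem count {u : V → ℝ} {θ s t : ℝ} {N : ℝ≥0∞}
    (hN : ∀ F : Finset ℝ, (∀ x ∈ F, t < u (L θ s x)) →
      (∀ x ∈ F, ∀ y ∈ F, x < y → ∃ z ∈ Ioo x y, u (L θ s z) ≤ t) → 2 * (F.card : ℝ≥0∞) ≤ N) :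
    2 * ∑' j : ℕ, (AA u j).indicator (fun _ => (1 : ℝ≥0∞)) (θ, s, t) ≤ N := by
  classical
  rw [ENNReal.tsum_eq_iSup_sum, ENNReal.mul_iSup]
  refine iSup_le fun F => ?_
  set G := F.filter (fun j => (θ, s, t) ∈ AA u j) with hG
  have hsum : ∑ j ∈ F, (AA u j).indicator (fun _ => (1 : ℝ≥0∞)) (θ, s, t) = (G.card : ℝ≥0∞) := by
    rw [hG, Finset.card_filter, Nat.cast_sum]
    refine Finset.sum_congr rfl fun j _ => ?_
    by_cases hj : (θ, s, t) ∈ AA u j
    · simp [hj]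
    · simp [hj]
  rw [hsum]
  have hfs : ∀ j ∈ G, fsp u t j := fun j hj => ((Finset.mem_filter.1 hj).2).1
  have hch : ∀ j ∈ G, ∃ x ∈ cmp u t j, ⟪x, ev θ⟫_ℝ = s := fun j hj =>
    ((Finset.mem_filter.1 hj).2).2
  choose! x hx hxs using hch
  set τ : ℕ → ℝ := fun j => ⟪x j, fv θ⟫_ℝ with hτ
  have hL : ∀ j ∈ G, L θ s (τ j) = x j := by
    intro j hj
    rw [← hxs j hj]
    exact L_inner θ (x j)
  have hdis : ∀ i ∈ G, ∀ j ∈ G, i < j → cmp u t i ≠ cmp u t j := by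
    intro i hi j hj hij he
    have h1 : Qd i ∈ cmp u t i := mem_connectedComponentIn (hfs i hi).1
    rw [he] at h1
    exact (hfs j hj).2 i hij h1
  have heq : ∀ i ∈ G, ∀ j ∈ G, cmp u t i = cmp u t j → i = j := by
    intro i hi j hj he
    rcases lt_trichotomy i j with h | h | h
    · exact absurd he (hdis i hi j hj h)
    · exact h
    · exact absurd he.symm (hdis j hj i hi h)
  have hcx : ∀ j ∈ G, cmp u t j = connectedComponentIn {y | t < u y} (x j) := fun j hj =>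
    connectedComponentIn_eq (hx j hj)
  have hinj : Set.InjOn τ (G : Set ℕ) := by
    intro i hi j hj hij
    apply heq i hi j hj
    rw [hcx i hi, hcx j hj, ← hL i hi, ← hL j hj, hij]
  have hval : ∀ j ∈ G, t < u (L θ s (τ j)) := by
    intro j hj
    rw [hL j hj]
    have h9 : x j ∈ {y | t < u y} := connectedComponentIn_subset _ _ (hx j hj)
    exact h9
  have := hN (G.image τ) ?_ ?_
  · rwa [Finset.card_image_of_injOn hinj] at this
  · intro y hy
    obtain ⟨j, hj, rfl⟩ := Finset.mem_image.1 hy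
    exact hval j hj
  · intro a ha b hb hab
    obtain ⟨i, hi, rfl⟩ := Finset.mem_image.1 ha
    obtain ⟨j, hj, rfl⟩ := Finset.mem_image.1 hb
    by_contra hcon
    push Not at hcon
    have hsub : L θ s '' Icc (τ i) (τ j) ⊆ {y | t < u y} := by
      rintro _ ⟨z, hz, rfl⟩
      rcases hz.1.lt_or_eq with h1 | h1
      · rcases hz.2.lt_or_eq with h2 | h2
        · exact hcon z ⟨h1, h2⟩
        · rw [h2]; exact hval j hj
      · rw [← h1]; exact hval i hi
    have hpre : IsPreconnected (L θ s '' Icc (τ i) (τ j)) :=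
      isPreconnected_Icc.image _ (L_cont θ s).continuousOn
    have h1 : x i ∈ L θ s '' Icc (τ i) (τ j) := ⟨τ i, ⟨le_refl _, hab.le⟩, hL i hi⟩
    have h2 : x j ∈ L θ s '' Icc (τ i) (τ j) := ⟨τ j, ⟨hab.le, le_refl _⟩, hL j hj⟩
    have h3 := hpre.subset_connectedComponentIn h1 hsub h2
    have h4 := connectedComponentIn_eq h3
    rw [← hcx i hi, ← hcx j hj] at h4
    have h5 := heq i hi j hj h4
    rw [h5] at hab
    exact lt_irrefl _ hab

end SLC

theorem t_SLC (h : S_LINE) : S_SLC := by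
  intro u hu h0 θ
  have hu1 : ContDiff ℝ 1 u := hu.1.of_le (by exact_mod_cast le_top)
  have hdiff : Differentiable ℝ u := hu1.differentiable (by norm_num)
  have hcd : Continuous (fderiv ℝ u) := hu1.continuous_fderiv (by norm_num)
  have hG : Continuous (fun x : V => fderiv ℝ u x (SLC.fv θ)) := hcd.clm_apply continuous_const
  have key : ∀ s : ℝ, 2 * ∫⁻ t in Ioi (0 : ℝ), ∑' j : ℕ,
      (AA u j).indicator (fun _ => (1 : ℝ≥0∞)) (θ, s, t) ≤
      ∫⁻ τ : ℝ, ENNReal.ofReal |fderiv ℝ u (SLC.L θ s τ) (SLC.fv θ)| := by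
    intro s
    have hd : ∀ τ, HasDerivAt (fun τ => u (SLC.L θ s τ))
        (fderiv ℝ u (SLC.L θ s τ) (SLC.fv θ)) τ := fun τ =>
      (hdiff (SLC.L θ s τ)).hasFDerivAt.comp_hasDerivAt τ (SLC.L_deriv θ s τ)
    have hLc : ContDiff ℝ 1 (SLC.L θ s) := by
      unfold SLC.L; fun_prop
    obtain ⟨N, hNm, hN1, hN2⟩ := h (fun τ => u (SLC.L θ s τ)) (hu1.comp hLc)
      (SLC.line_compact hu.2.1 θ s)
    calc 2 * ∫⁻ t in Ioi (0 : ℝ), ∑' j : ℕ,
          (AA u j).indicator (fun _ => (1 : ℝ≥0∞)) (θ, s, t)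
        = ∫⁻ t in Ioi (0 : ℝ), 2 * ∑' j : ℕ,
          (AA u j).indicator (fun _ => (1 : ℝ≥0∞)) (θ, s, t) :=
          (lintegral_const_mul' _ _ (by simp)).symm
      _ ≤ ∫⁻ t in Ioi (0 : ℝ), N t := by
          refine lintegral_mono_ae ((ae_restrict_iff' measurableSet_Ioi).2 ?_)
          filter_upwards [hN2] with t ht h0t
          exact SLC.count (ht h0t)
      _ ≤ ∫⁻ t, N t := setLIntegral_le_lintegral _ _
      _ ≤ ∫⁻ x, ENNReal.ofReal |deriv (fun τ => u (SLC.L θ s τ)) x| := hN1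
      _ = _ := by
          refine lintegral_congr fun τ => ?_
          rw [(hd τ).deriv]
  have hmeas : Measurable (fun x : V => ENNReal.ofReal |fderiv ℝ u x (SLC.fv θ)|) :=
    (ENNReal.continuous_ofReal.comp hG.abs).measurable
  have hmeas2 : Measurable (fun p : ℝ × ℝ =>
      ENNReal.ofReal |fderiv ℝ u (SLC.L θ p.1 p.2) (SLC.fv θ)|) :=
    hmeas.comp (SLC.L_cont2 θ).measurable
  calc 2 * ∫⁻ s : ℝ, ∫⁻ t in Ioi (0 : ℝ), ∑' j : ℕ,
        (AA u j).indicator (fun _ => (1 : ℝ≥0∞)) (θ, s, t)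
      = ∫⁻ s : ℝ, 2 * ∫⁻ t in Ioi (0 : ℝ), ∑' j : ℕ,
        (AA u j).indicator (fun _ => (1 : ℝ≥0∞)) (θ, s, t) :=
        (lintegral_const_mul' _ _ (by simp)).symm
    _ ≤ ∫⁻ s : ℝ, ∫⁻ τ : ℝ, ENNReal.ofReal |fderiv ℝ u (SLC.L θ s τ) (SLC.fv θ)| :=
        lintegral_mono key
    _ = ∫⁻ p : ℝ × ℝ, ENNReal.ofReal |fderiv ℝ u (SLC.L θ p.1 p.2) (SLC.fv θ)| := by
        rw [Measure.volume_eq_prod, lintegral_prod _ hmeas2.aemeasurable]
    _ = ∫⁻ x : V, ENNReal.ofReal |fderiv ℝ u (SLC.L θ ⟪x, ev θ⟫_ℝ ⟪x, SLC.fv θ⟫_ℝ) (SLC.fv θ)| :=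
        ((SLC.mp0 θ).lintegral_comp hmeas2).symm
    _ = _ := by
        refine lintegral_congr fun x => ?_
        rw [SLC.L_inner]
        rfl

end Pool.Agent.H417R2.CH
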