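import Pool.Agent.H417R2.CH.Defs2
import Pool.Agent.Helper546.Weyl

/-! Task SMP: the strong maximum principle. -/

set_option autoImplicit false
open MeasureTheory Metric Set Filter Topology
open scoped ContDiff InnerProductSpace ENNReal NNReal

namespace Pool.Agent.H417R2.CH

open Pool.Agent.Helper546 (Tst lap)

namespace SMP

open Pool.Agent.Helper546

theorem smooth_mul {U : Set V} (hU : IsOpen U) {w : V → ℝ} (hw : ContDiffOn ℝ ∞ w U) {z : V}
    (χ : ContDiffBump z) (hs : closedBall z χ.rOut ⊆ U) :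
    ContDiff ℝ ∞ (fun x => χ x * w x) := by
  rw [contDiff_iff_contDiffAt]
  intro x
  by_cases hx : x ∈ tsupport χ
  · have hxU : x ∈ U := by
      rw [χ.tsupport_eq] at hx
      exact hs hx
    exact (χ.contDiff.contDiffAt).mul (hw.contDiffAt (hU.mem_nhds hxU))
  · have h1 : (χ : V → ℝ) =ᶠ[𝓝 x] 0 := notMem_tsupport_iff_eventuallyEq.1 hx
    have h2 : (fun x => χ x * w x) =ᶠ[𝓝 x] fun _ => 0 := by
      filter_upwards [h1] with y hy
      rw [hy]
      simp
    exact contDiffAt_const.congr_of_eventuallyEq h2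

theorem lap_congr {f g : V → ℝ} {z : V} (h : f =ᶠ[𝓝 z] g) : lap f z = lap g z := by
  have hd : ∀ i : Fin 2, ∀ {f g : V → ℝ}, f =ᶠ[𝓝 z] g → dd i f =ᶠ[𝓝 z] dd i g := by
    intro i f g hfg
    filter_upwards [hfg.fderiv (𝕜 := ℝ)] with y hy
    rw [dd, dd, hy]
  rw [lap, lap, (hd 0 (hd 0 h)).self_of_nhds, (hd 1 (hd 1 h)).self_of_nhds]

theorem rad_e0_pos {x : V} (hx : ‖x‖ < 1) : 0 < rad e0 x := by
  refine Real.smoothTransition.pos_of_pos ?_
  have := norm_nonneg x
  nlinarith

theorem local_zero {U : Set V} (hU : IsOpen U) {w : V → ℝ} {Λ : ℝ} (hΛ : 0 ≤ Λ)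
    (hw : ContDiffOn ℝ ∞ w U) (hpde : ∀ x ∈ U, lap w x = -(Λ * w x)) (hpos : ∀ x ∈ U, 0 ≤ w x)
    {z : V} (hz : z ∈ U) (h0 : w z = 0) : ∀ᶠ y in 𝓝 z, w y = 0 := by
  obtain ⟨r, hr, hrU⟩ := Metric.isOpen_iff.1 hU z hz
  obtain ⟨d, hd0, hdr, hdΛ⟩ : ∃ d : ℝ, 0 < d ∧ 2 * d < r ∧ Λ * d ^ 2 ≤ 1 := by
    refine ⟨min (r / 3) (1 / (Λ + 1)), by positivity, ?_, ?_⟩
    · have := min_le_left (r / 3) (1 / (Λ + 1))
      linarith
    · have h1 := min_le_right (r / 3) (1 / (Λ + 1))
      have h2 : 0 ≤ min (r / 3) (1 / (Λ + 1)) := by positivity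
      have h3 : (1 / (Λ + 1)) ^ 2 * Λ ≤ 1 := by
        rw [div_pow, one_pow, div_mul_eq_mul_div, one_mul, div_le_one (by positivity)]
        nlinarith
      calc Λ * min (r / 3) (1 / (Λ + 1)) ^ 2 ≤ Λ * (1 / (Λ + 1)) ^ 2 := by gcongr
        _ ≤ 1 := by linarith
  have hcU : closedBall z (2 * d) ⊆ U := (closedBall_subset_ball hdr).trans hrU
  let χ : ContDiffBump z := ⟨d, 2 * d, hd0, by linarith⟩
  have hχ : closedBall z χ.rOut ⊆ U := hcU
  have hsm := smooth_mul hU hw χ hχ
  have heq : ∀ y ∈ ball z d, (fun x => χ x * w x) y = w y := by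
    intro y hy
    have : χ y = 1 := χ.one_of_mem_closedBall (ball_subset_closedBall hy)
    simp only [this, one_mul]
  have hev : ∀ y ∈ ball z d, (fun x => χ x * w x) =ᶠ[𝓝 y] w := fun y hy => by
    filter_upwards [isOpen_ball.mem_nhds hy] with x hx using heq x hx
  have hdU : ball z d ⊆ U := (ball_subset_ball (by linarith)).trans hrU
  have hhelm : Helm Λ (fun x => χ x * w x) (ball z d) := by
    intro y hy
    rw [lap_congr (hev y hy), hpde y (hdU hy), heq y hy]
    ring
  have hzero : (fun x => χ x * w x) z = 0 := by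
    simp only [h0, mul_zero]
  have hG := GG_zero_of_vanish hsm hΛ hhelm hdΛ hzero ek_e0 (t := d / 2) (by positivity)
    (by linarith)
  have hnn : ∀ y, 0 ≤ χ y * w y := by
    intro y
    by_cases hy : y ∈ U
    · exact mul_nonneg χ.nonneg (hpos y hy)
    · have : χ y = 0 := by
        apply χ.zero_of_le_dist
        by_contra hcon
        push Not at hcon
        exact hy (hχ (mem_closedBall.2 hcon.le))
      rw [this, zero_mul]
  have hcont : Continuous (fun x : V => (fun x => χ x * w x) (z + (d / 2) • x) * rad e0 x) := by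
    have h1 := hsm.continuous
    have h2 := (contDiff_rad ek_e0).continuous
    exact (h1.comp (by fun_prop)).mul h2
  have hint : Integrable (fun x : V => (fun x => χ x * w x) (z + (d / 2) • x) * rad e0 x) := by
    refine integrable_mul_rad ek_e0 ?_
    exact hsm.continuous.comp (by fun_prop)
  have hae := (integral_eq_zero_iff_of_nonneg (fun x => mul_nonneg (hnn _) (rad_e0_nonneg x))
    hint).1 hG
  have hall := (hcont.ae_eq_iff_eq volume continuous_const).1 hae
  filter_upwards [ball_mem_nhds z (show 0 < d / 2 by positivity)] with y hy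
  have h1 := congrFun hall ((d / 2)⁻¹ • (y - z))
  have h2 : z + (d / 2) • ((d / 2)⁻¹ • (y - z)) = y := by
    rw [smul_inv_smul₀ (by positivity)]
    abel
  simp only [h2] at h1
  have h3 : ‖(d / 2)⁻¹ • (y - z)‖ < 1 := by
    rw [norm_smul, norm_inv, Real.norm_eq_abs, abs_of_pos (by positivity), ← dist_eq_norm,
      inv_mul_lt_iff₀ (by positivity), mul_one]
    exact hy
  have h4 := (rad_e0_pos h3).ne'
  have h5 : χ y * w y = 0 := by
    rcases mul_eq_zero.1 h1 with h | h
    · exact h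
    · exact absurd h h4
  have h6 := heq y (ball_subset_ball (by linarith) hy)
  simp only at h6
  rw [← h6, h5]

end SMP

open SMP in
theorem t_SMP : S_SMP := by
  intro U hU hUc w Λ hΛ hw hpde hpos z hz h0
  have hkey : U ⊆ {x | ∀ᶠ y in 𝓝 x, w y = 0} := by
    refine hUc.subset_of_closure_inter_subset ?_ ⟨z, hz, local_zero hU hΛ hw hpde hpos hz h0⟩ ?_
    · exact isOpen_setOfPred_eventually_nhds
    · rintro x ⟨hx, hxU⟩
      refine local_zero hU hΛ hw hpde hpos hxU ?_
      have hc : ContinuousAt w x := hw.continuousOn.continuousAt (hU.mem_nhds hxU)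
      by_contra hne
      have hopen : ∀ᶠ y in 𝓝 x, w y ≠ 0 := hc.eventually_ne hne
      rw [mem_closure_iff_nhds] at hx
      obtain ⟨y, hy1, hy2⟩ := hx _ hopen
      exact hy1 hy2.self_of_nhds
  intro x hx
  exact (hkey hx).self_of_nhds

end Pool.Agent.H417R2.CH
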