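import Pool.Agent.H417R2.CH.Defs2

/-!
Project CH (helper417), task STR: strict monotonicity of the first eigenvalue.
-/

set_option autoImplicit false
open MeasureTheory Metric Set Filter Topology
open scoped ContDiff InnerProductSpace ENNReal NNReal

namespace Pool.Agent.H417R2.CH

open Pool.Agent.Helper546 (Tst lap)

namespace STR

/-- test functions belong to `H¹₀` -/
theorem h10_tst {U : Set V} {φ : V → ℝ} (h : Tst U φ) : H10 U φ (gradient φ) := by
  have hg : Continuous (gradient φ) := by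
    have h1 : Continuous (fderiv ℝ φ) := h.1.continuous_fderiv (by simp)
    exact (InnerProductSpace.toDual ℝ V).symm.continuous.comp h1
  have hc : HasCompactSupport (gradient φ) := by
    have h1 : HasCompactSupport (fderiv ℝ φ) := h.2.1.fderiv ℝ
    exact h1.comp_left (g := (InnerProductSpace.toDual ℝ V).symm) (map_zero _)
  refine ⟨h.1.continuous.memLp_of_hasCompactSupport h.2.1, hg.memLp_of_hasCompactSupport hc, ?_⟩
  intro ε hε
  exact ⟨φ, h, by simpa using hε, by simpa using hε⟩

end STR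

theorem t_STR (h1 : S_HADD) (h2 : S_HLAM) (h3 : S_EIG) (h4 : S_EIGB) (h5 : S_REGW) (h6 : S_SMP) :
    S_STR := by
  intro U U' hU hU' hsub hne
  obtain ⟨u, hu⟩ := h3 U hU
  have hu' : H10 U' u (gd U u) := h1.2 U U' u (gd U u) hsub hu.mem
  have hen : ∫ x, ‖gd U u x‖ ^ 2 = lam U := by
    have h7 := hu.weak u (gd U u) hu.mem
    have h8 : ∫ x, u x * u x = 1 := by
      rw [← hu.norm]
      exact integral_congr_ae (Eventually.of_forall fun x => (pow_two (u x)).symm)
    rw [h8, mul_one] at h7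
    rw [← h7]
    exact integral_congr_ae (Eventually.of_forall fun x => (real_inner_self_eq_norm_sq _).symm)
  obtain ⟨hlam0, hlam⟩ := h2 U' hU'.isOpen hU'.ne
  have hle : lam U' ≤ lam U := by
    have h7 := hlam u (gd U u) hu'
    rwa [hu.norm, mul_one, hen] at h7
  refine lt_of_le_of_ne hle fun heq => ?_
  have hweak := h4 U' hU'.isOpen hU'.ne u (gd U u) hu' (by rw [hen, hu.norm, mul_one, heq])
  obtain ⟨w, hw1, hw2, hw3, -, -⟩ := h5 U' hU'.isOpen (lam U') hlam0 u (gd U u) hu'
    (fun φ hφ => hweak φ (gradient φ) (STR.h10_tst hφ))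
  have hwu : EqOn w u U' := by
    refine Measure.eqOn_open_of_ae_eq (μ := (volume : Measure V)) ?_ hU'.isOpen
      hw1.continuousOn hu.cont.continuousOn
    exact (ae_restrict_iff' hU'.isOpen.measurableSet).2 (hw3.mono fun x hx hxU => (hx hxU).1)
  have hnn : ∀ x, 0 ≤ u x := by
    intro x
    by_cases hx : x ∈ U
    · exact (hu.pos x hx).le
    · exact (hu.zero x hx).ge
  obtain ⟨z, hz', hz⟩ : ∃ z, z ∈ U' ∧ z ∉ U := by
    by_contra hcon
    push Not at hcon
    exact hne (Subset.antisymm hsub hcon)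
  have h7 := h6 U' hU'.isOpen hU'.convex.isPreconnected w (lam U') hlam0 hw1 hw2
    (fun x hx => by rw [hwu hx]; exact hnn x) z hz' (by rw [hwu hz']; exact hu.zero z hz)
  obtain ⟨x₀, hx₀⟩ := hU.ne
  have h8 := h7 x₀ (hsub hx₀)
  rw [hwu (hsub hx₀)] at h8
  exact (hu.pos x₀ hx₀).ne' h8

end Pool.Agent.H417R2.CH
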