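import Pool.Agent.H417R2.CH.Defs2

/-!
# A line on which a concave function of two variables is maximal at the origin
-/

namespace Pool.Agent.H417R2.CH

open Set

namespace SUP

theorem concaveOn {F : ℝ → ℝ → ℝ}
    (hF : ∀ a b c d : ℝ, ∀ θ ∈ Icc (0 : ℝ) 1, (1 - θ) * F a b + θ * F c d ≤
      F ((1 - θ) * a + θ * c) ((1 - θ) * b + θ * d)) :
    ConcaveOn ℝ univ (fun p : ℝ × ℝ => F p.1 p.2) := by
  refine ⟨convex_univ, ?_⟩
  rintro ⟨a, b⟩ _ ⟨c, d⟩ _ s t hs ht hst
  have h := hF a b c d t ⟨ht, by linarith⟩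
  have e : 1 - t = s := by linarith
  rw [e] at h
  simpa using h

theorem exists_line {F : ℝ → ℝ → ℝ}
    (hF : ∀ a b c d : ℝ, ∀ θ ∈ Icc (0 : ℝ) 1, (1 - θ) * F a b + θ * F c d ≤
      F ((1 - θ) * a + θ * c) ((1 - θ) * b + θ * d)) (h0 : F 0 0 = 0) :
    ∃ a b : ℝ, ∀ x y : ℝ, a * x + b * y = 0 → F x y ≤ 0 := by
  have hc := concaveOn hF
  have hcont : Continuous (fun p : ℝ × ℝ => F p.1 p.2) := by
    rw [← continuousOn_univ]
    exact hc.continuousOn isOpen_univ
  set s : Set ((ℝ × ℝ) × ℝ) := {p | p.2 < F p.1.1 p.1.2} with hs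
  have hso : IsOpen s := isOpen_lt continuous_snd (hcont.comp continuous_fst)
  have hsc : Convex ℝ s := by
    rintro ⟨⟨a, b⟩, z⟩ h1 ⟨⟨c, d⟩, w⟩ h2 u v hu hv huv
    have h := hF a b c d v ⟨hv, by linarith⟩
    have e : 1 - v = u := by linarith
    rw [e] at h
    have h1' : z < F a b := h1
    have h2' : w < F c d := h2
    show u * z + v * w < F (u * a + v * c) (u * b + v * d)
    refine lt_of_lt_of_le ?_ h
    rcases hu.eq_or_lt with h3 | h3
    · have : 0 < v := by linarith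
      have h4 := mul_lt_mul_of_pos_left h2' this
      rw [← h3]
      linarith
    · have h4 := mul_lt_mul_of_pos_left h1' h3
      have h5 := mul_le_mul_of_nonneg_left h2'.le hv
      linarith
  have h0s : ((0 : ℝ × ℝ), (0 : ℝ)) ∉ s := by
    intro h
    have h1 : (0 : ℝ) < F 0 0 := h
    rw [h0] at h1
    exact lt_irrefl _ h1
  obtain ⟨f, hf⟩ := geometric_hahn_banach_open_point hsc hso h0s
  have e0 : f ((0 : ℝ × ℝ), (0 : ℝ)) = 0 := map_zero f
  rw [e0] at hf
  have hlin : ∀ x y z : ℝ, f ((x, y), z) =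
      f ((1, 0), 0) * x + f ((0, 1), 0) * y + f ((0, 0), 1) * z := by
    intro x y z
    have e : (((x, y), z) : (ℝ × ℝ) × ℝ) = x • (((1, 0), 0) : (ℝ × ℝ) × ℝ)
        + y • (((0, 1), 0) : (ℝ × ℝ) × ℝ) + z • (((0, 0), 1) : (ℝ × ℝ) × ℝ) := by
      simp
    rw [e, map_add, map_add, map_smul, map_smul, map_smul]
    simp only [smul_eq_mul]
    ring
  have hγ : 0 < f ((0, 0), 1) := by
    have h1 := hf ((0, 0), -1) (by
      show (-1 : ℝ) < F 0 0
      rw [h0]; norm_num)
    rw [hlin] at h1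
    linarith
  refine ⟨f ((1, 0), 0), f ((0, 1), 0), fun x y hxy => ?_⟩
  by_contra hlt
  rw [not_le] at hlt
  have h1 := hf ((x, y), F x y / 2) (by
    show F x y / 2 < F x y
    linarith)
  rw [hlin, hxy, zero_add] at h1
  have : 0 < f ((0, 0), 1) * (F x y / 2) := mul_pos hγ (by linarith)
  linarith

end SUP

theorem t_SUP : S_SUP := by
  intro F hF h0
  obtain ⟨a, b, h⟩ := SUP.exists_line hF h0
  by_cases hab : |a| + |b| = 0
  · have ha : a = 0 := by
      have := abs_nonneg a; have := abs_nonneg b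
      exact abs_eq_zero.1 (by linarith)
    have hb : b = 0 := by
      have := abs_nonneg a; have := abs_nonneg b
      exact abs_eq_zero.1 (by linarith)
    exact ⟨1, 0, by simp, fun t => h _ _ (by rw [ha, hb]; ring)⟩
  · have hpos : 0 < |a| + |b| :=
      lt_of_le_of_ne (by positivity) (Ne.symm hab)
    refine ⟨b / (|a| + |b|), -a / (|a| + |b|), ?_, fun t => h _ _ ?_⟩
    · rw [abs_div, abs_div, abs_neg, abs_of_pos hpos]
      field_simp
      ring
    · field_simp
      ring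

end Pool.Agent.H417R2.CH
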