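import Pool.Agent.H417R2.CH.Defs2

set_option autoImplicit false
open MeasureTheory Metric Set Filter Topology
open scoped ContDiff InnerProductSpace ENNReal NNReal

namespace Pool.Agent.H417R2.CH

open Pool.Agent.Helper546 (Tst lap)

namespace TRN

/-! ### coordinates -/

theorem pt_zero (x y : ℝ) : (pt x y) 0 = x := by simp [pt]

theorem pt_one (x y : ℝ) : (pt x y) 1 = y := by simp [pt]

theorem ee0 : Pool.Agent.Helper546.ee 0 = pt 1 0 := by
  ext i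
  fin_cases i <;> simp [pt, Pool.Agent.Helper546.ee]

theorem ee1 : Pool.Agent.Helper546.ee 1 = pt 0 1 := by
  ext i
  fin_cases i <;> simp [pt, Pool.Agent.Helper546.ee]

theorem clm_sq (L : V →L[ℝ] ℝ) : ‖L‖ ^ 2 = L (pt 1 0) ^ 2 + L (pt 0 1) ^ 2 := by
  rw [← ee0, ← ee1]
  exact Pool.Agent.Helper546.norm_clm_sq L

theorem nsq (x : V) : ‖x‖ ^ 2 = x 0 ^ 2 + x 1 ^ 2 := Pool.Agent.Helper546.norm_sq_V x

theorem grad0 (f : V → ℝ) (p : V) : (gradient f p) 0 = fderiv ℝ f p (pt 1 0) := by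
  have h : ⟪gradient f p, pt 1 0⟫_ℝ = fderiv ℝ f p (pt 1 0) := by
    rw [gradient, InnerProductSpace.toDual_symm_apply]
  rw [← h, PiLp.inner_apply]
  simp [pt, Fin.sum_univ_two]

theorem grad1 (f : V → ℝ) (p : V) : (gradient f p) 1 = fderiv ℝ f p (pt 0 1) := by
  have h : ⟪gradient f p, pt 0 1⟫_ℝ = fderiv ℝ f p (pt 0 1) := by
    rw [gradient, InnerProductSpace.toDual_symm_apply]
  rw [← h, PiLp.inner_apply]
  simp [pt, Fin.sum_univ_two]

theorem dist_vert (p : V) (y : ℝ) : dist p (pt (p 0) y) = |p 1 - y| := by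
  rw [EuclideanSpace.dist_eq, Fin.sum_univ_two, pt_zero, pt_one, dist_self, Real.dist_eq]
  simp [Real.sqrt_sq_eq_abs]

/-! ### the weights -/

/-- horizontal derivative -/
noncomputable def wx (Wf : V → ℝ) (p : V) : ℝ := fderiv ℝ Wf p (pt 1 0)

/-- vertical derivative -/
noncomputable def wy (Wf : V → ℝ) (p : V) : ℝ := fderiv ℝ Wf p (pt 0 1)

/-- transported energy density -/
noncomputable def Q (Wf : V → ℝ) (t : ℝ) (p ξ : V) : ℝ :=
  (ξ 0 - t * wx Wf p * ξ 1 / (1 + t * wy Wf p)) ^ 2 * (1 + t * wy Wf p) +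
    ξ 1 ^ 2 / (1 + t * wy Wf p)

theorem w_sq (Wf : V → ℝ) (p : V) : wx Wf p ^ 2 + wy Wf p ^ 2 = ‖fderiv ℝ Wf p‖ ^ 2 :=
  (clm_sq _).symm

theorem wx_le (Wf : V → ℝ) (p : V) : |wx Wf p| ≤ ‖fderiv ℝ Wf p‖ := by
  rw [← abs_of_nonneg (norm_nonneg (fderiv ℝ Wf p)), ← sq_le_sq, ← w_sq]
  nlinarith [sq_nonneg (wy Wf p)]

theorem wy_le (Wf : V → ℝ) (p : V) : |wy Wf p| ≤ ‖fderiv ℝ Wf p‖ := by
  rw [← abs_of_nonneg (norm_nonneg (fderiv ℝ Wf p)), ← sq_le_sq, ← w_sq]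
  nlinarith [sq_nonneg (wx Wf p)]

section bounds

variable {Wf : V → ℝ} {K : ℝ≥0} {t : ℝ}

theorem fd_le (hW : LipschitzWith K Wf) (p : V) : ‖fderiv ℝ Wf p‖ ≤ K :=
  norm_fderiv_le_of_lipschitz ℝ hW

theorem twx (hW : LipschitzWith K Wf) (ht : |t| * K ≤ 1 / 2) (p : V) : |t * wx Wf p| ≤ 1 / 2 := by
  rw [abs_mul]
  exact (mul_le_mul_of_nonneg_left ((wx_le Wf p).trans (fd_le hW p)) (abs_nonneg t)).trans ht

theorem twy (hW : LipschitzWith K Wf) (ht : |t| * K ≤ 1 / 2) (p : V) : |t * wy Wf p| ≤ 1 / 2 := by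
  rw [abs_mul]
  exact (mul_le_mul_of_nonneg_left ((wy_le Wf p).trans (fd_le hW p)) (abs_nonneg t)).trans ht

theorem J_ge (hW : LipschitzWith K Wf) (ht : |t| * K ≤ 1 / 2) (p : V) :
    1 / 2 ≤ 1 + t * wy Wf p := by
  have := (abs_le.1 (twy hW ht p)).1
  linarith

theorem J_le (hW : LipschitzWith K Wf) (ht : |t| * K ≤ 1 / 2) (p : V) :
    1 + t * wy Wf p ≤ 3 / 2 := by
  have := (abs_le.1 (twy hW ht p)).2
  linarith

theorem Q_nonneg (hW : LipschitzWith K Wf) (ht : |t| * K ≤ 1 / 2) (p ξ : V) : 0 ≤ Q Wf t p ξ := by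
  have h := J_ge hW ht p
  have h0 : 0 ≤ 1 + t * wy Wf p := by linarith
  unfold Q
  positivity

theorem Q_le (hW : LipschitzWith K Wf) (ht : |t| * K ≤ 1 / 2) (p ξ : V) :
    Q Wf t p ξ ≤ 5 * ‖ξ‖ ^ 2 := by
  have h1 := J_ge hW ht p
  have h2 := J_le hW ht p
  have hJ : 0 < 1 + t * wy Wf p := by linarith
  have hx := twx hW ht p
  rw [nsq]
  unfold Q
  generalize 1 + t * wy Wf p = J at h1 h2 hJ
  have hs : (t * wx Wf p * ξ 1 / J) ^ 2 ≤ ξ 1 ^ 2 := by
    rw [div_pow, mul_pow, div_le_iff₀ (by positivity)]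
    have h3 : (t * wx Wf p) ^ 2 ≤ (1 / 2) ^ 2 := by
      rw [sq_le_sq, abs_of_pos (by norm_num : (0 : ℝ) < 1 / 2)]
      exact hx
    have h4 : (1 / 2 : ℝ) ^ 2 ≤ J ^ 2 := pow_le_pow_left₀ (by norm_num) h1 2
    nlinarith [sq_nonneg (ξ 1)]
  have h5 : ξ 1 ^ 2 / J ≤ 2 * ξ 1 ^ 2 := by
    rw [div_le_iff₀ hJ]
    nlinarith [sq_nonneg (ξ 1)]
  have h6 : (ξ 0 - t * wx Wf p * ξ 1 / J) ^ 2 ≤ 2 * ξ 0 ^ 2 + 2 * ξ 1 ^ 2 := by
    nlinarith [sq_nonneg (ξ 0 + t * wx Wf p * ξ 1 / J)]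
  have h7 : (ξ 0 - t * wx Wf p * ξ 1 / J) ^ 2 * J ≤ (2 * ξ 0 ^ 2 + 2 * ξ 1 ^ 2) * (3 / 2) := by
    have := sq_nonneg (ξ 0 - t * wx Wf p * ξ 1 / J)
    exact mul_le_mul h6 h2 hJ.le (by positivity)
  nlinarith [sq_nonneg (ξ 0), sq_nonneg (ξ 1)]

theorem sq_add_le (δ : ℝ) (hδ : 0 < δ) (x y : ℝ) :
    (x + y) ^ 2 ≤ (1 + δ) * x ^ 2 + (1 + 1 / δ) * y ^ 2 := by
  have h : 0 ≤ (δ * x - y) ^ 2 / δ := by positivity
  have h2 : (δ * x - y) ^ 2 / δ = δ * x ^ 2 - 2 * x * y + 1 / δ * y ^ 2 := by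
    field_simp
    ring
  rw [h2] at h
  nlinarith

theorem Q_add (hW : LipschitzWith K Wf) (ht : |t| * K ≤ 1 / 2) (δ : ℝ) (hδ : 0 < δ) (p ξ η : V) :
    Q Wf t p (ξ + η) ≤ (1 + δ) * Q Wf t p ξ + (1 + 1 / δ) * Q Wf t p η := by
  have h1 := J_ge hW ht p
  have hJ : 0 < 1 + t * wy Wf p := by linarith
  unfold Q
  simp only [PiLp.add_apply]
  generalize 1 + t * wy Wf p = J at h1 hJ
  have e1 := sq_add_le δ hδ (ξ 0 - t * wx Wf p * ξ 1 / J) (η 0 - t * wx Wf p * η 1 / J)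
  have e2 := sq_add_le δ hδ (ξ 1) (η 1)
  have e3 : ξ 0 + η 0 - t * wx Wf p * (ξ 1 + η 1) / J =
      (ξ 0 - t * wx Wf p * ξ 1 / J) + (η 0 - t * wx Wf p * η 1 / J) := by ring
  rw [e3]
  have e4 := mul_le_mul_of_nonneg_right e1 hJ.le
  have e5 := div_le_div_of_nonneg_right e2 hJ.le
  calc _ ≤ ((1 + δ) * (ξ 0 - t * wx Wf p * ξ 1 / J) ^ 2 +
          (1 + 1 / δ) * (η 0 - t * wx Wf p * η 1 / J) ^ 2) * J +
        ((1 + δ) * ξ 1 ^ 2 + (1 + 1 / δ) * η 1 ^ 2) / J := add_le_add e4 e5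
    _ = _ := by ring

theorem Q_sum (hW : LipschitzWith K Wf) (ht : |t| * K ≤ 1 / 2) (N : V → ℝ)
    (hN : ∀ p, ‖fderiv ℝ Wf p‖ ≤ N p) (p ξ : V) :
    Q Wf t p ξ + Q Wf (-t) p ξ ≤ 2 * ‖ξ‖ ^ 2 + 4 * t ^ 2 * (N p ^ 2 * ‖ξ‖ ^ 2) := by
  have hy := abs_le.1 (twy hW ht p)
  have hx := abs_le.1 (twx hW ht p)
  have hw := w_sq Wf p
  have hNp := hN p
  have hN0 : 0 ≤ N p := (norm_nonneg _).trans hNp
  have hN2 : wx Wf p ^ 2 + wy Wf p ^ 2 ≤ N p ^ 2 := by
    rw [hw]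
    exact pow_le_pow_left₀ (norm_nonneg _) hNp 2
  rw [nsq]
  unfold Q
  generalize wx Wf p = a at *
  generalize wy Wf p = b at *
  generalize ξ 0 = x
  generalize ξ 1 = y
  have hJ1 : 0 < 1 + t * b := by linarith
  have hJ2 : 0 < 1 + -t * b := by linarith
  have hD : 1 / 2 ≤ 1 - (t * b) ^ 2 := by nlinarith
  have hD0 : 0 < 1 - (t * b) ^ 2 := by linarith
  have key : (x - t * a * y / (1 + t * b)) ^ 2 * (1 + t * b) + y ^ 2 / (1 + t * b) +
      ((x - -t * a * y / (1 + -t * b)) ^ 2 * (1 + -t * b) + y ^ 2 / (1 + -t * b)) =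
      2 * (x ^ 2 + y ^ 2) + 2 * t ^ 2 * (a ^ 2 + b ^ 2) * y ^ 2 / (1 - (t * b) ^ 2) := by
    have e : 1 - (t * b) ^ 2 = (1 + t * b) * (1 - t * b) := by ring
    have e' : 1 + -t * b = 1 - t * b := by ring
    have n1 : 1 + t * b ≠ 0 := hJ1.ne'
    have n2 : 1 - t * b ≠ 0 := by rw [← e']; exact hJ2.ne'
    rw [e, e']
    field_simp
    ring
  rw [key]
  have h1 : 2 * t ^ 2 * (a ^ 2 + b ^ 2) * y ^ 2 / (1 - (t * b) ^ 2) ≤
      4 * t ^ 2 * ((a ^ 2 + b ^ 2) * y ^ 2) := by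
    rw [div_le_iff₀ hD0]
    have : 0 ≤ t ^ 2 * ((a ^ 2 + b ^ 2) * y ^ 2) := by positivity
    nlinarith
  have h2 : (a ^ 2 + b ^ 2) * y ^ 2 ≤ N p ^ 2 * (x ^ 2 + y ^ 2) :=
    mul_le_mul hN2 (by nlinarith [sq_nonneg x]) (by positivity) (by positivity)
  have h3 : 4 * t ^ 2 * ((a ^ 2 + b ^ 2) * y ^ 2) ≤ 4 * t ^ 2 * (N p ^ 2 * (x ^ 2 + y ^ 2)) :=
    mul_le_mul_of_nonneg_left h2 (by positivity)
  linarith

end bounds

/-! ### measurability and integrability -/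

theorem wx_meas (Wf : V → ℝ) : Measurable (wx Wf) := measurable_fderiv_apply_const ℝ Wf _

theorem wy_meas (Wf : V → ℝ) : Measurable (wy Wf) := measurable_fderiv_apply_const ℝ Wf _

theorem comp_ae (G : V → V) (hG : AEStronglyMeasurable G (volume : Measure V)) (i : Fin 2) :
    AEMeasurable (fun p => (G p) i) (volume : Measure V) := by
  have h : Continuous fun x : V => x i := by fun_prop
  exact (h.comp_aestronglyMeasurable hG).aemeasurable

theorem Q_meas (Wf : V → ℝ) (t : ℝ) (G : V → V)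
    (hG : AEStronglyMeasurable G (volume : Measure V)) :
    AEStronglyMeasurable (fun p => Q Wf t p (G p)) (volume : Measure V) := by
  apply AEMeasurable.aestronglyMeasurable
  have h0 := comp_ae G hG 0
  have h1 := comp_ae G hG 1
  have hx : AEMeasurable (wx Wf) (volume : Measure V) := (wx_meas Wf).aemeasurable
  have hy : AEMeasurable (wy Wf) (volume : Measure V) := (wy_meas Wf).aemeasurable
  have hJ : AEMeasurable (fun p => 1 + t * wy Wf p) (volume : Measure V) :=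
    aemeasurable_const.add (aemeasurable_const.mul hy)
  unfold Q
  exact (((h0.sub (((aemeasurable_const.mul hx).mul h1).div hJ)).pow_const 2).mul hJ).add
    ((h1.pow_const 2).div hJ)

theorem int_sq (G : V → V) (hG : MemLp G 2 (volume : Measure V)) :
    Integrable (fun p => ‖G p‖ ^ 2) (volume : Measure V) := by
  exact (memLp_two_iff_integrable_sq_norm hG.1).1 hG

theorem int_Q {Wf : V → ℝ} {K : ℝ≥0} {t : ℝ} (hW : LipschitzWith K Wf) (ht : |t| * K ≤ 1 / 2)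
    (G : V → V) (hG : MemLp G 2 (volume : Measure V)) :
    Integrable (fun p => Q Wf t p (G p)) (volume : Measure V) := by
  refine ((int_sq G hG).const_mul 5).mono' (Q_meas Wf t G hG.1) ?_
  refine Eventually.of_forall fun p => ?_
  rw [Real.norm_eq_abs, abs_of_nonneg (Q_nonneg hW ht p _)]
  exact Q_le hW ht p _

theorem int_uJ {Wf : V → ℝ} {K : ℝ≥0} {t : ℝ} (hW : LipschitzWith K Wf) (ht : |t| * K ≤ 1 / 2)
    (u : V → ℝ) (hu : MemLp u 2 (volume : Measure V)) :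
    Integrable (fun p => u p ^ 2 * (1 + t * wy Wf p)) (volume : Measure V) := by
  have h1 : Integrable (fun p => u p ^ 2) (volume : Measure V) := hu.integrable_sq
  refine (h1.const_mul (3 / 2)).mono' ?_ ?_
  · exact h1.1.mul ((measurable_const.add (measurable_const.mul (wy_meas Wf))).aestronglyMeasurable)
  · refine Eventually.of_forall fun p => ?_
    have := J_ge hW ht p
    have h2 := J_le hW ht p
    rw [Real.norm_eq_abs, abs_of_nonneg (mul_nonneg (sq_nonneg _) (by linarith))]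
    nlinarith [sq_nonneg (u p)]

theorem grad_memLp {U : Set V} {φ : V → ℝ} (h : Tst U φ) :
    MemLp (gradient φ) 2 (volume : Measure V) := by
  have h1 : Continuous (gradient φ) := by
    have : Continuous (fderiv ℝ φ) := h.1.continuous_fderiv (by simp)
    exact (InnerProductSpace.toDual ℝ V).symm.continuous.comp this
  have h2 : HasCompactSupport (gradient φ) := by
    have : HasCompactSupport (fderiv ℝ φ) := h.2.1.fderiv (𝕜 := ℝ)
    exact this.comp_left (map_zero _)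
  exact h1.memLp_of_hasCompactSupport h2

theorem tst_memLp {U : Set V} {φ : V → ℝ} (h : Tst U φ) : MemLp φ 2 (volume : Measure V) :=
  h.1.continuous.memLp_of_hasCompactSupport h.2.1

/-! ### passage to the limit -/

theorem lim_ineq {U : Set V} {u : V → ℝ} {G : V → V} (hu : H10 U u G) {Wf : V → ℝ} {K : ℝ≥0}
    {t : ℝ} (hW : LipschitzWith K Wf) (ht : |t| * K ≤ 1 / 2) (L : ℝ) (hL : 0 ≤ L)
    (h : ∀ φ : V → ℝ, Tst U φ →
      L * ∫ p, φ p ^ 2 * (1 + t * wy Wf p) ≤ ∫ p, Q Wf t p (gradient φ p)) :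
    L * ∫ p, u p ^ 2 * (1 + t * wy Wf p) ≤ ∫ p, Q Wf t p (G p) := by
  set M := ∫ p, u p ^ 2 * (1 + t * wy Wf p) with hM
  set E := ∫ p, Q Wf t p (G p) with hE
  have hE0 : 0 ≤ E := integral_nonneg fun p => Q_nonneg hW ht p _
  have key : ∀ δ : ℝ, 0 < δ → L * M ≤ (1 + δ) ^ 2 * E + 5 * (1 + δ) * (δ ^ 2 + δ) +
      3 / 2 * L * (δ ^ 2 + δ) := by
    intro δ hδ
    obtain ⟨φ, hφ, hφ1, hφ2⟩ := hu.approx (δ ^ 2) (by positivity)
    have hφm := tst_memLp hφ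
    have hgm := grad_memLp hφ
    have iu := int_uJ hW ht u hu.memu
    have iφ := int_uJ hW ht φ hφm
    have id : Integrable (fun p => (u p - φ p) ^ 2) (volume : Measure V) :=
      (hu.memu.sub hφm).integrable_sq
    have iQG := int_Q hW ht G hu.memG
    have iQφ := int_Q hW ht (gradient φ) hgm
    have iG : Integrable (fun p => ‖G p - gradient φ p‖ ^ 2) (volume : Measure V) :=
      int_sq _ (hu.memG.sub hgm)
    have s1 : M ≤ (1 + δ) * (∫ p, φ p ^ 2 * (1 + t * wy Wf p)) + 3 / 2 * (δ ^ 2 + δ) := by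
      have h1 : M ≤ ∫ p, ((1 + δ) * (φ p ^ 2 * (1 + t * wy Wf p)) +
          (1 + 1 / δ) * (3 / 2) * (u p - φ p) ^ 2) := by
        refine integral_mono iu ((iφ.const_mul _).add (id.const_mul _)) fun p => ?_
        have hJ1 := J_ge hW ht p
        have hJ2 := J_le hW ht p
        have e1 := sq_add_le δ hδ (φ p) (u p - φ p)
        rw [add_sub_cancel] at e1
        have e2 := mul_le_mul_of_nonneg_right e1 (show (0 : ℝ) ≤ 1 + t * wy Wf p by linarith)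
        have e3 : (1 + 1 / δ) * (u p - φ p) ^ 2 * (1 + t * wy Wf p) ≤
            (1 + 1 / δ) * (u p - φ p) ^ 2 * (3 / 2) :=
          mul_le_mul_of_nonneg_left hJ2 (by positivity)
        show u p ^ 2 * (1 + t * wy Wf p) ≤ _
        nlinarith
      rw [integral_add (iφ.const_mul _) (id.const_mul _), integral_const_mul,
        integral_const_mul] at h1
      have h2 : (1 + 1 / δ) * (3 / 2) * ∫ p, (u p - φ p) ^ 2 ≤
          (1 + 1 / δ) * (3 / 2) * δ ^ 2 := mul_le_mul_of_nonneg_left hφ1.le (by positivity)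
      have h3 : (1 + 1 / δ) * (3 / 2) * δ ^ 2 = 3 / 2 * (δ ^ 2 + δ) := by
        field_simp
      linarith
    have s2 : ∫ p, Q Wf t p (gradient φ p) ≤ (1 + δ) * E + 5 * (δ ^ 2 + δ) := by
      have h1 : ∫ p, Q Wf t p (gradient φ p) ≤ ∫ p, ((1 + δ) * Q Wf t p (G p) +
          (1 + 1 / δ) * 5 * ‖G p - gradient φ p‖ ^ 2) := by
        refine integral_mono iQφ ((iQG.const_mul _).add (iG.const_mul _)) fun p => ?_
        have e1 := Q_add hW ht δ hδ p (G p) (gradient φ p - G p)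
        rw [add_sub_cancel] at e1
        have e2 := Q_le hW ht p (gradient φ p - G p)
        rw [norm_sub_rev] at e2
        have e3 : (1 + 1 / δ) * Q Wf t p (gradient φ p - G p) ≤
            (1 + 1 / δ) * (5 * ‖G p - gradient φ p‖ ^ 2) :=
          mul_le_mul_of_nonneg_left e2 (by positivity)
        show Q Wf t p (gradient φ p) ≤ _
        linarith
      rw [integral_add (iQG.const_mul _) (iG.const_mul _), integral_const_mul,
        integral_const_mul] at h1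
      have h2 : (1 + 1 / δ) * 5 * ∫ p, ‖G p - gradient φ p‖ ^ 2 ≤
          (1 + 1 / δ) * 5 * δ ^ 2 := mul_le_mul_of_nonneg_left hφ2.le (by positivity)
      have h3 : (1 + 1 / δ) * 5 * δ ^ 2 = 5 * (δ ^ 2 + δ) := by
        field_simp
      linarith
    have s3 := h φ hφ
    have s4 : L * M ≤ L * ((1 + δ) * (∫ p, φ p ^ 2 * (1 + t * wy Wf p)) +
        3 / 2 * (δ ^ 2 + δ)) := mul_le_mul_of_nonneg_left s1 hL
    have s5 : (1 + δ) * (L * ∫ p, φ p ^ 2 * (1 + t * wy Wf p)) ≤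
        (1 + δ) * ((1 + δ) * E + 5 * (δ ^ 2 + δ)) :=
      mul_le_mul_of_nonneg_left (s3.trans s2) (by linarith)
    nlinarith
  have hlim : Tendsto (fun δ : ℝ => (1 + δ) ^ 2 * E + 5 * (1 + δ) * (δ ^ 2 + δ) +
      3 / 2 * L * (δ ^ 2 + δ)) (𝓝[>] 0) (𝓝 E) := by
    have hc : Continuous (fun δ : ℝ => (1 + δ) ^ 2 * E + 5 * (1 + δ) * (δ ^ 2 + δ) +
      3 / 2 * L * (δ ^ 2 + δ)) := by fun_prop
    have h0 := hc.tendsto 0
    simp only [add_zero, one_pow, one_mul, ne_eq, OfNat.ofNat_ne_zero, not_false_eq_true,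
      zero_pow, mul_zero] at h0
    exact h0.mono_left nhdsWithin_le_nhds
  refine ge_of_tendsto hlim ?_
  filter_upwards [self_mem_nhdsWithin] with δ hδ
  exact key δ hδ

/-! ### the regions -/

theorem map_reg {α β : ℝ} {l g φ : ℝ → ℝ} {Wf : V → ℝ} {K : ℝ≥0} {t : ℝ}
    (hW : LipschitzWith K Wf) (ht : |t| * K ≤ 1 / 2)
    (hg : ∀ x ∈ Ioo α β, Wf (pt x (g x)) = φ x) (hl : ∀ x ∈ Ioo α β, Wf (pt x (l x)) = 0)
    (p : V) (hp : p ∈ Reg α β l g) :
    p + pt 0 (t * Wf p) ∈ Reg α β l (fun x => g x + t * φ x) := by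
  obtain ⟨h1, h2, h3, h4⟩ := hp
  have e0 : (p + pt 0 (t * Wf p)) 0 = p 0 := by
    rw [PiLp.add_apply, pt_zero, add_zero]
  have e1 : (p + pt 0 (t * Wf p)) 1 = p 1 + t * Wf p := by
    rw [PiLp.add_apply, pt_one]
  have hlip : ∀ y : ℝ, |t * Wf p - t * Wf (pt (p 0) y)| ≤ 1 / 2 * |p 1 - y| := by
    intro y
    have h5 := hW.dist_le_mul p (pt (p 0) y)
    rw [dist_vert, Real.dist_eq] at h5
    rw [← mul_sub, abs_mul]
    calc |t| * |Wf p - Wf (pt (p 0) y)| ≤ |t| * (K * |p 1 - y|) :=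
          mul_le_mul_of_nonneg_left h5 (abs_nonneg _)
      _ = |t| * K * |p 1 - y| := by ring
      _ ≤ 1 / 2 * |p 1 - y| := mul_le_mul_of_nonneg_right ht (abs_nonneg _)
  refine ⟨?_, ?_, ?_, ?_⟩
  · rw [e0]; exact h1
  · rw [e0]; exact h2
  · rw [e0, e1]
    have h6 := hlip (l (p 0))
    rw [hl (p 0) ⟨h1, h2⟩, mul_zero, sub_zero, abs_of_pos (show 0 < p 1 - l (p 0) by linarith)] at h6
    have := (abs_le.1 h6).1
    linarith
  · show (p + pt 0 (t * Wf p)) 1 < g ((p + pt 0 (t * Wf p)) 0) + t * φ ((p + pt 0 (t * Wf p)) 0)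
    rw [e0, e1]
    have h6 := hlip (g (p 0))
    rw [hg (p 0) ⟨h1, h2⟩, abs_of_neg (show p 1 - g (p 0) < 0 by linarith)] at h6
    have := (abs_le.1 h6).2
    linarith

theorem test_ineq (h1 : S_HLIP) (h2 : S_HLAM) (h5 : S_CHV) {α β : ℝ} {l g φ : ℝ → ℝ}
    {Wf : V → ℝ} {K : ℝ≥0} {t : ℝ} (hW : LipschitzWith K Wf) (ht : |t| * K ≤ 1 / 2)
    (hg : ∀ x ∈ Ioo α β, Wf (pt x (g x)) = φ x) (hl : ∀ x ∈ Ioo α β, Wf (pt x (l x)) = 0)
    (hU : PC (Reg α β l (fun x => g x + t * φ x))) (ψ : V → ℝ) (hψ : Tst (Reg α β l g) ψ) :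
    lam (Reg α β l (fun x => g x + t * φ x)) * ∫ p, ψ p ^ 2 * (1 + t * wy Wf p) ≤
      ∫ p, Q Wf t p (gradient ψ p) := by
  obtain ⟨v, K', hv, hvc, hval, hsurj, hM, hE⟩ := h5 Wf K hW t ht ψ (Pool.Agent.Helper546.Tst.univ hψ)
  have hz : ∀ q, q ∉ Reg α β l (fun x => g x + t * φ x) → v q = 0 := by
    intro q hq
    obtain ⟨p, rfl⟩ := hsurj q
    rw [hval]
    by_contra hne
    apply hq
    apply map_reg hW ht hg hl
    exact hψ.2.2 (subset_tsupport _ hne)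
  have h6 := (h2 _ hU.isOpen hU.ne).2 v _ (h1 _ hU.isOpen v K' hv hvc hz)
  rw [hM, hE] at h6
  have e : (fun p => Q Wf t p (gradient ψ p)) = fun p => (fderiv ℝ ψ p (pt 1 0) -
        t * fderiv ℝ Wf p (pt 1 0) * fderiv ℝ ψ p (pt 0 1) / (1 + t * fderiv ℝ Wf p (pt 0 1))) ^ 2 *
          (1 + t * fderiv ℝ Wf p (pt 0 1)) +
        fderiv ℝ ψ p (pt 0 1) ^ 2 / (1 + t * fderiv ℝ Wf p (pt 0 1)) := by
    funext p
    unfold Q wx wy
    rw [grad0, grad1]
  rw [e]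
  exact h6

end TRN

open TRN in
theorem t_TRN (h1 : S_HLIP) (h2 : S_HLAM) (h3 : S_ADM) (h4 : S_REG) (h5 : S_CHV) : S_TRN := by
  intro α β l g hD u hu φ a d a₂ d₂ hA ha₂ hd₂ Wf N K B hW hWc hg hl hsupp hNm hN hNB
  obtain ⟨t₁, ht₁, hreg⟩ := h3.2.2 α β l g φ a d hD hA
  have hK1 : (0 : ℝ) < 2 * ((K : ℝ) + 1) := by positivity
  refine ⟨min t₁ (1 / (2 * ((K : ℝ) + 1))), lt_min ht₁ (by positivity), fun t htt => ?_⟩
  have htt1 : |t| ≤ t₁ := htt.trans (min_le_left _ _)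
  have htt2 : |t| ≤ 1 / (2 * ((K : ℝ) + 1)) := htt.trans (min_le_right _ _)
  have ht : |t| * K ≤ 1 / 2 := by
    rw [le_div_iff₀ hK1] at htt2
    have := abs_nonneg t
    nlinarith
  have ht' : |(-t)| * K ≤ 1 / 2 := by rwa [abs_neg]
  have hPCt := h4.1 α β l _ (hreg t htt1)
  have hPCt' := h4.1 α β l _ (hreg (-t) (by rwa [abs_neg]))
  set U := Reg α β l g with hUdef
  set G := gd U u with hG
  have hmem := hu.mem
  have L1 := (h2 _ hPCt.isOpen hPCt.ne).1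
  have L2 := (h2 _ hPCt'.isOpen hPCt'.ne).1
  have A1 := lim_ineq hmem hW ht _ L1 (fun ψ hψ => test_ineq h1 h2 h5 hW ht hg hl hPCt ψ hψ)
  have A2 := lim_ineq hmem hW ht' _ L2 (fun ψ hψ => test_ineq h1 h2 h5 hW ht' hg hl hPCt' ψ hψ)
  set lt := lam (Reg α β l (fun x => g x + t * φ x)) with hlt
  set ls := lam (Reg α β l (fun x => g x + -t * φ x)) with hls
  have iQ1 := int_Q hW ht G hmem.memG
  have iQ2 := int_Q hW ht' G hmem.memG
  set E1 := ∫ p, Q Wf t p (G p) with hE1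
  set E2 := ∫ p, Q Wf (-t) p (G p) with hE2
  have hE10 : 0 ≤ E1 := integral_nonneg fun p => Q_nonneg hW ht p _
  have hE20 : 0 ≤ E2 := integral_nonneg fun p => Q_nonneg hW ht' p _
  have hN0 : ∀ p, 0 ≤ N p := fun p => (norm_nonneg _).trans (hN p)
  have iG := int_sq G hmem.memG
  have iNG : Integrable (fun p => N p ^ 2 * ‖G p‖ ^ 2) (volume : Measure V) := by
    refine (iG.const_mul (B ^ 2)).mono' ((hNm.pow_const 2).aestronglyMeasurable.mul iG.1) ?_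
    refine Eventually.of_forall fun p => ?_
    rw [Real.norm_eq_abs, abs_of_nonneg (by positivity)]
    exact mul_le_mul_of_nonneg_right (pow_le_pow_left₀ (hN0 p) (hNB p) 2) (by positivity)
  have hGG : ∫ p, ‖G p‖ ^ 2 = lam U := by
    have h6 := hu.weak u G hmem
    have h7 : ∫ x, u x * u x = 1 := by
      rw [← hu.norm]
      congr 1
      funext x
      ring
    rw [h7, mul_one] at h6
    rw [← h6]
    congr 1
    funext x
    rw [real_inner_self_eq_norm_sq]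
  have hsum : E1 + E2 ≤ 2 * lam U + 4 * t ^ 2 * ∫ p, N p ^ 2 * ‖G p‖ ^ 2 := by
    rw [hE1, hE2, ← integral_add iQ1 iQ2, ← hGG, ← integral_const_mul, ← integral_const_mul,
      ← integral_add (iG.const_mul _) (iNG.const_mul _)]
    exact integral_mono (iQ1.add iQ2) ((iG.const_mul _).add (iNG.const_mul _))
      fun p => Q_sum hW ht N hN p (G p)
  -- masses
  have iu : Integrable (fun p => u p ^ 2) (volume : Measure V) := hmem.memu.integrable_sq
  have iuN : Integrable (fun p => u p ^ 2 * N p) (volume : Measure V) := by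
    refine (iu.const_mul B).mono' (iu.1.mul hNm.aestronglyMeasurable) ?_
    refine Eventually.of_forall fun p => ?_
    rw [Real.norm_eq_abs, abs_of_nonneg (mul_nonneg (sq_nonneg _) (hN0 p)), mul_comm]
    exact mul_le_mul_of_nonneg_right (hNB p) (sq_nonneg _)
  have iuW : Integrable (fun p => u p ^ 2 * wy Wf p) (volume : Measure V) := by
    refine iuN.mono' (iu.1.mul (wy_meas Wf).aestronglyMeasurable) ?_
    refine Eventually.of_forall fun p => ?_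
    rw [Real.norm_eq_abs, abs_mul, abs_of_nonneg (sq_nonneg (u p))]
    exact mul_le_mul_of_nonneg_left ((wy_le Wf p).trans (hN p)) (sq_nonneg _)
  set S := ∫ p, u p ^ 2 * wy Wf p with hS
  set JN := ∫ p, u p ^ 2 * N p with hJN
  have hSJ : |S| ≤ JN := by
    refine (abs_integral_le_integral_abs).trans ?_
    refine integral_mono iuW.abs iuN fun p => ?_
    show |u p ^ 2 * wy Wf p| ≤ _
    rw [abs_mul, abs_of_nonneg (sq_nonneg (u p))]
    exact mul_le_mul_of_nonneg_left ((wy_le Wf p).trans (hN p)) (sq_nonneg _)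
  have hMt : ∀ s : ℝ, ∫ p, u p ^ 2 * (1 + s * wy Wf p) = 1 + s * S := by
    intro s
    have e : (fun p => u p ^ 2 * (1 + s * wy Wf p)) =
        fun p => u p ^ 2 + s * (u p ^ 2 * wy Wf p) := by
      funext p; ring
    rw [e, integral_add iu (iuW.const_mul _), integral_const_mul, hu.norm]
  rw [hMt] at A1 A2
  have hM10 : 0 ≤ 1 + t * S := by
    rw [← hMt]
    refine integral_nonneg fun p => mul_nonneg (sq_nonneg _) ?_
    have := J_ge hW ht p
    linarith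
  have hM20 : 0 ≤ 1 + -t * S := by
    rw [← hMt]
    refine integral_nonneg fun p => mul_nonneg (sq_nonneg _) ?_
    have := J_ge hW ht' p
    linarith
  have hJN0 : 0 ≤ JN := (abs_nonneg _).trans hSJ
  have hS2 : S ^ 2 ≤ JN ^ 2 := by
    rw [sq_le_sq, abs_of_nonneg hJN0]
    exact hSJ
  have B1 : lt * ls * (1 - (t * JN) ^ 2) ≤ (lt * (1 + t * S)) * (ls * (1 + -t * S)) := by
    have h8 : 1 - (t * JN) ^ 2 ≤ (1 + t * S) * (1 + -t * S) := by
      have : t ^ 2 * S ^ 2 ≤ t ^ 2 * JN ^ 2 := mul_le_mul_of_nonneg_left hS2 (sq_nonneg t)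
      nlinarith
    have h9 := mul_le_mul_of_nonneg_left h8 (mul_nonneg L1 L2)
    refine h9.trans (le_of_eq ?_)
    ring
  have B2 : (lt * (1 + t * S)) * (ls * (1 + -t * S)) ≤ E1 * E2 :=
    mul_le_mul A1 A2 (mul_nonneg L2 hM20) hE10
  have B3 : E1 * E2 ≤ ((E1 + E2) / 2) ^ 2 := by nlinarith [sq_nonneg (E1 - E2)]
  have B4 : ((E1 + E2) / 2) ^ 2 ≤ (lam U + 2 * t ^ 2 * ∫ p, N p ^ 2 * ‖G p‖ ^ 2) ^ 2 := by
    apply pow_le_pow_left₀ (by linarith)
    linarith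
  exact B1.trans (B2.trans (B3.trans B4))

end Pool.Agent.H417R2.CH
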