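import Pool.Agent.H417R2.CH.Defs2
import Pool.Agent.Helper546.MaxPrinciple

/-!
Project CH, task UP: linear upper bound of the first eigenfunction at the boundary.
-/

set_option autoImplicit false
open MeasureTheory Metric Set Filter Topology
open scoped ContDiff InnerProductSpace ENNReal NNReal

namespace Pool.Agent.H417R2.CH

namespace UP

open Pool.Agent.Helper546 (cub contDiff_cub lap_cub lap_sub' two_le_infty lap)

/-- the barrier `D s - s ^ 2 / 2`, where `s x = c - ν₀ x₀ - ν₁ x₁` -/
noncomputable def bar (D c n0 n1 : ℝ) : V → ℝ :=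
  cub (D * c - c ^ 2 / 2) (-(D * n0) + c * n0) (-(n0 ^ 2 / 2)) (-(D * n1) + c * n1) (-(n1 ^ 2 / 2)) 0
    (-(n0 * n1)) 0

theorem bar_apply (D c n0 n1 : ℝ) (x : V) : bar D c n0 n1 x
    = D * (c - n0 * x 0 - n1 * x 1) - (c - n0 * x 0 - n1 * x 1) ^ 2 / 2 := by
  unfold bar cub
  ring

theorem lap_bar (D c n0 n1 : ℝ) (x : V) : lap (bar D c n0 n1) x = -(n0 ^ 2 + n1 ^ 2) := by
  unfold bar
  rw [lap_cub]
  ring

end UP

theorem t_UP : S_UP := by
  intro U u hU hE
  obtain ⟨M, hM⟩ := hU.bdd.subset_closedBall (0 : V)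
  have hMcl : ∀ x ∈ closure U, ‖x‖ ≤ M := by
    intro x hx
    have := closure_minimal hM isClosed_closedBall hx
    simpa [mem_closedBall, dist_eq_norm] using this
  obtain ⟨x0, hx0⟩ := hU.ne
  have hM0 : 0 ≤ M := (norm_nonneg x0).trans (hMcl x0 (subset_closure hx0))
  obtain ⟨B, hB⟩ := (hU.bdd.isCompact_closure).exists_bound_of_continuousOn hE.cont.continuousOn
  have hB0 : 0 ≤ B := (norm_nonneg _).trans (hB x0 (subset_closure hx0))
  have hub : ∀ x, u x ≤ B := by
    intro x
    by_cases hx : x ∈ U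
    · exact (le_abs_self _).trans (hB x (subset_closure hx))
    · rw [hE.zero x hx]; exact hB0
  have hlam := hE.lampos
  set D : ℝ := 2 * M + 1 with hD
  have hD0 : 0 < D := by rw [hD]; linarith
  refine ⟨B + lam U * B * D + 1, by positivity, ?_⟩
  intro P hP p
  have hCnn : 0 ≤ B + lam U * B * D + 1 := by positivity
  by_cases hp : p ∈ U
  swap
  · rw [hE.zero p hp]
    exact mul_nonneg hCnn dist_nonneg
  rcases le_or_gt 1 (dist p P) with hd | hd
  · have h1 : B + lam U * B * D + 1 ≤ (B + lam U * B * D + 1) * dist p P :=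
      le_mul_of_one_le_right hCnn hd
    have h2 : 0 ≤ lam U * B * D := by positivity
    linarith [hub p]
  -- the separating direction
  obtain ⟨f, hf⟩ := geometric_hahn_banach_open_point hU.convex hU.isOpen hP
  set n : V := (InnerProductSpace.toDual ℝ V).symm f with hn
  have hfn : ∀ x : V, f x = ⟪n, x⟫_ℝ := by
    intro x
    rw [hn, InnerProductSpace.toDual_symm_apply]
  have hnne : n ≠ 0 := by
    intro h
    have := hf x0 hx0
    rw [hfn, hfn, h] at this
    simp at this
  have hnpos : 0 < ‖n‖ := norm_pos_iff.2 hnne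
  set ν : V := ‖n‖⁻¹ • n with hν
  have hν1 : ‖ν‖ = 1 := by
    rw [hν, norm_smul, norm_inv, norm_norm, inv_mul_cancel₀ hnpos.ne']
  set s : V → ℝ := fun x => ⟪ν, P - x⟫_ℝ with hs
  have hs_eq : ∀ x, s x = ‖n‖⁻¹ * (f P - f x) := by
    intro x
    rw [hs]
    simp only
    rw [hν, real_inner_smul_left, inner_sub_right, hfn, hfn]
  have hscont : Continuous s := by rw [hs]; fun_prop
  have hspos : ∀ x ∈ U, 0 < s x := by
    intro x hx
    rw [hs_eq]
    have := hf x hx
    exact mul_pos (inv_pos.2 hnpos) (by linarith)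
  have hsnn : ∀ x ∈ closure U, 0 ≤ s x := by
    intro x hx
    have : closure U ⊆ {x | 0 ≤ s x} :=
      closure_minimal (fun y hy => (hspos y hy).le) (isClosed_le continuous_const hscont)
    exact this hx
  have hsle : ∀ x, s x ≤ ‖P - x‖ := by
    intro x
    have := real_inner_le_norm ν (P - x)
    rwa [hν1, one_mul] at this
  have hPn : ‖P‖ ≤ M + 1 := by
    have h1 := hMcl p (subset_closure hp)
    have h2 : ‖P‖ ≤ ‖p‖ + ‖P - p‖ := by
      have := norm_add_le p (P - p)
      simpa using this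
    rw [dist_eq_norm, norm_sub_rev] at hd
    linarith
  have hsD : ∀ x ∈ closure U, s x ≤ D := by
    intro x hx
    have h1 := hMcl x hx
    have h2 := norm_sub_le P x
    have := hsle x
    rw [hD]; linarith
  -- coordinates of the barrier
  set c : ℝ := ν 0 * P 0 + ν 1 * P 1 with hc
  have hscoord : ∀ x : V, c - ν 0 * x 0 - ν 1 * x 1 = s x := by
    intro x
    rw [hs, hc]
    simp only [PiLp.inner_apply, Fin.sum_univ_two, PiLp.sub_apply]
    simp
    ring
  have hνsq : ν 0 ^ 2 + ν 1 ^ 2 = 1 := by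
    have := Pool.Agent.Helper546.norm_sq_V ν
    rw [hν1] at this
    linarith
  set b : V → ℝ := UP.bar D c (ν 0) (ν 1) with hb
  have hbv : ∀ x, b x = D * s x - s x ^ 2 / 2 := by
    intro x
    rw [hb, UP.bar_apply, hscoord]
  have hbl : ∀ x, Pool.Agent.Helper546.lap b x = -1 := by
    intro x
    rw [hb, UP.lap_bar, hνsq]
  have hbC : ContDiff ℝ ∞ b := Pool.Agent.Helper546.contDiff_cub _ _ _ _ _ _ _ _
  have hu2 : ∀ x ∈ U, ContDiffAt ℝ 2 u x := fun x hx =>
    (hE.smooth.contDiffAt (hU.isOpen.mem_nhds hx)).of_le Pool.Agent.Helper546.two_le_infty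
  have hb2 : ∀ x, ContDiffAt ℝ 2 b x := fun x =>
    (hbC.of_le Pool.Agent.Helper546.two_le_infty).contDiffAt
  have hg := Pool.Agent.Helper546.max_principle_zero (D := U) hU.isOpen hU.bdd
    (g := fun x => u x - lam U * B * b x)
    (hE.cont.sub (continuous_const.mul hbC.continuous)).continuousOn
    (fun x hx => (hu2 x hx).sub (contDiffAt_const.mul (hb2 x)))
    (fun x hx _ => by
      rw [Pool.Agent.Helper546.lap_sub' (hu2 x hx) (hb2 x) (lam U * B), hE.pde x hx, hbl]
      have := mul_le_mul_of_nonneg_left (hub x) hlam.le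
      linarith)
    (fun x hx hxU => by
      rw [hE.zero x hxU, hbv]
      have h1 := hsnn x hx
      have h2 := hsD x hx
      have h3 : 0 ≤ D * s x - s x ^ 2 / 2 := by nlinarith
      have h4 : 0 ≤ lam U * B := by positivity
      nlinarith [mul_nonneg h4 h3])
    p (subset_closure hp)
  rw [hbv] at hg
  have h1 := hsle p
  have h4 : 0 ≤ lam U * B := by positivity
  have h5 : u p ≤ lam U * B * (D * ‖P - p‖) := by
    have h6 : D * s p - s p ^ 2 / 2 ≤ D * ‖P - p‖ := by
      have := mul_le_mul_of_nonneg_left h1 hD0.le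
      nlinarith [sq_nonneg (s p)]
    have := mul_le_mul_of_nonneg_left h6 h4
    linarith
  rw [dist_comm, dist_eq_norm]
  have h7 : 0 ≤ (B + 1) * ‖P - p‖ := by positivity
  nlinarith

end Pool.Agent.H417R2.CH
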