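import Pool.Agent.H417R2.CH.Defs2

/-!
Project CH, task VAR: the first variation inequality (helper9).
-/

set_option autoImplicit false
open MeasureTheory Metric Set Filter Topology
open scoped ContDiff InnerProductSpace ENNReal NNReal

namespace Pool.Agent.H417R2.CH

open Pool.Agent.Helper546 (Tst lap)

namespace VAR

theorem sqint {E : Type*} [NormedAddCommGroup E] {a : V → E}
    (ha : MemLp a 2 (volume : Measure V)) : Integrable (fun x => ‖a x‖ ^ 2) :=
  (memLp_two_iff_integrable_sq_norm ha.1).1 ha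

theorem inner_int {E : Type*} [NormedAddCommGroup E] [InnerProductSpace ℝ E] {a b : V → E}
    (ha : MemLp a 2 (volume : Measure V)) (hb : MemLp b 2 (volume : Measure V)) :
    Integrable (fun x => ⟪a x, b x⟫_ℝ) := by
  refine Integrable.mono' ((sqint ha).add (sqint hb)) (ha.1.inner hb.1) ?_
  refine Eventually.of_forall fun x => ?_
  have h1 := norm_inner_le_norm (𝕜 := ℝ) (a x) (b x)
  simp only [Pi.add_apply]
  nlinarith [sq_nonneg (‖a x‖ - ‖b x‖), norm_nonneg (a x), norm_nonneg (b x),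
    mul_nonneg (norm_nonneg (a x)) (norm_nonneg (b x))]

theorem young {E : Type*} [NormedAddCommGroup E] [InnerProductSpace ℝ E] {a b : V → E}
    (ha : MemLp a 2 (volume : Measure V)) (hb : MemLp b 2 (volume : Measure V)) {η : ℝ}
    (hη : 0 < η) :
    |∫ x, ⟪a x, b x⟫_ℝ| ≤ 1 / (2 * η) * (∫ x, ‖a x‖ ^ 2) + η / 2 * (∫ x, ‖b x‖ ^ 2) := by
  rw [← integral_const_mul, ← integral_const_mul, ← integral_add ((sqint ha).const_mul _)
    ((sqint hb).const_mul _)]
  rw [← Real.norm_eq_abs]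
  refine norm_integral_le_of_norm_le (((sqint ha).const_mul _).add ((sqint hb).const_mul _)) ?_
  refine Eventually.of_forall fun x => ?_
  have h1 := norm_inner_le_norm (𝕜 := ℝ) (a x) (b x)
  refine h1.trans ?_
  have h2 : 1 / (2 * η) * ‖a x‖ ^ 2 + η / 2 * ‖b x‖ ^ 2 - ‖a x‖ * ‖b x‖ =
      1 / (2 * η) * (‖a x‖ - η * ‖b x‖) ^ 2 := by
    field_simp
    ring
  have h3 : 0 ≤ 1 / (2 * η) * (‖a x‖ - η * ‖b x‖) ^ 2 := by positivity
  linarith

theorem grad_apply (f : V → ℝ) (x : V) (i : Fin 2) :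
    (gradient f x) i = Pool.Agent.Helper546.dd i f x := by
  have h : ⟪gradient f x, Pool.Agent.Helper546.ee i⟫_ℝ = fderiv ℝ f x (Pool.Agent.Helper546.ee i) :=
    InnerProductSpace.toDual_symm_apply
  unfold Pool.Agent.Helper546.dd
  rw [← h]
  unfold Pool.Agent.Helper546.ee
  rw [EuclideanSpace.inner_single_right]
  simp

theorem inner_grad (f g : V → ℝ) (x : V) : ⟪gradient f x, gradient g x⟫_ℝ =
    Pool.Agent.Helper546.dd 0 f x * Pool.Agent.Helper546.dd 0 g x +
      Pool.Agent.Helper546.dd 1 f x * Pool.Agent.Helper546.dd 1 g x := by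
  rw [PiLp.inner_apply, Fin.sum_univ_two, grad_apply, grad_apply, grad_apply, grad_apply]
  simp only [RCLike.inner_apply, conj_trivial]
  ring

theorem grad_cont {f : V → ℝ} (hf : ContDiff ℝ ∞ f) : Continuous (gradient f) := by
  have h : Continuous (fderiv ℝ f) := hf.continuous_fderiv (by simp)
  exact (LinearIsometryEquiv.continuous _).comp h

theorem grad_supp {f : V → ℝ} (hf : HasCompactSupport f) : HasCompactSupport (gradient f) := by
  have h : HasCompactSupport (fderiv ℝ f) := hf.fderiv ℝ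
  exact h.comp_left (g := (InnerProductSpace.toDual ℝ V).symm) (map_zero _)

theorem grad_mem {f : V → ℝ} {U : Set V} (hf : Tst U f) :
    MemLp (gradient f) 2 (volume : Measure V) :=
  (grad_cont hf.1).memLp_of_hasCompactSupport (grad_supp hf.2.1)

theorem tst_mem {f : V → ℝ} {U : Set V} (hf : Tst U f) : MemLp f 2 (volume : Measure V) :=
  hf.1.continuous.memLp_of_hasCompactSupport hf.2.1

theorem lap_tst {f : V → ℝ} {U : Set V} (hf : Tst U f) : Tst U (lap f) :=
  ((hf.dd 0).dd 0).add ((hf.dd 1).dd 1)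

theorem ibp_grad {f g : V → ℝ} (hf : Tst univ f) (hg : Tst univ g) :
    ∫ x, ⟪gradient f x, gradient g x⟫_ℝ = - ∫ x, f x * lap g x := by
  have hf' : ContDiffOn ℝ ∞ f univ := hf.1.contDiffOn
  have key : ∀ i : Fin 2, ∫ x, Pool.Agent.Helper546.dd i f x * Pool.Agent.Helper546.dd i g x =
      - ∫ x, f x * Pool.Agent.Helper546.dd i (Pool.Agent.Helper546.dd i g) x := by
    intro i
    rw [Pool.Agent.Helper546.ibp isOpen_univ i hf' (hg.dd i), neg_neg]
  have i1 : ∀ i : Fin 2, Integrable (fun x => Pool.Agent.Helper546.dd i f x *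
      Pool.Agent.Helper546.dd i g x) := fun i =>
    Pool.Agent.Helper546.integrable_mul_of_tsupport isOpen_univ
      (hf.dd i).1.continuous.continuousOn (hg.dd i).1.continuous (hg.dd i).2.2 (hg.dd i).2.1
  have i2 : ∀ i : Fin 2, Integrable (fun x => f x *
      Pool.Agent.Helper546.dd i (Pool.Agent.Helper546.dd i g) x) := fun i =>
    Pool.Agent.Helper546.integrable_mul_of_tsupport isOpen_univ
      hf.1.continuous.continuousOn ((hg.dd i).dd i).1.continuous ((hg.dd i).dd i).2.2
      ((hg.dd i).dd i).2.1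
  simp only [inner_grad, lap, mul_add]
  rw [integral_add (i1 0) (i1 1), integral_add (i2 0) (i2 1), key, key]
  ring

/-- the weak form of integration by parts for functions in `H¹₀` -/
theorem ibp_H10 {U : Set V} {u ψ : V → ℝ} {G : V → V} (h : H10 U u G) (hψ : Tst univ ψ) :
    ∫ x, ⟪G x, gradient ψ x⟫_ℝ = - ∫ x, u x * lap ψ x := by
  have hgψ := grad_mem hψ
  have hlψ := tst_mem (lap_tst hψ)
  set C1 : ℝ := ∫ x, ‖gradient ψ x‖ ^ 2 with hC1
  set C2 : ℝ := ∫ x, ‖lap ψ x‖ ^ 2 with hC2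
  have hC1' : 0 ≤ C1 := integral_nonneg fun x => by positivity
  have hC2' : 0 ≤ C2 := integral_nonneg fun x => by positivity
  have hest : ∀ η : ℝ, 0 < η →
      |(∫ x, ⟪G x, gradient ψ x⟫_ℝ) + (∫ x, u x * lap ψ x)| ≤ η / 2 * (2 + C1 + C2) := by
    intro η hη
    obtain ⟨φ, hφ, hφ1, hφ2⟩ := h.approx (η ^ 2) (by positivity)
    have hφu := hφ.univ
    have hgφ := grad_mem hφ
    have hmφ := tst_mem hφ
    have e0 := ibp_grad hφu hψ
    have e1 : ∫ x, ⟪G x - gradient φ x, gradient ψ x⟫_ℝ =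
        (∫ x, ⟪G x, gradient ψ x⟫_ℝ) - (∫ x, ⟪gradient φ x, gradient ψ x⟫_ℝ) := by
      rw [← integral_sub (inner_int h.memG hgψ) (inner_int hgφ hgψ)]
      exact integral_congr_ae (Eventually.of_forall fun x => inner_sub_left _ _ _)
    have e2 : ∫ x, ⟪u x - φ x, lap ψ x⟫_ℝ =
        (∫ x, u x * lap ψ x) - (∫ x, φ x * lap ψ x) := by
      have i1 := inner_int h.memu hlψ
      have i2 := inner_int hmφ hlψ
      simp only [RCLike.inner_apply, conj_trivial] at i1 i2 ⊢
      have c1 : (fun x => u x * lap ψ x) = fun x => lap ψ x * u x := by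
        funext x
        ring
      have c2 : (fun x => φ x * lap ψ x) = fun x => lap ψ x * φ x := by
        funext x
        ring
      rw [c1, c2, ← integral_sub i1 i2]
      refine integral_congr_ae (Eventually.of_forall fun x => ?_)
      simp only
      ring
    have y1 := young (h.memG.sub hgφ) hgψ hη
    have y2 := young (h.memu.sub hmφ) hlψ hη
    simp only [Pi.sub_apply] at y1 y2
    rw [e1] at y1
    rw [e2] at y2
    have n2 : ∫ x, ‖u x - φ x‖ ^ 2 = ∫ x, (u x - φ x) ^ 2 :=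
      integral_congr_ae (Eventually.of_forall fun x => by
        simp only [Real.norm_eq_abs, sq_abs])
    rw [n2] at y2
    have z1 : 1 / (2 * η) * (∫ x, ‖G x - gradient φ x‖ ^ 2) ≤ η / 2 := by
      calc 1 / (2 * η) * (∫ x, ‖G x - gradient φ x‖ ^ 2) ≤ 1 / (2 * η) * η ^ 2 := by
            gcongr
        _ = η / 2 := by field_simp
    have z2 : 1 / (2 * η) * (∫ x, (u x - φ x) ^ 2) ≤ η / 2 := by
      calc 1 / (2 * η) * (∫ x, (u x - φ x) ^ 2) ≤ 1 / (2 * η) * η ^ 2 := by
            gcongr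
        _ = η / 2 := by field_simp
    have hsum : (∫ x, ⟪G x, gradient ψ x⟫_ℝ) + (∫ x, u x * lap ψ x) =
        ((∫ x, ⟪G x, gradient ψ x⟫_ℝ) - (∫ x, ⟪gradient φ x, gradient ψ x⟫_ℝ)) +
        ((∫ x, u x * lap ψ x) - (∫ x, φ x * lap ψ x)) := by
      rw [e0]
      ring
    rw [hsum]
    refine (abs_add_le _ _).trans ?_
    have : η / 2 * (2 + C1 + C2) = (η / 2 + η / 2 * C1) + (η / 2 + η / 2 * C2) := by ring
    rw [this]
    exact add_le_add (y1.trans (add_le_add z1 le_rfl)) (y2.trans (add_le_add z2 le_rfl))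
  have hzero : |(∫ x, ⟪G x, gradient ψ x⟫_ℝ) + (∫ x, u x * lap ψ x)| ≤ 0 := by
    apply le_of_forall_pos_le_add
    intro ε hε
    have hD : 0 < 2 + C1 + C2 := by linarith
    have := hest (2 * ε / (2 + C1 + C2)) (by positivity)
    refine this.trans (le_of_eq ?_)
    field_simp
    ring
  have := abs_nonpos_iff.1 hzero
  linarith

end VAR

open VAR in
theorem t_VAR (h1 : S_HADD) (h2 : S_HLAM) : S_VAR := by
  intro U U' u ψ ψ' K' hU hU' hsub hE hψ hψ' hpos heq hK hB hEpos
  set B : ℝ := ∫ x, u x * lap ψ x with hBd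
  set E : ℝ := ∫ x, ‖K' x‖ ^ 2 with hEd
  set d : ℝ := B / E with hd
  have hd0 : 0 ≤ d := div_nonneg hB hEpos.le
  obtain ⟨hlam0, hlam⟩ := h2 U' hU'.isOpen hU'.ne
  have hu' : H10 U' u (gd U u) := h1.2 U U' u (gd U u) hsub hE.mem
  have hw := h1.1 U' u ψ' (gd U u) K' 1 d hu' hψ'
  have hray := hlam _ _ hw
  -- the gradient term
  have hGG : ∫ x, ‖gd U u x‖ ^ 2 = lam U := by
    have := hE.weak u (gd U u) hE.mem
    have e1 : ∫ x, ⟪gd U u x, gd U u x⟫_ℝ = ∫ x, ‖gd U u x‖ ^ 2 :=
      integral_congr_ae (Eventually.of_forall fun x => real_inner_self_eq_norm_sq _)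
    have e2 : ∫ x, u x * u x = 1 := by
      rw [← hE.norm]
      exact integral_congr_ae (Eventually.of_forall fun x => (sq (u x)).symm)
    rw [e1, e2, mul_one] at this
    exact this
  have hGK : ∫ x, ⟪gd U u x, K' x⟫_ℝ = - B := by
    rw [hBd, ← ibp_H10 hE.mem hψ]
    refine integral_congr_ae (Eventually.of_forall fun x => ?_)
    by_cases hx : x ∈ U
    · simp only [hK x hx]
    · have : gd U u x = 0 := by
        unfold gd
        exact indicator_of_notMem hx _
      simp only [this, inner_zero_left]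
  have hexp : ∫ x, ‖(1 : ℝ) • gd U u x + d • K' x‖ ^ 2 = lam U - 2 * d * B + d ^ 2 * E := by
    have i1 := sqint hE.mem.memG
    have i2 := inner_int hE.mem.memG hψ'.memG
    have i3 := sqint hψ'.memG
    have e : ∀ x, ‖(1 : ℝ) • gd U u x + d • K' x‖ ^ 2 =
        ‖gd U u x‖ ^ 2 + (2 * d * ⟪gd U u x, K' x⟫_ℝ + d ^ 2 * ‖K' x‖ ^ 2) := by
      intro x
      rw [one_smul, norm_add_sq_real, norm_smul, inner_smul_right, mul_pow, Real.norm_eq_abs,
        sq_abs]
      ring
    simp only [e]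
    have i23 : Integrable (fun x => 2 * d * ⟪gd U u x, K' x⟫_ℝ + d ^ 2 * ‖K' x‖ ^ 2) :=
      (i2.const_mul _).add (i3.const_mul _)
    rw [integral_add i1 i23,
      integral_add (i2.const_mul _) (i3.const_mul _), integral_const_mul, integral_const_mul,
      hGG, hGK]
    ring
  have hsq : 1 ≤ ∫ x, (1 * u x + d * ψ' x) ^ 2 := by
    have j1 : Integrable (fun x => u x ^ 2) := by
      have := sqint hE.mem.memu
      simpa only [Real.norm_eq_abs, sq_abs] using this
    have j2 : Integrable (fun x => (1 * u x + d * ψ' x) ^ 2) := by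
      have := sqint hw.memu
      simpa only [Real.norm_eq_abs, sq_abs] using this
    refine hE.norm.symm.le.trans (integral_mono j1 j2 fun x => ?_)
    have hux : 0 ≤ u x := by
      by_cases hx : x ∈ U
      · exact (hE.pos x hx).le
      · exact (hE.zero x hx).ge
    have h3 : 0 ≤ d * ψ' x := mul_nonneg hd0 (hpos x)
    have h4 : u x ≤ 1 * u x + d * ψ' x := by linarith
    exact pow_le_pow_left₀ hux h4 2
  have hfin : lam U' ≤ lam U - 2 * d * B + d ^ 2 * E := by
    calc lam U' = lam U' * 1 := (mul_one _).symm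
      _ ≤ lam U' * ∫ x, (1 * u x + d * ψ' x) ^ 2 := mul_le_mul_of_nonneg_left hsq hlam0
      _ ≤ _ := hray.trans (le_of_eq hexp)
  refine hfin.trans (le_of_eq ?_)
  rw [hd]
  field_simp
  ring

end Pool.Agent.H417R2.CH
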