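import Pool.Agent.H417R2.CH.Defs2

/-!
Project CH (helper417), task VTX: a point on one side line of the polygon which satisfies the two
neighbouring constraints is in the polygon.
-/

set_option autoImplicit false
open MeasureTheory Metric Set Filter Topology
open scoped ContDiff InnerProductSpace ENNReal NNReal

namespace Pool.Agent.H417R2.CH

namespace VTX

theorem inner_ev (x : V) (θ : ℝ) : ⟪x, ev θ⟫_ℝ = x 0 * Real.cos θ + x 1 * Real.sin θ := by
  rw [real_inner_comm]
  simp [ev, pt, PiLp.inner_apply, Fin.sum_univ_two]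

/-- discrete Sturm comparison -/
theorem sturm (al : ℝ) (hal : 0 < al) (v : ℕ → ℝ) (h0 : v 0 = 0) (h1 : v 1 ≤ 0)
    (hv : ∀ k, v (k + 2) + v k ≤ 2 * Real.cos al * v (k + 1)) :
    ∀ k : ℕ, (k : ℝ) * al ≤ Real.pi → v k ≤ 0 := by
  have hs : ∀ k : ℕ, (k : ℝ) * al ≤ Real.pi → 0 ≤ Real.sin (k * al) := by
    intro k hk
    exact Real.sin_nonneg_of_nonneg_of_le_pi (by positivity) hk
  have hrec : ∀ k : ℕ, Real.sin ((k + 2 : ℕ) * al) + Real.sin (k * al) =
      2 * Real.cos al * Real.sin ((k + 1 : ℕ) * al) := by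
    intro k
    have e1 : ((k + 2 : ℕ) : ℝ) * al = ((k + 1 : ℕ) : ℝ) * al + al := by push_cast; ring
    have e2 : (k : ℝ) * al = ((k + 1 : ℕ) : ℝ) * al - al := by push_cast; ring
    rw [e1, e2, Real.sin_add, Real.sin_sub]
    ring
  have hD : ∀ k : ℕ, (k : ℝ) * al ≤ Real.pi →
      v (k + 1) * Real.sin (k * al) ≤ v k * Real.sin ((k + 1 : ℕ) * al) := by
    intro k
    induction k with
    | zero =>
      intro _
      simp [h0]
    | succ k ih =>
      intro hk
      have hk' : (k : ℝ) * al ≤ Real.pi := by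
        refine le_trans ?_ hk
        push_cast
        nlinarith
      have h2 := ih hk'
      have h3 := hrec k
      have h4 := hv k
      have h5 := mul_le_mul_of_nonneg_right h4 (hs (k + 1) hk)
      have e : k + 1 + 1 = k + 2 := rfl
      rw [e]
      have e3 : Real.sin ((k + 2 : ℕ) * al) =
        2 * Real.cos al * Real.sin ((k + 1 : ℕ) * al) - Real.sin (k * al) := by linarith
      rw [e3]
      nlinarith
  intro k
  induction k with
  | zero => intro _; exact h0.le
  | succ k ih =>
    intro hk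
    rcases Nat.eq_zero_or_pos k with rfl | hkp
    · simpa using h1
    have hk' : (k : ℝ) * al < Real.pi := by
      refine lt_of_lt_of_le ?_ hk
      push_cast
      nlinarith
    have h2 := ih hk'.le
    have h3 := hD k hk'.le
    have h4 := hs (k + 1) hk
    have h5 : 0 < Real.sin (k * al) := by
      apply Real.sin_pos_of_pos_of_lt_pi _ hk'
      have : (0 : ℝ) < k := by exact_mod_cast hkp
      positivity
    have h6 : v k * Real.sin ((k + 1 : ℕ) * al) ≤ 0 := mul_nonpos_of_nonpos_of_nonneg h2 h4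
    by_contra hc
    push Not at hc
    have := mul_pos hc h5
    linarith

end VTX

theorem t_VTX : S_VTX := by
  intro n h hn hS i x hx0 hx1 hx2
  have hn0 : (0 : ℝ) < n := by
    have : 0 < n := by omega
    exact_mod_cast this
  have hal : 0 < 2 * Real.pi / n := by have := Real.pi_pos; positivity
  have hang : ∀ j k : ℤ, ang n (j + k) = ang n j + k * (2 * Real.pi / n) := by
    intro j k
    unfold ang
    push_cast
    ring
  obtain ⟨w, hw⟩ : ∃ w : ℤ → ℝ, w = fun j => ⟪x, ev (ang n j)⟫_ℝ - h j := ⟨_, rfl⟩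
  have hwj : ∀ j, w j = ⟪x, ev (ang n j)⟫_ℝ - h j := fun j => by rw [hw]
  have hper : Function.Periodic w (n : ℤ) := by
    intro j
    rw [hwj, hwj, hS.per j]
    have : ang n (j + n) = ang n j + 2 * Real.pi := by
      rw [hang]
      congr 1
      have : ((n : ℤ) : ℝ) = n := by norm_cast
      rw [this]
      field_simp
    rw [this, VTX.inner_ev, VTX.inner_ev, Real.cos_add_two_pi, Real.sin_add_two_pi]
  have hconv : ∀ j, w (j + 1) + w (j - 1) ≤ 2 * Real.cos (2 * Real.pi / n) * w j := by
    intro j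
    have hc := hS.conv j
    rw [hwj, hwj, hwj, VTX.inner_ev, VTX.inner_ev, VTX.inner_ev]
    have e1 : ang n (j + 1) = ang n j + 2 * Real.pi / n := by
      rw [hang]; push_cast; ring
    have e2 : ang n (j - 1) = ang n j - 2 * Real.pi / n := by
      rw [sub_eq_add_neg, hang]; push_cast; ring
    rw [e1, e2, Real.cos_add, Real.cos_sub, Real.sin_add, Real.sin_sub]
    nlinarith
  have hw0 : w i = 0 := by rw [hwj, hx0, sub_self]
  have hw1 : w (i + 1) ≤ 0 := by rw [hwj]; linarith
  have hw2 : w (i - 1) ≤ 0 := by rw [hwj]; linarith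
  have hle : ∀ k : ℕ, 2 * k ≤ n → (k : ℝ) * (2 * Real.pi / n) ≤ Real.pi := by
    intro k hk
    have hk' : (2 : ℝ) * k ≤ n := by exact_mod_cast hk
    have e : (k : ℝ) * (2 * Real.pi / n) = (2 * k) * Real.pi / n := by ring
    rw [e, div_le_iff₀ hn0]
    have := Real.pi_pos
    nlinarith
  have hA : ∀ k : ℕ, 2 * k ≤ n → w (i + k) ≤ 0 := by
    intro k hk
    refine VTX.sturm (2 * Real.pi / n) hal (fun k => w (i + k)) ?_ ?_ ?_ k (hle k hk)
    · simpa using hw0
    · simpa using hw1
    · intro k
      have := hconv (i + k + 1)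
      have e1 : i + (k : ℤ) + 1 + 1 = i + ((k + 2 : ℕ) : ℤ) := by push_cast; ring
      have e2 : i + (k : ℤ) + 1 - 1 = i + (k : ℤ) := by ring
      have e3 : i + (k : ℤ) + 1 = i + ((k + 1 : ℕ) : ℤ) := by push_cast; ring
      rw [e1, e2, e3] at this
      exact this
  have hB : ∀ k : ℕ, 2 * k ≤ n → w (i - k) ≤ 0 := by
    intro k hk
    refine VTX.sturm (2 * Real.pi / n) hal (fun k => w (i - k)) ?_ ?_ ?_ k (hle k hk)
    · simpa using hw0
    · simpa using hw2
    · intro k
      have := hconv (i - k - 1)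
      have e1 : i - (k : ℤ) - 1 - 1 = i - ((k + 2 : ℕ) : ℤ) := by push_cast; ring
      have e2 : i - (k : ℤ) - 1 + 1 = i - (k : ℤ) := by ring
      have e3 : i - (k : ℤ) - 1 = i - ((k + 1 : ℕ) : ℤ) := by push_cast; ring
      rw [e1, e2, e3] at this
      linarith
  intro j
  have hgoal : w j ≤ 0 := by
    have hnz : (0 : ℤ) < n := by omega
    have hm0 := Int.emod_nonneg (j - i) hnz.ne'
    have hm1 := Int.emod_lt_of_pos (j - i) hnz
    have hdm := Int.emod_add_mul_ediv (j - i) n
    obtain ⟨m, hm⟩ := Int.eq_ofNat_of_zero_le hm0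
    have hj : w j = w (i + m) := by
      have e : j = i + m + ((j - i) / n) * n := by
        rw [hm] at hdm
        linarith
      rw [e]
      exact hper.int_mul _ _
    rw [hj]
    by_cases h2 : 2 * m ≤ n
    · exact hA m h2
    · have hmn : m < n := by
        rw [hm] at hm1
        exact_mod_cast hm1
      have := hB (n - m) (by omega)
      have e : i - ((n - m : ℕ) : ℤ) + n = i + m := by
        rw [Nat.cast_sub hmn.le]; ring
      rw [← hper, e] at this
      exact this
  rw [hwj] at hgoal
  linarith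

end Pool.Agent.H417R2.CH
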