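import Pool.Agent.H417R2.CH.Defs2

/-! WB: basic properties of the support function and of the perimeter. -/

set_option autoImplicit false
open MeasureTheory Metric Set Filter Topology
open scoped ContDiff InnerProductSpace ENNReal NNReal Pointwise

namespace Pool.Agent.H417R2.CH

namespace WB

lemma ev_cont : Continuous ev := by
  unfold ev pt
  apply (PiLp.continuous_toLp 2 _).comp
  apply continuous_pi
  intro i
  fin_cases i
  · exact Real.continuous_cos
  · exact Real.continuous_sin

lemma ev_norm (θ : ℝ) : ‖ev θ‖ = 1 := by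
  unfold ev pt
  rw [EuclideanSpace.norm_eq, Fin.sum_univ_two]
  simp

lemma ev_add_pi (θ : ℝ) : ev (θ + Real.pi) = -ev θ := by
  unfold ev pt
  rw [Real.cos_add_pi, Real.sin_add_pi]
  ext i
  fin_cases i <;> simp

lemma img_compact {K : Set V} (hK : IsCompact K) (θ : ℝ) :
    IsCompact ((fun x : V => ⟪x, ev θ⟫_ℝ) '' K) :=
  hK.image (by fun_prop)

lemma le_hs {K : Set V} (hK : IsCompact K) {x : V} (hx : x ∈ K) (θ : ℝ) :
    ⟪x, ev θ⟫_ℝ ≤ hs K θ :=
  le_csSup (img_compact hK θ).bddAbove (mem_image_of_mem _ hx)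

lemma hs_le {K : Set V} (hne : K.Nonempty) {θ c : ℝ} (h : ∀ x ∈ K, ⟪x, ev θ⟫_ℝ ≤ c) :
    hs K θ ≤ c := by
  apply csSup_le (hne.image _)
  rintro _ ⟨x, hx, rfl⟩
  exact h x hx

lemma hs_cont {K : Set V} (hK : IsCompact K) : Continuous (hs K) := by
  have h : Continuous (fun p : ℝ × V => ⟪p.2, ev p.1⟫_ℝ) :=
    Continuous.inner continuous_snd (ev_cont.comp continuous_fst)
  exact hK.continuous_sSup (f := fun (θ : ℝ) (x : V) => ⟪x, ev θ⟫_ℝ) h

lemma hs_mono {K K' : Set V} (hK' : IsCompact K') (hne : K.Nonempty) (h : K ⊆ K') (θ : ℝ) :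
    hs K θ ≤ hs K' θ :=
  hs_le hne fun _ hx => le_hs hK' (h hx) θ

lemma hs_cthickening {K : Set V} (hK : IsCompact K) (hne : K.Nonempty) {δ : ℝ} (hδ : 0 ≤ δ)
    (θ : ℝ) : hs (cthickening δ K) θ = hs K θ + δ := by
  have hc : IsCompact (cthickening δ K) := hK.cthickening
  have hsub : K ⊆ cthickening δ K := self_subset_cthickening K
  apply le_antisymm
  · apply hs_le (hne.mono hsub)
    intro x hx
    rw [← hK.add_closedBall_zero hδ] at hx
    obtain ⟨y, hy, z, hz, rfl⟩ := Set.mem_add.1 hx
    rw [mem_closedBall_zero_iff] at hz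
    rw [inner_add_left]
    have h1 := le_hs hK hy θ
    have h2 : ⟪z, ev θ⟫_ℝ ≤ ‖z‖ * ‖ev θ‖ := real_inner_le_norm _ _
    rw [ev_norm, mul_one] at h2
    linarith
  · have h : hs K θ ≤ hs (cthickening δ K) θ - δ := by
      apply hs_le hne
      intro y hy
      have hmem : y + δ • ev θ ∈ cthickening δ K := by
        rw [← hK.add_closedBall_zero hδ]
        apply Set.add_mem_add hy
        rw [mem_closedBall_zero_iff, norm_smul, ev_norm, mul_one, Real.norm_eq_abs,
          abs_of_nonneg hδ]
      have h1 := le_hs hc hmem θ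
      rw [inner_add_left, real_inner_smul_left, real_inner_self_eq_norm_sq, ev_norm] at h1
      linarith
    linarith

lemma hs_add_pi_nonneg {K : Set V} (hK : IsCompact K) (hne : K.Nonempty) (θ : ℝ) :
    0 ≤ hs K θ + hs K (θ + Real.pi) := by
  obtain ⟨x, hx⟩ := hne
  have h1 := le_hs hK hx θ
  have h2 := le_hs hK hx (θ + Real.pi)
  rw [ev_add_pi, inner_neg_right] at h2
  linarith

lemma hs_int {K : Set V} (hK : IsCompact K) (a b : ℝ) :
    IntervalIntegrable (hs K) volume a b :=
  (hs_cont hK).intervalIntegrable a b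

end WB

open WB

theorem t_WB : S_WB := by
  refine ⟨fun K hK _ => hs_cont hK, ?_, ?_, ?_⟩
  · intro K K' hK hK' hne h
    unfold W
    exact intervalIntegral.integral_mono_on (by positivity) (hs_int hK _ _) (hs_int hK' _ _)
      (fun θ _ => hs_mono hK' hne h θ)
  · intro K hK hne δ hδ
    unfold W
    have h1 : ∫ θ in (0 : ℝ)..(2 * Real.pi), hs (cthickening δ K) θ
        = ∫ θ in (0 : ℝ)..(2 * Real.pi), (hs K θ + δ) := by
      apply intervalIntegral.integral_congr
      intro θ _
      exact hs_cthickening hK hne hδ θ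
    rw [h1, intervalIntegral.integral_add (hs_int hK _ _) intervalIntegrable_const,
      intervalIntegral.integral_const, sub_zero, smul_eq_mul]
  · intro K hK hne
    unfold W
    have h1 : ∫ θ in (0 : ℝ)..(2 * Real.pi), hs K θ
        = ∫ θ in (0 : ℝ)..Real.pi, (hs K θ + hs K (θ + Real.pi)) := by
      have h2 : IntervalIntegrable (fun θ => hs K (θ + Real.pi)) volume 0 Real.pi :=
        ((hs_cont hK).comp (continuous_add_const Real.pi)).intervalIntegrable _ _
      rw [intervalIntegral.integral_add (hs_int hK _ _) h2,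
        intervalIntegral.integral_comp_add_right (fun θ => hs K θ) Real.pi, zero_add,
        ← two_mul, intervalIntegral.integral_add_adjacent_intervals (hs_int hK _ _)
          (hs_int hK _ _)]
    rw [h1]
    exact intervalIntegral.integral_nonneg Real.pi_pos.le
      (fun θ _ => hs_add_pi_nonneg hK hne θ)

end Pool.Agent.H417R2.CH
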