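import Pool.Agent.H417R2.CH.Defs2

/-!
WID: width representation of `W` for the hull of a connected open set.
-/

set_option autoImplicit false
open MeasureTheory Metric Set Filter Topology
open scoped ContDiff InnerProductSpace ENNReal NNReal

namespace Pool.Agent.H417R2.CH

namespace WID

theorem ev_continuous : Continuous ev := by
  unfold ev pt
  have : Continuous (fun θ : ℝ => (![Real.cos θ, Real.sin θ] : Fin 2 → ℝ)) := by
    apply continuous_pi
    intro i
    fin_cases i
    · exact Real.continuous_cos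
    · exact Real.continuous_sin
  exact (PiLp.continuous_toLp 2 (fun _ : Fin 2 => ℝ)).comp this

theorem ev_periodic : Function.Periodic ev (2 * Real.pi) := by
  intro θ
  unfold ev
  rw [Real.cos_add_two_pi, Real.sin_add_two_pi]

theorem ev_add_pi (θ : ℝ) : ev (θ + Real.pi) = -ev θ := by
  unfold ev pt
  rw [Real.cos_add_pi, Real.sin_add_pi]
  ext i
  fin_cases i <;> simp

theorem hs_continuous {K : Set V} (hK : IsCompact K) : Continuous (hs K) := by
  unfold hs
  have hf : Continuous (fun p : ℝ × V => ⟪p.2, ev p.1⟫_ℝ) :=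
    continuous_snd.inner (ev_continuous.comp continuous_fst)
  exact hK.continuous_sSup (f := fun (θ : ℝ) (x : V) => ⟪x, ev θ⟫_ℝ) hf

theorem hs_periodic (K : Set V) : Function.Periodic (hs K) (2 * Real.pi) := by
  intro θ
  unfold hs
  rw [ev_periodic θ]

theorem img_bddAbove {C : Set V} (hb : Bornology.IsBounded C) (w : V) :
    BddAbove ((fun x : V => ⟪x, w⟫_ℝ) '' C) := by
  obtain ⟨M, hM⟩ := hb.exists_norm_le
  refine ⟨M * ‖w‖, ?_⟩
  rintro _ ⟨x, hx, rfl⟩
  calc ⟪x, w⟫_ℝ ≤ ‖x‖ * ‖w‖ := real_inner_le_norm x w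
    _ ≤ M * ‖w‖ := mul_le_mul_of_nonneg_right (hM x hx) (norm_nonneg _)

theorem img_bddBelow {C : Set V} (hb : Bornology.IsBounded C) (w : V) :
    BddBelow ((fun x : V => ⟪x, w⟫_ℝ) '' C) := by
  obtain ⟨M, hM⟩ := img_bddAbove hb (-w)
  refine ⟨-M, ?_⟩
  rintro _ ⟨x, hx, rfl⟩
  have := hM ⟨x, hx, rfl⟩
  simp only [inner_neg_right] at this
  simp only
  linarith

/-- the support function of the closed convex hull -/
theorem hs_hull {C : Set V} (hne : C.Nonempty) (hb : Bornology.IsBounded C) (θ : ℝ) :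
    hs (closure (convexHull ℝ C)) θ = sSup ((fun x : V => ⟪x, ev θ⟫_ℝ) '' C) := by
  unfold hs
  have hsub : C ⊆ closure (convexHull ℝ C) := (subset_convexHull ℝ C).trans subset_closure
  have hup : ∀ x ∈ closure (convexHull ℝ C), ⟪x, ev θ⟫_ℝ ≤
      sSup ((fun x : V => ⟪x, ev θ⟫_ℝ) '' C) := by
    set s := sSup ((fun x : V => ⟪x, ev θ⟫_ℝ) '' C) with hs
    have hcl : IsClosed {x : V | ⟪x, ev θ⟫_ℝ ≤ s} :=
      isClosed_le (continuous_id.inner continuous_const) continuous_const
    have hcv : Convex ℝ {x : V | ⟪x, ev θ⟫_ℝ ≤ s} := by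
      intro x hx y hy a b ha hb' hab
      simp only [Set.mem_ofPred_eq] at hx hy ⊢
      rw [inner_add_left, real_inner_smul_left, real_inner_smul_left]
      calc a * ⟪x, ev θ⟫_ℝ + b * ⟪y, ev θ⟫_ℝ ≤ a * s + b * s :=
            add_le_add (mul_le_mul_of_nonneg_left hx ha) (mul_le_mul_of_nonneg_left hy hb')
        _ = s := by rw [← add_mul, hab, one_mul]
    have hC : C ⊆ {x : V | ⟪x, ev θ⟫_ℝ ≤ s} := fun x hx =>
      le_csSup (img_bddAbove hb _) ⟨x, hx, rfl⟩
    exact closure_minimal (convexHull_min hC hcv) hcl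
  apply le_antisymm
  · apply csSup_le ((hne.mono hsub).image _)
    rintro _ ⟨x, hx, rfl⟩
    exact hup x hx
  · apply csSup_le_csSup _ (hne.image _) (image_mono hsub)
    refine ⟨sSup ((fun x : V => ⟪x, ev θ⟫_ℝ) '' C), ?_⟩
    rintro _ ⟨x, hx, rfl⟩
    exact hup x hx

theorem sInf_img {C : Set V} (hne : C.Nonempty) (hb : Bornology.IsBounded C) (θ : ℝ) :
    sInf ((fun x : V => ⟪x, ev θ⟫_ℝ) '' C) =
      -sSup ((fun x : V => ⟪x, ev (θ + Real.pi)⟫_ℝ) '' C) := by
  have himg : (fun x : V => ⟪x, ev (θ + Real.pi)⟫_ℝ) '' C =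
      -((fun x : V => ⟪x, ev θ⟫_ℝ) '' C) := by
    rw [ev_add_pi]
    ext y
    simp only [mem_image, Set.mem_neg, inner_neg_right]
    constructor
    · rintro ⟨x, hx, rfl⟩; exact ⟨x, hx, by ring⟩
    · rintro ⟨x, hx, h⟩
      refine ⟨x, hx, ?_⟩
      have h' : ⟪x, ev θ⟫_ℝ = -y := h
      rw [h', neg_neg]
  rw [himg, Real.sSup_neg, neg_neg]

theorem vol_img {C : Set V} (hC : IsConnected C) (hb : Bornology.IsBounded C) (θ : ℝ) :
    volume ((fun x : V => ⟪x, ev θ⟫_ℝ) '' C) =
      ENNReal.ofReal (hs (closure (convexHull ℝ C)) θ +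
        hs (closure (convexHull ℝ C)) (θ + Real.pi)) ∧
      0 ≤ hs (closure (convexHull ℝ C)) θ + hs (closure (convexHull ℝ C)) (θ + Real.pi) := by
  have hcont : Continuous (fun x : V => ⟪x, ev θ⟫_ℝ) := continuous_id.inner continuous_const
  have hS : IsConnected ((fun x : V => ⟪x, ev θ⟫_ℝ) '' C) := hC.image _ hcont.continuousOn
  have hba := img_bddAbove hb (ev θ)
  have hbb := img_bddBelow hb (ev θ)
  have h1 : Ioo (sInf ((fun x : V => ⟪x, ev θ⟫_ℝ) '' C)) (sSup ((fun x : V => ⟪x, ev θ⟫_ℝ) '' C))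
      ⊆ (fun x : V => ⟪x, ev θ⟫_ℝ) '' C := hS.Ioo_csInf_csSup_subset hbb hba
  have h2 : (fun x : V => ⟪x, ev θ⟫_ℝ) '' C ⊆
      Icc (sInf ((fun x : V => ⟪x, ev θ⟫_ℝ) '' C)) (sSup ((fun x : V => ⟪x, ev θ⟫_ℝ) '' C)) :=
    subset_Icc_csInf_csSup hbb hba
  rw [hs_hull hC.nonempty hb, hs_hull hC.nonempty hb]
  have h3 := sInf_img hC.nonempty hb θ
  have h4 : sInf ((fun x : V => ⟪x, ev θ⟫_ℝ) '' C) ≤ sSup ((fun x : V => ⟪x, ev θ⟫_ℝ) '' C) :=
    csInf_le_csSup hS.nonempty hbb hba
  constructor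
  · apply le_antisymm
    · refine (measure_mono h2).trans ?_
      rw [Real.volume_Icc, h3]
      exact ENNReal.ofReal_le_ofReal (by linarith)
    · refine le_trans ?_ (measure_mono h1)
      rw [Real.volume_Ioo, h3]
      exact ENNReal.ofReal_le_ofReal (by linarith)
  · rw [h3] at h4
    linarith

end WID

theorem t_WID : S_WID := by
  intro C _ hC hb
  set K := closure (convexHull ℝ C) with hKdef
  have hK : IsCompact K := by
    apply Metric.isCompact_of_isClosed_isBounded isClosed_closure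
    exact (isBounded_convexHull.mpr hb).closure
  have hcont : Continuous (hs K) := WID.hs_continuous hK
  have h1 : ∀ θ : ℝ, volume ((fun x : V => ⟪x, ev θ⟫_ℝ) '' C) =
      ENNReal.ofReal (hs K θ + hs K (θ + Real.pi)) := fun θ => (WID.vol_img hC hb θ).1
  have h2 : ∀ θ : ℝ, 0 ≤ hs K θ + hs K (θ + Real.pi) := fun θ => (WID.vol_img hC hb θ).2
  have hcont2 : Continuous (fun θ => hs K (θ + Real.pi)) :=
    hcont.comp (continuous_id.add continuous_const)
  simp only [h1]
  have hpi : (0 : ℝ) ≤ 2 * Real.pi := by positivity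
  rw [← ofReal_integral_eq_lintegral_ofReal]
  · rw [← intervalIntegral.integral_of_le hpi,
      intervalIntegral.integral_add (hcont.intervalIntegrable _ _)
        (hcont2.intervalIntegrable _ _),
      intervalIntegral.integral_comp_add_right (fun θ => hs K θ) Real.pi]
    have h3 : ∫ θ in (0 + Real.pi)..(2 * Real.pi + Real.pi), hs K θ = W K := by
      unfold W
      have := (WID.hs_periodic K).intervalIntegral_add_eq (0 + Real.pi) 0
      rw [zero_add (2 * Real.pi)] at this
      rw [← this]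
      congr 1
      ring
    rw [h3]
    change 2 * ENNReal.ofReal (W K) = ENNReal.ofReal (W K + W K)
    rw [← two_mul, ENNReal.ofReal_mul (by norm_num)]
    norm_num
  · exact ((hcont.add hcont2).continuousOn.integrableOn_Icc).mono_set Ioc_subset_Icc_self
  · exact Filter.Eventually.of_forall h2

end Pool.Agent.H417R2.CH
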